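import Pool.Agent.Lib.MP_f399a8_ntS.N4

/-!
# Density of the powers of linear forms

`box ν a c d = ν c` if `‖d‖ ≤ p^(-2a) ‖c‖` and `0` otherwise.

PROOF of `zoom`.  Let `f` be as in `near_box` with `r = 2 a`, and
`g (c, d) = (ν p)^(-a) * f (p^a c, p^(-a) d) ∈ LS ν` (`ls_subst`, `ls_smul`).  Let `(c, d)` be primitive.
(i) `‖c‖ = 1`, `‖d‖ ≤ p^(-2a)`: `f (p^a c, p^(-a) d) = ν(p^a) f (c, p^(-2a) d)` (`ls_hom`), so
`g (c, d) = f (c, p^(-2a) d)`, within `κ` of `ν c`.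
(ii) `‖c‖ = 1`, `p^(-2a) < ‖d‖ ≤ 1`: `g (c, d) = f (c, d')` with `d' = p^(-2a) d`, `1 < ‖d'‖ ≤ p^(2a)`:
`f (c, d') = ν d'' f (c / d'', d' / d'')` with `d'' = p^(-b)`, `‖d'‖ = p^b`, `0 < b ≤ 2a`; the vector is
`(c / d'', d'/d'')` with norms `< 1`, `= 1`, so `‖g‖ ≤ ‖ν p‖^(-b) * κ * ‖ν p‖^(2a) ≤ κ`.
(iii) `‖c‖ < 1`, `‖d‖ = 1`: `f (p^a c, p^(-a) d) = ν(p)^(-a) f (p^(2a) c, d)`, so
`‖g‖ ≤ ‖ν p‖^(-2a) κ ‖ν p‖^(2a) = κ`.  In (ii), (iii) `box = 0`.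

PROOF of `one_step`.  Let `φ` be `HomC` with `‖φ‖ ≤ B` on primitive vectors.  If `B = 0` take `0`.  Choose `m` for
`φ` and `ε = κ B`, and `a` with `2 a ≥ m`, `a ≥ 1`.  Let `g` be as in `zoom`.  Let `q = p^(2a)`.
`f (c, d) = ∑_{y < q} φ (1, y) g (c, d - y c) + ∑_{x < q, p ∣ x} φ (x, 1) g (d, c - x d)` (`x, y : ℕ`), in `LS ν`.  On
a primitive vector each term is within `B κ` of the same expression with `box ν a` instead of `g` (the
substituted vectors `(c, d - y c)`, `(d, c - x d)` are primitive).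
If `‖c‖ = 1`: exactly one `y < q` has `‖d - y c‖ ≤ p^(-2a)` (`d / c` modulo `p^(2a)`), and no `x` of the second sum with
`‖c - x d‖ ≤ p^(-2a) ‖d‖` (`‖x d‖ < 1`).  The value is `φ (1, y) ν c = φ (c, y c)`, and `(c, d)`, `(c, y c)` are
primitive and `p^(-m)`-close: within `κ B` of `φ (c, d)`.
If `‖c‖ < 1`, `‖d‖ = 1`: the first sum vanishes: `‖d - y c‖ ≤ p^(-2a) ‖c‖ < 1` is impossible.  In the second sum exactly
one `x`: `x ≡ c / d` modulo `p^(2a)`, divisible by `p`.  Value `φ (x, 1) ν d = φ (x d, d)`, close to `φ (c, d)`.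

PROOF of `lin_dense`.  `φ₀ (c, d) = ν d` if `‖c‖ ≤ ‖d‖`, else `0`, is `HomC` (the condition is
locally constant on primitive vectors: for primitive vectors closer than `1`, `‖c‖ ≤ ‖d‖` means `‖d‖ = 1`, which is
stable; `ν` is uniformly continuous on the compact unit ball), bounded by `1` on primitive vectors.  Iterate
`one_step` (`φ - f` is `HomC`: `ls_hom`): `‖φ₀ - f_k‖ ≤ κ^k ≤ ε`.
-/

namespace Pool.Agent.Lib.MP_f399a8_nt.S

noncomputable section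

variable {p : ℕ} [Fact p.Prime] {C : Type*} [NormedField C] [NormedAlgebra ℚ_[p] C]
  [IsUltrametricDist C]

open Classical in
/-- the function supported near the line of `(1, 0)` -/
def box (ν : ℚ_[p] → C) (a : ℕ) (c d : ℚ_[p]) : C :=
  if ‖d‖ ≤ (p : ℝ) ^ (-((2 * a : ℕ) : ℤ)) * ‖c‖ then ν c else 0

omit [NormedAlgebra ℚ_[p] C] [IsUltrametricDist C] in
private theorem N5_le_one {ν : ℚ_[p] →*₀ C} (hν : Continuous ν) {x : ℚ_[p]} (hx : ‖x‖ ≤ 1) :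
    ‖ν x‖ ≤ 1 := by
  obtain ⟨M, hM⟩ := (isCompact_closedBall (0 : ℚ_[p]) 1).exists_bound_of_continuousOn
    hν.continuousOn
  by_contra hc
  push Not at hc
  obtain ⟨n, hn⟩ := pow_unbounded_of_one_lt M hc
  have h1 := hM (x ^ n) (by
    rw [mem_closedBall_zero_iff, norm_pow]
    exact pow_le_one₀ (norm_nonneg _) hx)
  rw [map_pow, norm_pow] at h1
  linarith

private theorem N5_prim_cases {c d : ℚ_[p]} (h : Prim c d) :
    (‖c‖ = 1 ∧ ‖d‖ ≤ 1) ∨ (‖c‖ < 1 ∧ ‖d‖ = 1) := by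
  unfold Prim at h
  have hc : ‖c‖ ≤ 1 := h ▸ le_max_left _ _
  have hd : ‖d‖ ≤ 1 := h ▸ le_max_right _ _
  rcases eq_or_lt_of_le hc with h1 | h1
  · exact Or.inl ⟨h1, hd⟩
  · refine Or.inr ⟨h1, ?_⟩
    rcases eq_or_lt_of_le hd with h2 | h2
    · exact h2
    · exact absurd h (max_lt h1 h2).ne

private theorem N5_prim_symm {c d : ℚ_[p]} (h : Prim c d) : Prim d c := by
  unfold Prim at *
  rw [max_comm]
  exact h

private theorem N5_prim_mk {c d : ℚ_[p]} (h : (‖c‖ = 1 ∧ ‖d‖ ≤ 1) ∨ (‖c‖ < 1 ∧ ‖d‖ = 1)) :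
    Prim c d := by
  unfold Prim
  rcases h with ⟨h1, h2⟩ | ⟨h1, h2⟩
  · rw [h1, max_eq_left h2]
  · rw [h2, max_eq_right h1.le]

private theorem N5_norm_sub_eq {x y : ℚ_[p]} (h : ‖y‖ < ‖x‖) : ‖x - y‖ = ‖x‖ := by
  have h1 : ‖x‖ ≠ ‖-y‖ := by
    rw [norm_neg]
    exact h.ne'
  rw [sub_eq_add_neg, IsUltrametricDist.norm_add_eq_max_of_norm_ne_norm h1, norm_neg,
    max_eq_left h.le]

private theorem N5_norm_sub_le {x y : ℚ_[p]} {b : ℝ} (hx : ‖x‖ ≤ b) (hy : ‖y‖ ≤ b) :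
    ‖x - y‖ ≤ b := by
  rw [sub_eq_add_neg]
  refine (IsUltrametricDist.norm_add_le_max _ _).trans (max_le hx ?_)
  rw [norm_neg]
  exact hy

private theorem N5_prim_sub {c d y : ℚ_[p]} (h : Prim c d) (hy : ‖y‖ ≤ 1) :
    Prim c (d - y * c) := by
  have hyc : ‖y * c‖ ≤ ‖c‖ := by
    rw [norm_mul]
    exact mul_le_of_le_one_left (norm_nonneg _) hy
  rcases N5_prim_cases h with ⟨h1, h2⟩ | ⟨h1, h2⟩
  · exact N5_prim_mk (Or.inl ⟨h1, N5_norm_sub_le h2 (hyc.trans h1.le)⟩)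
  · refine N5_prim_mk (Or.inr ⟨h1, ?_⟩)
    rw [N5_norm_sub_eq (by rw [h2]; exact hyc.trans_lt h1), h2]

private theorem N5_nat (k : ℕ) : ‖(k : ℚ_[p])‖ ≤ 1 := by
  exact_mod_cast Padic.norm_int_le_one (k : ℤ)

/-- representatives modulo `p ^ n` -/
private theorem N5_rep {z : ℚ_[p]} (hz : ‖z‖ ≤ 1) (n : ℕ) :
    ∃ y : ℕ, y < p ^ n ∧ ‖z - y‖ ≤ (p : ℝ) ^ (-(n : ℤ)) := by
  let zz : ℤ_[p] := ⟨z, hz⟩
  refine ⟨zz.appr n, PadicInt.appr_lt _ _, ?_⟩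
  have h1 : ‖zz - ((zz.appr n : ℕ) : ℤ_[p])‖ ≤ (p : ℝ) ^ (-(n : ℤ)) := by
    rw [PadicInt.norm_le_pow_iff_mem_span_pow]
    exact PadicInt.appr_spec _ _
  have h2 : ‖zz - ((zz.appr n : ℕ) : ℤ_[p])‖ = ‖z - ((zz.appr n : ℕ) : ℚ_[p])‖ := by
    rw [PadicInt.norm_def]
    push_cast
    rfl
  rw [← h2]
  exact h1

private theorem N5_rep_unique {n y y' : ℕ} (hy : y < p ^ n) (hy' : y' < p ^ n)
    (h : ‖(y : ℚ_[p]) - y'‖ ≤ (p : ℝ) ^ (-(n : ℤ))) : y = y' := by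
  have h1 : ‖(((y : ℤ) - (y' : ℤ) : ℤ) : ℚ_[p])‖ ≤ (p : ℝ) ^ (-(n : ℤ)) := by
    push_cast
    exact h
  rw [Padic.norm_int_le_pow_iff_dvd] at h1
  have h2 : ((p ^ n : ℕ) : ℤ) ∣ (y : ℤ) - y' := by
    push_cast
    exact h1
  have h3 : (y' : ℤ) ≡ y [ZMOD ((p ^ n : ℕ) : ℤ)] := (Int.modEq_iff_dvd).2 h2
  have h4 : y' ≡ y [MOD p ^ n] := (Int.natCast_modEq_iff).1 h3
  exact (Nat.ModEq.eq_of_lt_of_lt h4 hy' hy).symm

omit [NormedAlgebra ℚ_[p] C] [IsUltrametricDist C] in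
private theorem N5_zero {ν : ℚ_[p] →*₀ C} : (fun _ _ => 0 : ℚ_[p] → ℚ_[p] → C) ∈ LS ν :=
  ⟨0, fun _ => 0, fun _ => 0, fun _ => 0, fun q => q.elim0, fun c d => by simp⟩

private theorem N5_sum {ν : ℚ_[p] →*₀ C} {ι : Type*} (s : Finset ι)
    (f : ι → ℚ_[p] → ℚ_[p] → C) (h : ∀ i ∈ s, f i ∈ LS ν) :
    (fun c d => ∑ i ∈ s, f i c d) ∈ LS ν := by
  classical
  induction s using Finset.induction_on with
  | empty =>
    simp only [Finset.sum_empty]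
    exact N5_zero
  | insert i s hi ih =>
    simp only [Finset.sum_insert hi]
    exact ls_add (h i (Finset.mem_insert_self _ _))
      (ih fun j hj => h j (Finset.mem_insert_of_mem hj))

private theorem N5_hom_sub {ν : ℚ_[p] →*₀ C} {φ ψ : ℚ_[p] → ℚ_[p] → C} (h1 : HomC ν φ)
    (h2 : HomC ν ψ) : HomC ν (fun c d => φ c d - ψ c d) := by
  refine ⟨fun s c d hs => ?_, fun ε hε => ?_⟩
  · show φ (s * c) (s * d) - ψ (s * c) (s * d) = ν s * (φ c d - ψ c d)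
    rw [h1.1 s c d hs, h2.1 s c d hs]
    ring
  · obtain ⟨m, hm⟩ := h1.2 ε hε
    obtain ⟨m', hm'⟩ := h2.2 ε hε
    have hp1 : 1 ≤ (p : ℝ) := by exact_mod_cast (Fact.out : p.Prime).one_lt.le
    refine ⟨max m m', fun c d c' d' hc hc' h3 h4 => ?_⟩
    have e1 : (p : ℝ) ^ (-((max m m' : ℕ) : ℤ)) ≤ (p : ℝ) ^ (-(m : ℤ)) :=
      zpow_le_zpow_right₀ hp1 (by have := le_max_left m m'; omega)
    have e2 : (p : ℝ) ^ (-((max m m' : ℕ) : ℤ)) ≤ (p : ℝ) ^ (-(m' : ℤ)) :=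
      zpow_le_zpow_right₀ hp1 (by have := le_max_right m m'; omega)
    have h5 := hm c d c' d' hc hc' (h3.trans e1) (h4.trans e1)
    have h6 := hm' c d c' d' hc hc' (h3.trans e2) (h4.trans e2)
    have h7 : φ c d - ψ c d - (φ c' d' - ψ c' d') =
        (φ c d - φ c' d') + -(ψ c d - ψ c' d') := by ring
    show ‖φ c d - ψ c d - (φ c' d' - ψ c' d')‖ ≤ ε
    rw [h7]
    refine (IsUltrametricDist.norm_add_le_max _ _).trans (max_le h5 ?_)
    rw [norm_neg]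
    exact h6

theorem zoom {ν : ℚ_[p] →*₀ C} (hν : Continuous ν) (h1 : ‖ν (p : ℚ_[p])‖ < 1)
    (hk : ¬ ∃ l : ℕ, ∀ x : ℚ_[p], ν x = (algebraMap ℚ_[p] C x) ^ l) {κ : ℝ} (hκ0 : 0 < κ)
    (hκ : ∀ c : C, ‖c‖ < 1 → ‖c‖ ≤ κ) (a : ℕ) :
    ∃ f ∈ LS ν, ∀ c d : ℚ_[p], Prim c d → ‖f c d - box ν a c d‖ ≤ κ := by
  have hpr : p.Prime := Fact.out
  have hp1 : 1 < (p : ℝ) := by exact_mod_cast hpr.one_lt
  have hp0 : 0 < (p : ℝ) := by linarith
  obtain ⟨f, hf, hf1, hf2⟩ := near_box hν h1 hk hκ0 hκ (2 * a)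
  have hom := (ls_hom hν hf).1
  set P : ℚ_[p] := (p : ℚ_[p]) with hP
  have hP0 : P ≠ 0 := by
    rw [hP]
    exact_mod_cast hpr.ne_zero
  have hPn : ‖P‖ = (p : ℝ)⁻¹ := Padic.norm_p
  have hνP0 : ν P ≠ 0 := (map_ne_zero ν).2 hP0
  have hνP : 0 < ‖ν P‖ := norm_pos_iff.2 hνP0
  refine ⟨fun c d => (ν P ^ a)⁻¹ * f (P ^ a * c + 0 * d) (0 * c + (P ^ a)⁻¹ * d),
    ls_smul _ (ls_subst hf (α := P ^ a) (β := 0) (γ := 0) (δ := (P ^ a)⁻¹) ?_), ?_⟩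
  · rw [mul_zero, sub_zero, mul_inv_cancel₀ (pow_ne_zero _ hP0)]
    exact one_ne_zero
  intro c d hcd
  have e1 : P ^ a * c + 0 * d = P ^ a * c := by ring
  have e2 : 0 * c + (P ^ a)⁻¹ * d = P ^ a * ((P ^ (2 * a))⁻¹ * d) := by
    rw [two_mul, pow_add]
    field_simp
    ring
  have hg : (ν P ^ a)⁻¹ * f (P ^ a * c + 0 * d) (0 * c + (P ^ a)⁻¹ * d) =
      f c ((P ^ (2 * a))⁻¹ * d) := by
    rw [e1, e2, hom (P ^ a) _ _ (pow_ne_zero _ hP0), map_pow]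
    field_simp
  show ‖(ν P ^ a)⁻¹ * f (P ^ a * c + 0 * d) (0 * c + (P ^ a)⁻¹ * d) - box ν a c d‖ ≤ κ
  rw [hg]
  set d' : ℚ_[p] := (P ^ (2 * a))⁻¹ * d with hd'
  have hd'n : ‖d'‖ = (p : ℝ) ^ (2 * a) * ‖d‖ := by
    rw [hd', norm_mul, norm_inv, norm_pow, hPn, inv_pow, inv_inv]
  have hpz : (p : ℝ) ^ (-((2 * a : ℕ) : ℤ)) = ((p : ℝ) ^ (2 * a))⁻¹ := by
    rw [zpow_neg, zpow_natCast]
  have hνd' : ν d' = (ν P ^ (2 * a))⁻¹ * ν d := by
    rw [hd', map_mul, map_inv₀, map_pow]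
  -- the two cases where `box = 0`
  have hlarge : 1 < ‖d'‖ → ‖c‖ ≤ 1 → ‖d‖ ≤ 1 → ‖f c d'‖ ≤ κ := by
    intro h3 hc hd
    have hd'0 : d' ≠ 0 := by
      intro h4
      rw [h4, norm_zero] at h3
      linarith
    have h4 := hom d' (c / d') 1 hd'0
    have h5 : d' * (c / d') = c := by field_simp
    rw [h5, mul_one] at h4
    rw [h4, norm_mul, hνd', norm_mul, norm_inv, norm_pow]
    have h6 := hf2 (c / d') 1 (by
      rw [norm_div, div_lt_one (by linarith)]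
      exact hc.trans_lt h3) norm_one
    have h7 : ‖ν d‖ ≤ 1 := N5_le_one hν hd
    calc (‖ν P‖ ^ (2 * a))⁻¹ * ‖ν d‖ * ‖f (c / d') 1‖
        ≤ (‖ν P‖ ^ (2 * a))⁻¹ * 1 * (κ * ‖ν P‖ ^ (2 * a)) :=
          mul_le_mul (mul_le_mul_of_nonneg_left h7 (by positivity)) h6 (norm_nonneg _)
            (by positivity)
      _ = κ := by field_simp
  unfold box
  rcases N5_prim_cases hcd with ⟨hc, hd⟩ | ⟨hc, hd⟩
  · by_cases h3 : ‖d‖ ≤ (p : ℝ) ^ (-((2 * a : ℕ) : ℤ)) * ‖c‖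
    · rw [if_pos h3]
      rw [hc, mul_one, hpz] at h3
      refine hf1 c d' hc ?_
      rw [hd'n]
      calc (p : ℝ) ^ (2 * a) * ‖d‖ ≤ (p : ℝ) ^ (2 * a) * ((p : ℝ) ^ (2 * a))⁻¹ :=
            mul_le_mul_of_nonneg_left h3 (by positivity)
        _ = 1 := mul_inv_cancel₀ (by positivity)
    · rw [if_neg h3, sub_zero]
      rw [hc, mul_one, hpz] at h3
      push Not at h3
      refine hlarge ?_ hc.le hd
      rw [hd'n]
      calc (1 : ℝ) = (p : ℝ) ^ (2 * a) * ((p : ℝ) ^ (2 * a))⁻¹ :=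
            (mul_inv_cancel₀ (by positivity)).symm
        _ < (p : ℝ) ^ (2 * a) * ‖d‖ := mul_lt_mul_of_pos_left h3 (by positivity)
  · have h3 : ¬ ‖d‖ ≤ (p : ℝ) ^ (-((2 * a : ℕ) : ℤ)) * ‖c‖ := by
      rw [hd, hpz, not_le]
      have h4 : ((p : ℝ) ^ (2 * a))⁻¹ ≤ 1 := inv_le_one_of_one_le₀ (one_le_pow₀ hp1.le)
      calc ((p : ℝ) ^ (2 * a))⁻¹ * ‖c‖ ≤ 1 * ‖c‖ :=
            mul_le_mul_of_nonneg_right h4 (norm_nonneg _)
        _ < 1 := by rw [one_mul]; exact hc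
    rw [if_neg h3, sub_zero]
    -- `d' = P ^ (-2a) d`
    have h4 := hom ((P ^ (2 * a))⁻¹) (P ^ (2 * a) * c) d (inv_ne_zero (pow_ne_zero _ hP0))
    have h5 : (P ^ (2 * a))⁻¹ * (P ^ (2 * a) * c) = c := by field_simp
    rw [h5, ← hd'] at h4
    rw [h4, norm_mul, map_inv₀, map_pow, norm_inv, norm_pow]
    have h6 := hf2 (P ^ (2 * a) * c) d (by
      rw [norm_mul, norm_pow, hPn]
      have h7 : ((p : ℝ)⁻¹) ^ (2 * a) ≤ 1 :=
        pow_le_one₀ (by positivity) (inv_le_one_of_one_le₀ hp1.le)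
      calc ((p : ℝ)⁻¹) ^ (2 * a) * ‖c‖ ≤ 1 * ‖c‖ :=
            mul_le_mul_of_nonneg_right h7 (norm_nonneg _)
        _ < 1 := by rw [one_mul]; exact hc) hd
    calc (‖ν P‖ ^ (2 * a))⁻¹ * ‖f (P ^ (2 * a) * c) d‖
        ≤ (‖ν P‖ ^ (2 * a))⁻¹ * (κ * ‖ν P‖ ^ (2 * a)) :=
          mul_le_mul_of_nonneg_left h6 (by positivity)
      _ = κ := by field_simp

theorem one_step {ν : ℚ_[p] →*₀ C} (hν : Continuous ν) (h1 : ‖ν (p : ℚ_[p])‖ < 1)
    (hk : ¬ ∃ l : ℕ, ∀ x : ℚ_[p], ν x = (algebraMap ℚ_[p] C x) ^ l) {κ : ℝ} (hκ0 : 0 < κ)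
    (hκ : ∀ c : C, ‖c‖ < 1 → ‖c‖ ≤ κ) {φ : ℚ_[p] → ℚ_[p] → C} (hφ : HomC ν φ) {B : ℝ}
    (hB : 0 ≤ B) (hφB : ∀ c d : ℚ_[p], Prim c d → ‖φ c d‖ ≤ B) :
    ∃ f ∈ LS ν, ∀ c d : ℚ_[p], Prim c d → ‖φ c d - f c d‖ ≤ κ * B := by
  rcases eq_or_lt_of_le hB with hB0 | hB0
  · refine ⟨fun _ _ => 0, N5_zero, fun c d h => ?_⟩
    rw [sub_zero, ← hB0, mul_zero, hB0]
    exact hφB c d h
  have hpr : p.Prime := Fact.out
  have hp1 : 1 < (p : ℝ) := by exact_mod_cast hpr.one_lt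
  have hp0 : 0 < (p : ℝ) := by linarith
  obtain ⟨m, hm⟩ := hφ.2 (κ * B) (by positivity)
  set a : ℕ := m + 1 with ha
  obtain ⟨g, hg, hgb⟩ := zoom hν h1 hk hκ0 hκ a
  set S : Finset ℕ := Finset.range (p ^ (2 * a)) with hS
  set S' : Finset ℕ := S.filter fun x => p ∣ x with hS'
  have hpa : (p : ℝ) ^ (-((2 * a : ℕ) : ℤ)) ≤ (p : ℝ) ^ (-(m : ℤ)) :=
    zpow_le_zpow_right₀ hp1.le (by omega)
  have hpa1 : (p : ℝ) ^ (-((2 * a : ℕ) : ℤ)) < 1 :=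
    zpow_lt_one_of_neg₀ hp1 (by omega)
  have hP1 : ∀ y : ℕ, Prim (1 : ℚ_[p]) (y : ℚ_[p]) := fun y =>
    N5_prim_mk (Or.inl ⟨norm_one, N5_nat y⟩)
  have hP2 : ∀ y : ℕ, Prim (y : ℚ_[p]) (1 : ℚ_[p]) := fun y => N5_prim_symm (hP1 y)
  refine ⟨fun c d => (∑ y ∈ S, φ 1 y * g (1 * c + 0 * d) (-(y : ℚ_[p]) * c + 1 * d)) +
    ∑ x ∈ S', φ x 1 * g (0 * c + 1 * d) (1 * c + -(x : ℚ_[p]) * d), ?_, ?_⟩
  · refine ls_add (N5_sum S (fun y c d => φ 1 y * g (1 * c + 0 * d)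
      (-(y : ℚ_[p]) * c + 1 * d)) fun y _ => ?_)
      (N5_sum S' (fun x c d => φ x 1 * g (0 * c + 1 * d)
      (1 * c + -(x : ℚ_[p]) * d)) fun x _ => ?_)
    · exact ls_smul _ (ls_subst hg (by simp))
    · exact ls_smul _ (ls_subst hg (by simp))
  intro c d hcd
  show ‖φ c d - ((∑ y ∈ S, φ 1 y * g (1 * c + 0 * d) (-(y : ℚ_[p]) * c + 1 * d)) +
    ∑ x ∈ S', φ x 1 * g (0 * c + 1 * d) (1 * c + -(x : ℚ_[p]) * d))‖ ≤ κ * B
  -- comparison with `box`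
  have hcomp1 : ‖(∑ y ∈ S, φ 1 y * box ν a c (d - (y : ℚ_[p]) * c)) -
      ∑ y ∈ S, φ 1 y * g (1 * c + 0 * d) (-(y : ℚ_[p]) * c + 1 * d)‖ ≤ κ * B := by
    rw [← Finset.sum_sub_distrib]
    refine IsUltrametricDist.norm_sum_le_of_forall_le_of_nonneg (by positivity) fun y _ => ?_
    have e1 : (1 : ℚ_[p]) * c + 0 * d = c := by ring
    have e2 : -(y : ℚ_[p]) * c + 1 * d = d - (y : ℚ_[p]) * c := by ring
    rw [e1, e2, ← mul_sub, norm_mul, ← norm_neg (box ν a c (d - (y : ℚ_[p]) * c) - _), neg_sub,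
      mul_comm κ B]
    exact mul_le_mul (hφB _ _ (hP1 y)) (hgb _ _ (N5_prim_sub hcd (N5_nat y))) (norm_nonneg _) hB
  have hcomp2 : ‖(∑ x ∈ S', φ x 1 * box ν a d (c - (x : ℚ_[p]) * d)) -
      ∑ x ∈ S', φ x 1 * g (0 * c + 1 * d) (1 * c + -(x : ℚ_[p]) * d)‖ ≤ κ * B := by
    rw [← Finset.sum_sub_distrib]
    refine IsUltrametricDist.norm_sum_le_of_forall_le_of_nonneg (by positivity) fun x _ => ?_
    have e1 : (0 : ℚ_[p]) * c + 1 * d = d := by ring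
    have e2 : 1 * c + -(x : ℚ_[p]) * d = c - (x : ℚ_[p]) * d := by ring
    rw [e1, e2, ← mul_sub, norm_mul, ← norm_neg (box ν a d (c - (x : ℚ_[p]) * d) - _), neg_sub,
      mul_comm κ B]
    exact mul_le_mul (hφB _ _ (hP2 x)) (hgb _ _ (N5_prim_sub (N5_prim_symm hcd) (N5_nat x)))
      (norm_nonneg _) hB
  -- the main term
  have hmain : ‖φ c d - ((∑ y ∈ S, φ 1 y * box ν a c (d - (y : ℚ_[p]) * c)) +
      ∑ x ∈ S', φ x 1 * box ν a d (c - (x : ℚ_[p]) * d))‖ ≤ κ * B := by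
    rcases N5_prim_cases hcd with ⟨hc, hd⟩ | ⟨hc, hd⟩
    · have hc0 : c ≠ 0 := by
        rintro rfl
        rw [norm_zero] at hc
        exact zero_ne_one hc
      have hs2 : ∑ x ∈ S', φ x 1 * box ν a d (c - (x : ℚ_[p]) * d) = 0 := by
        refine Finset.sum_eq_zero fun x hx => ?_
        have hpx : p ∣ x := (Finset.mem_filter.1 hx).2
        have h3 : ‖(x : ℚ_[p])‖ < 1 := by
          obtain ⟨k, rfl⟩ := hpx
          push_cast
          rw [norm_mul, Padic.norm_p]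
          calc (p : ℝ)⁻¹ * ‖(k : ℚ_[p])‖ ≤ (p : ℝ)⁻¹ * 1 :=
                mul_le_mul_of_nonneg_left (N5_nat k) (by positivity)
            _ < 1 := by rw [mul_one]; exact inv_lt_one_of_one_lt₀ hp1
        have h4 : ‖(x : ℚ_[p]) * d‖ < ‖c‖ := by
          rw [hc, norm_mul]
          calc ‖(x : ℚ_[p])‖ * ‖d‖ ≤ ‖(x : ℚ_[p])‖ * 1 :=
                mul_le_mul_of_nonneg_left hd (norm_nonneg _)
            _ < 1 := by rw [mul_one]; exact h3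
        unfold box
        rw [if_neg, mul_zero]
        rw [N5_norm_sub_eq h4, hc, not_le]
        calc (p : ℝ) ^ (-((2 * a : ℕ) : ℤ)) * ‖d‖ ≤ (p : ℝ) ^ (-((2 * a : ℕ) : ℤ)) * 1 :=
              mul_le_mul_of_nonneg_left hd (by positivity)
          _ < 1 := by rw [mul_one]; exact hpa1
      obtain ⟨y₀, hy₀, hy₀'⟩ := N5_rep (z := d / c) (by rw [norm_div, hc, div_one]; exact hd)
        (2 * a)
      have h3 : ‖d - (y₀ : ℚ_[p]) * c‖ ≤ (p : ℝ) ^ (-((2 * a : ℕ) : ℤ)) := by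
        have h4 : d - (y₀ : ℚ_[p]) * c = (d / c - y₀) * c := by field_simp
        rw [h4, norm_mul, hc, mul_one]
        exact hy₀'
      have hs1 : ∑ y ∈ S, φ 1 y * box ν a c (d - (y : ℚ_[p]) * c) = φ 1 y₀ * ν c := by
        rw [Finset.sum_eq_single y₀]
        · unfold box
          rw [if_pos (by rw [hc, mul_one]; exact h3)]
        · intro y hy hne
          unfold box
          rw [if_neg, mul_zero]
          intro h5
          rw [hc, mul_one] at h5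
          apply hne
          refine N5_rep_unique (p := p) (n := 2 * a) (Finset.mem_range.1 hy) hy₀ ?_
          have h6 : ‖((y : ℚ_[p]) - y₀) * c‖ ≤ (p : ℝ) ^ (-((2 * a : ℕ) : ℤ)) := by
            have h7 : ((y : ℚ_[p]) - y₀) * c = (d - (y₀ : ℚ_[p]) * c) - (d - (y : ℚ_[p]) * c) := by
              ring
            rw [h7]
            exact N5_norm_sub_le h3 h5
          rw [norm_mul, hc, mul_one] at h6
          exact h6
        · intro h5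
          exact absurd (Finset.mem_range.2 hy₀) h5
      rw [hs1, hs2, add_zero]
      have h4 := hφ.1 c 1 y₀ hc0
      rw [mul_one] at h4
      rw [mul_comm (φ 1 y₀), ← h4]
      refine hm c d c (c * y₀) hcd ?_ ?_ ?_
      · refine N5_prim_mk (Or.inl ⟨hc, ?_⟩)
        rw [norm_mul, hc, one_mul]
        exact N5_nat y₀
      · rw [sub_self, norm_zero]
        positivity
      · rw [mul_comm c]
        exact h3.trans hpa
    · have hd0 : d ≠ 0 := by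
        rintro rfl
        rw [norm_zero] at hd
        exact zero_ne_one hd
      have hs1 : ∑ y ∈ S, φ 1 y * box ν a c (d - (y : ℚ_[p]) * c) = 0 := by
        refine Finset.sum_eq_zero fun y _ => ?_
        have h4 : ‖(y : ℚ_[p]) * c‖ < ‖d‖ := by
          rw [hd, norm_mul]
          calc ‖(y : ℚ_[p])‖ * ‖c‖ ≤ 1 * ‖c‖ :=
                mul_le_mul_of_nonneg_right (N5_nat y) (norm_nonneg _)
            _ < 1 := by rw [one_mul]; exact hc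
        unfold box
        rw [if_neg, mul_zero]
        rw [N5_norm_sub_eq h4, hd, not_le]
        calc (p : ℝ) ^ (-((2 * a : ℕ) : ℤ)) * ‖c‖ ≤ 1 * ‖c‖ :=
              mul_le_mul_of_nonneg_right hpa1.le (norm_nonneg _)
          _ < 1 := by rw [one_mul]; exact hc
      obtain ⟨x₀, hx₀, hx₀'⟩ := N5_rep (z := c / d) (by rw [norm_div, hd, div_one]; exact hc.le)
        (2 * a)
      have h3 : ‖c - (x₀ : ℚ_[p]) * d‖ ≤ (p : ℝ) ^ (-((2 * a : ℕ) : ℤ)) := by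
        have h4 : c - (x₀ : ℚ_[p]) * d = (c / d - x₀) * d := by field_simp
        rw [h4, norm_mul, hd, mul_one]
        exact hx₀'
      have hx₀p : p ∣ x₀ := by
        have h4 : ‖((x₀ : ℤ) : ℚ_[p])‖ < 1 := by
          have h5 : ((x₀ : ℤ) : ℚ_[p]) = c / d - (c / d - x₀) := by
            push_cast
            ring
          have h6 : ‖c / d‖ < 1 := by
            rw [norm_div, hd, div_one]
            exact hc
          rw [h5, sub_eq_add_neg]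
          refine (IsUltrametricDist.norm_add_le_max _ _).trans_lt (max_lt h6 ?_)
          rw [norm_neg]
          exact hx₀'.trans_lt hpa1
        rw [Padic.norm_intCast_lt_one_iff] at h4
        exact_mod_cast h4
      have hs2 : ∑ x ∈ S', φ x 1 * box ν a d (c - (x : ℚ_[p]) * d) = φ x₀ 1 * ν d := by
        rw [Finset.sum_eq_single x₀]
        · unfold box
          rw [if_pos (by rw [hd, mul_one]; exact h3)]
        · intro y hy hne
          unfold box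
          rw [if_neg, mul_zero]
          intro h5
          rw [hd, mul_one] at h5
          apply hne
          refine N5_rep_unique (p := p) (n := 2 * a)
            (Finset.mem_range.1 (Finset.mem_filter.1 hy).1) hx₀ ?_
          have h6 : ‖((y : ℚ_[p]) - x₀) * d‖ ≤ (p : ℝ) ^ (-((2 * a : ℕ) : ℤ)) := by
            have h7 : ((y : ℚ_[p]) - x₀) * d = (c - (x₀ : ℚ_[p]) * d) - (c - (y : ℚ_[p]) * d) := by
              ring
            rw [h7]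
            exact N5_norm_sub_le h3 h5
          rw [norm_mul, hd, mul_one] at h6
          exact h6
        · intro h5
          exact absurd (Finset.mem_filter.2 ⟨Finset.mem_range.2 hx₀, hx₀p⟩) h5
      rw [hs1, hs2, zero_add]
      have h4 := hφ.1 d x₀ 1 hd0
      rw [mul_one] at h4
      rw [mul_comm (φ x₀ 1), ← h4]
      refine hm c d (d * x₀) d hcd ?_ ?_ ?_
      · refine N5_prim_symm (N5_prim_mk (Or.inl ⟨hd, ?_⟩))
        rw [norm_mul, hd, one_mul]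
        exact N5_nat x₀
      · rw [mul_comm d]
        exact h3.trans hpa
      · rw [sub_self, norm_zero]
        positivity
  have hfin : φ c d - ((∑ y ∈ S, φ 1 y * g (1 * c + 0 * d) (-(y : ℚ_[p]) * c + 1 * d)) +
      ∑ x ∈ S', φ x 1 * g (0 * c + 1 * d) (1 * c + -(x : ℚ_[p]) * d)) =
      (φ c d - ((∑ y ∈ S, φ 1 y * box ν a c (d - (y : ℚ_[p]) * c)) +
      ∑ x ∈ S', φ x 1 * box ν a d (c - (x : ℚ_[p]) * d))) +
      (((∑ y ∈ S, φ 1 y * box ν a c (d - (y : ℚ_[p]) * c)) -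
      ∑ y ∈ S, φ 1 y * g (1 * c + 0 * d) (-(y : ℚ_[p]) * c + 1 * d)) +
      ((∑ x ∈ S', φ x 1 * box ν a d (c - (x : ℚ_[p]) * d)) -
      ∑ x ∈ S', φ x 1 * g (0 * c + 1 * d) (1 * c + -(x : ℚ_[p]) * d))) := by ring
  rw [hfin]
  exact (IsUltrametricDist.norm_add_le_max _ _).trans (max_le hmain
    ((IsUltrametricDist.norm_add_le_max _ _).trans (max_le hcomp1 hcomp2)))

open Classical in
private theorem N5_phi0 {ν : ℚ_[p] →*₀ C} (hν : Continuous ν) :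
    HomC ν (fun c d => if ‖c‖ ≤ ‖d‖ then ν d else 0) := by
  have hpr : p.Prime := Fact.out
  have hp1 : 1 < (p : ℝ) := by exact_mod_cast hpr.one_lt
  refine ⟨fun s c d hs => ?_, fun ε hε => ?_⟩
  · have hs' : 0 < ‖s‖ := norm_pos_iff.2 hs
    show (if ‖s * c‖ ≤ ‖s * d‖ then ν (s * d) else 0) = ν s * (if ‖c‖ ≤ ‖d‖ then ν d else 0)
    rw [norm_mul, norm_mul]
    by_cases h : ‖c‖ ≤ ‖d‖
    · rw [if_pos h, if_pos (mul_le_mul_of_nonneg_left h hs'.le), map_mul]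
    · rw [if_neg h, if_neg (fun h2 => h (le_of_mul_le_mul_left h2 hs')), mul_zero]
  · have huc := (isCompact_closedBall (0 : ℚ_[p]) 1).uniformContinuousOn_of_continuous
      hν.continuousOn
    obtain ⟨δ, hδ, hδ'⟩ := Metric.uniformContinuousOn_iff.1 huc ε hε
    have hpinv : (p : ℝ)⁻¹ < 1 := inv_lt_one_of_one_lt₀ hp1
    obtain ⟨k, hk⟩ := exists_pow_lt_of_lt_one hδ hpinv
    have hk1 : (p : ℝ) ^ (-((k + 1 : ℕ) : ℤ)) < 1 := zpow_lt_one_of_neg₀ hp1 (by omega)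
    have hk2 : (p : ℝ) ^ (-((k + 1 : ℕ) : ℤ)) < δ := by
      rw [zpow_neg, zpow_natCast, ← inv_pow]
      exact (pow_le_pow_of_le_one (by positivity) hpinv.le (Nat.le_succ k)).trans_lt hk
    refine ⟨k + 1, fun c d c' d' hc hc' h3 h4 => ?_⟩
    have hiff : ∀ {x y : ℚ_[p]}, Prim x y → (‖x‖ ≤ ‖y‖ ↔ ‖y‖ = 1) := by
      intro x y h
      rcases N5_prim_cases h with ⟨h5, h6⟩ | ⟨h5, h6⟩
      · rw [h5]
        exact ⟨fun h7 => le_antisymm h6 h7, fun h7 => h7.ge⟩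
      · rw [h6]
        exact ⟨fun _ => rfl, fun _ => h5.le⟩
    have hone : ∀ {x y : ℚ_[p]}, ‖x - y‖ < 1 → ‖x‖ = 1 → ‖y‖ = 1 := by
      intro x y h5 h6
      have h7 : y = x - (x - y) := by ring
      rw [h7, N5_norm_sub_eq (by rw [h6]; exact h5), h6]
    show ‖(if ‖c‖ ≤ ‖d‖ then ν d else 0) - (if ‖c'‖ ≤ ‖d'‖ then ν d' else 0)‖ ≤ ε
    by_cases hd : ‖d‖ = 1
    · have hd' : ‖d'‖ = 1 := hone (h4.trans_lt hk1) hd
      rw [if_pos ((hiff hc).2 hd), if_pos ((hiff hc').2 hd')]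
      have h5 := hδ' d (mem_closedBall_zero_iff.2 hd.le) d' (mem_closedBall_zero_iff.2 hd'.le)
        (by rw [dist_eq_norm]; exact h4.trans_lt hk2)
      rw [dist_eq_norm] at h5
      exact h5.le
    · have hd' : ¬ ‖d'‖ = 1 := fun h5 => hd (hone (by rw [norm_sub_rev]; exact h4.trans_lt hk1) h5)
      rw [if_neg (fun h5 => hd ((hiff hc).1 h5)), if_neg (fun h5 => hd' ((hiff hc').1 h5)),
        sub_zero, norm_zero]
      exact hε.le

open Classical in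
theorem lin_dense [FiniteDimensional ℚ_[p] C] {ν : ℚ_[p] →*₀ C} (hν : Continuous ν)
    (h1 : ‖ν (p : ℚ_[p])‖ < 1)
    (hk : ¬ ∃ l : ℕ, ∀ x : ℚ_[p], ν x = (algebraMap ℚ_[p] C x) ^ l) {ε : ℝ} (hε : 0 < ε) :
    ∃ f ∈ LS ν, ∀ c d : ℚ_[p], Prim c d → ‖f c d - (if ‖c‖ ≤ ‖d‖ then ν d else 0)‖ ≤ ε := by
  obtain ⟨κ, hκ0, hκ1, hκ⟩ := kappa_exists p C
  have hstep : ∀ k : ℕ, ∃ f ∈ LS ν, ∀ c d : ℚ_[p], Prim c d →
      ‖(if ‖c‖ ≤ ‖d‖ then ν d else 0) - f c d‖ ≤ κ ^ k := by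
    intro k
    induction k with
    | zero =>
      refine ⟨fun _ _ => 0, N5_zero, fun c d h => ?_⟩
      rw [sub_zero, pow_zero]
      by_cases h2 : ‖c‖ ≤ ‖d‖
      · rw [if_pos h2]
        refine N5_le_one hν ?_
        unfold Prim at h
        rw [← h]
        exact le_max_right _ _
      · rw [if_neg h2, norm_zero]
        exact zero_le_one
    | succ k ih =>
      obtain ⟨f, hf, hf'⟩ := ih
      obtain ⟨g, hg, hg'⟩ := one_step hν h1 hk hκ0 hκ (N5_hom_sub (N5_phi0 hν) (ls_hom hν hf))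
        (B := κ ^ k) (by positivity) hf'
      refine ⟨fun c d => f c d + g c d, ls_add hf hg, fun c d h => ?_⟩
      have h2 := hg' c d h
      have h3 : (if ‖c‖ ≤ ‖d‖ then ν d else 0) - (f c d + g c d) =
          (if ‖c‖ ≤ ‖d‖ then ν d else 0) - f c d - g c d := by ring
      rw [h3, pow_succ, mul_comm (κ ^ k)]
      exact h2
  obtain ⟨k, hk'⟩ := exists_pow_lt_of_lt_one hε hκ1
  obtain ⟨f, hf, hf'⟩ := hstep k
  refine ⟨f, hf, fun c d h => ?_⟩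
  rw [norm_sub_rev]
  exact (hf' c d h).trans hk'.le

end

end Pool.Agent.Lib.MP_f399a8_nt.S
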