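import Pool.Agent.Lib.MP_f399a8_ntS.MnA

/-!
# Distinct slopes: Schneider's condition

PROOF.  Suppose `χ` is reducible: `W` closed, not zero, and `f` in the principal series with `f ∉ W`.
`slope_exists` gives `v`; `v` is injective: `‖χ (cort i j p)‖ = p ^ (v j - v i)` (`slope_cort` with `x = pu p`,
`‖p‖ = p⁻¹`) is not `1` for `i ≠ j`.  If `NoLin χ` fails there are `i = j + 1`, `l` with
`χ (cort j i x) = x ^ (-l)`: this is `SchneiderCond` for `(j, i)` with `a = -l`, since
`halfSum (cort j i x) = x ^ (i - j) = x` (`RepFin_halfSum`; see the end of the proof of `rep_main` in `RepFin.lean`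
for the computation).  Otherwise `main_inj` says `f ∈ W`.  `IsUltrametricDist C` is `SLFin_ultra p C`.
-/

namespace Pool.Agent.Lib.MP_f399a8_nt.S

open Matrix Filter Topology

variable {p : ℕ} [Fact p.Prime] {n : ℕ} {C : Type*} [NormedField C] [NormedAlgebra ℚ_[p] C]
  [FiniteDimensional ℚ_[p] C] {χ : Tor p n →* Cˣ}

/-- `‖χ (α^∨ (p))‖ ≠ 1` for all roots `α` -/
def DistinctSlopes (χ : Tor p n →* Cˣ) : Prop :=
  ∀ i j : Fin n, i < j → ‖(χ (cort i j (pu p)) : C)‖ ≠ 1

theorem schneider_of_noLin (h : ¬ NoLin χ) : SchneiderCond χ := by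
  unfold NoLin at h
  push Not at h
  obtain ⟨i, j, hij, l, hl⟩ := h
  have hji : j < i := by
    rw [Fin.lt_def]
    omega
  refine ⟨j, i, hji, -(l : ℤ), by omega, fun x => ?_⟩
  have hx : algebraMap ℚ_[p] C (x : ℚ_[p]) ≠ 0 :=
    (map_ne_zero (algebraMap ℚ_[p] C)).2 x.ne_zero
  have h1 : ((i : ℕ) : ℤ) - ((j : ℕ) : ℤ) = 1 := by omega
  rw [hl x, RepFin_halfSum hji x, h1, Units.val_zpow_eq_zpow_val, map_zpow₀, zpow_one,
    mul_comm]

theorem schneider_distinct (hχ : Continuous χ) (hd : DistinctSlopes χ)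
    (hred : IsReducible χ) : SchneiderCond χ := by
  by_cases hη : NoLin χ
  · exfalso
    have := SLFin_ultra p C
    obtain ⟨W, hW, hne, f, hf, hfW⟩ := hred
    obtain ⟨v, hs⟩ := slope_exists hχ
    refine hfW (main_inj hχ hs ?_ hη hW hne hf)
    have key : ∀ i j : Fin n, i < j → v i ≠ v j := by
      intro i j hij h
      refine hd i j hij ?_
      rw [slope_cort hs hij.ne, h, sub_self, Real.rpow_zero]
    intro i j h
    rcases lt_trichotomy i j with h1 | h1 | h1
    · exact absurd h (key i j h1)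
    · exact h1
    · exact absurd h.symm (key j i h1)
  · exact schneider_of_noLin hη

end Pool.Agent.Lib.MP_f399a8_nt.S
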