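import Mathlib

/-!
# Fixed points modulo a subgroup

PROOF.  Let `A` be the additive subgroup generated by the orbit of `Γ` (it is `G`-stable) and `B = A ∩ M'`.
`p • x ∈ M'` for all `x ∈ A` (true for `g • Γ`: `p • g • Γ = g • p • Γ`), so `Q = A ⧸ B` is killed by `p`.  `Q` is
generated by the classes of `s • Γ`, `s ∈ S`: for `g = s * h` with `s ∈ S`, `h ∈ N`:
`g • Γ - s • Γ = s • (h • Γ - Γ) ∈ M'` (`hN`, `hM'`).  So `Q` is a finitely generated abelian group of
exponent `p`, hence finite (`AddCommGroup.finite_of_fg_torsion`), and it is not trivial (`Γ ∉ M'`), so `p` divides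
its cardinality (Cauchy/Lagrange: the order of a nonzero element is `p`, `addOrderOf_dvd_card`).
The group `G` acts on `Q` by automorphisms, and `N` acts trivially (for `h ∈ N`, `h • (g • Γ) - g • Γ ∈ M'`).
Let `P` be the range of `G → Equiv.Perm Q`.  It is a `p`-group: for `σ` the image of `g`, `g ^ (p ^ k) ∈ N` so
`σ ^ (p ^ k) = 1`.  `P` acts on the finite set `Q` and fixes `0`, so by
`IsPGroup.exists_fixed_point_of_prime_dvd_card_of_fixed_point` there is another fixed point, the class of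
some `F ∈ A`, `F ∉ M'`, and `g • F - F ∈ M'` for all `g`.
(Alternative without quotients: let `T` be a finite set of representatives of `A` modulo `M'` …)
-/

namespace Pool.Agent.Lib.MP_f399a8_nt.S

theorem fixpt {G M : Type*} [Group G] [AddCommGroup M] [DistribMulAction G M] {p : ℕ}
    (hp : p.Prime) (M' : AddSubgroup M) (hM' : ∀ g : G, ∀ m ∈ M', g • m ∈ M') (Γ : M)
    (hΓ : Γ ∉ M') (hpΓ : p • Γ ∈ M') (N : Subgroup G)
    (hN : ∀ h ∈ N, ∀ g : G, h • (g • Γ) - g • Γ ∈ M')
    (S : Finset G) (hS : ∀ g : G, ∃ s ∈ S, s⁻¹ * g ∈ N)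
    (hpow : ∀ g : G, ∃ k : ℕ, g ^ (p ^ k) ∈ N) :
    ∃ F ∈ AddSubgroup.closure (Set.range fun g : G => g • Γ), F ∉ M' ∧
      ∀ g : G, g • F - F ∈ M' := by
  classical
  have : Fact p.Prime := ⟨hp⟩
  set A : AddSubgroup M := AddSubgroup.closure (Set.range fun g : G => g • Γ) with hA
  let π : M →+ (M ⧸ M') := QuotientAddGroup.mk' M'
  have hπ : ∀ x, π x = 0 ↔ x ∈ M' := fun x => QuotientAddGroup.eq_zero_iff x
  have hπ2 : ∀ x y, x - y ∈ M' → π x = π y := by
    intro x y h
    rw [← sub_eq_zero, ← map_sub, hπ]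
    exact h
  have hAst : ∀ g : G, ∀ x ∈ A, g • x ∈ A := by
    intro g x hx
    induction hx using AddSubgroup.closure_induction with
    | mem x hx =>
      obtain ⟨h, rfl⟩ := hx
      refine AddSubgroup.subset_closure ⟨g * h, ?_⟩
      exact mul_smul g h Γ
    | zero => rw [smul_zero]; exact A.zero_mem
    | add x y _ _ hx hy => rw [smul_add]; exact A.add_mem hx hy
    | neg x _ hx => rw [smul_neg]; exact A.neg_mem hx
  have hpA : ∀ x ∈ A, p • x ∈ M' := by
    intro x hx
    induction hx using AddSubgroup.closure_induction with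
    | mem x hx =>
      obtain ⟨h, rfl⟩ := hx
      show p • h • Γ ∈ M'
      rw [smul_comm]
      exact hM' h _ hpΓ
    | zero => rw [smul_zero]; exact M'.zero_mem
    | add x y _ _ hx hy => rw [smul_add]; exact M'.add_mem hx hy
    | neg x _ hx => rw [smul_neg]; exact M'.neg_mem hx
  have hNA : ∀ h ∈ N, ∀ x ∈ A, h • x - x ∈ M' := by
    intro h hh x hx
    induction hx using AddSubgroup.closure_induction with
    | mem x hx =>
      obtain ⟨g, rfl⟩ := hx
      exact hN h hh g
    | zero => rw [smul_zero, sub_zero]; exact M'.zero_mem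
    | add x y _ _ hx hy =>
      rw [smul_add, add_sub_add_comm]
      exact M'.add_mem hx hy
    | neg x _ hx =>
      have e : h • -x - -x = -(h • x - x) := by rw [smul_neg]; abel
      rw [e]
      exact M'.neg_mem hx
  let Q : AddSubgroup (M ⧸ M') := A.map π
  have hQ : ∀ q : Q, ∃ x ∈ A, π x = q.1 := fun q => q.2
  have hQp : ∀ q : Q, p • q = 0 := by
    intro q
    obtain ⟨x, hx, hxq⟩ := hQ q
    apply Subtype.ext
    show p • q.1 = 0
    rw [← hxq, ← map_nsmul, hπ]
    exact hpA x hx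
  have hFG : Q.FG := by
    refine ⟨S.image fun s => π (s • Γ), le_antisymm ?_ ?_⟩
    · rw [AddSubgroup.closure_le]
      intro q hq
      obtain ⟨s, -, rfl⟩ := Finset.mem_image.mp (Finset.mem_coe.mp hq)
      exact ⟨s • Γ, AddSubgroup.subset_closure ⟨s, rfl⟩, rfl⟩
    · show A.map π ≤ _
      rw [hA, AddMonoidHom.map_closure, AddSubgroup.closure_le]
      rintro _ ⟨_, ⟨g, rfl⟩, rfl⟩
      obtain ⟨s, hs, hsN⟩ := hS g
      refine AddSubgroup.subset_closure ?_
      rw [Finset.mem_coe, Finset.mem_image]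
      refine ⟨s, hs, ?_⟩
      refine (hπ2 _ _ ?_).symm
      show g • Γ - s • Γ ∈ M'
      have h1 := hM' s _ (hN _ hsN 1)
      rw [one_smul, smul_sub, ← mul_smul, mul_inv_cancel_left] at h1
      exact h1
  have hFG' : AddGroup.FG Q := (AddGroup.fg_iff_addSubgroup_fg Q).mpr hFG
  have hfin : Finite Q := AddCommGroup.finite_of_fg_isAddTorsion Q (fun q => by
    rw [isOfFinAddOrder_iff_nsmul_eq_zero]
    exact ⟨p, hp.pos, hQp q⟩)
  have hΓA : Γ ∈ A := AddSubgroup.subset_closure ⟨1, one_smul G Γ⟩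
  have hdvd : p ∣ Nat.card Q := by
    have h0 : (⟨π Γ, Γ, hΓA, rfl⟩ : Q) ≠ 0 := by
      intro h
      exact hΓ ((hπ Γ).mp (congrArg Subtype.val h))
    have h1 := addOrderOf_eq_prime (p := p) (hQp ⟨π Γ, Γ, hΓA, rfl⟩) h0
    rw [← h1]
    exact addOrderOf_dvd_natCard _
  let φ : G → (M ⧸ M') →+ (M ⧸ M') := fun g =>
    QuotientAddGroup.map M' M' (DistribSMul.toAddMonoidHom M g) (fun m hm => hM' g m hm)
  have hφ : ∀ g x, φ g (π x) = π (g • x) := fun g x => rfl
  let act : MulAction G Q :=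
    { smul := fun g q => ⟨φ g q.1, by
        obtain ⟨x, hx, hxq⟩ := hQ q
        rw [← hxq]
        exact ⟨g • x, hAst g x hx, rfl⟩⟩
      one_smul := by
        intro q
        apply Subtype.ext
        show φ 1 q.1 = q.1
        obtain ⟨x, hx, hxq⟩ := hQ q
        rw [← hxq, hφ, one_smul]
      mul_smul := by
        intro g h q
        apply Subtype.ext
        show φ (g * h) q.1 = φ g (φ h q.1)
        obtain ⟨x, hx, hxq⟩ := hQ q
        rw [← hxq, hφ, hφ, hφ, mul_smul] }
  have hact : ∀ (g : G) (q : Q), (g • q).1 = φ g q.1 := fun g q => rfl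
  let P : Subgroup (Equiv.Perm Q) := (MulAction.toPermHom G Q).range
  have hP : IsPGroup p P := by
    rintro ⟨σ, g, rfl⟩
    obtain ⟨k, hk⟩ := hpow g
    refine ⟨k, ?_⟩
    apply Subtype.ext
    show (MulAction.toPermHom G Q g) ^ p ^ k = 1
    rw [← map_pow]
    ext q
    show ((g ^ p ^ k) • q).1 = q.1
    rw [hact]
    obtain ⟨x, hx, hxq⟩ := hQ q
    rw [← hxq, hφ]
    exact hπ2 _ _ (hNA _ hk x hx)
  have h0 : (0 : Q) ∈ MulAction.fixedPoints P Q := by
    rintro ⟨σ, g, rfl⟩
    apply Subtype.ext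
    show (g • (0 : Q)).1 = 0
    rw [hact]
    exact map_zero (φ g)
  obtain ⟨b, hb, hb0⟩ := hP.exists_fixed_point_of_prime_dvd_card_of_fixed_point Q hdvd h0
  obtain ⟨F, hF, hFb⟩ := hQ b
  refine ⟨F, hF, ?_, ?_⟩
  · intro hFM
    apply hb0
    apply Subtype.ext
    rw [← hFb]
    exact ((hπ F).mpr hFM).symm
  · intro g
    have h1 := hb ⟨MulAction.toPermHom G Q g, g, rfl⟩
    have h2 : (g • b).1 = b.1 := congrArg Subtype.val h1
    rw [hact, ← hFb, hφ, ← sub_eq_zero, ← map_sub, hπ] at h2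
    exact h2

end Pool.Agent.Lib.MP_f399a8_nt.S
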