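import Mathlib

/-!
# Discreteness of the value group of a finite extension of `ℚ_p`

PROOF.  `C` is finite-dimensional over the locally compact field `ℚ_[p]`, so it is a proper metric space
(`FiniteDimensional.proper ℚ_[p] C`).  The set `{c | ‖c‖ < 1}` is bounded and closed (ultrametric:
`IsUltrametricDist.isClosed_ball`), so it is compact, and the continuous function `‖c‖` attains its maximum
`κ₀ < 1` on it.  Take `κ = max κ₀ (1/2)`.  `norm_p_lt`: `‖(p : C)‖ = ‖(p : ℚ_[p])‖ = p⁻¹`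
(`norm_algebraMap'`).
-/

namespace Pool.Agent.Lib.MP_f399a8_nt.S

variable {p : ℕ} [Fact p.Prime] {C : Type*} [NormedField C] [NormedAlgebra ℚ_[p] C]
  [IsUltrametricDist C]

theorem kappa_exists (p : ℕ) [Fact p.Prime] (C : Type*) [NormedField C] [NormedAlgebra ℚ_[p] C]
    [FiniteDimensional ℚ_[p] C] [IsUltrametricDist C] :
    ∃ κ : ℝ, 0 < κ ∧ κ < 1 ∧ ∀ c : C, ‖c‖ < 1 → ‖c‖ ≤ κ := by
  have hprop : ProperSpace C := FiniteDimensional.proper ℚ_[p] C
  have hcl : IsClosed (Metric.ball (0 : C) 1) := IsUltrametricDist.isClosed_ball 0 1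
  have hcomp : IsCompact (Metric.ball (0 : C) 1) :=
    Metric.isCompact_of_isClosed_isBounded hcl Metric.isBounded_ball
  obtain ⟨c0, hc0, hmax⟩ := hcomp.exists_isMaxOn ⟨0, Metric.mem_ball_self one_pos⟩
    (continuous_norm.continuousOn)
  refine ⟨max ‖c0‖ (1 / 2), lt_max_of_lt_right (by norm_num), max_lt ?_ (by norm_num), fun c hc => ?_⟩
  · rwa [mem_ball_zero_iff] at hc0
  · exact le_max_of_le_left (hmax (mem_ball_zero_iff.2 hc))

theorem norm_p_eq (p : ℕ) [Fact p.Prime] (C : Type*) [NormedField C] [NormedAlgebra ℚ_[p] C] :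
    ‖(p : C)‖ = (p : ℝ)⁻¹ := by
  have h : (p : C) = algebraMap ℚ_[p] C (p : ℚ_[p]) := (map_natCast _ p).symm
  rw [h, norm_algebraMap', Padic.norm_p]

end Pool.Agent.Lib.MP_f399a8_nt.S
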