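import Pool.Agent.Lib.MP_f399a8_ntS.TopB
import Pool.Agent.Lib.MP_f399a8_ntS.FxA
import Pool.Agent.Lib.MP_f399a8_ntS.KaA

/-!
# The `p`-group argument for unipotent groups

`YC R Y` says that the set of functions `Y` is stable under sums, scalars and right translation by
`U R ∩ SL_n(ℤ_p)`.

PROOF of `unip_pow`: `x = 1 + N` with `N` strictly `R`-supported, so `N ^ n = 0` (`R` is a strict order:
a nonzero entry of `N ^ n` gives a chain of length `n + 1` of distinct indices), and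
`x ^ (p ^ k) = ∑_{j < n} choose (p^k) j • N ^ j` (`Commute.add_pow`), where for `0 < j < n`, `p ^ (k - j)` divides
`choose (p ^ k) j` (`j * choose (p^k) j = p^k * choose (p^k - 1) (j - 1)` and `v_p j ≤ j`), the entries of `N ^ j` are
integral.  So the entries of `x ^ (p^k) - 1` have norm `≤ p ^ (-(k - n))`; take `k = m + n`.

PROOF of `pg_box`.  `G := U R ∩ Kp` as a subgroup of `SLp p n` (`U_mul`, `U_inv`), acting on `M := SLp p n → C`
by `(g • f) x = f (x * g)` (make a `DistribMulAction`, e.g. a local `def`/`letI`; check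
`(g * h) • f = g • (h • f)`: `f (x * (g * h)) = (h • f) (x * g)`).  `M' := {f | ∀ x ∈ U R, ‖f x‖ < 1}`
(additive subgroup by the ultrametric inequality, `G`-stable because `U R` is a group).
`Γ ∉ M'` (`h2`), `p • Γ ∈ M'` (`norm_p_eq`, `h1`).  By `unif` for the compact set `Kp` and `ε = 1/2` there is `m`
with `‖Γ (x * h) - Γ x‖ < 1` for `x ∈ Kp`, `h ∈ Km m`; for `x ∈ U R`, `x ∉ Kp`, `h ∈ G` both
`‖Γ (x * h)‖, ‖Γ x‖ < 1` (`h3`; `x * h ∉ Kp`).  Let `N = G ∩ Km m` (as a subgroup of `G`).  For `h ∈ N`, `g ∈ G`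
and `x ∈ U R`: `(h • g • Γ) x - (g • Γ) x = Γ (x * h * g) - Γ (x * g) = Γ ((x * g) * (g⁻¹ * h * g)) - Γ (x * g)`
has norm `< 1` (`km_conj`).  Finite representatives: `coset_reps` (or `fin_reps`) for `G` and `G ∩ Km m`
(left/right cosets: apply it to inverses).  `hpow`: `unip_pow`.  `fixpt` gives `F` in the additive group
generated by the translates of `Γ` (so `F ∈ Y`; `AddSubgroup.closure_induction`), `F ∉ M'`, and
`‖F (x * g) - F x‖ < 1` for all `g ∈ G`, `x ∈ U R`.  `F` also satisfies `‖F x‖ ≤ 1` on `U R` and `‖F x‖ < 1` for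
`x ∈ U R`, `x ∉ Kp` (true for the translates).  So there is `x₀ ∈ U R ∩ Kp` with `‖F x₀‖ = 1`, and for all
`x ∈ G`: `‖F x - F x₀‖ < 1` (`x = x₀ * (x₀⁻¹ * x)`).  Let `c = F x₀`, `F' = c⁻¹ * F ∈ Y`.  Then
`‖F' x - indK x‖ < 1` for all `x ∈ U R`, hence `≤ κ`.
-/

namespace Pool.Agent.Lib.MP_f399a8_nt.S

open Matrix Filter Topology

variable {p : ℕ} [Fact p.Prime] {n : ℕ} {C : Type*} [NormedField C] [NormedAlgebra ℚ_[p] C]
  [IsUltrametricDist C]

/-- stability properties of a set of functions -/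
structure YC (R : Fin n → Fin n → Prop) (Y : Set (SLp p n → C)) : Prop where
  add : ∀ f ∈ Y, ∀ g ∈ Y, (fun x => f x + g x) ∈ Y
  smul : ∀ c : C, ∀ f ∈ Y, (fun x => c * f x) ∈ Y
  trans : ∀ u ∈ U p R, u ∈ Kp p n → ∀ f ∈ Y, (fun x => f (x * u)) ∈ Y

private theorem PgA_sub_le {E : Type*} [NormedField E] [IsUltrametricDist E] (a b : E) :
    ‖a - b‖ ≤ max ‖a‖ ‖b‖ := by
  have h := IsUltrametricDist.norm_add_le_max a (-b)
  rwa [norm_neg, ← sub_eq_add_neg] at h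

open Classical in
private theorem PgA_height {R : Fin n → Fin n → Prop} (hR : SO R) :
    ∃ h : Fin n → ℕ, (∀ i, h i < n) ∧ ∀ i j, R i j → h i < h j := by
  refine ⟨fun i => (Finset.univ.filter fun k => R k i).card, fun i => ?_, fun i j hij => ?_⟩
  · have h1 : (Finset.univ.filter fun k => R k i) ⊂ (Finset.univ : Finset (Fin n)) := by
      refine Finset.ssubset_iff_subset_ne.2 ⟨Finset.filter_subset _ _, fun he => ?_⟩
      have h2 : i ∈ (Finset.univ.filter fun k => R k i) := by rw [he]; exact Finset.mem_univ i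
      exact hR.irr i (Finset.mem_filter.1 h2).2
    have h3 := Finset.card_lt_card h1
    simpa using h3
  · refine Finset.card_lt_card (Finset.ssubset_iff_subset_ne.2 ⟨fun k hk => ?_, fun he => ?_⟩)
    · exact Finset.mem_filter.2 ⟨Finset.mem_univ _, hR.tr _ _ _ (Finset.mem_filter.1 hk).2 hij⟩
    · have h2 : i ∈ (Finset.univ.filter fun k => R k j) :=
        Finset.mem_filter.2 ⟨Finset.mem_univ _, hij⟩
      rw [← he] at h2
      exact hR.irr i (Finset.mem_filter.1 h2).2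

private theorem PgA_pow_zero {R : Fin n → Fin n → Prop} (hR : SO R)
    (N : Matrix (Fin n) (Fin n) ℚ_[p]) (hN : ∀ i j, ¬ R i j → N i j = 0) {m : ℕ} (hm : n ≤ m) :
    N ^ m = 0 := by
  obtain ⟨h, hn, hlt⟩ := PgA_height hR
  have key : ∀ (m : ℕ) (i j : Fin n), h j < h i + m → (N ^ m) i j = 0 := by
    intro m
    induction m with
    | zero =>
      intro i j hij
      rw [pow_zero]
      refine Matrix.one_apply_ne ?_
      rintro rfl
      omega
    | succ m ih =>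
      intro i j hij
      rw [pow_succ, Matrix.mul_apply]
      refine Finset.sum_eq_zero fun k _ => ?_
      by_cases hk : R k j
      · have h1 := hlt k j hk
        rw [ih i k (by omega), zero_mul]
      · rw [hN k j hk, mul_zero]
  ext i j
  rw [key m i j (by have := hn j; omega)]
  rfl

private theorem PgA_pow_norm (N : Matrix (Fin n) (Fin n) ℚ_[p]) (hN : ∀ i j, ‖N i j‖ ≤ 1) (m : ℕ)
    (i j : Fin n) : ‖(N ^ m) i j‖ ≤ 1 := by
  induction m generalizing i j with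
  | zero => rw [pow_zero]; exact one_norm_le i j
  | succ m ih =>
    rw [pow_succ]
    have h := mulmat_norm_le (N ^ m) N zero_le_one zero_le_one ih hN i j
    rwa [mul_one] at h

private theorem PgA_fact (n : ℕ) {j : ℕ} (hj : j + 1 < n) :
    ‖((n.factorial : ℕ) : ℚ_[p])‖ ≤ ‖((j + 1 : ℕ) : ℚ_[p])‖ := by
  obtain ⟨c, hc⟩ := Nat.dvd_factorial (Nat.succ_pos j) hj.le
  rw [hc, Nat.cast_mul, norm_mul]
  refine mul_le_of_le_one_right (norm_nonneg _) ?_
  exact_mod_cast Padic.norm_int_le_one (p := p) (c : ℤ)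

private theorem PgA_choose (n k j : ℕ) (hj : j + 1 < n) :
    ‖((Nat.choose (p ^ k) (j + 1) : ℕ) : ℚ_[p])‖ * ‖((n.factorial : ℕ) : ℚ_[p])‖ ≤
      ((p : ℝ)⁻¹) ^ k := by
  have hp : p.Prime := Fact.out
  have h1 : (p ^ k) * Nat.choose (p ^ k - 1) j = Nat.choose (p ^ k) (j + 1) * (j + 1) := by
    have h2 := Nat.add_one_mul_choose_eq (p ^ k - 1) j
    have h3 : p ^ k - 1 + 1 = p ^ k := by
      have := Nat.pos_of_ne_zero (pow_ne_zero k hp.ne_zero)
      omega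
    rw [h3] at h2
    exact h2
  have h4 : ‖((Nat.choose (p ^ k) (j + 1) : ℕ) : ℚ_[p])‖ * ‖((j + 1 : ℕ) : ℚ_[p])‖ ≤
      ((p : ℝ)⁻¹) ^ k := by
    rw [← norm_mul, ← Nat.cast_mul, ← h1, Nat.cast_mul, norm_mul, Nat.cast_pow, norm_pow,
      Padic.norm_p]
    refine mul_le_of_le_one_right (by positivity) ?_
    exact_mod_cast Padic.norm_int_le_one (p := p) ((Nat.choose (p ^ k - 1) j : ℕ) : ℤ)
  refine le_trans (mul_le_mul_of_nonneg_left (PgA_fact n hj) (norm_nonneg _)) h4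

theorem unip_pow {R : Fin n → Fin n → Prop} (hR : SO R) {x : SLp p n} (hx : x ∈ U p R)
    (hxK : x ∈ Kp p n) (m : ℕ) : ∃ k : ℕ, x ^ (p ^ k) ∈ Km p n m := by
  have hp : p.Prime := Fact.out
  have hp1 : ((p : ℝ)⁻¹) < 1 := by
    refine inv_lt_one_of_one_lt₀ ?_
    exact_mod_cast hp.one_lt
  have hf : 0 < ‖((n.factorial : ℕ) : ℚ_[p])‖ := by
    rw [norm_pos_iff]
    exact_mod_cast (Nat.factorial_ne_zero n)
  have hpm : (0 : ℝ) < (p : ℝ) ^ (-(m : ℤ)) := by
    have : (0 : ℝ) < p := by exact_mod_cast hp.pos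
    positivity
  obtain ⟨k, hk⟩ := exists_pow_lt_of_lt_one (mul_pos hpm hf) hp1
  refine ⟨k, ?_⟩
  set N : Matrix (Fin n) (Fin n) ℚ_[p] := x.1 - 1 with hN
  have hN0 : ∀ i j, ¬ R i j → N i j = 0 := by
    intro i j hij
    rw [hN, Matrix.sub_apply, hx i j hij, sub_self]
  have hN1 : ∀ i j, ‖N i j‖ ≤ 1 := by
    intro i j
    rw [hN, Matrix.sub_apply]
    refine (PgA_sub_le _ _).trans (max_le (hxK i j) (one_norm_le i j))
  have hx1 : x.1 = N + 1 := by rw [hN, sub_add_cancel]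
  rw [mem_Km]
  intro i j
  have h1 : (x ^ (p ^ k)).1 = (N + 1) ^ (p ^ k) := by
    rw [← hx1]
    exact Matrix.SpecialLinearGroup.coe_pow x (p ^ k)
  have h2 : (x ^ (p ^ k)).1 i j - (1 : Matrix (Fin n) (Fin n) ℚ_[p]) i j =
      ∑ l ∈ Finset.range (p ^ k), ((Nat.choose (p ^ k) (l + 1) : ℕ) : ℚ_[p]) * (N ^ (l + 1)) i j := by
    rw [h1, (Commute.one_right N).add_pow, Finset.sum_range_succ', Matrix.add_apply]
    have h3 : (N ^ 0 * 1 ^ (p ^ k - 0) * ((p ^ k).choose 0 : Matrix (Fin n) (Fin n) ℚ_[p])) = 1 := by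
      simp
    rw [h3, add_sub_cancel_right, Matrix.sum_apply]
    refine Finset.sum_congr rfl fun l _ => ?_
    rw [one_pow, mul_one, (Nat.cast_commute ((p ^ k).choose (l + 1)) (N ^ (l + 1))).symm.eq,
      ← nsmul_eq_mul, Matrix.smul_apply, nsmul_eq_mul]
  rw [h2]
  refine sum_norm_le _ _ hpm.le fun l _ => ?_
  rcases lt_or_ge (l + 1) n with hl | hl
  · rw [norm_mul]
    have h4 := PgA_choose (p := p) n k l hl
    have h5 : ‖((Nat.choose (p ^ k) (l + 1) : ℕ) : ℚ_[p])‖ ≤ (p : ℝ) ^ (-(m : ℤ)) := by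
      have h6 := h4.trans hk.le
      exact le_of_mul_le_mul_right h6 hf
    calc _ ≤ ‖((Nat.choose (p ^ k) (l + 1) : ℕ) : ℚ_[p])‖ * 1 :=
          mul_le_mul_of_nonneg_left (PgA_pow_norm N hN1 _ i j) (norm_nonneg _)
      _ ≤ _ := by rwa [mul_one]
  · rw [PgA_pow_zero hR N hN0 hl, Matrix.zero_apply, mul_zero, norm_zero]
    exact hpm.le


/-- right translation -/
@[reducible] private noncomputable def PgA_act (C : Type*) [NormedField C] (G : Subgroup (SLp p n)) :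
    DistribMulAction G (SLp p n → C) where
  smul g f := fun x => f (x * g)
  one_smul f := by
    funext x
    show f (x * ((1 : G) : SLp p n)) = f x
    rw [Subgroup.coe_one, mul_one]
  mul_smul g h f := by
    funext x
    show f (x * ((g * h : G) : SLp p n)) = f (x * g * h)
    rw [Subgroup.coe_mul, mul_assoc]
  smul_zero g := rfl
  smul_add g f f' := rfl

/-- functions small on `U R` -/
private def PgA_M' (C : Type*) [NormedField C] [IsUltrametricDist C] (R : Fin n → Fin n → Prop) :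
    AddSubgroup (SLp p n → C) where
  carrier := {f | ∀ x ∈ U p R, ‖f x‖ < 1}
  zero_mem' := by
    intro x _
    show ‖(0 : C)‖ < 1
    rw [norm_zero]
    exact one_pos
  add_mem' := by
    intro f g hf hg x hx
    exact lt_of_le_of_lt (IsUltrametricDist.norm_add_le_max (f x) (g x)) (max_lt (hf x hx) (hg x hx))
  neg_mem' := by
    intro f hf x hx
    show ‖-(f x)‖ < 1
    rw [norm_neg]
    exact hf x hx

theorem pg_box {R : Fin n → Fin n → Prop} (hR : SO R) {κ : ℝ}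
    (hκ : ∀ c : C, ‖c‖ < 1 → ‖c‖ ≤ κ) {Y : Set (SLp p n → C)} (hY : YC R Y) {Γ : SLp p n → C}
    (hΓY : Γ ∈ Y) (hΓ : Continuous Γ) (h1 : ∀ x ∈ U p R, ‖Γ x‖ ≤ 1)
    (h2 : ∃ x ∈ U p R, x ∈ Kp p n ∧ ‖Γ x‖ = 1) (h3 : ∀ x ∈ U p R, x ∉ Kp p n → ‖Γ x‖ < 1) :
    ∃ F ∈ Y, ∀ x ∈ U p R, ‖F x - indK p n C x‖ ≤ κ := by
  have hp : p.Prime := Fact.out
  set G : Subgroup (SLp p n) := US p R hR ⊓ Kp p n with hG
  let act : DistribMulAction G (SLp p n → C) := PgA_act C G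
  have hact : ∀ (g : G) (f : SLp p n → C) (x : SLp p n), (g • f) x = f (x * g) :=
    fun _ _ _ => rfl
  set M' : AddSubgroup (SLp p n → C) := PgA_M' C R with hM'def
  have hM'iff : ∀ f : SLp p n → C, f ∈ M' ↔ ∀ x ∈ U p R, ‖f x‖ < 1 := fun f => Iff.rfl
  have hGU : ∀ g : G, (g : SLp p n) ∈ U p R := fun g => g.2.1
  have hGK : ∀ g : G, (g : SLp p n) ∈ Kp p n := fun g => g.2.2
  have hxgK : ∀ (x : SLp p n) (g : G), x ∉ Kp p n → x * (g : SLp p n) ∉ Kp p n := by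
    intro x g hx h
    have hk' := (Kp p n).mul_mem h ((Kp p n).inv_mem (hGK g))
    rw [mul_inv_cancel_right] at hk'
    exact hx hk'
  obtain ⟨m, hm⟩ := unif hΓ (kp_compact p n) (show (0 : ℝ) < 1 / 2 by norm_num)
  have hM'G : ∀ g : G, ∀ f ∈ M', g • f ∈ M' := by
    intro g f hf x hx
    exact hf _ (U_mul hR hx (hGU g))
  have hΓM : Γ ∉ M' := by
    intro h
    obtain ⟨x, hx, -, hx1⟩ := h2
    have := h x hx
    rw [hx1] at this
    exact lt_irrefl _ this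
  have hpΓ : p • Γ ∈ M' := by
    intro x hx
    rw [Pi.smul_apply, nsmul_eq_mul, norm_mul, norm_p_eq p C]
    have h4 : ((p : ℝ)⁻¹) < 1 := by
      refine inv_lt_one_of_one_lt₀ ?_
      exact_mod_cast hp.one_lt
    calc _ ≤ (p : ℝ)⁻¹ * 1 := mul_le_mul_of_nonneg_left (h1 x hx) (by positivity)
      _ < 1 := by rwa [mul_one]
  have hN : ∀ h ∈ (Km p n m).subgroupOf G, ∀ g : G, h • (g • Γ) - g • Γ ∈ M' := by
    intro h hh g x hx
    have hh' : (h : SLp p n) ∈ Km p n m := hh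
    rw [Pi.sub_apply, hact, hact, hact]
    have hc := (km_conj (hGK g) hh').2
    have he : x * (h : SLp p n) * (g : SLp p n) =
        (x * (g : SLp p n)) * ((g : SLp p n)⁻¹ * (h : SLp p n) * (g : SLp p n)) := by group
    by_cases hxK : x * (g : SLp p n) ∈ Kp p n
    · rw [he]
      exact lt_of_le_of_lt (hm _ hxK _ hc) (by norm_num)
    · have hxh : x * (h : SLp p n) * (g : SLp p n) ∉ Kp p n := by
        rw [he]
        intro h'
        have hk' := (Kp p n).mul_mem h' ((Kp p n).inv_mem (km_le_kp hc))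
        rw [mul_inv_cancel_right] at hk'
        exact hxK hk'
      have ha := h3 _ (U_mul hR (U_mul hR hx (hGU h)) (hGU g)) hxh
      have hb := h3 _ (U_mul hR hx (hGU g)) hxK
      exact lt_of_le_of_lt (PgA_sub_le _ _) (max_lt ha hb)
  obtain ⟨S₀, hS₀, hS₁⟩ := coset_reps (L := G) (H := G ⊓ Km p n m) (m := m) inf_le_right
    inf_le_left (fun x hx hxm => ⟨hx, hxm⟩)
  have hS : ∃ S : Finset G, ∀ g : G, ∃ s ∈ S, s⁻¹ * g ∈ (Km p n m).subgroupOf G := by
    classical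
    refine ⟨S₀.attach.image fun s : {s // s ∈ S₀} =>
      (⟨(s.1 : SLp p n)⁻¹, G.inv_mem (hS₀ s.1 s.2)⟩ : G), fun g => ?_⟩
    obtain ⟨s, ⟨hs, hs'⟩, -⟩ := hS₁ (g : SLp p n)⁻¹ (G.inv_mem g.2)
    refine ⟨⟨s⁻¹, G.inv_mem (hS₀ s hs)⟩, Finset.mem_image.2 ⟨(⟨s, hs⟩ : {s // s ∈ S₀}),
      Finset.mem_attach _ _, rfl⟩, ?_⟩
    show ((s⁻¹)⁻¹ : SLp p n) * (g : SLp p n) ∈ Km p n m
    have h5 := (Km p n m).inv_mem hs'.2
    have h6 : ((g : SLp p n)⁻¹ * s⁻¹)⁻¹ = (s⁻¹)⁻¹ * (g : SLp p n) := by group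
    rwa [h6] at h5
  obtain ⟨S, hS⟩ := hS
  have hpow : ∀ g : G, ∃ k : ℕ, g ^ (p ^ k) ∈ (Km p n m).subgroupOf G := by
    intro g
    obtain ⟨k, hk⟩ := unip_pow hR (hGU g) (hGK g) m
    refine ⟨k, ?_⟩
    show ((g ^ (p ^ k) : G) : SLp p n) ∈ Km p n m
    rwa [Subgroup.coe_pow]
  obtain ⟨F, hF, hFM, hFg⟩ := fixpt hp M' hM'G Γ hΓM hpΓ _ hN S hS hpow
  have hFY : F ∈ Y := by
    refine AddSubgroup.closure_induction (p := fun f _ => f ∈ Y) ?_ ?_ ?_ ?_ hF
    · rintro f ⟨g, rfl⟩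
      exact hY.trans g (hGU g) (hGK g) Γ hΓY
    · have h5 := hY.smul 0 Γ hΓY
      have h6 : (fun x => (0 : C) * Γ x) = (0 : SLp p n → C) := by
        funext x
        exact zero_mul _
      rwa [h6] at h5
    · intro f g _ _ hf hg
      exact hY.add f hf g hg
    · intro f _ hf
      have h5 := hY.smul (-1) f hf
      have h6 : (fun x => (-1 : C) * f x) = -f := by
        funext x
        exact neg_one_mul _
      rwa [h6] at h5
  have hFb : ∀ x ∈ U p R, ‖F x‖ ≤ 1 ∧ (x ∉ Kp p n → ‖F x‖ < 1) := by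
    refine AddSubgroup.closure_induction
      (p := fun f _ => ∀ x ∈ U p R, ‖f x‖ ≤ 1 ∧ (x ∉ Kp p n → ‖f x‖ < 1)) ?_ ?_ ?_ ?_ hF
    · rintro f ⟨g, rfl⟩ x hx
      have hxg := U_mul hR hx (hGU g)
      exact ⟨h1 _ hxg, fun hxK => h3 _ hxg (hxgK x g hxK)⟩
    · intro x _
      rw [Pi.zero_apply, norm_zero]
      exact ⟨zero_le_one, fun _ => one_pos⟩
    · intro f g _ _ hf hg x hx
      rw [Pi.add_apply]
      exact ⟨(IsUltrametricDist.norm_add_le_max _ _).trans (max_le (hf x hx).1 (hg x hx).1),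
        fun hxK => lt_of_le_of_lt (IsUltrametricDist.norm_add_le_max _ _)
          (max_lt ((hf x hx).2 hxK) ((hg x hx).2 hxK))⟩
    · intro f _ hf x hx
      rw [Pi.neg_apply, norm_neg]
      exact hf x hx
  obtain ⟨x₀, hx₀, hx₁⟩ : ∃ x₀ ∈ U p R, ¬ ‖F x₀‖ < 1 := by
    by_contra hcon
    push Not at hcon
    exact hFM fun x hx => hcon x hx
  have hx₀K : x₀ ∈ Kp p n := by
    by_contra hK
    exact hx₁ ((hFb x₀ hx₀).2 hK)
  have hx₀1 : ‖F x₀‖ = 1 := le_antisymm (hFb x₀ hx₀).1 (not_lt.1 hx₁)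
  have hc0 : F x₀ ≠ 0 := by
    intro h0
    rw [h0, norm_zero] at hx₀1
    exact zero_ne_one hx₀1
  refine ⟨fun x => (F x₀)⁻¹ * F x, hY.smul _ _ hFY, fun x hx => hκ _ ?_⟩
  by_cases hxK : x ∈ Kp p n
  · have hgG : x₀⁻¹ * x ∈ G :=
      ⟨U_mul hR (U_inv hR hx₀) hx, (Kp p n).mul_mem ((Kp p n).inv_mem hx₀K) hxK⟩
    have h5 := hFg ⟨x₀⁻¹ * x, hgG⟩ x₀ hx₀
    rw [Pi.sub_apply, hact] at h5
    have h6 : x₀ * (x₀⁻¹ * x) = x := by group
    have h7 : ‖F x - F x₀‖ < 1 := by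
      have h8 : x₀ * ((⟨x₀⁻¹ * x, hgG⟩ : G) : SLp p n) = x := h6
      rwa [h8] at h5
    have h9 : indK p n C x = 1 := by
      unfold indK
      rw [if_pos hxK]
    have h10 : (F x₀)⁻¹ * F x - indK p n C x = (F x₀)⁻¹ * (F x - F x₀) := by
      rw [h9, mul_sub, inv_mul_cancel₀ hc0]
    rw [h10, norm_mul, norm_inv, hx₀1, inv_one, one_mul]
    exact h7
  · have h9 : indK p n C x = 0 := by
      unfold indK
      rw [if_neg hxK]
    rw [h9, sub_zero, norm_mul, norm_inv, hx₀1, inv_one, one_mul]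
    exact (hFb x hx).2 hxK


end Pool.Agent.Lib.MP_f399a8_nt.S
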