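import Pool.Agent.Lib.MP_f399a8_ntS.CbB

/-!
# Iwasawa decomposition

PROOF.  Claim, by downward induction on `r` (from `r = n` to `r = 0`, natural numbers): for every `x` there is
`k ∈ Kp` such that `y = x * k` satisfies `y i j = 0` for all `i j` with `r ≤ i`, `j < i`.  For `r = n` take
`k = 1`.  Step `r + 1 → r`: we have `y = x * k` with zeros in the rows `> r`, i.e. `y i j = 0` for `r < i`,
`j < i`.  Row `r`: among the columns `j ≤ r` choose `j₀` with `‖y r j₀‖` maximal.  It is not zero: otherwise the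
rows `r, r+1, …, n-1` would be supported in the columns `> r`, so the matrix would be singular (the
determinant is `0`: the `n - r` rows `≥ r` are supported in `n - r - 1` columns; e.g. `y` is block
triangular, or: the rows `≥ r` are linearly dependent; or argue with `y⁻¹ = z`: `y` maps the space of row vectors
… any argument).  [Convenient: `Matrix.det_of_upperTriangular` type argument: if `y r j = 0` for all `j ≤ r`
then `y` is block triangular with the blocks `{≤ r}`, `{> r}` and the first diagonal block is fine, the row `r` of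
the first block is zero, so `det y = det(block1) * det(block2) = 0` (`Matrix.det_fromBlocks_zero₂₁` or
`Matrix.twoBlockTriangular_det`, `Matrix.det_eq_zero_of_row_eq_zero`), contradiction with `det y = 1`.]
Multiply by a signed permutation matrix `w` for the transposition `(j₀ r)` (`mon_exists`, `mon_Kp`): the
columns `j₀` and `r` are interchanged up to sign; the rows `i > r` keep their zeros in the columns `j < i` (both
`j₀, r ≤ r < i`: these columns vanish in row `i`).  Now `‖y r j‖ ≤ ‖y r r‖ ≠ 0` for `j ≤ r`.  Multiply by the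
unipotent matrix `u = 1 - ∑_{j < r} (y r j / y r r) E_{r j} ∈ Kp` (lower triangular with unit diagonal, so
determinant `1`): column `j < r` becomes `y · j - (y r j / y r r) * y · r`, which is `0` in row `r` and is
still `0` in the rows `i > r`.
At `r = 0`: `y = x * k` is upper triangular and `x = y * k⁻¹`.
-/

namespace Pool.Agent.Lib.MP_f399a8_nt.S

open Matrix Filter Topology

variable {p : ℕ} [Fact p.Prime] {n : ℕ}

theorem IwaA_ne {i₀ : Fin n} {y : SLp p n} (hy : ∀ i j : Fin n, i₀ < i → j < i → y.1 i j = 0) :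
    ∃ j, j ≤ i₀ ∧ y.1 i₀ j ≠ 0 := by
  classical
  by_contra hcon
  push Not at hcon
  have h1 : y.1.det = 0 := by
    rw [Matrix.det_apply]
    refine Finset.sum_eq_zero fun σ _ => ?_
    have h2 : ∃ i, y.1 (σ i) i = 0 := by
      by_contra h3
      push Not at h3
      have h4 : ∀ a, y.1 a (σ.symm a) ≠ 0 := fun a => by
        have h5 := h3 (σ.symm a)
        rwa [Equiv.apply_symm_apply] at h5
      have h6 : ∀ a ∈ Finset.Ici i₀, σ.symm a ∈ Finset.Ioi i₀ := by
        intro a ha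
        rw [Finset.mem_Ici] at ha
        rw [Finset.mem_Ioi]
        rcases eq_or_lt_of_le ha with h | h
        · subst h
          by_contra h7
          exact h4 i₀ (hcon _ (not_lt.1 h7))
        · by_contra h7
          exact h4 a (hy a _ h (lt_of_le_of_lt (not_lt.1 h7) h))
      have h8 := Finset.card_le_card_of_injOn σ.symm h6 (σ.symm.injective.injOn)
      have h9 : (Finset.Ioi i₀).card < (Finset.Ici i₀).card := by
        refine Finset.card_lt_card (Finset.ssubset_iff_of_subset ?_ |>.2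
          ⟨i₀, Finset.mem_Ici.2 le_rfl, by simp⟩)
        intro a ha
        exact Finset.mem_Ici.2 (le_of_lt (Finset.mem_Ioi.1 ha))
      omega
    obtain ⟨i, hi⟩ := h2
    have h10 : ∏ i, y.1 (σ i) i = 0 := Finset.prod_eq_zero (Finset.mem_univ i) hi
    exact (congrArg (fun t => Equiv.Perm.sign σ • t) h10).trans (smul_zero _)
  rw [y.2] at h1
  exact one_ne_zero h1

/-- a matrix which clears the row `i₀` -/
noncomputable def IwaA_u (i₀ : Fin n) (c : Fin n → ℚ_[p]) : Matrix (Fin n) (Fin n) ℚ_[p] :=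
  1 + Matrix.of fun a j => if a = i₀ ∧ j < i₀ then c j else 0

theorem IwaA_clear {i₀ : Fin n} {y : SLp p n} (h0 : y.1 i₀ i₀ ≠ 0)
    (hle : ∀ j, j ≤ i₀ → ‖y.1 i₀ j‖ ≤ ‖y.1 i₀ i₀‖) :
    ∃ k ∈ Kp p n, ∀ i j, (y * k).1 i j =
      if j < i₀ then y.1 i j - y.1 i i₀ * (y.1 i₀ j / y.1 i₀ i₀) else y.1 i j := by
  classical
  let c : Fin n → ℚ_[p] := fun j => - (y.1 i₀ j / y.1 i₀ i₀)
  have hu : (IwaA_u i₀ c).det = 1 := by
    have h1 : (IwaA_u i₀ c).BlockTriangular OrderDual.toDual := by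
      intro a j haj
      have h2 : a < j := haj
      unfold IwaA_u
      rw [Matrix.add_apply, Matrix.one_apply_ne (ne_of_lt h2), zero_add, Matrix.of_apply, if_neg]
      rintro ⟨rfl, h3⟩
      exact lt_asymm h2 h3
    rw [Matrix.det_of_isLowerTriangular _ h1]
    refine Finset.prod_eq_one fun i _ => ?_
    unfold IwaA_u
    rw [Matrix.add_apply, Matrix.one_apply_eq, Matrix.of_apply, if_neg, add_zero]
    rintro ⟨rfl, h3⟩
    exact lt_irrefl _ h3
  have hc : ∀ j, j < i₀ → ‖c j‖ ≤ 1 := by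
    intro j hj
    show ‖- (y.1 i₀ j / y.1 i₀ i₀)‖ ≤ 1
    rw [norm_neg, norm_div]
    exact div_le_one_of_le₀ (hle j hj.le) (norm_nonneg _)
  refine ⟨⟨IwaA_u i₀ c, hu⟩, ?_, ?_⟩
  · intro i j
    show ‖IwaA_u i₀ c i j‖ ≤ 1
    unfold IwaA_u
    rw [Matrix.add_apply, Matrix.of_apply]
    refine (IsUltrametricDist.norm_add_le_max _ _).trans (max_le (one_norm_le i j) ?_)
    by_cases h : i = i₀ ∧ j < i₀
    · rw [if_pos h]
      exact hc j h.2
    · rw [if_neg h, norm_zero]
      exact zero_le_one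
  · intro i j
    show (y.1 * IwaA_u i₀ c) i j = _
    unfold IwaA_u
    rw [mul_add, mul_one, Matrix.add_apply, Matrix.mul_apply, Finset.sum_eq_single i₀]
    · rw [Matrix.of_apply]
      by_cases h : j < i₀
      · rw [if_pos ⟨rfl, h⟩, if_pos h]
        show y.1 i j + y.1 i i₀ * (- (y.1 i₀ j / y.1 i₀ i₀)) = _
        ring
      · rw [if_neg (fun h' => h h'.2), if_neg h, mul_zero, add_zero]
    · intro a _ ha
      rw [Matrix.of_apply, if_neg (fun h' => ha h'.1), mul_zero]
    · intro h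
      exact absurd (Finset.mem_univ _) h

theorem IwaA_mon {σ : Equiv.Perm (Fin n)} {w : SLp p n} (hw : IsMon σ w) (y : SLp p n)
    (i j : Fin n) : ‖(y * w).1 i j‖ = ‖y.1 i (σ.symm j)‖ := by
  classical
  show ‖(y.1 * w.1) i j‖ = _
  rw [Matrix.mul_apply, Finset.sum_eq_single (σ.symm j)]
  · rw [norm_mul]
    have h1 : ‖w.1 (σ.symm j) j‖ = 1 := by
      rcases (hw (σ.symm j) j).1 (σ.apply_symm_apply j).symm with h | h
      · rw [h, norm_one]
      · rw [h, norm_neg, norm_one]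
    rw [h1, mul_one]
  · intro a _ ha
    have h1 : j ≠ σ a := by
      rintro rfl
      exact ha (σ.symm_apply_apply a).symm
    rw [(hw a j).2 h1, mul_zero]
  · intro h
    exact absurd (Finset.mem_univ _) h

theorem IwaA_step {i₀ : Fin n} {y : SLp p n} (hy : ∀ i j : Fin n, i₀ < i → j < i → y.1 i j = 0) :
    ∃ k ∈ Kp p n, ∀ i j : Fin n, i₀ ≤ i → j < i → (y * k).1 i j = 0 := by
  classical
  obtain ⟨j₁, hj₁, hne⟩ := IwaA_ne hy
  obtain ⟨j₀, hj₀, hmax⟩ := Finset.exists_max_image (Finset.Iic i₀) (fun j => ‖y.1 i₀ j‖)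
    ⟨j₁, Finset.mem_Iic.2 hj₁⟩
  rw [Finset.mem_Iic] at hj₀
  obtain ⟨w, hw⟩ := mon_exists p (Equiv.swap j₀ i₀)
  have hσ : ∀ c i : Fin n, i₀ ≤ i → c ≤ i → (Equiv.swap j₀ i₀) c ≤ i := by
    intro c i hi hc
    by_cases h1 : c = j₀
    · rw [h1, Equiv.swap_apply_left]
      exact hi
    by_cases h2 : c = i₀
    · rw [h2, Equiv.swap_apply_right]
      exact hj₀.trans hi
    rw [Equiv.swap_apply_of_ne_of_ne h1 h2]
    exact hc
  have hn : ∀ i j, ‖(y * w).1 i j‖ = ‖y.1 i ((Equiv.swap j₀ i₀) j)‖ := fun i j => by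
    rw [IwaA_mon hw, Equiv.symm_swap]
  have hz : ∀ i j : Fin n, i₀ < i → j < i → (y * w).1 i j = 0 := by
    intro i j hi hj
    rw [← norm_eq_zero, hn, norm_eq_zero]
    refine hy i _ hi ?_
    by_cases h1 : j = j₀
    · rw [h1, Equiv.swap_apply_left]
      exact hi
    by_cases h2 : j = i₀
    · rw [h2, Equiv.swap_apply_right]
      exact lt_of_le_of_lt hj₀ hi
    rw [Equiv.swap_apply_of_ne_of_ne h1 h2]
    exact hj
  have hd : ‖(y * w).1 i₀ i₀‖ = ‖y.1 i₀ j₀‖ := by
    rw [hn, Equiv.swap_apply_right]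
  have h0 : (y * w).1 i₀ i₀ ≠ 0 := by
    rw [← norm_ne_zero_iff, hd]
    have h1 := hmax j₁ (Finset.mem_Iic.2 hj₁)
    have h2 : 0 < ‖y.1 i₀ j₁‖ := norm_pos_iff.2 hne
    exact (lt_of_lt_of_le h2 h1).ne'
  have hle : ∀ j, j ≤ i₀ → ‖(y * w).1 i₀ j‖ ≤ ‖(y * w).1 i₀ i₀‖ := by
    intro j hj
    rw [hd, hn]
    exact hmax _ (Finset.mem_Iic.2 (hσ j i₀ le_rfl hj))
  obtain ⟨k, hk, hyk⟩ := IwaA_clear h0 hle
  refine ⟨w * k, (Kp p n).mul_mem (mon_Kp hw) hk, ?_⟩
  intro i j hi hj
  rw [← mul_assoc, hyk]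
  rcases eq_or_lt_of_le hi with h | h
  · subst h
    rw [if_pos hj, mul_div_cancel₀ _ h0, sub_self]
  · by_cases h1 : j < i₀
    · rw [if_pos h1, hz i j h hj, hz i i₀ h h, zero_mul, sub_zero]
    · rw [if_neg h1, hz i j h hj]

theorem IwaA_all (r : ℕ) (x : SLp p n) (hr : r ≤ n) : ∃ k ∈ Kp p n, ∀ i j : Fin n,
    n - r ≤ i.val → j < i → (x * k).1 i j = 0 := by
  induction r with
  | zero =>
    refine ⟨1, (Kp p n).one_mem, fun i j hi _ => ?_⟩
    exact absurd i.2 (by omega)
  | succ r ih =>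
    obtain ⟨k, hk, hz⟩ := ih (by omega)
    obtain ⟨k', hk', hz'⟩ := IwaA_step (i₀ := ⟨n - (r + 1), by omega⟩) (y := x * k)
      (fun i j hi hj => hz i j (by
        have h1 : n - (r + 1) < i.val := hi
        omega) hj)
    refine ⟨k * k', (Kp p n).mul_mem hk hk', fun i j hi hj => ?_⟩
    rw [← mul_assoc]
    exact hz' i j hi hj

theorem iwasawa (x : SLp p n) : ∃ b ∈ Bp p n, ∃ k ∈ Kp p n, x = b * k := by
  obtain ⟨k, hk, hz⟩ := IwaA_all n x le_rfl
  refine ⟨x * k, fun i j hij => hz i j (by omega) hij, k⁻¹, (Kp p n).inv_mem hk, ?_⟩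
  rw [mul_inv_cancel_right]

end Pool.Agent.Lib.MP_f399a8_nt.S
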