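import Pool.Agent.Lib.MP_f399a8_ntS.P1A

/-!
# Properness of `Om`

PROOF of `bd_lemma`.  Let `A ≥ 1` without loss of generality, `x ∈ U Lo` with `dl x i ≤ A` for all `i`.
Write `x = b * k` (`iwasawa`), `c := b⁻¹ ∈ Bp`, `c * x = k`, `‖c i i‖ = (dl x i)⁻¹ ≥ A⁻¹` (`dl_bk`).
Claim by downward induction on `i : ℕ` (strong induction on `n - i`): there is a number `A_i ≥ 1` depending only on
`A, n, i` with `‖x i j‖ ≤ A_i` for all `j`.  Row `i` of `c * x = k`:
`k i m = ∑_{l ≥ i} c i l * x l m` (`c i l = 0` for `l < i`).  Let `B = max_{l > i} A_l`, `≥ 1`.  By downward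
induction on `m > i`: `‖c i m‖ ≤ B ^ n`-ish: `c i m = k i m - ∑_{l > m} c i l * x l m` (`x m m = 1`,
`x l m = 0` for `l < m`), so `‖c i m‖ ≤ max 1 (max_{l > m} ‖c i l‖ * B) ≤ B ^ (n - m)`.  Then
`c i i * x i j = k i j - ∑_{l > i} c i l * x l j` gives `‖x i j‖ ≤ A * max 1 (B ^ n * B)`, so
`A_i := A * B ^ (n + 1)` works.  (One can take the explicit bound and avoid the dependence on `i` by
proving `∃ A_i, ∀ x …`.)
* `P1_proper`: `U (Pos v) ⊆ U Lo`, `dl x i ≤ (Om v x) ^ c ≤ A ^ c` for `1 ≤ Om v x ≤ A`, `bd_lemma`.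
* `P1m_proper`: `dl x i ≤ (Om v x) ^ (-c) ≤ ε ^ (-c)`.
* `good_proper`, `good_ge`: `Good v π` says `U (Fr π) ⊆ U (Pos v)`.
-/

namespace Pool.Agent.Lib.MP_f399a8_nt.S

open Matrix Filter Topology

variable {p : ℕ} [Fact p.Prime] {n : ℕ}

theorem P1B_sub (a b : ℚ_[p]) : ‖a - b‖ ≤ max ‖a‖ ‖b‖ := by
  have h := IsUltrametricDist.norm_add_le_max a (-b)
  rwa [norm_neg, ← sub_eq_add_neg] at h

theorem P1B_lo {x : SLp p n} (hx : x ∈ U p (Lo : Fin n → Fin n → Prop)) {l m : Fin n}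
    (h : l < m) : x.1 l m = 0 :=
  U_zero hx h.ne (fun h' : m < l => lt_asymm h h')

theorem P1B_mul {c x k : SLp p n} (h : c * x = k) (i m : Fin n) :
    ∑ l, c.1 i l * x.1 l m = k.1 i m := by
  rw [← h]
  exact (Matrix.mul_apply).symm

/-- the entries of one row of `c` -/
theorem P1B_row {c x k : SLp p n} (hk : k ∈ Kp p n) (h : c * x = k)
    (hx : x ∈ U p (Lo : Fin n → Fin n → Prop)) {B : ℝ} (hB : 1 ≤ B) {r : ℕ} {i : Fin n}
    (hi : n ≤ (i : ℕ) + r + 1) (hrow : ∀ l : Fin n, n ≤ (l : ℕ) + r → ∀ j, ‖x.1 l j‖ ≤ B) (s : ℕ) :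
    ∀ m : Fin n, i < m → n ≤ (m : ℕ) + s → ‖c.1 i m‖ ≤ B ^ s := by
  induction s with
  | zero =>
    intro m _ hm
    have := m.2
    omega
  | succ s ih =>
    intro m him hm
    have h1 := P1B_mul h i m
    rw [← Finset.add_sum_erase _ _ (Finset.mem_univ m), U_diag so_Lo hx m, mul_one] at h1
    have h2 : c.1 i m = k.1 i m - ∑ l ∈ Finset.univ.erase m, c.1 i l * x.1 l m := by
      rw [← h1]; ring
    have hB0 : (0 : ℝ) ≤ B := by linarith
    have hBs : (1 : ℝ) ≤ B ^ (s + 1) := one_le_pow₀ hB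
    rw [h2]
    refine (P1B_sub _ _).trans (max_le ((hk i m).trans hBs) ?_)
    refine sum_norm_le _ _ (by positivity) fun l hl => ?_
    have hlm : l ≠ m := Finset.ne_of_mem_erase hl
    rcases lt_or_gt_of_ne hlm with h3 | h3
    · rw [P1B_lo hx h3, mul_zero, norm_zero]
      positivity
    · rw [norm_mul, pow_succ]
      have h4 : (m : ℕ) < (l : ℕ) := h3
      have h5 : (i : ℕ) < (m : ℕ) := him
      refine mul_le_mul (ih l (him.trans h3) (by omega)) (hrow l (by omega) m) (norm_nonneg _)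
        (by positivity)

theorem P1B_step (p n : ℕ) [Fact p.Prime] {A : ℝ} (hA : 1 ≤ A) (r : ℕ) :
    ∃ B : ℝ, 1 ≤ B ∧ ∀ x ∈ U p (Lo : Fin n → Fin n → Prop),
      (∀ i, dl x i ≤ A) → ∀ i : Fin n, n ≤ (i : ℕ) + r → ∀ j, ‖x.1 i j‖ ≤ B := by
  induction r with
  | zero =>
    refine ⟨1, le_rfl, fun x _ _ i hi j => ?_⟩
    have := i.2
    omega
  | succ r ih =>
    obtain ⟨B, hB, hB'⟩ := ih
    have hB0 : (0 : ℝ) ≤ B := by linarith
    have hA0 : (0 : ℝ) ≤ A := by linarith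
    have hBn : B ≤ A * B ^ (n + 1) := by
      have h1 : B ^ 1 ≤ B ^ (n + 1) := pow_le_pow_right₀ hB (by omega)
      have h2 : (0 : ℝ) ≤ B ^ (n + 1) := by positivity
      nlinarith
    refine ⟨A * B ^ (n + 1), hB.trans hBn, fun x hx hd i hi j => ?_⟩
    rcases Nat.lt_or_ge ((i : ℕ) + r) n with h | h
    · obtain ⟨b, hb, k, hk, hbk⟩ := iwasawa x
      have hc : b⁻¹ ∈ Bp p n := (Bp p n).inv_mem hb
      have hcx : b⁻¹ * x = k := by rw [hbk]; group
      have hrow := P1B_row hk hcx hx hB (r := r) (i := i) (by omega)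
        (fun l hl j => hB' x hx hd l hl j) n
      have h1 := P1B_mul hcx i j
      rw [← Finset.add_sum_erase _ _ (Finset.mem_univ i)] at h1
      have h2 : (b⁻¹).1 i i * x.1 i j =
          k.1 i j - ∑ l ∈ Finset.univ.erase i, (b⁻¹).1 i l * x.1 l j := by
        rw [← h1]; ring
      have h3 : ‖(b⁻¹).1 i i * x.1 i j‖ ≤ B ^ (n + 1) := by
        rw [h2]
        refine (P1B_sub _ _).trans
          (max_le ((hk i j).trans (one_le_pow₀ hB)) ?_)
        refine sum_norm_le _ _ (by positivity) fun l hl => ?_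
        have hli : l ≠ i := Finset.ne_of_mem_erase hl
        rcases lt_or_gt_of_ne hli with h4 | h4
        · rw [hc i l h4, zero_mul, norm_zero]
          positivity
        · rw [norm_mul, pow_succ]
          have h5 : (i : ℕ) < (l : ℕ) := h4
          refine mul_le_mul (hrow l h4 (by omega)) (hB' x hx hd l (by omega) j) (norm_nonneg _)
            (by positivity)
      -- the diagonal entry
      have h6 : b.1 i i * (b⁻¹).1 i i = 1 := by
        have h7 : b * b⁻¹ = 1 := mul_inv_cancel b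
        have h8 := P1B_mul h7 i i
        rw [← Finset.add_sum_erase _ _ (Finset.mem_univ i)] at h8
        rw [Finset.sum_eq_zero, add_zero] at h8
        · rw [h8, Matrix.SpecialLinearGroup.coe_one, Matrix.one_apply_eq]
        · intro l hl
          have hli : l ≠ i := Finset.ne_of_mem_erase hl
          rcases lt_or_gt_of_ne hli with h4 | h4
          · rw [hb i l h4, zero_mul]
          · rw [hc l i h4, mul_zero]
      have h9 : dl x i = ‖b.1 i i‖ := by rw [hbk]; exact dl_bk hb hk i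
      have h10 : x.1 i j = b.1 i i * ((b⁻¹).1 i i * x.1 i j) := by
        rw [← mul_assoc, h6, one_mul]
      rw [h10, norm_mul, ← h9]
      exact mul_le_mul (hd i) h3 (norm_nonneg _) hA0
    · exact (hB' x hx hd i h j).trans hBn

theorem bd_lemma (p n : ℕ) [Fact p.Prime] (A : ℝ) : ∃ B : ℝ, ∀ x ∈ U p (Lo : Fin n → Fin n → Prop),
    (∀ i, dl x i ≤ A) → ∀ i j, ‖x.1 i j‖ ≤ B := by
  obtain ⟨B, hB, hB'⟩ := P1B_step p n (A := max A 1) (le_max_right _ _) n
  exact ⟨B, fun x hx hd i j => hB' x hx (fun i => (hd i).trans (le_max_left _ _)) i (by omega) j⟩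

theorem P1_proper (p : ℕ) [Fact p.Prime] (v : Fin n → ℝ) (A : ℝ) : ∃ B : ℝ, ∀ x ∈ U p (Pos v),
    Om v x ≤ A → ∀ i j, ‖x.1 i j‖ ≤ B := by
  obtain ⟨c, hc, hP⟩ := P1 p v
  obtain ⟨B, hB⟩ := bd_lemma p n (A ^ c)
  refine ⟨B, fun x hx hA i j => hB x (U_mono (fun i j h => h.1) hx) (fun i => ?_) i j⟩
  exact ((hP x hx).2 i).trans (Real.rpow_le_rpow (om_pos v x).le hA hc.le)

theorem P1m_proper (p : ℕ) [Fact p.Prime] (v : Fin n → ℝ) {ε : ℝ} (hε : 0 < ε) :
    ∃ B : ℝ, ∀ x ∈ U p (Neg v), ε ≤ Om v x → ∀ i j, ‖x.1 i j‖ ≤ B := by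
  obtain ⟨c, hc, hP⟩ := P1m p v
  obtain ⟨B, hB⟩ := bd_lemma p n (ε ^ (-c))
  refine ⟨B, fun x hx hA i j => hB x (U_mono (fun i j h => h.1) hx) (fun i => ?_) i j⟩
  exact ((hP x hx).2 i).trans (Real.rpow_le_rpow_of_nonpos hε hA (by linarith))

theorem P1B_good {v : Fin n → ℝ} {π : Equiv.Perm (Fin n)} (hg : Good v π) {x : SLp p n}
    (hx : x ∈ U p (Fr π)) : x ∈ U p (Pos v) :=
  U_mono (fun i j h => ⟨h.1, hg i j h⟩) hx

theorem good_ge {v : Fin n → ℝ} {π : Equiv.Perm (Fin n)} (hg : Good v π) {x : SLp p n}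
    (hx : x ∈ U p (Fr π)) : 1 ≤ Om v x := by
  obtain ⟨c, hc, hP⟩ := P1 p v
  exact (hP x (P1B_good hg hx)).1

theorem good_proper (p : ℕ) [Fact p.Prime] {v : Fin n → ℝ} {π : Equiv.Perm (Fin n)}
    (hg : Good v π) (A : ℝ) : ∃ B : ℝ, ∀ x ∈ U p (Fr π), Om v x ≤ A → ∀ i j, ‖x.1 i j‖ ≤ B := by
  obtain ⟨B, hB⟩ := P1_proper p v A
  exact ⟨B, fun x hx hA i j => hB x (P1B_good hg hx) hA i j⟩

end Pool.Agent.Lib.MP_f399a8_nt.S
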