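import Pool.Agent.Lib.MP_f399a8_ntS.N1

/-!
# A logarithm modulo `p ^ e`, geometric sums

PROOF of `gen_coset2`: like `gen_coset` (file N1) with `1 + p^m` replaced by any `γ` with `‖γ - 1‖ = p^(-m)`:
`γ^(p^s) = 1 + (γ-1) p^s (1 + p θ)`, `‖θ‖ ≤ 1`; so `γ^(a p^(K-m)) ≡ 1 + a (γ-1) p^(K-m)` modulo `p^(K+1)`.  Existence of `k`
by induction on `e`, uniqueness: if `γ^k ≡ γ^l` modulo `p^(m+e)`, `k < l < p^e`, then `‖γ^(l-k) - 1‖ ≤ p^(-(m+e))` but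
`‖γ^r - 1‖ = ‖r‖ ‖γ - 1‖ > p^(-(m+e))` for `0 < r < p^e` (`r = p^s r'`).  Also `‖γ^(p^e) - 1‖ ≤ p^(-(m+e))`.
PROOF of `theta_exists`: the relation `y ~ y' :↔ ‖y / y' - 1‖ ≤ p^(-m)` on `ℚ_[p]ˣ` is an equivalence relation (cosets of a
subgroup); choose representatives `c y` (`Quotient.out`).  Let `θ y` be the class modulo `p^e` of the unique `k < p^e` with
`‖γ^k - y / c y‖ ≤ p^(-(m+e))` (`gen_coset2` with `u = y / c y - 1`).  `c (γ y) = c y`, and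
`‖γ^(k+1) - γ y / c y‖ ≤ p^(-(m+e))`, so `θ (γ y) = θ y + 1` in `ZMod (p^e)` (if `k + 1 = p^e` use `γ^(p^e) ≡ 1`).  If
`‖y' - y‖ ≤ p^(-(m+e)) ‖y‖` then `c y' = c y` and `y' / c y` is close to `y / c y`.
PROOF of `geom_small`: induction on `e`: `∑_{k<p^(e+1)} ω^k = (∑_{k<p^e} ω^k) * ∑_{l<p} (ω^(p^e))^l` and
`∑_{l<p} (ω^(p^e))^l = p + ∑_l ((ω^(p^e))^l - 1)` has norm `≤ max ‖(p : C)‖ ‖ω - 1‖ ≤ p⁻¹`
(`‖ω‖ = 1`, `‖ω^r - 1‖ ≤ ‖ω - 1‖`).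
-/

namespace Pool.Agent.Lib.MP_f399a8_nt.S

variable {p : ℕ} [Fact p.Prime] {C : Type*} [NormedField C] [NormedAlgebra ℚ_[p] C]
  [IsUltrametricDist C]

private theorem TiH_norm_le_one {F : Type*} [NormedField F] [IsUltrametricDist F] {x : F}
    (hx : ‖x - 1‖ ≤ 1) : ‖x‖ ≤ 1 := by
  have h := IsUltrametricDist.norm_add_le_max (x - 1) 1
  rw [sub_add_cancel, norm_one] at h
  exact h.trans (max_le hx le_rfl)

private theorem TiH_pow_sub {F : Type*} [NormedField F] [IsUltrametricDist F] {x : F}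
    (hx : ‖x - 1‖ ≤ 1) (i : ℕ) : ‖x ^ i - 1‖ ≤ ‖x - 1‖ := by
  induction i with
  | zero => simp
  | succ i ih =>
    have e : x ^ (i + 1) - 1 = x * (x ^ i - 1) + (x - 1) := by ring
    rw [e]
    refine (IsUltrametricDist.norm_add_le_max _ _).trans (max_le ?_ le_rfl)
    rw [norm_mul]
    calc ‖x‖ * ‖x ^ i - 1‖ ≤ 1 * ‖x - 1‖ :=
          mul_le_mul (TiH_norm_le_one hx) ih (norm_nonneg _) zero_le_one
      _ = ‖x - 1‖ := one_mul _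

private theorem TiH_sum_eq {F : Type*} [NormedField F] (x : F) (n : ℕ) :
    ∑ i ∈ Finset.range n, x ^ i = (n : F) + ∑ i ∈ Finset.range n, (x ^ i - 1) := by
  rw [Finset.sum_sub_distrib]
  simp

private theorem TiH_sum_norm {x : ℚ_[p]} {n : ℕ} (hx1 : ‖x - 1‖ ≤ 1)
    (hx : ‖x - 1‖ < ‖(n : ℚ_[p])‖) : ‖∑ i ∈ Finset.range n, x ^ i‖ = ‖(n : ℚ_[p])‖ := by
  have h2 : ‖∑ i ∈ Finset.range n, (x ^ i - 1)‖ ≤ ‖x - 1‖ :=
    IsUltrametricDist.norm_sum_le_of_forall_le_of_nonneg (norm_nonneg _) fun i _ => TiH_pow_sub hx1 i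
  have h3 : ‖∑ i ∈ Finset.range n, (x ^ i - 1)‖ < ‖(n : ℚ_[p])‖ := lt_of_le_of_lt h2 hx
  rw [TiH_sum_eq, IsUltrametricDist.norm_add_eq_max_of_norm_ne_norm h3.ne', max_eq_left h3.le]

private theorem TiH_p_pos : (0 : ℝ) < p := by
  exact_mod_cast (Fact.out : p.Prime).pos

private theorem TiH_p_one : (1 : ℝ) < p := by
  exact_mod_cast (Fact.out : p.Prime).one_lt

private theorem TiH_zpow_le {a b : ℤ} (h : a ≤ b) : (p : ℝ) ^ a ≤ (p : ℝ) ^ b :=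
  zpow_le_zpow_right₀ (TiH_p_one (p := p)).le h

private theorem TiH_norm_formula (r : ℕ) : ∀ x : ℚ_[p], ‖x - 1‖ ≤ (p : ℝ) ^ (-2 : ℤ) →
    ‖x ^ r - 1‖ = ‖(r : ℚ_[p])‖ * ‖x - 1‖ := by
  have hp0 := TiH_p_pos (p := p)
  have hp1 := TiH_p_one (p := p)
  have h21 : (p : ℝ) ^ (-2 : ℤ) < (p : ℝ)⁻¹ := by
    rw [← zpow_neg_one]
    exact zpow_lt_zpow_right₀ hp1 (by norm_num)
  have h10 : (p : ℝ)⁻¹ < 1 := inv_lt_one_of_one_lt₀ hp1
  induction r using Nat.recOnMul with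
  | zero => intro x _; simp
  | one => intro x _; simp
  | prime q hq =>
    intro x hx
    have hx1 : ‖x - 1‖ ≤ 1 := hx.trans (h21.trans h10).le
    rw [← geom_sum_mul, norm_mul, TiH_sum_norm hx1]
    rcases eq_or_ne p q with rfl | hpq
    · rw [Padic.norm_p]
      exact lt_of_le_of_lt hx h21
    · rw [Padic.norm_natCast_eq_one_iff.2 ((Nat.coprime_primes Fact.out hq).2 hpq)]
      exact lt_of_le_of_lt hx (h21.trans h10)
  | mul a b iha ihb =>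
    intro x hx
    have hx1 : ‖x - 1‖ ≤ 1 := hx.trans (h21.trans h10).le
    rw [pow_mul, ihb (x ^ a) ((TiH_pow_sub hx1 a).trans hx), iha x hx, Nat.cast_mul, norm_mul]
    ring

private theorem TiH_small {m : ℕ} (hm : 2 ≤ m) : (p : ℝ) ^ (-(m : ℤ)) ≤ (p : ℝ) ^ (-2 : ℤ) :=
  TiH_zpow_le (by omega)

private theorem TiH_small1 {m : ℕ} : (p : ℝ) ^ (-(m : ℤ)) ≤ 1 := by
  have h := TiH_zpow_le (p := p) (a := -(m : ℤ)) (b := 0) (by omega)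
  rwa [zpow_zero] at h

private theorem TiH_gamma_norm {m : ℕ} (hm : 2 ≤ m) {γ : ℚ_[p]}
    (hγ : ‖γ - 1‖ = (p : ℝ) ^ (-(m : ℤ))) : ‖γ‖ = 1 := by
  have hp1 := TiH_p_one (p := p)
  have h1 : ‖γ - 1‖ < ‖(1 : ℚ_[p])‖ := by
    rw [hγ, norm_one]
    calc (p : ℝ) ^ (-(m : ℤ)) < (p : ℝ) ^ (0 : ℤ) := zpow_lt_zpow_right₀ hp1 (by omega)
      _ = 1 := zpow_zero _
  have h2 := IsUltrametricDist.norm_add_eq_max_of_norm_ne_norm h1.ne
  rw [sub_add_cancel, max_eq_right h1.le, norm_one] at h2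
  exact h2

/-- two exponents with close powers are congruent -/
private theorem TiH_cong {m : ℕ} (hm : 2 ≤ m) {γ : ℚ_[p]} (hγ : ‖γ - 1‖ = (p : ℝ) ^ (-(m : ℤ)))
    (e : ℕ) {k l : ℕ} (hkl : k ≤ l) (h : ‖γ ^ k - γ ^ l‖ ≤ (p : ℝ) ^ (-((m + e : ℕ) : ℤ))) :
    p ^ e ∣ l - k := by
  have hp0 := TiH_p_pos (p := p)
  have h1 : γ ^ l - γ ^ k = γ ^ k * (γ ^ (l - k) - 1) := by
    rw [mul_sub, ← pow_add, Nat.add_sub_cancel' hkl, mul_one]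
  have h2 : ‖γ ^ (l - k) - 1‖ ≤ (p : ℝ) ^ (-((m + e : ℕ) : ℤ)) := by
    have h3 : ‖γ ^ l - γ ^ k‖ = ‖γ ^ (l - k) - 1‖ := by
      rw [h1, norm_mul, norm_pow, TiH_gamma_norm hm hγ, one_pow, one_mul]
    rw [← h3, ← norm_neg, neg_sub]
    exact h
  rw [TiH_norm_formula (l - k) γ (hγ.le.trans (TiH_small hm)), hγ] at h2
  have h4 : ‖((l - k : ℕ) : ℚ_[p])‖ ≤ (p : ℝ) ^ (-(e : ℤ)) := by
    have h5 : (p : ℝ) ^ (-((m + e : ℕ) : ℤ)) = (p : ℝ) ^ (-(e : ℤ)) * (p : ℝ) ^ (-(m : ℤ)) := by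
      rw [← zpow_add₀ hp0.ne']
      congr 1
      push_cast
      ring
    rw [h5] at h2
    exact le_of_mul_le_mul_right h2 (zpow_pos hp0 _)
  have h6 := (Padic.norm_int_le_pow_iff_dvd (p := p) ((l - k : ℕ) : ℤ) e).1 (by exact_mod_cast h4)
  exact_mod_cast h6

private theorem TiH_cong' {m : ℕ} (hm : 2 ≤ m) {γ : ℚ_[p]} (hγ : ‖γ - 1‖ = (p : ℝ) ^ (-(m : ℤ)))
    (e : ℕ) {k l : ℕ} (h : ‖γ ^ k - γ ^ l‖ ≤ (p : ℝ) ^ (-((m + e : ℕ) : ℤ))) :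
    (k : ZMod (p ^ e)) = (l : ZMod (p ^ e)) := by
  rcases le_total k l with hkl | hkl
  · have h1 := TiH_cong hm hγ e hkl h
    exact (ZMod.natCast_eq_natCast_iff _ _ _).2 ((Nat.modEq_iff_dvd' hkl).2 h1)
  · have h1 := TiH_cong hm hγ e hkl (by rw [← norm_neg, neg_sub]; exact h)
    exact ((ZMod.natCast_eq_natCast_iff _ _ _).2 ((Nat.modEq_iff_dvd' hkl).2 h1)).symm

private theorem TiH_exists {m : ℕ} (hm : 2 ≤ m) {γ : ℚ_[p]} (hγ : ‖γ - 1‖ = (p : ℝ) ^ (-(m : ℤ)))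
    (e : ℕ) {u : ℚ_[p]} (hu : ‖u‖ ≤ (p : ℝ) ^ (-(m : ℤ))) :
    ∃ k : ℕ, k < p ^ e ∧ ‖γ ^ k - (1 + u)‖ ≤ (p : ℝ) ^ (-((m + e : ℕ) : ℤ)) := by
  have hp0 := TiH_p_pos (p := p)
  have hp1 := TiH_p_one (p := p)
  have hpp : 0 < p := (Fact.out : p.Prime).pos
  have hγ1 := TiH_gamma_norm hm hγ
  induction e with
  | zero =>
    refine ⟨0, by simp, ?_⟩
    rw [pow_zero, add_zero]
    have : (1 : ℚ_[p]) - (1 + u) = -u := by ring
    rw [this, norm_neg]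
    exact hu
  | succ e ih =>
    obtain ⟨k, hk, hk2⟩ := ih
    set δ : ℚ_[p] := γ ^ (p ^ e) - 1 with hδ
    set ρ : ℚ_[p] := γ ^ k - (1 + u) with hρ
    have hδn : ‖δ‖ = (p : ℝ) ^ (-((m + e : ℕ) : ℤ)) := by
      rw [hδ, TiH_norm_formula _ γ (hγ.le.trans (TiH_small hm)), hγ, Nat.cast_pow, norm_pow,
        Padic.norm_p, inv_pow, ← zpow_natCast, ← zpow_neg, ← zpow_add₀ hp0.ne']
      congr 1
      push_cast
      ring
    have hδ0 : δ ≠ 0 := by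
      rw [← norm_ne_zero_iff, hδn]
      exact (zpow_pos hp0 _).ne'
    have hδ1 : ‖γ ^ (p ^ e) - 1‖ ≤ 1 := by
      rw [← hδ, hδn]
      exact TiH_small1
    have hq : ‖-(ρ / δ)‖ ≤ 1 := by
      rw [norm_neg, norm_div, hδn]
      exact div_le_one_of_le₀ hk2 (zpow_pos hp0 _).le
    obtain ⟨ζ, hζ⟩ : ∃ ζ : ℤ_[p], (ζ : ℚ_[p]) = -(ρ / δ) := ⟨⟨-(ρ / δ), hq⟩, rfl⟩
    obtain ⟨a, ha, ha2⟩ := PadicInt.exists_mem_range ζ
    have ha3 : ‖-(ρ / δ) - (a : ℚ_[p])‖ ≤ (p : ℝ) ^ (-1 : ℤ) := by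
      have h1 : ‖ζ - (a : ℤ_[p])‖ < 1 := by
        rw [← PadicInt.mem_nonunits]
        exact ha2
      rw [PadicInt.norm_def] at h1
      have h2 : ((ζ - (a : ℤ_[p]) : ℤ_[p]) : ℚ_[p]) = -(ρ / δ) - (a : ℚ_[p]) := by
        rw [PadicInt.coe_sub, PadicInt.coe_natCast, hζ]
      rw [h2] at h1
      rw [Padic.norm_le_pow_iff_norm_lt_pow_add_one]
      simpa using h1
    have hlt : (p : ℝ) ^ (-((m + e : ℕ) : ℤ)) * (p : ℝ) ^ (-1 : ℤ) =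
        (p : ℝ) ^ (-((m + (e + 1) : ℕ) : ℤ)) := by
      rw [← zpow_add₀ hp0.ne']
      congr 1
      push_cast
      ring
    have hsmall : (p : ℝ) ^ (-((m + e : ℕ) : ℤ)) ≤ (p : ℝ) ^ (-1 : ℤ) := TiH_zpow_le (by omega)
    refine ⟨k + a * p ^ e, ?_, ?_⟩
    · calc k + a * p ^ e < p ^ e + a * p ^ e := by omega
        _ = (a + 1) * p ^ e := by ring
        _ ≤ p * p ^ e := Nat.mul_le_mul_right _ ha
        _ = p ^ (e + 1) := by ring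
    · -- the expansion
      have h3 : ‖(γ ^ (p ^ e)) ^ a - 1 - (a : ℚ_[p]) * δ‖ ≤ (p : ℝ) ^ (-((m + (e + 1) : ℕ) : ℤ)) := by
        have e1 : (γ ^ (p ^ e)) ^ a - 1 - (a : ℚ_[p]) * δ =
            (∑ i ∈ Finset.range a, ((γ ^ (p ^ e)) ^ i - 1)) * δ := by
          rw [Finset.sum_sub_distrib, sub_mul, hδ, geom_sum_mul]
          simp
        rw [e1, norm_mul, hδn, mul_comm, ← hlt]
        refine mul_le_mul_of_nonneg_left ?_ (zpow_pos hp0 _).le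
        refine (IsUltrametricDist.norm_sum_le_of_forall_le_of_nonneg
          (norm_nonneg (γ ^ (p ^ e) - 1)) fun i _ => TiH_pow_sub hδ1 i).trans ?_
        rw [← hδ, hδn]
        exact hsmall
      have h4 : ‖(γ ^ k - 1) * ((γ ^ (p ^ e)) ^ a - 1)‖ ≤ (p : ℝ) ^ (-((m + (e + 1) : ℕ) : ℤ)) := by
        rw [norm_mul, mul_comm, ← hlt]
        have h41 : ‖γ - 1‖ ≤ 1 := by rw [hγ]; exact TiH_small1
        refine mul_le_mul ?_ ?_ (norm_nonneg _) (zpow_pos hp0 _).le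
        · refine (TiH_pow_sub hδ1 a).trans ?_
          rw [← hδ, hδn]
        · refine (TiH_pow_sub h41 k).trans ?_
          rw [hγ]
          exact TiH_zpow_le (by omega)
      have h5 : ‖ρ + (a : ℚ_[p]) * δ‖ ≤ (p : ℝ) ^ (-((m + (e + 1) : ℕ) : ℤ)) := by
        have e2 : ρ + (a : ℚ_[p]) * δ = -((-(ρ / δ) - (a : ℚ_[p])) * δ) := by
          field_simp
          ring
        rw [e2, norm_neg, norm_mul, hδn, mul_comm, ← hlt]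
        exact mul_le_mul_of_nonneg_left ha3 (zpow_pos hp0 _).le
      have e3 : γ ^ (k + a * p ^ e) - (1 + u) = (ρ + (a : ℚ_[p]) * δ) +
          (((γ ^ (p ^ e)) ^ a - 1 - (a : ℚ_[p]) * δ) + (γ ^ k - 1) * ((γ ^ (p ^ e)) ^ a - 1)) := by
        have e4 : γ ^ (k + a * p ^ e) = γ ^ k * (γ ^ (p ^ e)) ^ a := by
          rw [pow_add, mul_comm a, pow_mul]
        rw [e4, hρ]
        ring
      rw [e3]
      exact (IsUltrametricDist.norm_add_le_max _ _).trans (max_le h5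
        ((IsUltrametricDist.norm_add_le_max _ _).trans (max_le h3 h4)))

theorem gen_coset2 {m : ℕ} (hm : 2 ≤ m) {γ : ℚ_[p]} (hγ : ‖γ - 1‖ = (p : ℝ) ^ (-(m : ℤ)))
    (e : ℕ) {u : ℚ_[p]} (hu : ‖u‖ ≤ (p : ℝ) ^ (-(m : ℤ))) :
    ∃! k : ℕ, k < p ^ e ∧ ‖γ ^ k - (1 + u)‖ ≤ (p : ℝ) ^ (-((m + e : ℕ) : ℤ)) := by
  obtain ⟨k, hk, hk2⟩ := TiH_exists hm hγ e hu
  refine ⟨k, ⟨hk, hk2⟩, ?_⟩
  rintro l ⟨hl, hl2⟩
  have h1 : ‖γ ^ l - γ ^ k‖ ≤ (p : ℝ) ^ (-((m + e : ℕ) : ℤ)) := by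
    have e1 : γ ^ l - γ ^ k = (γ ^ l - (1 + u)) + -(γ ^ k - (1 + u)) := by ring
    rw [e1]
    refine (IsUltrametricDist.norm_add_le_max _ _).trans (max_le hl2 ?_)
    rw [norm_neg]
    exact hk2
  have h2 := TiH_cong' hm hγ e h1
  rw [ZMod.natCast_eq_natCast_iff] at h2
  exact Nat.ModEq.eq_of_lt_of_lt h2 hl hk

open Classical in
/-- the small neighbourhoods -/
private noncomputable def TiH_S (p : ℕ) [Fact p.Prime] (m : ℕ) (y : ℚ_[p]) : Set ℚ_[p] :=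
  {w | w ≠ 0 ∧ ‖y - w‖ ≤ (p : ℝ) ^ (-(m : ℤ)) * ‖y‖}

open Classical in
/-- a representative of the coset of `y` -/
private noncomputable def TiH_c (p : ℕ) [Fact p.Prime] (m : ℕ) (y : ℚ_[p]) : ℚ_[p] :=
  if h : (TiH_S p m y).Nonempty then h.some else 1

private theorem TiH_norm_eq {m : ℕ} (hm : 2 ≤ m) {y y' : ℚ_[p]} (hy : y ≠ 0)
    (h : ‖y' - y‖ ≤ (p : ℝ) ^ (-(m : ℤ)) * ‖y‖) : ‖y'‖ = ‖y‖ := by
  have hp1 := TiH_p_one (p := p)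
  have hy1 : 0 < ‖y‖ := norm_pos_iff.2 hy
  have h1 : ‖y' - y‖ < ‖y‖ := by
    refine lt_of_le_of_lt h ?_
    have h2 : (p : ℝ) ^ (-(m : ℤ)) < 1 := by
      calc (p : ℝ) ^ (-(m : ℤ)) < (p : ℝ) ^ (0 : ℤ) := zpow_lt_zpow_right₀ hp1 (by omega)
        _ = 1 := zpow_zero _
    calc (p : ℝ) ^ (-(m : ℤ)) * ‖y‖ < 1 * ‖y‖ := mul_lt_mul_of_pos_right h2 hy1
      _ = ‖y‖ := one_mul _
  have h2 := IsUltrametricDist.norm_add_eq_max_of_norm_ne_norm h1.ne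
  rw [sub_add_cancel, max_eq_right h1.le] at h2
  exact h2

private theorem TiH_c_eq {m : ℕ} (hm : 2 ≤ m) {y y' : ℚ_[p]} (hy : y ≠ 0)
    (h : ‖y' - y‖ ≤ (p : ℝ) ^ (-(m : ℤ)) * ‖y‖) : TiH_c p m y' = TiH_c p m y := by
  have hn := TiH_norm_eq hm hy h
  have hS : TiH_S p m y' = TiH_S p m y := by
    ext w
    constructor
    · rintro ⟨h0, h1⟩
      refine ⟨h0, ?_⟩
      have e : y - w = -(y' - y) + (y' - w) := by ring
      rw [e]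
      refine (IsUltrametricDist.norm_add_le_max _ _).trans (max_le ?_ ?_)
      · rwa [norm_neg]
      · rwa [hn] at h1
    · rintro ⟨h0, h1⟩
      refine ⟨h0, ?_⟩
      have e : y' - w = (y' - y) + (y - w) := by ring
      rw [e, hn]
      exact (IsUltrametricDist.norm_add_le_max _ _).trans (max_le h h1)
  unfold TiH_c
  rw [hS]

private theorem TiH_c_spec {m : ℕ} {y : ℚ_[p]} (hy : y ≠ 0) :
    TiH_c p m y ≠ 0 ∧ ‖y - TiH_c p m y‖ ≤ (p : ℝ) ^ (-(m : ℤ)) * ‖y‖ := by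
  have hp0 := TiH_p_pos (p := p)
  have h : (TiH_S p m y).Nonempty := by
    refine ⟨y, hy, ?_⟩
    rw [sub_self, norm_zero]
    exact mul_nonneg (zpow_pos hp0 _).le (norm_nonneg _)
  unfold TiH_c
  rw [dif_pos h]
  exact h.some_mem

private theorem TiH_k {m : ℕ} (hm : 2 ≤ m) {γ : ℚ_[p]} (hγ : ‖γ - 1‖ = (p : ℝ) ^ (-(m : ℤ)))
    (e : ℕ) {y : ℚ_[p]} (hy : y ≠ 0) :
    ∃ k : ℕ, ‖γ ^ k - y / TiH_c p m y‖ ≤ (p : ℝ) ^ (-((m + e : ℕ) : ℤ)) := by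
  obtain ⟨h0, h1⟩ := TiH_c_spec (m := m) hy
  set c := TiH_c p m y
  have hcn : ‖c‖ = ‖y‖ := by
    refine TiH_norm_eq hm hy ?_
    rw [← norm_neg, neg_sub]
    exact h1
  have hu : ‖y / c - 1‖ ≤ (p : ℝ) ^ (-(m : ℤ)) := by
    have e1 : y / c - 1 = (y - c) / c := by
      field_simp
    rw [e1, norm_div, hcn]
    exact (div_le_iff₀ (norm_pos_iff.2 hy)).2 h1
  obtain ⟨k, _, hk⟩ := TiH_exists hm hγ e hu
  refine ⟨k, ?_⟩
  rwa [add_sub_cancel] at hk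

theorem theta_exists {m : ℕ} (hm : 2 ≤ m) {γ : ℚ_[p]} (hγ : ‖γ - 1‖ = (p : ℝ) ^ (-(m : ℤ)))
    (e : ℕ) : ∃ θ : ℚ_[p] → ZMod (p ^ e), (∀ y, y ≠ 0 → θ (γ * y) = θ y + 1) ∧
      ∀ y y', y ≠ 0 → ‖y' - y‖ ≤ (p : ℝ) ^ (-((m + e : ℕ) : ℤ)) * ‖y‖ → θ y' = θ y := by
  classical
  have hp0 := TiH_p_pos (p := p)
  have hγ1 := TiH_gamma_norm hm hγ
  have hγ0 : γ ≠ 0 := by
    rw [← norm_ne_zero_iff, hγ1]
    exact one_ne_zero
  let θ : ℚ_[p] → ZMod (p ^ e) := fun y =>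
    if h : y ≠ 0 then ((Classical.choose (TiH_k hm hγ e h) : ℕ) : ZMod (p ^ e)) else 0
  have hθ : ∀ y, y ≠ 0 → ∀ k : ℕ, ‖γ ^ k - y / TiH_c p m y‖ ≤ (p : ℝ) ^ (-((m + e : ℕ) : ℤ)) →
      θ y = (k : ZMod (p ^ e)) := by
    intro y hy k hk
    have h1 := Classical.choose_spec (TiH_k hm hγ e hy)
    have h2 : θ y = ((Classical.choose (TiH_k hm hγ e hy) : ℕ) : ZMod (p ^ e)) := dif_pos hy
    rw [h2]
    refine TiH_cong' hm hγ e ?_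
    set l := Classical.choose (TiH_k hm hγ e hy)
    have e1 : γ ^ l - γ ^ k = (γ ^ l - y / TiH_c p m y) + -(γ ^ k - y / TiH_c p m y) := by ring
    rw [e1]
    refine (IsUltrametricDist.norm_add_le_max _ _).trans (max_le h1 ?_)
    rwa [norm_neg]
  refine ⟨θ, ?_, ?_⟩
  · intro y hy
    obtain ⟨k, hk⟩ := TiH_k hm hγ e hy
    rw [hθ y hy k hk]
    have hc : TiH_c p m (γ * y) = TiH_c p m y := by
      refine TiH_c_eq hm hy ?_
      have e1 : γ * y - y = (γ - 1) * y := by ring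
      rw [e1, norm_mul, hγ]
    have h1 := hθ (γ * y) (mul_ne_zero hγ0 hy) (k + 1) (by
      rw [hc]
      have e2 : γ ^ (k + 1) - γ * y / TiH_c p m y = γ * (γ ^ k - y / TiH_c p m y) := by
        ring
      rw [e2, norm_mul, hγ1, one_mul]
      exact hk)
    rw [h1, Nat.cast_add, Nat.cast_one]
  · intro y y' hy h
    have hle : (p : ℝ) ^ (-((m + e : ℕ) : ℤ)) ≤ (p : ℝ) ^ (-(m : ℤ)) := TiH_zpow_le (by omega)
    have h' : ‖y' - y‖ ≤ (p : ℝ) ^ (-(m : ℤ)) * ‖y‖ :=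
      h.trans (mul_le_mul_of_nonneg_right hle (norm_nonneg _))
    have hn := TiH_norm_eq hm hy h'
    have hc := TiH_c_eq hm hy h'
    have hy' : y' ≠ 0 := by
      rw [← norm_ne_zero_iff, hn]
      exact norm_ne_zero_iff.2 hy
    obtain ⟨k, hk⟩ := TiH_k hm hγ e hy
    rw [hθ y hy k hk]
    refine hθ y' hy' k ?_
    rw [hc]
    obtain ⟨h0, h1⟩ := TiH_c_spec (m := m) hy
    have hcn : ‖TiH_c p m y‖ = ‖y‖ := by
      refine TiH_norm_eq hm hy ?_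
      rw [← norm_neg, neg_sub]
      exact h1
    have e1 : γ ^ k - y' / TiH_c p m y =
        (γ ^ k - y / TiH_c p m y) + -((y' - y) / TiH_c p m y) := by ring
    rw [e1]
    refine (IsUltrametricDist.norm_add_le_max _ _).trans (max_le hk ?_)
    rw [norm_neg, norm_div, hcn]
    exact (div_le_iff₀ (norm_pos_iff.2 hy)).2 h

private theorem TiH_geom_mul {R : Type*} [CommRing R] (x : R) (a b : ℕ) :
    ∑ k ∈ Finset.range (a * b), x ^ k =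
      (∑ k ∈ Finset.range a, x ^ k) * ∑ l ∈ Finset.range b, (x ^ a) ^ l := by
  induction b with
  | zero => simp
  | succ b ih =>
    rw [Nat.mul_succ, Finset.sum_range_add, ih, Finset.sum_range_succ, mul_add]
    congr 1
    rw [Finset.sum_mul]
    refine Finset.sum_congr rfl fun k _ => ?_
    rw [pow_add, pow_mul, mul_comm]

theorem geom_small {ω : C} (hω : ‖ω - 1‖ ≤ (p : ℝ)⁻¹) (e : ℕ) :
    ‖∑ k ∈ Finset.range (p ^ e), ω ^ k‖ ≤ (p : ℝ) ^ (-(e : ℤ)) := by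
  have hp0 := TiH_p_pos (p := p)
  have hp1 := TiH_p_one (p := p)
  have hω1 : ‖ω - 1‖ ≤ 1 := hω.trans (inv_lt_one_of_one_lt₀ hp1).le
  have hpC : ‖((p : ℕ) : C)‖ = (p : ℝ)⁻¹ := by
    have h1 : ((p : ℕ) : C) = algebraMap ℚ_[p] C ((p : ℕ) : ℚ_[p]) := by
      rw [map_natCast]
    rw [h1, norm_algebraMap', Padic.norm_p]
  induction e with
  | zero => simp
  | succ e ih =>
    rw [pow_succ, TiH_geom_mul, norm_mul]
    have h2 : ‖∑ l ∈ Finset.range p, (ω ^ (p ^ e)) ^ l‖ ≤ (p : ℝ)⁻¹ := by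
      rw [TiH_sum_eq]
      refine (IsUltrametricDist.norm_add_le_max _ _).trans (max_le hpC.le ?_)
      refine IsUltrametricDist.norm_sum_le_of_forall_le_of_nonneg (inv_pos.2 hp0).le fun i _ => ?_
      rw [← pow_mul]
      exact (TiH_pow_sub hω1 _).trans hω
    have h3 : (p : ℝ) ^ (-((e + 1 : ℕ) : ℤ)) = (p : ℝ) ^ (-(e : ℤ)) * (p : ℝ)⁻¹ := by
      rw [← zpow_neg_one, ← zpow_add₀ hp0.ne']
      congr 1
      push_cast
      ring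
    rw [h3]
    exact mul_le_mul ih h2 (norm_nonneg _) (zpow_pos hp0 _).le

end Pool.Agent.Lib.MP_f399a8_nt.S
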