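import Pool.Agent.Lib.MP_f399a8_ntS.PgA

/-!
# Approximation by small boxes

`ed π` are the exponents of a torus element contracting `U R` for `R ≤ Ord π`.

PROOF of `ac_core`.  `F` from `pg_box`.  For `b : ℕ` let `F_b x = F ((t1^b)⁻¹ * x * t1^b)`, in `Y` (induction from
`hcontr`), and `‖F_b x - indK ((t1^b)⁻¹ * x * t1^b)‖ ≤ κ` for `x ∈ U R` (`U_conj`).  Let
`L = U R ∩ Kp`, `H_b = {x ∈ U R | (t1^b)⁻¹ * x * t1^b ∈ Kp}` (subgroups).  For `x ∈ H_b`, `R i j`: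
`‖x i j‖ ≤ p ^ (- b * (ed i - ed j)) ≤ p ^ (-b)` (`dg_pow_conj'`, `ed π j < ed π i` for `π i < π j`), so
`H_b ⊆ L ∩ Km b`; and `L ∩ Km (b * (2 n)) ⊆ H_b` (`ed i - ed j ≤ 2 n`).  By `unif` (compact `Kp`, `ε = κ * B` if
positive; if `κ * B = 0`, i.e. `B = 0`, take `ψ = 0 • F`) choose `b` with
`‖φ (x * h) - φ x‖ ≤ κ * B` for all `x ∈ Kp`, `h ∈ Km b`.  `coset_reps` gives the finite set `S ⊆ L`.
Let `ψ x = ∑ s ∈ S, φ s * F_b (x * s⁻¹)`, in `Y` (finite sums: `Y` contains `0 • F`).  Let `x ∈ U R`.  The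
difference of `ψ x` and `∑ s, φ s * indK ((t1^b)⁻¹ * (x * s⁻¹) * t1^b)` has norm `≤ B * κ` (ultrametric,
`‖φ s‖ ≤ B`).  If `x ∈ L` exactly one `s` has `h := x * s⁻¹ ∈ H_b`, so the sum is `φ s`, and
`x = h * s = s * (s⁻¹ * h * s)`, `s⁻¹ * h * s ∈ Km b` (`km_conj`), so `‖φ x - φ s‖ ≤ κ * B`.  If `x ∉ Kp` no `s` has
`x * s⁻¹ ∈ H_b ⊆ Kp`, the sum is `0` and `‖φ x‖ ≤ κ * B`.
-/

namespace Pool.Agent.Lib.MP_f399a8_nt.S

open Matrix Filter Topology

noncomputable section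

variable {p : ℕ} [Fact p.Prime] {n : ℕ} {C : Type*} [NormedField C] [NormedAlgebra ℚ_[p] C]
  [IsUltrametricDist C]

/-- exponents decreasing along `π` with sum zero -/
def ed (π : Equiv.Perm (Fin n)) : Fin n → ℤ := fun i => (n : ℤ) - 1 - 2 * ((π i : ℕ) : ℤ)

theorem ed_sum (π : Equiv.Perm (Fin n)) : ∑ i, ed π i = 0 := by
  have h1 : ∑ i : Fin n, (((π i : Fin n) : ℕ) : ℤ) = ∑ i ∈ Finset.range n, (i : ℤ) := by
    rw [Equiv.sum_comp π (fun i : Fin n => ((i : ℕ) : ℤ)), Fin.sum_univ_eq_sum_range (fun i => (i : ℤ)) n]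
  have h2 : (∑ i ∈ Finset.range n, (i : ℤ)) * 2 = n * ((n : ℤ) - 1) := by
    have h3 := Finset.sum_range_id_mul_two n
    rcases Nat.eq_zero_or_pos n with rfl | hn
    · simp
    · have h4 : ((n - 1 : ℕ) : ℤ) = (n : ℤ) - 1 := by
        rw [Nat.cast_sub hn, Nat.cast_one]
      rw [← h4, ← Nat.cast_mul, ← h3]
      push_cast
      ring
  unfold ed
  rw [Finset.sum_sub_distrib, ← Finset.mul_sum, h1, Finset.sum_const, Finset.card_univ, Fintype.card_fin,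
    nsmul_eq_mul]
  linarith

theorem ed_lt {π : Equiv.Perm (Fin n)} {i j : Fin n} (h : π i < π j) : ed π j < ed π i := by
  have h1 : ((π i : Fin n) : ℕ) < ((π j : Fin n) : ℕ) := h
  unfold ed
  omega

private theorem AcA_sum {ι : Type*} (s : Finset ι) (f : ι → C) {c : ℝ} (hc : 0 ≤ c)
    (h : ∀ i ∈ s, ‖f i‖ ≤ c) : ‖∑ i ∈ s, f i‖ ≤ c := by
  classical
  induction s using Finset.induction_on with
  | empty => simpa using hc
  | insert a s ha ih =>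
    rw [Finset.sum_insert ha]
    refine (IsUltrametricDist.norm_add_le_max _ _).trans (max_le (h _ (Finset.mem_insert_self _ _))
      (ih fun i hi => h i (Finset.mem_insert_of_mem hi)))

private theorem AcA_zpow_norm (a : ℤ) : ‖(p : ℚ_[p]) ^ a‖ = (p : ℝ) ^ (-a) := by
  rw [norm_zpow, Padic.norm_p, _root_.inv_zpow, _root_.zpow_neg]

omit [IsUltrametricDist C] [NormedAlgebra ℚ_[p] C] in
private theorem AcA_sumY {R : Fin n → Fin n → Prop} {Y : Set (SLp p n → C)} (hY : YC R Y)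
    {F : SLp p n → C} (hF : F ∈ Y) (S : Finset (SLp p n)) (g : SLp p n → SLp p n → C)
    (h : ∀ s ∈ S, (fun x => g s x) ∈ Y) : (fun x => ∑ s ∈ S, g s x) ∈ Y := by
  classical
  induction S using Finset.induction_on with
  | empty =>
    have h1 := hY.smul 0 F hF
    simpa using h1
  | insert a S ha ih =>
    have h1 := hY.add _ (h a (Finset.mem_insert_self _ _)) _
      (ih fun s hs => h s (Finset.mem_insert_of_mem hs))
    have h2 : (fun x => ∑ s ∈ insert a S, g s x) = fun x => g a x + ∑ s ∈ S, g s x := by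
      funext x
      rw [Finset.sum_insert ha]
    rw [h2]
    exact h1

/-- small conjugates -/
private theorem AcA_small {R : Fin n → Fin n → Prop} {π : Equiv.Perm (Fin n)}
    (hRπ : ∀ i j, R i j → π i < π j) {t1 : SLp p n} (ht1 : IsDg (ed π) t1) (b : ℕ) {x : SLp p n}
    (hx : x ∈ U p R) (hxK : (t1 ^ b)⁻¹ * x * t1 ^ b ∈ Kp p n) : x ∈ Km p n b := by
  have hp1 : (1 : ℝ) ≤ (p : ℝ) := by exact_mod_cast (Fact.out : p.Prime).one_lt.le
  have hp0 : (0 : ℝ) < (p : ℝ) := by linarith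
  intro i j
  by_cases hij : R i j
  · have h1 := hRπ i j hij
    have hne : i ≠ j := by
      rintro rfl
      exact lt_irrefl _ h1
    rw [Matrix.one_apply_ne hne, sub_zero]
    have h2 := hxK i j
    rw [dg_pow_conj' ht1, norm_mul, AcA_zpow_norm] at h2
    have h3 : (p : ℝ) ^ (b : ℤ) ≤ (p : ℝ) ^ (-((b : ℤ) * (ed π j - ed π i))) := by
      refine zpow_le_zpow_right₀ hp1 ?_
      have h4 := ed_lt h1
      have h5 : (0 : ℤ) ≤ (b : ℤ) := by positivity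
      nlinarith
    have h4 : (p : ℝ) ^ (b : ℤ) * ‖x.1 i j‖ ≤ 1 :=
      (mul_le_mul_of_nonneg_right h3 (norm_nonneg _)).trans h2
    rw [_root_.zpow_neg, ← one_div, le_div_iff₀ (by positivity), mul_comm]
    exact h4
  · rw [hx i j hij, sub_self, norm_zero]
    positivity

private theorem AcA_mem {R : Fin n → Fin n → Prop} {π : Equiv.Perm (Fin n)}
    (hRπ : ∀ i j, R i j → π i < π j) {t1 : SLp p n} (ht1 : IsDg (ed π) t1) (b : ℕ) {x : SLp p n}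
    (hx : x ∈ U p R) (hxK : x ∈ Km p n (b * (2 * n))) : (t1 ^ b)⁻¹ * x * t1 ^ b ∈ Kp p n := by
  have hp1 : (1 : ℝ) ≤ (p : ℝ) := by exact_mod_cast (Fact.out : p.Prime).one_lt.le
  have hp0 : (0 : ℝ) < (p : ℝ) := by linarith
  intro i j
  by_cases hij : R i j
  · have h1 := hRπ i j hij
    have hne : i ≠ j := by
      rintro rfl
      exact lt_irrefl _ h1
    have h2 := hxK i j
    rw [Matrix.one_apply_ne hne, sub_zero] at h2
    rw [dg_pow_conj' ht1, norm_mul, AcA_zpow_norm]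
    have h3 : (p : ℝ) ^ (-((b : ℤ) * (ed π j - ed π i))) * (p : ℝ) ^ (-((b * (2 * n) : ℕ) : ℤ)) ≤ 1 := by
      rw [← zpow_add₀ hp0.ne']
      refine zpow_le_one_of_nonpos₀ hp1 ?_
      have h4 : ed π i - ed π j ≤ 2 * n := by
        unfold ed
        have := (π j).2
        omega
      have h5 : (0 : ℤ) ≤ (b : ℤ) := by positivity
      push_cast
      nlinarith
    exact (mul_le_mul_of_nonneg_left h2 (by positivity)).trans h3
  · rw [(U_conj (dg_pow ht1 b) hx).2 i j hij]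
    exact one_norm_le i j

omit [NormedField C] [NormedAlgebra ℚ_[p] C] [IsUltrametricDist C] in
private theorem AcA_contr {t1 : SLp p n} {Y : Set (SLp p n → C)}
    (hcontr : ∀ f ∈ Y, (fun x => f (t1⁻¹ * x * t1)) ∈ Y) {F : SLp p n → C} (hF : F ∈ Y) (b : ℕ) :
    (fun x => F ((t1 ^ b)⁻¹ * x * t1 ^ b)) ∈ Y := by
  induction b with
  | zero =>
    have h : (fun x => F ((t1 ^ 0)⁻¹ * x * t1 ^ 0)) = F := by
      funext x
      rw [pow_zero, inv_one, one_mul, mul_one]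
    rw [h]
    exact hF
  | succ b ih =>
    have h := hcontr _ ih
    have h2 : (fun x => F ((t1 ^ (b + 1))⁻¹ * x * t1 ^ (b + 1))) =
        fun x => F ((t1 ^ b)⁻¹ * (t1⁻¹ * x * t1) * t1 ^ b) := by
      funext x
      congr 1
      rw [pow_succ' t1 b]
      group
    rw [h2]
    exact h

theorem ac_core {R : Fin n → Fin n → Prop} (hR : SO R) {π : Equiv.Perm (Fin n)}
    (hRπ : ∀ i j, R i j → π i < π j) {t1 : SLp p n} (ht1 : IsDg (ed π) t1) {κ : ℝ}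
    (hκ0 : 0 < κ) (hκ : ∀ c : C, ‖c‖ < 1 → ‖c‖ ≤ κ) {Y : Set (SLp p n → C)} (hY : YC R Y)
    (hcontr : ∀ f ∈ Y, (fun x => f (t1⁻¹ * x * t1)) ∈ Y) {Γ : SLp p n → C}
    (hΓY : Γ ∈ Y) (hΓ : Continuous Γ) (h1 : ∀ x ∈ U p R, ‖Γ x‖ ≤ 1)
    (h2 : ∃ x ∈ U p R, x ∈ Kp p n ∧ ‖Γ x‖ = 1) (h3 : ∀ x ∈ U p R, x ∉ Kp p n → ‖Γ x‖ < 1)
    {φ : SLp p n → C} (hφ : Continuous φ) {B : ℝ} (hB0 : 0 ≤ B) (hB : ∀ x ∈ U p R, ‖φ x‖ ≤ B)
    (hB' : ∀ x ∈ U p R, x ∉ Kp p n → ‖φ x‖ ≤ κ * B) :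
    ∃ ψ ∈ Y, ∀ x ∈ U p R, ‖φ x - ψ x‖ ≤ κ * B := by
  classical
  obtain ⟨F, hFY, hF⟩ := pg_box hR hκ hY hΓY hΓ h1 h2 h3
  rcases hB0.eq_or_lt with hB00 | hBpos
  · -- `B = 0`
    refine ⟨fun x => 0 * F x, hY.smul 0 F hFY, fun x hx => ?_⟩
    show ‖φ x - 0 * F x‖ ≤ κ * B
    rw [zero_mul, sub_zero]
    have h := hB x hx
    rw [← hB00] at h ⊢
    rw [mul_zero]
    exact h
  · obtain ⟨b, hb⟩ := unif hφ (kp_compact p n) (mul_pos hκ0 hBpos)
    have hκB : 0 ≤ κ * B := by positivity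
    let H : Subgroup (SLp p n) := US p R hR ⊓ (Kp p n).comap (MulAut.conj (t1 ^ b)⁻¹).toMonoidHom
    have hH : ∀ x, x ∈ H ↔ x ∈ U p R ∧ (t1 ^ b)⁻¹ * x * t1 ^ b ∈ Kp p n := by
      intro x
      show x ∈ US p R hR ∧ (MulAut.conj (t1 ^ b)⁻¹) x ∈ Kp p n ↔ _
      rw [MulAut.conj_apply, inv_inv]
      exact Iff.rfl
    have hHm : ∀ x ∈ H, x ∈ Km p n b := fun x hx => AcA_small hRπ ht1 b ((hH x).1 hx).1 ((hH x).1 hx).2
    let L : Subgroup (SLp p n) := US p R hR ⊓ Kp p n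
    have hL : ∀ x, x ∈ L ↔ x ∈ U p R ∧ x ∈ Kp p n := fun x => Iff.rfl
    obtain ⟨S, hS, hS1⟩ := coset_reps (L := L) (H := H) (fun x hx => ((hL x).1 hx).2)
      (fun x hx => (hL x).2 ⟨((hH x).1 hx).1, km_le_kp (hHm x hx)⟩) (m := b * (2 * n))
      (fun x hx hxK => (hH x).2 ⟨((hL x).1 hx).1, AcA_mem hRπ ht1 b ((hL x).1 hx).1 hxK⟩)
    have hSU : ∀ s ∈ S, s ∈ U p R := fun s hs => ((hL s).1 (hS s hs)).1
    have hSK : ∀ s ∈ S, s ∈ Kp p n := fun s hs => ((hL s).1 (hS s hs)).2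
    refine ⟨fun x => ∑ s ∈ S, φ s * F ((t1 ^ b)⁻¹ * (x * s⁻¹) * t1 ^ b), ?_, ?_⟩
    · refine AcA_sumY hY hFY S (fun s x => φ s * F ((t1 ^ b)⁻¹ * (x * s⁻¹) * t1 ^ b)) fun s hs => ?_
      exact hY.smul (φ s) _ (hY.trans s⁻¹ (U_inv hR (hSU s hs)) ((Kp p n).inv_mem (hSK s hs)) _
        (AcA_contr hcontr hFY b))
    · intro x hx
      have hxs : ∀ s ∈ S, x * s⁻¹ ∈ U p R := fun s hs => U_mul hR hx (U_inv hR (hSU s hs))
      have e1 : ‖∑ s ∈ S, φ s * F ((t1 ^ b)⁻¹ * (x * s⁻¹) * t1 ^ b) -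
          ∑ s ∈ S, φ s * indK p n C ((t1 ^ b)⁻¹ * (x * s⁻¹) * t1 ^ b)‖ ≤ κ * B := by
        rw [← Finset.sum_sub_distrib]
        refine AcA_sum _ _ hκB fun s hs => ?_
        rw [← mul_sub, norm_mul, mul_comm κ B]
        exact mul_le_mul (hB s (hSU s hs)) (hF _ (U_conj (dg_pow ht1 b) (hxs s hs)).2) (norm_nonneg _) hB0
      have e2 : ‖φ x - ∑ s ∈ S, φ s * indK p n C ((t1 ^ b)⁻¹ * (x * s⁻¹) * t1 ^ b)‖ ≤ κ * B := by
        by_cases hxK : x ∈ Kp p n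
        · obtain ⟨s, ⟨hs, hsH⟩, huniq⟩ := hS1 x ((hL x).2 ⟨hx, hxK⟩)
          have e3 : ∑ s ∈ S, φ s * indK p n C ((t1 ^ b)⁻¹ * (x * s⁻¹) * t1 ^ b) = φ s := by
            rw [Finset.sum_eq_single s]
            · unfold indK
              rw [if_pos ((hH _).1 hsH).2, mul_one]
            · intro s' hs' hne
              unfold indK
              rw [if_neg, mul_zero]
              intro hK
              exact hne (huniq s' ⟨hs', (hH _).2 ⟨hxs s' hs', hK⟩⟩)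
            · intro h
              exact absurd hs h
          rw [e3]
          have e4 : x = s * (s⁻¹ * (x * s⁻¹) * s) := by group
          have e5 := hb s (hSK s hs) (s⁻¹ * (x * s⁻¹) * s) (km_conj (hSK s hs) (hHm _ hsH)).2
          rw [← e4] at e5
          exact e5
        · have e3 : ∑ s ∈ S, φ s * indK p n C ((t1 ^ b)⁻¹ * (x * s⁻¹) * t1 ^ b) = 0 := by
            refine Finset.sum_eq_zero fun s hs => ?_
            unfold indK
            rw [if_neg, mul_zero]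
            intro hK
            have h4 := (Kp p n).mul_mem (km_le_kp (hHm _ ((hH _).2 ⟨hxs s hs, hK⟩))) (hSK s hs)
            rw [inv_mul_cancel_right] at h4
            exact hxK h4
          rw [e3, sub_zero]
          exact hB' x hx hxK
      have e6 : φ x - ∑ s ∈ S, φ s * F ((t1 ^ b)⁻¹ * (x * s⁻¹) * t1 ^ b) =
          (φ x - ∑ s ∈ S, φ s * indK p n C ((t1 ^ b)⁻¹ * (x * s⁻¹) * t1 ^ b)) +
          -(∑ s ∈ S, φ s * F ((t1 ^ b)⁻¹ * (x * s⁻¹) * t1 ^ b) -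
          ∑ s ∈ S, φ s * indK p n C ((t1 ^ b)⁻¹ * (x * s⁻¹) * t1 ^ b)) := by ring
      show ‖φ x - ∑ s ∈ S, φ s * F ((t1 ^ b)⁻¹ * (x * s⁻¹) * t1 ^ b)‖ ≤ κ * B
      rw [e6]
      refine (IsUltrametricDist.norm_add_le_max _ _).trans (max_le e2 ?_)
      rw [norm_neg]
      exact e1

end

end Pool.Agent.Lib.MP_f399a8_nt.S
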