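import Pool.Agent.Lib.MP_f399a8_ntS.AcA

/-!
# Density: functions supported in `SL_n(ℤ_p)`

PROOF of `ac_K`.  Let `κ` be as in `kappa_exists`, `t1` with `IsDg (ed π) t1` given.  `Γ` is continuous and
vanishes on `U R` outside the compact set `U R ∩ Kp`, so `‖Γ x‖`, `x ∈ U R`, attains its maximum at some
`x₀ ∈ U R ∩ Kp`, with `Γ x₀ ≠ 0`.  Replace `Γ` by `(Γ x₀)⁻¹ * Γ ∈ Y`; now it satisfies `h1, h2, h3` of `ac_core`
(`h3`: `Γ x = 0`).  Claim by induction on `m`: for every `φ` continuous with `‖φ x‖ ≤ B` on `U R` and `φ = 0` on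
`U R` outside `Kp` there is `ψ ∈ Y` with `‖φ x - ψ x‖ ≤ κ ^ m * B` on `U R`.  `m = 0`: `ψ = 0 • Γ`.
Step: `φ - ψ` is continuous and vanishes outside `Kp` (`hcont`, `hsupp`), apply `ac_core` with the bound
`κ ^ m * B`.  Finally take `φ = indK`, `B = 1`, `κ ^ m ≤ ε` (`indK` is continuous because `Kp` is open and
closed; `kp_open`, an open subgroup is closed; or `indK_cont` has the same proof).
-/

namespace Pool.Agent.Lib.MP_f399a8_nt.S

open Matrix Filter Topology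

variable {p : ℕ} [Fact p.Prime] {n : ℕ} {C : Type*} [NormedField C] [NormedAlgebra ℚ_[p] C]
  [IsUltrametricDist C] [FiniteDimensional ℚ_[p] C]

theorem AcB_indK_cont (p n : ℕ) [Fact p.Prime] (C : Type*) [NormedField C] : Continuous (indK p n C) := by
  classical
  have hcl : IsClosed (Kp p n : Set (SLp p n)) := (Kp p n).isClosed_of_isOpen (kp_open p n)
  have hco : IsClopen {x : SLp p n | x ∈ Kp p n} := ⟨hcl, kp_open p n⟩
  have h : Continuous (fun x : SLp p n => if x ∈ Kp p n then (1 : C) else 0) := by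
    refine Continuous.if ?_ continuous_const continuous_const
    intro a ha
    rw [hco.frontier_eq] at ha
    exact absurd ha (Set.notMem_empty a)
  have e : indK p n C = fun x : SLp p n => if x ∈ Kp p n then (1 : C) else 0 := by
    funext x
    unfold indK
    congr
  rw [e]
  exact h

theorem ac_K {R : Fin n → Fin n → Prop} (hR : SO R) {π : Equiv.Perm (Fin n)}
    (hRπ : ∀ i j, R i j → π i < π j) {t1 : SLp p n} (ht1 : IsDg (ed π) t1)
    {Y : Set (SLp p n → C)} (hY : YC R Y)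
    (hcontr : ∀ f ∈ Y, (fun x => f (t1⁻¹ * x * t1)) ∈ Y)
    (hcont : ∀ f ∈ Y, Continuous f) (hsupp : ∀ f ∈ Y, ∀ x ∈ U p R, x ∉ Kp p n → f x = 0)
    {Γ : SLp p n → C} (hΓY : Γ ∈ Y) (hne : ∃ x ∈ U p R, Γ x ≠ 0) {ε : ℝ} (hε : 0 < ε) :
    ∃ ψ ∈ Y, ∀ x ∈ U p R, ‖indK p n C x - ψ x‖ ≤ ε := by
  classical
  obtain ⟨κ, hκ0, hκ1, hκ⟩ := kappa_exists p C
  have hcomp : IsCompact (U p R ∩ (Kp p n : Set (SLp p n))) := (kp_compact p n).inter_left (u_closed R)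
  obtain ⟨y, hyU, hy⟩ := hne
  have hyK : y ∈ Kp p n := by
    by_contra hcon
    exact hy (hsupp Γ hΓY y hyU hcon)
  obtain ⟨x₀, ⟨hx₀U, hx₀K⟩, hmax⟩ := hcomp.exists_isMaxOn ⟨y, hyU, hyK⟩ ((hcont Γ hΓY).norm.continuousOn)
  have hmax' : ∀ x ∈ U p R, ‖Γ x‖ ≤ ‖Γ x₀‖ := by
    intro x hx
    by_cases hxK : x ∈ Kp p n
    · exact hmax ⟨hx, hxK⟩
    · rw [hsupp Γ hΓY x hx hxK, norm_zero]
      exact norm_nonneg _
  have hpos : 0 < ‖Γ x₀‖ := lt_of_lt_of_le (norm_pos_iff.2 hy) (hmax' y hyU)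
  have hΓ'Y : (fun x => (Γ x₀)⁻¹ * Γ x) ∈ Y := hY.smul _ _ hΓY
  have h1 : ∀ x ∈ U p R, ‖(fun x => (Γ x₀)⁻¹ * Γ x) x‖ ≤ 1 := by
    intro x hx
    simp only [norm_mul, norm_inv]
    rw [inv_mul_le_iff₀ hpos, mul_one]
    exact hmax' x hx
  have h2 : ∃ x ∈ U p R, x ∈ Kp p n ∧ ‖(fun x => (Γ x₀)⁻¹ * Γ x) x‖ = 1 := by
    refine ⟨x₀, hx₀U, hx₀K, ?_⟩
    simp only [norm_mul, norm_inv]
    exact inv_mul_cancel₀ hpos.ne'
  have h3 : ∀ x ∈ U p R, x ∉ Kp p n → ‖(fun x => (Γ x₀)⁻¹ * Γ x) x‖ < 1 := by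
    intro x hx hxK
    simp only [hsupp Γ hΓY x hx hxK, mul_zero, norm_zero]
    exact one_pos
  have key : ∀ m : ℕ, ∀ φ : SLp p n → C, Continuous φ → (∀ x ∈ U p R, ‖φ x‖ ≤ 1) →
      (∀ x ∈ U p R, x ∉ Kp p n → φ x = 0) → ∃ ψ ∈ Y, ∀ x ∈ U p R, ‖φ x - ψ x‖ ≤ κ ^ m := by
    intro m
    induction m with
    | zero =>
      intro φ _ hφ1 _
      refine ⟨fun x => 0 * Γ x, hY.smul _ _ hΓY, fun x hx => ?_⟩
      simp only [zero_mul, sub_zero, pow_zero]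
      exact hφ1 x hx
    | succ m ih =>
      intro φ hφ hφ1 hφ0
      obtain ⟨ψ, hψY, hψ⟩ := ih φ hφ hφ1 hφ0
      have hκm : (0 : ℝ) ≤ κ ^ m := pow_nonneg hκ0.le m
      obtain ⟨ψ', hψ'Y, hψ'⟩ := ac_core hR hRπ ht1 hκ0 hκ hY hcontr hΓ'Y (hcont _ hΓ'Y) h1 h2 h3
        (φ := fun x => φ x - ψ x) (hφ.sub (hcont ψ hψY)) hκm hψ (by
          intro x hx hxK
          simp only [hφ0 x hx hxK, hsupp ψ hψY x hx hxK, sub_zero, norm_zero]
          exact mul_nonneg hκ0.le hκm)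
      refine ⟨fun x => ψ x + ψ' x, hY.add _ hψY _ hψ'Y, fun x hx => ?_⟩
      have h4 := hψ' x hx
      rw [pow_succ', ← sub_sub]
      exact h4
  obtain ⟨m, hm⟩ := exists_pow_lt_of_lt_one hε hκ1
  obtain ⟨ψ, hψY, hψ⟩ := key m (indK p n C) (AcB_indK_cont p n C) (by
      intro x _
      unfold indK
      split_ifs
      · rw [norm_one]
      · rw [norm_zero]
        exact zero_le_one) (by
      intro x _ hxK
      unfold indK
      rw [if_neg hxK])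
  exact ⟨ψ, hψY, fun x hx => (hψ x hx).trans hm.le⟩

end Pool.Agent.Lib.MP_f399a8_nt.S
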