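import Pool.Agent.Lib.MP_f399a8_ntS.AcA

/-!
# Density: functions vanishing at infinity

`C0 R f`: for every `ε > 0` the set of `x ∈ U R` with `ε ≤ ‖f x‖` is bounded.

PROOF of `ac_full`.  Let `κ` be as in `kappa_exists`.  Scaling: for `f` and `a : ℕ` let
`(S_a f) x = f ((t1^a)⁻¹ * x * t1^a)` and `(T_a f) x = f (t1^a * x * (t1^a)⁻¹)`; both preserve `Y`, they are inverse
to each other, and they permute the values on `U R` (`U_conj`).  Let `f` be `C0`, `δ > 0`.  There is `a` such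
that `‖(T' f) x‖ < δ` for all `x ∈ U R`, `x ∉ Kp`, where `T' f = S_a`-type scaling which moves the big box into
`Kp`: `{x ∈ U R | δ ≤ ‖f x‖}` is bounded by `A` in the entries; we want: `δ ≤ ‖f ((t1^a)⁻¹ * x * t1^a)‖` implies
`x ∈ Kp`.  With `y = (t1^a)⁻¹ * x * t1^a`, `x i j = p ^ (a * (ed i - ed j)) * y i j` has norm
`≤ p ^ (-a) * A ≤ 1` for `R i j` (`dg_pow_conj'`, `ed_lt`) when `p ^ a ≥ A`.  So `S_a f` has the property.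
Normalize `Γ`: the supremum of `‖Γ‖` on `U R` is attained (`C0`: the set where `‖Γ‖ ≥ ‖Γ u‖/2` on `U R` is contained in
a compact set, `u_closed`, `bdd_compact`) and positive; divide by the value; then apply `S_a` with `δ = 1` such
that `‖Γ x‖ < 1` for `x ∈ U R`, `x ∉ Kp`.  So `Γ' ∈ Y` satisfies `h1 h2 h3` of `ac_core` (the point with `‖Γ' x‖ = 1`
must be in `Kp`).
One step: for `φ` continuous, `C0`, `‖φ x‖ ≤ B` on `U R`, `B > 0`, there is `ψ ∈ Y` with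
`‖φ x - ψ x‖ ≤ κ * B` on `U R`: choose `a` for `φ`, `δ = κ * B`; `φ' = S_a φ` satisfies the hypotheses of `ac_core`,
so there is `ψ' ∈ Y` with `‖φ' - ψ'‖ ≤ κ * B`, and `ψ = T_a ψ'`.  Iterate (`φ - ψ` is again continuous and `C0`):
`‖φ - ψ_m‖ ≤ κ ^ m * B ≤ ε`.
-/

namespace Pool.Agent.Lib.MP_f399a8_nt.S

open Matrix Filter Topology

variable {p : ℕ} [Fact p.Prime] {n : ℕ} {C : Type*} [NormedField C] [NormedAlgebra ℚ_[p] C]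
  [IsUltrametricDist C] [FiniteDimensional ℚ_[p] C]

/-- vanishing at infinity on `U R` -/
def C0 (R : Fin n → Fin n → Prop) (f : SLp p n → C) : Prop :=
  ∀ ε : ℝ, 0 < ε → ∃ A : ℝ, ∀ x ∈ U p R, ε ≤ ‖f x‖ → ∀ i j, ‖x.1 i j‖ ≤ A

theorem AcC_sub {R : Fin n → Fin n → Prop} {f g : SLp p n → C} (hf : C0 R f) (hg : C0 R g) :
    C0 R (fun x => f x - g x) := by
  intro ε hε
  obtain ⟨A, hA⟩ := hf ε hε
  obtain ⟨A', hA'⟩ := hg ε hε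
  refine ⟨max A A', fun x hx h i j => ?_⟩
  have h1 : ‖f x - g x‖ ≤ max ‖f x‖ ‖g x‖ := by
    have h2 := IsUltrametricDist.norm_add_le_max (f x) (-(g x))
    rwa [norm_neg, ← sub_eq_add_neg] at h2
  rcases le_max_iff.1 (h.trans h1) with h2 | h2
  · exact (hA x hx h2 i j).trans (le_max_left _ _)
  · exact (hA' x hx h2 i j).trans (le_max_right _ _)

/-- after a contraction the large values are in the unit box -/
theorem AcC_box {R : Fin n → Fin n → Prop} {π : Equiv.Perm (Fin n)}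
    (hRπ : ∀ i j, R i j → π i < π j) {t1 : SLp p n} (ht1 : IsDg (ed π) t1) {f : SLp p n → C} (hf : C0 R f)
    {δ : ℝ} (hδ : 0 < δ) :
    ∃ a : ℕ, ∀ x ∈ U p R, x ∉ Kp p n → ‖f ((t1 ^ a)⁻¹ * x * t1 ^ a)‖ < δ := by
  obtain ⟨A, hA⟩ := hf δ hδ
  have hp1 : (1 : ℝ) < (p : ℝ) := by exact_mod_cast (Fact.out : p.Prime).one_lt
  have hp0 : (0 : ℝ) < (p : ℝ) := by linarith
  obtain ⟨a, ha⟩ := pow_unbounded_of_one_lt A hp1
  refine ⟨a, fun x hx hxK => ?_⟩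
  by_contra hcon
  push Not at hcon
  apply hxK
  have hy : (t1 ^ a)⁻¹ * x * t1 ^ a ∈ U p R := (U_conj (dg_pow ht1 a) hx).2
  rw [mem_Kp]
  intro i j
  by_cases hij : R i j
  · have h1 := hA _ hy hcon i j
    rw [dg_pow_conj' ht1 a x i j, norm_mul, norm_zpow, Padic.norm_p] at h1
    have h2 : ed π j < ed π i := ed_lt (hRπ i j hij)
    have h3 : (p : ℝ) ^ a ≤ ((p : ℝ)⁻¹) ^ ((a : ℤ) * (ed π j - ed π i)) := by
      rw [_root_.inv_zpow, ← _root_.zpow_neg, ← _root_.zpow_natCast]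
      refine zpow_le_zpow_right₀ hp1.le ?_
      have h4 : (a : ℤ) * 1 ≤ (a : ℤ) * (ed π i - ed π j) :=
        mul_le_mul_of_nonneg_left (by omega) (Int.natCast_nonneg _)
      have h5 : -((a : ℤ) * (ed π j - ed π i)) = (a : ℤ) * (ed π i - ed π j) := by ring
      rw [h5]
      linarith
    have h4 : (p : ℝ) ^ a * ‖x.1 i j‖ ≤ (p : ℝ) ^ a * 1 := by
      calc (p : ℝ) ^ a * ‖x.1 i j‖ ≤ ((p : ℝ)⁻¹) ^ ((a : ℤ) * (ed π j - ed π i)) * ‖x.1 i j‖ :=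
            mul_le_mul_of_nonneg_right h3 (norm_nonneg _)
        _ ≤ A := h1
        _ ≤ (p : ℝ) ^ a * 1 := by rw [mul_one]; exact ha.le
    exact le_of_mul_le_mul_left h4 (pow_pos hp0 a)
  · rw [mem_U.1 hx i j hij]
    exact one_norm_le i j

/-- the maximum of the norm is attained -/
theorem AcC_max {R : Fin n → Fin n → Prop} {f : SLp p n → C} (hf : Continuous f) (hf0 : C0 R f) {u : SLp p n}
    (hu : u ∈ U p R) (hfu : f u ≠ 0) : ∃ x₀ ∈ U p R, ∀ x ∈ U p R, ‖f x‖ ≤ ‖f x₀‖ := by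
  obtain ⟨A, hA⟩ := hf0 ‖f u‖ (norm_pos_iff.2 hfu)
  have hcomp : IsCompact (U p R ∩ {x : SLp p n | ∀ i j, ‖x.1 i j‖ ≤ A}) := (bdd_compact p n A).inter_left (u_closed R)
  obtain ⟨x₀, ⟨hx₀U, _⟩, hmax⟩ := hcomp.exists_isMaxOn ⟨u, hu, hA u hu le_rfl⟩ hf.norm.continuousOn
  refine ⟨x₀, hx₀U, fun x hx => ?_⟩
  by_cases h : ‖f u‖ ≤ ‖f x‖
  · exact hmax ⟨hx, hA x hx h⟩
  · push Not at h
    exact h.le.trans (hmax ⟨hu, hA u hu le_rfl⟩)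

theorem ac_full {R : Fin n → Fin n → Prop} (hR : SO R) {π : Equiv.Perm (Fin n)}
    (hRπ : ∀ i j, R i j → π i < π j) {t1 : SLp p n} (ht1 : IsDg (ed π) t1)
    {Y : Set (SLp p n → C)} (hY : YC R Y)
    (hcontr : ∀ f ∈ Y, (fun x => f (t1⁻¹ * x * t1)) ∈ Y)
    (hexp : ∀ f ∈ Y, (fun x => f (t1 * x * t1⁻¹)) ∈ Y)
    (hcont : ∀ f ∈ Y, Continuous f) (hC0 : ∀ f ∈ Y, C0 R f)
    {Γ : SLp p n → C} (hΓY : Γ ∈ Y) (hne : ∃ x ∈ U p R, Γ x ≠ 0)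
    {φ : SLp p n → C} (hφ : Continuous φ) (hφ0 : C0 R φ) {ε : ℝ} (hε : 0 < ε) :
    ∃ ψ ∈ Y, ∀ x ∈ U p R, ‖φ x - ψ x‖ ≤ ε := by
  classical
  obtain ⟨κ, hκ0, hκ1, hκ⟩ := kappa_exists p C
  have hSY : ∀ a : ℕ, ∀ f ∈ Y, (fun x => f ((t1 ^ a)⁻¹ * x * t1 ^ a)) ∈ Y := by
    intro a
    induction a with
    | zero =>
      intro f hf
      simpa using hf
    | succ a ih =>
      intro f hf
      have h := hcontr _ (ih f hf)
      have e : (fun x => f ((t1 ^ (a + 1))⁻¹ * x * t1 ^ (a + 1))) =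
          fun x => (fun x => f ((t1 ^ a)⁻¹ * x * t1 ^ a)) (t1⁻¹ * x * t1) := by
        funext x
        simp only
        congr 1
        rw [pow_succ']
        group
      rw [e]
      exact h
  have hTY : ∀ a : ℕ, ∀ f ∈ Y, (fun x => f (t1 ^ a * x * (t1 ^ a)⁻¹)) ∈ Y := by
    intro a
    induction a with
    | zero =>
      intro f hf
      simpa using hf
    | succ a ih =>
      intro f hf
      have h := hexp _ (ih f hf)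
      have e : (fun x => f (t1 ^ (a + 1) * x * (t1 ^ (a + 1))⁻¹)) =
          fun x => (fun x => f (t1 ^ a * x * (t1 ^ a)⁻¹)) (t1 * x * t1⁻¹) := by
        funext x
        simp only
        congr 1
        rw [pow_succ]
        group
      rw [e]
      exact h
  have hScont : ∀ (a : ℕ) (f : SLp p n → C), Continuous f → Continuous (fun x => f ((t1 ^ a)⁻¹ * x * t1 ^ a)) := by
    intro a f hf
    exact hf.comp ((continuous_const.mul continuous_id).mul continuous_const)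
  have hinv : ∀ (a : ℕ) (x : SLp p n), (t1 ^ a)⁻¹ * (t1 ^ a * x * (t1 ^ a)⁻¹) * t1 ^ a = x := by
    intro a x
    group
  have hUS : ∀ (a : ℕ) (x : SLp p n), x ∈ U p R → (t1 ^ a)⁻¹ * x * t1 ^ a ∈ U p R := fun a x hx =>
    (U_conj (dg_pow ht1 a) hx).2
  have hUT : ∀ (a : ℕ) (x : SLp p n), x ∈ U p R → t1 ^ a * x * (t1 ^ a)⁻¹ ∈ U p R := fun a x hx =>
    (U_conj (dg_pow ht1 a) hx).1
  -- normalization
  obtain ⟨u, hu, hΓu⟩ := hne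
  obtain ⟨x₀, hx₀, hmax⟩ := AcC_max (hcont Γ hΓY) (hC0 Γ hΓY) hu hΓu
  have hpos : 0 < ‖Γ x₀‖ := lt_of_lt_of_le (norm_pos_iff.2 hΓu) (hmax u hu)
  have hΓ1Y : (fun x => (Γ x₀)⁻¹ * Γ x) ∈ Y := hY.smul _ _ hΓY
  have hΓ1 : ∀ x ∈ U p R, ‖(Γ x₀)⁻¹ * Γ x‖ ≤ 1 := by
    intro x hx
    rw [norm_mul, norm_inv, inv_mul_le_iff₀ hpos, mul_one]
    exact hmax x hx
  have hΓ1x₀ : ‖(Γ x₀)⁻¹ * Γ x₀‖ = 1 := by
    rw [norm_mul, norm_inv]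
    exact inv_mul_cancel₀ hpos.ne'
  obtain ⟨a₀, ha₀⟩ := AcC_box hRπ ht1 (hC0 _ hΓ1Y) one_pos
  have hΓ'Y := hSY a₀ _ hΓ1Y
  have h1 : ∀ x ∈ U p R, ‖(fun x => (fun x => (Γ x₀)⁻¹ * Γ x) ((t1 ^ a₀)⁻¹ * x * t1 ^ a₀)) x‖ ≤ 1 := fun x hx =>
    hΓ1 _ (hUS a₀ x hx)
  have h3 : ∀ x ∈ U p R, x ∉ Kp p n →
      ‖(fun x => (fun x => (Γ x₀)⁻¹ * Γ x) ((t1 ^ a₀)⁻¹ * x * t1 ^ a₀)) x‖ < 1 := fun x hx hxK => ha₀ x hx hxK
  have h2 : ∃ x ∈ U p R, x ∈ Kp p n ∧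
      ‖(fun x => (fun x => (Γ x₀)⁻¹ * Γ x) ((t1 ^ a₀)⁻¹ * x * t1 ^ a₀)) x‖ = 1 := by
    have e : ‖(fun x => (fun x => (Γ x₀)⁻¹ * Γ x) ((t1 ^ a₀)⁻¹ * x * t1 ^ a₀)) (t1 ^ a₀ * x₀ * (t1 ^ a₀)⁻¹)‖ = 1 := by
      simp only
      rw [hinv]
      exact hΓ1x₀
    refine ⟨t1 ^ a₀ * x₀ * (t1 ^ a₀)⁻¹, hUT a₀ x₀ hx₀, ?_, e⟩
    by_contra hcon
    have h4 := h3 _ (hUT a₀ x₀ hx₀) hcon
    rw [e] at h4
    exact lt_irrefl _ h4
  -- one step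
  have step : ∀ (φ : SLp p n → C), Continuous φ → C0 R φ → ∀ B : ℝ, 0 < B → (∀ x ∈ U p R, ‖φ x‖ ≤ B) →
      ∃ ψ ∈ Y, ∀ x ∈ U p R, ‖φ x - ψ x‖ ≤ κ * B := by
    intro φ hφ hφ0 B hB hφB
    obtain ⟨a, ha⟩ := AcC_box hRπ ht1 hφ0 (mul_pos hκ0 hB)
    obtain ⟨ψ', hψ'Y, hψ'⟩ := ac_core hR hRπ ht1 hκ0 hκ hY hcontr hΓ'Y (hcont _ hΓ'Y) h1 h2 h3
      (φ := fun x => φ ((t1 ^ a)⁻¹ * x * t1 ^ a)) (hScont a φ hφ) hB.le (fun x hx => hφB _ (hUS a x hx))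
      (fun x hx hxK => (ha x hx hxK).le)
    refine ⟨fun x => ψ' (t1 ^ a * x * (t1 ^ a)⁻¹), hTY a ψ' hψ'Y, fun x hx => ?_⟩
    have h4 := hψ' _ (hUT a x hx)
    simp only [hinv] at h4
    exact h4
  -- a bound for φ
  obtain ⟨B, hB, hφB⟩ : ∃ B : ℝ, 0 < B ∧ ∀ x ∈ U p R, ‖φ x‖ ≤ B := by
    by_cases hz : ∃ w ∈ U p R, φ w ≠ 0
    · obtain ⟨w, hw, hφw⟩ := hz
      obtain ⟨x₁, hx₁, hm⟩ := AcC_max hφ hφ0 hw hφw
      exact ⟨‖φ x₁‖, lt_of_lt_of_le (norm_pos_iff.2 hφw) (hm w hw), hm⟩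
    · push Not at hz
      refine ⟨1, one_pos, fun x hx => ?_⟩
      rw [hz x hx, norm_zero]
      exact zero_le_one
  have key : ∀ m : ℕ, ∃ ψ ∈ Y, ∀ x ∈ U p R, ‖φ x - ψ x‖ ≤ κ ^ m * B := by
    intro m
    induction m with
    | zero =>
      refine ⟨fun x => 0 * Γ x, hY.smul _ _ hΓY, fun x hx => ?_⟩
      simp only [zero_mul, sub_zero, pow_zero, one_mul]
      exact hφB x hx
    | succ m ih =>
      obtain ⟨ψ, hψY, hψ⟩ := ih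
      obtain ⟨ψ', hψ'Y, hψ'⟩ := step (fun x => φ x - ψ x) (hφ.sub (hcont ψ hψY)) (AcC_sub hφ0 (hC0 ψ hψY))
        (κ ^ m * B) (mul_pos (pow_pos hκ0 m) hB) hψ
      refine ⟨fun x => ψ x + ψ' x, hY.add _ hψY _ hψ'Y, fun x hx => ?_⟩
      have h4 := hψ' x hx
      rw [pow_succ', mul_assoc, ← sub_sub]
      exact h4
  obtain ⟨m, hm⟩ := exists_pow_lt_of_lt_one (div_pos hε hB) hκ1
  obtain ⟨ψ, hψY, hψ⟩ := key m
  refine ⟨ψ, hψY, fun x hx => (hψ x hx).trans ?_⟩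
  rw [lt_div_iff₀ hB] at hm
  exact hm.le

end Pool.Agent.Lib.MP_f399a8_nt.S
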