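import Pool.Agent.Lib.MP_f399a8_nt.RepDef

/-!
# Subgroups of `SL_n(ℚ_p)`: definitions
-/

namespace Pool.Agent.Lib.MP_f399a8_nt.S

open Matrix Filter Topology

noncomputable section

variable {p : ℕ} [Fact p.Prime] {n : ℕ}

theorem sum_norm_le {ι : Type*} (s : Finset ι) (f : ι → ℚ_[p]) {c : ℝ} (hc : 0 ≤ c)
    (h : ∀ i ∈ s, ‖f i‖ ≤ c) : ‖∑ i ∈ s, f i‖ ≤ c := by
  classical
  induction s using Finset.induction_on with
  | empty => simpa using hc
  | insert a s ha ih =>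
    rw [Finset.sum_insert ha]
    refine (IsUltrametricDist.norm_add_le_max _ _).trans (max_le (h _ (Finset.mem_insert_self _ _))
      (ih fun i hi => h i (Finset.mem_insert_of_mem hi)))

theorem mulmat_norm_le (A B : Matrix (Fin n) (Fin n) ℚ_[p]) {a b : ℝ} (ha : 0 ≤ a) (hb : 0 ≤ b)
    (hA : ∀ i j, ‖A i j‖ ≤ a) (hB : ∀ i j, ‖B i j‖ ≤ b) (i j : Fin n) :
    ‖(A * B) i j‖ ≤ a * b := by
  rw [Matrix.mul_apply]
  refine sum_norm_le _ _ (mul_nonneg ha hb) fun k _ => ?_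
  rw [norm_mul]
  exact mul_le_mul (hA _ _) (hB _ _) (norm_nonneg _) ha

theorem det_norm_le (A : Matrix (Fin n) (Fin n) ℚ_[p]) (h : ∀ i j, ‖A i j‖ ≤ 1) :
    ‖A.det‖ ≤ 1 := by
  rw [Matrix.det_apply]
  refine sum_norm_le _ _ zero_le_one fun σ _ => ?_
  have h1 : ‖∏ i, A (σ i) i‖ ≤ 1 := by
    rw [norm_prod]
    exact Finset.prod_le_one (fun i _ => norm_nonneg _) fun i _ => h _ _
  rcases Int.units_eq_one_or (Equiv.Perm.sign σ) with h2 | h2
  · simpa [h2] using h1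
  · simpa [h2] using h1

theorem adj_norm_le (A : Matrix (Fin n) (Fin n) ℚ_[p]) (h : ∀ i j, ‖A i j‖ ≤ 1) (i j : Fin n) :
    ‖A.adjugate i j‖ ≤ 1 := by
  rw [Matrix.adjugate_apply]
  refine det_norm_le _ fun k l => ?_
  rcases eq_or_ne k j with rfl | hk
  · rw [Matrix.updateRow_self]
    rcases eq_or_ne l i with rfl | hl
    · simp
    · simp [hl]
  · rw [Matrix.updateRow_ne hk]
    exact h _ _

theorem one_norm_le (i j : Fin n) : ‖(1 : Matrix (Fin n) (Fin n) ℚ_[p]) i j‖ ≤ 1 := by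
  rcases eq_or_ne i j with rfl | h
  · simp
  · simp [Matrix.one_apply_ne h]

/-- `SL_n(ℤ_p)` -/
def Kp (p n : ℕ) [Fact p.Prime] : Subgroup (SLp p n) where
  carrier := {x | ∀ i j, ‖x.1 i j‖ ≤ 1}
  mul_mem' := by
    intro a b ha hb i j
    have h := mulmat_norm_le a.1 b.1 zero_le_one zero_le_one ha hb i j
    rw [mul_one] at h
    exact h
  one_mem' := fun i j => one_norm_le i j
  inv_mem' := by
    intro a ha i j
    rw [Matrix.SpecialLinearGroup.coe_inv]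
    exact adj_norm_le a.1 ha i j

/-- the principal congruence subgroup of level `p ^ m` -/
def Km (p n : ℕ) [Fact p.Prime] (m : ℕ) : Subgroup (SLp p n) where
  carrier := {x | ∀ i j, ‖x.1 i j - (1 : Matrix (Fin n) (Fin n) ℚ_[p]) i j‖ ≤
    (p : ℝ) ^ (-(m : ℤ))}
  mul_mem' := by
    intro a b ha hb i j
    have hp : (0 : ℝ) ≤ (p : ℝ) ^ (-(m : ℤ)) := by positivity
    have hp1 : (p : ℝ) ^ (-(m : ℤ)) ≤ 1 := by
      refine zpow_le_one_of_nonpos₀ ?_ (by simp)
      exact_mod_cast (Fact.out : p.Prime).one_lt.le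
    have hb1 : ∀ i j, ‖b.1 i j‖ ≤ 1 := by
      intro i j
      have h := IsUltrametricDist.norm_add_le_max (b.1 i j - (1 : Matrix (Fin n) (Fin n) ℚ_[p]) i j)
        ((1 : Matrix (Fin n) (Fin n) ℚ_[p]) i j)
      rw [sub_add_cancel] at h
      exact h.trans (max_le ((hb i j).trans hp1) (one_norm_le i j))
    have h1 := mulmat_norm_le (a.1 - 1) b.1 hp zero_le_one (fun i j => ha i j) hb1 i j
    have h2 : (a * b).1 i j - (1 : Matrix (Fin n) (Fin n) ℚ_[p]) i j =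
        ((a.1 - 1) * b.1) i j + (b.1 i j - (1 : Matrix (Fin n) (Fin n) ℚ_[p]) i j) := by
      rw [sub_mul, one_mul, Matrix.sub_apply]
      show (a.1 * b.1) i j - _ = _
      ring
    show ‖(a * b).1 i j - (1 : Matrix (Fin n) (Fin n) ℚ_[p]) i j‖ ≤ _
    rw [h2]
    refine (IsUltrametricDist.norm_add_le_max _ _).trans (max_le ?_ (hb i j))
    rwa [mul_one] at h1
  one_mem' := by
    intro i j
    rw [Matrix.SpecialLinearGroup.coe_one, sub_self, norm_zero]
    positivity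
  inv_mem' := by
    intro a ha i j
    have hp : (0 : ℝ) ≤ (p : ℝ) ^ (-(m : ℤ)) := by positivity
    have hp1 : (p : ℝ) ^ (-(m : ℤ)) ≤ 1 := by
      refine zpow_le_one_of_nonpos₀ ?_ (by simp)
      exact_mod_cast (Fact.out : p.Prime).one_lt.le
    have ha1 : ∀ i j, ‖a.1 i j‖ ≤ 1 := by
      intro i j
      have h := IsUltrametricDist.norm_add_le_max (a.1 i j - (1 : Matrix (Fin n) (Fin n) ℚ_[p]) i j)
        ((1 : Matrix (Fin n) (Fin n) ℚ_[p]) i j)
      rw [sub_add_cancel] at h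
      exact h.trans (max_le ((ha i j).trans hp1) (one_norm_le i j))
    have ha2 : ∀ i j, ‖(a⁻¹).1 i j‖ ≤ 1 := by
      intro i j
      rw [Matrix.SpecialLinearGroup.coe_inv]
      exact adj_norm_le a.1 ha1 i j
    have h1 := mulmat_norm_le (a⁻¹).1 (a.1 - 1) zero_le_one hp ha2 (fun i j => ha i j) i j
    have h3 : (a⁻¹).1 * a.1 = 1 := by
      rw [← Matrix.SpecialLinearGroup.coe_mul, inv_mul_cancel, Matrix.SpecialLinearGroup.coe_one]
    have h2 : (a⁻¹).1 i j - (1 : Matrix (Fin n) (Fin n) ℚ_[p]) i j =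
        - (((a⁻¹).1 * (a.1 - 1)) i j) := by
      rw [mul_sub, h3, mul_one, Matrix.sub_apply]
      ring
    rw [h2, norm_neg]
    rwa [one_mul] at h1

/-- block triangular matrices for `b` -/
def Bt (p : ℕ) [Fact p.Prime] {α : Type*} [LinearOrder α] (b : Fin n → α) : Subgroup (SLp p n) where
  carrier := {x | ∀ i j, b j < b i → x.1 i j = 0}
  mul_mem' := by
    intro x y hx hy i j hij
    show (x.1 * y.1) i j = 0
    rw [Matrix.mul_apply]
    refine Finset.sum_eq_zero fun k _ => ?_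
    rcases lt_or_ge (b k) (b i) with h | h
    · rw [hx i k h, zero_mul]
    · rw [hy k j (lt_of_lt_of_le hij h), mul_zero]
  one_mem' := by
    intro i j hij
    refine Matrix.one_apply_ne ?_
    rintro rfl
    exact lt_irrefl _ hij
  inv_mem' := by
    intro a ha
    have h1 : a.1.BlockTriangular b := fun i j hij => ha i j hij
    have h2 : (a.1⁻¹).BlockTriangular b := by
      have : Invertible a.1 := Matrix.invertibleOfIsUnitDet _ (by rw [a.2]; exact isUnit_one)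
      exact Matrix.blockTriangular_inv_of_blockTriangular h1
    intro i j hij
    have h3 : (a⁻¹).1 = a.1⁻¹ := by
      rw [Matrix.SpecialLinearGroup.coe_inv, Matrix.inv_def, a.2]
      simp
    rw [h3]
    exact h2 hij

/-- the upper triangular Borel subgroup -/
def Bp (p n : ℕ) [Fact p.Prime] : Subgroup (SLp p n) := Bt p (id : Fin n → Fin n)

theorem mem_Kp {x : SLp p n} : x ∈ Kp p n ↔ ∀ i j, ‖x.1 i j‖ ≤ 1 := Iff.rfl

theorem mem_Km {m : ℕ} {x : SLp p n} : x ∈ Km p n m ↔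
    ∀ i j, ‖x.1 i j - (1 : Matrix (Fin n) (Fin n) ℚ_[p]) i j‖ ≤ (p : ℝ) ^ (-(m : ℤ)) := Iff.rfl

theorem mem_Bt {α : Type*} [LinearOrder α] {b : Fin n → α} {x : SLp p n} :
    x ∈ Bt p b ↔ ∀ i j, b j < b i → x.1 i j = 0 := Iff.rfl

theorem mem_Bp {x : SLp p n} : x ∈ Bp p n ↔ ∀ i j : Fin n, j < i → x.1 i j = 0 := Iff.rfl

/-- strict partial orders -/
structure SO (R : Fin n → Fin n → Prop) : Prop where
  irr : ∀ i, ¬ R i i
  tr : ∀ i j k, R i j → R j k → R i k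

/-- unipotent matrices with support in `R` -/
def U (p : ℕ) [Fact p.Prime] (R : Fin n → Fin n → Prop) : Set (SLp p n) :=
  {x | ∀ i j, ¬ R i j → x.1 i j = (1 : Matrix (Fin n) (Fin n) ℚ_[p]) i j}

theorem mem_U {R : Fin n → Fin n → Prop} {x : SLp p n} : x ∈ U p R ↔
    ∀ i j, ¬ R i j → x.1 i j = (1 : Matrix (Fin n) (Fin n) ℚ_[p]) i j := Iff.rfl

/-- the order given by the positions `π` -/
def Ord (π : Equiv.Perm (Fin n)) : Fin n → Fin n → Prop := fun i j => π i < π j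

/-- `i` is before `j` for `π` and `j < i` -/
def Dr (π : Equiv.Perm (Fin n)) : Fin n → Fin n → Prop := fun i j => j < i ∧ π i < π j

/-- `j` is before `i` for `π` and `j < i` -/
def Fr (π : Equiv.Perm (Fin n)) : Fin n → Fin n → Prop := fun i j => j < i ∧ π j < π i

/-- `i` is before `j` for `π` and `i < j` -/
def Er (π : Equiv.Perm (Fin n)) : Fin n → Fin n → Prop := fun i j => i < j ∧ π i < π j

/-- lower triangular pairs -/
def Lo : Fin n → Fin n → Prop := fun i j => j < i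

/-- positive pairs -/
def Pos (v : Fin n → ℝ) : Fin n → Fin n → Prop := fun i j => j < i ∧ v j < v i

/-- negative pairs -/
def Neg (v : Fin n → ℝ) : Fin n → Fin n → Prop := fun i j => j < i ∧ v i < v j

/-- ties -/
def Tie (v : Fin n → ℝ) : Fin n → Fin n → Prop := fun i j => j < i ∧ v i = v j

/-- `π` sorts the slopes in increasing order, ties in decreasing order of the index -/
def IsSorted (v : Fin n → ℝ) (π : Equiv.Perm (Fin n)) : Prop :=
  ∀ i j, π i < π j ↔ (v i < v j ∨ (v i = v j ∧ j < i))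

/-- the pairs `j < i` with `j` before `i` are positive -/
def Good (v : Fin n → ℝ) (π : Equiv.Perm (Fin n)) : Prop := ∀ i j, Fr π i j → v j < v i

/-- the diagonal matrix with entries `p ^ e i` -/
def IsDg (e : Fin n → ℤ) (t : SLp p n) : Prop :=
  ∀ i j, t.1 i j = if i = j then (p : ℚ_[p]) ^ (e i) else 0

/-- signed permutation matrices -/
def IsMon (σ : Equiv.Perm (Fin n)) (w : SLp p n) : Prop :=
  ∀ i j, (j = σ i → w.1 i j = 1 ∨ w.1 i j = -1) ∧ (j ≠ σ i → w.1 i j = 0)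

theorem so_ord (π : Equiv.Perm (Fin n)) : SO (Ord π) :=
  ⟨fun _ h => lt_irrefl _ h, fun _ _ _ h1 h2 => lt_trans h1 h2⟩

theorem so_Dr (π : Equiv.Perm (Fin n)) : SO (Dr π) :=
  ⟨fun _ h => lt_irrefl _ h.1, fun _ _ _ h1 h2 => ⟨lt_trans h2.1 h1.1, lt_trans h1.2 h2.2⟩⟩

theorem so_Fr (π : Equiv.Perm (Fin n)) : SO (Fr π) :=
  ⟨fun _ h => lt_irrefl _ h.1, fun _ _ _ h1 h2 => ⟨lt_trans h2.1 h1.1, lt_trans h2.2 h1.2⟩⟩

theorem so_Er (π : Equiv.Perm (Fin n)) : SO (Er π) :=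
  ⟨fun _ h => lt_irrefl _ h.1, fun _ _ _ h1 h2 => ⟨lt_trans h1.1 h2.1, lt_trans h1.2 h2.2⟩⟩

theorem so_Pos (v : Fin n → ℝ) : SO (Pos v) :=
  ⟨fun _ h => lt_irrefl _ h.1, fun _ _ _ h1 h2 => ⟨lt_trans h2.1 h1.1, lt_trans h2.2 h1.2⟩⟩

theorem so_Neg (v : Fin n → ℝ) : SO (Neg v) :=
  ⟨fun _ h => lt_irrefl _ h.1, fun _ _ _ h1 h2 => ⟨lt_trans h2.1 h1.1, lt_trans h1.2 h2.2⟩⟩

theorem so_Tie (v : Fin n → ℝ) : SO (Tie v) :=
  ⟨fun _ h => lt_irrefl _ h.1, fun _ _ _ h1 h2 => ⟨lt_trans h2.1 h1.1, h1.2.trans h2.2⟩⟩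

open Classical in
/-- the indicator function of `SL_n(ℤ_p)` -/
def indK (p n : ℕ) [Fact p.Prime] (C : Type*) [NormedField C] : SLp p n → C :=
  fun x => if x ∈ Kp p n then 1 else 0

theorem so_Lo : SO (Lo : Fin n → Fin n → Prop) :=
  ⟨fun _ h => lt_irrefl _ h, fun _ _ _ h1 h2 => lt_trans h2 h1⟩

end

end Pool.Agent.Lib.MP_f399a8_nt.S
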