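import Pool.Agent.Lib.MP_f399a8_ntS.D1B

/-!
# Bruhat decomposition

PROOF.  Claim, by downward induction on `r : ℕ` from `r = n` to `0`: for every `x : SLp p n` there are
`b ∈ Bp`, `u ∈ U (Ord π)` such that `y = b * x * u` has the property `Q r`: there is a map `s : Fin n → Fin n`,
injective on `{i | r ≤ i}`, such that for all `i ≥ r`: `y i (s i) ≠ 0`, `y i j = 0` for all `j ≠ s i` and
`y k (s i) = 0` for all `k ≠ i`.  (`r = n`: empty condition.)  Step `r + 1 → r`: row `r` of `y`: its entries in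
the columns `s i`, `i > r`, vanish (column condition).  It is not zero (det).  Let `j₀` be the column with
`y r j₀ ≠ 0` and `π j₀` minimal.  Column operations: subtract `(y r j / y r j₀)` times column `j₀` from the
columns `j ≠ j₀` (only `π j > π j₀` occur): right multiplication by `u' = 1 - ∑_{j ≠ j₀} (y r j / y r j₀) E_{j₀ j}`
which is in `U (Ord π)` (support `(j₀, j)`, `π j₀ < π j`; determinant one: it is unipotent triangular in the
order `π`, e.g. `det (1 + col * row) = 1 + row ⬝ col = 1`, `Matrix.det_one_add_replicateCol_mul_replicateRow` or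
use products of transvections).  Rows `i > r` have `y i j₀ = 0` (since `j₀ ≠ s i`: `y r (s i) = 0`), so they
do not change; the columns `s i`, `i > r` have `y r (s i) = 0`, so they do not change.  Now row `r` is
supported in the column `j₀`.  Row operations: add multiples of row `r` to the rows `k < r` to clear column
`j₀` (left multiplication by `1 - ∑_{k < r} (y k j₀ / y r j₀) E_{k r} ∈ Bp`); rows `k > r` have zero in the column
`j₀` already.  Other columns do not change since row `r` is zero there.  Put `s r = j₀`.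
At `r = 0`: `y` is monomial: `y i j = 0` for `j ≠ s i`, `s` injective so a permutation `σ`.  Then
`y = t * w` with `w` monomial with entries `± 1` (`mon_exists`) and `t = y * w⁻¹`, which is diagonal
(`mon_inv`: `(y * w⁻¹) i j = y i (σ i) * w⁻¹ (σ i) j`, zero unless `j = i`), so `t ∈ Bp`.
`x = b⁻¹ * t * w * u⁻¹`.
-/

namespace Pool.Agent.Lib.MP_f399a8_nt.S

open Matrix Filter Topology

variable {p : ℕ} [Fact p.Prime] {n : ℕ}

/-- the property of the induction -/
private def BruA_Q (r : ℕ) (y : SLp p n) : Prop :=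
  ∃ s : Fin n → Fin n, ∀ i : Fin n, r ≤ i.val → y.1 i (s i) ≠ 0 ∧
    (∀ j, j ≠ s i → y.1 i j = 0) ∧ (∀ k, k ≠ i → y.1 k (s i) = 0)

private theorem BruA_det (a : Fin n) (c : Fin n → ℚ_[p]) (hc : c a = 0) :
    (Matrix.of fun i j : Fin n =>
      (1 : Matrix (Fin n) (Fin n) ℚ_[p]) i j - (if i = a then c j else 0)).det = 1 := by
  have h1 : (Matrix.of fun i j : Fin n =>
      (1 : Matrix (Fin n) (Fin n) ℚ_[p]) i j - (if i = a then c j else 0)) =
      1 + Matrix.replicateCol Unit (Pi.single a (1 : ℚ_[p])) *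
        Matrix.replicateRow Unit (fun j => - c j) := by
    ext i j
    rw [Matrix.of_apply, Matrix.add_apply, Matrix.mul_apply, Finset.univ_unique,
      Finset.sum_singleton, Matrix.replicateCol_apply, Matrix.replicateRow_apply, Pi.single_apply]
    by_cases h : i = a
    · simp only [h, if_true]; ring
    · simp only [h, if_false]; ring
  rw [h1, Matrix.det_one_add_replicateCol_mul_replicateRow, dotProduct_single]
  simp [hc]

private theorem BruA_det' (a : Fin n) (d : Fin n → ℚ_[p]) (hd : d a = 0) :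
    (Matrix.of fun i j : Fin n =>
      (1 : Matrix (Fin n) (Fin n) ℚ_[p]) i j - (if j = a then d i else 0)).det = 1 := by
  have h1 : (Matrix.of fun i j : Fin n =>
      (1 : Matrix (Fin n) (Fin n) ℚ_[p]) i j - (if j = a then d i else 0)) =
      (Matrix.of fun i j : Fin n =>
      (1 : Matrix (Fin n) (Fin n) ℚ_[p]) i j - (if i = a then d j else 0))ᵀ := by
    ext i j
    rw [Matrix.transpose_apply, Matrix.of_apply, Matrix.of_apply, Matrix.one_apply,
      Matrix.one_apply]
    simp only [eq_comm]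
  rw [h1, Matrix.det_transpose, BruA_det a d hd]

private theorem BruA_mulR (y : Matrix (Fin n) (Fin n) ℚ_[p]) (a : Fin n) (c : Fin n → ℚ_[p])
    (i j : Fin n) : (y * (Matrix.of fun i j : Fin n =>
      (1 : Matrix (Fin n) (Fin n) ℚ_[p]) i j - (if i = a then c j else 0))) i j =
      y i j - y i a * c j := by
  rw [Matrix.mul_apply]
  simp only [Matrix.of_apply, mul_sub, Finset.sum_sub_distrib]
  rw [← Matrix.mul_apply, mul_one]
  simp

private theorem BruA_mulL (y : Matrix (Fin n) (Fin n) ℚ_[p]) (a : Fin n) (d : Fin n → ℚ_[p])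
    (i j : Fin n) : ((Matrix.of fun i j : Fin n =>
      (1 : Matrix (Fin n) (Fin n) ℚ_[p]) i j - (if j = a then d i else 0)) * y) i j =
      y i j - d i * y a j := by
  rw [Matrix.mul_apply]
  simp only [Matrix.of_apply, sub_mul, Finset.sum_sub_distrib]
  rw [← Matrix.mul_apply, one_mul]
  simp

private theorem BruA_step (π : Equiv.Perm (Fin n)) {r : ℕ} (hr : r < n) {y : SLp p n}
    (hy : BruA_Q (r + 1) y) : ∃ b ∈ Bp p n, ∃ u ∈ U p (Ord π), BruA_Q r (b * y * u) := by
  classical
  obtain ⟨s, hs⟩ := hy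
  obtain ⟨R, hR⟩ : ∃ R : Fin n, R.val = r := ⟨⟨r, hr⟩, rfl⟩
  have hex : ∃ j, y.1 R j ≠ 0 := by
    by_contra hcon
    push Not at hcon
    have h1 := Matrix.det_eq_zero_of_row_eq_zero (A := y.1) R hcon
    rw [y.2] at h1
    exact one_ne_zero h1
  obtain ⟨j₀, hj₀, hmin⟩ := Finset.exists_min_image (Finset.univ.filter fun j => y.1 R j ≠ 0) π
    (by
      obtain ⟨j, hj⟩ := hex
      exact ⟨j, Finset.mem_filter.2 ⟨Finset.mem_univ _, hj⟩⟩)
  have hj₀' : y.1 R j₀ ≠ 0 := (Finset.mem_filter.1 hj₀).2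
  have hmin' : ∀ j, y.1 R j ≠ 0 → π j₀ ≤ π j := fun j hj =>
    hmin j (Finset.mem_filter.2 ⟨Finset.mem_univ _, hj⟩)
  -- the column operation
  obtain ⟨c, hc⟩ : ∃ c : Fin n → ℚ_[p], c = fun j => if j = j₀ then 0 else y.1 R j / y.1 R j₀ :=
    ⟨_, rfl⟩
  have hc0 : c j₀ = 0 := by rw [hc]; simp
  have hcne : ∀ j, j ≠ j₀ → c j = y.1 R j / y.1 R j₀ := by
    intro j hj
    rw [hc]
    simp [hj]
  obtain ⟨u, hu⟩ : ∃ u : SLp p n, u.1 = Matrix.of fun i j : Fin n =>
      (1 : Matrix (Fin n) (Fin n) ℚ_[p]) i j - (if i = j₀ then c j else 0) :=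
    ⟨⟨_, BruA_det j₀ c hc0⟩, rfl⟩
  have huU : u ∈ U p (Ord π) := by
    intro i j hij
    rw [hu, Matrix.of_apply]
    by_cases h : i = j₀
    · have h1 : c j = 0 := by
        by_contra h2
        have h3 : j ≠ j₀ := by
          rintro rfl
          exact h2 hc0
        rw [hcne j h3] at h2
        have h4 : y.1 R j ≠ 0 := by
          intro h5
          apply h2
          rw [h5, zero_div]
        apply hij
        show π i < π j
        rw [h]
        exact lt_of_le_of_ne (hmin' j h4) fun h6 => h3 (π.injective h6).symm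
      rw [if_pos h, h1, sub_zero]
    · rw [if_neg h, sub_zero]
  have hyu : ∀ i j, (y * u).1 i j = y.1 i j - y.1 i j₀ * c j := by
    intro i j
    show (y.1 * u.1) i j = _
    rw [hu]
    exact BruA_mulR y.1 j₀ c i j
  have hyR : ∀ j, j ≠ j₀ → (y * u).1 R j = 0 := by
    intro j hj
    rw [hyu, hcne j hj]
    field_simp
    ring
  have hyR0 : (y * u).1 R j₀ = y.1 R j₀ := by
    rw [hyu, hc0, mul_zero, sub_zero]
  have hcol0 : ∀ i, (y * u).1 i j₀ = y.1 i j₀ := by
    intro i
    rw [hyu, hc0, mul_zero, sub_zero]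
  -- the row operation
  obtain ⟨d, hd⟩ : ∃ d : Fin n → ℚ_[p], d = fun k => if k < R then y.1 k j₀ / y.1 R j₀ else 0 :=
    ⟨_, rfl⟩
  have hdR : d R = 0 := by rw [hd]; simp
  have hdge : ∀ k, ¬ k < R → d k = 0 := by
    intro k hk
    rw [hd]
    simp [hk]
  have hdlt : ∀ k, k < R → d k = y.1 k j₀ / y.1 R j₀ := by
    intro k hk
    rw [hd]
    simp [hk]
  obtain ⟨b, hb⟩ : ∃ b : SLp p n, b.1 = Matrix.of fun i j : Fin n =>
      (1 : Matrix (Fin n) (Fin n) ℚ_[p]) i j - (if j = R then d i else 0) :=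
    ⟨⟨_, BruA_det' R d hdR⟩, rfl⟩
  have hbB : b ∈ Bp p n := by
    rw [mem_Bp]
    intro i j hij
    rw [hb, Matrix.of_apply, Matrix.one_apply_ne (ne_of_gt hij), zero_sub, neg_eq_zero]
    by_cases h : j = R
    · rw [if_pos h]
      apply hdge
      rw [h] at hij
      exact not_lt_of_gt hij
    · rw [if_neg h]
  have hz : ∀ i j, (b * y * u).1 i j = (y * u).1 i j - d i * (y * u).1 R j := by
    intro i j
    rw [mul_assoc]
    show (b.1 * (y * u).1) i j = _
    rw [hb]
    exact BruA_mulL (y * u).1 R d i j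
  -- the columns of the lower rows
  have hlow : ∀ i : Fin n, r + 1 ≤ i.val → s i ≠ j₀ := by
    intro i hi h
    have h1 := (hs i hi).2.2 R (by
      rintro rfl
      omega)
    rw [h] at h1
    exact hj₀' h1
  have hlow0 : ∀ i : Fin n, r + 1 ≤ i.val → y.1 i j₀ = 0 := by
    intro i hi
    exact (hs i hi).2.1 j₀ (hlow i hi).symm
  have hsc : ∀ i : Fin n, r + 1 ≤ i.val → c (s i) = 0 := by
    intro i hi
    rw [hcne _ (hlow i hi), (hs i hi).2.2 R (by
      rintro rfl
      omega), zero_div]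
  refine ⟨b, hbB, u, huU, fun i => if i = R then j₀ else s i, ?_⟩
  intro i hi
  by_cases hiR : i = R
  · subst hiR
    simp only [if_true]
    refine ⟨?_, ?_, ?_⟩
    · rw [hz, hdR, zero_mul, sub_zero, hyR0]
      exact hj₀'
    · intro j hj
      rw [hz, hdR, zero_mul, sub_zero, hyR j hj]
    · intro k hk
      rw [hz, hyR0, hcol0]
      by_cases hlt : k < i
      · rw [hdlt k hlt]
        field_simp
        ring
      · rw [hdge k hlt, zero_mul, sub_zero]
        apply hlow0
        have h1 : i < k := lt_of_le_of_ne (not_lt.1 hlt) (Ne.symm hk)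
        have h2 : i.val < k.val := h1
        omega
  · simp only [hiR, if_false]
    have hi1 : r + 1 ≤ i.val := by
      have h1 : i.val ≠ r := by
        intro h2
        apply hiR
        apply Fin.ext
        rw [h2, hR]
      omega
    have hdi : d i = 0 := by
      apply hdge
      intro h1
      have h2 : i.val < R.val := h1
      omega
    have hzi : ∀ j, (b * y * u).1 i j = y.1 i j := by
      intro j
      rw [hz, hdi, zero_mul, sub_zero, hyu, hlow0 i hi1, zero_mul, sub_zero]
    refine ⟨?_, ?_, ?_⟩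
    · rw [hzi]
      exact (hs i hi1).1
    · intro j hj
      rw [hzi]
      exact (hs i hi1).2.1 j hj
    · intro k hk
      rw [hz, hyR _ (hlow i hi1), mul_zero, sub_zero, hyu, hsc i hi1, mul_zero, sub_zero]
      exact (hs i hi1).2.2 k hk

private theorem BruA_all (π : Equiv.Perm (Fin n)) (x : SLp p n) (m : ℕ) :
    ∀ r, r + m = n → ∃ b ∈ Bp p n, ∃ u ∈ U p (Ord π), BruA_Q r (b * x * u) := by
  induction m with
  | zero =>
    intro r hr
    refine ⟨1, one_mem _, 1, U_one _, id, ?_⟩
    intro i hi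
    have := i.2
    omega
  | succ m ih =>
    intro r hr
    obtain ⟨b, hb, u, hu, h⟩ := ih (r + 1) (by omega)
    obtain ⟨b', hb', u', hu', h'⟩ := BruA_step π (by omega) h
    refine ⟨b' * b, mul_mem hb' hb, u * u', U_mul (so_ord π) hu hu', ?_⟩
    have h1 : b' * b * x * (u * u') = b' * (b * x * u) * u' := by group
    rw [h1]
    exact h'

theorem bruhat (π : Equiv.Perm (Fin n)) (x : SLp p n) :
    ∃ b ∈ Bp p n, ∃ σ : Equiv.Perm (Fin n), ∃ w : SLp p n, IsMon σ w ∧
      ∃ u ∈ U p (Ord π), x = b * w * u := by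
  obtain ⟨b, hb, u, hu, s, hs⟩ := BruA_all π x n 0 (by omega)
  obtain ⟨y, hy⟩ : ∃ y : SLp p n, y = b * x * u := ⟨_, rfl⟩
  rw [← hy] at hs
  have hinj : Function.Injective s := by
    intro i i' h
    by_contra hne
    have h1 := (hs i (Nat.zero_le _)).2.2 i' (Ne.symm hne)
    rw [h] at h1
    exact (hs i' (Nat.zero_le _)).1 h1
  obtain ⟨σ, hσ⟩ : ∃ σ : Equiv.Perm (Fin n), ∀ i, σ i = s i :=
    ⟨Equiv.ofBijective s (Finite.injective_iff_bijective.1 hinj), fun _ => rfl⟩
  obtain ⟨w, hw⟩ := mon_exists p σ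
  have hwi := mon_inv hw
  have ht : y * w⁻¹ ∈ Bp p n := by
    rw [mem_Bp]
    intro i j hij
    show (y.1 * (w⁻¹).1) i j = 0
    rw [Matrix.mul_apply]
    refine Finset.sum_eq_zero fun k _ => ?_
    by_cases hk : k = s i
    · have h1 : (w⁻¹).1 k j = 0 := by
        apply (hwi k j).2
        intro h2
        have h3 : σ⁻¹ (σ i) = i := by simp
        rw [hk, ← hσ, h3] at h2
        exact (ne_of_gt hij) h2.symm
      rw [h1, mul_zero]
    · rw [(hs i (Nat.zero_le _)).2.1 k hk, zero_mul]
  refine ⟨b⁻¹ * (y * w⁻¹), mul_mem (inv_mem hb) ht, σ, w, hw, u⁻¹, U_inv (so_ord π) hu, ?_⟩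
  rw [hy]
  group

end Pool.Agent.Lib.MP_f399a8_nt.S
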