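import Pool.Agent.Lib.MP_f399a8_ntS.TopB

/-!
# The character of the Borel subgroup

PROOF.
* `bp_diag`: for `b ∈ Bp`, `∏ i, b i i = det b = 1` (`Matrix.det_of_upperTriangular`), so no diagonal entry
  vanishes.
* `isUpper_toTor`: `toTor b` has entries `b i i` (unfold; `Tor p n` is the type of elements of `Torus p n`).
* `isUpper_iff`: if `IsUpper b t` then `b i j = 0` for `j < i`, so `b ∈ Bp`, and `toTor b = t` since
  elements of `Tor` with the same entries agree.
* `toTor_mul`: `(b * b') i i = b i i * b' i i` for upper triangular matrices.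
* `cb_mul`, `cb_one`, `cb_inv`, `cb_unip` follow (`toTor b = 1` if all `b i i = 1`), `cb_eq`: the value depends
  only on the diagonal entries.
* `isPS_iff`: by `isUpper_toTor` and `isUpper_iff`.
* `cb_conj`: for diagonal `t` (`IsDg e t`), `t * b * t⁻¹` has the same diagonal entries as `b`.
-/

namespace Pool.Agent.Lib.MP_f399a8_nt.S

open Matrix Filter Topology

noncomputable section

variable {p : ℕ} [Fact p.Prime] {n : ℕ} {C : Type*} [NormedField C]

open Classical in
/-- the diagonal of an upper triangular matrix, as an element of the torus -/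
def toTor (b : SLp p n) : Tor p n :=
  if h : (∀ i, b.1 i i ≠ 0) ∧ ∏ i, b.1 i i = 1 then
    (⟨fun i => Units.mk0 (b.1 i i) (h.1 i), by
      show ∏ i, Units.mk0 (b.1 i i) (h.1 i) = 1
      apply Units.ext
      rw [Units.coe_prod]
      exact h.2⟩ : Torus p n)
  else 1

/-- the character `χ` of the torus as a function on upper triangular matrices -/
def cb (χ : Tor p n →* Cˣ) (b : SLp p n) : C := (χ (toTor b) : C)

theorem bp_diag {b : SLp p n} (hb : b ∈ Bp p n) : (∀ i, b.1 i i ≠ 0) ∧ ∏ i, b.1 i i = 1 := by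
  have h1 : b.1.BlockTriangular id := fun i j hij => hb i j hij
  have h2 : ∏ i, b.1 i i = 1 := by
    rw [← Matrix.det_of_isUpperTriangular h1]
    exact b.2
  refine ⟨fun i hi => ?_, h2⟩
  have h3 : ∏ i, b.1 i i = 0 := Finset.prod_eq_zero (Finset.mem_univ i) hi
  rw [h3] at h2
  exact zero_ne_one h2

open Classical in
/-- `toTor` as a function of the diagonal -/
def CbA_F (d : Fin n → ℚ_[p]) : Tor p n :=
  if h : (∀ i, d i ≠ 0) ∧ ∏ i, d i = 1 then
    (⟨fun i => Units.mk0 (d i) (h.1 i), by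
      show ∏ i, Units.mk0 (d i) (h.1 i) = 1
      apply Units.ext
      rw [Units.coe_prod]
      exact h.2⟩ : Torus p n)
  else 1

theorem CbA_entry {b : SLp p n} (hb : b ∈ Bp p n) (i : Fin n) :
    ((toTor b).entry i : ℚ_[p]) = b.1 i i := by
  have h : toTor b = (⟨fun i => Units.mk0 (b.1 i i) ((bp_diag hb).1 i), by
      show ∏ i, Units.mk0 (b.1 i i) ((bp_diag hb).1 i) = 1
      apply Units.ext
      rw [Units.coe_prod]
      exact (bp_diag hb).2⟩ : Torus p n) := dif_pos (bp_diag hb)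
  rw [h]
  rfl

theorem CbA_ext {t t' : Tor p n} (h : ∀ i, (t.entry i : ℚ_[p]) = (t'.entry i : ℚ_[p])) :
    t = t' := by
  have h1 : (show Torus p n from t).1 = (show Torus p n from t').1 :=
    funext fun i => Units.ext (h i)
  exact Subtype.ext h1

theorem CbA_diag_mul {b b' : SLp p n} (hb : b ∈ Bp p n) (hb' : b' ∈ Bp p n) (i : Fin n) :
    (b * b').1 i i = b.1 i i * b'.1 i i := by
  show (b.1 * b'.1) i i = _
  rw [Matrix.mul_apply]
  refine Finset.sum_eq_single i (fun k _ hk => ?_) (fun h => absurd (Finset.mem_univ i) h)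
  rcases lt_or_gt_of_ne hk with h | h
  · rw [hb i k h, zero_mul]
  · rw [hb' k i h, mul_zero]

theorem isUpper_toTor {b : SLp p n} (hb : b ∈ Bp p n) : IsUpper b (toTor b) := by
  intro i j hij
  by_cases h : j = i
  · subst h
    rw [if_pos rfl, CbA_entry hb]
  · rw [if_neg h]
    exact hb i j (lt_of_le_of_ne hij h)

theorem isUpper_iff {b : SLp p n} {t : Tor p n} (h : IsUpper b t) : b ∈ Bp p n ∧ toTor b = t := by
  have hb : b ∈ Bp p n := by
    intro i j hij
    have h1 := h i j (le_of_lt hij)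
    rwa [if_neg (ne_of_lt (show j < i from hij))] at h1
  refine ⟨hb, CbA_ext fun i => ?_⟩
  rw [CbA_entry hb, h i i le_rfl, if_pos rfl]

theorem toTor_mul {b b' : SLp p n} (hb : b ∈ Bp p n) (hb' : b' ∈ Bp p n) :
    toTor (b * b') = toTor b * toTor b' := by
  refine CbA_ext fun i => ?_
  have h1 : (((toTor b * toTor b').entry i : ℚ_[p]ˣ) : ℚ_[p]) =
      ((toTor b).entry i : ℚ_[p]) * ((toTor b').entry i : ℚ_[p]) := rfl
  rw [h1, CbA_entry hb, CbA_entry hb', CbA_entry ((Bp p n).mul_mem hb hb'), CbA_diag_mul hb hb']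

theorem cb_ne_zero (χ : Tor p n →* Cˣ) (b : SLp p n) : cb χ b ≠ 0 := by
  exact Units.ne_zero _

theorem cb_eq (χ : Tor p n →* Cˣ) {b b' : SLp p n} (h : ∀ i, b.1 i i = b'.1 i i) :
    cb χ b = cb χ b' := by
  have h0 : (fun i => b.1 i i) = fun i => b'.1 i i := funext h
  have h1 : toTor b = toTor b' := congrArg CbA_F h0
  unfold cb
  rw [h1]

theorem cb_mul (χ : Tor p n →* Cˣ) {b b' : SLp p n} (hb : b ∈ Bp p n) (hb' : b' ∈ Bp p n) :
    cb χ (b * b') = cb χ b * cb χ b' := by
  unfold cb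
  rw [toTor_mul hb hb', map_mul, Units.val_mul]

theorem CbA_one : toTor (1 : SLp p n) = 1 := by
  have h := toTor_mul (Bp p n).one_mem (Bp p n).one_mem
  rw [mul_one] at h
  exact (mul_eq_left.1 h.symm)

theorem cb_unip (χ : Tor p n →* Cˣ) {b : SLp p n} (h : ∀ i, b.1 i i = 1) : cb χ b = 1 := by
  have h1 : cb χ b = cb χ 1 := cb_eq χ fun i => by
    rw [h, Matrix.SpecialLinearGroup.coe_one, Matrix.one_apply_eq]
  rw [h1]
  unfold cb
  rw [CbA_one, map_one, Units.val_one]

theorem cb_inv (χ : Tor p n →* Cˣ) {b : SLp p n} (hb : b ∈ Bp p n) :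
    cb χ b⁻¹ = (cb χ b)⁻¹ := by
  have h1 := cb_mul χ hb ((Bp p n).inv_mem hb)
  rw [mul_inv_cancel] at h1
  have h2 : cb χ (1 : SLp p n) = 1 := by
    unfold cb
    rw [CbA_one, map_one, Units.val_one]
  rw [h2] at h1
  exact eq_inv_of_mul_eq_one_right h1.symm

theorem cb_conj (χ : Tor p n →* Cˣ) {e : Fin n → ℤ} {t : SLp p n} (ht : IsDg e t) (b : SLp p n) :
    cb χ (t * b * t⁻¹) = cb χ b ∧ cb χ (t⁻¹ * b * t) = cb χ b := by
  constructor
  · refine cb_eq χ fun i => ?_
    rw [dg_conj ht, sub_self, zpow_zero, one_mul]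
  · refine cb_eq χ fun i => ?_
    rw [dg_conj' ht, sub_self, zpow_zero, one_mul]

theorem isPS_iff {χ : Tor p n →* Cˣ} {f : SLp p n → C} :
    IsPS χ f ↔ Continuous f ∧ ∀ b ∈ Bp p n, ∀ g, f (b * g) = cb χ b * f g := by
  constructor
  · rintro ⟨h1, h2⟩
    exact ⟨h1, fun b hb g => h2 b g (toTor b) (isUpper_toTor hb)⟩
  · rintro ⟨h1, h2⟩
    refine ⟨h1, fun b g t ht => ?_⟩
    obtain ⟨hb, rfl⟩ := isUpper_iff ht
    exact h2 b hb g

end

end Pool.Agent.Lib.MP_f399a8_nt.S
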