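import Pool.Agent.Lib.MP_f399a8_ntS.CbA

/-!
# Continuity and slopes of the character

`Slope χ v` says `‖χ t‖ = ∏ i, ‖t_i‖ ^ v i` (real exponents).

PROOF.
* `cb_near`: `χ` is continuous at `1 : Tor p n`, the topology of `Tor` is induced from `Fin n → ℚ_[p]ˣ`, and
  the topology of `ℚ_[p]ˣ` is induced from `ℚ_[p]` (`Units.isEmbedding_val₀`).  If `b ∈ Bp ∩ Km m` then the
  entries `b i i` are within `p ^ (-m)` of `1`.  (One can argue with sequences: if the claim fails, choose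
  `b_m ∈ Bp ∩ Km m` with `ε < ‖cb χ b_m - 1‖`; then `toTor b_m → 1` in `Tor`, since every
  coordinate tends to `1`.)
* `slope_exists`: for `n = 0` everything is trivial (`Tor p 0` has one element, the product is empty).
  For `n = k + 1` use `torus_char` (file SLA1): `χ t = ∏ i : Fin k, lowChar χ i (t_{i+1})` and for a
  continuous `ν := lowChar χ i : ℚ_[p] →*₀ C` (on units it is the continuous function
  `x ↦ χ (coroot 0 (i+1) x)⁻¹`), `‖ν x‖ = ‖x‖ ^ w` with `w = - log ‖ν p‖ / log p`: write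
  `x = p ^ m * u` with `‖u‖ = 1` (`Padic` valuation); `‖ν u‖ = 1` since the values `‖ν (u ^ l)‖ = ‖ν u‖ ^ l`,
  `l : ℤ`, are bounded: the image of the compact set `{u : ℚ_[p]ˣ | ‖u‖ = 1}` under the continuous
  function `u ↦ ‖ν u‖` is compact.  So `v 0 = 0`, `v (i + 1) = w_i`.
* `slope_cb`: `toTor b` has the entries `b i i`.
* `slope_cort`: `cort i j x` has the entries `x` at `i`, `x⁻¹` at `j` and `1` elsewhere (`i ≠ j`), so
  `‖χ (cort i j x)‖ = ‖x‖ ^ (v i) * ‖x⁻¹‖ ^ (v j)`.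
* `sorted_exists`: the relation `r i j := v i < v j ∨ (v i = v j ∧ j < i)` is a strict linear order on
  `Fin n`; take the order isomorphism with `Fin n`, for instance
  `Finset.orderIsoOfFin` for the type synonym with `LinearOrder` lifted from the injective map
  `i ↦ toLex (v i, OrderDual.toDual i) : ℝ ×ₗ (Fin n)ᵒᵈ`; or use `Tuple.sort` for that function
  (`Tuple.sort f : Perm (Fin n)`, `Tuple.monotone_sort`): `π = (Tuple.sort f)⁻¹`, and `f` is injective.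
-/

namespace Pool.Agent.Lib.MP_f399a8_nt.S

open Matrix Filter Topology

variable {p : ℕ} [Fact p.Prime] {n : ℕ} {C : Type*} [NormedField C]

/-- the absolute value of `χ` -/
def Slope (χ : Tor p n →* Cˣ) (v : Fin n → ℝ) : Prop :=
  ∀ t : Tor p n, ‖(χ t : C)‖ = ∏ i, ‖(t.entry i : ℚ_[p])‖ ^ (v i)

theorem cb_near {χ : Tor p n →* Cˣ} (hχ : Continuous χ) {ε : ℝ} (hε : 0 < ε) :
    ∃ m : ℕ, 1 ≤ m ∧ ∀ b ∈ Bp p n, b ∈ Km p n m → ‖cb χ b - 1‖ ≤ ε := by
  by_contra hcon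
  push Not at hcon
  choose b hb hk he using fun m : ℕ => hcon (m + 1) (Nat.le_add_left 1 m)
  have ht : Tendsto (fun m => toTor (b m)) atTop (𝓝 (1 : Tor p n)) := by
    have h1 : Tendsto (fun m => (show Torus p n from toTor (b m))) atTop (𝓝 (1 : Torus p n)) := by
      refine tendsto_subtype_rng.2 (tendsto_pi_nhds.2 fun i => ?_)
      refine Units.isEmbedding_val₀.tendsto_nhds_iff.2 ?_
      have h2 : (Units.val ∘ fun m => (show Torus p n from toTor (b m)).1 i) =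
          fun m => (b m).1 i i := by
        funext m
        exact CbA_entry (hb m) i
      rw [h2]
      show Tendsto (fun m => (b m).1 i i) atTop (𝓝 (1 : ℚ_[p]))
      rw [tendsto_iff_norm_sub_tendsto_zero]
      have hp1 : (1 : ℝ) < p := by exact_mod_cast (Fact.out : p.Prime).one_lt
      have h3 : Tendsto (fun m : ℕ => ((p : ℝ)⁻¹) ^ (m + 1)) atTop (𝓝 0) :=
        (tendsto_pow_atTop_nhds_zero_of_lt_one (by positivity)
          (inv_lt_one_of_one_lt₀ hp1)).comp (tendsto_add_atTop_nat 1)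
      refine squeeze_zero (fun m => norm_nonneg _) (fun m => ?_) h3
      have h4 := hk m i i
      rw [Matrix.one_apply_eq] at h4
      refine h4.trans (le_of_eq ?_)
      rw [_root_.zpow_neg, inv_pow, zpow_natCast]
    exact h1
  have h5 : Tendsto (fun m => cb χ (b m)) atTop (𝓝 (1 : C)) := by
    have h6 := ((Units.continuous_val.comp hχ).tendsto (1 : Tor p n)).comp ht
    have h7 : (Units.val ∘ χ) (1 : Tor p n) = (1 : C) := by
      show ((χ 1 : Cˣ) : C) = 1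
      rw [map_one, Units.val_one]
    rw [h7] at h6
    exact h6
  rw [Metric.tendsto_atTop] at h5
  obtain ⟨N, hN⟩ := h5 ε hε
  have h8 := hN N le_rfl
  rw [dist_eq_norm] at h8
  exact absurd h8 (not_lt.2 (he N).le)

theorem CbB_coroot_cont (i j : Fin n) :
    Continuous (fun x : ℚ_[p]ˣ => coroot (p := p) i j x) := by
  have h1 : ∀ l : Fin n, Continuous (fun x : ℚ_[p]ˣ => (Pi.mulSingle l x : Fin n → ℚ_[p]ˣ)) :=
    fun l => continuous_mulSingle (A := fun _ : Fin n => ℚ_[p]ˣ) l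
  have h2 : Continuous (fun x : ℚ_[p]ˣ => (Pi.mulSingle j x⁻¹ : Fin n → ℚ_[p]ˣ)) :=
    (h1 j).comp (continuous_inv (G := ℚ_[p]ˣ))
  exact Continuous.subtype_mk ((h1 i).mul h2) _

theorem CbB_compact (p : ℕ) [Fact p.Prime] :
    IsCompact {u : ℚ_[p]ˣ | ‖(u : ℚ_[p])‖ = 1} := by
  rw [Units.isEmbedding_val₀.isInducing.isCompact_iff]
  have h1 : (Units.val '' {u : ℚ_[p]ˣ | ‖(u : ℚ_[p])‖ = 1}) = Metric.sphere (0 : ℚ_[p]) 1 := by
    ext x
    constructor
    · rintro ⟨u, hu, rfl⟩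
      rw [mem_sphere_zero_iff_norm]
      exact hu
    · intro hx
      rw [mem_sphere_zero_iff_norm] at hx
      have h0 : x ≠ 0 := by
        rintro rfl
        rw [norm_zero] at hx
        exact zero_ne_one hx
      exact ⟨Units.mk0 x h0, hx, rfl⟩
  rw [h1]
  exact isCompact_sphere 0 1

theorem CbB_unit {φ : ℚ_[p]ˣ →* Cˣ} (hφ : Continuous φ) {u : ℚ_[p]ˣ}
    (hu : ‖(u : ℚ_[p])‖ = 1) : ‖((φ u : Cˣ) : C)‖ = 1 := by
  obtain ⟨B, hB⟩ := (CbB_compact p).exists_bound_of_continuousOn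
    (f := fun u : ℚ_[p]ˣ => ((φ u : Cˣ) : C)) (Units.continuous_val.comp hφ).continuousOn
  have key : ∀ y : ℚ_[p]ˣ, ‖(y : ℚ_[p])‖ = 1 → ‖((φ y : Cˣ) : C)‖ ≤ 1 := by
    intro y hy
    by_contra hcon
    push Not at hcon
    obtain ⟨m, hm⟩ := pow_unbounded_of_one_lt B hcon
    have h1 : ‖((φ (y ^ m) : Cˣ) : C)‖ ≤ B := by
      apply hB
      show ‖((y ^ m : ℚ_[p]ˣ) : ℚ_[p])‖ = 1
      rw [Units.val_pow_eq_pow_val, norm_pow, hy, one_pow]
    rw [map_pow, Units.val_pow_eq_pow_val, norm_pow] at h1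
    linarith
  apply le_antisymm (key u hu)
  have h2 := key u⁻¹ (by rw [Units.val_inv_eq_inv_val, norm_inv, hu, inv_one])
  rw [map_inv, Units.val_inv_eq_inv_val, norm_inv] at h2
  have h3 : 0 < ‖((φ u : Cˣ) : C)‖ := norm_pos_iff.2 (Units.ne_zero _)
  rwa [inv_le_one₀ h3] at h2

theorem CbB_slope {φ : ℚ_[p]ˣ →* Cˣ} (hφ : Continuous φ) :
    ∃ w : ℝ, ∀ x : ℚ_[p]ˣ, ‖((φ x : Cˣ) : C)‖ = ‖(x : ℚ_[p])‖ ^ w := by
  have hp1 : (1 : ℝ) < p := by exact_mod_cast (Fact.out : p.Prime).one_lt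
  have hp0 : (0 : ℝ) < p := by linarith
  have hlog : 0 < Real.log p := Real.log_pos hp1
  have ha : 0 < ‖((φ (pu p) : Cˣ) : C)‖ := norm_pos_iff.2 (Units.ne_zero _)
  refine ⟨-Real.log ‖((φ (pu p) : Cˣ) : C)‖ / Real.log p, fun x => ?_⟩
  have hx0 : (x : ℚ_[p]) ≠ 0 := x.ne_zero
  have hx : ‖(x : ℚ_[p])‖ = (p : ℝ) ^ (-(x : ℚ_[p]).valuation) :=
    Padic.norm_eq_zpow_neg_valuation hx0
  generalize (x : ℚ_[p]).valuation = v at hx
  have hpn : ‖((pu p : ℚ_[p]ˣ) : ℚ_[p])‖ = (p : ℝ)⁻¹ := Padic.norm_p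
  have h1 : ‖((x * (pu p) ^ (-v) : ℚ_[p]ˣ) : ℚ_[p])‖ = 1 := by
    rw [Units.val_mul, norm_mul, hx, Units.val_zpow_eq_zpow_val, norm_zpow, hpn, _root_.inv_zpow',
      neg_neg, ← zpow_add₀ hp0.ne', neg_add_cancel, zpow_zero]
  have h2 : x = (x * (pu p) ^ (-v)) * (pu p) ^ v := by
    rw [mul_assoc, ← _root_.zpow_add, neg_add_cancel, zpow_zero, mul_one]
  have h3 : ‖((φ x : Cˣ) : C)‖ = ‖((φ (pu p) : Cˣ) : C)‖ ^ v := by
    conv_lhs => rw [h2]
    rw [map_mul, Units.val_mul, norm_mul, CbB_unit hφ h1, one_mul, map_zpow,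
      Units.val_zpow_eq_zpow_val, norm_zpow]
  rw [h3, hx, Real.rpow_def_of_pos (zpow_pos hp0 _), Real.log_zpow]
  have h4 : ((-v : ℤ) : ℝ) * Real.log p * (-Real.log ‖((φ (pu p) : Cˣ) : C)‖ / Real.log p) =
      Real.log (‖((φ (pu p) : Cˣ) : C)‖ ^ v) := by
    rw [Real.log_zpow]
    push_cast
    field_simp
  rw [h4, Real.exp_log (zpow_pos ha _)]

theorem slope_exists {χ : Tor p n →* Cˣ} (hχ : Continuous χ) : ∃ v : Fin n → ℝ, Slope χ v := by
  rcases n with _ | k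
  · refine ⟨fun _ => 0, fun t => ?_⟩
    have ht : t = 1 := CbA_ext fun i => i.elim0
    rw [ht, map_one, Units.val_one, norm_one, Finset.univ_eq_empty, Finset.prod_empty]
  · let φ : Fin k → ℚ_[p]ˣ →* Cˣ := fun i =>
      { toFun := fun u => ((show Torus p (k + 1) →* Cˣ from χ) (coroot 0 i.succ u))⁻¹
        map_one' := by rw [coroot_one, map_one, inv_one]
        map_mul' := fun u u' => by rw [coroot_mul, map_mul, mul_inv] }
    have hφ : ∀ i, Continuous (φ i) := fun i =>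
      continuous_inv.comp (hχ.comp (CbB_coroot_cont 0 i.succ))
    choose w hw using fun i => CbB_slope (hφ i)
    refine ⟨Fin.cons 0 w, fun t => ?_⟩
    have h1 := torus_char (show Torus p (k + 1) →* Cˣ from χ) t
    have h2 : ((χ t : Cˣ) : C) = ∏ i : Fin k, ((φ i (t.entry i.succ) : Cˣ) : C) := by
      refine h1.trans (Finset.prod_congr rfl fun i _ => ?_)
      exact SLA1_lowChar_unit _ i _
    rw [h2, norm_prod, Fin.prod_univ_succ, Fin.cons_zero, Real.rpow_zero, one_mul]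
    refine Finset.prod_congr rfl fun i _ => ?_
    rw [hw i, Fin.cons_succ]

theorem slope_cb {χ : Tor p n →* Cˣ} {v : Fin n → ℝ} (hs : Slope χ v) {b : SLp p n}
    (hb : b ∈ Bp p n) : ‖cb χ b‖ = ∏ i, ‖b.1 i i‖ ^ (v i) := by
  unfold cb
  rw [hs (toTor b)]
  refine Finset.prod_congr rfl fun i _ => ?_
  rw [CbA_entry hb]

theorem slope_cort {χ : Tor p n →* Cˣ} {v : Fin n → ℝ} (hs : Slope χ v) {i j : Fin n}
    (hij : i ≠ j) (x : ℚ_[p]ˣ) : ‖(χ (cort i j x) : C)‖ = ‖(x : ℚ_[p])‖ ^ (v i - v j) := by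
  have hx0 : 0 < ‖(x : ℚ_[p])‖ := norm_pos_iff.2 x.ne_zero
  have e : ∀ k, (cort i j x).entry k = (Pi.mulSingle i x : Fin n → ℚ_[p]ˣ) k *
      (Pi.mulSingle j x⁻¹ : Fin n → ℚ_[p]ˣ) k := fun k => rfl
  rw [hs (cort i j x), Fintype.prod_eq_mul i j hij]
  · rw [e, e, Pi.mulSingle_eq_same, Pi.mulSingle_eq_same, Pi.mulSingle_eq_of_ne hij,
      Pi.mulSingle_eq_of_ne hij.symm, mul_one, one_mul, Units.val_inv_eq_inv_val, norm_inv,
      Real.inv_rpow hx0.le, Real.rpow_sub hx0, div_eq_mul_inv]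
  · rintro k ⟨h1, h2⟩
    rw [e, Pi.mulSingle_eq_of_ne h1, Pi.mulSingle_eq_of_ne h2, mul_one, Units.val_one, norm_one,
      Real.one_rpow]

theorem sorted_exists (v : Fin n → ℝ) : ∃ π : Equiv.Perm (Fin n), IsSorted v π := by
  let f : Fin n → ℝ ×ₗ (Fin n)ᵒᵈ := fun i => toLex (v i, OrderDual.toDual i)
  have hf : Function.Injective f := by
    intro i j h
    have h1 : (v i, OrderDual.toDual i) = (v j, OrderDual.toDual j) := toLex.injective h
    exact OrderDual.toDual.injective (congrArg Prod.snd h1)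
  have hg : StrictMono (f ∘ Tuple.sort f) :=
    (Tuple.monotone_sort f).strictMono_of_injective (hf.comp (Tuple.sort f).injective)
  refine ⟨(Tuple.sort f)⁻¹, fun i j => ?_⟩
  have h1 : ∀ i, (f ∘ Tuple.sort f) ((Tuple.sort f)⁻¹ i) = f i := fun i => by
    show f (Tuple.sort f ((Tuple.sort f)⁻¹ i)) = f i
    exact congrArg f ((Tuple.sort f).apply_symm_apply i)
  rw [← hg.lt_iff_lt, h1, h1, Prod.Lex.toLex_lt_toLex]
  exact Iff.rfl

end Pool.Agent.Lib.MP_f399a8_nt.S
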