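import Pool.Agent.Lib.MP_f399a8_ntS.CbB

/-!
# The character of a simple coroot

`chr χ i j x = χ (cort j i x)⁻¹`, extended by `0`.

PROOF.
* `chr_mul`-type facts for the structure: `cort j i (x * y) = cort j i x * cort j i y` (`coroot_mul`),
  `cort j i 1 = 1` (`coroot_one`); see `lowChar` in `SLDef.lean` for the same construction.
* `chr_norm`: `‖chr χ i j x‖ = ‖x‖ ^ (v i - v j)` for `x ≠ 0` (`slope_cort` for `j ≠ i`: `‖χ (cort j i x)‖ =
  ‖x‖ ^ (v j - v i)`).
* `chr_cont`: continuous at `x ≠ 0` because `χ` is continuous and `cort j i : ℚ_[p]ˣ → Tor` is continuous, and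
  `ℚ_[p]ˣ` is an open subset of `ℚ_[p]` (`Units.isOpenEmbedding_val`); at `0`: `‖chr x‖ = ‖x‖ ^ (v i - v j)` tends
  to `0` since `v j < v i`.
-/

namespace Pool.Agent.Lib.MP_f399a8_nt.S

open Matrix Filter Topology

noncomputable section

variable {p : ℕ} [Fact p.Prime] {n : ℕ} {C : Type*} [NormedField C]

open Classical in
/-- the inverse of the character on a coroot, extended by zero -/
def chrFun (χ : Tor p n →* Cˣ) (i j : Fin n) (x : ℚ_[p]) : C :=
  if h : x = 0 then 0 else ((χ (cort j i (Units.mk0 x h)))⁻¹ : Cˣ)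

theorem ChA_ne (χ : Tor p n →* Cˣ) (i j : Fin n) {x : ℚ_[p]} (h : x ≠ 0) :
    chrFun χ i j x = ((χ (cort j i (Units.mk0 x h)))⁻¹ : Cˣ) := by
  unfold chrFun
  rw [dif_neg h]

theorem ChA_cort_mul (i j : Fin n) (x y : ℚ_[p]ˣ) :
    cort j i (x * y) = cort j i x * cort j i y := coroot_mul j i x y

theorem ChA_cort_one (i j : Fin n) : cort (p := p) j i 1 = 1 := coroot_one j i

theorem chr_zero (χ : Tor p n →* Cˣ) (i j : Fin n) : chrFun χ i j (0 : ℚ_[p]) = 0 := by
  unfold chrFun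
  rw [dif_pos rfl]

theorem chr_one (χ : Tor p n →* Cˣ) (i j : Fin n) : chrFun χ i j (1 : ℚ_[p]) = 1 := by
  have h1 : Units.mk0 (1 : ℚ_[p]) one_ne_zero = 1 := Units.ext rfl
  rw [ChA_ne χ i j one_ne_zero, h1, ChA_cort_one, map_one, inv_one, Units.val_one]

theorem chr_mul (χ : Tor p n →* Cˣ) (i j : Fin n) (x y : ℚ_[p]) :
    chrFun χ i j (x * y) = chrFun χ i j x * chrFun χ i j y := by
  by_cases hx : x = 0
  · rw [hx, zero_mul, chr_zero, zero_mul]
  by_cases hy : y = 0
  · rw [hy, mul_zero, chr_zero, mul_zero]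
  have hxy : x * y ≠ 0 := mul_ne_zero hx hy
  have h1 : Units.mk0 (x * y) hxy = Units.mk0 x hx * Units.mk0 y hy := Units.ext rfl
  rw [ChA_ne χ i j hx, ChA_ne χ i j hy, ChA_ne χ i j hxy, h1, ChA_cort_mul, map_mul, mul_inv,
    Units.val_mul]

/-- the inverse of the character on a coroot, extended by zero, as a homomorphism -/
def chr (χ : Tor p n →* Cˣ) (i j : Fin n) : ℚ_[p] →*₀ C where
  toFun := chrFun χ i j
  map_zero' := chr_zero χ i j
  map_one' := chr_one χ i j
  map_mul' := chr_mul χ i j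

theorem chr_apply (χ : Tor p n →* Cˣ) (i j : Fin n) (x : ℚ_[p]ˣ) :
    chr χ i j (x : ℚ_[p]) = ((χ (cort j i x))⁻¹ : Cˣ) := by
  show chrFun χ i j (x : ℚ_[p]) = _
  have h1 : Units.mk0 (x : ℚ_[p]) x.ne_zero = x := Units.ext rfl
  rw [ChA_ne χ i j x.ne_zero, h1]

theorem ChA_cort_cont (i j : Fin n) : Continuous (fun u : ℚ_[p]ˣ => cort j i u) := by
  have h1 : Continuous (fun u : ℚ_[p]ˣ =>
      (Pi.mulSingle j u * Pi.mulSingle i u⁻¹ : Fin n → ℚ_[p]ˣ)) := by
    refine Continuous.mul ?_ ?_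
    · exact continuous_mulSingle (A := fun _ : Fin n => ℚ_[p]ˣ) j
    · exact (continuous_mulSingle (A := fun _ : Fin n => ℚ_[p]ˣ) i).comp continuous_inv
  exact h1.subtype_mk _

theorem chr_norm {χ : Tor p n →* Cˣ} {v : Fin n → ℝ} (hs : Slope χ v) {i j : Fin n}
    (h : j < i) {x : ℚ_[p]} (hx : x ≠ 0) : ‖chr χ i j x‖ = ‖x‖ ^ (v i - v j) := by
  have h1 := chr_apply χ i j (Units.mk0 x hx)
  rw [Units.val_mk0] at h1
  have h2 := slope_cort hs h.ne (Units.mk0 x hx)
  rw [Units.val_mk0] at h2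
  rw [h1, Units.val_inv_eq_inv_val, norm_inv, h2, ← Real.rpow_neg (norm_nonneg _)]
  congr 1
  ring

theorem chr_cont {χ : Tor p n →* Cˣ} (hχ : Continuous χ) {v : Fin n → ℝ} (hs : Slope χ v)
    {i j : Fin n} (h : j < i) (hv : v j < v i) : Continuous (chr χ i j) := by
  rw [continuous_iff_continuousAt]
  intro x
  by_cases hx : x = 0
  · subst hx
    have h0 : chr χ i j (0 : ℚ_[p]) = 0 := map_zero _
    rw [ContinuousAt, h0, tendsto_zero_iff_norm_tendsto_zero]
    have hpos : 0 < v i - v j := by linarith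
    have h1 : ∀ y : ℚ_[p], ‖chr χ i j y‖ = ‖y‖ ^ (v i - v j) := by
      intro y
      by_cases hy : y = 0
      · rw [hy, h0, norm_zero, norm_zero, Real.zero_rpow hpos.ne']
      · exact chr_norm hs h hy
    have h2 : Continuous fun y : ℚ_[p] => ‖y‖ ^ (v i - v j) :=
      continuous_norm.rpow_const fun y => Or.inr hpos.le
    have h3 := h2.tendsto (0 : ℚ_[p])
    rw [norm_zero, Real.zero_rpow hpos.ne'] at h3
    simp only [h1]
    exact h3
  · have h1 : Continuous fun u : ℚ_[p]ˣ => chr χ i j (u : ℚ_[p]) := by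
      simp only [chr_apply]
      exact Units.continuous_val.comp (continuous_inv.comp (hχ.comp (ChA_cort_cont i j)))
    have h2 : Topology.IsOpenEmbedding (Units.val : ℚ_[p]ˣ → ℚ_[p]) := Units.isOpenEmbedding_val
    have h3 := (h2.continuousAt_iff (g := chr χ i j) (x := Units.mk0 x hx)).mp h1.continuousAt
    rw [Units.val_mk0] at h3
    exact h3

end

end Pool.Agent.Lib.MP_f399a8_nt.S
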