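import Pool.Agent.Lib.MP_f399a8_ntS.IwaC

/-!
# Comparison of `Om` under conjugation by a torus element with two exponents

PROOF.
* `RelC_trans`: multiply: with `ρ = Om g' / Om g`, `ρ' = Om g'' / Om g'`, `ρ * ρ' = Om g'' / Om g`
  and `Real.mul_rpow`.
* `RelC_le`: if `n = 0` both `Om` are `1`.  Otherwise take `i = 0`: the two inequalities give
  `dl g i ≤ dl g i * (ρ ^ c) ^ 2`, so `1 ≤ ρ ^ c` and `1 ≤ ρ`.
* `RelC_mono`: `ρ ≥ 1` by `RelC_le`, so `ρ ^ c ≤ ρ ^ c'`.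
* `D1_two`: write `g = b * k` (`iwasawa`), and `k * t⁻¹ = b' * k'`.  Then
  `t * g * t⁻¹ = (t * b * t⁻¹) * (t * b') * k'`, so with `γ i = ‖b' i i‖`
  `dl (t * g * t⁻¹) i = ‖b i i‖ * ‖t i i‖ * γ i = dl g i * r i`, `r i := ‖t i i‖ * γ i`
  (`dl_bk`, `dl_left`; `‖t i i‖ = p ^ (- e i)`).  All entries of `t⁻¹` have norm `≤ p ^ (n - |A|)` and all
  entries of `t` have norm `≤ p ^ |A|` (`e i = n - |A|` for `i ∈ A`, `e i = - |A|` for `i ∉ A`).  So
  `b' = k * t⁻¹ * k'⁻¹` has entries of norm `≤ p ^ (n - |A|)` and `b'⁻¹ = k' * t * k⁻¹` has entries of norm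
  `≤ p ^ |A|` (`mulmat_norm_le`), hence `p ^ (-|A|) ≤ γ i ≤ p ^ (n - |A|)` (`b' i i * b'⁻¹ i i = 1`).
  Therefore `r i ≤ 1` for `i ∈ A` (`‖t i i‖ = p ^ (-(n - |A|))`) and `1 ≤ r i` for `i ∉ A`
  (`‖t i i‖ = p ^ |A|`).  `∏ r i = ∏ dl (t g t⁻¹) i / ∏ dl g i = 1`.  Let `P = ∏_{i ∉ A} r i ≥ 1`, so
  `∏_{i ∈ A} r i = P⁻¹`.
  `Om (t g t⁻¹) / Om g = ∏ r i ^ v i = (∏_{i ∈ A} r i ^ v i) * (∏_{i ∉ A} r i ^ v i)
   ≥ (∏_{i ∈ A} r i ^ α) * (∏_{i ∉ A} r i ^ (α + gap)) = P ^ (-α) * P ^ (α + gap) = P ^ gap`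
  (`Real.rpow_le_rpow_of_exponent_ge` and `_le`).  So `P ≤ (Om (t g t⁻¹) / Om g) ^ (1 / gap)`.
  For all `i`: `r i ≤ P` (for `i ∈ A`: `r i ≤ 1 ≤ P`; for `i ∉ A` the other factors of `P` are `≥ 1`) and
  `P⁻¹ ≤ r i` (for `i ∉ A`: `r i ≥ 1`; for `i ∈ A`: `P⁻¹ = ∏_{i ∈ A}` and the other factors are `≤ 1`).
-/

namespace Pool.Agent.Lib.MP_f399a8_nt.S

open Matrix Filter Topology

noncomputable section

variable {p : ℕ} [Fact p.Prime] {n : ℕ}

/-- the change of `dl` is controlled by the growth of `Om` -/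
def RelC (v : Fin n → ℝ) (c : ℝ) (g g' : SLp p n) : Prop :=
  ∀ i, dl g' i ≤ dl g i * (Om v g' / Om v g) ^ c ∧ dl g i ≤ dl g' i * (Om v g' / Om v g) ^ c

theorem RelC_refl (v : Fin n → ℝ) (c : ℝ) (g : SLp p n) : RelC v c g g := by
  intro i
  rw [div_self (om_pos v g).ne', Real.one_rpow, mul_one]
  exact ⟨le_rfl, le_rfl⟩

theorem RelC_trans {v : Fin n → ℝ} {c : ℝ} {g g' g'' : SLp p n} (h : RelC v c g g')
    (h' : RelC v c g' g'') : RelC v c g g'' := by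
  intro i
  have h0 := om_pos v g
  have h1 := om_pos v g'
  have h2 := om_pos v g''
  have e1 : Om v g'' / Om v g = (Om v g' / Om v g) * (Om v g'' / Om v g') := by
    field_simp
  have hp1 : 0 ≤ (Om v g' / Om v g) ^ c := Real.rpow_nonneg (div_pos h1 h0).le _
  have hp2 : 0 ≤ (Om v g'' / Om v g') ^ c := Real.rpow_nonneg (div_pos h2 h1).le _
  rw [e1, Real.mul_rpow (div_pos h1 h0).le (div_pos h2 h1).le]
  constructor
  · calc dl g'' i ≤ dl g' i * (Om v g'' / Om v g') ^ c := (h' i).1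
      _ ≤ (dl g i * (Om v g' / Om v g) ^ c) * (Om v g'' / Om v g') ^ c :=
          mul_le_mul_of_nonneg_right (h i).1 hp2
      _ = _ := by ring
  · calc dl g i ≤ dl g' i * (Om v g' / Om v g) ^ c := (h i).2
      _ ≤ (dl g'' i * (Om v g'' / Om v g') ^ c) * (Om v g' / Om v g) ^ c :=
          mul_le_mul_of_nonneg_right (h' i).2 hp1
      _ = _ := by ring

theorem RelC_le {v : Fin n → ℝ} {c : ℝ} (hc : 0 < c) {g g' : SLp p n} (h : RelC v c g g') :
    Om v g ≤ Om v g' := by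
  rcases Nat.eq_zero_or_pos n with hn | hn
  · subst hn
    simp [Om]
  · have h0 := om_pos v g
    have h1 := om_pos v g'
    by_contra hcon
    push Not at hcon
    have hlt : Om v g' / Om v g < 1 := by
      rw [div_lt_one h0]
      exact hcon
    have hR : (Om v g' / Om v g) ^ c < 1 :=
      Real.rpow_lt_one (div_pos h1 h0).le hlt hc
    have hR0 : 0 < (Om v g' / Om v g) ^ c := Real.rpow_pos_of_pos (div_pos h1 h0) _
    have a1 := (h ⟨0, hn⟩).1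
    have a2 := (h ⟨0, hn⟩).2
    have b1 := dl_pos g ⟨0, hn⟩
    have b2 := dl_pos g' ⟨0, hn⟩
    nlinarith

theorem RelC_mono {v : Fin n → ℝ} {c c' : ℝ} (hc : 0 < c) (hcc : c ≤ c') {g g' : SLp p n}
    (h : RelC v c g g') : RelC v c' g g' := by
  have h0 := om_pos v g
  have h1 : 1 ≤ Om v g' / Om v g := by
    rw [one_le_div h0]
    exact RelC_le hc h
  have h2 : (Om v g' / Om v g) ^ c ≤ (Om v g' / Om v g) ^ c' :=
    Real.rpow_le_rpow_of_exponent_le h1 hcc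
  intro i
  exact ⟨(h i).1.trans (mul_le_mul_of_nonneg_left h2 (dl_pos g i).le),
    (h i).2.trans (mul_le_mul_of_nonneg_left h2 (dl_pos g' i).le)⟩

/-- exponents with two values and sum zero -/
def eA (A : Finset (Fin n)) : Fin n → ℤ :=
  fun i => if i ∈ A then (n : ℤ) - A.card else - (A.card : ℤ)

theorem eA_sum (A : Finset (Fin n)) : ∑ i, eA A i = 0 := by
  have h1 : ∀ i, eA A i = (if i ∈ A then (n : ℤ) else 0) - (A.card : ℤ) := by
    intro i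
    unfold eA
    split_ifs
    · rfl
    · ring
  rw [Finset.sum_congr rfl fun i _ => h1 i, Finset.sum_sub_distrib, Finset.sum_const,
    Finset.card_univ, Fintype.card_fin, ← Finset.sum_filter, Finset.sum_const]
  have h2 : (Finset.univ.filter fun i => i ∈ A) = A := by
    ext i
    simp
  rw [h2]
  simp only [nsmul_eq_mul]
  ring

private theorem D1A_one_le_prod (s : Finset (Fin n)) (r : Fin n → ℝ) (h : ∀ i ∈ s, 1 ≤ r i) :
    1 ≤ ∏ i ∈ s, r i := by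
  induction s using Finset.induction_on with
  | empty => simp
  | insert a s ha ih =>
    rw [Finset.prod_insert ha]
    have h1 := h a (Finset.mem_insert_self _ _)
    have h2 := ih fun i hi => h i (Finset.mem_insert_of_mem hi)
    nlinarith

private theorem D1A_prod (v : Fin n → ℝ) (A : Finset (Fin n)) (α gap : ℝ) (hgap : 0 < gap)
    (hA : ∀ i ∈ A, v i ≤ α) (hB : ∀ i, i ∉ A → α + gap ≤ v i) (r : Fin n → ℝ)
    (hr : ∀ i, 0 < r i) (h1 : ∀ i ∈ A, r i ≤ 1) (h2 : ∀ i, i ∉ A → 1 ≤ r i)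
    (h3 : ∏ i, r i = 1) :
    ∃ P : ℝ, 0 < P ∧ P ≤ (∏ i, r i ^ (v i)) ^ (1 / gap) ∧ ∀ i, r i ≤ P ∧ P⁻¹ ≤ r i := by
  classical
  have hP1 : 1 ≤ ∏ i ∈ Aᶜ, r i :=
    D1A_one_le_prod _ _ fun i hi => h2 i (by simpa using hi)
  have hP0 : 0 < ∏ i ∈ Aᶜ, r i := lt_of_lt_of_le one_pos hP1
  have hQ : ∏ i ∈ A, r i = (∏ i ∈ Aᶜ, r i)⁻¹ := by
    have h4 := Finset.prod_mul_prod_compl A r
    rw [h3] at h4
    exact eq_inv_of_mul_eq_one_left h4
  refine ⟨∏ i ∈ Aᶜ, r i, hP0, ?_, ?_⟩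
  · have h5 : (∏ i ∈ Aᶜ, r i) ^ gap ≤ ∏ i, r i ^ (v i) := by
      rw [← Finset.prod_mul_prod_compl A]
      have h6 : (∏ i ∈ A, r i) ^ α ≤ ∏ i ∈ A, r i ^ (v i) := by
        rw [← Real.finsetProd_rpow A r (fun i _ => (hr i).le)]
        refine Finset.prod_le_prod (fun i _ => Real.rpow_nonneg (hr i).le _) fun i hi => ?_
        exact Real.rpow_le_rpow_of_exponent_ge (hr i) (h1 i hi) (hA i hi)
      have h7 : (∏ i ∈ Aᶜ, r i) ^ (α + gap) ≤ ∏ i ∈ Aᶜ, r i ^ (v i) := by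
        rw [← Real.finsetProd_rpow Aᶜ r (fun i _ => (hr i).le)]
        refine Finset.prod_le_prod (fun i _ => Real.rpow_nonneg (hr i).le _) fun i hi => ?_
        have hi' : i ∉ A := by simpa using hi
        exact Real.rpow_le_rpow_of_exponent_le (h2 i hi') (hB i hi')
      have h8 : (∏ i ∈ Aᶜ, r i) ^ gap = (∏ i ∈ A, r i) ^ α * (∏ i ∈ Aᶜ, r i) ^ (α + gap) := by
        rw [hQ, Real.inv_rpow hP0.le, Real.rpow_add hP0]
        have h9 : 0 < (∏ i ∈ Aᶜ, r i) ^ α := Real.rpow_pos_of_pos hP0 _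
        field_simp
      rw [h8]
      exact mul_le_mul h6 h7 (Real.rpow_nonneg hP0.le _)
        (Finset.prod_nonneg fun i _ => Real.rpow_nonneg (hr i).le _)
    calc ∏ i ∈ Aᶜ, r i = ((∏ i ∈ Aᶜ, r i) ^ gap) ^ (1 / gap) := by
          rw [← Real.rpow_mul hP0.le, mul_one_div_cancel hgap.ne', Real.rpow_one]
      _ ≤ _ := Real.rpow_le_rpow (Real.rpow_nonneg hP0.le _) h5 (by positivity)
  · intro i
    by_cases hi : i ∈ A
    · refine ⟨(h1 i hi).trans hP1, ?_⟩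
      rw [← hQ, ← Finset.mul_prod_erase A r hi]
      have h4 : ∏ j ∈ A.erase i, r j ≤ 1 :=
        Finset.prod_le_one (fun j _ => (hr j).le) fun j hj => h1 j (Finset.mem_of_mem_erase hj)
      have := hr i
      nlinarith
    · have hi' : i ∈ Aᶜ := by simpa using hi
      refine ⟨?_, (inv_le_one_of_one_le₀ hP1).trans (h2 i hi)⟩
      rw [← Finset.mul_prod_erase Aᶜ r hi']
      have h4 : 1 ≤ ∏ j ∈ Aᶜ.erase i, r j :=
        D1A_one_le_prod _ _ fun j hj =>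
          h2 j (by simpa using Finset.mem_of_mem_erase hj)
      have := hr i
      nlinarith

private theorem D1A_core (A : Finset (Fin n)) {t : SLp p n} (ht : IsDg (eA A) t) (g : SLp p n) :
    ∃ r : Fin n → ℝ, (∀ i, 0 < r i) ∧ (∀ i, dl (t * g * t⁻¹) i = dl g i * r i) ∧
      (∀ i ∈ A, r i ≤ 1) ∧ (∀ i, i ∉ A → 1 ≤ r i) := by
  obtain ⟨b, hb, k, hk, rfl⟩ := iwasawa g
  obtain ⟨b', hb', k', hk', h2⟩ := iwasawa (k * t⁻¹)
  have hq : (1 : ℝ) < (p : ℝ) := by exact_mod_cast (Fact.out : p.Prime).one_lt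
  have hq0 : (0 : ℝ) < (p : ℝ) := lt_trans one_pos hq
  have htB : t ∈ Bp p n := dg_Bt ht _
  have hnt : ∀ i, ‖t.1 i i‖ = (p : ℝ) ^ (- eA A i) := by
    intro i
    rw [ht i i, if_pos rfl]
    exact Padic.norm_p_zpow _
  have hle : A.card ≤ n := by
    have := Finset.card_le_univ A
    rwa [Fintype.card_fin] at this
  have he1 : ∀ i, eA A i ≤ (n : ℤ) - A.card := by
    intro i
    unfold eA
    split_ifs
    · exact le_rfl
    · have : (0 : ℤ) ≤ (n : ℤ) := Int.natCast_nonneg n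
      linarith
  have he2 : ∀ i, - eA A i ≤ (A.card : ℤ) := by
    intro i
    unfold eA
    split_ifs
    · have : (A.card : ℤ) ≤ (n : ℤ) := by exact_mod_cast hle
      have : (0 : ℤ) ≤ (n : ℤ) := Int.natCast_nonneg n
      have : (0 : ℤ) ≤ (A.card : ℤ) := Int.natCast_nonneg _
      linarith
    · simp
  have hT : ∀ i j, ‖t.1 i j‖ ≤ (p : ℝ) ^ (A.card : ℤ) := by
    intro i j
    rw [ht i j]
    split_ifs
    · rw [Padic.norm_p_zpow]
      exact zpow_le_zpow_right₀ hq.le (he2 i)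
    · rw [norm_zero]
      positivity
  have hT' : ∀ i j, ‖(t⁻¹).1 i j‖ ≤ (p : ℝ) ^ ((n : ℤ) - A.card) := by
    intro i j
    rw [dg_inv ht i j]
    split_ifs
    · rw [Padic.norm_p_zpow, neg_neg]
      exact zpow_le_zpow_right₀ hq.le (he1 i)
    · rw [norm_zero]
      positivity
  have hb1 : ∀ i j, ‖b'.1 i j‖ ≤ (p : ℝ) ^ ((n : ℤ) - A.card) := by
    have e1 : b' = (k * t⁻¹) * k'⁻¹ := by
      rw [h2, mul_inv_cancel_right]
    have e2 : b'.1 = (k.1 * (t⁻¹).1) * (k'⁻¹).1 := by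
      conv_lhs => rw [e1]
      rfl
    intro i j
    rw [e2]
    have h3 := mulmat_norm_le (k.1 * (t⁻¹).1) (k'⁻¹).1
      (a := 1 * (p : ℝ) ^ ((n : ℤ) - A.card)) (b := 1) (by positivity) zero_le_one
      (fun i j => mulmat_norm_le k.1 (t⁻¹).1 zero_le_one (by positivity) (mem_Kp.1 hk) hT' i j)
      (mem_Kp.1 (inv_mem hk')) i j
    rwa [one_mul, mul_one] at h3
  have hb2 : ∀ i j, ‖(b'⁻¹).1 i j‖ ≤ (p : ℝ) ^ (A.card : ℤ) := by
    have e1 : b'⁻¹ = (k' * t) * k⁻¹ := by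
      have h3 : b' = k * t⁻¹ * k'⁻¹ := by rw [h2, mul_inv_cancel_right]
      rw [h3]
      group
    have e2 : (b'⁻¹).1 = (k'.1 * t.1) * (k⁻¹).1 := by
      rw [e1]
      rfl
    intro i j
    rw [e2]
    have h3 := mulmat_norm_le (k'.1 * t.1) (k⁻¹).1
      (a := 1 * (p : ℝ) ^ (A.card : ℤ)) (b := 1) (by positivity) zero_le_one
      (fun i j => mulmat_norm_le k'.1 t.1 zero_le_one (by positivity) (mem_Kp.1 hk') hT i j)
      (mem_Kp.1 (inv_mem hk)) i j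
    rwa [one_mul, mul_one] at h3
  have hone : (1 : SLp p n) ∈ Kp p n := one_mem _
  have hb3 : ∀ i, ‖b'.1 i i‖ * ‖(b'⁻¹).1 i i‖ = 1 := by
    intro i
    have h3 := dl_left hb' b'⁻¹ i
    have h4 := dl_bk (inv_mem hb') hone i
    rw [mul_one] at h4
    rw [mul_inv_cancel, dl_kp hone, h4] at h3
    exact h3.symm
  have hb0 : ∀ i, 0 < ‖b'.1 i i‖ := fun i => norm_pos_iff.2 ((bp_diag hb').1 i)
  have ht0 : ∀ i, 0 < ‖t.1 i i‖ := fun i => norm_pos_iff.2 ((bp_diag htB).1 i)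
  refine ⟨fun i => ‖t.1 i i‖ * ‖b'.1 i i‖, fun i => mul_pos (ht0 i) (hb0 i), ?_, ?_, ?_⟩
  · intro i
    have e1 : t * (b * k) * t⁻¹ = t * (b * (k * t⁻¹)) := by group
    rw [e1, dl_left htB, dl_left hb, h2, dl_bk hb' hk', dl_bk hb hk]
    ring
  · intro i hi
    show ‖t.1 i i‖ * ‖b'.1 i i‖ ≤ 1
    rw [hnt i]
    have e1 : eA A i = (n : ℤ) - A.card := by
      unfold eA
      rw [if_pos hi]
    rw [e1]
    calc (p : ℝ) ^ (-((n : ℤ) - A.card)) * ‖b'.1 i i‖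
        ≤ (p : ℝ) ^ (-((n : ℤ) - A.card)) * (p : ℝ) ^ ((n : ℤ) - A.card) :=
          mul_le_mul_of_nonneg_left (hb1 i i) (by positivity)
      _ = 1 := by
          rw [← zpow_add₀ hq0.ne', neg_add_cancel, zpow_zero]
  · intro i hi
    show 1 ≤ ‖t.1 i i‖ * ‖b'.1 i i‖
    rw [hnt i]
    have e1 : eA A i = - (A.card : ℤ) := by
      unfold eA
      rw [if_neg hi]
    rw [e1, neg_neg]
    calc (1 : ℝ) = ‖(b'⁻¹).1 i i‖ * ‖b'.1 i i‖ := by rw [mul_comm, hb3 i]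
      _ ≤ _ := mul_le_mul_of_nonneg_right (hb2 i i) (hb0 i).le

theorem D1_two (v : Fin n → ℝ) (A : Finset (Fin n)) (α gap : ℝ) (hgap : 0 < gap)
    (hA : ∀ i ∈ A, v i ≤ α) (hB : ∀ i, i ∉ A → α + gap ≤ v i) {t : SLp p n}
    (ht : IsDg (eA A) t) (g : SLp p n) : RelC v (1 / gap) g (t * g * t⁻¹) := by
  obtain ⟨r, hr, hdl, h1, h2⟩ := D1A_core A ht g
  have h3 : ∏ i, r i = 1 := by
    have e1 := dl_prod (t * g * t⁻¹)
    rw [Finset.prod_congr rfl fun i _ => hdl i, Finset.prod_mul_distrib, dl_prod, one_mul] at e1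
    exact e1
  obtain ⟨P, hP0, hP, hrP⟩ := D1A_prod v A α gap hgap hA hB r hr h1 h2 h3
  have hOm : Om v (t * g * t⁻¹) / Om v g = ∏ i, r i ^ (v i) := by
    have e1 : Om v (t * g * t⁻¹) = Om v g * ∏ i, r i ^ (v i) := by
      unfold Om
      rw [← Finset.prod_mul_distrib]
      refine Finset.prod_congr rfl fun i _ => ?_
      rw [hdl i, Real.mul_rpow (dl_pos g i).le (hr i).le]
    rw [e1, mul_div_cancel_left₀ _ (om_pos v g).ne']
  intro i
  rw [hOm, hdl i]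
  have hg := dl_pos g i
  constructor
  · exact mul_le_mul_of_nonneg_left ((hrP i).1.trans hP) hg.le
  · have h4 : 1 ≤ r i * P := by
      have := mul_le_mul_of_nonneg_right (hrP i).2 hP0.le
      rwa [inv_mul_cancel₀ hP0.ne'] at this
    calc dl g i = dl g i * 1 := (mul_one _).symm
      _ ≤ dl g i * (r i * P) := mul_le_mul_of_nonneg_left h4 hg.le
      _ = dl g i * r i * P := by ring
      _ ≤ _ := mul_le_mul_of_nonneg_left hP (mul_pos hg (hr i)).le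

end

end Pool.Agent.Lib.MP_f399a8_nt.S
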