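import Pool.Agent.Lib.MP_f399a8_ntS.D1A

/-!
# Comparison of `Om` under conjugation by the sorted torus element

PROOF.  `e0 v i = ∑ j, eA (A_j) i` with `A_j = {a | v a ≤ v j}`.
* `e0_sum`: exchange the sums, `eA_sum`.
* `e0_lt`: if `v i < v i'` then `eA A_j i' ≤ eA A_j i` for all `j` (`i' ∈ A_j → i ∈ A_j`), strictly for `j = i`
  (`i ∈ A_i`, `i' ∉ A_i`, the values differ by `n > 0`).  `e0_eq`: the same conditions for `i` and `i'`.
* `D1`: let `gap > 0` be smaller than all positive differences `v b - v a` (finite set).  For each `j` choose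
  `t_j` with `IsDg (eA A_j) t_j` (`dg_exists`, `eA_sum`).  With `α = v j`: `a ∈ A_j → v a ≤ α`,
  `b ∉ A_j → v j < v b → α + gap ≤ v b`.  So `D1_two` applies to `t_j` with `c = 1 / gap`.  The matrix `t` is the
  product of the (commuting diagonal) `t_j` (`dg_unique`, `dg_mul`, use a `List.prod` or an induction over a
  `Finset`/`Fin`), so `RelC v c g (t * g * t⁻¹)` for all `g` by `RelC_trans`: e.g. prove by induction on
  the list `l` of indices: for every `t'` with `IsDg (fun i => (l.map (fun j => eA A_j i)).sum) t'` and all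
  `g`, `RelC v c g (t' * g * t'⁻¹)`.  Then induction on `M`, `t^(M+1) g t^(-(M+1)) = t (t^M g t^(-M)) t⁻¹`.
* `om_mono`: from `D1`, `RelC_le`.
-/

namespace Pool.Agent.Lib.MP_f399a8_nt.S

open Matrix Filter Topology

noncomputable section

variable {p : ℕ} [Fact p.Prime] {n : ℕ}

/-- exponents decreasing with the slopes -/
def e0 (v : Fin n → ℝ) : Fin n → ℤ :=
  fun i => ∑ j, eA (Finset.univ.filter fun a => v a ≤ v j) i

theorem e0_sum (v : Fin n → ℝ) : ∑ i, e0 v i = 0 := by
  unfold e0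
  rw [Finset.sum_comm]
  exact Finset.sum_eq_zero fun j _ => eA_sum _

theorem e0_lt {v : Fin n → ℝ} {i j : Fin n} (h : v i < v j) : e0 v j < e0 v i := by
  unfold e0
  refine Finset.sum_lt_sum (fun k _ => ?_) ⟨i, Finset.mem_univ _, ?_⟩
  · unfold eA
    by_cases h1 : v j ≤ v k
    · have h2 : v i ≤ v k := h.le.trans h1
      simp [h1, h2]
    · by_cases h2 : v i ≤ v k
      · simp [h1, h2]
      · simp [h1, h2]
  · unfold eA
    have h1 : ¬ v j ≤ v i := not_le.mpr h
    have hn' : 0 < n := i.pos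
    simp [h1, hn']

theorem e0_eq {v : Fin n → ℝ} {i j : Fin n} (h : v i = v j) : e0 v i = e0 v j := by
  unfold e0 eA
  refine Finset.sum_congr rfl fun k _ => ?_
  simp [h]

private theorem D1B_gap (v : Fin n → ℝ) :
    ∃ gap : ℝ, 0 < gap ∧ ∀ a b, v a < v b → v a + gap ≤ v b := by
  rcases Nat.eq_zero_or_pos n with rfl | hn
  · exact ⟨1, one_pos, fun a => a.elim0⟩
  · have : Nonempty (Fin n × Fin n) := ⟨(⟨0, hn⟩, ⟨0, hn⟩)⟩
    obtain ⟨x0, hx0⟩ := Finite.exists_min (fun x : Fin n × Fin n =>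
      if v x.1 < v x.2 then v x.2 - v x.1 else 1)
    refine ⟨if v x0.1 < v x0.2 then v x0.2 - v x0.1 else 1, ?_, ?_⟩
    · split_ifs with h
      · linarith
      · exact one_pos
    · intro a b hab
      have h1 := hx0 (a, b)
      simp only [hab, if_true] at h1
      linarith

private theorem D1B_one : IsDg (fun _ : Fin n => (0 : ℤ)) (1 : SLp p n) := by
  intro i j
  rw [Matrix.SpecialLinearGroup.coe_one, Matrix.one_apply, zpow_zero]

private theorem D1B_sum (v : Fin n → ℝ) (l : List (Fin n)) :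
    ∑ i, (l.map (fun j => eA (Finset.univ.filter fun a => v a ≤ v j) i)).sum = 0 := by
  induction l with
  | nil => simp
  | cons j l ih =>
    simp only [List.map_cons, List.sum_cons]
    rw [Finset.sum_add_distrib, ih, eA_sum, add_zero]

private theorem D1B_list (v : Fin n → ℝ) (gap : ℝ) (hgap : 0 < gap)
    (hg : ∀ a b, v a < v b → v a + gap ≤ v b) (l : List (Fin n)) {t : SLp p n}
    (ht : IsDg (fun i => (l.map (fun j => eA (Finset.univ.filter fun a => v a ≤ v j) i)).sum) t) :
    ∀ g : SLp p n, RelC v (1 / gap) g (t * g * t⁻¹) := by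
  induction l generalizing t with
  | nil =>
    intro g
    have h1 : t = 1 := dg_unique ht (by simpa using D1B_one)
    rw [h1, one_mul, inv_one, mul_one]
    exact RelC_refl _ _ _
  | cons j l ih =>
    intro g
    obtain ⟨t1, ht1⟩ := dg_exists (p := p) (eA (Finset.univ.filter fun a => v a ≤ v j)) (eA_sum _)
    obtain ⟨t2, ht2⟩ := dg_exists (p := p)
      (fun i => (l.map (fun j => eA (Finset.univ.filter fun a => v a ≤ v j) i)).sum) (D1B_sum v l)
    have h1 : t = t1 * t2 := by
      refine dg_unique ht ?_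
      have := dg_mul ht1 ht2
      simpa only [List.map_cons, List.sum_cons] using this
    have h2 : t * g * t⁻¹ = t1 * (t2 * g * t2⁻¹) * t1⁻¹ := by
      rw [h1, _root_.mul_inv_rev]
      simp only [mul_assoc]
    rw [h2]
    refine RelC_trans (ih ht2 g) (D1_two v _ (v j) gap hgap ?_ ?_ ht1 _)
    · intro i hi
      rw [Finset.mem_filter] at hi
      exact hi.2
    · intro i hi
      refine hg j i ?_
      by_contra h3
      exact hi (Finset.mem_filter.mpr ⟨Finset.mem_univ _, not_lt.mp h3⟩)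

theorem D1 (p : ℕ) [Fact p.Prime] (v : Fin n → ℝ) : ∃ c : ℝ, 0 < c ∧
    ∀ t : SLp p n, IsDg (e0 v) t → ∀ (M : ℕ) (g : SLp p n), RelC v c g (t ^ M * g * (t ^ M)⁻¹) := by
  obtain ⟨gap, hgap, hg⟩ := D1B_gap v
  refine ⟨1 / gap, by positivity, ?_⟩
  intro t ht
  have h1 : ∀ g : SLp p n, RelC v (1 / gap) g (t * g * t⁻¹) := by
    refine D1B_list v gap hgap hg (List.finRange n) ?_
    intro i j
    rw [ht i j]
    have : e0 v i = ((List.finRange n).map (fun j => eA (Finset.univ.filter fun a => v a ≤ v j) i)).sum := by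
      unfold e0
      rw [Fin.sum_univ_def]
    rw [this]
  intro M
  induction M with
  | zero =>
    intro g
    rw [pow_zero, one_mul, inv_one, mul_one]
    exact RelC_refl _ _ _
  | succ M ih =>
    intro g
    have h2 : t ^ (M + 1) * g * (t ^ (M + 1))⁻¹ = t * (t ^ M * g * (t ^ M)⁻¹) * t⁻¹ := by
      rw [pow_succ', _root_.mul_inv_rev]
      simp only [mul_assoc]
    rw [h2]
    exact RelC_trans (ih g) (h1 _)

theorem om_mono {v : Fin n → ℝ} {t : SLp p n} (ht : IsDg (e0 v) t) {M M' : ℕ} (h : M ≤ M')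
    (g : SLp p n) : Om v (t ^ M * g * (t ^ M)⁻¹) ≤ Om v (t ^ M' * g * (t ^ M')⁻¹) := by
  obtain ⟨c, hc, h1⟩ := D1 p v
  obtain ⟨k, rfl⟩ := Nat.exists_eq_add_of_le h
  have h2 : t ^ (M + k) * g * (t ^ (M + k))⁻¹ = t ^ k * (t ^ M * g * (t ^ M)⁻¹) * (t ^ k)⁻¹ := by
    rw [add_comm, pow_add, _root_.mul_inv_rev]
    simp only [mul_assoc]
  rw [h2]
  exact RelC_le hc (h1 t ht k _)

end

end Pool.Agent.Lib.MP_f399a8_nt.S
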