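import Pool.Agent.Lib.MP_f399a8_ntS.P1B
import Pool.Agent.Lib.MP_f399a8_ntS.BruA

/-!
# Limits under the contraction `t`

Here `t` is diagonal with exponents `e0 v` and `π` sorts `v`.

PROOF of `om_lim`.  `t^M * w * (t^M)⁻¹ = w`: entry `(i, σ i)` is multiplied by
`p ^ (M * (e i - e (σ i))) = 1` (`e0_eq`; `dg_pow_conj`).  So
`t^M * (w * u) * (t^M)⁻¹ = w * u_M`, `u_M = t^M * u * (t^M)⁻¹`, with entries
`p ^ (M * (e i - e j)) * u i j`.  Let `uL` be the matrix with `uL i j = u i j` if `v i = v j` and `0` otherwise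
(`1` on the diagonal).  It is in `U (Tie v)`: for `i ≠ j`, `v i = v j`, `u i j ≠ 0` implies `π i < π j`, so
`j < i` (`IsSorted`).  [Determinant: it is lower triangular with unit diagonal.]  Entries with `v i ≠ v j` and
`u i j ≠ 0` have `π i < π j`, so `v i < v j`, `e j < e i` (`e0_lt`) and tend to `0`; so `u_M → uL` and
`uL⁻¹ * u_M → 1`, thus `uL⁻¹ * u_M ∈ Kp` for `M ≥ M0` (`km_nhds_mul`, or bound the entries directly).  Then
`Om v (w * u_M) = Om v (w * uL)` (`om_right`) `= Om v (w * uL * w⁻¹)` (`mon_Kp`).  By `U_mon_conj`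
`w * uL * w⁻¹ ∈ U R` with `R i j := Tie v (σ i) (σ j)`, which is a strict order; it implies `v i = v j`
(`v (σ i) = v i`).  By `lu` with `ℓ = Fin.revPerm`: `w * uL * w⁻¹ = y * z` with `y` supported in `i < j` (so
`y ∈ Bp`, unipotent) and `z` supported in `R i j ∧ j < i`, so `z ∈ U (Tie v)`.  `om_unip`, `om_tie`:
`Om v (y * z) = Om v z = 1`.
-/

namespace Pool.Agent.Lib.MP_f399a8_nt.S

open Matrix Filter Topology

variable {p : ℕ} [Fact p.Prime] {n : ℕ}

/-- the part of `u` with equal slopes -/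
theorem D2A_uL {v : Fin n → ℝ} {π : Equiv.Perm (Fin n)} (hπ : IsSorted v π) {u : SLp p n}
    (hu : u ∈ U p (Ord π)) :
    ∃ uL : SLp p n, uL ∈ U p (Tie v) ∧ (∀ i j, v i = v j → uL.1 i j = u.1 i j) ∧
      ∀ i j, v i ≠ v j → uL.1 i j = 0 := by
  classical
  have h1 : ∀ i j, v i = v j → ¬ j < i → u.1 i j = (1 : Matrix (Fin n) (Fin n) ℚ_[p]) i j := by
    intro i j hv hij
    refine hu i j fun h => ?_
    rcases (hπ i j).1 h with h | h
    · exact absurd hv (ne_of_lt h)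
    · exact hij h.2
  let A : Matrix (Fin n) (Fin n) ℚ_[p] := fun i j => if v i = v j then u.1 i j else 0
  have hA : A.det = 1 := by
    rw [Matrix.det_of_isLowerTriangular A]
    · refine Finset.prod_eq_one fun i _ => ?_
      show (if v i = v i then u.1 i i else 0) = 1
      rw [if_pos rfl, h1 i i rfl (lt_irrefl i), Matrix.one_apply_eq]
    · intro i j hij
      have hij' : i < j := hij
      show (if v i = v j then u.1 i j else 0) = 0
      by_cases h : v i = v j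
      · rw [if_pos h, h1 i j h (not_lt.2 hij'.le), Matrix.one_apply_ne (ne_of_lt hij')]
      · rw [if_neg h]
  refine ⟨⟨A, hA⟩, ?_, ?_, ?_⟩
  · intro i j hij
    show (if v i = v j then u.1 i j else 0) = _
    by_cases h : v i = v j
    · rw [if_pos h]
      exact h1 i j h fun h2 => hij ⟨h2, h⟩
    · rw [if_neg h, Matrix.one_apply_ne]
      rintro rfl
      exact h rfl
  · intro i j h
    show (if v i = v j then u.1 i j else 0) = _
    rw [if_pos h]
  · intro i j h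
    show (if v i = v j then u.1 i j else 0) = _
    rw [if_neg h]

/-- the entries of an element are bounded -/
theorem D2A_bdd (x : SLp p n) : ∃ A : ℝ, 1 ≤ A ∧ ∀ i j, ‖x.1 i j‖ ≤ A := by
  refine ⟨1 + ∑ i, ∑ j, ‖x.1 i j‖, ?_, fun i j => ?_⟩
  · have : 0 ≤ ∑ i, ∑ j, ‖x.1 i j‖ :=
      Finset.sum_nonneg fun i _ => Finset.sum_nonneg fun j _ => norm_nonneg _
    linarith
  · have h1 : ‖x.1 i j‖ ≤ ∑ j, ‖x.1 i j‖ :=
      Finset.single_le_sum (f := fun j => ‖x.1 i j‖) (fun j _ => norm_nonneg _) (Finset.mem_univ j)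
    have h2 : ∑ j, ‖x.1 i j‖ ≤ ∑ i, ∑ j, ‖x.1 i j‖ :=
      Finset.single_le_sum (f := fun i => ∑ j, ‖x.1 i j‖)
        (fun i _ => Finset.sum_nonneg fun j _ => norm_nonneg _) (Finset.mem_univ i)
    linarith

/-- `Om` at the limit point -/
theorem D2A_lim {v : Fin n → ℝ} {σ : Equiv.Perm (Fin n)} {w : SLp p n} (hw : IsMon σ w)
    (hσ : ∀ i, v (σ i) = v i) {uL : SLp p n} (huL : uL ∈ U p (Tie v)) :
    Om v (w * uL) = 1 := by
  have h1 : Om v (w * uL) = Om v (w * uL * w⁻¹) :=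
    (om_right v ((Kp p n).inv_mem (mon_Kp hw)) (w * uL)).symm
  rw [h1]
  have hR : SO (fun i j => Tie v (σ i) (σ j)) :=
    ⟨fun i => (so_Tie v).irr _, fun i j k => (so_Tie v).tr _ _ _⟩
  obtain ⟨y, hy, z, hz, hyz, -, -⟩ := lu hR Fin.revPerm (U_mon_conj hw huL)
  rw [hyz]
  have hyB : y ∈ Bp p n := by
    rw [mem_Bp]
    intro i j hij
    rw [hy i j, Matrix.one_apply_ne (ne_of_gt hij)]
    rintro ⟨-, h⟩
    exact lt_asymm hij (Fin.rev_lt_rev.1 h)
  have hy1 : ∀ i, y.1 i i = 1 := by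
    intro i
    rw [hy i i (fun h => hR.irr i h.1), Matrix.one_apply_eq]
  rw [om_unip v hyB hy1]
  refine om_tie fun i j hij => hz i j ?_
  rintro ⟨h2, h3⟩
  refine hij ⟨Fin.rev_lt_rev.1 h3, ?_⟩
  rw [← hσ i, ← hσ j]
  exact h2.2

theorem om_lim {v : Fin n → ℝ} {π : Equiv.Perm (Fin n)} (hπ : IsSorted v π) {t : SLp p n}
    (ht : IsDg (e0 v) t) {σ : Equiv.Perm (Fin n)} {w : SLp p n} (hw : IsMon σ w)
    (hσ : ∀ i, v (σ i) = v i) {u : SLp p n} (hu : u ∈ U p (Ord π)) :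
    ∃ M0 : ℕ, ∀ M ≥ M0, Om v (t ^ M * (w * u) * (t ^ M)⁻¹) = 1 := by
  obtain ⟨uL, huL, hL1, hL2⟩ := D2A_uL hπ hu
  obtain ⟨A, hA1, hA⟩ := D2A_bdd uL⁻¹
  obtain ⟨B, hB1, hB⟩ := D2A_bdd u
  have hp1 : (1 : ℝ) < p := by exact_mod_cast (Fact.out : p.Prime).one_lt
  have hp0 : (0 : ℝ) < p := by linarith
  obtain ⟨M0, hM0⟩ := pow_unbounded_of_one_lt (A * B) hp1
  refine ⟨M0, fun M hM => ?_⟩
  have hABM : A * B ≤ (p : ℝ) ^ M := hM0.le.trans (pow_le_pow_right₀ hp1.le hM)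
  -- conjugation of `w`
  have h1 : t ^ M * w * (t ^ M)⁻¹ = w := by
    apply Matrix.SpecialLinearGroup.ext
    intro i j
    have h2 := dg_pow_conj ht M w i j
    rw [show (t ^ M * w * (t ^ M)⁻¹ : SLp p n) i j = (t ^ M * w * (t ^ M)⁻¹).1 i j from rfl, h2]
    by_cases hj : j = σ i
    · have h3 : e0 v i = e0 v j := e0_eq (by rw [hj, hσ])
      rw [h3, sub_self, mul_zero, zpow_zero, one_mul]
    · rw [(hw i j).2 hj, mul_zero]
  have h2 : t ^ M * (w * u) * (t ^ M)⁻¹ =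
      w * uL * (uL⁻¹ * (t ^ M * u * (t ^ M)⁻¹)) := by
    calc t ^ M * (w * u) * (t ^ M)⁻¹ = (t ^ M * w * (t ^ M)⁻¹) * (t ^ M * u * (t ^ M)⁻¹) := by group
      _ = w * (t ^ M * u * (t ^ M)⁻¹) := by rw [h1]
      _ = _ := by group
  rw [h2, om_right v ?_ (w * uL), D2A_lim hw hσ huL]
  -- the quotient is integral
  set uM : SLp p n := t ^ M * u * (t ^ M)⁻¹ with huM
  have h3 : ∀ i j, ‖uM.1 i j - uL.1 i j‖ ≤ A⁻¹ := by
    intro i j
    have h4 : uM.1 i j = (p : ℚ_[p]) ^ ((M : ℤ) * (e0 v i - e0 v j)) * u.1 i j :=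
      dg_pow_conj ht M u i j
    by_cases hv : v i = v j
    · rw [h4, hL1 i j hv, e0_eq hv, sub_self, mul_zero, zpow_zero, one_mul, sub_self, norm_zero]
      positivity
    · rw [h4, hL2 i j hv, sub_zero]
      by_cases hO : π i < π j
      · have h5 : e0 v j < e0 v i := by
          rcases (hπ i j).1 hO with h | h
          · exact e0_lt h
          · exact absurd h.1 hv
        rw [norm_mul, Padic.norm_p_zpow]
        have h6 : (p : ℝ) ^ (-((M : ℤ) * (e0 v i - e0 v j))) ≤ ((p : ℝ) ^ M)⁻¹ := by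
          rw [← zpow_natCast, ← _root_.zpow_neg]
          refine zpow_le_zpow_right₀ hp1.le ?_
          have h7 : (1 : ℤ) ≤ e0 v i - e0 v j := by linarith
          have h8 : (0 : ℤ) ≤ (M : ℤ) := Int.natCast_nonneg M
          nlinarith
        have h9 : (0 : ℝ) < (p : ℝ) ^ M := by positivity
        calc (p : ℝ) ^ (-((M : ℤ) * (e0 v i - e0 v j))) * ‖u.1 i j‖
            ≤ ((p : ℝ) ^ M)⁻¹ * B :=
              mul_le_mul h6 (hB i j) (norm_nonneg _) (by positivity)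
          _ ≤ A⁻¹ := by
              have hA0 : 0 < A := by linarith
              rw [inv_mul_le_iff₀ h9, ← div_eq_mul_inv, le_div_iff₀ hA0]
              linarith
      · rw [hu i j hO, Matrix.one_apply_ne (by rintro rfl; exact hv rfl), mul_zero, norm_zero]
        positivity
  rw [mem_Kp]
  intro i j
  have h5 : (uL⁻¹ * uM).1 = 1 + (uL⁻¹).1 * (uM.1 - uL.1) := by
    have h6 : (uL⁻¹).1 * uL.1 = 1 := by
      rw [← Matrix.SpecialLinearGroup.coe_mul, inv_mul_cancel, Matrix.SpecialLinearGroup.coe_one]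
    rw [mul_sub, h6]
    show (uL⁻¹).1 * uM.1 = _
    abel
  rw [h5, Matrix.add_apply]
  refine (IsUltrametricDist.norm_add_le_max _ _).trans (max_le (one_norm_le i j) ?_)
  have h7 := mulmat_norm_le (uL⁻¹).1 (uM.1 - uL.1) (by linarith : (0 : ℝ) ≤ A)
    (by positivity : (0 : ℝ) ≤ A⁻¹) hA h3 i j
  rwa [mul_inv_cancel₀ (by linarith)] at h7

end Pool.Agent.Lib.MP_f399a8_nt.S
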