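import Pool.Agent.Lib.MP_f399a8_ntS.D2A

/-!
# Points where `Om` stays bounded under the contraction

PROOF.  By `D1` (constant `c`) with `g = x`, `g' = x_M := t^M * x * (t^M)⁻¹`:
`dl x_M i ≤ dl x i * (A / Om v x) ^ c` and `dl x i ≤ dl x_M i * (A / Om v x) ^ c` (note
`1 ≤ Om v x_M / Om v x ≤ A / Om v x` by `RelC_le`).  So there is `B ≥ 1` with `B⁻¹ ≤ dl x_M i ≤ B` for all
`M`, `i`.  Bruhat: `x = b * w * u` with `u ∈ U (Ord π)`.  `x_M = (t^M b t^-M) * (t^M w t^-M) * (t^M u t^-M)`.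
`u_M := t^M u t^-M` has entries of norm `≤ A'` := `max ‖u i j‖` (nonzero entries: `π i ≤ π j`, so `v i ≤ v j`,
`e j ≤ e i`).  `t^M w t^-M = s_M * w` where `s_M` is diagonal with entries `p ^ (M * (e i - e (σ i)))`
(`dg_pow_conj`; use `s_M := t^M * (w * (t^M)⁻¹ * w⁻¹)`, diagonal).  So
`dl x_M i = ‖b i i‖ * p ^ (-M (e i - e (σ i))) * dl (w * u_M) i` (`dl_left`; the diagonal of `t^M b t^-M` is the one of
`b`).  The elements `w * u_M` are in a compact set `{∀ i j, ‖· i j‖ ≤ A'}` on which `dl · i` is bounded above and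
below (apply `om_bdd` with `v = Pi.single i 1`: `Om (Pi.single i 1) x = dl x i`).  Hence
`p ^ (-M (e i - e (σ i)))` is bounded above and below in `M`, so `e0 v i = e0 v (σ i)`, and then
`v i = v (σ i)` (`e0_lt`).
-/

namespace Pool.Agent.Lib.MP_f399a8_nt.S

open Matrix Filter Topology

variable {p : ℕ} [Fact p.Prime] {n : ℕ}

theorem D2B_mon_dg {e : Fin n → ℤ} {y : SLp p n} (hy : IsDg e y) {σ : Equiv.Perm (Fin n)}
    {w : SLp p n} (hw : IsMon σ w) : IsDg (fun i => e (σ i)) (w * y * w⁻¹) := by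
  intro i j
  rw [mon_conj hw, hy]
  by_cases hij : i = j
  · subst hij
    rw [if_pos rfl, if_pos rfl]
    rcases (hw i (σ i)).1 rfl with h1 | h1
    · rw [h1]
      ring
    · rw [h1]
      ring
  · rw [if_neg hij, if_neg (fun h => hij (σ.injective h)), mul_zero]

theorem D2B_pow (q : ℝ) (k : ℤ) (M : ℕ) (m : ℤ) (hm : m = -k * (M : ℤ)) :
    q ^ m = (q ^ (-k)) ^ M := by
  rw [hm, _root_.zpow_mul, zpow_natCast]

theorem D2B_int (q : ℝ) (hq : 1 < q) (k : ℤ) (C₁ C₂ : ℝ) (hC : 0 < C₂)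
    (h : ∀ M : ℕ, C₂ ≤ (q ^ (-k)) ^ M ∧ (q ^ (-k)) ^ M ≤ C₁) : k = 0 := by
  have hq0 : 0 < q := by linarith
  have h1 : ¬ q ^ (-k) < 1 := by
    intro h2
    obtain ⟨M, hM⟩ := exists_pow_lt_of_lt_one hC h2
    exact absurd (h M).1 (not_le.mpr hM)
  have h2 : ¬ 1 < q ^ (-k) := by
    intro h3
    obtain ⟨M, hM⟩ := pow_unbounded_of_one_lt C₁ h3
    exact absurd (h M).2 (not_le.mpr hM)
  have h3 : q ^ (-k) = 1 := le_antisymm (not_lt.mp h2) (not_lt.mp h1)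
  have h4 := (zpow_eq_one_iff_right₀ hq0.le hq.ne').mp h3
  omega

theorem D2 {v : Fin n → ℝ} {π : Equiv.Perm (Fin n)} (hπ : IsSorted v π) {t : SLp p n}
    (ht : IsDg (e0 v) t) (x : SLp p n) (A : ℝ)
    (h : ∀ M : ℕ, Om v (t ^ M * x * (t ^ M)⁻¹) ≤ A) :
    ∃ b ∈ Bp p n, ∃ σ : Equiv.Perm (Fin n), ∃ w : SLp p n, IsMon σ w ∧ (∀ i, v (σ i) = v i) ∧
      ∃ u ∈ U p (Ord π), x = b * w * u := by
  classical
  obtain ⟨c, hc, hD1⟩ := D1 p v
  obtain ⟨b, hb, σ, w, hw, u, hu, hx⟩ := bruhat π x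
  refine ⟨b, hb, σ, w, hw, ?_, u, hu, hx⟩
  have hp1 : (1 : ℝ) < p := by exact_mod_cast (Fact.out : p.Prime).one_lt
  -- bounds for `dl x_M`
  have hOx := om_pos v x
  obtain ⟨R, hR⟩ : ∃ R, R = (A / Om v x) ^ c := ⟨_, rfl⟩
  have hratio : ∀ M : ℕ, 1 ≤ Om v (t ^ M * x * (t ^ M)⁻¹) / Om v x ∧
      Om v (t ^ M * x * (t ^ M)⁻¹) / Om v x ≤ A / Om v x := by
    intro M
    refine ⟨?_, div_le_div_of_nonneg_right (h M) hOx.le⟩
    rw [one_le_div hOx]
    exact RelC_le hc (hD1 t ht M x)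
  have hR1 : 1 ≤ R := by
    rw [hR]
    exact Real.one_le_rpow ((hratio 0).1.trans (hratio 0).2) hc.le
  have hrc : ∀ M : ℕ, (Om v (t ^ M * x * (t ^ M)⁻¹) / Om v x) ^ c ≤ R := by
    intro M
    rw [hR]
    exact Real.rpow_le_rpow (zero_le_one.trans (hratio M).1) (hratio M).2 hc.le
  have hup : ∀ (M : ℕ) (i : Fin n), dl (t ^ M * x * (t ^ M)⁻¹) i ≤ dl x i * R := by
    intro M i
    exact ((hD1 t ht M x) i).1.trans (mul_le_mul_of_nonneg_left (hrc M) (dl_pos x i).le)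
  have hlo : ∀ (M : ℕ) (i : Fin n), dl x i ≤ dl (t ^ M * x * (t ^ M)⁻¹) i * R := by
    intro M i
    exact ((hD1 t ht M x) i).2.trans (mul_le_mul_of_nonneg_left (hrc M) (dl_pos _ i).le)
  -- the matrix `u_M`
  obtain ⟨A', hA'0, hA'⟩ : ∃ A' : ℝ, 0 ≤ A' ∧ ∀ i j, ‖u.1 i j‖ ≤ A' := by
    refine ⟨∑ i, ∑ j, ‖u.1 i j‖, by positivity, fun i j => ?_⟩
    have h1 : ‖u.1 i j‖ ≤ ∑ j', ‖u.1 i j'‖ :=
      Finset.single_le_sum (f := fun j' => ‖u.1 i j'‖) (fun _ _ => norm_nonneg _)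
        (Finset.mem_univ j)
    exact h1.trans (Finset.single_le_sum (f := fun i' => ∑ j', ‖u.1 i' j'‖)
      (fun _ _ => Finset.sum_nonneg fun _ _ => norm_nonneg _) (Finset.mem_univ i))
  have huM : ∀ (M : ℕ) (i j : Fin n), ‖(t ^ M * u * (t ^ M)⁻¹).1 i j‖ ≤ A' := by
    intro M i j
    rw [dg_pow_conj ht, norm_mul, Padic.norm_p_zpow]
    by_cases h0 : u.1 i j = 0
    · rw [h0, norm_zero, mul_zero]
      exact hA'0
    · have hij : e0 v j ≤ e0 v i := by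
        by_cases hij : i = j
        · rw [hij]
        · have h1 : Ord π i j := by
            by_contra h2
            exact h0 (U_zero hu hij h2)
          rcases (hπ i j).mp h1 with h3 | h3
          · exact (e0_lt h3).le
          · exact (e0_eq h3.1).ge
      have h2 : (p : ℝ) ^ (-((M : ℤ) * (e0 v i - e0 v j))) ≤ 1 := by
        refine zpow_le_one_of_nonpos₀ hp1.le ?_
        have := mul_nonneg (Int.natCast_nonneg M) (sub_nonneg.mpr hij)
        linarith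
      calc (p : ℝ) ^ (-((M : ℤ) * (e0 v i - e0 v j))) * ‖u.1 i j‖ ≤ 1 * ‖u.1 i j‖ :=
            mul_le_mul_of_nonneg_right h2 (norm_nonneg _)
        _ ≤ A' := by
          rw [one_mul]
          exact hA' i j
  have hwuM : ∀ (M : ℕ) (i j : Fin n), ‖(w * (t ^ M * u * (t ^ M)⁻¹)).1 i j‖ ≤ A' := by
    intro M i j
    have h1 := mulmat_norm_le w.1 (t ^ M * u * (t ^ M)⁻¹).1 zero_le_one hA'0 (mon_Kp hw) (huM M) i j
    rw [one_mul] at h1
    exact h1
  intro i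
  obtain ⟨B, hB0, hB⟩ := om_bdd p (Pi.single i 1) A'
  have hOdl : ∀ y : SLp p n, Om (Pi.single i 1) y = dl y i := by
    intro y
    unfold Om
    rw [Finset.prod_eq_single i]
    · rw [Pi.single_eq_same, Real.rpow_one]
    · intro j _ hj
      rw [Pi.single_eq_of_ne hj, Real.rpow_zero]
    · intro h0
      exact absurd (Finset.mem_univ i) h0
  have hbi : 0 < ‖b.1 i i‖ := norm_pos_iff.mpr ((bp_diag hb).1 i)
  have hdl : ∀ M : ℕ, dl (t ^ M * x * (t ^ M)⁻¹) i =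
      ‖b.1 i i‖ * (((p : ℝ) ^ (-(e0 v i - e0 v (σ i)))) ^ M *
        dl (w * (t ^ M * u * (t ^ M)⁻¹)) i) := by
    intro M
    have hs : IsDg (fun a => (M : ℤ) * e0 v a + -((M : ℤ) * e0 v (σ a)))
        (t ^ M * (w * (t ^ M)⁻¹ * w⁻¹)) :=
      dg_mul (dg_pow ht M) (D2B_mon_dg (dg_inv (dg_pow ht M)) hw)
    have h1 : t ^ M * x * (t ^ M)⁻¹ = (t ^ M * b * (t ^ M)⁻¹) *
        ((t ^ M * (w * (t ^ M)⁻¹ * w⁻¹)) * (w * (t ^ M * u * (t ^ M)⁻¹))) := by
      rw [hx]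
      group
    have htM : t ^ M ∈ Bp p n := dg_Bt (dg_pow ht M) _
    have hbM : t ^ M * b * (t ^ M)⁻¹ ∈ Bp p n := mul_mem (mul_mem htM hb) (inv_mem htM)
    rw [h1, dl_left hbM, dl_left (dg_Bt hs _), dg_pow_conj ht, sub_self, mul_zero, zpow_zero,
      one_mul, hs i i, if_pos rfl, Padic.norm_p_zpow,
      D2B_pow (p : ℝ) (e0 v i - e0 v (σ i)) M _ (by ring)]
  have hk := D2B_int (p : ℝ) hp1 (e0 v i - e0 v (σ i)) (dl x i * R * B / ‖b.1 i i‖)
    (dl x i / (R * B * ‖b.1 i i‖)) (by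
      have := dl_pos x i
      positivity) (by
      intro M
      have h1 := hB _ (hwuM M)
      rw [hOdl] at h1
      have h2 := hup M i
      rw [hdl M] at h2
      have h3 := hlo M i
      rw [hdl M] at h3
      have hD := dl_pos (w * (t ^ M * u * (t ^ M)⁻¹)) i
      obtain ⟨D, hDe⟩ : ∃ D, D = dl (w * (t ^ M * u * (t ^ M)⁻¹)) i := ⟨_, rfl⟩
      rw [← hDe] at h1 h2 h3 hD
      obtain ⟨y, hy⟩ : ∃ y, y = ((p : ℝ) ^ (-(e0 v i - e0 v (σ i)))) ^ M := ⟨_, rfl⟩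
      rw [← hy] at h2 h3 ⊢
      have hy0 : 0 < y := by
        rw [hy]
        positivity
      have hR0 : 0 < R := by linarith
      have hBD : 1 ≤ B * D := by
        have h4 := mul_le_mul_of_nonneg_left h1.2 hB0.le
        rw [mul_inv_cancel₀ hB0.ne'] at h4
        exact h4
      constructor
      · rw [div_le_iff₀ (by positivity)]
        calc dl x i ≤ ‖b.1 i i‖ * (y * D) * R := h3
          _ ≤ ‖b.1 i i‖ * (y * B) * R := by
            have := h1.1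
            gcongr
          _ = y * (R * B * ‖b.1 i i‖) := by ring
      · rw [le_div_iff₀ hbi]
        calc y * ‖b.1 i i‖ = ‖b.1 i i‖ * y * 1 := by ring
          _ ≤ ‖b.1 i i‖ * y * (B * D) := mul_le_mul_of_nonneg_left hBD (by positivity)
          _ = (‖b.1 i i‖ * (y * D)) * B := by ring
          _ ≤ (dl x i * R) * B := mul_le_mul_of_nonneg_right h2 hB0.le)
  rcases lt_trichotomy (v (σ i)) (v i) with h1 | h1 | h1
  · have := e0_lt h1
    omega
  · exact h1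
  · have := e0_lt h1
    omega

end Pool.Agent.Lib.MP_f399a8_nt.S
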