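import Pool.Agent.Lib.MP_f399a8_ntS.GfB

/-!
# Exactness: from contracted box functions to the box function

PROOF.  Let `G = Gf χ π (indK p n C)`; it is in the principal series (`gf_ps`, `indK_cont`), so by
`hW.closed` it suffices to find for `ε > 0` an element of `W` within `ε` of `G` on `Kp` (`IsIntegral x` is
`x ∈ Kp p n`).  Take `M`, `w ∈ W` for `ε`.  Let `L = U (Dr π) ∩ Kp` and
`H = {d ∈ U (Dr π) | (t^M)⁻¹ * d * t^M ∈ Kp}` (subgroups of `SLp p n`).  `H ≤ L`: for `d ∈ H`, the entry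
`(i, j)`, `Dr π i j`, satisfies `‖p ^ (M (e j - e i)) * d i j‖ ≤ 1` and `e j ≤ e i`, so `‖d i j‖ ≤ 1`
(`dg_pow_conj'`).  `H` contains `L ∩ Km m` for `m` large: if `‖d i j‖ ≤ p ^ (-m)` for `i ≠ j` with
`m ≥ M * max (e i - e j)` then the conjugate is integral.  `coset_reps`: a finite set `S ⊆ L` such that every
`d ∈ L` has exactly one `s ∈ S` with `d * s⁻¹ ∈ H`.  Claim: `G x = ∑ s ∈ S, G ((t^M)⁻¹ * (x * s⁻¹) * t^M)` for all
`x`.  By `gf_conj` the right side is `∑ s, Gf χ π (fun y => indK ((t^M)⁻¹ * y * t^M)) (x * s⁻¹)`, which by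
`gf_right` (`s⁻¹ ∈ U (Dr π)`) and `gf_sum` is `Gf χ π Ψ x`, `Ψ y = ∑ s, indK ((t^M)⁻¹ * (y * s⁻¹) * t^M)`.  For
`d ∈ U (Dr π)`: if `d ∈ L` exactly one term is `1`; if `d ∉ Kp` then no term is `1`, since
`d * s⁻¹ ∈ H ≤ L` would give `d ∈ L`.  So `Ψ d = indK d` and `gf_congr` applies.
For `k ∈ Kp`, `k * s⁻¹ ∈ Kp`, so `‖G ((t^M)⁻¹ * (k * s⁻¹) * t^M) - w (k * s⁻¹)‖ ≤ ε`, and
`∑ s, w (· * s⁻¹) ∈ W` (`hW.trans`, `hW.add`; induction over the finset, `hW.zero`).  The ultrametric inequality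
(`IsUltrametricDist.norm_sum_le_of_forall_le_of_nonneg` or induction) gives the claim.
(`t ^ M` is diagonal: `dg_pow`.)
-/

namespace Pool.Agent.Lib.MP_f399a8_nt.S

open Matrix Filter Topology

variable {p : ℕ} [Fact p.Prime] {n : ℕ} {C : Type*} [NormedField C] [IsUltrametricDist C]

theorem sub_sum_mem {χ : Tor p n →* Cˣ} {W : Set (SLp p n → C)} (hW : IsClosedSubrep χ W)
    {ι : Type*} (s : Finset ι) (f : ι → SLp p n → C) (hf : ∀ i ∈ s, f i ∈ W) :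
    (fun x => ∑ i ∈ s, f i x) ∈ W := by
  classical
  induction s using Finset.induction_on with
  | empty =>
    simp only [Finset.sum_empty]
    exact hW.zero
  | insert a s ha ih =>
    simp only [Finset.sum_insert ha]
    exact hW.add _ (hf a (Finset.mem_insert_self _ _)) _
      (ih fun i hi => hf i (Finset.mem_insert_of_mem hi))

theorem ExA_norm_zpow (p : ℕ) [Fact p.Prime] (k : ℤ) : ‖(p : ℚ_[p]) ^ k‖ = (p : ℝ) ^ (-k) :=
  Padic.norm_p_zpow k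

theorem ExA_bound (e : Fin n → ℤ) (M : ℕ) : ∃ m : ℕ, ∀ i j, (M : ℤ) * (e i - e j) ≤ m := by
  refine ⟨∑ i, ∑ j, ((M : ℤ) * (e i - e j)).toNat, fun i j => ?_⟩
  refine (Int.self_le_toNat _).trans ?_
  have h1 : ((M : ℤ) * (e i - e j)).toNat ≤ ∑ j, ((M : ℤ) * (e i - e j)).toNat :=
    Finset.single_le_sum (f := fun j => ((M : ℤ) * (e i - e j)).toNat) (fun _ _ => Nat.zero_le _)
      (Finset.mem_univ j)
  have h2 : ∑ j, ((M : ℤ) * (e i - e j)).toNat ≤ ∑ i, ∑ j, ((M : ℤ) * (e i - e j)).toNat :=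
    Finset.single_le_sum (f := fun i => ∑ j, ((M : ℤ) * (e i - e j)).toNat)
      (fun _ _ => Nat.zero_le _) (Finset.mem_univ i)
  exact_mod_cast h1.trans h2

theorem exact_box {χ : Tor p n →* Cˣ} (hχ : Continuous χ) {v : Fin n → ℝ} (hs : Slope χ v)
    {π : Equiv.Perm (Fin n)} (hg : Good v π) {W : Set (SLp p n → C)} (hW : IsClosedSubrep χ W)
    {e : Fin n → ℤ} {t : SLp p n} (ht : IsDg e t) (he : ∀ i j, Dr π i j → e j ≤ e i)
    (h : ∀ ε : ℝ, 0 < ε → ∃ M : ℕ, ∃ w ∈ W, ∀ k ∈ Kp p n,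
      ‖Gf χ π (indK p n C) ((t ^ M)⁻¹ * k * t ^ M) - w k‖ ≤ ε) :
    Gf χ π (indK p n C) ∈ W := by
  classical
  have hp1 : (1 : ℝ) ≤ p := by exact_mod_cast (Fact.out : p.Prime).one_lt.le
  have hp0 : (0 : ℝ) < p := lt_of_lt_of_le one_pos hp1
  have hG : IsPS χ (Gf χ π (indK p n C)) := by
    refine gf_ps hχ hs hg (indK_cont p n C) fun d _ hd => ?_
    exact if_neg hd
  refine hW.closed _ hG fun ε hε => ?_
  obtain ⟨M, w, hw, hM⟩ := h ε hε
  have hT : IsDg (fun i => (M : ℤ) * e i) (t ^ M) := dg_pow ht M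
  have hconj : ∀ (x : SLp p n) (i j : Fin n), ‖((t ^ M)⁻¹ * x * t ^ M).1 i j‖ =
      (p : ℝ) ^ ((M : ℤ) * (e i - e j)) * ‖x.1 i j‖ := by
    intro x i j
    rw [dg_pow_conj' ht, norm_mul, ExA_norm_zpow]
    congr 2
    ring
  let L : Subgroup (SLp p n) := US p (Dr π) (so_Dr π) ⊓ Kp p n
  let H : Subgroup (SLp p n) :=
    { carrier := {d | d ∈ U p (Dr π) ∧ (t ^ M)⁻¹ * d * t ^ M ∈ Kp p n}
      mul_mem' := by
        rintro a b ⟨ha, ha'⟩ ⟨hb, hb'⟩
        refine ⟨U_mul (so_Dr π) ha hb, ?_⟩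
        have : (t ^ M)⁻¹ * (a * b) * t ^ M =
            ((t ^ M)⁻¹ * a * t ^ M) * ((t ^ M)⁻¹ * b * t ^ M) := by group
        rw [this]
        exact (Kp p n).mul_mem ha' hb'
      one_mem' := by
        refine ⟨U_one _, ?_⟩
        rw [mul_one, inv_mul_cancel]
        exact (Kp p n).one_mem
      inv_mem' := by
        rintro a ⟨ha, ha'⟩
        refine ⟨U_inv (so_Dr π) ha, ?_⟩
        have : (t ^ M)⁻¹ * a⁻¹ * t ^ M = ((t ^ M)⁻¹ * a * t ^ M)⁻¹ := by group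
        rw [this]
        exact (Kp p n).inv_mem ha' }
  have memH : ∀ x, x ∈ H ↔ x ∈ U p (Dr π) ∧ (t ^ M)⁻¹ * x * t ^ M ∈ Kp p n := fun x => Iff.rfl
  have memL : ∀ x, x ∈ L ↔ x ∈ U p (Dr π) ∧ x ∈ Kp p n := fun x => Iff.rfl
  have hLK : L ≤ Kp p n := inf_le_right
  have hHL : H ≤ L := by
    intro d hd
    obtain ⟨hd1, hd2⟩ := (memH d).1 hd
    refine (memL d).2 ⟨hd1, fun i j => ?_⟩
    by_cases hij : i = j
    · subst hij
      rw [U_diag (so_Dr π) hd1, norm_one]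
    · by_cases hR : Dr π i j
      · have h1 := hd2 i j
        rw [hconj] at h1
        have h2 : (1 : ℝ) ≤ (p : ℝ) ^ ((M : ℤ) * (e i - e j)) :=
          one_le_zpow₀ hp1 (mul_nonneg (Int.natCast_nonneg M) (sub_nonneg.2 (he i j hR)))
        exact (le_mul_of_one_le_left (norm_nonneg _) h2).trans h1
      · rw [U_zero hd1 hij hR, norm_zero]
        exact zero_le_one
  obtain ⟨m, hm⟩ := ExA_bound e M
  have hH : ∀ x ∈ L, x ∈ Km p n m → x ∈ H := by
    intro x hx hxm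
    obtain ⟨hx1, hx2⟩ := (memL x).1 hx
    refine (memH x).2 ⟨hx1, fun i j => ?_⟩
    rw [hconj]
    by_cases hij : i = j
    · subst hij
      rw [U_diag (so_Dr π) hx1, norm_one, sub_self, mul_zero, zpow_zero, mul_one]
    · have h1 := hxm i j
      rw [Matrix.one_apply_ne hij, sub_zero] at h1
      calc (p : ℝ) ^ ((M : ℤ) * (e i - e j)) * ‖x.1 i j‖
          ≤ (p : ℝ) ^ (m : ℤ) * (p : ℝ) ^ (-(m : ℤ)) := by
            apply mul_le_mul (zpow_le_zpow_right₀ hp1 (hm i j)) h1 (norm_nonneg _)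
            exact (zpow_pos hp0 _).le
        _ = 1 := by
            rw [← zpow_add₀ hp0.ne', add_neg_cancel, zpow_zero]
  obtain ⟨S, hS, hSu⟩ := coset_reps hLK hHL hH
  have claim : ∀ x, Gf χ π (indK p n C) x =
      ∑ s ∈ S, Gf χ π (indK p n C) ((t ^ M)⁻¹ * (x * s⁻¹) * t ^ M) := by
    intro x
    have h1 : ∀ s ∈ S, Gf χ π (indK p n C) ((t ^ M)⁻¹ * (x * s⁻¹) * t ^ M) =
        Gf χ π (fun y => indK p n C ((t ^ M)⁻¹ * (y * s⁻¹) * t ^ M)) x := by
      intro s hs'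
      rw [gf_conj _ hT, gf_right _ (U_inv (so_Dr π) ((memL s).1 (hS s hs')).1)]
    rw [Finset.sum_congr rfl h1, ← gf_sum]
    refine gf_congr (fun d hd => ?_) x
    have h2 : ∀ s ∈ S, indK p n C ((t ^ M)⁻¹ * (d * s⁻¹) * t ^ M) =
        if d * s⁻¹ ∈ H then 1 else 0 := by
      intro s hs'
      unfold indK
      refine if_congr ?_ rfl rfl
      rw [memH]
      exact ⟨fun h => ⟨U_mul (so_Dr π) hd (U_inv (so_Dr π) ((memL s).1 (hS s hs')).1), h⟩,
        fun h => h.2⟩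
    rw [Finset.sum_congr rfl h2]
    by_cases hdK : d ∈ Kp p n
    · obtain ⟨s0, ⟨hs0, hs0'⟩, huniq⟩ := hSu d ((memL d).2 ⟨hd, hdK⟩)
      rw [Finset.sum_eq_single s0]
      · rw [if_pos hs0']
        exact if_pos hdK
      · intro s hs' hne
        rw [if_neg]
        intro hmem
        exact hne (huniq s ⟨hs', hmem⟩)
      · intro hns
        exact absurd hs0 hns
    · rw [Finset.sum_eq_zero]
      · exact if_neg hdK
      · intro s hs'
        rw [if_neg]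
        intro hmem
        apply hdK
        have h3 : d * s⁻¹ * s ∈ L := L.mul_mem (hHL hmem) (hS s hs')
        rw [inv_mul_cancel_right] at h3
        exact ((memL d).1 h3).2
  refine ⟨fun x => ∑ s ∈ S, w (x * s⁻¹), sub_sum_mem hW S (fun s x => w (x * s⁻¹))
    (fun s _ => hW.trans s⁻¹ w hw), fun x hx => ?_⟩
  have h4 : Gf χ π (indK p n C) x - ∑ s ∈ S, w (x * s⁻¹) =
      ∑ s ∈ S, (Gf χ π (indK p n C) ((t ^ M)⁻¹ * (x * s⁻¹) * t ^ M) - w (x * s⁻¹)) := by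
    rw [Finset.sum_sub_distrib, ← claim]
  show ‖Gf χ π (indK p n C) x - ∑ s ∈ S, w (x * s⁻¹)‖ ≤ ε
  rw [h4]
  refine IsUltrametricDist.norm_sum_le_of_forall_le_of_nonneg hε.le fun s hs' => ?_
  exact hM _ ((Kp p n).mul_mem hx ((Kp p n).inv_mem ((memL s).1 (hS s hs')).2))

end Pool.Agent.Lib.MP_f399a8_nt.S
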