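import Pool.Agent.Lib.MP_f399a8_ntS.LUb

/-!
# The big cell near `1`

PROOF.  Downward induction on `r : ℕ` from `r = n` to `r = 0`, claim `P r`: there are
`b ∈ Bp ∩ Km m`, `u ∈ U Lo ∩ Km m` and `y ∈ Km m` with `x = b * y * u` and `y i j = 0` for all `i ≠ j`
with `r ≤ i` or `r ≤ j`.  `P n`: `b = u = 1`.  `P (r + 1) → P r`: let `c = y r r`,
`‖c - 1‖ ≤ p ^ (-m) < 1`, so `‖c‖ = 1`.  Let `b' = 1 + ∑_{i < r} (y i r / c) E_{i r}` and
`u' = 1 + ∑_{j < r} (y r j / c) E_{r j}` (unipotent, in `Km m`; they are in `SL_n` since triangular with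
unit diagonal, inverse: change the sign of the off-diagonal entries).  `y' := b'⁻¹ * y * u'⁻¹` has
entries `y' i j = y i j` unless `i ≤ r` and `j ≤ r`; the column `r` above and the row `r` to the left of the
diagonal become zero: `(b'⁻¹ * y) i j = y i j - (y i r / c) * y r j` for `i < r`, which is `0` for `j = r`;
row `r` is unchanged; then multiplication by `u'⁻¹` subtracts `(y r j / c)` times column `r` from
column `j < r`: column `r` of `b'⁻¹ * y` is `c` at `r` and `0` elsewhere, so only the entry `(r, j)` changes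
and becomes `0`.  `y' ∈ Km m` as a product.  Then `x = (b * b') * y' * (u' * u)`.
At `r = 0` `y` is diagonal, hence in `Bp`, and `x = (b * y) * u`.
-/

namespace Pool.Agent.Lib.MP_f399a8_nt.S

open Matrix Filter Topology

variable {p : ℕ} [Fact p.Prime] {n : ℕ}

/-- the elementary step: clear column `r` above and row `r` to the left of the diagonal -/
private theorem LUc_step {m : ℕ} (hm : 1 ≤ m) (y : SLp p n) (hy : y ∈ Km p n m) (r : Fin n)
    (hz : ∀ i j : Fin n, i ≠ j → (r < i ∨ r < j) → y.1 i j = 0) :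
    ∃ b ∈ Bp p n, b ∈ Km p n m ∧ ∃ u ∈ U p (Lo : Fin n → Fin n → Prop), u ∈ Km p n m ∧
      ∀ i j : Fin n, i ≠ j → (r ≤ i ∨ r ≤ j) → (b * y * u).1 i j = 0 := by
  have hp1 : (1 : ℝ) < (p : ℝ) := by exact_mod_cast (Fact.out : p.Prime).one_lt
  have hq : (p : ℝ) ^ (-(m : ℤ)) < 1 := by
    refine zpow_lt_one_of_neg₀ hp1 ?_
    have : (1 : ℤ) ≤ m := by exact_mod_cast hm
    linarith
  have hq0 : (0 : ℝ) ≤ (p : ℝ) ^ (-(m : ℤ)) := by positivity
  have hoff : ∀ i j : Fin n, i ≠ j → ‖y.1 i j‖ ≤ (p : ℝ) ^ (-(m : ℤ)) := by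
    intro i j hij
    have h := hy i j
    rwa [Matrix.one_apply_ne hij, sub_zero] at h
  have hc : 1 ≤ ‖y.1 r r‖ := by
    have h := hy r r
    rw [Matrix.one_apply_eq] at h
    have h2 := IsUltrametricDist.norm_add_le_max (y.1 r r) (1 - y.1 r r)
    rw [add_sub_cancel, norm_one] at h2
    rcases le_max_iff.1 h2 with h3 | h3
    · exact h3
    · rw [norm_sub_rev] at h3
      linarith
  have hc0 : y.1 r r ≠ 0 := by
    intro h
    rw [h, norm_zero] at hc
    linarith
  have hdiv : ∀ a : ℚ_[p], ‖a‖ ≤ (p : ℝ) ^ (-(m : ℤ)) → ‖a / y.1 r r‖ ≤ (p : ℝ) ^ (-(m : ℤ)) := by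
    intro a ha
    rw [norm_div]
    exact (div_le_self (norm_nonneg _) hc).trans ha
  -- the matrices
  let N : Matrix (Fin n) (Fin n) ℚ_[p] := Matrix.of fun i j => if i < r ∧ j = r then y.1 i r / y.1 r r else 0
  let L : Matrix (Fin n) (Fin n) ℚ_[p] := Matrix.of fun i j => if i = r ∧ j < r then y.1 r j / y.1 r r else 0
  have hN : ∀ i j, N i j = if i < r ∧ j = r then y.1 i r / y.1 r r else 0 := fun i j => rfl
  have hL : ∀ i j, L i j = if i = r ∧ j < r then y.1 r j / y.1 r r else 0 := fun i j => rfl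
  have hN1 : (1 - N).det = 1 := by
    have h1 : (1 - N).IsUpperTriangular := by
      intro i j hij
      have hij' : j < i := hij
      rw [Matrix.sub_apply, Matrix.one_apply_ne hij'.ne', hN, if_neg, sub_zero]
      rintro ⟨h1, h2⟩
      rw [h2] at hij'
      exact lt_asymm h1 hij'
    rw [Matrix.det_of_isUpperTriangular h1]
    refine Finset.prod_eq_one fun i _ => ?_
    rw [Matrix.sub_apply, Matrix.one_apply_eq, hN, if_neg, sub_zero]
    rintro ⟨h2, h3⟩
    rw [h3] at h2
    exact lt_irrefl _ h2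
  have hL1 : (1 - L).det = 1 := by
    have h1 : (1 - L).IsLowerTriangular := by
      intro i j hij
      have hij' : i < j := hij
      rw [Matrix.sub_apply, Matrix.one_apply_ne hij'.ne, hL, if_neg, sub_zero]
      rintro ⟨h1, h2⟩
      rw [h1] at hij'
      exact lt_asymm h2 hij'
    rw [Matrix.det_of_isLowerTriangular _ h1]
    refine Finset.prod_eq_one fun i _ => ?_
    rw [Matrix.sub_apply, Matrix.one_apply_eq, hL, if_neg, sub_zero]
    rintro ⟨h2, h3⟩
    rw [h2] at h3
    exact lt_irrefl _ h3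
  have hNy : ∀ i j, ((1 - N) * y.1) i j = y.1 i j - (if i < r then y.1 i r / y.1 r r else 0) * y.1 r j := by
    intro i j
    rw [sub_mul, one_mul, Matrix.sub_apply, Matrix.mul_apply, Finset.sum_eq_single r]
    · rw [hN]
      by_cases h : i < r
      · rw [if_pos ⟨h, rfl⟩, if_pos h]
      · rw [if_neg fun h' => h h'.1, if_neg h]
    · intro k _ hk
      rw [hN, if_neg fun h' => hk h'.2, zero_mul]
    · intro h
      exact absurd (Finset.mem_univ r) h
  have hML : ∀ (A : Matrix (Fin n) (Fin n) ℚ_[p]) (i j : Fin n),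
      (A * (1 - L)) i j = A i j - A i r * (if j < r then y.1 r j / y.1 r r else 0) := by
    intro A i j
    rw [mul_sub, mul_one, Matrix.sub_apply, Matrix.mul_apply, Finset.sum_eq_single r]
    · rw [hL]
      by_cases h : j < r
      · rw [if_pos ⟨rfl, h⟩, if_pos h]
      · rw [if_neg fun h' => h h'.2, if_neg h]
    · intro k _ hk
      rw [hL, if_neg fun h' => hk h'.1, mul_zero]
    · intro h
      exact absurd (Finset.mem_univ r) h
  refine ⟨⟨1 - N, hN1⟩, ?_, ?_, ⟨1 - L, hL1⟩, ?_, ?_, ?_⟩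
  · intro i j hij
    have hij' : j < i := hij
    show (1 - N) i j = 0
    rw [Matrix.sub_apply, Matrix.one_apply_ne hij'.ne', hN, if_neg, sub_zero]
    rintro ⟨h1, h2⟩
    rw [h2] at hij'
    exact lt_asymm h1 hij'
  · intro i j
    show ‖(1 - N) i j - (1 : Matrix (Fin n) (Fin n) ℚ_[p]) i j‖ ≤ _
    rw [Matrix.sub_apply, sub_sub_cancel_left, norm_neg, hN]
    split_ifs with h
    · exact hdiv _ (hoff _ _ h.1.ne)
    · rw [norm_zero]
      exact hq0
  · intro i j hij
    show (1 - L) i j = _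
    rw [Matrix.sub_apply, hL, if_neg, sub_zero]
    rintro ⟨h1, h2⟩
    apply hij
    show j < i
    rw [h1]
    exact h2
  · intro i j
    show ‖(1 - L) i j - (1 : Matrix (Fin n) (Fin n) ℚ_[p]) i j‖ ≤ _
    rw [Matrix.sub_apply, sub_sub_cancel_left, norm_neg, hL]
    split_ifs with h
    · exact hdiv _ (hoff _ _ h.2.ne')
    · rw [norm_zero]
      exact hq0
  · intro i j hij hr
    show ((1 - N) * y.1 * (1 - L)) i j = 0
    rw [hML, hNy, hNy]
    rcases lt_trichotomy i r with h1 | h1 | h1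
    · -- `i < r`, so `r ≤ j`
      have h2 : r ≤ j := by
        rcases hr with h2 | h2
        · exact absurd h1 (not_lt.2 h2)
        · exact h2
      rw [if_pos h1, if_neg (not_lt.2 h2), mul_zero, sub_zero]
      rcases h2.eq_or_lt with h3 | h3
      · rw [← h3, div_mul_cancel₀ _ hc0, sub_self]
      · rw [hz i j hij (Or.inr h3), hz r j h3.ne (Or.inr h3), mul_zero, sub_zero]
    · subst h1
      rw [if_neg (lt_irrefl _), zero_mul, zero_mul, sub_zero, sub_zero]
      rcases lt_trichotomy j i with h2 | h2 | h2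
      · rw [if_pos h2, mul_div_cancel₀ _ hc0, sub_self]
      · exact absurd h2.symm hij
      · rw [if_neg (not_lt.2 h2.le), mul_zero, sub_zero]
        exact hz i j hij (Or.inr h2)
    · rw [if_neg (not_lt.2 h1.le), zero_mul, zero_mul, sub_zero, sub_zero, hz i j hij (Or.inl h1),
        hz i r h1.ne' (Or.inl h1), zero_mul, sub_zero]

private theorem LUc_ind {m : ℕ} (hm : 1 ≤ m) {x : SLp p n} (hx : x ∈ Km p n m) (s : ℕ) (hs : s ≤ n) :
    ∃ b ∈ Bp p n, b ∈ Km p n m ∧ ∃ u ∈ U p (Lo : Fin n → Fin n → Prop), u ∈ Km p n m ∧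
      ∃ y ∈ Km p n m, x = b * y * u ∧
        ∀ i j : Fin n, i ≠ j → (n ≤ i.val + s ∨ n ≤ j.val + s) → y.1 i j = 0 := by
  induction s with
  | zero =>
    refine ⟨1, (Bp p n).one_mem, (Km p n m).one_mem, 1, U_one _, (Km p n m).one_mem, x, hx, ?_, ?_⟩
    · rw [one_mul, mul_one]
    · intro i j _ h
      have h1 := i.2
      have h2 := j.2
      omega
  | succ s ih =>
    obtain ⟨b, hb, hbK, u, hu, huK, y, hy, hxy, hz⟩ := ih (by omega)
    obtain ⟨b', hb', hbK', u', hu', huK', hz'⟩ := LUc_step hm y hy (⟨n - (s + 1), by omega⟩ : Fin n) (by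
      intro i j hij h
      refine hz i j hij ?_
      rcases h with h | h
      · left
        have : n - (s + 1) < i.val := h
        omega
      · right
        have : n - (s + 1) < j.val := h
        omega)
    refine ⟨b * b'⁻¹, (Bp p n).mul_mem hb ((Bp p n).inv_mem hb'),
      (Km p n m).mul_mem hbK ((Km p n m).inv_mem hbK'), u'⁻¹ * u, U_mul so_Lo (U_inv so_Lo hu') hu,
      (Km p n m).mul_mem ((Km p n m).inv_mem huK') huK, b' * y * u',
      (Km p n m).mul_mem ((Km p n m).mul_mem hbK' hy) huK', ?_, ?_⟩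
    · rw [hxy]
      group
    · intro i j hij h
      refine hz' i j hij ?_
      rcases h with h | h
      · left
        show n - (s + 1) ≤ i.val
        omega
      · right
        show n - (s + 1) ≤ j.val
        omega

theorem cell_small {m : ℕ} (hm : 1 ≤ m) {x : SLp p n} (hx : x ∈ Km p n m) :
    ∃ b ∈ Bp p n, ∃ u ∈ U p (Lo : Fin n → Fin n → Prop), x = b * u ∧ b ∈ Km p n m ∧
      u ∈ Km p n m := by
  obtain ⟨b, hb, hbK, u, hu, huK, y, hy, hxy, hz⟩ := LUc_ind hm hx n le_rfl
  refine ⟨b * y, (Bp p n).mul_mem hb ?_, u, hu, hxy, (Km p n m).mul_mem hbK hy, huK⟩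
  intro i j hij
  have hij' : j < i := hij
  exact hz i j hij'.ne' (Or.inl (by omega))

end Pool.Agent.Lib.MP_f399a8_nt.S
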