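import Pool.Agent.Lib.MP_f399a8_ntS.ExA
import Pool.Agent.Lib.MP_f399a8_ntS.AcA
import Pool.Agent.Lib.MP_f399a8_ntS.LUc

/-!
# The reversed order: the box function generates everything

PROOF.  `π i < π j ↔ j < i` for all `i j`, so `Dr π i j ↔ j < i` (`Lo`) and `Fr π` is empty, `U (Fr π) = {1}`.
`G = Gf χ π indK`.  Let `f` be in the principal series, `ε > 0`; by `hW.closed` it is enough to find an element
of `W` within `ε` of `f` on `Kp`.  Let `t1` be diagonal with exponents `ed π`, `M` large, and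
`G_M x = G ((t1^M)⁻¹ * x * t1^M) = cb χ (t1^M)⁻¹ * G (x * t1^M)`, in `W`.  Let
`J = {x ∈ Kp | (t1^M)⁻¹ * x * t1^M ∈ Kp}`, a subgroup of `Kp` containing `Km m` for `m` large
(`dg_pow_conj'`).  Claim: (a) for `x ∈ J` (`M ≥ 1`): `x = b * d` with `b ∈ Bp ∩ Kp`,
`d ∈ U Lo ∩ Km M` and `d ∈ J`, and `G_M x = cb χ b`; (b) for `x ∈ Kp`, `x ∉ J`: `G_M x = 0`.
(a): the entries of `x` below the diagonal have norm `≤ p^(-M)` (they are multiplied by
`p ^ (M (ed j - ed i))`, `ed j - ed i ≤ -1` for `j < i`, `π i < π j`).  So `x` is integral and upper triangular modulo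
`p^M`; its diagonal entries are units (the determinant is a unit and is the product of the diagonal modulo `p`).
LU decomposition: like `cell_small` (downward induction clearing the row `r` left of the diagonal and the column above
it with multipliers `y r j / y r r`; here the column multipliers are only integral), giving `x = b * d` with `b ∈ Bp ∩ Kp`,
`d ∈ U Lo ∩ Km M`.  [This is `cell_iwahori` below; then `d = b⁻¹ * x`, and the conjugate of `b⁻¹ ∈ Bp ∩ Kp` by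
`(t1^M)⁻¹` is integral, so `d ∈ J`.]  `G_M (b * d) = cb χ b * indK ((t1^M)⁻¹ * d * t1^M) = cb χ b`
(`gf_conj`, `gf_eq` with `f = 1`).
(b): if `G_M x ≠ 0` then `x = b * d` (`gf_ne`, `U (Fr π) = {1}`) with `(t1^M)⁻¹ * d * t1^M ∈ Kp`, so `d ∈ Kp` (entries
`d i j = p ^ (M (ed i - ed j)) * ..`), so `b ∈ Kp`, `(t1^M)⁻¹ * b * t1^M ∈ Kp` (upper triangular, `ed i ≤ ed j` for `i ≤ j`),
so `x ∈ J`.
Choose `M` with `‖f (x * y) - f x‖ ≤ ε` for `x ∈ Kp`, `y ∈ Km M` (`unif`).  `coset_reps` for `L = Kp`, `H = J`: `S`.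
`F x = ∑ s ∈ S, f s * G_M (x * s⁻¹) ∈ W`.  For `k ∈ Kp` let `s` be the one with `x = k * s⁻¹ ∈ J`, `x = b * d`:
`F k = f s * cb χ b`, `f k = f (b * (d * s)) = cb χ b * f (d * s)`, `d * s = s * (s⁻¹ * d * s)` with
`s⁻¹ * d * s ∈ Km M` (`km_conj`), `‖cb χ b‖ = 1` (`om_cb`, `om_kp`), so `‖f k - F k‖ ≤ ε`.
-/

namespace Pool.Agent.Lib.MP_f399a8_nt.S

open Matrix Filter Topology

variable {p : ℕ} [Fact p.Prime] {n : ℕ} {C : Type*} [NormedField C] [IsUltrametricDist C]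

omit [IsUltrametricDist C] [NormedField C] in
private theorem FiA_perm {σ : Equiv.Perm (Fin n)} (h : σ ≠ 1) : ∃ i, i < σ i := by
  by_contra hcon
  push Not at hcon
  apply h
  have h1 : ∑ i, ((σ i : Fin n) : ℕ) = ∑ i : Fin n, (i : ℕ) := Equiv.sum_comp σ (fun i : Fin n => (i : ℕ))
  have h2 := (Finset.sum_eq_sum_iff_of_le (fun i (_ : i ∈ Finset.univ) =>
    (Fin.le_def.1 (hcon i) : ((σ i : Fin n) : ℕ) ≤ (i : ℕ)))).1 h1
  exact Equiv.ext fun i => Fin.ext (h2 i (Finset.mem_univ i))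

private theorem FiA_det {m : ℕ} {x : SLp p n} (hx : x ∈ Kp p n)
    (hx1 : ∀ i j : Fin n, j < i → ‖x.1 i j‖ ≤ (p : ℝ) ^ (-(m : ℤ))) :
    ‖(∏ i, x.1 i i) - 1‖ ≤ (p : ℝ) ^ (-(m : ℤ)) := by
  have hp0 : (0 : ℝ) ≤ (p : ℝ) ^ (-(m : ℤ)) := by positivity
  have h1 : x.1.det = 1 := x.2
  rw [Matrix.det_apply, ← Finset.add_sum_erase _ _ (Finset.mem_univ (1 : Equiv.Perm (Fin n)))] at h1
  have h2 : (∏ i, x.1 i i) - 1 =
      - ∑ σ ∈ Finset.univ.erase (1 : Equiv.Perm (Fin n)), Equiv.Perm.sign σ • ∏ i, x.1 (σ i) i := by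
    simp only [Equiv.Perm.sign_one, one_smul, Equiv.Perm.coe_one, id_eq] at h1
    linear_combination h1
  rw [h2, norm_neg]
  refine sum_norm_le _ _ hp0 fun σ hσ => ?_
  obtain ⟨i, hi⟩ := FiA_perm (Finset.ne_of_mem_erase hσ)
  have h3 : ‖∏ i, x.1 (σ i) i‖ ≤ (p : ℝ) ^ (-(m : ℤ)) := by
    rw [← Finset.mul_prod_erase _ _ (Finset.mem_univ i), norm_mul]
    have h4 : ‖∏ j ∈ Finset.univ.erase i, x.1 (σ j) j‖ ≤ 1 := by
      rw [norm_prod]
      exact Finset.prod_le_one (fun _ _ => norm_nonneg _) fun _ _ => hx _ _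
    calc ‖x.1 (σ i) i‖ * ‖∏ j ∈ Finset.univ.erase i, x.1 (σ j) j‖ ≤ (p : ℝ) ^ (-(m : ℤ)) * 1 := by
          gcongr
          exact hx1 _ _ hi
      _ = _ := mul_one _
  rcases Int.units_eq_one_or (Equiv.Perm.sign σ) with h5 | h5
  · simpa [h5] using h3
  · simpa [h5] using h3

theorem cell_iwahori {m : ℕ} (hm : 1 ≤ m) {x : SLp p n} (hx : x ∈ Kp p n)
    (hx1 : ∀ i j : Fin n, j < i → ‖x.1 i j‖ ≤ (p : ℝ) ^ (-(m : ℤ))) :
    ∃ b ∈ Bp p n, b ∈ Kp p n ∧ ∃ d ∈ U p (Lo : Fin n → Fin n → Prop), d ∈ Km p n m ∧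
      x = b * d := by
  have hp1 : (1 : ℝ) < p := by exact_mod_cast (Fact.out : p.Prime).one_lt
  have hp0 : (0 : ℝ) ≤ (p : ℝ) ^ (-(m : ℤ)) := by positivity
  have hplt : (p : ℝ) ^ (-(m : ℤ)) < 1 := by
    refine zpow_lt_one_of_neg₀ hp1 ?_
    omega
  obtain ⟨c, hc⟩ : ∃ c, c = ∏ i, x.1 i i := ⟨_, rfl⟩
  have hc1 : ‖c - 1‖ ≤ (p : ℝ) ^ (-(m : ℤ)) := by
    rw [hc]
    exact FiA_det hx hx1
  have hcn : ‖c‖ = 1 := by
    have h1 : ‖c - 1‖ < 1 := hc1.trans_lt hplt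
    have h2 : ‖(c - 1) + 1‖ = max ‖c - 1‖ ‖(1 : ℚ_[p])‖ := by
      apply IsUltrametricDist.norm_add_eq_max_of_norm_ne_norm
      rw [norm_one]
      exact h1.ne
    rw [sub_add_cancel, norm_one, max_eq_right h1.le] at h2
    exact h2
  have hc0 : c ≠ 0 := by
    intro h
    rw [h, norm_zero] at hcn
    exact zero_ne_one hcn
  have hci : ‖1 - c⁻¹‖ ≤ (p : ℝ) ^ (-(m : ℤ)) := by
    have h1 : 1 - c⁻¹ = (c - 1) * c⁻¹ := by
      field_simp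
    rw [h1, norm_mul, norm_inv, hcn, inv_one, mul_one]
    exact hc1
  let B : Matrix (Fin n) (Fin n) ℚ_[p] := fun i j =>
    if j < i then 0 else if (i : ℕ) = 0 then c⁻¹ * x.1 i j else x.1 i j
  have hBup : B.BlockTriangular id := by
    intro i j hij
    exact if_pos hij
  have hBdet : B.det = 1 := by
    rw [Matrix.det_of_isUpperTriangular hBup]
    have h1 : ∀ i : Fin n, B i i = if (i : ℕ) = 0 then c⁻¹ * x.1 i i else x.1 i i :=
      fun i => if_neg (lt_irrefl i)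
    rw [Finset.prod_congr rfl fun i _ => h1 i]
    clear h1 hBup B
    cases n with
    | zero => simp
    | succ k =>
      rw [Fin.prod_univ_succ] at hc ⊢
      simp only [Fin.val_zero, if_true, Fin.val_succ, Nat.succ_ne_zero, if_false]
      rw [mul_assoc, ← hc, inv_mul_cancel₀ hc0]
  let b0 : SLp p n := ⟨B, hBdet⟩
  have hb0 : b0 ∈ Bp p n := by
    rw [mem_Bp]
    intro i j hij
    exact hBup hij
  have hb0K : b0 ∈ Kp p n := by
    intro i j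
    show ‖B i j‖ ≤ 1
    simp only [B]
    split_ifs
    · rw [norm_zero]
      exact zero_le_one
    · rw [norm_mul, norm_inv, hcn, inv_one, one_mul]
      exact hx i j
    · exact hx i j
  have hdiff : ∀ i j, ‖(x.1 - b0.1) i j‖ ≤ (p : ℝ) ^ (-(m : ℤ)) := by
    intro i j
    show ‖x.1 i j - B i j‖ ≤ _
    simp only [B]
    split_ifs with h1 h2
    · rw [sub_zero]
      exact hx1 i j h1
    · have h3 : x.1 i j - c⁻¹ * x.1 i j = (1 - c⁻¹) * x.1 i j := by ring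
      rw [h3, norm_mul]
      calc ‖1 - c⁻¹‖ * ‖x.1 i j‖ ≤ (p : ℝ) ^ (-(m : ℤ)) * 1 := by
            gcongr
            exact hx i j
        _ = _ := mul_one _
    · rw [sub_self, norm_zero]
      exact hp0
  have hKm : b0⁻¹ * x ∈ Km p n m := by
    intro i j
    have h1 := mulmat_norm_le (b0⁻¹).1 (x.1 - b0.1) zero_le_one hp0 ((Kp p n).inv_mem hb0K) hdiff i j
    rw [one_mul] at h1
    have h2 : (b0⁻¹).1 * (x.1 - b0.1) = (b0⁻¹ * x).1 - 1 := by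
      rw [mul_sub]
      congr 1
      have h3 := congrArg Subtype.val (inv_mul_cancel b0)
      exact h3
    rw [h2] at h1
    exact h1
  obtain ⟨b1, hb1, u, hu, hbu, hb1K, huK⟩ := cell_small hm hKm
  refine ⟨b0 * b1, (Bp p n).mul_mem hb0 hb1, (Kp p n).mul_mem hb0K (km_le_kp hb1K), u, hu, huK, ?_⟩
  rw [mul_assoc, ← hbu, mul_inv_cancel_left]

omit [IsUltrametricDist C] in
private theorem FiA_left {χ : Tor p n →* Cˣ} {W : Set (SLp p n → C)} (hW : IsClosedSubrep χ W)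
    {b : SLp p n} (hb : b ∈ Bp p n) (g : SLp p n) {f : SLp p n → C} (hf : f ∈ W) :
    (fun x => f (b * x * g)) ∈ W := by
  have h1 := (isPS_iff.1 (hW.isPS f hf)).2
  have h2 : (fun x => f (b * x * g)) = fun x => cb χ b * f (x * g) := by
    funext x
    rw [mul_assoc, h1 b hb]
  rw [h2]
  exact hW.smul _ _ (hW.trans g f hf)

private theorem FiA_norm_le (k : ℤ) (hk : 0 ≤ k) (y : ℚ_[p]) (hy : ‖y‖ ≤ 1) :
    ‖(p : ℚ_[p]) ^ k * y‖ ≤ 1 := by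
  rw [norm_mul, norm_zpow, Padic.norm_p]
  have h1 : ((p : ℝ)⁻¹) ^ k ≤ 1 := by
    obtain ⟨l, hl⟩ := Int.eq_ofNat_of_zero_le hk
    rw [hl, zpow_natCast]
    exact pow_le_one₀ (by positivity) (inv_le_one_of_one_le₀ (by exact_mod_cast (Fact.out : p.Prime).one_lt.le))
  exact mul_le_one₀ h1 (norm_nonneg _) hy

private theorem FiA_bK {π : Equiv.Perm (Fin n)} (hπ : ∀ i j, π i < π j ↔ j < i) {t1 : SLp p n}
    (ht1 : IsDg (ed π) t1) (M : ℕ) {b : SLp p n} (hb : b ∈ Bp p n) (hK : b ∈ Kp p n) :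
    (t1 ^ M)⁻¹ * b * t1 ^ M ∈ Kp p n := by
  intro i j
  rw [dg_pow_conj' ht1]
  rcases lt_trichotomy i j with h | h | h
  · have h1 : ed π i < ed π j := ed_lt ((hπ j i).2 h)
    refine FiA_norm_le _ ?_ _ (hK i j)
    have h2 : (0 : ℤ) ≤ (M : ℤ) := Int.natCast_nonneg M
    exact mul_nonneg h2 (by linarith)
  · subst h
    refine FiA_norm_le _ ?_ _ (hK i i)
    rw [sub_self, mul_zero]
  · rw [mem_Bp.1 hb i j h, mul_zero, norm_zero]
    exact zero_le_one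

private theorem FiA_dK {π : Equiv.Perm (Fin n)} (hπ : ∀ i j, π i < π j ↔ j < i) {t1 : SLp p n}
    (ht1 : IsDg (ed π) t1) (M : ℕ) {d : SLp p n} (hd : d ∈ U p (Lo : Fin n → Fin n → Prop))
    (hK : d ∈ Kp p n) : t1 ^ M * d * (t1 ^ M)⁻¹ ∈ Kp p n := by
  intro i j
  rw [dg_pow_conj ht1]
  rcases lt_trichotomy i j with h | h | h
  · rw [U_zero hd h.ne (fun h1 : j < i => h.not_gt h1), mul_zero, norm_zero]
    exact zero_le_one
  · subst h
    refine FiA_norm_le _ ?_ _ (hK i i)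
    rw [sub_self, mul_zero]
  · have h1 : ed π j < ed π i := ed_lt ((hπ i j).2 h)
    refine FiA_norm_le _ ?_ _ (hK i j)
    have h2 : (0 : ℤ) ≤ (M : ℤ) := Int.natCast_nonneg M
    exact mul_nonneg h2 (by linarith)

private theorem FiA_low {π : Equiv.Perm (Fin n)} (hπ : ∀ i j, π i < π j ↔ j < i) {t1 : SLp p n}
    (ht1 : IsDg (ed π) t1) (M : ℕ) {x : SLp p n} (hK : (t1 ^ M)⁻¹ * x * t1 ^ M ∈ Kp p n)
    (i j : Fin n) (hij : j < i) : ‖x.1 i j‖ ≤ (p : ℝ) ^ (-(M : ℤ)) := by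
  have h1 := hK i j
  rw [dg_pow_conj' ht1, norm_mul, norm_zpow, Padic.norm_p] at h1
  have hp : (1 : ℝ) < p := by exact_mod_cast (Fact.out : p.Prime).one_lt
  have hp0 : (0 : ℝ) < p := by linarith
  have h2 : ed π j < ed π i := ed_lt ((hπ i j).2 hij)
  have h3 : (p : ℝ) ^ (M : ℤ) ≤ ((p : ℝ)⁻¹) ^ ((M : ℤ) * (ed π j - ed π i)) := by
    rw [_root_.inv_zpow, ← _root_.zpow_neg]
    refine zpow_le_zpow_right₀ hp.le ?_
    have h4 : (0 : ℤ) ≤ (M : ℤ) := Int.natCast_nonneg M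
    nlinarith
  have h5 : (p : ℝ) ^ (M : ℤ) * ‖x.1 i j‖ ≤ 1 :=
    (mul_le_mul_of_nonneg_right h3 (norm_nonneg _)).trans h1
  rw [_root_.zpow_neg]
  have h6 : (0 : ℝ) < (p : ℝ) ^ (M : ℤ) := zpow_pos hp0 _
  rwa [← one_div, le_div_iff₀' h6]

theorem final_rev {χ : Tor p n →* Cˣ} {v : Fin n → ℝ} (hs : Slope χ v)
    {π : Equiv.Perm (Fin n)} (hπ : ∀ i j, π i < π j ↔ j < i) {W : Set (SLp p n → C)}
    (hW : IsClosedSubrep χ W) (hG : Gf χ π (indK p n C) ∈ W) {f : SLp p n → C}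
    (hf : IsPS χ f) : f ∈ W := by
  classical
  have hslope := hs
  have hDr : Dr π = (Lo : Fin n → Fin n → Prop) := by
    funext i j
    apply propext
    show (j < i ∧ π i < π j) ↔ j < i
    rw [hπ]
    exact and_self_iff
  have hFr : ∀ f ∈ U p (Fr π), f = 1 := by
    intro f hf
    apply Subtype.ext
    apply Matrix.ext
    intro i j
    refine hf i j ?_
    rintro ⟨h1, h2⟩
    exact h1.not_gt ((hπ j i).1 h2)
  obtain ⟨t1, ht1⟩ := dg_exists (p := p) (ed π) (ed_sum π)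
  have htB : ∀ M : ℕ, t1 ^ M ∈ Bp p n := fun M => dg_Bt (dg_pow ht1 M) id
  refine hW.closed f hf fun ε hε => ?_
  obtain ⟨m, hm⟩ := unif hf.1 (kp_compact p n) hε
  obtain ⟨M, hMdef⟩ : ∃ M, M = max m 1 := ⟨_, rfl⟩
  have hM1 : 1 ≤ M := hMdef ▸ le_max_right _ _
  have hMm : m ≤ M := hMdef ▸ le_max_left _ _
  have hbdd : ∃ A : ℝ, ∀ i j, ‖(t1 ^ M).1 i j‖ ≤ A := by
    refine ⟨∑ i, ∑ j, ‖(t1 ^ M).1 i j‖, fun i j => ?_⟩
    calc ‖(t1 ^ M).1 i j‖ ≤ ∑ j, ‖(t1 ^ M).1 i j‖ :=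
          Finset.single_le_sum (f := fun j => ‖(t1 ^ M).1 i j‖) (fun _ _ => norm_nonneg _) (Finset.mem_univ j)
      _ ≤ ∑ i, ∑ j, ‖(t1 ^ M).1 i j‖ :=
          Finset.single_le_sum (f := fun i => ∑ j, ‖(t1 ^ M).1 i j‖)
            (fun _ _ => Finset.sum_nonneg fun _ _ => norm_nonneg _) (Finset.mem_univ i)
  obtain ⟨A, hA⟩ := hbdd
  obtain ⟨m', hm'⟩ := conj_small p n A 0
  let J : Subgroup (SLp p n) := {
    carrier := {x | x ∈ Kp p n ∧ (t1 ^ M)⁻¹ * x * t1 ^ M ∈ Kp p n}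
    mul_mem' := by
      rintro x y ⟨hx, hx'⟩ ⟨hy, hy'⟩
      refine ⟨(Kp p n).mul_mem hx hy, ?_⟩
      have h2 := (Kp p n).mul_mem hx' hy'
      have h3 : (t1 ^ M)⁻¹ * x * t1 ^ M * ((t1 ^ M)⁻¹ * y * t1 ^ M) =
          (t1 ^ M)⁻¹ * (x * y) * t1 ^ M := by
        group
      rwa [h3] at h2
    one_mem' := by
      refine ⟨(Kp p n).one_mem, ?_⟩
      rw [mul_one, inv_mul_cancel]
      exact (Kp p n).one_mem
    inv_mem' := by
      rintro x ⟨hx, hx'⟩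
      refine ⟨(Kp p n).inv_mem hx, ?_⟩
      have h2 := (Kp p n).inv_mem hx'
      have h3 : ((t1 ^ M)⁻¹ * x * t1 ^ M)⁻¹ = (t1 ^ M)⁻¹ * x⁻¹ * t1 ^ M := by
        group
      rwa [h3] at h2 }
  have hmemJ : ∀ x, x ∈ J ↔ (x ∈ Kp p n ∧ (t1 ^ M)⁻¹ * x * t1 ^ M ∈ Kp p n) := fun x => Iff.rfl
  obtain ⟨S, hS1, hS2⟩ := coset_reps (L := Kp p n) (H := J) le_rfl (fun x hx => hx.1) (m := m')
    (fun x hx hxm => (hmemJ x).2 ⟨hx, km_le_kp (hm' _ hA x hxm).2⟩)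
  let GM : SLp p n → C := fun x => Gf χ π (indK p n C) ((t1 ^ M)⁻¹ * x * t1 ^ M)
  have hGM : GM ∈ W := FiA_left hW ((Bp p n).inv_mem (htB M)) _ hG
  -- (a)
  have ha : ∀ x ∈ J, ∃ b ∈ Bp p n, b ∈ Kp p n ∧ ∃ d ∈ Km p n M, x = b * d ∧ GM x = cb χ b := by
    intro x hx
    obtain ⟨hx1, hx2⟩ := (hmemJ x).1 hx
    obtain ⟨b, hb, hbK, d, hd, hdM, he⟩ := cell_iwahori hM1 hx1 (FiA_low hπ ht1 M hx2)
    refine ⟨b, hb, hbK, d, hdM, he, ?_⟩
    have hbM := FiA_bK hπ ht1 M hb hbK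
    have hdK : (t1 ^ M)⁻¹ * d * t1 ^ M ∈ Kp p n := by
      have h2 := (Kp p n).mul_mem ((Kp p n).inv_mem hbM) hx2
      have h3 : ((t1 ^ M)⁻¹ * b * t1 ^ M)⁻¹ * ((t1 ^ M)⁻¹ * x * t1 ^ M) = (t1 ^ M)⁻¹ * d * t1 ^ M := by
        rw [he]
        group
      rwa [h3] at h2
    have hdU : (t1 ^ M)⁻¹ * d * t1 ^ M ∈ U p (Dr π) := by
      rw [hDr]
      exact (U_conj (dg_pow ht1 M) hd).2
    have hbB : (t1 ^ M)⁻¹ * b * t1 ^ M ∈ Bp p n :=
      (Bp p n).mul_mem ((Bp p n).mul_mem ((Bp p n).inv_mem (htB M)) hb) (htB M)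
    have h4 : (t1 ^ M)⁻¹ * x * t1 ^ M = ((t1 ^ M)⁻¹ * b * t1 ^ M) * 1 * ((t1 ^ M)⁻¹ * d * t1 ^ M) := by
      rw [he]
      group
    show Gf χ π (indK p n C) ((t1 ^ M)⁻¹ * x * t1 ^ M) = _
    rw [h4, gf_eq (indK p n C) hbB (U_one _) hdU, (cb_conj χ (dg_pow ht1 M) b).2, indK, if_pos hdK,
      mul_one]
  -- (b)
  have hb : ∀ x ∈ Kp p n, x ∉ J → GM x = 0 := by
    intro x hx hxJ
    by_contra hne
    apply hxJ
    obtain ⟨b, hb, f', hf', d, hd, he, hdn, -⟩ := gf_ne (show Gf χ π (indK p n C) ((t1 ^ M)⁻¹ * x * t1 ^ M) ≠ 0 from hne)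
    rw [hFr f' hf', mul_one] at he
    have hdK : d ∈ Kp p n := by
      by_contra h
      exact hdn (by rw [indK, if_neg h])
    rw [hDr] at hd
    have h2 := FiA_dK hπ ht1 M hd hdK
    have h3 := (Kp p n).mul_mem hx ((Kp p n).inv_mem h2)
    have h4 : x * (t1 ^ M * d * (t1 ^ M)⁻¹)⁻¹ = t1 ^ M * b * (t1 ^ M)⁻¹ := by
      have h5 : x = t1 ^ M * ((t1 ^ M)⁻¹ * x * t1 ^ M) * (t1 ^ M)⁻¹ := by group
      rw [h5, he]
      group
    rw [h4] at h3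
    have hbB : t1 ^ M * b * (t1 ^ M)⁻¹ ∈ Bp p n :=
      (Bp p n).mul_mem ((Bp p n).mul_mem (htB M) hb) ((Bp p n).inv_mem (htB M))
    have h6 := FiA_bK hπ ht1 M hbB h3
    have h7 : (t1 ^ M)⁻¹ * (t1 ^ M * b * (t1 ^ M)⁻¹) * t1 ^ M = b := by group
    rw [h7] at h6
    refine (hmemJ x).2 ⟨hx, ?_⟩
    rw [he]
    exact (Kp p n).mul_mem h6 hdK
  refine ⟨fun x => ∑ s ∈ S, f s * GM (x * s⁻¹),
    sub_sum_mem hW S (fun s x => f s * GM (x * s⁻¹)) (fun s _ => hW.smul _ _ (hW.trans _ _ hGM)), ?_⟩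
  intro k hk
  have hkK : k ∈ Kp p n := hk
  obtain ⟨s, ⟨hs, hsJ⟩, huniq⟩ := hS2 k hkK
  have h1 : ∑ s ∈ S, f s * GM (k * s⁻¹) = f s * GM (k * s⁻¹) := by
    refine Finset.sum_eq_single s ?_ fun h => absurd hs h
    intro s' hs' hne
    rw [hb _ ((Kp p n).mul_mem hkK ((Kp p n).inv_mem (hS1 s' hs'))) fun h => hne (huniq s' ⟨hs', h⟩),
      mul_zero]
  show ‖f k - ∑ s ∈ S, f s * GM (k * s⁻¹)‖ ≤ ε
  rw [h1]
  obtain ⟨b, hbB, hbK, d, hdM, he, hG1⟩ := ha _ hsJ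
  rw [hG1]
  have h2 : k = b * (s * (s⁻¹ * d * s)) := by
    have h3 : k = k * s⁻¹ * s := by group
    rw [h3, he]
    group
  have h4 := (isPS_iff.1 hf).2 b hbB (s * (s⁻¹ * d * s))
  rw [← h2] at h4
  rw [h4, mul_comm (f s), ← mul_sub, norm_mul]
  have h5 : ‖cb χ b‖ = 1 := by
    have h6 := om_cb hslope hbB 1
    rw [mul_one, om_kp v hbK, om_kp v (Kp p n).one_mem, mul_one] at h6
    exact h6.symm
  rw [h5, one_mul]
  exact hm s (hS1 s hs) _ (km_anti hMm (km_conj (hS1 s hs) hdM).2)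

end Pool.Agent.Lib.MP_f399a8_nt.S
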