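import Pool.Agent.Lib.MP_f399a8_ntS.P1B

/-!
# Functions supported in the big cell

`Gf χ π ψ (b * f * d) = cb χ b * ψ d` for `b ∈ Bp`, `f ∈ U (Fr π)`, `d ∈ U (Dr π)`, and `0` outside the set of
these products.

PROOF.  `gf_eq` by `cell_unique`.  `gf_ne`: unfold.  The others: distinguish whether `x` is in the cell; for
`gf_left` `b * x` is in the cell iff `x` is; for `gf_right` use `U_mul`, `U_inv` (`so_Dr`); for `gf_dg`:
`b * f * d * t = (b * t) * (t⁻¹ * f * t) * (t⁻¹ * d * t)` (`U_conj`, `dg_Bt`), `cb χ (b * t) = cb χ b * cb χ t`;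
`gf_conj`: `t⁻¹ * x * t = t⁻¹ * (x * t)`, `gf_left`, `gf_dg`, `cb_inv`.
-/

namespace Pool.Agent.Lib.MP_f399a8_nt.S

open Matrix Filter Topology

noncomputable section

variable {p : ℕ} [Fact p.Prime] {n : ℕ} {C : Type*} [NormedField C]

open Classical in
/-- the function supported in the big cell with values `cb χ b * ψ d` -/
def Gf (χ : Tor p n →* Cˣ) (π : Equiv.Perm (Fin n)) (ψ : SLp p n → C) (x : SLp p n) : C :=
  if h : ∃ q : SLp p n × SLp p n × SLp p n, q.1 ∈ Bp p n ∧ q.2.1 ∈ U p (Fr π) ∧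
      q.2.2 ∈ U p (Dr π) ∧ x = q.1 * q.2.1 * q.2.2 then
    cb χ (Classical.choose h).1 * ψ (Classical.choose h).2.2
  else 0

variable {χ : Tor p n →* Cˣ} {π : Equiv.Perm (Fin n)}

private theorem GfA_cases (χ : Tor p n →* Cˣ) (π : Equiv.Perm (Fin n)) (x : SLp p n) :
    (∃ b ∈ Bp p n, ∃ f ∈ U p (Fr π), ∃ d ∈ U p (Dr π), x = b * f * d) ∨
      ((¬ ∃ b ∈ Bp p n, ∃ f ∈ U p (Fr π), ∃ d ∈ U p (Dr π), x = b * f * d) ∧
        ∀ ψ : SLp p n → C, Gf χ π ψ x = 0) := by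
  by_cases h : ∃ b ∈ Bp p n, ∃ f ∈ U p (Fr π), ∃ d ∈ U p (Dr π), x = b * f * d
  · exact Or.inl h
  · refine Or.inr ⟨h, fun ψ => ?_⟩
    unfold Gf
    refine dif_neg ?_
    rintro ⟨q, h1, h2, h3, h4⟩
    exact h ⟨q.1, h1, q.2.1, h2, q.2.2, h3, h4⟩

private theorem GfA_none (χ : Tor p n →* Cˣ) (π : Equiv.Perm (Fin n)) (x : SLp p n)
    (h : ¬ ∃ b ∈ Bp p n, ∃ f ∈ U p (Fr π), ∃ d ∈ U p (Dr π), x = b * f * d) (ψ : SLp p n → C) :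
    Gf χ π ψ x = 0 := by
  rcases GfA_cases (C := C) χ π x with h1 | h1
  · exact absurd h1 h
  · exact h1.2 ψ

theorem gf_eq (ψ : SLp p n → C) {b f d : SLp p n} (hb : b ∈ Bp p n) (hf : f ∈ U p (Fr π))
    (hd : d ∈ U p (Dr π)) : Gf χ π ψ (b * f * d) = cb χ b * ψ d := by
  have h : ∃ q : SLp p n × SLp p n × SLp p n, q.1 ∈ Bp p n ∧ q.2.1 ∈ U p (Fr π) ∧
      q.2.2 ∈ U p (Dr π) ∧ b * f * d = q.1 * q.2.1 * q.2.2 := ⟨(b, f, d), hb, hf, hd, rfl⟩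
  unfold Gf
  rw [dif_pos h]
  obtain ⟨h1, h2, h3, h4⟩ := Classical.choose_spec h
  obtain ⟨e1, _, e3⟩ := cell_unique π hb h1 hf h2 hd h3 h4
  rw [← e1, ← e3]

theorem gf_ne {ψ : SLp p n → C} {x : SLp p n} (h : Gf χ π ψ x ≠ 0) :
    ∃ b ∈ Bp p n, ∃ f ∈ U p (Fr π), ∃ d ∈ U p (Dr π), x = b * f * d ∧ ψ d ≠ 0 ∧
      Gf χ π ψ x = cb χ b * ψ d := by
  rcases GfA_cases (C := C) χ π x with ⟨b, hb, f, hf, d, hd, rfl⟩ | h1
  · rw [gf_eq ψ hb hf hd] at h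
    refine ⟨b, hb, f, hf, d, hd, rfl, ?_, gf_eq ψ hb hf hd⟩
    intro h0
    exact h (by rw [h0, mul_zero])
  · exact absurd (h1.2 ψ) h

theorem gf_left (ψ : SLp p n → C) {b : SLp p n} (hb : b ∈ Bp p n) (x : SLp p n) :
    Gf χ π ψ (b * x) = cb χ b * Gf χ π ψ x := by
  rcases GfA_cases (C := C) χ π x with ⟨b', hb', f, hf, d, hd, rfl⟩ | h1
  · have e : b * (b' * f * d) = b * b' * f * d := by simp only [mul_assoc]
    rw [e, gf_eq ψ (mul_mem hb hb') hf hd, gf_eq ψ hb' hf hd, cb_mul χ hb hb', mul_assoc]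
  · rw [h1.2 ψ, mul_zero]
    refine GfA_none χ π _ ?_ ψ
    rintro ⟨b', hb', f, hf, d, hd, h2⟩
    refine h1.1 ⟨b⁻¹ * b', mul_mem (inv_mem hb) hb', f, hf, d, hd, ?_⟩
    rw [mul_assoc b⁻¹, mul_assoc b⁻¹, ← h2, inv_mul_cancel_left]

theorem gf_right (ψ : SLp p n → C) {u : SLp p n} (hu : u ∈ U p (Dr π)) (x : SLp p n) :
    Gf χ π ψ (x * u) = Gf χ π (fun y => ψ (y * u)) x := by
  rcases GfA_cases (C := C) χ π x with ⟨b, hb, f, hf, d, hd, rfl⟩ | h1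
  · have e : b * f * d * u = b * f * (d * u) := by simp only [mul_assoc]
    rw [e, gf_eq ψ hb hf (U_mul (so_Dr π) hd hu), gf_eq (fun y => ψ (y * u)) hb hf hd]
  · rw [h1.2]
    refine GfA_none χ π _ ?_ ψ
    rintro ⟨b, hb, f, hf, d, hd, h2⟩
    refine h1.1 ⟨b, hb, f, hf, d * u⁻¹, U_mul (so_Dr π) hd (U_inv (so_Dr π) hu), ?_⟩
    rw [← mul_assoc, ← h2, mul_inv_cancel_right]

theorem gf_dg (ψ : SLp p n → C) {e : Fin n → ℤ} {t : SLp p n} (ht : IsDg e t) (x : SLp p n) :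
    Gf χ π ψ (x * t) = cb χ t * Gf χ π (fun y => ψ (t⁻¹ * y * t)) x := by
  have htB : t ∈ Bp p n := dg_Bt ht id
  rcases GfA_cases (C := C) χ π x with ⟨b, hb, f, hf, d, hd, rfl⟩ | h1
  · have e1 : b * f * d * t = b * t * (t⁻¹ * f * t) * (t⁻¹ * d * t) := by group
    rw [e1, gf_eq ψ (mul_mem hb htB) (U_conj ht hf).2 (U_conj ht hd).2,
      gf_eq (fun y => ψ (t⁻¹ * y * t)) hb hf hd, cb_mul χ hb htB]
    ring
  · rw [h1.2, mul_zero]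
    refine GfA_none χ π _ ?_ ψ
    rintro ⟨b, hb, f, hf, d, hd, h2⟩
    refine h1.1 ⟨b * t⁻¹, mul_mem hb (inv_mem htB), t * f * t⁻¹, (U_conj ht hf).1,
      t * d * t⁻¹, (U_conj ht hd).1, ?_⟩
    have e2 : b * t⁻¹ * (t * f * t⁻¹) * (t * d * t⁻¹) = b * f * d * t⁻¹ := by group
    rw [e2, ← h2, mul_inv_cancel_right]

theorem gf_conj (ψ : SLp p n → C) {e : Fin n → ℤ} {t : SLp p n} (ht : IsDg e t) (x : SLp p n) :
    Gf χ π ψ (t⁻¹ * x * t) = Gf χ π (fun y => ψ (t⁻¹ * y * t)) x := by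
  have htB : t ∈ Bp p n := dg_Bt ht id
  rw [mul_assoc, gf_left ψ (inv_mem htB), gf_dg ψ ht, cb_inv χ htB, ← mul_assoc,
    inv_mul_cancel₀ (cb_ne_zero χ t), one_mul]

theorem gf_congr {ψ ψ' : SLp p n → C} (h : ∀ d ∈ U p (Dr π), ψ d = ψ' d) (x : SLp p n) :
    Gf χ π ψ x = Gf χ π ψ' x := by
  rcases GfA_cases (C := C) χ π x with ⟨b, hb, f, hf, d, hd, rfl⟩ | h1
  · rw [gf_eq ψ hb hf hd, gf_eq ψ' hb hf hd, h d hd]
  · rw [h1.2, h1.2]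

theorem gf_sub (ψ ψ' : SLp p n → C) (x : SLp p n) :
    Gf χ π (fun y => ψ y - ψ' y) x = Gf χ π ψ x - Gf χ π ψ' x := by
  rcases GfA_cases (C := C) χ π x with ⟨b, hb, f, hf, d, hd, rfl⟩ | h1
  · rw [gf_eq ψ hb hf hd, gf_eq ψ' hb hf hd, gf_eq (fun y => ψ y - ψ' y) hb hf hd]
    ring
  · rw [h1.2, h1.2, h1.2, sub_zero]

theorem gf_add (ψ ψ' : SLp p n → C) (x : SLp p n) :
    Gf χ π (fun y => ψ y + ψ' y) x = Gf χ π ψ x + Gf χ π ψ' x := by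
  rcases GfA_cases (C := C) χ π x with ⟨b, hb, f, hf, d, hd, rfl⟩ | h1
  · rw [gf_eq ψ hb hf hd, gf_eq ψ' hb hf hd, gf_eq (fun y => ψ y + ψ' y) hb hf hd]
    ring
  · rw [h1.2, h1.2, h1.2, add_zero]

theorem gf_smul (c : C) (ψ : SLp p n → C) (x : SLp p n) :
    Gf χ π (fun y => c * ψ y) x = c * Gf χ π ψ x := by
  rcases GfA_cases (C := C) χ π x with ⟨b, hb, f, hf, d, hd, rfl⟩ | h1
  · rw [gf_eq ψ hb hf hd, gf_eq (fun y => c * ψ y) hb hf hd]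
    ring
  · rw [h1.2, h1.2, mul_zero]

theorem gf_sum {ι : Type*} (s : Finset ι) (ψ : ι → SLp p n → C) (x : SLp p n) :
    Gf χ π (fun y => ∑ i ∈ s, ψ i y) x = ∑ i ∈ s, Gf χ π (ψ i) x := by
  rcases GfA_cases (C := C) χ π x with ⟨b, hb, f, hf, d, hd, rfl⟩ | h1
  · rw [gf_eq (fun y => ∑ i ∈ s, ψ i y) hb hf hd, Finset.mul_sum]
    exact Finset.sum_congr rfl fun i _ => (gf_eq (ψ i) hb hf hd).symm
  · rw [h1.2]
    exact (Finset.sum_eq_zero fun i _ => h1.2 (ψ i)).symm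

end

end Pool.Agent.Lib.MP_f399a8_nt.S
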