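import Pool.Agent.Lib.MP_f399a8_ntS.GfA
import Pool.Agent.Lib.MP_f399a8_ntS.LUc

/-!
# The functions `Gf` are in the principal series

PROOF of `gf_norm`: if `Gf χ π ψ k ≠ 0` then `k = b * f * d` (`gf_ne`) with `ψ d ≠ 0`, so `d ∈ Kp`, and
`1 = Om v k = ‖cb χ b‖ * Om v (f * d) = ‖cb χ b‖ * Om v f` (`om_kp`, `om_cb`, `om_right`, mind the association),
`1 ≤ Om v f` (`good_ge`), so `‖cb χ b‖ ≤ 1` and `‖Gf χ π ψ k‖ ≤ ‖ψ d‖ ≤ A`.

PROOF of `gf_ps`.  By `isPS_iff` and `gf_left` only the continuity is needed.  It suffices: for every `x` and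
`ε > 0` there is `m` with `‖G (x * y) - G x‖ ≤ ε` for all `y ∈ Km m` (`G = Gf χ π ψ`; `km_nhds_mul`).
Case 1: `x = b * f * d` is in the cell.  Let `y ∈ Km m`, `m` large.  `y₁ := (f * d) * y * (f * d)⁻¹ ∈ Km m₁`
(`conj_small`), `y₁ = b₁ * u₁` (`cell_small`, `m₁ ≥ 1`), `u₂ := f⁻¹ * u₁ * f ∈ U Lo ∩ Km m₂`
(`conj_small`, `f ∈ U Lo`), `u₂ = f₃ * d₃` with `f₃ ∈ U (Fr π)`, `d₃ ∈ U (Dr π) ∩ Km m₂` (`lu_fd`).  Then
`x * y = b * y₁ * f * d = b * b₁ * f * u₂ * d = (b * b₁) * (f * f₃) * (d₃ * d)`, so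
`G (x * y) = cb χ b * cb χ b₁ * ψ (d₃ * d)` while `G x = cb χ b * ψ d`.  `cb χ b₁` is close to `1` (`cb_near`, for
`m₁` large) and `ψ (d₃ * d) = ψ (d * (d⁻¹ * d₃ * d))` is close to `ψ d` (`unif` for the compact set `{d}`,
`conj_small`).  `‖a * b - c‖ ≤ ‖a - 1‖ ‖b‖ + ‖b - c‖`.
Case 2: `x` is not in the cell, `G x = 0`.  Suppose for every `m` there is `y_m ∈ Km m` with
`ε < ‖G (x * y_m)‖`.  Write `x * y_m = b_m * f_m * d_m` (`gf_ne`), `ψ d_m ≠ 0`, so `d_m ∈ Kp`.  `ψ` is bounded by `A`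
on `Kp`.  `ε < ‖cb χ b_m‖ * A`.  `Om v x = Om v (x * y_m) = ‖cb χ b_m‖ * Om v f_m`, so
`Om v f_m ≤ Om v x * A / ε` is bounded and the entries of `f_m` are bounded (`good_proper`).  By compactness
(`bdd_compact`, `kp_compact`, first countable) a subsequence `f_m → f`, `d_m → d` with `f ∈ U (Fr π)`,
`d ∈ U (Dr π)` (`u_closed`), and `b_m = x * y_m * d_m⁻¹ * f_m⁻¹ → b := x * d⁻¹ * f⁻¹ ∈ Bp` (`bt_closed`).  So
`x = b * f * d` is in the cell.  Contradiction.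
-/

namespace Pool.Agent.Lib.MP_f399a8_nt.S

open Matrix Filter Topology

variable {p : ℕ} [Fact p.Prime] {n : ℕ} {C : Type*} [NormedField C]

open scoped Pointwise in
/-- the set of products `b * f * d` with bounded `f` and integral `d` is closed -/
theorem GfB_closed (π : Equiv.Perm (Fin n)) (B : ℝ) :
    IsClosed ((((Bp p n : Set (SLp p n)) * ({x : SLp p n | ∀ i j, ‖x.1 i j‖ ≤ B} ∩ U p (Fr π))) *
      ((Kp p n : Set (SLp p n)) ∩ U p (Dr π)) : Set (SLp p n))) := by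
  have h1 : IsClosed (Bp p n : Set (SLp p n)) := bt_closed _
  have h2 : IsCompact ({x : SLp p n | ∀ i j, ‖x.1 i j‖ ≤ B} ∩ U p (Fr π)) :=
    (bdd_compact p n B).inter_right (u_closed _)
  have h3 : IsCompact ((Kp p n : Set (SLp p n)) ∩ U p (Dr π)) :=
    (kp_compact p n).inter_right (u_closed _)
  exact (h1.mul_right_of_isCompact h2).mul_right_of_isCompact h3

/-- `conj_small` for one element -/
theorem GfB_conj (g : SLp p n) (m : ℕ) : ∃ m' : ℕ, ∀ x ∈ Km p n m',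
    g * x * g⁻¹ ∈ Km p n m ∧ g⁻¹ * x * g ∈ Km p n m := by
  obtain ⟨m', h⟩ := conj_small p n (∑ i, ∑ j, ‖g.1 i j‖) m
  refine ⟨m', fun x hx => h g (fun i j => ?_) x hx⟩
  have h1 : ‖g.1 i j‖ ≤ ∑ j, ‖g.1 i j‖ :=
    Finset.single_le_sum (f := fun j => ‖g.1 i j‖) (fun _ _ => norm_nonneg _) (Finset.mem_univ j)
  have h2 : ∑ j, ‖g.1 i j‖ ≤ ∑ i, ∑ j, ‖g.1 i j‖ :=
    Finset.single_le_sum (f := fun i => ∑ j, ‖g.1 i j‖)
      (fun _ _ => Finset.sum_nonneg fun _ _ => norm_nonneg _) (Finset.mem_univ i)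
  exact h1.trans h2

theorem GfB_Fr_Lo {π : Equiv.Perm (Fin n)} {f : SLp p n} (hf : f ∈ U p (Fr π)) :
    f ∈ U p (Lo : Fin n → Fin n → Prop) := U_mono (fun _ _ h => h.1) hf

theorem gf_norm {χ : Tor p n →* Cˣ} {v : Fin n → ℝ} (hs : Slope χ v) {π : Equiv.Perm (Fin n)}
    (hg : Good v π) {ψ : SLp p n → C} (hsupp : ∀ d ∈ U p (Dr π), d ∉ Kp p n → ψ d = 0) {A : ℝ}
    (hA0 : 0 ≤ A) (hA : ∀ d ∈ U p (Dr π), ‖ψ d‖ ≤ A) {k : SLp p n} (hk : k ∈ Kp p n) :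
    ‖Gf χ π ψ k‖ ≤ A := by
  by_cases h0 : Gf χ π ψ k = 0
  · rw [h0, norm_zero]
    exact hA0
  obtain ⟨b, hb, f, hf, d, hd, hkk, hψ, hG⟩ := gf_ne h0
  have hdK : d ∈ Kp p n := by
    by_contra hnot
    exact hψ (hsupp d hd hnot)
  have h1 : Om v k = 1 := om_kp v hk
  rw [hkk, om_right v hdK, om_cb hs hb] at h1
  have h2 : 1 ≤ Om v f := good_ge hg hf
  have h3 : ‖cb χ b‖ ≤ 1 := by
    have h4 : 0 ≤ ‖cb χ b‖ := norm_nonneg _
    nlinarith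
  rw [hG, norm_mul]
  calc ‖cb χ b‖ * ‖ψ d‖ ≤ 1 * A := mul_le_mul h3 (hA d hd) (norm_nonneg _) zero_le_one
    _ = A := one_mul A

/-- continuity at the points of the cell -/
theorem GfB_case1 {χ : Tor p n →* Cˣ} (hχ : Continuous χ) {π : Equiv.Perm (Fin n)}
    {ψ : SLp p n → C} (hψ : Continuous ψ) {b f d : SLp p n} (hb : b ∈ Bp p n)
    (hf : f ∈ U p (Fr π)) (hd : d ∈ U p (Dr π)) {ε : ℝ} (hε : 0 < ε) :
    ∃ m : ℕ, ∀ y ∈ Km p n m, ‖Gf χ π ψ (b * f * d * y) - Gf χ π ψ (b * f * d)‖ ≤ ε := by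
  have hB : 0 < ‖cb χ b‖ + 1 := by positivity
  have hP : 0 < ‖ψ d‖ + 1 := by positivity
  have hδ : 0 < min 1 (ε / (2 * (‖cb χ b‖ + 1))) := lt_min one_pos (by positivity)
  have hη : 0 < ε / (2 * (‖cb χ b‖ + 1) * (‖ψ d‖ + 1)) := by positivity
  obtain ⟨ma, hma⟩ := unif hψ (isCompact_singleton (x := d)) hδ
  obtain ⟨mb, hmb⟩ := GfB_conj d ma
  obtain ⟨mc, hmc1, hmc⟩ := cb_near (C := C) hχ hη
  obtain ⟨mf, hmf⟩ := GfB_conj f mb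
  obtain ⟨m, hm⟩ := GfB_conj (f * d) (max mf mc)
  refine ⟨m, fun y hy => ?_⟩
  have hM1 : 1 ≤ max mf mc := hmc1.trans (le_max_right _ _)
  obtain ⟨b₁, hb₁, u₁, hu₁, hy₁, hb₁M, hu₁M⟩ := cell_small hM1 (hm y hy).1
  have hu₂ : f⁻¹ * u₁ * f ∈ Km p n mb := (hmf u₁ (km_anti (le_max_left _ _) hu₁M)).2
  have hfLo : f ∈ U p (Lo : Fin n → Fin n → Prop) := GfB_Fr_Lo hf
  have hu₂Lo : f⁻¹ * u₁ * f ∈ U p (Lo : Fin n → Fin n → Prop) :=
    U_mul so_Lo (U_mul so_Lo (U_inv so_Lo hfLo) hu₁) hfLo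
  obtain ⟨f₃, hf₃, d₃, hd₃, hu₂e, _, hu₂m⟩ := lu_fd π hu₂Lo
  have hd₃m : d₃ ∈ Km p n mb := (hu₂m mb hu₂).2
  have hxy : b * f * d * y = (b * b₁) * (f * f₃) * (d₃ * d) := by
    have e1 : b * f * d * y = b * ((f * d) * y * (f * d)⁻¹) * (f * d) := by group
    have e2 : (b * b₁) * (f * f₃) * (d₃ * d) = b * b₁ * f * (f₃ * d₃) * d := by group
    rw [e1, hy₁, e2, ← hu₂e]
    group
  have hG1 : Gf χ π ψ (b * f * d * y) = cb χ b * cb χ b₁ * ψ (d₃ * d) := by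
    rw [hxy, gf_eq ψ ((Bp p n).mul_mem hb hb₁) (U_mul (so_Fr π) hf hf₃) (U_mul (so_Dr π) hd₃ hd),
      cb_mul χ hb hb₁]
  have hG0 : Gf χ π ψ (b * f * d) = cb χ b * ψ d := gf_eq ψ hb hf hd
  have hψ1 : ‖ψ (d₃ * d) - ψ d‖ ≤ min 1 (ε / (2 * (‖cb χ b‖ + 1))) := by
    have h := hma d rfl (d⁻¹ * d₃ * d) (hmb d₃ hd₃m).2
    have e : d * (d⁻¹ * d₃ * d) = d₃ * d := by group
    rwa [e] at h
  have hψ2 : ‖ψ (d₃ * d)‖ ≤ ‖ψ d‖ + 1 := by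
    have h := norm_add_le (ψ d) (ψ (d₃ * d) - ψ d)
    rw [add_sub_cancel] at h
    exact h.trans (add_le_add le_rfl (hψ1.trans (min_le_left _ _)))
  have hcb : ‖cb χ b₁ - 1‖ ≤ ε / (2 * (‖cb χ b‖ + 1) * (‖ψ d‖ + 1)) :=
    hmc b₁ hb₁ (km_anti (le_max_right _ _) hb₁M)
  have hsplit : Gf χ π ψ (b * f * d * y) - Gf χ π ψ (b * f * d) =
      cb χ b * ((cb χ b₁ - 1) * ψ (d₃ * d) + (ψ (d₃ * d) - ψ d)) := by
    rw [hG1, hG0]
    ring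
  rw [hsplit, norm_mul]
  have h1 : ‖(cb χ b₁ - 1) * ψ (d₃ * d)‖ ≤ ε / (2 * (‖cb χ b‖ + 1)) := by
    rw [norm_mul]
    calc ‖cb χ b₁ - 1‖ * ‖ψ (d₃ * d)‖
        ≤ ε / (2 * (‖cb χ b‖ + 1) * (‖ψ d‖ + 1)) * (‖ψ d‖ + 1) :=
          mul_le_mul hcb hψ2 (norm_nonneg _) hη.le
      _ = ε / (2 * (‖cb χ b‖ + 1)) := by
          field_simp
  have h2 : ‖(cb χ b₁ - 1) * ψ (d₃ * d) + (ψ (d₃ * d) - ψ d)‖ ≤
      ε / (2 * (‖cb χ b‖ + 1)) + ε / (2 * (‖cb χ b‖ + 1)) :=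
    (norm_add_le _ _).trans (add_le_add h1 (hψ1.trans (min_le_right _ _)))
  have h3 : ε / (2 * (‖cb χ b‖ + 1)) + ε / (2 * (‖cb χ b‖ + 1)) = ε / (‖cb χ b‖ + 1) := by
    field_simp
    ring
  rw [h3] at h2
  calc ‖cb χ b‖ * ‖(cb χ b₁ - 1) * ψ (d₃ * d) + (ψ (d₃ * d) - ψ d)‖
      ≤ (‖cb χ b‖ + 1) * (ε / (‖cb χ b‖ + 1)) :=
        mul_le_mul (by linarith) h2 (norm_nonneg _) hB.le
    _ = ε := by field_simp

open scoped Pointwise in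
/-- continuity at the points outside of the cell -/
theorem GfB_case2 {χ : Tor p n →* Cˣ} {v : Fin n → ℝ} (hs : Slope χ v)
    {π : Equiv.Perm (Fin n)} (hg : Good v π) {ψ : SLp p n → C} (hψ : Continuous ψ)
    (hsupp : ∀ d ∈ U p (Dr π), d ∉ Kp p n → ψ d = 0) {x : SLp p n}
    (hx : ∀ b ∈ Bp p n, ∀ f ∈ U p (Fr π), ∀ d ∈ U p (Dr π), x ≠ b * f * d) {ε : ℝ} (hε : 0 < ε) :
    ∃ m : ℕ, ∀ y ∈ Km p n m, ‖Gf χ π ψ (x * y)‖ ≤ ε := by
  obtain ⟨A, hA0, hA⟩ := ps_bdd hψ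
  obtain ⟨B, hB⟩ := good_proper p hg (Om v x * A / ε)
  have hT := GfB_closed (p := p) π B
  set T : Set (SLp p n) := ((Bp p n : Set (SLp p n)) *
    ({x : SLp p n | ∀ i j, ‖x.1 i j‖ ≤ B} ∩ U p (Fr π))) *
      ((Kp p n : Set (SLp p n)) ∩ U p (Dr π)) with hTdef
  have hxT : x ∉ T := by
    intro hmem
    obtain ⟨z, hz, d, hd, hzd⟩ := Set.mem_mul.mp hmem
    obtain ⟨b, hb, f, hf, hbf⟩ := Set.mem_mul.mp hz
    refine hx b hb f hf.2 d hd.2 ?_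
    rw [← hzd, ← hbf]
  have hc : Continuous fun y : SLp p n => x * y := continuous_const.mul continuous_id
  have hnhds : (fun y : SLp p n => x * y) ⁻¹' Tᶜ ∈ 𝓝 (1 : SLp p n) := by
    refine (hT.isOpen_compl.preimage hc).mem_nhds ?_
    show x * 1 ∈ Tᶜ
    rw [mul_one]
    exact hxT
  obtain ⟨m, hm⟩ := km_nhds hnhds
  refine ⟨m, fun y hy => ?_⟩
  by_contra hlt
  have hlt' : ε < ‖Gf χ π ψ (x * y)‖ := not_le.mp hlt
  have h0 : Gf χ π ψ (x * y) ≠ 0 := by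
    intro h
    rw [h, norm_zero] at hlt'
    exact absurd hlt' (not_lt.mpr hε.le)
  obtain ⟨b, hb, f, hf, d, hd, hxy, hψd, hG⟩ := gf_ne h0
  have hdK : d ∈ Kp p n := by
    by_contra hnot
    exact hψd (hsupp d hd hnot)
  have hom : Om v x = ‖cb χ b‖ * Om v f := by
    have e1 : Om v (x * y) = Om v x := om_right v (km_le_kp hy) x
    rw [← e1, hxy, om_right v hdK, om_cb hs hb]
  have hcb : ε < ‖cb χ b‖ * A := by
    rw [hG, norm_mul] at hlt'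
    exact lt_of_lt_of_le hlt' (mul_le_mul_of_nonneg_left (hA d hdK) (norm_nonneg _))
  have homf : Om v f ≤ Om v x * A / ε := by
    rw [le_div_iff₀ hε, hom]
    have h1 : 0 < Om v f := om_pos v f
    nlinarith
  refine hm y hy ?_
  show x * y ∈ T
  rw [hxy]
  exact Set.mul_mem_mul (Set.mul_mem_mul hb ⟨hB f hf homf, hf⟩) ⟨hdK, hd⟩

theorem gf_ps {χ : Tor p n →* Cˣ} (hχ : Continuous χ) {v : Fin n → ℝ} (hs : Slope χ v)
    {π : Equiv.Perm (Fin n)} (hg : Good v π) {ψ : SLp p n → C} (hψ : Continuous ψ)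
    (hsupp : ∀ d ∈ U p (Dr π), d ∉ Kp p n → ψ d = 0) : IsPS χ (Gf χ π ψ) := by
  rw [isPS_iff]
  refine ⟨?_, fun b hb g => gf_left ψ hb g⟩
  rw [continuous_iff_continuousAt]
  intro x
  have key : ∀ ε : ℝ, 0 < ε → ∃ m : ℕ, ∀ y ∈ Km p n m, ‖Gf χ π ψ (x * y) - Gf χ π ψ x‖ ≤ ε := by
    intro ε hε
    by_cases hx : ∃ b ∈ Bp p n, ∃ f ∈ U p (Fr π), ∃ d ∈ U p (Dr π), x = b * f * d
    · obtain ⟨b, hb, f, hf, d, hd, rfl⟩ := hx
      exact GfB_case1 hχ hψ hb hf hd hε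
    · have hx' : ∀ b ∈ Bp p n, ∀ f ∈ U p (Fr π), ∀ d ∈ U p (Dr π), x ≠ b * f * d :=
        fun b hb f hf d hd h => hx ⟨b, hb, f, hf, d, hd, h⟩
      have hGx : Gf χ π ψ x = 0 := by
        by_contra h0
        obtain ⟨b, hb, f, hf, d, hd, hxx, _⟩ := gf_ne h0
        exact hx' b hb f hf d hd hxx
      obtain ⟨m, hm⟩ := GfB_case2 hs hg hψ hsupp hx' hε
      refine ⟨m, fun y hy => ?_⟩
      rw [hGx, sub_zero]
      exact hm y hy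
  rw [Metric.continuousAt_iff']
  intro ε hε
  obtain ⟨m, hm⟩ := key (ε / 2) (half_pos hε)
  filter_upwards [km_nhds_mul x m] with z hz
  have h := hm (x⁻¹ * z) hz
  rw [mul_inv_cancel_left] at h
  rw [dist_eq_norm]
  exact lt_of_le_of_lt h (half_lt_self hε)

theorem indK_cont (p n : ℕ) [Fact p.Prime] (C : Type*) [NormedField C] :
    Continuous (indK p n C) := by
  rw [continuous_iff_continuousAt]
  intro x
  have h : (fun _ : SLp p n => indK p n C x) =ᶠ[𝓝 x] indK p n C := by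
    filter_upwards [km_nhds_mul x 0] with z hz
    have hzK : x⁻¹ * z ∈ Kp p n := km_le_kp hz
    have hiff : x ∈ Kp p n ↔ z ∈ Kp p n := by
      constructor
      · intro hx
        have := (Kp p n).mul_mem hx hzK
        rwa [mul_inv_cancel_left] at this
      · intro hz'
        have e : x = z * (x⁻¹ * z)⁻¹ := by group
        rw [e]
        exact (Kp p n).mul_mem hz' ((Kp p n).inv_mem hzK)
    unfold indK
    by_cases hx : x ∈ Kp p n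
    · rw [if_pos hx, if_pos (hiff.mp hx)]
    · rw [if_neg hx, if_neg (fun hz' => hx (hiff.mpr hz'))]
  exact (continuousAt_const (y := indK p n C x)).congr h

end Pool.Agent.Lib.MP_f399a8_nt.S
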