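import Pool.Agent.Lib.MP_f399a8_ntS.IoB

/-!
# The parabolic subgroup of the adjacent pair

`Bt p (qb π i j)`: block upper triangular matrices for the order `π` with the block `{j, i}`.

PROOF.  Let `Adj π i j`.  `qb b < qb a` for `(a, b)`: equivalent to `π b < π a` except for `(i, j)`, where it is
false.
* `u_Pb`, `iota_Pb`, `dr_sw_Pb`: look at the entries.
* `pb_Bp`: for `π b < π a` and `(a, b) ≠ (i, j)` the entry vanishes by `Bt (qb ..)`, and for `(i, j)`, `j < i`, by
  `Bp`.
* `bt_split`: `s ∈ Bt π`; `τ` the diagonal matrix with the diagonal of `s`; its determinant is `1` (`det s` is the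
  product of the diagonal entries: reorder by `π`, or `Matrix.BlockTriangular.det_fintype`/
  `Matrix.det_of_upperTriangular` for `s.submatrix π.symm π.symm`).  `x = τ⁻¹ * s ∈ U (Ord π)`, `x = e * d` by `lu_er`,
  `b = τ * e`.
* `pb_split`: `y ∈ Bt (qb)`.  If `y i i ≠ 0` let `z = y i j / y i i`; `s := y * iota (lo2 (-z))` has
  `s i j = y i j - z * y i i = 0`, so `s ∈ Bt π`, `y = s * iota (lo2 z)`, use `bt_split`.  If `y i i = 0` then
  `s := y * (iota w2)⁻¹` has `s i j = 0` (`iota_mul_r` with `w2⁻¹ = !![0, -1; 1, 0]`: column `j` of `y * iota w2⁻¹` is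
  column `i` of `y`, so `s i j = y i i = 0`), so `s ∈ Bt π`, `y = s * iota w2`.
* `pb_conj`: the entry `(a, b)` of `t^M * y * (t^M)⁻¹` is `p ^ (M * (e a - e b)) * y a b`; if `y a b ≠ 0` then
  `π a ≤ π b` or `(a, b) = (i, j)`, in both cases `e b ≤ e a`.
* `dw_notin`: suppose `d * iota w2 = b * u`, `u ∈ U Lo`.  Let `c = b⁻¹ ∈ Bp`: `c * (d * iota w2) = u`.  Row `i`:
  `u i b' = ∑_{a ≥ i} c i a * (d * iota w2) a b'`.  By `iota_mul_r` `(d * iota w2) a b' = d a b'` for
  `b' ≠ i, j`, and `(d * iota w2) a i = d a j`.  For `b' > i`: `0 = u i b' = ∑_{a ≥ i} c i a * d a b'`, and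
  `d a b' = 0` for `a < b'` (`d` lower triangular), `d b' b' = 1`: downward induction on `b'` gives
  `c i b' = 0` for all `b' > i`.  So `1 = u i i = c i i * d i j = 0` since `¬ Dr π i j`.
-/

namespace Pool.Agent.Lib.MP_f399a8_nt.S

open Matrix Filter Topology

noncomputable section

variable {p : ℕ} [Fact p.Prime] {n : ℕ} {C : Type*} [NormedField C]

/-- positions with `i` and `j` identified -/
def qb (π : Equiv.Perm (Fin n)) (i j : Fin n) : Fin n → Fin n := fun a => if a = i then π j else π a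

variable {π : Equiv.Perm (Fin n)} {i j : Fin n}

theorem IoC_qb (h : Adj π i j) {a b : Fin n} (hab : qb π i j b < qb π i j a) :
    π b < π a ∧ ¬ (a = i ∧ b = j) := by
  have hadj := h.adj
  have hji : j ≠ i := h.lt.ne
  have hj : qb π i j j = π j := by
    unfold qb
    rw [if_neg hji]
  have hi : qb π i j i = π j := by
    unfold qb
    rw [if_pos rfl]
  refine ⟨?_, ?_⟩
  · rcases eq_or_ne a i with rfl | ha
    · rcases eq_or_ne b a with rfl | hb
      · exact absurd hab (lt_irrefl _)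
      · have h1 : qb π a j b = π b := by
          unfold qb
          rw [if_neg hb]
        rw [h1, hi, Fin.lt_def] at hab
        rw [Fin.lt_def]
        omega
    · have h2 : qb π i j a = π a := by
        unfold qb
        rw [if_neg ha]
      rcases eq_or_ne b i with rfl | hb
      · rw [h2, hi, Fin.lt_def] at hab
        have h3 : (π a : ℕ) ≠ (π b : ℕ) := fun h3 => ha (π.injective (Fin.ext h3))
        rw [Fin.lt_def]
        omega
      · have h1 : qb π i j b = π b := by
          unfold qb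
          rw [if_neg hb]
        rwa [h1, h2] at hab
  · rintro ⟨rfl, rfl⟩
    rw [hi, hj] at hab
    exact lt_irrefl _ hab

theorem IoC_qb' (h : Adj π i j) {a b : Fin n} (hab : π b < π a) (hne : ¬ (a = i ∧ b = j)) :
    qb π i j b < qb π i j a := by
  have hadj := h.adj
  have hji : j ≠ i := h.lt.ne
  have hi : qb π i j i = π j := by
    unfold qb
    rw [if_pos rfl]
  rcases eq_or_ne a i with rfl | ha
  · have hbj : b ≠ j := fun h1 => hne ⟨rfl, h1⟩
    have hba : b ≠ a := by
      rintro rfl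
      exact lt_irrefl _ hab
    have h1 : qb π a j b = π b := by
      unfold qb
      rw [if_neg hba]
    have h3 : (π b : ℕ) ≠ (π j : ℕ) := fun h3 => hbj (π.injective (Fin.ext h3))
    rw [Fin.lt_def] at hab
    rw [h1, hi, Fin.lt_def]
    omega
  · have h2 : qb π i j a = π a := by
      unfold qb
      rw [if_neg ha]
    rcases eq_or_ne b i with rfl | hb
    · rw [Fin.lt_def] at hab
      rw [h2, hi, Fin.lt_def]
      omega
    · have h1 : qb π i j b = π b := by
        unfold qb
        rw [if_neg hb]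
      rwa [h1, h2]

theorem IoC_ne {a b : Fin n} (hab : π b < π a) : a ≠ b := by
  rintro rfl
  exact lt_irrefl _ hab

/-- an element of `Bt (qb ..)` whose entry `(i, j)` vanishes is in `Bt π` -/
theorem IoC_pb (h : Adj π i j) {x : SLp p n} (hx : x ∈ Bt p (qb π i j)) (h0 : x.1 i j = 0) :
    x ∈ Bt p π := by
  intro a b hab
  by_cases hne : a = i ∧ b = j
  · rw [hne.1, hne.2]
    exact h0
  · exact hx a b (IoC_qb' h hab hne)

theorem u_Pb (h : Adj π i j) {x : SLp p n} (hx : x ∈ Bt p π) : x ∈ Bt p (qb π i j) :=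
  fun a b hab => hx a b (IoC_qb h hab).1

theorem dr_Bt {x : SLp p n} (hx : x ∈ U p (Dr π)) : x ∈ Bt p π :=
  U_Bt (fun _ _ h => h.2) hx

theorem dr_sw_Pb (h : Adj π i j) {x : SLp p n} (hx : x ∈ U p (Dr (sw π i j))) :
    x ∈ Bt p (qb π i j) := by
  intro a b hab
  obtain ⟨h1, h2⟩ := IoC_qb h hab
  refine U_zero hx (IoC_ne h1) ?_
  rw [dr_sw h]
  rintro (h3 | h3)
  · exact lt_asymm h1 h3.2
  · exact h2 h3

theorem iota_Pb (h : Adj π i j) (l : SLp p 2) : iota i j h.lt.ne l ∈ Bt p (qb π i j) := by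
  intro a b hab
  obtain ⟨h1, h2⟩ := IoC_qb h hab
  have hadj := h.adj
  have hoff : (a ≠ i ∧ a ≠ j) ∨ (b ≠ i ∧ b ≠ j) := by
    by_contra hcon
    rw [not_or] at hcon
    obtain ⟨h3, h4⟩ := hcon
    have ha : a = i ∨ a = j := by
      by_contra h5
      rw [not_or] at h5
      exact h3 h5
    have hb : b = i ∨ b = j := by
      by_contra h5
      rw [not_or] at h5
      exact h4 h5
    rcases ha with rfl | rfl <;> rcases hb with rfl | rfl
    · exact lt_irrefl _ h1
    · exact h2 ⟨rfl, rfl⟩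
    · rw [Fin.lt_def] at h1
      omega
    · exact lt_irrefl _ h1
  rw [iota_off h.lt.ne l hoff]
  exact Matrix.one_apply_ne (IoC_ne h1)

theorem up2_Bt (h : Adj π i j) {a : ℚ_[p]} (ha : a ≠ 0) (c : ℚ_[p]) :
    iota i j h.lt.ne (up2 a ha c) ∈ Bt p π := by
  refine IoC_pb h (iota_Pb h _) ?_
  rw [iota_ij]
  rfl

theorem pb_Bp (h : Adj π i j) {b : SLp p n} (hb : b ∈ Bp p n) (hb' : b ∈ Bt p (qb π i j)) :
    b ∈ Bt p π :=
  IoC_pb h hb' (hb i j h.lt)

theorem IoC_prod {s : SLp p n} (hs : s ∈ Bt p π) : ∏ k, s.1 k k = 1 := by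
  have h1 : (s.1.submatrix π.symm π.symm).det = s.1.det := Matrix.det_submatrix_equiv_self π.symm s.1
  have h2 : (s.1.submatrix π.symm π.symm).BlockTriangular id := by
    intro a b hab
    show s.1 (π.symm a) (π.symm b) = 0
    refine hs _ _ ?_
    rw [Equiv.apply_symm_apply, Equiv.apply_symm_apply]
    exact hab
  have h3 := Matrix.det_of_isUpperTriangular h2
  rw [h1, s.2] at h3
  have h4 : ∏ k, (s.1.submatrix π.symm π.symm) k k = ∏ k, s.1 k k :=
    Equiv.prod_comp π.symm (fun k => s.1 k k)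
  rw [← h4, ← h3]

theorem bt_split {s : SLp p n} (hs : s ∈ Bt p π) :
    ∃ b ∈ Bp p n, b ∈ Bt p π ∧ ∃ d ∈ U p (Dr π), s = b * d := by
  have hprod := IoC_prod hs
  have hne : ∀ k, s.1 k k ≠ 0 := by
    intro k hk
    have h1 : ∏ k, s.1 k k = 0 := Finset.prod_eq_zero (f := fun k => s.1 k k) (Finset.mem_univ k) hk
    rw [h1] at hprod
    exact zero_ne_one hprod
  let τ : SLp p n := ⟨Matrix.diagonal (fun k => s.1 k k), by rw [Matrix.det_diagonal, hprod]⟩
  let τ' : SLp p n := ⟨Matrix.diagonal (fun k => (s.1 k k)⁻¹), by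
    rw [Matrix.det_diagonal, Finset.prod_inv_distrib, hprod, inv_one]⟩
  have hττ : τ * τ' = 1 := by
    apply Subtype.ext
    show Matrix.diagonal (fun k => s.1 k k) * Matrix.diagonal (fun k => (s.1 k k)⁻¹) = 1
    rw [Matrix.diagonal_mul_diagonal]
    have h1 : (fun k => s.1 k k * (s.1 k k)⁻¹) = fun _ => (1 : ℚ_[p]) := by
      funext k
      exact mul_inv_cancel₀ (hne k)
    rw [h1, Matrix.diagonal_one]
  have hx : τ' * s ∈ U p (Ord π) := by
    intro a b hab
    have h1 : (τ' * s).1 a b = (s.1 a a)⁻¹ * s.1 a b := by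
      show (Matrix.diagonal (fun k => (s.1 k k)⁻¹) * s.1) a b = _
      rw [Matrix.diagonal_mul]
    rw [h1]
    rcases eq_or_ne a b with rfl | hne2
    · rw [Matrix.one_apply_eq, inv_mul_cancel₀ (hne a)]
    · rw [Matrix.one_apply_ne hne2]
      have h2 : π b < π a := by
        rcases lt_trichotomy (π a) (π b) with h3 | h3 | h3
        · exact absurd h3 hab
        · exact absurd (π.injective h3) hne2
        · exact h3
      rw [hs a b h2, mul_zero]
  have hτ : ∀ {α : Type} [LinearOrder α] (f : Fin n → α), τ ∈ Bt p f := by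
    intro α _ f a b hab
    show Matrix.diagonal (fun k => s.1 k k) a b = 0
    refine Matrix.diagonal_apply_ne _ ?_
    rintro rfl
    exact lt_irrefl _ hab
  obtain ⟨e, he, d, hd, hxe, -⟩ := lu_er π hx
  refine ⟨τ * e, (Bp p n).mul_mem (hτ id) (U_Bp (fun _ _ h => h.1) he),
    (Bt p π).mul_mem (hτ π) (U_Bt (fun _ _ h => h.2) he), d, hd, ?_⟩
  rw [mul_assoc, ← hxe, ← mul_assoc, hττ, one_mul]

theorem pb_split (h : Adj π i j) {y : SLp p n} (hy : y ∈ Bt p (qb π i j)) :
    ∃ b ∈ Bp p n, b ∈ Bt p π ∧ ∃ d ∈ U p (Dr π),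
      (∃ z : ℚ_[p], y = b * d * iota i j h.lt.ne (lo2 z)) ∨ y = b * d * iota i j h.lt.ne (w2 p) := by
  by_cases h0 : y.1 i i = 0
  · let w' : SLp p 2 := ⟨!![0, -1; 1, 0], by simp [Matrix.det_fin_two]⟩
    have hw : w' * w2 p = 1 := by
      apply Subtype.ext
      show !![(0 : ℚ_[p]), -1; 1, 0] * !![0, 1; -1, 0] = 1
      ext a b
      fin_cases a <;> fin_cases b <;> simp [Matrix.mul_apply, Fin.sum_univ_two]
    have hs : y * iota i j h.lt.ne w' ∈ Bt p π := by
      refine IoC_pb h ((Bt p (qb π i j)).mul_mem hy (iota_Pb h _)) ?_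
      rw [iota_mul_r, if_pos rfl, h0]
      show y.1 i j * 0 + 0 * 1 = 0
      ring
    obtain ⟨b, hb, hb2, d, hd, hbd⟩ := bt_split hs
    refine ⟨b, hb, hb2, d, hd, Or.inr ?_⟩
    rw [← hbd, mul_assoc, ← map_mul, hw, map_one, mul_one]
  · let z : ℚ_[p] := y.1 i j / y.1 i i
    have hs : y * iota i j h.lt.ne (lo2 (-z)) ∈ Bt p π := by
      refine IoC_pb h ((Bt p (qb π i j)).mul_mem hy (iota_Pb h _)) ?_
      rw [iota_mul_r, if_pos rfl]
      show y.1 i j * 1 + y.1 i i * (-z) = 0
      have h1 : y.1 i i * z = y.1 i j := mul_div_cancel₀ _ h0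
      rw [mul_neg, h1, mul_one, add_neg_cancel]
    obtain ⟨b, hb, hb2, d, hd, hbd⟩ := bt_split hs
    refine ⟨b, hb, hb2, d, hd, Or.inl ⟨z, ?_⟩⟩
    rw [← hbd, mul_assoc, ← map_mul, lo2_mul, neg_add_cancel, lo2_zero, map_one, mul_one]

theorem pb_conj (h : Adj π i j) {e : Fin n → ℤ} {t : SLp p n} (ht : IsDg e t)
    (he : ∀ a b, π a < π b → e b ≤ e a) (heij : e i = e j) {y : SLp p n}
    (hy : y ∈ Bt p (qb π i j)) (hyK : y ∈ Kp p n) (M : ℕ) : t ^ M * y * (t ^ M)⁻¹ ∈ Kp p n := by
  intro a b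
  rw [dg_pow_conj ht M y a b]
  by_cases h0 : y.1 a b = 0
  · rw [h0, mul_zero, norm_zero]
    exact zero_le_one
  · have hle : e b ≤ e a := by
      by_cases hne : a = i ∧ b = j
      · rw [hne.1, hne.2, heij]
      · rcases lt_trichotomy (π a) (π b) with h1 | h1 | h1
        · exact he a b h1
        · rw [π.injective h1]
        · exact absurd (hy a b (IoC_qb' h h1 hne)) h0
    rw [norm_mul, Padic.norm_p_zpow]
    have hp : (1 : ℝ) ≤ (p : ℝ) := by exact_mod_cast (Fact.out : p.Prime).one_lt.le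
    have h2 : (p : ℝ) ^ (-((M : ℤ) * (e a - e b))) ≤ 1 := by
      refine zpow_le_one_of_nonpos₀ hp ?_
      have h3 : 0 ≤ (M : ℤ) * (e a - e b) := mul_nonneg (by positivity) (by linarith)
      linarith
    exact mul_le_one₀ h2 (norm_nonneg _) (hyK a b)

theorem dw_notin (h : Adj π i j) {d b u : SLp p n} (hd : d ∈ U p (Dr π)) (hb : b ∈ Bp p n)
    (hu : u ∈ U p (Lo : Fin n → Fin n → Prop)) : d * iota i j h.lt.ne (w2 p) ≠ b * u := by
  intro heq
  have hc : b⁻¹ ∈ Bp p n := (Bp p n).inv_mem hb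
  have hcu : b⁻¹ * (d * iota i j h.lt.ne (w2 p)) = u := by
    rw [heq, ← mul_assoc, inv_mul_cancel, one_mul]
  have hent : ∀ k, u.1 i k = ∑ a, (b⁻¹).1 i a * (d * iota i j h.lt.ne (w2 p)).1 a k := by
    intro k
    rw [← hcu]
    show ((b⁻¹).1 * (d * iota i j h.lt.ne (w2 p)).1) i k = _
    rw [Matrix.mul_apply]
  have hdlow : ∀ a k, a < k → d.1 a k = 0 := by
    intro a k hak
    exact U_zero hd hak.ne fun h1 => lt_asymm hak h1.1
  have hd1 : ∀ k, d.1 k k = 1 := fun k => U_diag (so_Dr π) hd k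
  -- the entries of `b⁻¹` in row `i` after the diagonal vanish
  have hzero : ∀ m : ℕ, ∀ k : Fin n, i < k → n ≤ (k : ℕ) + m + 1 → (b⁻¹).1 i k = 0 := by
    intro m
    induction m with
    | zero =>
      intro k hik hm
      have h1 := hent k
      rw [U_zero hu hik.ne (fun h2 => lt_asymm hik h2)] at h1
      rw [Finset.sum_eq_single k] at h1
      · rw [iota_mul_r, if_neg (h.lt.trans hik).ne', if_neg hik.ne', hd1, mul_one] at h1
        exact h1.symm
      · intro a _ hak
        rw [iota_mul_r, if_neg (h.lt.trans hik).ne', if_neg hik.ne']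
        rcases lt_or_gt_of_ne hak with h2 | h2
        · rw [hdlow a k h2, mul_zero]
        · exfalso
          rw [Fin.lt_def] at h2
          have := a.2
          omega
      · intro h2
        exact absurd (Finset.mem_univ k) h2
    | succ m ih =>
      intro k hik hm
      have h1 := hent k
      rw [U_zero hu hik.ne (fun h2 => lt_asymm hik h2)] at h1
      rw [Finset.sum_eq_single k] at h1
      · rw [iota_mul_r, if_neg (h.lt.trans hik).ne', if_neg hik.ne', hd1, mul_one] at h1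
        exact h1.symm
      · intro a _ hak
        rw [iota_mul_r, if_neg (h.lt.trans hik).ne', if_neg hik.ne']
        rcases lt_or_gt_of_ne hak with h2 | h2
        · rw [hdlow a k h2, mul_zero]
        · rw [ih a (hik.trans h2) (by rw [Fin.lt_def] at h2; omega), zero_mul]
      · intro h2
        exact absurd (Finset.mem_univ k) h2
  have h1 := hent i
  rw [U_diag so_Lo hu] at h1
  rw [Finset.sum_eq_single i] at h1
  · rw [iota_mul_r, if_neg h.lt.ne', if_pos rfl] at h1
    have h2 : d.1 i j = 0 := by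
      refine U_zero hd h.lt.ne' fun h3 => ?_
      have h4 := h3.2
      have h5 := h.adj
      rw [Fin.lt_def] at h4
      omega
    have h6 : (w2 p).1 1 1 = 0 := rfl
    rw [h2, h6, zero_mul, mul_zero, add_zero, mul_zero] at h1
    exact one_ne_zero h1
  · intro a _ hai
    rcases lt_or_gt_of_ne hai with h2 | h2
    · have h3 : (b⁻¹).1 i a = 0 := hc i a h2
      rw [h3, zero_mul]
    · rw [hzero n a h2 (by omega), zero_mul]
  · intro h2
    exact absurd (Finset.mem_univ i) h2

end

end Pool.Agent.Lib.MP_f399a8_nt.S
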