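import Pool.Agent.Lib.MP_f399a8_ntS.ChA
import Pool.Agent.Lib.MP_f399a8_ntS.IoC
import Pool.Agent.Lib.MP_f399a8_ntS.GfB

/-!
# The functions `Gf` on the `SL_2` of a simple root

`Adj π i j` and `i = j + 1` as indices, `π' = sw π i j`, `ι = iota i j _`.

PROOF of `gi1`: if `l 1 1 ≠ 0`: `l = up2 a c * lo2 y` (`sl2_case1`), `a = l 1 1`.  With `B₁ = ι (up2 a c) ∈ Bp`
(`iota_Bp`): `b * f * ι l * d = (b * B₁) * ((B₁⁻¹ * f * B₁) * ι (lo2 y)) * d`, where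
`B₁⁻¹ * f * B₁ ∈ U (Fr π')` (`fr_norm2`), its product with `ι (lo2 y)` is in `U (Fr π)` (`fr_mul`).  `gf_eq`, and
`cb χ B₁ = chr χ i j a` (`iota_cb`, `chr_apply`).  If `l 1 1 = 0` the right side is `0` (`map_zero`), and
`l = up2 a c * w2` (`sl2_case2`), `b * f * ι l * d = b * B₁ * f₁ * ι w2 * d`, `f₁ ∈ U (Fr π')`,
`= (b * B₁) * ι w2 * (f₂ * d)`, `f₂ = (ι w2)⁻¹ * f₁ * ι w2 ∈ U (Fr π') ⊆ U Lo`.  If `Gf` were not `0` there, it would be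
`b' * f' * d'` (`gf_ne`), and `1 * ι w2 = ((b * B₁)⁻¹ * b') * (f' * d' * (f₂ * d)⁻¹)` contradicts `dw_notin` with `d = 1`.
PROOF of `gi2`: the same: for `l 1 1 ≠ 0`, `b * f * ι l * d = (b * B₁) * (B₁⁻¹ f B₁) * (ι (lo2 y) * d)` with
`ι (lo2 y) * d ∈ U (Dr π')` (`lo_dr`, `U_mono`/`dr_sw`, `U_mul`), `y = l 1 0 / l 1 1`, and it is integral iff `‖y‖ ≤ 1` and `d`
is integral (`dr_mul_Kp`).  For `l 1 1 = 0`: `l 1 0 ≠ 0` (`det`), so the condition `‖l 1 0‖ ≤ ‖l 1 1‖` fails, and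
`Gf χ π' indK = 0` as above (also an element of `Bp * U Lo`).
PROOF of `gi_cover`: `Gf χ π ψ x ≠ 0`: `x = b * f * d`, `f = f' * ι (lo2 z)` (`fr_split`).  `Gf χ π' ψ x ≠ 0`:
`x = b * f' * u`, `u = d * ι (lo2 z) = ι (lo2 z) * (ι (lo2 z)⁻¹ * d * ι (lo2 z))` (`dr_split`, `dr_norm2`).
PROOF of `gi_norm`: `l = up2 a c * k` with `k ∈ SL_2(ℤ_p)` (`iwasawa` for `n = 2`: an upper triangular element of
`SL_2` is `up2 a c`), so `x = b * f * ι l * d = (b * B₁) * f₁ * ι k * d`.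
-/

namespace Pool.Agent.Lib.MP_f399a8_nt.S

open Matrix Filter Topology

variable {p : ℕ} [Fact p.Prime] {n : ℕ} {C : Type*} [NormedField C]
  {χ : Tor p n →* Cˣ} {π : Equiv.Perm (Fin n)} {i j : Fin n}

theorem GiA_lo {R : Fin n → Fin n → Prop} {x : SLp p n} (hR : ∀ a b, R a b → b < a)
    (hx : x ∈ U p R) : x ∈ U p (Lo : Fin n → Fin n → Prop) := U_mono hR hx

theorem GiA_w0 (h : Adj π i j) (h1 : (i : ℕ) = (j : ℕ) + 1) (π' : Equiv.Perm (Fin n))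
    (ψ : SLp p n → C) {b f d : SLp p n} (hb : b ∈ Bp p n) (hf : f ∈ U p (Fr (sw π i j)))
    {a : ℚ_[p]} (ha : a ≠ 0) (c : ℚ_[p]) (hd : d ∈ U p (Dr π)) :
    Gf χ π' ψ (b * f * iota i j h.lt.ne (up2 a ha c * w2 p) * d) = 0 := by
  by_contra hne
  obtain ⟨b', hb', f', hf', d', hd', hx, -, -⟩ := gf_ne hne
  have hf1 := (fr_norm2 h h1 (up2 a ha c) hf).2
  have hf2 := (fr_norm2 h h1 (w2 p) hf1).2
  have hB : b * iota i j h.lt.ne (up2 a ha c) ∈ Bp p n := mul_mem hb (iota_Bp h.lt ha c)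
  rw [map_mul] at hx
  generalize hBB : iota i j h.lt.ne (up2 a ha c) = B at *
  generalize hWW : iota i j h.lt.ne (w2 p) = w at *
  have key := dw_notin h (U_one (Dr π)) (b := (b * B)⁻¹ * b')
    (u := f' * d' * (w⁻¹ * (B⁻¹ * f * B) * w * d)⁻¹) (mul_mem (inv_mem hB) hb')
    (U_mul so_Lo (U_mul so_Lo (GiA_lo (fun _ _ h => h.1) hf') (GiA_lo (fun _ _ h => h.1) hd'))
      (U_inv so_Lo (U_mul so_Lo (GiA_lo (fun _ _ h => h.1) hf2) (GiA_lo (fun _ _ h => h.1) hd))))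
  apply key
  rw [hWW]
  have h2 : (b * B)⁻¹ * b' * (f' * d' * (w⁻¹ * (B⁻¹ * f * B) * w * d)⁻¹) =
      (b * B)⁻¹ * (b' * f' * d') * (w⁻¹ * (B⁻¹ * f * B) * w * d)⁻¹ := by group
  rw [h2, ← hx]
  group

theorem GiA_move (b f B l d : SLp p n) :
    b * f * (B * l) * d = b * B * (B⁻¹ * f * B) * l * d := by group


theorem gi1 (h : Adj π i j) (h1 : (i : ℕ) = (j : ℕ) + 1) (ψ : SLp p n → C) {b f d : SLp p n}
    (hb : b ∈ Bp p n) (hf : f ∈ U p (Fr (sw π i j))) (l : SLp p 2) (hd : d ∈ U p (Dr π)) :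
    Gf χ π ψ (b * f * iota i j h.lt.ne l * d) = cb χ b * chr χ i j (l.1 1 1) * ψ d := by
  by_cases hl : l.1 1 1 = 0
  · obtain ⟨a, ha, c, hl2⟩ := sl2_case2 l hl
    rw [hl, map_zero, mul_zero, zero_mul, hl2]
    exact GiA_w0 h h1 π ψ hb hf ha c hd
  · have hl2 := sl2_case1 l hl
    have hf1 := (fr_norm2 h h1 (up2 (l.1 1 1) hl (l.1 0 1)) hf).2
    have h3 : chr χ i j (l.1 1 1) = cb χ (iota i j h.lt.ne (up2 (l.1 1 1) hl (l.1 0 1))) := by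
      rw [iota_cb χ h.lt hl, ← chr_apply, Units.val_mk0]
    rw [h3]
    conv_lhs => rw [hl2, map_mul, GiA_move, mul_assoc (b * _)]
    rw [gf_eq ψ (mul_mem hb (iota_Bp h.lt hl _)) (fr_mul h hf1 _) hd,
      cb_mul χ hb (iota_Bp h.lt hl _)]

open Classical in
theorem gi2 (h : Adj π i j) (h1 : (i : ℕ) = (j : ℕ) + 1) {b f d : SLp p n}
    (hb : b ∈ Bp p n) (hf : f ∈ U p (Fr (sw π i j))) (l : SLp p 2) (hd : d ∈ U p (Dr π)) :
    Gf χ (sw π i j) (indK p n C) (b * f * iota i j h.lt.ne l * d) =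
      cb χ b * (if ‖l.1 1 0‖ ≤ ‖l.1 1 1‖ then chr χ i j (l.1 1 1) else 0) * indK p n C d := by
  by_cases hl : l.1 1 1 = 0
  · obtain ⟨a, ha, c, hl2⟩ := sl2_case2 l hl
    rw [hl, map_zero, ite_self, mul_zero, zero_mul, hl2]
    exact GiA_w0 h h1 (sw π i j) (indK p n C) hb hf ha c hd
  · have hl2 := sl2_case1 l hl
    have hf1 := (fr_norm2 h h1 (up2 (l.1 1 1) hl (l.1 0 1)) hf).2
    have h3 : chr χ i j (l.1 1 1) = cb χ (iota i j h.lt.ne (up2 (l.1 1 1) hl (l.1 0 1))) := by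
      rw [iota_cb χ h.lt hl, ← chr_apply, Units.val_mk0]
    rw [h3]
    have hd' : d ∈ U p (Dr (sw π i j)) := U_mono (fun a b hab => (dr_sw h a b).mpr (Or.inl hab)) hd
    have hgd : iota i j h.lt.ne (lo2 (l.1 1 0 / l.1 1 1)) * d ∈ U p (Dr (sw π i j)) :=
      U_mul (so_Dr _) (lo_dr h _) hd'
    have h4 : Gf χ (sw π i j) (indK p n C) (b * f * iota i j h.lt.ne l * d) =
        cb χ b * cb χ (iota i j h.lt.ne (up2 (l.1 1 1) hl (l.1 0 1))) *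
        indK p n C (iota i j h.lt.ne (lo2 (l.1 1 0 / l.1 1 1)) * d) := by
      conv_lhs => rw [hl2, map_mul, GiA_move, mul_assoc (b * _ * _)]
      rw [gf_eq _ (mul_mem hb (iota_Bp h.lt hl _)) hf1 hgd, cb_mul χ hb (iota_Bp h.lt hl _)]
    rw [h4]
    have h5 := (dr_mul_Kp h hd (l.1 1 0 / l.1 1 1)).2
    have h6 : ‖l.1 1 0 / l.1 1 1‖ ≤ 1 ↔ ‖l.1 1 0‖ ≤ ‖l.1 1 1‖ := by
      rw [norm_div, div_le_one (norm_pos_iff.mpr hl)]
    unfold indK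
    by_cases hK : d ∈ Kp p n
    · by_cases hz : ‖l.1 1 0‖ ≤ ‖l.1 1 1‖
      · rw [if_pos (h5.mpr ⟨hK, h6.mpr hz⟩), if_pos hz, if_pos hK]
      · rw [if_neg (fun h7 => hz (h6.mp (h5.mp h7).2)), if_neg hz]
        simp
    · rw [if_neg (fun h7 => hK (h5.mp h7).1), if_neg hK]
      simp

theorem gi_cover1 (h : Adj π i j) {ψ : SLp p n → C} {x : SLp p n} (hx : Gf χ π ψ x ≠ 0) :
    ∃ b ∈ Bp p n, ∃ f ∈ U p (Fr (sw π i j)), ∃ l : SLp p 2, ∃ d ∈ U p (Dr π),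
      x = b * f * iota i j h.lt.ne l * d := by
  obtain ⟨b, hb, f, hf, d, hd, rfl, -, -⟩ := gf_ne hx
  obtain ⟨f', hf', z, rfl⟩ := fr_split h hf
  exact ⟨b, hb, f', hf', lo2 z, d, hd, by group⟩

theorem gi_cover2 (h : Adj π i j) (h1 : (i : ℕ) = (j : ℕ) + 1) {ψ : SLp p n → C} {x : SLp p n}
    (hx : Gf χ (sw π i j) ψ x ≠ 0) :
    ∃ b ∈ Bp p n, ∃ f ∈ U p (Fr (sw π i j)), ∃ l : SLp p 2, ∃ d ∈ U p (Dr π),
      x = b * f * iota i j h.lt.ne l * d := by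
  obtain ⟨b, hb, f, hf, u, hu, rfl, -, -⟩ := gf_ne hx
  obtain ⟨d, hd, z, rfl⟩ := dr_split h hu
  exact ⟨b, hb, f, hf, lo2 z, _, (dr_norm2 h h1 (lo2 z) hd).2, by group⟩

theorem gi_norm (h : Adj π i j) (h1 : (i : ℕ) = (j : ℕ) + 1) {b f : SLp p n}
    (hb : b ∈ Bp p n) (hf : f ∈ U p (Fr (sw π i j))) (l : SLp p 2) :
    ∃ b' ∈ Bp p n, ∃ f' ∈ U p (Fr (sw π i j)), ∃ k ∈ Kp p 2,
      b * f * iota i j h.lt.ne l = b' * f' * iota i j h.lt.ne k := by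
  have key : ∀ l1 k : SLp p 2, l = l1 * k → iota i j h.lt.ne l1 ∈ Bp p n → k ∈ Kp p 2 →
      ∃ b' ∈ Bp p n, ∃ f' ∈ U p (Fr (sw π i j)), ∃ k ∈ Kp p 2,
      b * f * iota i j h.lt.ne l = b' * f' * iota i j h.lt.ne k := by
    intro l1 k hl hl1 hk
    refine ⟨b * iota i j h.lt.ne l1, mul_mem hb hl1, _, (fr_norm2 h h1 l1 hf).2, k, hk, ?_⟩
    rw [hl, map_mul]
    group
  by_cases hl : l.1 1 1 = 0
  · obtain ⟨a, ha, c, hl2⟩ := sl2_case2 l hl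
    refine key _ _ hl2 (iota_Bp h.lt ha c) ?_
    intro x y
    fin_cases x <;> fin_cases y <;> simp [w2]
  · obtain ⟨a, ha, c, k, hk, hlo⟩ := lo2_iwa (l.1 1 0 / l.1 1 1)
    have hl2 := sl2_case1 l hl
    rw [hlo, ← mul_assoc] at hl2
    refine key _ _ hl2 ?_ hk
    rw [map_mul]
    exact mul_mem (iota_Bp h.lt hl _) (iota_Bp h.lt ha c)

end Pool.Agent.Lib.MP_f399a8_nt.S
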