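import Pool.Agent.Lib.MP_f399a8_ntS.Bas

/-!
# Unipotent groups

PROOF.
* `U_mul`: for `¬ R i j` every term `x i k * y k j` of `(x * y) i j` with `k ≠ i`, `k ≠ j` vanishes
  (if `x i k ≠ 0` and `y k j ≠ 0` then `R i k` and `R k j`, so `R i j`); if `i = j` the only term is
  `x i i * y i i = 1` (`x i k ≠ 0`, `y k i ≠ 0` with `k ≠ i` would give `R i i`); if `i ≠ j` the terms
  `k = i` and `k = j` vanish as well.
* `U_inv`: let `y = x⁻¹`, so `∑ k, x i k * y k j = 1 i j`.  The relation `R` on the finite type `Fin n`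
  is transitive and irreflexive, so its converse is well founded (`Finite.wellFounded_of_trans_of_irrefl`;
  make the instances `IsTrans`/`IsIrrefl` from `hR`).  Induction on `i` (the claim for all `j` with
  `¬ R i j`, assuming the claim for all `k` with `R i k`): the `k ≠ i` with `x i k ≠ 0` satisfy `R i k`,
  hence `¬ R k j` and `k ≠ j` (both would give `R i j`), so `y k j = 1 k j = 0` by induction.  So
  `y i j = x i i * y i j = 1 i j`.
* `U_lower`: entries of `x ∈ U R` for `R i j → j < i`.
-/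

namespace Pool.Agent.Lib.MP_f399a8_nt.S

open Matrix Filter Topology

variable {p : ℕ} [Fact p.Prime] {n : ℕ}

theorem U_one (R : Fin n → Fin n → Prop) : (1 : SLp p n) ∈ U p R := by
  intro i j _
  rw [Matrix.SpecialLinearGroup.coe_one]

theorem U_mono {R R' : Fin n → Fin n → Prop} (h : ∀ i j, R i j → R' i j) {x : SLp p n}
    (hx : x ∈ U p R) : x ∈ U p R' := by
  intro i j hij
  exact hx i j fun h' => hij (h i j h')

theorem U_diag {R : Fin n → Fin n → Prop} (hR : SO R) {x : SLp p n} (hx : x ∈ U p R) (i : Fin n) :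
    x.1 i i = 1 := by
  rw [hx i i (hR.irr i), Matrix.one_apply_eq]

theorem U_zero {R : Fin n → Fin n → Prop} {x : SLp p n} (hx : x ∈ U p R) {i j : Fin n}
    (hij : i ≠ j) (h : ¬ R i j) : x.1 i j = 0 := by
  rw [hx i j h, Matrix.one_apply_ne hij]

theorem U_mul {R : Fin n → Fin n → Prop} (hR : SO R) {x y : SLp p n} (hx : x ∈ U p R)
    (hy : y ∈ U p R) : x * y ∈ U p R := by
  intro i j hij
  show (x.1 * y.1) i j = _
  rw [Matrix.mul_apply]
  have hz : ∀ k, k ≠ i → x.1 i k * y.1 k j = 0 := by
    intro k hk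
    by_cases h1 : R i k
    · have hkj : k ≠ j := by
        rintro rfl
        exact hij h1
      have h2 : ¬ R k j := fun h2 => hij (hR.tr _ _ _ h1 h2)
      rw [U_zero hy hkj h2, mul_zero]
    · rw [U_zero hx (Ne.symm hk) h1, zero_mul]
  rw [Finset.sum_eq_single i (fun k _ hk => hz k hk) (fun h => absurd (Finset.mem_univ _) h),
    U_diag hR hx, one_mul]
  exact hy i j hij

theorem U_inv {R : Fin n → Fin n → Prop} (hR : SO R) {x : SLp p n} (hx : x ∈ U p R) :
    x⁻¹ ∈ U p R := by
  have hwf : WellFounded (fun a b => R b a) := by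
    have : IsTrans (Fin n) (fun a b => R b a) := ⟨fun a b c h1 h2 => hR.tr _ _ _ h2 h1⟩
    have : Std.Irrefl (fun a b : Fin n => R b a) := ⟨fun a h => hR.irr a h⟩
    exact Finite.wellFounded_of_trans_of_irrefl _
  intro i
  induction i using hwf.induction with
  | _ i ih =>
    intro j hij
    have h1 : (x.1 * (x⁻¹).1) i j = (1 : Matrix (Fin n) (Fin n) ℚ_[p]) i j := by
      rw [← Matrix.SpecialLinearGroup.coe_mul, mul_inv_cancel, Matrix.SpecialLinearGroup.coe_one]
    rw [Matrix.mul_apply] at h1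
    have hz : ∀ k, k ≠ i → x.1 i k * (x⁻¹).1 k j = 0 := by
      intro k hk
      by_cases h2 : R i k
      · have hkj : k ≠ j := by
          rintro rfl
          exact hij h2
        have h3 : ¬ R k j := fun h3 => hij (hR.tr _ _ _ h2 h3)
        rw [ih k h2 j h3, Matrix.one_apply_ne hkj, mul_zero]
      · rw [U_zero hx (Ne.symm hk) h2, zero_mul]
    rw [Finset.sum_eq_single i (fun k _ hk => hz k hk) (fun h => absurd (Finset.mem_univ _) h),
      U_diag hR hx, one_mul] at h1
    exact h1

/-- `U p R` as a subgroup -/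
def US (p : ℕ) [Fact p.Prime] (R : Fin n → Fin n → Prop) (hR : SO R) : Subgroup (SLp p n) where
  carrier := U p R
  mul_mem' := fun hx hy => U_mul hR hx hy
  one_mem' := U_one R
  inv_mem' := fun hx => U_inv hR hx

theorem mem_US {R : Fin n → Fin n → Prop} (hR : SO R) {x : SLp p n} :
    x ∈ US p R hR ↔ x ∈ U p R := Iff.rfl

/-- unipotent and upper triangular -/
theorem U_Bp {R : Fin n → Fin n → Prop} (hR : ∀ i j, R i j → i < j) {x : SLp p n}
    (hx : x ∈ U p R) : x ∈ Bp p n := by
  intro i j hij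
  have hij' : j < i := hij
  exact U_zero hx (ne_of_gt hij') fun h => absurd (hR i j h) (not_lt.mpr hij'.le)

theorem U_Bt {R : Fin n → Fin n → Prop} {π : Equiv.Perm (Fin n)}
    (hR : ∀ i j, R i j → π i < π j) {x : SLp p n} (hx : x ∈ U p R) : x ∈ Bt p π := by
  intro i j hij
  have hne : i ≠ j := by
    rintro rfl
    exact lt_irrefl _ hij
  exact U_zero hx hne fun h => absurd (hR i j h) (not_lt.mpr hij.le)

end Pool.Agent.Lib.MP_f399a8_nt.S
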