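import Pool.Agent.Lib.MP_f399a8_ntS.GrA

/-!
# Diagonal and monomial matrices

PROOF.  All computations with entries.
* `dg_exists`: the matrix `Matrix.diagonal fun i => (p : ℚ_[p]) ^ e i` has determinant
  `∏ i, p ^ e i = p ^ ∑ i, e i = 1`.
* `dg_inv`: the matrix `diagonal (p ^ (-e i))` is an inverse (`SpecialLinearGroup.ext` and uniqueness
  of the inverse: show `t * t' = 1`).
* `dg_conj`: `(t * x * t⁻¹) i j = p ^ e i * x i j * p ^ (-e j)`.
* `mon_exists`: take the permutation matrix and change the sign of one row if the determinant is `-1`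
  (for `n = 0` there is nothing to do).  For instance `w i j = if j = σ i then s i else 0` with
  `s i = 1` for `i ≠ i₀`, `s i₀ = sign σ` where `i₀ = 0`.
* `mon_inv`: `w⁻¹` is the transpose of `w`: `w * wᵀ = 1` because `∑ k, w i k * w j k` is `1` for
  `i = j` and `0` otherwise.
* `mon_conj`: `(w * x * w⁻¹) i j = w i (σ i) * x (σ i) (σ j) * w j (σ j)` using `w⁻¹ = wᵀ`.
-/

namespace Pool.Agent.Lib.MP_f399a8_nt.S

open Matrix Filter Topology

variable {p : ℕ} [Fact p.Prime] {n : ℕ}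

private theorem GrB_p0 : (p : ℚ_[p]) ≠ 0 := by
  exact_mod_cast (Fact.out : p.Prime).ne_zero

private theorem GrB_coe_mul (x y : SLp p n) (i j : Fin n) :
    (x * y).1 i j = ∑ k, x.1 i k * y.1 k j := by
  show (x.1 * y.1) i j = _
  rw [Matrix.mul_apply]

theorem dg_exists (e : Fin n → ℤ) (he : ∑ i, e i = 0) : ∃ t : SLp p n, IsDg e t := by
  refine ⟨⟨Matrix.diagonal fun i => (p : ℚ_[p]) ^ e i, ?_⟩, fun i j => ?_⟩
  · rw [Matrix.det_diagonal]
    have h : ∀ s : Finset (Fin n), ∏ i ∈ s, (p : ℚ_[p]) ^ e i = (p : ℚ_[p]) ^ (∑ i ∈ s, e i) := by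
      classical
      intro s
      induction s using Finset.induction_on with
      | empty => simp
      | insert a s ha ih => rw [Finset.prod_insert ha, Finset.sum_insert ha, ih, zpow_add₀ GrB_p0]
    rw [h, he, zpow_zero]
  · show Matrix.diagonal (fun i => (p : ℚ_[p]) ^ e i) i j = _
    rw [Matrix.diagonal_apply]

private theorem GrB_left {e : Fin n → ℤ} {t : SLp p n} (ht : IsDg e t) (x : SLp p n) (i j : Fin n) :
    (t * x).1 i j = (p : ℚ_[p]) ^ (e i) * x.1 i j := by
  rw [GrB_coe_mul, Finset.sum_eq_single i]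
  · rw [ht i i, if_pos rfl]
  · intro k _ hk
    rw [ht i k, if_neg (Ne.symm hk), zero_mul]
  · intro h
    exact absurd (Finset.mem_univ _) h

private theorem GrB_right {e : Fin n → ℤ} {t : SLp p n} (ht : IsDg e t) (x : SLp p n) (i j : Fin n) :
    (x * t).1 i j = (p : ℚ_[p]) ^ (e j) * x.1 i j := by
  rw [GrB_coe_mul, Finset.sum_eq_single j]
  · rw [ht j j, if_pos rfl, mul_comm]
  · intro k _ hk
    rw [ht k j, if_neg hk, mul_zero]
  · intro h
    exact absurd (Finset.mem_univ _) h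

theorem dg_inv {e : Fin n → ℤ} {t : SLp p n} (ht : IsDg e t) : IsDg (fun i => - e i) t⁻¹ := by
  intro i j
  have h : (t * t⁻¹).1 i j = (1 : Matrix (Fin n) (Fin n) ℚ_[p]) i j := by
    rw [mul_inv_cancel, Matrix.SpecialLinearGroup.coe_one]
  rw [GrB_left ht] at h
  have h0 : (p : ℚ_[p]) ^ (e i) ≠ 0 := zpow_ne_zero _ GrB_p0
  rcases eq_or_ne i j with rfl | hij
  · rw [if_pos rfl, _root_.zpow_neg]
    rw [Matrix.one_apply_eq] at h
    exact eq_inv_of_mul_eq_one_right h
  · rw [if_neg hij]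
    rw [Matrix.one_apply_ne hij] at h
    exact (mul_eq_zero.mp h).resolve_left h0

theorem dg_mul {e e' : Fin n → ℤ} {t t' : SLp p n} (ht : IsDg e t) (ht' : IsDg e' t') :
    IsDg (fun i => e i + e' i) (t * t') := by
  intro i j
  rw [GrB_left ht, ht' i j]
  rcases eq_or_ne i j with rfl | hij
  · rw [if_pos rfl, if_pos rfl, zpow_add₀ GrB_p0]
  · rw [if_neg hij, if_neg hij, mul_zero]

theorem dg_pow {e : Fin n → ℤ} {t : SLp p n} (ht : IsDg e t) (M : ℕ) :
    IsDg (fun i => (M : ℤ) * e i) (t ^ M) := by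
  induction M with
  | zero =>
    intro i j
    rw [pow_zero, Matrix.SpecialLinearGroup.coe_one, Matrix.one_apply]
    simp only [Nat.cast_zero, zero_mul, zpow_zero]
  | succ M ih =>
    have h := dg_mul ih ht
    rw [pow_succ]
    intro i j
    rw [h i j]
    congr 2
    push_cast
    ring

theorem dg_unique {e : Fin n → ℤ} {t t' : SLp p n} (ht : IsDg e t) (ht' : IsDg e t') : t = t' := by
  ext i j
  exact (ht i j).trans (ht' i j).symm

theorem dg_conj {e : Fin n → ℤ} {t : SLp p n} (ht : IsDg e t) (x : SLp p n) (i j : Fin n) :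
    (t * x * t⁻¹).1 i j = (p : ℚ_[p]) ^ (e i - e j) * x.1 i j := by
  rw [GrB_right (dg_inv ht), GrB_left ht, ← mul_assoc, ← zpow_add₀ GrB_p0]
  congr 2
  ring

theorem dg_conj' {e : Fin n → ℤ} {t : SLp p n} (ht : IsDg e t) (x : SLp p n) (i j : Fin n) :
    (t⁻¹ * x * t).1 i j = (p : ℚ_[p]) ^ (e j - e i) * x.1 i j := by
  rw [GrB_right ht, GrB_left (dg_inv ht), ← mul_assoc, ← zpow_add₀ GrB_p0]
  congr 2

theorem dg_pow_conj {e : Fin n → ℤ} {t : SLp p n} (ht : IsDg e t) (M : ℕ) (x : SLp p n)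
    (i j : Fin n) :
    (t ^ M * x * (t ^ M)⁻¹).1 i j = (p : ℚ_[p]) ^ ((M : ℤ) * (e i - e j)) * x.1 i j := by
  rw [dg_conj (dg_pow ht M), mul_sub]

theorem dg_pow_conj' {e : Fin n → ℤ} {t : SLp p n} (ht : IsDg e t) (M : ℕ) (x : SLp p n)
    (i j : Fin n) :
    ((t ^ M)⁻¹ * x * t ^ M).1 i j = (p : ℚ_[p]) ^ ((M : ℤ) * (e j - e i)) * x.1 i j := by
  rw [dg_conj' (dg_pow ht M), mul_sub]

theorem dg_Bt {e : Fin n → ℤ} {t : SLp p n} (ht : IsDg e t) {α : Type*} [LinearOrder α]
    (b : Fin n → α) : t ∈ Bt p b := by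
  intro i j hij
  have hne : i ≠ j := by
    rintro rfl
    exact lt_irrefl _ hij
  rw [ht i j, if_neg hne]

theorem U_conj {R : Fin n → Fin n → Prop} {e : Fin n → ℤ} {t : SLp p n} (ht : IsDg e t)
    {x : SLp p n} (hx : x ∈ U p R) : t * x * t⁻¹ ∈ U p R ∧ t⁻¹ * x * t ∈ U p R := by
  constructor
  · intro i j hij
    rw [dg_conj ht, hx i j hij]
    rcases eq_or_ne i j with rfl | h
    · rw [sub_self, zpow_zero, one_mul]
    · rw [Matrix.one_apply_ne h, mul_zero]
  · intro i j hij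
    rw [dg_conj' ht, hx i j hij]
    rcases eq_or_ne i j with rfl | h
    · rw [sub_self, zpow_zero, one_mul]
    · rw [Matrix.one_apply_ne h, mul_zero]

private theorem GrB_sign (σ : Equiv.Perm (Fin n)) :
    (((Equiv.Perm.sign σ : ℤˣ) : ℤ) : ℚ_[p]) = 1 ∨ (((Equiv.Perm.sign σ : ℤˣ) : ℤ) : ℚ_[p]) = -1 := by
  rcases Int.units_eq_one_or (Equiv.Perm.sign σ) with h | h
  · left
    rw [h]
    simp
  · right
    rw [h]
    simp

theorem mon_exists (p : ℕ) [Fact p.Prime] (σ : Equiv.Perm (Fin n)) :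
    ∃ w : SLp p n, IsMon σ w := by
  cases n with
  | zero => exact ⟨1, fun i => i.elim0⟩
  | succ m =>
    obtain ⟨W, hdet, hW⟩ : ∃ W : Matrix (Fin (m + 1)) (Fin (m + 1)) ℚ_[p], W.det = 1 ∧ ∀ i j, W i j =
        (if i = 0 then (((Equiv.Perm.sign σ : ℤˣ) : ℤ) : ℚ_[p]) else 1) *
          (if j = σ i then 1 else 0) := by
      refine ⟨Matrix.diagonal (fun i : Fin (m + 1) =>
        if i = 0 then (((Equiv.Perm.sign σ : ℤˣ) : ℤ) : ℚ_[p]) else 1) *
        σ.toPEquiv.toMatrix, ?_, fun i j => ?_⟩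
      · rw [Matrix.det_mul, Matrix.det_diagonal, Matrix.det_permutation,
          Finset.prod_ite_eq' Finset.univ (0 : Fin (m + 1)), if_pos (Finset.mem_univ _)]
        rcases GrB_sign (p := p) σ with h | h
        · rw [h, mul_one]
        · rw [h]
          norm_num
      · rw [Matrix.diagonal_mul, PEquiv.toMatrix_apply]
        congr 1
        refine if_congr ?_ rfl rfl
        rw [Equiv.toPEquiv_apply, Option.mem_some_iff]
        exact eq_comm
    refine ⟨⟨W, hdet⟩, fun i j => ?_⟩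
    constructor
    · intro hj
      show W i j = 1 ∨ W i j = -1
      rw [hW, if_pos hj, mul_one]
      split_ifs
      · exact GrB_sign σ
      · left
        rfl
    · intro hj
      show W i j = 0
      rw [hW, if_neg hj, mul_zero]

private theorem GrB_sq {σ : Equiv.Perm (Fin n)} {w : SLp p n} (hw : IsMon σ w) (i : Fin n) :
    w.1 i (σ i) * w.1 i (σ i) = 1 := by
  rcases (hw i (σ i)).1 rfl with h | h
  · rw [h, one_mul]
  · rw [h]
    norm_num

theorem mon_Kp {σ : Equiv.Perm (Fin n)} {w : SLp p n} (hw : IsMon σ w) : w ∈ Kp p n := by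
  intro i j
  rcases eq_or_ne j (σ i) with h | h
  · rcases (hw i j).1 h with h1 | h1
    · rw [h1, norm_one]
    · rw [h1, norm_neg, norm_one]
  · rw [(hw i j).2 h, norm_zero]
    exact zero_le_one

private theorem GrB_inv {σ : Equiv.Perm (Fin n)} {w : SLp p n} (hw : IsMon σ w) (i j : Fin n) :
    (w⁻¹).1 i j = w.1 j i := by
  have h : w * ⟨w.1.transpose, by rw [Matrix.det_transpose]; exact w.2⟩ = 1 := by
    ext a b
    rw [Matrix.SpecialLinearGroup.coe_one]
    refine (GrB_coe_mul _ _ a b).trans ?_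
    show ∑ k, w.1 a k * w.1 b k = _
    rw [Finset.sum_eq_single (σ a)]
    · rcases eq_or_ne a b with rfl | hab
      · rw [GrB_sq hw, Matrix.one_apply_eq]
      · rw [Matrix.one_apply_ne hab, (hw b (σ a)).2 (fun h => hab (σ.injective h)), mul_zero]
    · intro k _ hk
      rw [(hw a k).2 hk, zero_mul]
    · intro h
      exact absurd (Finset.mem_univ _) h
  rw [inv_eq_of_mul_eq_one_right h]
  rfl

theorem mon_inv {σ : Equiv.Perm (Fin n)} {w : SLp p n} (hw : IsMon σ w) : IsMon σ⁻¹ w⁻¹ := by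
  intro i j
  rw [GrB_inv hw]
  constructor
  · rintro rfl
    exact (hw _ _).1 (by simp)
  · intro h
    refine (hw _ _).2 fun h1 => h ?_
    rw [h1]
    simp

private theorem GrB_mleft {σ : Equiv.Perm (Fin n)} {w : SLp p n} (hw : IsMon σ w) (x : SLp p n)
    (i j : Fin n) : (w * x).1 i j = w.1 i (σ i) * x.1 (σ i) j := by
  rw [GrB_coe_mul, Finset.sum_eq_single (σ i)]
  · intro k _ hk
    rw [(hw i k).2 hk, zero_mul]
  · intro h
    exact absurd (Finset.mem_univ _) h

theorem mon_mul {σ τ : Equiv.Perm (Fin n)} {w w' : SLp p n} (hw : IsMon σ w) (hw' : IsMon τ w') :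
    IsMon (τ * σ) (w * w') := by
  intro i j
  rw [GrB_mleft hw, Equiv.Perm.mul_apply]
  constructor
  · intro h
    rcases (hw i (σ i)).1 rfl with h1 | h1 <;> rcases (hw' (σ i) j).1 h with h2 | h2 <;>
      rw [h1, h2] <;> norm_num
  · intro h
    rw [(hw' (σ i) j).2 h, mul_zero]

theorem mon_conj {σ : Equiv.Perm (Fin n)} {w : SLp p n} (hw : IsMon σ w) (x : SLp p n)
    (i j : Fin n) :
    (w * x * w⁻¹).1 i j = w.1 i (σ i) * w.1 j (σ j) * x.1 (σ i) (σ j) := by
  rw [mul_assoc, GrB_mleft hw, GrB_coe_mul, Finset.sum_eq_single (σ j)]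
  · rw [GrB_inv hw]
    ring
  · intro k _ hk
    rw [GrB_inv hw, (hw j k).2 hk, mul_zero]
  · intro h
    exact absurd (Finset.mem_univ _) h

theorem U_mon_conj {R : Fin n → Fin n → Prop} {σ : Equiv.Perm (Fin n)} {w : SLp p n}
    (hw : IsMon σ w) {x : SLp p n} (hx : x ∈ U p R) :
    w * x * w⁻¹ ∈ U p (fun i j => R (σ i) (σ j)) := by
  intro i j hij
  rw [mon_conj hw, hx _ _ hij]
  rcases eq_or_ne i j with rfl | h
  · rw [GrB_sq hw, Matrix.one_apply_eq, Matrix.one_apply_eq, one_mul]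
  · rw [Matrix.one_apply_ne h, Matrix.one_apply_ne (fun h1 => h (σ.injective h1)), mul_zero]

end Pool.Agent.Lib.MP_f399a8_nt.S
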