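import Pool.Agent.Lib.MP_f399a8_ntS.CbB

/-!
# The embedding of `SL_2` at the indices `j, i`

`iota i j h l` has the entries of `l` in the rows and columns `j, i` (in this order), and agrees with the
identity elsewhere.

PROOF.  `E = iE i j` satisfies `Eᵀ * E = 1` (2 × 2; `j ≠ i`), so
`(1 + E (l - 1) Eᵀ) (1 + E (l' - 1) Eᵀ) = 1 + E (l l' - 1) Eᵀ` and
`det (1 + (E (l-1)) Eᵀ) = det (1 + Eᵀ (E (l-1))) = det l = 1` (`Matrix.det_one_add_mul_comm`).
Entries: `(E M Eᵀ) a b = ∑_{c c'} E a c * M c c' * E b c'` (`Fin.sum_univ_two`).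
* `iota_mul_l`, `iota_mul_r`: rows/columns of products: expand the sum over the index, only `i`, `j` and the
  diagonal contribute.
* `iota_Bp`: upper triangular since `j < i`.
* `iota_cb`: the diagonal of `iota (up2 a c)` is `a⁻¹` at `j`, `a` at `i`, `1` elsewhere; this is
  `cort j i a⁻¹`; compare entries of elements of `Tor`.
* the relations `lo_w`, `sl2_cases` are 2 × 2 computations (`det l = l00 l11 - l01 l10 = 1`).
* `lo2_iwa`: for `‖z‖ ≤ 1` take `b = 1`, for `‖z‖ > 1`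
  `lo2 z = up2 z 1 * ⟨!![0, -1; 1, z⁻¹]⟩`.  More generally `iwasawa` for `n = 2`.
-/

namespace Pool.Agent.Lib.MP_f399a8_nt.S

open Matrix Filter Topology

noncomputable section

variable {p : ℕ} [Fact p.Prime] {n : ℕ} {C : Type*} [NormedField C]

/-- the columns `e_j, e_i` -/
def iE (p : ℕ) [Fact p.Prime] (i j : Fin n) : Matrix (Fin n) (Fin 2) ℚ_[p] :=
  fun a c => if c = 0 then (if a = j then 1 else 0) else (if a = i then 1 else 0)

theorem iE_mul {i j : Fin n} (h : j ≠ i) : (iE p i j)ᵀ * iE p i j = 1 := by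
  ext c c'
  rw [Matrix.mul_apply]
  fin_cases c <;> fin_cases c' <;> simp [iE, Matrix.transpose_apply, h, h.symm]

theorem iota_det {i j : Fin n} (h : j ≠ i) (l : SLp p 2) :
    (1 + iE p i j * (l.1 - 1) * (iE p i j)ᵀ).det = 1 := by
  rw [Matrix.det_one_add_mul_comm, ← Matrix.mul_assoc, iE_mul h, Matrix.one_mul,
    add_sub_cancel]
  exact l.2

theorem iota_hom {i j : Fin n} (h : j ≠ i) (l l' : SLp p 2) :
    1 + iE p i j * ((l * l').1 - 1) * (iE p i j)ᵀ =
      (1 + iE p i j * (l.1 - 1) * (iE p i j)ᵀ) * (1 + iE p i j * (l'.1 - 1) * (iE p i j)ᵀ) := by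
  have h0 : (l * l').1 - 1 = (l.1 - 1) + (l'.1 - 1) + (l.1 - 1) * (l'.1 - 1) := by
    show l.1 * l'.1 - 1 = _
    noncomm_ring
  have h1 : (iE p i j * (l.1 - 1) * (iE p i j)ᵀ) * (iE p i j * (l'.1 - 1) * (iE p i j)ᵀ) =
      iE p i j * ((l.1 - 1) * (l'.1 - 1)) * (iE p i j)ᵀ := by
    calc _ = iE p i j * (l.1 - 1) * ((iE p i j)ᵀ * iE p i j) * (l'.1 - 1) * (iE p i j)ᵀ := by
          simp only [Matrix.mul_assoc]
      _ = _ := by
          rw [iE_mul h, Matrix.mul_one]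
          simp only [Matrix.mul_assoc]
  rw [h0, Matrix.mul_add, Matrix.mul_add, Matrix.add_mul, Matrix.add_mul, ← h1]
  noncomm_ring

/-- the embedding of `SL_2` in the rows and columns `j, i` -/
def iota (i j : Fin n) (h : j ≠ i) : SLp p 2 →* SLp p n where
  toFun l := ⟨1 + iE p i j * (l.1 - 1) * (iE p i j)ᵀ, iota_det h l⟩
  map_one' := by
    apply Subtype.ext
    show 1 + iE p i j * ((1 : SLp p 2).1 - 1) * (iE p i j)ᵀ = 1
    have h1 : (1 : SLp p 2).1 = 1 := rfl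
    rw [h1, sub_self, Matrix.mul_zero, Matrix.zero_mul, add_zero]
  map_mul' l l' := by
    apply Subtype.ext
    exact iota_hom h l l'

/-- lower unipotent -/
def lo2 (z : ℚ_[p]) : SLp p 2 := ⟨!![1, 0; z, 1], by simp [Matrix.det_fin_two]⟩

/-- the Weyl element -/
def w2 (p : ℕ) [Fact p.Prime] : SLp p 2 := ⟨!![0, 1; -1, 0], by simp [Matrix.det_fin_two]⟩

/-- upper triangular -/
def up2 (a : ℚ_[p]) (ha : a ≠ 0) (c : ℚ_[p]) : SLp p 2 :=
  ⟨!![a⁻¹, c; 0, a], by simp [Matrix.det_fin_two, ha]⟩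

private theorem IoA_lo2_zero : (lo2 (0 : ℚ_[p])) = 1 := by
  apply Subtype.ext
  show !![1, 0; (0 : ℚ_[p]), 1] = 1
  rw [Matrix.one_fin_two]

theorem lo2_mul (z z' : ℚ_[p]) : lo2 z * lo2 z' = lo2 (z + z') := by
  apply Subtype.ext
  show !![1, 0; z, 1] * !![1, 0; z', 1] = !![1, 0; z + z', 1]
  simp [Matrix.mul_fin_two]

theorem lo2_inv (z : ℚ_[p]) : (lo2 z)⁻¹ = lo2 (-z) := by
  refine inv_eq_of_mul_eq_one_right ?_
  rw [lo2_mul, add_neg_cancel]
  exact IoA_lo2_zero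

theorem lo2_zero : (lo2 (0 : ℚ_[p])) = 1 := by
  exact IoA_lo2_zero

theorem lo_w {z : ℚ_[p]} (hz : z ≠ 0) : lo2 z * w2 p = up2 z hz 1 * lo2 (-z⁻¹) := by
  apply Subtype.ext
  show !![1, 0; z, 1] * !![0, 1; -1, 0] = !![z⁻¹, 1; 0, z] * !![1, 0; -z⁻¹, 1]
  simp [Matrix.mul_fin_two, hz]

theorem sl2_case1 (l : SLp p 2) (h : l.1 1 1 ≠ 0) :
    l = up2 (l.1 1 1) h (l.1 0 1) * lo2 (l.1 1 0 / l.1 1 1) := by
  have hd := l.2
  rw [Matrix.det_fin_two] at hd
  apply Subtype.ext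
  show l.1 = !![(l.1 1 1)⁻¹, l.1 0 1; 0, l.1 1 1] * !![1, 0; l.1 1 0 / l.1 1 1, 1]
  rw [Matrix.mul_fin_two]
  ext a b
  fin_cases a <;> fin_cases b
  · show l.1 0 0 = (l.1 1 1)⁻¹ * 1 + l.1 0 1 * (l.1 1 0 / l.1 1 1)
    field_simp
    linear_combination hd
  · show l.1 0 1 = (l.1 1 1)⁻¹ * 0 + l.1 0 1 * 1
    ring
  · show l.1 1 0 = 0 * 1 + l.1 1 1 * (l.1 1 0 / l.1 1 1)
    field_simp
    ring
  · show l.1 1 1 = 0 * 0 + l.1 1 1 * 1
    ring

theorem sl2_case2 (l : SLp p 2) (h : l.1 1 1 = 0) :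
    ∃ (a : ℚ_[p]) (ha : a ≠ 0) (c : ℚ_[p]), l = up2 a ha c * w2 p := by
  have hd := l.2
  rw [Matrix.det_fin_two, h, mul_zero, zero_sub] at hd
  have h1 : l.1 1 0 ≠ 0 := by
    intro h2
    rw [h2, mul_zero, neg_zero] at hd
    exact zero_ne_one hd
  refine ⟨-l.1 1 0, neg_ne_zero.mpr h1, -l.1 0 0, ?_⟩
  apply Subtype.ext
  show l.1 = !![(-l.1 1 0)⁻¹, -l.1 0 0; 0, -l.1 1 0] * !![0, 1; -1, 0]
  rw [Matrix.mul_fin_two]
  ext a b
  fin_cases a <;> fin_cases b
  · show l.1 0 0 = (-l.1 1 0)⁻¹ * 0 + -l.1 0 0 * -1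
    ring
  · show l.1 0 1 = (-l.1 1 0)⁻¹ * 1 + -l.1 0 0 * 0
    have h3 : (-l.1 1 0) ≠ 0 := neg_ne_zero.mpr h1
    rw [mul_one, mul_zero, add_zero]
    refine eq_inv_of_mul_eq_one_left ?_
    linear_combination hd
  · show l.1 1 0 = 0 * 0 + -l.1 1 0 * -1
    ring
  · show l.1 1 1 = 0 * 1 + -l.1 1 0 * 0
    rw [h]
    ring

private theorem IoA_entry {i j : Fin n} (h : j ≠ i) (l : SLp p 2) (a b : Fin n) :
    (iota i j h l).1 a b = (if a = b then 1 else 0) +
      ((if a = j then 1 else 0) * ((l.1 0 0 - 1) * (if b = j then 1 else 0) +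
        l.1 0 1 * (if b = i then 1 else 0)) +
      (if a = i then 1 else 0) * (l.1 1 0 * (if b = j then 1 else 0) +
        (l.1 1 1 - 1) * (if b = i then 1 else 0))) := by
  show (1 + iE p i j * (l.1 - 1) * (iE p i j)ᵀ : Matrix (Fin n) (Fin n) ℚ_[p]) a b = _
  rw [Matrix.add_apply, Matrix.one_apply, Matrix.mul_apply, Fin.sum_univ_two, Matrix.mul_apply,
    Matrix.mul_apply, Fin.sum_univ_two, Fin.sum_univ_two]
  simp only [Matrix.transpose_apply, iE, Matrix.sub_apply, if_true, Matrix.one_apply,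
    one_ne_zero, zero_ne_one, if_false, sub_zero]
  ring

theorem iota_jj {i j : Fin n} (h : j ≠ i) (l : SLp p 2) : (iota i j h l).1 j j = l.1 0 0 := by
  rw [IoA_entry h]
  simp [h, h.symm]

theorem iota_ji {i j : Fin n} (h : j ≠ i) (l : SLp p 2) : (iota i j h l).1 j i = l.1 0 1 := by
  rw [IoA_entry h]
  simp [h, h.symm]

theorem iota_ij {i j : Fin n} (h : j ≠ i) (l : SLp p 2) : (iota i j h l).1 i j = l.1 1 0 := by
  rw [IoA_entry h]
  simp [h, h.symm]

theorem iota_ii {i j : Fin n} (h : j ≠ i) (l : SLp p 2) : (iota i j h l).1 i i = l.1 1 1 := by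
  rw [IoA_entry h]
  simp [h, h.symm]

theorem iota_off {i j : Fin n} (h : j ≠ i) (l : SLp p 2) {a b : Fin n}
    (hab : (a ≠ i ∧ a ≠ j) ∨ (b ≠ i ∧ b ≠ j)) :
    (iota i j h l).1 a b = (1 : Matrix (Fin n) (Fin n) ℚ_[p]) a b := by
  rw [IoA_entry h]
  rcases hab with ⟨h1, h2⟩ | ⟨h1, h2⟩
  · simp [h1, h2, Matrix.one_apply]
  · simp [h1, h2, Matrix.one_apply]

theorem iota_mul_l {i j : Fin n} (h : j ≠ i) (l : SLp p 2) (x : SLp p n) (a b : Fin n) :
    (iota i j h l * x).1 a b = if a = j then l.1 0 0 * x.1 j b + l.1 0 1 * x.1 i b else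
      if a = i then l.1 1 0 * x.1 j b + l.1 1 1 * x.1 i b else x.1 a b := by
  show ((iota i j h l).1 * x.1) a b = _
  rw [Matrix.mul_apply]
  have h1 : ∀ k, (iota i j h l).1 a k * x.1 k b = (if a = k then x.1 k b else 0) +
      ((if a = j then 1 else 0) * (l.1 0 0 - 1) * (if k = j then x.1 k b else 0) +
      (if a = j then 1 else 0) * l.1 0 1 * (if k = i then x.1 k b else 0) +
      (if a = i then 1 else 0) * l.1 1 0 * (if k = j then x.1 k b else 0) +
      (if a = i then 1 else 0) * (l.1 1 1 - 1) * (if k = i then x.1 k b else 0)) := by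
    intro k
    rw [IoA_entry h]
    split_ifs <;> ring
  simp only [h1, Finset.sum_add_distrib, ← Finset.mul_sum, Finset.sum_ite_eq, Finset.sum_ite_eq',
    Finset.mem_univ, if_true]
  by_cases h2 : a = j
  · subst h2
    simp only [if_true, h, if_false]
    ring
  · by_cases h3 : a = i
    · subst h3
      simp only [if_true, h2, if_false]
      ring
    · simp only [h2, h3, if_false]
      ring

theorem iota_mul_r {i j : Fin n} (h : j ≠ i) (l : SLp p 2) (x : SLp p n) (a b : Fin n) :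
    (x * iota i j h l).1 a b = if b = j then x.1 a j * l.1 0 0 + x.1 a i * l.1 1 0 else
      if b = i then x.1 a j * l.1 0 1 + x.1 a i * l.1 1 1 else x.1 a b := by
  show (x.1 * (iota i j h l).1) a b = _
  rw [Matrix.mul_apply]
  have h1 : ∀ k, x.1 a k * (iota i j h l).1 k b = (if k = b then x.1 a k else 0) +
      ((if b = j then 1 else 0) * (l.1 0 0 - 1) * (if k = j then x.1 a k else 0) +
      (if b = i then 1 else 0) * l.1 0 1 * (if k = j then x.1 a k else 0) +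
      (if b = j then 1 else 0) * l.1 1 0 * (if k = i then x.1 a k else 0) +
      (if b = i then 1 else 0) * (l.1 1 1 - 1) * (if k = i then x.1 a k else 0)) := by
    intro k
    rw [IoA_entry h]
    split_ifs <;> ring
  simp only [h1, Finset.sum_add_distrib, ← Finset.mul_sum, Finset.sum_ite_eq, Finset.sum_ite_eq',
    Finset.mem_univ, if_true]
  by_cases h2 : b = j
  · subst h2
    simp only [if_true, h, if_false]
    ring
  · by_cases h3 : b = i
    · subst h3
      simp only [if_true, h2, if_false]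
      ring
    · simp only [h2, h3, if_false]
      ring

theorem iota_Kp {i j : Fin n} (h : j ≠ i) {l : SLp p 2} (hl : l ∈ Kp p 2) :
    iota i j h l ∈ Kp p n := by
  rw [mem_Kp] at hl ⊢
  intro a b
  by_cases h1 : a = j
  · by_cases h2 : b = j
    · rw [h1, h2, iota_jj]
      exact hl _ _
    · by_cases h3 : b = i
      · rw [h1, h3, iota_ji]
        exact hl _ _
      · rw [iota_off h l (Or.inr ⟨h3, h2⟩)]
        exact one_norm_le _ _
  · by_cases h2 : a = i
    · by_cases h3 : b = j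
      · rw [h2, h3, iota_ij]
        exact hl _ _
      · by_cases h4 : b = i
        · rw [h2, h4, iota_ii]
          exact hl _ _
        · rw [iota_off h l (Or.inr ⟨h4, h3⟩)]
          exact one_norm_le _ _
    · rw [iota_off h l (Or.inl ⟨h2, h1⟩)]
      exact one_norm_le _ _

theorem iota_Bp {i j : Fin n} (h : j < i) {a : ℚ_[p]} (ha : a ≠ 0) (c : ℚ_[p]) :
    iota i j h.ne (up2 a ha c) ∈ Bp p n := by
  rw [mem_Bp]
  intro a' b' hab
  by_cases h1 : (a' ≠ i ∧ a' ≠ j) ∨ (b' ≠ i ∧ b' ≠ j)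
  · rw [iota_off h.ne _ h1, Matrix.one_apply_ne hab.ne']
  · push Not at h1
    obtain ⟨h2, h3⟩ := h1
    by_cases h4 : a' = i
    · have h5 : b' = j := h3 (by rw [← h4]; exact hab.ne)
      rw [h4, h5, iota_ij]
      rfl
    · have h5 : a' = j := h2 h4
      by_cases h6 : b' = i
      · exfalso
        rw [h5, h6] at hab
        exact lt_asymm hab h
      · exfalso
        have h7 := h3 h6
        rw [h5, h7] at hab
        exact lt_irrefl _ hab

theorem iota_cb (χ : Tor p n →* Cˣ) {i j : Fin n} (h : j < i) {a : ℚ_[p]} (ha : a ≠ 0)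
    (c : ℚ_[p]) : cb χ (iota i j h.ne (up2 a ha c)) = ((χ (cort j i (Units.mk0 a ha)))⁻¹ : Cˣ) := by
  have h1 : IsUpper (iota i j h.ne (up2 a ha c)) ((cort j i (Units.mk0 a ha))⁻¹ : Tor p n) := by
    intro a' b' hab
    by_cases h2 : b' = a'
    · subst h2
      rw [if_pos rfl]
      have h3 : ((cort j i (Units.mk0 a ha))⁻¹ : Tor p n).entry b' =
          ((cort j i (Units.mk0 a ha) : Tor p n).entry b')⁻¹ := rfl
      have h4 : (cort j i (Units.mk0 a ha) : Tor p n).entry b' =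
          (if b' = j then Units.mk0 a ha else 1) * (if b' = i then (Units.mk0 a ha)⁻¹ else 1) := by
        show (coroot j i (Units.mk0 a ha)).1 b' = _
        simp only [coroot, Pi.mul_apply, Pi.mulSingle_apply]
      rw [h3, h4]
      by_cases h5 : b' = j
      · have h6 : b' ≠ i := by
          rw [h5]
          exact h.ne
        rw [if_pos h5, if_neg h6, mul_one, h5, iota_jj]
        show a⁻¹ = _
        simp
      · by_cases h6 : b' = i
        · rw [if_neg h5, if_pos h6, one_mul, inv_inv, h6, iota_ii]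
          rfl
        · rw [if_neg h5, if_neg h6, iota_off h.ne _ (Or.inl ⟨h6, h5⟩), Matrix.one_apply_eq]
          simp
    · rw [if_neg h2]
      exact mem_Bp.mp (iota_Bp h ha c) a' b' (lt_of_le_of_ne hab h2)
  have h2 := (isUpper_iff h1).2
  unfold cb
  rw [h2, map_inv]

theorem lo2_iwa (z : ℚ_[p]) : ∃ (a : ℚ_[p]) (ha : a ≠ 0) (c : ℚ_[p]) (k : SLp p 2),
    k ∈ Kp p 2 ∧ lo2 z = up2 a ha c * k := by
  by_cases hz : ‖z‖ ≤ 1
  · refine ⟨1, one_ne_zero, 0, lo2 z, ?_, ?_⟩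
    · rw [mem_Kp]
      intro a b
      fin_cases a <;> fin_cases b
      · show ‖(1 : ℚ_[p])‖ ≤ 1
        simp
      · show ‖(0 : ℚ_[p])‖ ≤ 1
        simp
      · exact hz
      · show ‖(1 : ℚ_[p])‖ ≤ 1
        simp
    · apply Subtype.ext
      show !![1, 0; z, 1] = !![(1 : ℚ_[p])⁻¹, 0; 0, 1] * !![1, 0; z, 1]
      simp [Matrix.mul_fin_two]
  · have hz0 : z ≠ 0 := by
      rintro rfl
      simp at hz
    refine ⟨z, hz0, 1, ⟨!![0, -1; 1, z⁻¹], by simp [Matrix.det_fin_two]⟩, ?_, ?_⟩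
    · rw [mem_Kp]
      intro a b
      fin_cases a <;> fin_cases b
      · show ‖(0 : ℚ_[p])‖ ≤ 1
        simp
      · show ‖(-1 : ℚ_[p])‖ ≤ 1
        simp
      · show ‖(1 : ℚ_[p])‖ ≤ 1
        simp
      · show ‖z⁻¹‖ ≤ 1
        rw [norm_inv]
        exact inv_le_one_of_one_le₀ (not_le.mp hz).le
    · apply Subtype.ext
      show !![1, 0; z, 1] = !![z⁻¹, 1; 0, z] * !![0, -1; 1, z⁻¹]
      simp [Matrix.mul_fin_two, hz0]

end

end Pool.Agent.Lib.MP_f399a8_nt.S
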