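import Pool.Agent.Lib.MP_f399a8_ntS.IoA

/-!
# Adjacent transpositions and conjugation by `SL_2`

`Adj π i j`: `j < i` and `i` comes directly after `j`.  `sw π i j`: the order with `i` and `j` interchanged.

PROOF.  Write `π' = sw π i j`, `π' i = π j`, `π' j = π i`, `π' a = π a` otherwise; for `a ≠ i, j`:
`π a < π i ↔ π a < π j`, `π i < π a ↔ π j < π a` (`π i = π j + 1`, `π` injective).
* `dr_sw`, `fr_sw`, `good_sw`, `so_Ob`: case distinctions.
* `iota_norm`: conjugation by `g = iota l`: by `iota_mul_l`, `iota_mul_r` the entry `(a, b)` of `g * x * g⁻¹` for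
  `a, b ∉ {i, j}` is `x a b`; for `a ∉ {i, j}`, `b ∈ {i, j}` it is a combination of `x a i` and `x a j`, both `0` if
  `¬ R a b`; similarly for `a ∈ {i, j}`, `b ∉ {i, j}`; for `a, b ∈ {i, j}` the block of `x` is the identity (`¬ R i j`,
  `¬ R j i`, `R` irreflexive), so the block of `g * x * g⁻¹` is `l * 1 * l⁻¹ = 1`.  (`(iota l)⁻¹ = iota l⁻¹`.)
* `lo_norm`: `g = iota (lo2 z)`: entry `(a, b)` of `g * x * g⁻¹` is
  `x a b + [a = i] z x j b - [b = j] z x a i - [a = i][b = j] z² x j i`, and `x j i = 0`, `x i i = x j j = 1`.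
* `dr_split`: `z = u i j`, `d = u * iota (lo2 (-z))`: column `j` becomes `u a j - z * u a i`.  Row `i`: `0`.
  For `a ≠ i, j`: if `u a i ≠ 0` then `Dr π' a i`, `i < a`, `π a < π j`, so `Dr π a j`.  The other columns do not change
  and `Dr π' a b` with `b ≠ j` is `Dr π a b`.
* `fr_split`: `z = f i j`, `f' = f * iota (lo2 (-z))`: if `f a i ≠ 0`, `a ≠ i`: `Fr π a i` so `Fr π a j` (transitive with
  `Fr π i j`), `a ≠ i`.
* `dr_mul_Kp`: entry `(i, j)` of `d * iota (lo2 z)` is `d i j + d i i * z = z` (`¬ Dr π i j`).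
-/

namespace Pool.Agent.Lib.MP_f399a8_nt.S

open Matrix Filter Topology

noncomputable section

variable {p : ℕ} [Fact p.Prime] {n : ℕ} {C : Type*} [NormedField C]

/-- `j < i` and `i` comes directly after `j` in the order `π` -/
structure Adj (π : Equiv.Perm (Fin n)) (i j : Fin n) : Prop where
  lt : j < i
  adj : (π i : ℕ) = (π j : ℕ) + 1

/-- interchange `i` and `j` -/
def sw (π : Equiv.Perm (Fin n)) (i j : Fin n) : Equiv.Perm (Fin n) := (Equiv.swap i j).trans π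

/-- the order relation of `π` without the pair `(j, i)` -/
def Ob (π : Equiv.Perm (Fin n)) (i j : Fin n) : Fin n → Fin n → Prop :=
  fun a b => π a < π b ∧ ¬ (a = j ∧ b = i)

variable {π : Equiv.Perm (Fin n)} {i j : Fin n}

private theorem IoB_ne (h : Adj π i j) : i ≠ j := h.lt.ne'

private theorem IoB_lt (h : Adj π i j) {a : Fin n} (h1 : a ≠ i) (h2 : a ≠ j) :
    (π a < π i ↔ π a < π j) ∧ (π i < π a ↔ π j < π a) := by
  have h3 : (π a : ℕ) ≠ π i := fun h' => h1 (π.injective (Fin.ext h'))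
  have h4 : (π a : ℕ) ≠ π j := fun h' => h2 (π.injective (Fin.ext h'))
  have h5 := h.adj
  constructor <;> (rw [Fin.lt_def, Fin.lt_def]; omega)

private theorem IoB_ij (h : Adj π i j) : π j < π i ∧ ¬ (π i < π j) := by
  have h5 := h.adj
  constructor <;> (rw [Fin.lt_def]; omega)

private theorem IoB_swi : sw π i j i = π j := by simp [sw]

private theorem IoB_swj : sw π i j j = π i := by simp [sw]

private theorem IoB_swa {a : Fin n} (h1 : a ≠ i) (h2 : a ≠ j) : sw π i j a = π a := by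
  simp [sw, Equiv.swap_apply_of_ne_of_ne h1 h2]

private theorem IoB_sw (h : Adj π i j) (a b : Fin n) :
    (sw π i j a < sw π i j b) ↔ ((π a < π b ∧ ¬ (a = j ∧ b = i)) ∨ (a = i ∧ b = j)) := by
  have hne := IoB_ne h
  have h5 := IoB_ij h
  by_cases ha : a = i
  · subst ha
    rw [IoB_swi]
    by_cases hb : b = a
    · subst hb
      rw [IoB_swi]
      simp [hne]
    · by_cases hb' : b = j
      · subst hb'
        rw [IoB_swj]
        simp [h5.1]
      · rw [IoB_swa hb hb', ← (IoB_lt h hb hb').2]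
        simp [hne, hb']
  · by_cases ha' : a = j
    · subst ha'
      rw [IoB_swj]
      by_cases hb : b = i
      · subst hb
        rw [IoB_swi]
        simp [ha, h5.2]
      · by_cases hb' : b = a
        · subst hb'
          rw [IoB_swj]
          simp [ha]
        · rw [IoB_swa hb hb', (IoB_lt h hb hb').2]
          simp [ha, hb]
    · rw [IoB_swa ha ha']
      by_cases hb : b = i
      · subst hb
        rw [IoB_swi, ← (IoB_lt h ha ha').1]
        simp [ha, ha']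
      · by_cases hb' : b = j
        · subst hb'
          rw [IoB_swj, (IoB_lt h ha ha').1]
          simp [ha, ha']
        · rw [IoB_swa hb hb']
          simp [ha, ha']

theorem dr_sw (h : Adj π i j) (a b : Fin n) :
    Dr (sw π i j) a b ↔ (Dr π a b ∨ (a = i ∧ b = j)) := by
  show (b < a ∧ sw π i j a < sw π i j b) ↔ ((b < a ∧ π a < π b) ∨ (a = i ∧ b = j))
  rw [IoB_sw h]
  have h1 := h.lt
  constructor
  · rintro ⟨h2, (h3 | h3)⟩
    · exact Or.inl ⟨h2, h3.1⟩
    · exact Or.inr h3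
  · rintro (h2 | h2)
    · refine ⟨h2.1, Or.inl ⟨h2.2, ?_⟩⟩
      rintro ⟨rfl, rfl⟩
      exact absurd h2.1 h1.not_gt
    · obtain ⟨rfl, rfl⟩ := h2
      exact ⟨h1, Or.inr ⟨rfl, rfl⟩⟩

theorem fr_sw (h : Adj π i j) (a b : Fin n) :
    Fr (sw π i j) a b ↔ (Fr π a b ∧ ¬ (a = i ∧ b = j)) := by
  show (b < a ∧ sw π i j b < sw π i j a) ↔ ((b < a ∧ π b < π a) ∧ ¬ (a = i ∧ b = j))
  rw [IoB_sw h]
  have h1 := h.lt
  constructor
  · rintro ⟨h2, (h3 | h3)⟩
    · exact ⟨⟨h2, h3.1⟩, fun h4 => h3.2 ⟨h4.2, h4.1⟩⟩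
    · obtain ⟨rfl, rfl⟩ := h3
      exact absurd h2 h1.not_gt
  · rintro ⟨h2, h3⟩
    exact ⟨h2.1, Or.inl ⟨h2.2, fun h4 => h3 ⟨h4.2, h4.1⟩⟩⟩

theorem good_sw {v : Fin n → ℝ} (h : Adj π i j) (hg : Good v π) : Good v (sw π i j) := by
  intro a b hab
  exact hg a b ((fr_sw h a b).1 hab).1

theorem so_Ob (h : Adj π i j) : SO (Ob π i j) := by
  refine ⟨fun a h1 => lt_irrefl _ h1.1, fun a b c h1 h2 => ⟨lt_trans h1.1 h2.1, ?_⟩⟩
  rintro ⟨rfl, rfl⟩
  have h3 := h1.1
  have h4 := h2.1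
  have h5 := h.adj
  rw [Fin.lt_def] at h3 h4
  omega

private theorem IoB_norm1 {R : Fin n → Fin n → Prop} (hR : SO R) (hij : j ≠ i) (h1 : ¬ R i j)
    (h2 : ¬ R j i) (h3 : ∀ a, a ≠ i → a ≠ j → (R a i ↔ R a j))
    (h4 : ∀ a, a ≠ i → a ≠ j → (R i a ↔ R j a)) (l l' : SLp p 2) (hl : l * l' = 1)
    {x : SLp p n} (hx : x ∈ U p R) :
    iota i j hij l * x * iota i j hij l' ∈ U p R := by
  have e : l.1 * l'.1 = 1 := by
    have := congrArg Subtype.val hl
    exact this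
  have e00 := congrFun (congrFun e 0) 0
  have e01 := congrFun (congrFun e 0) 1
  have e10 := congrFun (congrFun e 1) 0
  have e11 := congrFun (congrFun e 1) 1
  rw [Matrix.mul_apply, Fin.sum_univ_two] at e00 e01 e10 e11
  rw [Matrix.one_apply_eq] at e00 e11
  rw [Matrix.one_apply_ne (by decide)] at e01 e10
  have xjj := U_diag hR hx j
  have xii := U_diag hR hx i
  have xij := U_zero hx hij.symm h1
  have xji := U_zero hx hij h2
  intro a b hab
  rw [iota_mul_r, iota_mul_l, iota_mul_l, iota_mul_l]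
  by_cases ha : a = j
  · subst ha
    simp only [if_true]
    by_cases hb : b = a
    · subst hb
      simp only [if_true, xjj, xij, xji, xii]
      rw [Matrix.one_apply_eq]
      linear_combination e00
    · rw [if_neg hb]
      by_cases hb' : b = i
      · subst hb'
        simp only [if_true, xjj, xij, xji, xii]
        rw [Matrix.one_apply_ne hij]
        linear_combination e01
      · rw [if_neg hb', U_zero hx (Ne.symm hb) hab,
          U_zero hx (Ne.symm hb') (fun h => hab ((h4 b hb' hb).1 h)), Matrix.one_apply_ne (Ne.symm hb)]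
        ring
  · simp only [if_neg ha]
    by_cases ha' : a = i
    · subst ha'
      simp only [if_true]
      by_cases hb : b = j
      · subst hb
        simp only [if_true, xjj, xij, xji, xii]
        rw [Matrix.one_apply_ne ha]
        linear_combination e10
      · rw [if_neg hb]
        by_cases hb' : b = a
        · subst hb'
          simp only [if_true, xjj, xij, xji, xii]
          rw [Matrix.one_apply_eq]
          linear_combination e11
        · rw [if_neg hb', U_zero hx (Ne.symm hb') hab,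
            U_zero hx (Ne.symm hb) (fun h => hab ((h4 b hb' hb).2 h)), Matrix.one_apply_ne (Ne.symm hb')]
          ring
    · simp only [if_neg ha']
      by_cases hb : b = j
      · subst hb
        rw [if_pos rfl, U_zero hx ha hab, U_zero hx ha' (fun h => hab ((h3 a ha' ha).1 h)),
          Matrix.one_apply_ne ha]
        ring
      · rw [if_neg hb]
        by_cases hb' : b = i
        · subst hb'
          rw [if_pos rfl, U_zero hx ha' hab, U_zero hx ha (fun h => hab ((h3 a ha' ha).2 h)),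
            Matrix.one_apply_ne ha']
          ring
        · rw [if_neg hb']
          exact hx a b hab

private theorem IoB_lo (h : Adj π i j) (z : ℚ_[p]) (a b : Fin n) :
    (iota i j h.lt.ne (lo2 z)).1 a b =
      if a = i ∧ b = j then z else (1 : Matrix (Fin n) (Fin n) ℚ_[p]) a b := by
  have hne := IoB_ne h
  have l00 : (lo2 z).1 0 0 = 1 := rfl
  have l01 : (lo2 z).1 0 1 = 0 := rfl
  have l10 : (lo2 z).1 1 0 = z := rfl
  have l11 : (lo2 z).1 1 1 = 1 := rfl
  by_cases ha : a = i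
  · subst ha
    by_cases hb : b = j
    · subst hb
      rw [iota_ij, l10, if_pos ⟨rfl, rfl⟩]
    · rw [if_neg (fun h => hb h.2)]
      by_cases hb' : b = a
      · subst hb'
        rw [iota_ii, l11, Matrix.one_apply_eq]
      · exact iota_off _ _ (Or.inr ⟨hb', hb⟩)
  · rw [if_neg (fun h => ha h.1)]
    by_cases ha' : a = j
    · subst ha'
      by_cases hb : b = a
      · subst hb
        rw [iota_jj, l00, Matrix.one_apply_eq]
      · by_cases hb' : b = i
        · subst hb'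
          rw [iota_ji, l01, Matrix.one_apply_ne ha]
        · exact iota_off _ _ (Or.inr ⟨hb', hb⟩)
    · exact iota_off _ _ (Or.inl ⟨ha, ha'⟩)

private theorem IoB_mul_r (h : Adj π i j) (z : ℚ_[p]) (x : SLp p n) (a b : Fin n) :
    (x * iota i j h.lt.ne (lo2 z)).1 a b = if b = j then x.1 a j + x.1 a i * z else x.1 a b := by
  have l00 : (lo2 z).1 0 0 = 1 := rfl
  have l01 : (lo2 z).1 0 1 = 0 := rfl
  have l10 : (lo2 z).1 1 0 = z := rfl
  have l11 : (lo2 z).1 1 1 = 1 := rfl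
  rw [iota_mul_r, l00, l01, l10, l11]
  by_cases hb : b = j
  · rw [if_pos hb, if_pos hb]
    ring
  · rw [if_neg hb, if_neg hb]
    by_cases hb' : b = i
    · rw [if_pos hb', hb']
      ring
    · rw [if_neg hb']

private theorem IoB_mul_l (h : Adj π i j) (z : ℚ_[p]) (x : SLp p n) (a b : Fin n) :
    (iota i j h.lt.ne (lo2 z) * x).1 a b = if a = i then z * x.1 j b + x.1 i b else x.1 a b := by
  have l00 : (lo2 z).1 0 0 = 1 := rfl
  have l01 : (lo2 z).1 0 1 = 0 := rfl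
  have l10 : (lo2 z).1 1 0 = z := rfl
  have l11 : (lo2 z).1 1 1 = 1 := rfl
  have hne := IoB_ne h
  rw [iota_mul_l, l00, l01, l10, l11]
  by_cases ha : a = j
  · rw [if_pos ha, if_neg (by rw [ha]; exact hne.symm), ha]
    ring
  · rw [if_neg ha]
    by_cases ha' : a = i
    · rw [if_pos ha', if_pos ha']
      ring
    · rw [if_neg ha', if_neg ha']

private theorem IoB_inv (h : Adj π i j) (z : ℚ_[p]) :
    (iota i j h.lt.ne (lo2 z))⁻¹ = iota i j h.lt.ne (lo2 (-z)) := by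
  rw [← map_inv, lo2_inv]

private theorem IoB_cancel (h : Adj π i j) (z : ℚ_[p]) :
    iota i j h.lt.ne (lo2 (-z)) * iota i j h.lt.ne (lo2 z) = 1 := by
  rw [← map_mul, lo2_mul, neg_add_cancel, lo2_zero, map_one]

theorem iota_norm {R : Fin n → Fin n → Prop} (hR : SO R) (hij : j ≠ i) (h1 : ¬ R i j)
    (h2 : ¬ R j i) (h3 : ∀ a, a ≠ i → a ≠ j → (R a i ↔ R a j))
    (h4 : ∀ a, a ≠ i → a ≠ j → (R i a ↔ R j a)) (l : SLp p 2) {x : SLp p n} (hx : x ∈ U p R) :
    iota i j hij l * x * (iota i j hij l)⁻¹ ∈ U p R ∧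
      (iota i j hij l)⁻¹ * x * iota i j hij l ∈ U p R := by
  have e1 : (iota i j hij l)⁻¹ = iota i j hij l⁻¹ := (map_inv _ _).symm
  rw [e1]
  exact ⟨IoB_norm1 hR hij h1 h2 h3 h4 l l⁻¹ (mul_inv_cancel l) hx,
    IoB_norm1 hR hij h1 h2 h3 h4 l⁻¹ l (inv_mul_cancel l) hx⟩

private theorem IoB_lonorm (h : Adj π i j) (z : ℚ_[p]) {x : SLp p n} (hx : x ∈ U p (Dr π)) :
    iota i j h.lt.ne (lo2 z) * x * iota i j h.lt.ne (lo2 (-z)) ∈ U p (Dr π) := by
  have hne := IoB_ne h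
  have h5 := IoB_ij h
  intro a b hab
  rw [IoB_mul_r h, IoB_mul_l h, IoB_mul_l h, IoB_mul_l h]
  have hai : a ≠ i → ¬ Dr π a j → x.1 a i = 0 := by
    intro h1 h2
    refine U_zero hx h1 fun h3 => h2 ?_
    have h4 : a ≠ j := by
      rintro rfl
      exact absurd (h3.1.trans h.lt) (lt_irrefl _)
    exact ⟨h.lt.trans h3.1, (IoB_lt h h1 h4).1.1 h3.2⟩
  have hjb : b ≠ j → ¬ Dr π i b → x.1 j b = 0 := by
    intro h1 h2
    refine U_zero hx (Ne.symm h1) fun h3 => h2 ?_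
    have h4 : b ≠ i := by
      rintro rfl
      exact absurd (h3.1.trans h.lt) (lt_irrefl _)
    exact ⟨h3.1.trans h.lt, (IoB_lt h h4 h1).2.2 h3.2⟩
  by_cases ha : a = i
  · subst ha
    simp only [if_true]
    by_cases hb : b = j
    · subst hb
      rw [if_pos rfl, U_diag (so_Dr π) hx, U_diag (so_Dr π) hx, U_zero hx hne hab,
        U_zero hx hne.symm (fun h3 => absurd h3.1 h.lt.not_gt), Matrix.one_apply_ne hne]
      ring
    · rw [if_neg hb, hjb hb hab, hx a b hab]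
      ring
  · simp only [if_neg ha]
    by_cases hb : b = j
    · subst hb
      rw [if_pos rfl, hai ha hab, hx a b hab]
      ring
    · rw [if_neg hb]
      exact hx a b hab

theorem lo_norm (h : Adj π i j) (z : ℚ_[p]) {x : SLp p n} (hx : x ∈ U p (Dr π)) :
    iota i j h.lt.ne (lo2 z) * x * (iota i j h.lt.ne (lo2 z))⁻¹ ∈ U p (Dr π) ∧
      (iota i j h.lt.ne (lo2 z))⁻¹ * x * iota i j h.lt.ne (lo2 z) ∈ U p (Dr π) := by
  have h1 := IoB_lonorm h z hx
  have h2 := IoB_lonorm h (-z) hx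
  rw [neg_neg] at h2
  rw [IoB_inv h]
  exact ⟨h1, h2⟩

theorem ob_norm (h : Adj π i j) (l : SLp p 2) {x : SLp p n} (hx : x ∈ U p (Ob π i j)) :
    iota i j h.lt.ne l * x * (iota i j h.lt.ne l)⁻¹ ∈ U p (Ob π i j) ∧
      (iota i j h.lt.ne l)⁻¹ * x * iota i j h.lt.ne l ∈ U p (Ob π i j) := by
  have hne := IoB_ne h
  have h5 := IoB_ij h
  refine iota_norm (so_Ob h) h.lt.ne (fun h1 => h5.2 h1.1) (fun h1 => h1.2 ⟨rfl, rfl⟩) ?_ ?_ l hx
  · intro a h1 h2
    constructor
    · rintro ⟨h3, -⟩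
      exact ⟨(IoB_lt h h1 h2).1.1 h3, fun h4 => h2 h4.1⟩
    · rintro ⟨h3, -⟩
      exact ⟨(IoB_lt h h1 h2).1.2 h3, fun h4 => h2 h4.1⟩
  · intro a h1 h2
    constructor
    · rintro ⟨h3, -⟩
      exact ⟨(IoB_lt h h1 h2).2.1 h3, fun h4 => h1 h4.2⟩
    · rintro ⟨h3, -⟩
      exact ⟨(IoB_lt h h1 h2).2.2 h3, fun h4 => hne h4.1⟩

/-- if `i` and `j` are also adjacent as indices -/
theorem dr_norm2 (h : Adj π i j) (h1 : (i : ℕ) = (j : ℕ) + 1) (l : SLp p 2) {x : SLp p n}
    (hx : x ∈ U p (Dr π)) : iota i j h.lt.ne l * x * (iota i j h.lt.ne l)⁻¹ ∈ U p (Dr π) ∧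
      (iota i j h.lt.ne l)⁻¹ * x * iota i j h.lt.ne l ∈ U p (Dr π) := by
  have h5 := IoB_ij h
  refine iota_norm (so_Dr π) h.lt.ne (fun h1 => h5.2 h1.2) (fun h1 => absurd h1.1 h.lt.not_gt) ?_ ?_ l hx
  · intro a h2 h3
    have h4 : (a : ℕ) ≠ i := fun h' => h2 (Fin.ext h')
    have h6 : (a : ℕ) ≠ j := fun h' => h3 (Fin.ext h')
    have h7 : i < a ↔ j < a := by rw [Fin.lt_def, Fin.lt_def]; omega
    show (i < a ∧ π a < π i) ↔ (j < a ∧ π a < π j)
    rw [h7, (IoB_lt h h2 h3).1]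
  · intro a h2 h3
    have h4 : (a : ℕ) ≠ i := fun h' => h2 (Fin.ext h')
    have h6 : (a : ℕ) ≠ j := fun h' => h3 (Fin.ext h')
    have h7 : a < i ↔ a < j := by rw [Fin.lt_def, Fin.lt_def]; omega
    show (a < i ∧ π i < π a) ↔ (a < j ∧ π j < π a)
    rw [h7, (IoB_lt h h2 h3).2]

theorem fr_norm2 (h : Adj π i j) (h1 : (i : ℕ) = (j : ℕ) + 1) (l : SLp p 2) {x : SLp p n}
    (hx : x ∈ U p (Fr (sw π i j))) :
    iota i j h.lt.ne l * x * (iota i j h.lt.ne l)⁻¹ ∈ U p (Fr (sw π i j)) ∧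
      (iota i j h.lt.ne l)⁻¹ * x * iota i j h.lt.ne l ∈ U p (Fr (sw π i j)) := by
  have h5 := IoB_ij h
  refine iota_norm (so_Fr _) h.lt.ne (fun h1 => ((fr_sw h _ _).1 h1).2 ⟨rfl, rfl⟩)
    (fun h1 => absurd h1.1 h.lt.not_gt) ?_ ?_ l hx
  · intro a h2 h3
    have h4 : (a : ℕ) ≠ i := fun h' => h2 (Fin.ext h')
    have h6 : (a : ℕ) ≠ j := fun h' => h3 (Fin.ext h')
    have h7 : i < a ↔ j < a := by rw [Fin.lt_def, Fin.lt_def]; omega
    rw [fr_sw h, fr_sw h]
    show ((i < a ∧ π i < π a) ∧ ¬ (a = i ∧ i = j)) ↔ ((j < a ∧ π j < π a) ∧ ¬ (a = i ∧ j = j))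
    rw [h7, (IoB_lt h h2 h3).2]
    simp [h2]
  · intro a h2 h3
    have h4 : (a : ℕ) ≠ i := fun h' => h2 (Fin.ext h')
    have h6 : (a : ℕ) ≠ j := fun h' => h3 (Fin.ext h')
    have h7 : a < i ↔ a < j := by rw [Fin.lt_def, Fin.lt_def]; omega
    rw [fr_sw h, fr_sw h]
    show ((a < i ∧ π a < π i) ∧ ¬ (i = i ∧ a = j)) ↔ ((a < j ∧ π a < π j) ∧ ¬ (j = i ∧ a = j))
    rw [h7, (IoB_lt h h2 h3).1]
    simp [h3]

theorem lo_dr (h : Adj π i j) (z : ℚ_[p]) : iota i j h.lt.ne (lo2 z) ∈ U p (Dr (sw π i j)) := by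
  intro a b hab
  rw [IoB_lo h, if_neg]
  exact fun h1 => hab ((dr_sw h a b).2 (Or.inr h1))

theorem lo_fr (h : Adj π i j) (z : ℚ_[p]) : iota i j h.lt.ne (lo2 z) ∈ U p (Fr π) := by
  intro a b hab
  rw [IoB_lo h, if_neg]
  rintro ⟨rfl, rfl⟩
  exact hab ⟨h.lt, (IoB_ij h).1⟩

theorem dr_mul (h : Adj π i j) {d : SLp p n} (hd : d ∈ U p (Dr π)) (z : ℚ_[p]) :
    d * iota i j h.lt.ne (lo2 z) ∈ U p (Dr (sw π i j)) := by
  exact U_mul (so_Dr _) (U_mono (fun a b hab => (dr_sw h a b).2 (Or.inl hab)) hd) (lo_dr h z)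

private theorem IoB_loKp (h : Adj π i j) {z : ℚ_[p]} (hz : ‖z‖ ≤ 1) :
    iota i j h.lt.ne (lo2 z) ∈ Kp p n := by
  intro a b
  rw [IoB_lo h]
  split_ifs
  · exact hz
  · exact one_norm_le a b

theorem dr_mul_Kp (h : Adj π i j) {d : SLp p n} (hd : d ∈ U p (Dr π)) (z : ℚ_[p]) :
    (d * iota i j h.lt.ne (lo2 z) ∈ Kp p n ↔ (d ∈ Kp p n ∧ ‖z‖ ≤ 1)) ∧
    (iota i j h.lt.ne (lo2 z) * d ∈ Kp p n ↔ (d ∈ Kp p n ∧ ‖z‖ ≤ 1)) := by
  have hne := IoB_ne h
  have h5 := IoB_ij h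
  have dii := U_diag (so_Dr π) hd i
  have djj := U_diag (so_Dr π) hd j
  have dij := U_zero hd hne (fun h1 => h5.2 h1.2)
  have hcl : ‖z‖ ≤ 1 → (iota i j h.lt.ne (lo2 z))⁻¹ ∈ Kp p n :=
    fun hz => (Kp p n).inv_mem (IoB_loKp h hz)
  constructor
  · constructor
    · intro h1
      have h2 := h1 i j
      rw [IoB_mul_r h, if_pos rfl, dii, dij, zero_add, one_mul] at h2
      refine ⟨?_, h2⟩
      have h3 := (Kp p n).mul_mem h1 (hcl h2)
      rwa [mul_inv_cancel_right] at h3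
    · rintro ⟨h1, h2⟩
      exact (Kp p n).mul_mem h1 (IoB_loKp h h2)
  · constructor
    · intro h1
      have h2 := h1 i j
      rw [IoB_mul_l h, if_pos rfl, djj, dij, add_zero, mul_one] at h2
      refine ⟨?_, h2⟩
      have h3 := (Kp p n).mul_mem (hcl h2) h1
      rwa [inv_mul_cancel_left] at h3
    · rintro ⟨h1, h2⟩
      exact (Kp p n).mul_mem (IoB_loKp h h2) h1

theorem dr_split (h : Adj π i j) {u : SLp p n} (hu : u ∈ U p (Dr (sw π i j))) :
    ∃ d ∈ U p (Dr π), ∃ z : ℚ_[p], u = d * iota i j h.lt.ne (lo2 z) := by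
  have hne := IoB_ne h
  have h5 := IoB_ij h
  refine ⟨u * iota i j h.lt.ne (lo2 (-(u.1 i j))), ?_, u.1 i j, by rw [mul_assoc, IoB_cancel h, mul_one]⟩
  intro a b hab
  rw [IoB_mul_r h]
  by_cases hb : b = j
  · subst hb
    rw [if_pos rfl]
    by_cases ha : a = i
    · subst ha
      rw [U_diag (so_Dr _) hu, Matrix.one_apply_ne hne]
      ring
    · have h6 : ¬ Dr (sw π i b) a b := by
        rw [dr_sw h]
        rintro (h7 | h7)
        · exact hab h7
        · exact ha h7.1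
      have h8 : u.1 a i = 0 := by
        refine U_zero hu ha fun h7 => hab ?_
        rcases (dr_sw h a i).1 h7 with h9 | h9
        · have h10 : a ≠ b := by
            rintro rfl
            exact absurd (h9.1.trans h.lt) (lt_irrefl _)
          exact ⟨h.lt.trans h9.1, (IoB_lt h ha h10).1.1 h9.2⟩
        · exact absurd h9.1 ha
      rw [h8, hu a b h6]
      ring
  · rw [if_neg hb]
    refine hu a b ?_
    rw [dr_sw h]
    rintro (h7 | h7)
    · exact hab h7
    · exact hb h7.2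

theorem fr_mul (h : Adj π i j) {f : SLp p n} (hf : f ∈ U p (Fr (sw π i j))) (z : ℚ_[p]) :
    f * iota i j h.lt.ne (lo2 z) ∈ U p (Fr π) := by
  exact U_mul (so_Fr _) (U_mono (fun a b hab => ((fr_sw h a b).1 hab).1) hf) (lo_fr h z)

theorem fr_split (h : Adj π i j) {f : SLp p n} (hf : f ∈ U p (Fr π)) :
    ∃ f' ∈ U p (Fr (sw π i j)), ∃ z : ℚ_[p], f = f' * iota i j h.lt.ne (lo2 z) := by
  have hne := IoB_ne h
  have h5 := IoB_ij h
  refine ⟨f * iota i j h.lt.ne (lo2 (-(f.1 i j))), ?_, f.1 i j, by rw [mul_assoc, IoB_cancel h, mul_one]⟩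
  intro a b hab
  rw [fr_sw h] at hab
  rw [IoB_mul_r h]
  by_cases hb : b = j
  · subst hb
    rw [if_pos rfl]
    by_cases ha : a = i
    · subst ha
      rw [U_diag (so_Fr _) hf, Matrix.one_apply_ne hne]
      ring
    · have h6 : ¬ Fr π a b := fun h7 => hab ⟨h7, fun h8 => ha h8.1⟩
      have h8 : f.1 a i = 0 := by
        refine U_zero hf ha fun h7 => h6 ?_
        exact ⟨h.lt.trans h7.1, h5.1.trans h7.2⟩
      rw [h8, hf a b h6]
      ring
  · rw [if_neg hb]
    exact hf a b fun h7 => hab ⟨h7, fun h8 => hb h8.2⟩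

end

end Pool.Agent.Lib.MP_f399a8_nt.S
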