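import Pool.Agent.Lib.MP_f399a8_ntS.IwaA

/-!
# The functions `dl` and `Om`

PROOF.  If `b * k = b' * k'` with `b, b' ∈ Bp`, `k, k' ∈ Kp` then `c := b'⁻¹ * b = k' * k⁻¹ ∈ Bp ∩ Kp`, also
`c⁻¹ ∈ Kp`, so `‖c i i‖ ≤ 1` and `‖(c⁻¹) i i‖ ≤ 1` with product `1` (upper triangular), so
`‖c i i‖ = 1` and `‖b i i‖ = ‖b' i i‖`.  This gives `dl_bk`.  `dl_left`: write `x = b' * k` (`iwasawa`), then
`b * x = (b * b') * k` and the diagonal entries of a product of upper triangular matrices multiply.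
`dl_right` is similar.  `dl_prod`: `∏ ‖b i i‖ = ‖det b‖ = 1` (`bp_diag`).  `dl_ge`: the product of the others is
at most `A ^ (n - 1)`, so `dl x i ≥ (A ^ n)⁻¹` for `A ≥ 1`.  The statements for `Om` follow from
`Real.mul_rpow` and `slope_cb`.
-/

namespace Pool.Agent.Lib.MP_f399a8_nt.S

open Matrix Filter Topology

noncomputable section

variable {p : ℕ} [Fact p.Prime] {n : ℕ} {C : Type*} [NormedField C]

/-- the absolute values of the diagonal entries of the Iwasawa decomposition -/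
def dl (x : SLp p n) (i : Fin n) : ℝ := ‖(Classical.choose (iwasawa x)).1 i i‖

/-- the absolute value of the character, extended to the whole group -/
def Om (v : Fin n → ℝ) (x : SLp p n) : ℝ := ∏ i, dl x i ^ (v i)

private theorem IwaB_diag_mul {b b' : SLp p n} (hb : b ∈ Bp p n) (hb' : b' ∈ Bp p n) (i : Fin n) :
    (b * b').1 i i = b.1 i i * b'.1 i i := by
  show (b.1 * b'.1) i i = _
  rw [Matrix.mul_apply]
  refine Finset.sum_eq_single i (fun k _ hk => ?_) fun h => absurd (Finset.mem_univ i) h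
  rcases lt_or_gt_of_ne hk with h | h
  · rw [mem_Bp.1 hb i k h, zero_mul]
  · rw [mem_Bp.1 hb' k i h, mul_zero]

private theorem IwaB_norm_one {c : SLp p n} (hb : c ∈ Bp p n) (hk : c ∈ Kp p n) (i : Fin n) :
    ‖c.1 i i‖ = 1 := by
  have h1 : (c⁻¹ * c).1 i i = (c⁻¹).1 i i * c.1 i i := IwaB_diag_mul ((Bp p n).inv_mem hb) hb i
  rw [inv_mul_cancel, Matrix.SpecialLinearGroup.coe_one, Matrix.one_apply_eq] at h1
  have h2 : (1 : ℝ) = ‖(c⁻¹).1 i i‖ * ‖c.1 i i‖ := by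
    rw [← norm_mul, ← h1, norm_one]
  have h3 : ‖(c⁻¹).1 i i‖ ≤ 1 := mem_Kp.1 ((Kp p n).inv_mem hk) i i
  have h4 : ‖c.1 i i‖ ≤ 1 := mem_Kp.1 hk i i
  nlinarith [norm_nonneg (c.1 i i)]

theorem dl_bk {b k : SLp p n} (hb : b ∈ Bp p n) (hk : k ∈ Kp p n) (i : Fin n) :
    dl (b * k) i = ‖b.1 i i‖ := by
  obtain ⟨hb', k', hk', h⟩ := Classical.choose_spec (iwasawa (b * k))
  set b' := Classical.choose (iwasawa (b * k)) with hb'def
  have hc : b'⁻¹ * b = k' * k⁻¹ := by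
    rw [inv_mul_eq_iff_eq_mul, ← mul_assoc, ← h, mul_inv_cancel_right]
  have h1 : b'⁻¹ * b ∈ Bp p n := (Bp p n).mul_mem ((Bp p n).inv_mem hb') hb
  have h2 : b'⁻¹ * b ∈ Kp p n := by
    rw [hc]
    exact (Kp p n).mul_mem hk' ((Kp p n).inv_mem hk)
  have h3 : b.1 i i = b'.1 i i * (b'⁻¹ * b).1 i i := by
    rw [← IwaB_diag_mul hb' h1, mul_inv_cancel_left]
  rw [h3, norm_mul, IwaB_norm_one h1 h2, mul_one]
  rfl

theorem dl_left {b : SLp p n} (hb : b ∈ Bp p n) (x : SLp p n) (i : Fin n) :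
    dl (b * x) i = ‖b.1 i i‖ * dl x i := by
  obtain ⟨b', hb', k, hk, rfl⟩ := iwasawa x
  rw [← mul_assoc, dl_bk ((Bp p n).mul_mem hb hb') hk, dl_bk hb' hk, IwaB_diag_mul hb hb', norm_mul]

theorem dl_right {k : SLp p n} (hk : k ∈ Kp p n) (x : SLp p n) (i : Fin n) :
    dl (x * k) i = dl x i := by
  obtain ⟨b', hb', k', hk', rfl⟩ := iwasawa x
  rw [mul_assoc, dl_bk hb' ((Kp p n).mul_mem hk' hk), dl_bk hb' hk']

theorem dl_pos (x : SLp p n) (i : Fin n) : 0 < dl x i := by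
  obtain ⟨b, hb, k, hk, rfl⟩ := iwasawa x
  rw [dl_bk hb hk]
  exact norm_pos_iff.2 ((bp_diag hb).1 i)

theorem dl_kp {k : SLp p n} (hk : k ∈ Kp p n) (i : Fin n) : dl k i = 1 := by
  have h := dl_bk (Bp p n).one_mem hk i
  rw [one_mul] at h
  rw [h, Matrix.SpecialLinearGroup.coe_one, Matrix.one_apply_eq, norm_one]

theorem dl_prod (x : SLp p n) : ∏ i, dl x i = 1 := by
  obtain ⟨b, hb, k, hk, rfl⟩ := iwasawa x
  rw [Finset.prod_congr rfl fun i _ => dl_bk hb hk i, ← norm_prod, (bp_diag hb).2, norm_one]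

theorem dl_ge {x : SLp p n} {A : ℝ} (hA : 1 ≤ A) (h : ∀ i, dl x i ≤ A) (i : Fin n) :
    (A ^ n)⁻¹ ≤ dl x i := by
  have hA0 : 0 < A := by linarith
  have h1 : dl x i * ∏ j ∈ Finset.univ.erase i, dl x j = 1 := by
    rw [Finset.mul_prod_erase _ _ (Finset.mem_univ i), dl_prod]
  have h2 : ∏ j ∈ Finset.univ.erase i, dl x j ≤ A ^ n := by
    calc ∏ j ∈ Finset.univ.erase i, dl x j ≤ ∏ _j ∈ Finset.univ.erase i, A :=
          Finset.prod_le_prod (fun j _ => (dl_pos x j).le) fun j _ => h j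
      _ = A ^ (Finset.univ.erase i).card := Finset.prod_const A
      _ ≤ A ^ n := by
          refine pow_le_pow_right₀ hA ?_
          calc (Finset.univ.erase i).card ≤ (Finset.univ : Finset (Fin n)).card := Finset.card_erase_le
            _ = n := by simp
  rw [inv_le_iff_one_le_mul₀ (pow_pos hA0 n), ← h1]
  exact mul_le_mul_of_nonneg_left h2 (dl_pos x i).le

theorem om_pos (v : Fin n → ℝ) (x : SLp p n) : 0 < Om v x := by
  exact Finset.prod_pos fun i _ => Real.rpow_pos_of_pos (dl_pos x i) _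

theorem om_left (v : Fin n → ℝ) {b : SLp p n} (hb : b ∈ Bp p n) (x : SLp p n) :
    Om v (b * x) = (∏ i, ‖b.1 i i‖ ^ (v i)) * Om v x := by
  unfold Om
  rw [← Finset.prod_mul_distrib]
  refine Finset.prod_congr rfl fun i _ => ?_
  rw [dl_left hb, Real.mul_rpow (norm_nonneg _) (dl_pos x i).le]

theorem om_unip (v : Fin n → ℝ) {b : SLp p n} (hb : b ∈ Bp p n) (h1 : ∀ i, b.1 i i = 1)
    (x : SLp p n) : Om v (b * x) = Om v x := by
  rw [om_left v hb x, Finset.prod_eq_one, one_mul]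
  intro i _
  rw [h1 i, norm_one, Real.one_rpow]

theorem om_right (v : Fin n → ℝ) {k : SLp p n} (hk : k ∈ Kp p n) (x : SLp p n) :
    Om v (x * k) = Om v x := by
  unfold Om
  exact Finset.prod_congr rfl fun i _ => by rw [dl_right hk]

theorem om_kp (v : Fin n → ℝ) {k : SLp p n} (hk : k ∈ Kp p n) : Om v k = 1 := by
  unfold Om
  exact Finset.prod_eq_one fun i _ => by rw [dl_kp hk, Real.one_rpow]

theorem om_cb {χ : Tor p n →* Cˣ} {v : Fin n → ℝ} (hs : Slope χ v) {b : SLp p n}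
    (hb : b ∈ Bp p n) (x : SLp p n) : Om v (b * x) = ‖cb χ b‖ * Om v x := by
  rw [om_left v hb x, slope_cb hs hb]

end

end Pool.Agent.Lib.MP_f399a8_nt.S
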