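import Pool.Agent.Lib.MP_f399a8_ntS.IwaB

/-!
# Continuity of `Om` and bounds

PROOF.
* `om_cont`: `Om v (x * k) = Om v x` for `k ∈ Kp`, so `Om v` is constant on the open neighbourhood
  `{y | x⁻¹ * y ∈ Km 0 or Kp}` of `x` (`km_nhds_mul`, `km_le_kp`); locally constant functions are continuous.
* `ps_bound`: `x = b * k`, `‖f x‖ = ‖cb χ b‖ * ‖f k‖ ≤ A * ‖cb χ b‖ = A * Om v x` (`om_cb`, `om_kp`).
* `ps_bdd`: `Kp` is compact and `f` is continuous.
* `om_bdd`: `Om v` is continuous and positive, `{x | ∀ i j, ‖x i j‖ ≤ A}` is compact.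
* `om_mul_bdd`: `x = b * k`, `Om v (x * g) = (∏ ‖b i i‖ ^ v i) * Om v (k * g)`,
  `Om v x = ∏ ‖b i i‖ ^ v i`, and `k ↦ Om v (k * g)` is continuous on the compact set `Kp`.
-/

namespace Pool.Agent.Lib.MP_f399a8_nt.S

open Matrix Filter Topology

variable {p : ℕ} [Fact p.Prime] {n : ℕ} {C : Type*} [NormedField C]

theorem om_cont (p : ℕ) [Fact p.Prime] (v : Fin n → ℝ) :
    Continuous (Om v : SLp p n → ℝ) := by
  rw [continuous_iff_continuousAt]
  intro x
  have h : ∀ᶠ y in 𝓝 x, Om v x = Om v y := by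
    filter_upwards [km_nhds_mul x 0] with y hy
    have h1 : y = x * (x⁻¹ * y) := by group
    rw [h1, om_right v (km_le_kp hy)]
  exact (continuousAt_const (y := Om v x)).congr h

theorem ps_bdd {f : SLp p n → C} (hf : Continuous f) : ∃ A : ℝ, 0 < A ∧ ∀ k ∈ Kp p n, ‖f k‖ ≤ A := by
  obtain ⟨A, hA⟩ := (kp_compact p n).exists_bound_of_continuousOn hf.continuousOn
  exact ⟨max A 1, lt_of_lt_of_le zero_lt_one (le_max_right _ _), fun k hk => (hA k hk).trans (le_max_left _ _)⟩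

theorem ps_bound {χ : Tor p n →* Cˣ} {v : Fin n → ℝ} (hs : Slope χ v) {f : SLp p n → C}
    (hf : IsPS χ f) {A : ℝ} (hA : ∀ k ∈ Kp p n, ‖f k‖ ≤ A) (x : SLp p n) :
    ‖f x‖ ≤ A * Om v x := by
  obtain ⟨b, hb, k, hk, rfl⟩ := iwasawa x
  rw [(isPS_iff.1 hf).2 b hb k, norm_mul, om_cb hs hb, om_kp v hk, mul_one, mul_comm]
  exact mul_le_mul_of_nonneg_right (hA k hk) (norm_nonneg _)

theorem om_bdd (p : ℕ) [Fact p.Prime] (v : Fin n → ℝ) (A : ℝ) :
    ∃ B : ℝ, 0 < B ∧ ∀ x : SLp p n, (∀ i j, ‖x.1 i j‖ ≤ A) → Om v x ≤ B ∧ B⁻¹ ≤ Om v x := by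
  have hc := om_cont (n := n) p v
  have hc' : Continuous (fun x : SLp p n => (Om v x)⁻¹) := hc.inv₀ (fun x => (om_pos v x).ne')
  obtain ⟨B1, hB1⟩ := (bdd_compact p n A).exists_bound_of_continuousOn hc.continuousOn
  obtain ⟨B2, hB2⟩ := (bdd_compact p n A).exists_bound_of_continuousOn hc'.continuousOn
  refine ⟨max (max B1 B2) 1, lt_of_lt_of_le zero_lt_one (le_max_right _ _), ?_⟩
  intro x hx
  have h1 := hB1 x hx
  have h2 := hB2 x hx
  have hpos := om_pos v x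
  rw [Real.norm_of_nonneg hpos.le] at h1
  rw [Real.norm_of_nonneg (inv_nonneg.2 hpos.le)] at h2
  refine ⟨h1.trans ((le_max_left _ _).trans (le_max_left _ _)), ?_⟩
  exact inv_le_of_inv_le₀ hpos (h2.trans ((le_max_right _ _).trans (le_max_left _ _)))

/-- `Km`-invariance of the bounds: right translates by a fixed element -/
theorem om_mul_bdd (v : Fin n → ℝ) (g : SLp p n) :
    ∃ B : ℝ, 0 < B ∧ ∀ x : SLp p n, Om v (x * g) ≤ B * Om v x := by
  have hc : Continuous (fun k : SLp p n => Om v (k * g)) :=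
    (om_cont (n := n) p v).comp (continuous_mul_const g)
  obtain ⟨B, hB⟩ := (kp_compact p n).exists_bound_of_continuousOn hc.continuousOn
  refine ⟨max B 1, lt_of_lt_of_le zero_lt_one (le_max_right _ _), ?_⟩
  intro x
  obtain ⟨b, hb, k, hk, rfl⟩ := iwasawa x
  have h1 := hB k hk
  rw [Real.norm_of_nonneg (om_pos v _).le] at h1
  have hpos : 0 ≤ ∏ i, ‖b.1 i i‖ ^ (v i) := Finset.prod_nonneg (fun i _ => Real.rpow_nonneg (norm_nonneg _) _)
  rw [mul_assoc, om_left v hb, om_left v hb, om_kp v hk, mul_one, mul_comm]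
  exact mul_le_mul_of_nonneg_right (h1.trans (le_max_left _ _)) hpos

end Pool.Agent.Lib.MP_f399a8_nt.S
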