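import Pool.Agent.Lib.MP_f399a8_ntS.GrB

/-!
# Triangular decompositions

PROOF of `tri_unique`: `z := b'⁻¹ * b = u' * u⁻¹` is in `Bt p ℓ` and in `U p (fun i j => ℓ j < ℓ i)`
(`U_mul`, `U_inv`; this relation is a strict order).  So `z i j = 0` for `ℓ j < ℓ i` (first) and
`z i j = 1 i j` for `¬ ℓ j < ℓ i` (second), hence `z = 1`.

PROOF of `lu`.  Define `m i j` by well-founded recursion on `min (ℓ i) (ℓ j)` (as a natural number) by
`m i j = x i j - ∑ k with ℓ k < min (ℓ i) (ℓ j), m i k * m k j`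
(the terms have `min = ℓ k`, smaller).  By the same induction: (1) `m i j ≠ 0` implies `i = j` or
`R i j` (if `x i j ≠ 0` clear; otherwise some `m i k ≠ 0`, `m k j ≠ 0` with `k ≠ i, j`, so `R i k`,
`R k j`, so `R i j`);  (2) `m i i = 1` (a nonzero term would give `R i k` and `R k i`, so `R i i`;
and `x i i = 1`);  (3) if `x ∈ Kp` then all `‖m i j‖ ≤ 1`; if `x ∈ Km m` then
`‖m i j - 1 i j‖ ≤ p ^ (-m)` for all `i j` (for `i ≠ j` by induction: the terms are products of two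
off-diagonal entries, each of norm `≤ p ^ (-m) ≤ 1`).
Let `Y i j = m i j` for `ℓ j < ℓ i`, `1` for `i = j`, `0` otherwise, and `Z i j = m i j` for
`ℓ i < ℓ j`, `1` for `i = j` and `0` otherwise.  Then `(Y * Z) i j = ∑_k Y i k Z k j`, with nonzero
terms only for `ℓ k ≤ ℓ i`, `ℓ k ≤ ℓ j`: it is `∑_{ℓ k < min} m i k m k j` plus the term with
`ℓ k = min (ℓ i) (ℓ j)`, which is `m i j` (for `k = i`: `1 * m i j`, for `k = j`: `m i j * 1`, for
`i = j`: `1`), so `Y * Z = x`.  Both have determinant `1`: `det Y * det Z = 1` and `Y` is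
`BlockTriangular` with unit diagonal (`Matrix.det_of_upperTriangular` needs `id`; use
`Matrix.BlockTriangular.det_fintype` or reindex by `ℓ`: `(Y.submatrix ℓ.symm ℓ.symm)` is lower
triangular with diagonal `1`, `Matrix.det_of_lowerTriangular`, `Matrix.det_submatrix_equiv_self`).
Alternative without recursion: induction on the number of indices `k` (in the order `ℓ`) already
processed, multiplying by elementary matrices on both sides.
-/

namespace Pool.Agent.Lib.MP_f399a8_nt.S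

open Matrix Filter Topology

variable {p : ℕ} [Fact p.Prime] {n : ℕ}

theorem tri_unique (ℓ : Equiv.Perm (Fin n)) {b b' u u' : SLp p n} (hb : b ∈ Bt p ℓ)
    (hb' : b' ∈ Bt p ℓ) (hu : u ∈ U p (fun i j => ℓ j < ℓ i))
    (hu' : u' ∈ U p (fun i j => ℓ j < ℓ i)) (h : b * u = b' * u') : b = b' ∧ u = u' := by
  have hso : SO (fun i j : Fin n => ℓ j < ℓ i) :=
    ⟨fun _ h => lt_irrefl _ h, fun _ _ _ h1 h2 => lt_trans h2 h1⟩
  have hz : b'⁻¹ * b = u' * u⁻¹ := by
    rw [inv_mul_eq_iff_eq_mul, ← mul_assoc, ← h, mul_assoc, mul_inv_cancel, mul_one]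
  have h1 : b'⁻¹ * b ∈ Bt p ℓ := (Bt p ℓ).mul_mem ((Bt p ℓ).inv_mem hb') hb
  have h2 : b'⁻¹ * b ∈ U p (fun i j : Fin n => ℓ j < ℓ i) := by
    rw [hz]
    exact U_mul hso hu' (U_inv hso hu)
  have h3 : b'⁻¹ * b = 1 := by
    apply Matrix.SpecialLinearGroup.ext
    intro i j
    rw [Matrix.SpecialLinearGroup.coe_one]
    by_cases hij : ℓ j < ℓ i
    · rw [mem_Bt.mp h1 i j hij, Matrix.one_apply_ne]
      rintro rfl
      exact lt_irrefl _ hij
    · exact mem_U.mp h2 i j hij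
  have h4 : b = b' := (inv_mul_eq_one.mp h3).symm
  refine ⟨h4, ?_⟩
  rw [h4] at h
  exact mul_left_cancel h

/-- the minors -/
private noncomputable def LUa_m (ℓ : Equiv.Perm (Fin n)) (x : Matrix (Fin n) (Fin n) ℚ_[p])
    (i j : Fin n) : ℚ_[p] :=
  x i j - ∑ k : {k : Fin n // ℓ k < min (ℓ i) (ℓ j)}, LUa_m ℓ x i k.1 * LUa_m ℓ x k.1 j
termination_by (min (ℓ i) (ℓ j)).val
decreasing_by
  · have := k.2
    rw [lt_min_iff] at this
    rw [min_eq_right this.1.le]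
    exact k.2
  · have := k.2
    rw [lt_min_iff] at this
    rw [min_eq_left this.2.le]
    exact k.2

private theorem LUa_eq (ℓ : Equiv.Perm (Fin n)) (x : Matrix (Fin n) (Fin n) ℚ_[p])
    (i j : Fin n) : LUa_m ℓ x i j = x i j - ∑ k, if ℓ k < min (ℓ i) (ℓ j) then
      LUa_m ℓ x i k * LUa_m ℓ x k j else 0 := by
  rw [LUa_m]
  congr 1
  rw [← Finset.sum_filter]
  exact (Finset.sum_subtype _ (by simp) (fun k => LUa_m ℓ x i k * LUa_m ℓ x k j)).symm

private theorem LUa_rec (ℓ : Equiv.Perm (Fin n)) (P : Fin n → Fin n → Prop)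
    (h : ∀ i j, (∀ k, ℓ k < min (ℓ i) (ℓ j) → P i k ∧ P k j) → P i j) (i j : Fin n) : P i j := by
  have key : ∀ N : ℕ, ∀ i j, (min (ℓ i) (ℓ j)).val < N → P i j := by
    intro N
    induction N with
    | zero => intro i j hN; exact absurd hN (Nat.not_lt_zero _)
    | succ N ih =>
      intro i j hN
      refine h i j fun k hk => ?_
      have hk' := lt_min_iff.mp hk
      refine ⟨ih i k ?_, ih k j ?_⟩
      · rw [min_eq_right hk'.1.le]
        have : (ℓ k).val < (min (ℓ i) (ℓ j)).val := hk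
        omega
      · rw [min_eq_left hk'.2.le]
        have : (ℓ k).val < (min (ℓ i) (ℓ j)).val := hk
        omega
  exact key _ i j (Nat.lt_succ_self _)

private theorem LUa_supp {R : Fin n → Fin n → Prop} (hR : SO R) (ℓ : Equiv.Perm (Fin n))
    {x : SLp p n} (hx : x ∈ U p R) (i j : Fin n) : i ≠ j → ¬ R i j → LUa_m ℓ x.1 i j = 0 := by
  refine LUa_rec ℓ (fun i j => i ≠ j → ¬ R i j → LUa_m ℓ x.1 i j = 0) ?_ i j
  intro i j ih hij hr
  rw [LUa_eq, U_zero hx hij hr, zero_sub, neg_eq_zero]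
  refine Finset.sum_eq_zero fun k _ => ?_
  split_ifs with hk
  · obtain ⟨h1, h2⟩ := ih k hk
    have hk' := lt_min_iff.mp hk
    have hik : i ≠ k := by rintro rfl; exact lt_irrefl _ hk'.1
    have hkj : k ≠ j := by rintro rfl; exact lt_irrefl _ hk'.2
    by_cases r1 : R i k
    · rw [h2 hkj (fun r2 => hr (hR.tr _ _ _ r1 r2)), mul_zero]
    · rw [h1 hik r1, zero_mul]
  · rfl

private theorem LUa_diag {R : Fin n → Fin n → Prop} (hR : SO R) (ℓ : Equiv.Perm (Fin n))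
    {x : SLp p n} (hx : x ∈ U p R) (i : Fin n) : LUa_m ℓ x.1 i i = 1 := by
  rw [LUa_eq, U_diag hR hx, Finset.sum_eq_zero, sub_zero]
  intro k _
  split_ifs with hk
  · have hk' := lt_min_iff.mp hk
    have hik : i ≠ k := by rintro rfl; exact lt_irrefl _ hk'.1
    by_cases r1 : R i k
    · rw [LUa_supp hR ℓ hx k i hik.symm (fun r2 => hR.irr _ (hR.tr _ _ _ r1 r2)), mul_zero]
    · rw [LUa_supp hR ℓ hx i k hik r1, zero_mul]
  · rfl

private theorem LUa_int (ℓ : Equiv.Perm (Fin n)) {x : SLp p n} (hx : x ∈ Kp p n) (i j : Fin n) :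
    ‖LUa_m ℓ x.1 i j‖ ≤ 1 := by
  refine LUa_rec ℓ (fun i j => ‖LUa_m ℓ x.1 i j‖ ≤ 1) ?_ i j
  intro i j ih
  show ‖LUa_m ℓ x.1 i j‖ ≤ 1
  rw [LUa_eq, sub_eq_add_neg]
  refine (IsUltrametricDist.norm_add_le_max _ _).trans (max_le (mem_Kp.mp hx i j) ?_)
  rw [norm_neg]
  refine sum_norm_le _ _ zero_le_one fun k _ => ?_
  split_ifs with hk
  · obtain ⟨h1, h2⟩ := ih k hk
    rw [norm_mul]
    exact mul_le_one₀ h1 (norm_nonneg _) h2
  · simp

private theorem LUa_lev {R : Fin n → Fin n → Prop} (hR : SO R) (ℓ : Equiv.Perm (Fin n))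
    {x : SLp p n} (hx : x ∈ U p R) (m : ℕ) (hm : x ∈ Km p n m) (i j : Fin n) :
    ‖LUa_m ℓ x.1 i j - (1 : Matrix (Fin n) (Fin n) ℚ_[p]) i j‖ ≤ (p : ℝ) ^ (-(m : ℤ)) := by
  have hp : (0 : ℝ) ≤ (p : ℝ) ^ (-(m : ℤ)) := by positivity
  have hp1 : (p : ℝ) ^ (-(m : ℤ)) ≤ 1 := by
    refine zpow_le_one_of_nonpos₀ ?_ (by simp)
    exact_mod_cast (Fact.out : p.Prime).one_lt.le
  refine LUa_rec ℓ (fun i j => ‖LUa_m ℓ x.1 i j - (1 : Matrix (Fin n) (Fin n) ℚ_[p]) i j‖ ≤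
    (p : ℝ) ^ (-(m : ℤ))) ?_ i j
  intro i j ih
  show ‖LUa_m ℓ x.1 i j - (1 : Matrix (Fin n) (Fin n) ℚ_[p]) i j‖ ≤ _
  rcases eq_or_ne i j with rfl | hij
  · rw [LUa_diag hR ℓ hx, Matrix.one_apply_eq, sub_self, norm_zero]
    exact hp
  · have h0 := mem_Km.mp hm i j
    rw [Matrix.one_apply_ne hij, sub_zero] at h0 ⊢
    rw [LUa_eq, sub_eq_add_neg]
    refine (IsUltrametricDist.norm_add_le_max _ _).trans (max_le h0 ?_)
    rw [norm_neg]
    refine sum_norm_le _ _ hp fun k _ => ?_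
    split_ifs with hk
    · obtain ⟨h1, h2⟩ := ih k hk
      have hk' := lt_min_iff.mp hk
      have hik : i ≠ k := by rintro rfl; exact lt_irrefl _ hk'.1
      have hkj : k ≠ j := by rintro rfl; exact lt_irrefl _ hk'.2
      rw [Matrix.one_apply_ne hik, sub_zero] at h1
      rw [Matrix.one_apply_ne hkj, sub_zero] at h2
      rw [norm_mul]
      calc _ ≤ (p : ℝ) ^ (-(m : ℤ)) * 1 :=
            mul_le_mul h1 (h2.trans hp1) (norm_nonneg _) hp
        _ = _ := mul_one _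
    · rw [norm_zero]; exact hp

/-- the lower factor -/
private noncomputable def LUa_Y (ℓ : Equiv.Perm (Fin n)) (x : Matrix (Fin n) (Fin n) ℚ_[p]) :
    Matrix (Fin n) (Fin n) ℚ_[p] := fun i j =>
  if ℓ j < ℓ i then LUa_m ℓ x i j else if i = j then 1 else 0

/-- the upper factor -/
private noncomputable def LUa_Z (ℓ : Equiv.Perm (Fin n)) (x : Matrix (Fin n) (Fin n) ℚ_[p]) :
    Matrix (Fin n) (Fin n) ℚ_[p] := fun i j =>
  if ℓ i < ℓ j then LUa_m ℓ x i j else if i = j then 1 else 0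

private theorem LUa_detY (ℓ : Equiv.Perm (Fin n)) (x : Matrix (Fin n) (Fin n) ℚ_[p]) :
    (LUa_Y ℓ x).det = 1 := by
  rw [← Matrix.det_submatrix_equiv_self ℓ.symm, Matrix.det_of_isLowerTriangular]
  · refine Finset.prod_eq_one fun i _ => ?_
    simp [LUa_Y]
  · intro i j hij
    have h : i < j := hij
    have h1 : ¬ j < i := not_lt.mpr h.le
    have h2 : ¬ (ℓ.symm i = ℓ.symm j) := fun e => h.ne (ℓ.symm.injective e)
    simp [LUa_Y, h1, h2]

private theorem LUa_detZ (ℓ : Equiv.Perm (Fin n)) (x : Matrix (Fin n) (Fin n) ℚ_[p]) :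
    (LUa_Z ℓ x).det = 1 := by
  rw [← Matrix.det_submatrix_equiv_self ℓ.symm, Matrix.det_of_isUpperTriangular]
  · refine Finset.prod_eq_one fun i _ => ?_
    simp [LUa_Z]
  · intro i j hij
    have h : j < i := hij
    have h1 : ¬ i < j := not_lt.mpr h.le
    have h2 : ¬ (ℓ.symm i = ℓ.symm j) := fun e => h.ne' (ℓ.symm.injective e)
    simp [LUa_Z, h1, h2]

private theorem LUa_mul {R : Fin n → Fin n → Prop} (hR : SO R) (ℓ : Equiv.Perm (Fin n))
    {x : SLp p n} (hx : x ∈ U p R) : LUa_Y ℓ x.1 * LUa_Z ℓ x.1 = x.1 := by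
  ext i j
  rw [Matrix.mul_apply]
  have hinj : ∀ a b : Fin n, ℓ a = ℓ b → a = b := fun a b h => ℓ.injective h
  obtain ⟨t, ht⟩ : ∃ t : Fin n, ∀ k, LUa_Y ℓ x.1 i k * LUa_Z ℓ x.1 k j =
      (if ℓ k < min (ℓ i) (ℓ j) then LUa_m ℓ x.1 i k * LUa_m ℓ x.1 k j else 0) +
      (if k = t then LUa_m ℓ x.1 i j else 0) := by
    rcases lt_trichotomy (ℓ i) (ℓ j) with hij | hij | hij
    · refine ⟨i, fun k => ?_⟩
      rw [min_eq_left hij.le]
      rcases lt_trichotomy (ℓ k) (ℓ i) with hk | hk | hk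
      · have h1 : k ≠ i := by rintro rfl; exact lt_irrefl _ hk
        have h2 : ℓ k < ℓ j := hk.trans hij
        simp [LUa_Y, LUa_Z, hk, h1, h2]
      · obtain rfl := hinj _ _ hk
        simp [LUa_Y, LUa_Z, hij]
      · have h1 : k ≠ i := by rintro rfl; exact lt_irrefl _ hk
        have h2 : ¬ ℓ k < ℓ i := not_lt.mpr hk.le
        simp [LUa_Y, h2, h1, h1.symm]
    · obtain rfl := hinj _ _ hij
      refine ⟨i, fun k => ?_⟩
      rw [min_self]
      rcases lt_trichotomy (ℓ k) (ℓ i) with hk | hk | hk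
      · have h1 : k ≠ i := by rintro rfl; exact lt_irrefl _ hk
        simp [LUa_Y, LUa_Z, hk, h1]
      · obtain rfl := hinj _ _ hk
        simp [LUa_Y, LUa_Z, LUa_diag hR ℓ hx]
      · have h1 : k ≠ i := by rintro rfl; exact lt_irrefl _ hk
        have h2 : ¬ ℓ k < ℓ i := not_lt.mpr hk.le
        simp [LUa_Y, h2, h1, h1.symm]
    · refine ⟨j, fun k => ?_⟩
      rw [min_eq_right hij.le]
      rcases lt_trichotomy (ℓ k) (ℓ j) with hk | hk | hk
      · have h1 : k ≠ j := by rintro rfl; exact lt_irrefl _ hk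
        have h2 : ℓ k < ℓ i := hk.trans hij
        simp [LUa_Y, LUa_Z, hk, h1, h2]
      · obtain rfl := hinj _ _ hk
        simp [LUa_Y, LUa_Z, hij]
      · have h1 : k ≠ j := by rintro rfl; exact lt_irrefl _ hk
        have h2 : ¬ ℓ k < ℓ j := not_lt.mpr hk.le
        simp [LUa_Z, h2, h1]
  rw [Finset.sum_congr rfl (fun k _ => ht k), Finset.sum_add_distrib, Finset.sum_ite_eq',
    if_pos (Finset.mem_univ _)]
  have h := LUa_eq ℓ x.1 i j
  rw [eq_sub_iff_add_eq] at h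
  rw [add_comm]
  exact h

theorem lu {R : Fin n → Fin n → Prop} (hR : SO R) (ℓ : Equiv.Perm (Fin n)) {x : SLp p n}
    (hx : x ∈ U p R) :
    ∃ y ∈ U p (fun i j => R i j ∧ ℓ j < ℓ i), ∃ z ∈ U p (fun i j => R i j ∧ ℓ i < ℓ j),
      x = y * z ∧ (x ∈ Kp p n → y ∈ Kp p n ∧ z ∈ Kp p n) ∧
      ∀ m : ℕ, x ∈ Km p n m → y ∈ Km p n m ∧ z ∈ Km p n m := by
  refine ⟨⟨LUa_Y ℓ x.1, LUa_detY ℓ x.1⟩, ?_, ⟨LUa_Z ℓ x.1, LUa_detZ ℓ x.1⟩, ?_, ?_, ?_, ?_⟩
  · intro i j hij
    show LUa_Y ℓ x.1 i j = _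
    unfold LUa_Y
    split_ifs with h1 h2
    · have hr : ¬ R i j := fun r => hij ⟨r, h1⟩
      have hne : i ≠ j := by rintro rfl; exact lt_irrefl _ h1
      rw [LUa_supp hR ℓ hx i j hne hr, Matrix.one_apply_ne hne]
    · rw [h2, Matrix.one_apply_eq]
    · rw [Matrix.one_apply_ne h2]
  · intro i j hij
    show LUa_Z ℓ x.1 i j = _
    unfold LUa_Z
    split_ifs with h1 h2
    · have hr : ¬ R i j := fun r => hij ⟨r, h1⟩
      have hne : i ≠ j := by rintro rfl; exact lt_irrefl _ h1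
      rw [LUa_supp hR ℓ hx i j hne hr, Matrix.one_apply_ne hne]
    · rw [h2, Matrix.one_apply_eq]
    · rw [Matrix.one_apply_ne h2]
  · apply Subtype.ext
    exact (LUa_mul hR ℓ hx).symm
  · intro hk
    constructor
    · intro i j
      show ‖LUa_Y ℓ x.1 i j‖ ≤ 1
      unfold LUa_Y
      split_ifs with h1 h2
      · exact LUa_int ℓ hk i j
      · simp
      · simp
    · intro i j
      show ‖LUa_Z ℓ x.1 i j‖ ≤ 1
      unfold LUa_Z
      split_ifs with h1 h2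
      · exact LUa_int ℓ hk i j
      · simp
      · simp
  · intro m hm
    have hp : (0 : ℝ) ≤ (p : ℝ) ^ (-(m : ℤ)) := by positivity
    constructor
    · intro i j
      show ‖LUa_Y ℓ x.1 i j - (1 : Matrix (Fin n) (Fin n) ℚ_[p]) i j‖ ≤ _
      unfold LUa_Y
      split_ifs with h1 h2
      · exact LUa_lev hR ℓ hx m hm i j
      · rw [h2, Matrix.one_apply_eq, sub_self, norm_zero]; exact hp
      · rw [Matrix.one_apply_ne h2, sub_self, norm_zero]; exact hp
    · intro i j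
      show ‖LUa_Z ℓ x.1 i j - (1 : Matrix (Fin n) (Fin n) ℚ_[p]) i j‖ ≤ _
      unfold LUa_Z
      split_ifs with h1 h2
      · exact LUa_lev hR ℓ hx m hm i j
      · rw [h2, Matrix.one_apply_eq, sub_self, norm_zero]; exact hp
      · rw [Matrix.one_apply_ne h2, sub_self, norm_zero]; exact hp

end Pool.Agent.Lib.MP_f399a8_nt.S
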