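import Pool.Agent.Lib.MP_f399a8_ntS.LUa

/-!
# Consequences of the triangular decomposition

PROOF of `lu_er`: apply `lu` with `ℓ = Fin.revPerm` (`Fin.rev_lt_rev`) and `R = Ord π`: the first
factor has support in `R i j ∧ ℓ j < ℓ i`, i.e. `π i < π j ∧ i < j` (`Er π`), the second in
`π i < π j ∧ j < i` (`Dr π`).
PROOF of `lu_fd`: `lu` with `R = Lo`, `ℓ = π`: first factor `j < i ∧ π j < π i` (`Fr π`), second
`j < i ∧ π i < π j` (`Dr π`).
PROOF of `bu_unique`, `fd_unique`: `tri_unique` with `ℓ = 1` (then `Bt p 1`/`Bp`; `e ∈ Bp`, `d ∈ U Lo`),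
respectively: `f * d = f' * d'` gives `f'⁻¹ * f = d' * d⁻¹`, the left side is in
`U p (fun i j => π j < π i)` and the right side in `Bt p π`, so both are `1` (or apply `tri_unique` to
the inverses `d⁻¹ * f⁻¹ = d'⁻¹ * f'⁻¹` with `ℓ = π`).
PROOF of `cell_unique`: `tri_unique` with `ℓ = 1` gives `b = b'`, `f * d = f' * d'`, then `fd_unique`.
PROOF of `kp_er`: if `b ∈ Bp ∩ Bt π`, `d ∈ U (Dr π)` and `b * d ∈ Kp` then `d ∈ Kp` and `b ∈ Kp`: let
`τ` be the diagonal matrix with the diagonal of `b` (determinant `∏ b i i = det b = 1`), it is the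
diagonal of `b * d` too (`b * d ∈ Bt π`, `(b * d) i i = b i i * d i i = b i i` because for `k ≠ i` one of
`b i k`, `d k i` vanishes: `π i ≤ π k` for the first, `π k ≤ π i` for the second), so
`‖b i i‖ ≤ 1` and `∏ ‖b i i‖ = 1`, so all `‖b i i‖ = 1` and `τ, τ⁻¹ ∈ Kp`.  Then `e := τ⁻¹ * b ∈ U (Er π)`
and `x := e * d = τ⁻¹ * (b * d) ∈ Kp ∩ U (Ord π)`.  By `lu_er` `x = e' * d'` with `e', d' ∈ Kp` and by
`bu_unique` `d = d'`, `e = e'`; `b = τ * e ∈ Kp`.
PROOF of `er_Kp`: `lu_er` and `bu_unique`.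
-/

namespace Pool.Agent.Lib.MP_f399a8_nt.S

open Matrix Filter Topology

variable {p : ℕ} [Fact p.Prime] {n : ℕ}

theorem lu_er (π : Equiv.Perm (Fin n)) {x : SLp p n} (hx : x ∈ U p (Ord π)) :
    ∃ e ∈ U p (Er π), ∃ d ∈ U p (Dr π), x = e * d ∧ (x ∈ Kp p n → e ∈ Kp p n ∧ d ∈ Kp p n) := by
  obtain ⟨y, hy, z, hz, h1, h2, _⟩ := lu (so_ord π) Fin.revPerm hx
  refine ⟨y, U_mono ?_ hy, z, U_mono ?_ hz, h1, h2⟩
  · rintro i j ⟨h3, h4⟩
    rw [Fin.revPerm_apply, Fin.revPerm_apply, Fin.rev_lt_rev] at h4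
    exact ⟨h4, h3⟩
  · rintro i j ⟨h3, h4⟩
    rw [Fin.revPerm_apply, Fin.revPerm_apply, Fin.rev_lt_rev] at h4
    exact ⟨h4, h3⟩

theorem lu_fd (π : Equiv.Perm (Fin n)) {x : SLp p n} (hx : x ∈ U p Lo) :
    ∃ f ∈ U p (Fr π), ∃ d ∈ U p (Dr π), x = f * d ∧ (x ∈ Kp p n → f ∈ Kp p n ∧ d ∈ Kp p n) ∧
      ∀ m : ℕ, x ∈ Km p n m → f ∈ Km p n m ∧ d ∈ Km p n m := by
  obtain ⟨y, hy, z, hz, h1, h2, h3⟩ := lu so_Lo π hx
  exact ⟨y, U_mono (fun i j h => h) hy, z, U_mono (fun i j h => h) hz, h1, h2, h3⟩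

theorem bu_unique {e e' d d' : SLp p n} (he : e ∈ Bp p n)
    (he' : e' ∈ Bp p n) (hd : d ∈ U p Lo) (hd' : d' ∈ U p Lo) (h : e * d = e' * d') :
    e = e' ∧ d = d' := by
  exact tri_unique (1 : Equiv.Perm (Fin n)) (fun i j hij => he i j hij) (fun i j hij => he' i j hij)
    (fun i j hij => hd i j hij) (fun i j hij => hd' i j hij) h

theorem fd_unique (π : Equiv.Perm (Fin n)) {f f' d d' : SLp p n} (hf : f ∈ U p (Fr π))
    (hf' : f' ∈ U p (Fr π)) (hd : d ∈ U p (Dr π)) (hd' : d' ∈ U p (Dr π))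
    (h : f * d = f' * d') : f = f' ∧ d = d' := by
  have h1 : d⁻¹ * f⁻¹ = d'⁻¹ * f'⁻¹ := by
    rw [← _root_.mul_inv_rev, ← _root_.mul_inv_rev, h]
  obtain ⟨h2, h3⟩ := tri_unique π (U_Bt (fun i j hij => hij.2) (U_inv (so_Dr π) hd))
    (U_Bt (fun i j hij => hij.2) (U_inv (so_Dr π) hd'))
    (U_mono (fun i j hij => hij.2) (U_inv (so_Fr π) hf))
    (U_mono (fun i j hij => hij.2) (U_inv (so_Fr π) hf')) h1
  exact ⟨inv_injective h3, inv_injective h2⟩

theorem cell_unique (π : Equiv.Perm (Fin n)) {b b' f f' d d' : SLp p n} (hb : b ∈ Bp p n)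
    (hb' : b' ∈ Bp p n) (hf : f ∈ U p (Fr π)) (hf' : f' ∈ U p (Fr π)) (hd : d ∈ U p (Dr π))
    (hd' : d' ∈ U p (Dr π)) (h : b * f * d = b' * f' * d') : b = b' ∧ f = f' ∧ d = d' := by
  rw [mul_assoc, mul_assoc] at h
  obtain ⟨h1, h2⟩ := bu_unique hb hb'
    (U_mul so_Lo (U_mono (fun i j hij => hij.1) hf) (U_mono (fun i j hij => hij.1) hd))
    (U_mul so_Lo (U_mono (fun i j hij => hij.1) hf') (U_mono (fun i j hij => hij.1) hd')) h
  exact ⟨h1, fd_unique π hf hf' hd hd' h2⟩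

theorem kp_er (π : Equiv.Perm (Fin n)) {b d : SLp p n} (hb : b ∈ Bp p n) (hb' : b ∈ Bt p π)
    (hd : d ∈ U p (Dr π)) (h : b * d ∈ Kp p n) : b ∈ Kp p n ∧ d ∈ Kp p n := by
  have h1 : ∀ i, ‖b.1 i i‖ ≤ 1 := by
    intro i
    have h2 : (b * d).1 i i = b.1 i i := by
      rw [Matrix.SpecialLinearGroup.coe_mul, Matrix.mul_apply, Finset.sum_eq_single i]
      · rw [U_diag (so_Dr π) hd, mul_one]
      · intro k _ hk
        rcases lt_or_ge (π k) (π i) with h3 | h3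
        · rw [hb' i k h3, zero_mul]
        · rw [U_zero hd hk (fun h4 => absurd h4.2 (not_lt.2 h3)), mul_zero]
      · intro hi
        exact absurd (Finset.mem_univ i) hi
    rw [← h2]
    exact h i i
  have hdet : ∏ i, b.1 i i = 1 := by
    rw [← Matrix.det_of_isUpperTriangular (fun i j hij => hb i j hij), b.2]
  have h2 : ∀ i, ‖b.1 i i‖ = 1 := by
    intro i
    refine le_antisymm (h1 i) ?_
    by_contra hcon
    rw [not_le] at hcon
    have h3 : ∏ j, ‖b.1 j j‖ < 1 := by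
      rw [← Finset.mul_prod_erase Finset.univ _ (Finset.mem_univ i)]
      have h4 : ∏ j ∈ Finset.univ.erase i, ‖b.1 j j‖ ≤ 1 :=
        Finset.prod_le_one (fun j _ => norm_nonneg _) (fun j _ => h1 j)
      have h5 : 0 ≤ ∏ j ∈ Finset.univ.erase i, ‖b.1 j j‖ :=
        Finset.prod_nonneg (fun j _ => norm_nonneg _)
      nlinarith [norm_nonneg (b.1 i i)]
    rw [← norm_prod, hdet, norm_one] at h3
    exact lt_irrefl _ h3
  have h3 : ∀ i, b.1 i i ≠ 0 := fun i h4 => by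
    have := h2 i
    rw [h4, norm_zero] at this
    exact zero_ne_one this
  let t : SLp p n := ⟨Matrix.diagonal (fun i => (b.1 i i)⁻¹), by
    rw [Matrix.det_diagonal, Finset.prod_inv_distrib, hdet, inv_one]⟩
  have ht : t ∈ Kp p n := by
    intro i j
    show ‖Matrix.diagonal (fun i => (b.1 i i)⁻¹) i j‖ ≤ 1
    rcases eq_or_ne i j with rfl | hij
    · rw [Matrix.diagonal_apply_eq, norm_inv, h2, inv_one]
    · rw [Matrix.diagonal_apply_ne _ hij, norm_zero]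
      exact zero_le_one
  have hte : ∀ i j, (t * b).1 i j = (b.1 i i)⁻¹ * b.1 i j := by
    intro i j
    show (Matrix.diagonal (fun i => (b.1 i i)⁻¹) * b.1) i j = _
    rw [Matrix.diagonal_mul]
  have he : t * b ∈ U p (Er π) := by
    intro i j hij
    rw [hte]
    rcases eq_or_ne i j with rfl | hne
    · rw [Matrix.one_apply_eq, inv_mul_cancel₀ (h3 i)]
    · rw [Matrix.one_apply_ne hne]
      have h4 : b.1 i j = 0 := by
        rcases lt_trichotomy i j with h5 | h5 | h5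
        · refine hb' i j (lt_of_le_of_ne (not_lt.1 fun h6 => hij ⟨h5, h6⟩) ?_)
          exact fun h6 => hne (π.injective h6).symm
        · exact absurd h5 hne
        · exact hb i j h5
      rw [h4, mul_zero]
  have hx : t * b * d ∈ U p (Ord π) :=
    U_mul (so_ord π) (U_mono (fun i j hij => hij.2) he) (U_mono (fun i j hij => hij.2) hd)
  have hxK : t * b * d ∈ Kp p n := by
    rw [mul_assoc]
    exact (Kp p n).mul_mem ht h
  obtain ⟨e', he', d', hd', h4, h5⟩ := lu_er π hx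
  obtain ⟨_, h7⟩ := bu_unique (U_Bp (fun i j hij => hij.1) he) (U_Bp (fun i j hij => hij.1) he')
    (U_mono (fun i j hij => hij.1) hd) (U_mono (fun i j hij => hij.1) hd') h4
  have h8 : d ∈ Kp p n := by
    rw [h7]
    exact (h5 hxK).2
  refine ⟨?_, h8⟩
  have h9 := (Kp p n).mul_mem h ((Kp p n).inv_mem h8)
  rwa [mul_inv_cancel_right] at h9

end Pool.Agent.Lib.MP_f399a8_nt.S
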