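import Pool.Agent.Lib.MP_f399a8_ntS.StarA
import Pool.Agent.Lib.MP_f399a8_ntS.ExA
import Pool.Agent.Lib.MP_f399a8_ntS.AcC

/-!
# Step 1 (distinct slopes): the box function for the sorted order

PROOF.  `π` sorts `v` and `v` is injective: `Dr π i j ↔ j < i ∧ v i < v j` (`Neg v`), `Fr π i j → Pos v i j`, so
`Good v π`.
(a) The set `Y = W` satisfies the hypotheses of `ac_full` for `R = Dr π`, `t1` (`dg_exists`, `ed_sum`):
`YC`: `hW.add, hW.smul, hW.trans`.  `hcontr`: for `f ∈ W`, `f (t1⁻¹ * x * t1) = cb χ t1⁻¹ * f (x * t1)` (`isPS_iff`,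
`t1⁻¹ ∈ Bp` by `dg_inv, dg_Bt`), so it is in `W` (`hW.smul`, `hW.trans`); similarly `hexp`.  `C0`: for `f ∈ W`,
`‖f x‖ ≤ A * Om v x` (`ps_bdd`, `ps_bound`), so `ε ≤ ‖f x‖` gives `ε / A ≤ Om v x` and `P1m_proper` applies
(`U (Dr π) ⊆ U (Neg v)`).  Nonzero element: `f ∈ W` with `f x ≠ 0`; `f (1 * x) ≠ 0`, so `g := f (· * x) ∈ W` has
`g 1 ≠ 0`, `1 ∈ U (Dr π)`.  `φ = indK`: continuous (`indK_cont`) and `C0` (bounded by `A = 1`: nonzero only in
`Kp`).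
So for every `ε > 0` there is `w ∈ W` with `‖indK x - w x‖ ≤ ε` on `U (Dr π)`.
(b) Let `G = Gf χ π indK`, `F = G - w`, in the principal series (`gf_ps`, `hW.isPS`; write a small lemma that
differences are in it).  For `d ∈ U (Dr π)`: `F d = indK d - w d` (`gf_eq` with `b = f = 1`), so `‖F d‖ ≤ ε`.
For `σ, w₀` with `IsMon σ w₀`, `v (σ i) = v i`: `σ = 1` (injectivity), so `w₀` is diagonal with entries `± 1`,
`w₀ ∈ Bp ∩ Kp`, `‖cb χ w₀‖ = 1` (`om_cb`, `om_kp`: `1 = Om v w₀ = ‖cb χ w₀‖ * Om v 1`), and for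
`u ∈ U (Ord π)`, `u = e * d` (`lu_er`), `e ∈ Bp` unipotent (`U_Bp`): `‖F (w₀ * u)‖ = ‖F d‖ ≤ ε`.
`star` (with `t`, `IsDg (e0 v) t`, `dg_exists`, `e0_sum`) gives `M` with
`‖F ((t^M)⁻¹ * k * t^M)‖ ≤ ε + ε` for all `k ∈ Kp`.  And `k ↦ w ((t^M)⁻¹ * k * t^M) = cb χ (t^M)⁻¹ * w (k * t^M)` is
in `W`.  So the hypothesis of `exact_box` holds (`e = e0 v`: for `Dr π i j`, `v i < v j`, so
`e0 v j < e0 v i` by `e0_lt`).
-/

namespace Pool.Agent.Lib.MP_f399a8_nt.S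

open Matrix Filter Topology

variable {p : ℕ} [Fact p.Prime] {n : ℕ} {C : Type*} [NormedField C] [NormedAlgebra ℚ_[p] C]
  [IsUltrametricDist C] [FiniteDimensional ℚ_[p] C]

omit [NormedAlgebra ℚ_[p] C] [IsUltrametricDist C] [FiniteDimensional ℚ_[p] C] in
private theorem St1_left {χ : Tor p n →* Cˣ} {W : Set (SLp p n → C)} (hW : IsClosedSubrep χ W)
    {b : SLp p n} (hb : b ∈ Bp p n) (g : SLp p n) {f : SLp p n → C} (hf : f ∈ W) :
    (fun x => f (b * x * g)) ∈ W := by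
  have h1 := (isPS_iff.1 (hW.isPS f hf)).2
  have h2 : (fun x => f (b * x * g)) = fun x => cb χ b * f (x * g) := by
    funext x
    rw [mul_assoc, h1 b hb]
  rw [h2]
  exact hW.smul _ _ (hW.trans g f hf)

omit [NormedAlgebra ℚ_[p] C] [IsUltrametricDist C] [FiniteDimensional ℚ_[p] C] in
private theorem St1_indK {x : SLp p n} (hx : x ∉ Kp p n) : indK p n C x = 0 := by
  simp [indK, hx]

omit [NormedAlgebra ℚ_[p] C] [IsUltrametricDist C] [FiniteDimensional ℚ_[p] C] in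
private theorem St1_val {χ : Tor p n →* Cˣ} {v : Fin n → ℝ} (hs : Slope χ v)
    (hv : Function.Injective v) {π : Equiv.Perm (Fin n)} {w : SLp p n → C} (hw : IsPS χ w)
    {F : SLp p n → C} (hF : IsPS χ F) (hFw : ∀ x, F x = Gf χ π (indK p n C) x - w x) {ε : ℝ}
    (hε : ∀ x ∈ U p (Dr π), ‖indK p n C x - w x‖ ≤ ε) {σ : Equiv.Perm (Fin n)} {w₀ : SLp p n}
    (hw₀ : IsMon σ w₀) (hσ : ∀ i, v (σ i) = v i) {u : SLp p n} (hu : u ∈ U p (Ord π)) :
    ‖F (w₀ * u)‖ ≤ ε := by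
  have hσi : ∀ i, σ i = i := fun i => hv (hσ i)
  have hb : w₀ ∈ Bp p n := by
    rw [mem_Bp]
    intro i j hij
    exact (hw₀ i j).2 (by rw [hσi]; exact hij.ne)
  have hk : w₀ ∈ Kp p n := mon_Kp hw₀
  have h1 := om_cb hs hb 1
  rw [mul_one, om_kp v hk, om_kp v (Kp p n).one_mem, mul_one] at h1
  have hF2 := (isPS_iff.1 hF).2
  rw [hF2 w₀ hb, norm_mul, ← h1, one_mul]
  obtain ⟨e, he, d, hd, rfl, -⟩ := lu_er π hu
  have heB : e ∈ Bp p n := U_Bp (fun i j h => h.1) he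
  rw [hF2 e heB, cb_unip χ (U_diag (so_Er π) he), one_mul, hFw]
  have h2 := gf_eq (χ := χ) (indK p n C) (Bp p n).one_mem (U_one (Fr π)) hd
  rw [one_mul, one_mul, cb_unip χ (fun i => Matrix.one_apply_eq i), one_mul] at h2
  rw [h2]
  exact hε d hd

theorem step1_inj {χ : Tor p n →* Cˣ} (hχ : Continuous χ) {v : Fin n → ℝ} (hs : Slope χ v)
    (hv : Function.Injective v) {π : Equiv.Perm (Fin n)} (hπ : IsSorted v π)
    {W : Set (SLp p n → C)} (hW : IsClosedSubrep χ W) (hne : ∃ f ∈ W, ∃ x, f x ≠ 0) :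
    Gf χ π (indK p n C) ∈ W := by
  have hDr : ∀ i j, Dr π i j → Neg v i j := by
    rintro i j ⟨h1, h2⟩
    refine ⟨h1, ?_⟩
    rcases (hπ i j).1 h2 with h3 | h3
    · exact h3
    · exact absurd (hv h3.1) h1.ne'
  have hg : Good v π := by
    rintro i j ⟨h1, h2⟩
    rcases (hπ j i).1 h2 with h3 | h3
    · exact h3
    · exact absurd h3.2 h1.not_gt
  obtain ⟨t1, ht1⟩ := dg_exists (p := p) (ed π) (ed_sum π)
  obtain ⟨t, ht⟩ := dg_exists (p := p) (e0 v) (e0_sum v)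
  refine exact_box hχ hs hg hW ht (fun i j h => (e0_lt (hDr i j h).2).le) fun ε hε => ?_
  obtain ⟨f, hf, x, hx⟩ := hne
  have hB : ∀ {e : Fin n → ℤ} {t : SLp p n}, IsDg e t → t ∈ Bp p n := fun h => dg_Bt h id
  obtain ⟨w, hw, hwε⟩ := ac_full (R := Dr π) (so_Dr π) (π := π) (fun i j h => h.2) ht1 (Y := W)
    ⟨hW.add, hW.smul, fun u _ _ f hf => hW.trans u f hf⟩
    (fun f hf => St1_left hW (hB (dg_inv ht1)) t1 hf) (fun f hf => St1_left hW (hB ht1) t1⁻¹ hf)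
    (fun f hf => (hW.isPS f hf).1)
    (by
      intro f hf ε' hε'
      obtain ⟨A, hA0, hA⟩ := ps_bdd (hW.isPS f hf).1
      obtain ⟨B, hB⟩ := P1m_proper p v (div_pos hε' hA0)
      refine ⟨B, fun x hx hxf => hB x (U_mono hDr hx) ?_⟩
      rw [div_le_iff₀' hA0]
      exact hxf.trans (ps_bound hs (hW.isPS f hf) hA x))
    (hW.trans x f hf) ⟨1, U_one _, by rwa [one_mul]⟩ (indK_cont p n C)
    (by
      intro ε' hε'
      refine ⟨1, fun x _ hxf => ?_⟩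
      by_cases hK : x ∈ Kp p n
      · exact hK
      · rw [St1_indK hK, norm_zero] at hxf
        exact absurd hxf (not_le.2 hε')) (half_pos hε)
  have hGps : IsPS χ (Gf χ π (indK p n C)) :=
    gf_ps hχ hs hg (indK_cont p n C) (fun d _ hd => St1_indK hd)
  have hwps := hW.isPS w hw
  have hFps : IsPS χ (fun x => Gf χ π (indK p n C) x - w x) := by
    rw [isPS_iff]
    refine ⟨hGps.1.sub hwps.1, fun b hb g => ?_⟩
    rw [(isPS_iff.1 hGps).2 b hb, (isPS_iff.1 hwps).2 b hb, mul_sub]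
  obtain ⟨M, hM⟩ := star hs hπ ht hFps (half_pos hε).le
    (fun σ w₀ hw₀ hσ u hu => St1_val hs hv hwps hFps (fun _ => rfl) hwε hw₀ hσ hu) (half_pos hε)
  refine ⟨M, fun k => w ((t ^ M)⁻¹ * k * t ^ M), St1_left hW (hB (dg_inv (dg_pow ht M))) _ hw, ?_⟩
  intro k hk
  have h1 := hM M le_rfl k hk
  rwa [add_halves] at h1

end Pool.Agent.Lib.MP_f399a8_nt.S
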