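import Pool.Agent.Lib.MP_f399a8_ntS.Z2A
import Pool.Agent.Lib.MP_f399a8_ntS.N5

/-!
# Swapping an adjacent pair which is a simple root

PROOF.  `ν := chr χ i j` is continuous (`chr_cont`, `v j < v i` by `Good`: `Fr π i j`), `‖ν p‖ = ‖p‖ ^ (v i - v j) < 1`
(`chr_norm`), and not a power: if `ν x = x ^ l` for all `x` then `χ (cort j i x) = x ^ (-l)` (`chr_apply`),
contradicting `hη`.  Let `G' = Gf χ π' indK`, `π' = sw π i j`, in the principal series (`gf_ps`, `good_sw`,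
`indK_cont`).  By `hW.closed` it is enough to find for `ε > 0` an element of `W` within `ε` on `Kp`.  `lin_dense` gives
`a_q, b_q, λ_q` with `‖∑ λ_q ν (c a_q + d b_q) - [‖c‖ ≤ ‖d‖] ν d‖ ≤ ε` for primitive `(c, d)`.  For each `q` choose
`l_q ∈ SL_2` with second column `(a_q, b_q)`: `l_q 0 1 = a_q`, `l_q 1 1 = b_q` (possible since it is not zero:
if `b_q ≠ 0` take `!![b_q⁻¹, a_q; 0, b_q]`, else `!![0, a_q; -a_q⁻¹, 0]`).  Then
`(l' * l_q) 1 1 = l' 1 0 * a_q + l' 1 1 * b_q`.  Let `F_q` be as in `z2_one` and `F = ∑ λ_q F_q ∈ W` (`sub_sum_mem`,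
`hW.smul`).  Let `x ∈ Kp`; show `‖G' x - F x‖ ≤ ε`.  If both are `0` fine.  Otherwise by `z2_one` or `gi_cover2`
`x = b * f * ι l' * d`, and by `gi_norm` we may take `l' = k ∈ SL_2(ℤ_p)`.  By `gi2` and `z2_one`
`G' x - F x = cb χ b * ([‖k 1 0‖ ≤ ‖k 1 1‖] ν (k 1 1) - ∑ λ_q ν (k 1 0 * a_q + k 1 1 * b_q)) * indK d`.  The vector
`(k 1 0, k 1 1)` is primitive (integral with determinant one).  If `d ∉ Kp` the value is `0`.  If `d ∈ Kp`:
`1 = Om v x = ‖cb χ b‖ * Om v (f * (ι k * d)) = ‖cb χ b‖ * Om v f` (`om_kp`, `om_cb`, `om_right`, `iota_Kp`) and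
`1 ≤ Om v f` (`good_ge` for `π'`), so `‖cb χ b‖ ≤ 1` and the norm is `≤ ε`.
-/

namespace Pool.Agent.Lib.MP_f399a8_nt.S

open Matrix Filter Topology

private theorem Z2B_col (p : ℕ) [Fact p.Prime] (a b : ℚ_[p]) (h : a ≠ 0 ∨ b ≠ 0) :
    ∃ l : SLp p 2, l.1 0 1 = a ∧ l.1 1 1 = b := by
  by_cases hb : b = 0
  · have ha : a ≠ 0 := by
      rcases h with h | h
      · exact h
      · exact absurd hb h
    refine ⟨⟨!![0, a; -a⁻¹, 0], ?_⟩, ?_, ?_⟩
    · rw [Matrix.det_fin_two]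
      simp [ha]
    · simp
    · simp [hb]
  · exact ⟨up2 b hb a, by simp [up2], by simp [up2]⟩

private theorem Z2B_prim {p : ℕ} [Fact p.Prime] {k : SLp p 2} (hk : k ∈ Kp p 2) :
    Prim (k.1 1 0) (k.1 1 1) := by
  unfold Prim
  refine le_antisymm (max_le (mem_Kp.1 hk _ _) (mem_Kp.1 hk _ _)) ?_
  have hdet : k.1 0 0 * k.1 1 1 - k.1 0 1 * k.1 1 0 = 1 := by
    rw [← Matrix.det_fin_two]
    exact k.2
  have h1 : (1 : ℝ) = ‖k.1 0 0 * k.1 1 1 - k.1 0 1 * k.1 1 0‖ := by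
    rw [hdet, norm_one]
  rw [h1, sub_eq_add_neg]
  refine (IsUltrametricDist.norm_add_le_max _ _).trans (max_le ?_ ?_)
  · rw [norm_mul]
    refine le_trans ?_ (le_max_right _ _)
    exact mul_le_of_le_one_left (norm_nonneg _) (mem_Kp.1 hk _ _)
  · rw [norm_neg, norm_mul]
    refine le_trans ?_ (le_max_left _ _)
    exact mul_le_of_le_one_left (norm_nonneg _) (mem_Kp.1 hk _ _)

private theorem Z2B_cb {p : ℕ} [Fact p.Prime] {n : ℕ} {C : Type*} [NormedField C]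
    {χ : Tor p n →* Cˣ} {v : Fin n → ℝ} (hs : Slope χ v)
    {π : Equiv.Perm (Fin n)} (hg : Good v π) {b f k : SLp p n} (hb : b ∈ Bp p n)
    (hf : f ∈ U p (Fr π)) (hk : k ∈ Kp p n) (hx : b * f * k ∈ Kp p n) : ‖cb χ b‖ ≤ 1 := by
  have h1 := om_kp v hx
  rw [mul_assoc, om_cb hs hb, om_right v hk] at h1
  have h2 := good_ge hg hf
  have h3 : 0 ≤ ‖cb χ b‖ := norm_nonneg _
  nlinarith

variable {p : ℕ} [Fact p.Prime] {n : ℕ} {C : Type*} [NormedField C] [NormedAlgebra ℚ_[p] C]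
  [IsUltrametricDist C] [FiniteDimensional ℚ_[p] C]

theorem z2_lemma {χ : Tor p n →* Cˣ} (hχ : Continuous χ) {v : Fin n → ℝ} (hs : Slope χ v)
    {π : Equiv.Perm (Fin n)} (hg : Good v π) {i j : Fin n} (h : Adj π i j)
    (h1 : (i : ℕ) = (j : ℕ) + 1)
    (hη : ¬ ∃ l : ℕ, ∀ x : ℚ_[p]ˣ,
      (χ (cort j i x) : C) = (algebraMap ℚ_[p] C (x : ℚ_[p])) ^ (-(l : ℤ)))
    {W : Set (SLp p n → C)} (hW : IsClosedSubrep χ W)
    (hG : Gf χ π (indK p n C) ∈ W) : Gf χ (sw π i j) (indK p n C) ∈ W := by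
  have hπ : π j < π i := by
    rw [Fin.lt_def]
    have := h.adj
    omega
  have hv : v j < v i := hg i j ⟨h.lt, hπ⟩
  have hν : Continuous (chr χ i j) := chr_cont hχ hs h.lt hv
  have hp0 : (p : ℚ_[p]) ≠ 0 := by exact_mod_cast (Fact.out : p.Prime).ne_zero
  have hν1 : ‖chr χ i j (p : ℚ_[p])‖ < 1 := by
    rw [chr_norm hs h.lt hp0]
    exact Real.rpow_lt_one (norm_nonneg _) Padic.norm_p_lt_one (by linarith)
  have hk : ¬ ∃ l : ℕ, ∀ x : ℚ_[p], chr χ i j x = (algebraMap ℚ_[p] C x) ^ l := by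
    rintro ⟨l, hl⟩
    refine hη ⟨l, fun x => ?_⟩
    have e1 := hl x
    rw [chr_apply, Units.val_inv_eq_inv_val] at e1
    rw [_root_.zpow_neg, zpow_natCast, ← e1, inv_inv]
  refine hW.closed _ (gf_ps hχ hs (good_sw h hg) (indK_cont p n C) ?_) ?_
  · intro d _ hdK
    unfold indK
    rw [if_neg hdK]
  intro ε hε
  obtain ⟨f, ⟨m, a, b, lam, hab, hf⟩, hfε⟩ := lin_dense hν hν1 hk hε
  choose l hl1 hl2 using fun q => Z2B_col p (a q) (b q) (hab q)
  choose F hFW hF1 hF2 using fun q => z2_one h h1 hW hG (l q)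
  refine ⟨fun x => ∑ q, lam q * F q x,
    sub_sum_mem hW Finset.univ (fun q x => lam q * F q x) (fun q _ => hW.smul _ _ (hFW q)), ?_⟩
  intro x hx
  have hxK : x ∈ Kp p n := hx
  show ‖Gf χ (sw π i j) (indK p n C) x - ∑ q, lam q * F q x‖ ≤ ε
  by_cases h0 : Gf χ (sw π i j) (indK p n C) x = 0 ∧ ∀ q, F q x = 0
  · rw [h0.1, Finset.sum_eq_zero fun q _ => by rw [h0.2 q, mul_zero], sub_zero, norm_zero]
    exact hε.le
  have hcov : ∃ b ∈ Bp p n, ∃ f ∈ U p (Fr (sw π i j)), ∃ l : SLp p 2, ∃ d ∈ U p (Dr π),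
      x = b * f * iota i j h.lt.ne l * d := by
    by_cases h2 : Gf χ (sw π i j) (indK p n C) x = 0
    · have h3 : ∃ q, F q x ≠ 0 := by
        by_contra hcon
        push Not at hcon
        exact h0 ⟨h2, hcon⟩
      obtain ⟨q, hq⟩ := h3
      exact hF2 q x hq
    · exact gi_cover2 h h1 h2
  obtain ⟨b0, hb0, f0, hf0, l0, d, hd, hxe⟩ := hcov
  obtain ⟨b', hb', f', hf', k, hkK, hbe⟩ := gi_norm h h1 hb0 hf0 l0
  rw [hbe] at hxe
  have e1 := gi2 (χ := χ) (C := C) h h1 hb' hf' k hd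
  rw [← hxe] at e1
  have e2 : ∀ q, F q x = cb χ b' * chr χ i j (k.1 1 0 * a q + k.1 1 1 * b q) * indK p n C d := by
    intro q
    have e3 : ((k * l q).1 1 1 : ℚ_[p]) = k.1 1 0 * a q + k.1 1 1 * b q := by
      show (k.1 * (l q).1) 1 1 = _
      rw [Matrix.mul_apply, Fin.sum_univ_two, hl1, hl2]
    rw [hxe, hF1 q b' hb' f' hf' k d hd, e3]
  have e4 : ∑ q, lam q * F q x = cb χ b' * f (k.1 1 0) (k.1 1 1) * indK p n C d := by
    rw [hf, Finset.mul_sum, Finset.sum_mul]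
    refine Finset.sum_congr rfl fun q _ => ?_
    rw [e2 q]
    ring
  rw [e4, e1]
  by_cases hdK : d ∈ Kp p n
  · have hind : indK p n C d = 1 := by
      unfold indK
      rw [if_pos hdK]
    rw [hind, mul_one, mul_one, ← mul_sub, norm_mul]
    have hkd : iota i j h.lt.ne k * d ∈ Kp p n := mul_mem (iota_Kp h.lt.ne hkK) hdK
    have hcb : ‖cb χ b'‖ ≤ 1 := by
      refine Z2B_cb hs (good_sw h hg) hb' hf' hkd ?_
      rw [← mul_assoc, ← hxe]
      exact hxK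
    have h5 := hfε _ _ (Z2B_prim hkK)
    rw [norm_sub_rev] at h5
    calc _ ≤ 1 * ε := mul_le_mul hcb h5 (norm_nonneg _) zero_le_one
      _ = ε := one_mul ε
  · have hind : indK p n C d = 0 := by
      unfold indK
      rw [if_neg hdK]
    rw [hind, mul_zero, mul_zero, sub_zero, norm_zero]
    exact hε.le

end Pool.Agent.Lib.MP_f399a8_nt.S
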