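import Pool.Agent.Lib.MP_f399a8_ntS.YlB
import Pool.Agent.Lib.MP_f399a8_ntS.Z2B
import Pool.Agent.Lib.MP_f399a8_ntS.FiA
import Pool.Agent.Lib.MP_f399a8_ntS.St1

/-!
# The main theorem for distinct slopes

PROOF of `swaps`.  Strong induction on the number of pairs `(i, j)` with `Fr π i j`.  If there is none:
`π i < π j ↔ j < i` for all `i j` (`j < i` and not `π j < π i` gives `π i < π j` by injectivity; if `π i < π j` then not
`i < j`, since `i < j` with `π i < π j` is `Fr π j i`), so `final_rev`.  Otherwise there is a pair `(i, j)` with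
`Adj π i j`: choose `(a, b)` with `Fr π a b` and `π a - π b` minimal; if `π a > π b + 1`, let `c` be the index with
`π c = π b + 1`; if `b < c` then `Fr π c b` is a pair with difference `1`; otherwise `c < b < a` and `π c < π a`, so
`Fr π a c` has smaller difference.  Contradiction.  `sw π i j` has one pair less (`fr_sw`), is `Good` (`good_sw`), and
`Gf χ (sw π i j) indK ∈ W` by `y_lemma` if there is `q` with `j < q < i`, and by `z2_lemma` if `i = j + 1`.
PROOF of `main_inj`: `slope_exists`, `sorted_exists`, `Good v π` for the sorted `π` (`Fr π i j`: `π j < π i`, `j < i`, so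
`v j < v i` or (`v j = v i` and `i < j`)), `step1_inj`, `swaps`.
-/

namespace Pool.Agent.Lib.MP_f399a8_nt.S

open Matrix Filter Topology

variable {p : ℕ} [Fact p.Prime] {n : ℕ} {C : Type*} [NormedField C] [NormedAlgebra ℚ_[p] C]
  [IsUltrametricDist C] [FiniteDimensional ℚ_[p] C]

/-- no simple coroot gives an algebraic character of non-positive weight -/
def NoLin (χ : Tor p n →* Cˣ) : Prop := ∀ i j : Fin n, (i : ℕ) = (j : ℕ) + 1 →
  ¬ ∃ l : ℕ, ∀ x : ℚ_[p]ˣ, (χ (cort j i x) : C) = (algebraMap ℚ_[p] C (x : ℚ_[p])) ^ (-(l : ℤ))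

private theorem MnA_adj {π : Equiv.Perm (Fin n)} : ∀ d : ℕ, ∀ a b : Fin n, b < a →
    (π a : ℕ) = (π b : ℕ) + d + 1 → ∃ i j : Fin n, Adj π i j := by
  intro d
  induction d with
  | zero =>
    intro a b hab h
    exact ⟨a, b, ⟨hab, by omega⟩⟩
  | succ d ih =>
    intro a b hab h
    have hlt : (π b : ℕ) + 1 < n := by
      have := (π a).isLt
      omega
    obtain ⟨c, hc⟩ := π.surjective ⟨(π b : ℕ) + 1, hlt⟩
    have hc' : (π c : ℕ) = (π b : ℕ) + 1 := by rw [hc]
    rcases lt_trichotomy b c with h1 | h1 | h1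
    · exact ⟨c, b, ⟨h1, hc'⟩⟩
    · exfalso
      rw [← h1] at hc'
      omega
    · exact ih a c (lt_trans h1 hab) (by omega)

theorem swaps {χ : Tor p n →* Cˣ} (hχ : Continuous χ) {v : Fin n → ℝ} (hs : Slope χ v)
    (hη : NoLin χ) {W : Set (SLp p n → C)} (hW : IsClosedSubrep χ W) {π : Equiv.Perm (Fin n)}
    (hg : Good v π) (hG : Gf χ π (indK p n C) ∈ W) {f : SLp p n → C} (hf : IsPS χ f) :
    f ∈ W := by
  have key : ∀ m : ℕ, ∀ π : Equiv.Perm (Fin n),
      Set.ncard {q : Fin n × Fin n | Fr π q.1 q.2} = m → Good v π →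
      Gf χ π (indK p n C) ∈ W → f ∈ W := by
    intro m
    induction m using Nat.strong_induction_on with
    | _ m ih =>
      intro π hm hg hG
      by_cases hne : ∃ a b, Fr π a b
      · obtain ⟨a, b, hab⟩ := hne
        have hab2 : (π b : ℕ) < (π a : ℕ) := hab.2
        obtain ⟨i, j, h⟩ := MnA_adj (π := π) ((π a : ℕ) - (π b : ℕ) - 1) a b hab.1 (by omega)
        have hG' : Gf χ (sw π i j) (indK p n C) ∈ W := by
          by_cases h1 : (i : ℕ) = (j : ℕ) + 1
          · exact z2_lemma hχ hs hg h h1 (hη i j h1) hW hG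
          · have hlt : (j : ℕ) < (i : ℕ) := h.lt
            have hi : (i : ℕ) < n := i.isLt
            exact y_lemma hχ hs hg h (q := ⟨(j : ℕ) + 1, by omega⟩)
              (show (j : ℕ) < (j : ℕ) + 1 by omega) (show (j : ℕ) + 1 < (i : ℕ) by omega) hW hG
        refine ih (Set.ncard {q : Fin n × Fin n | Fr (sw π i j) q.1 q.2}) ?_ (sw π i j) rfl
          (good_sw h hg) hG'
        rw [← hm]
        refine Set.ncard_lt_ncard ⟨fun q hq => ((fr_sw h _ _).mp hq).1, fun hsub => ?_⟩
          (Set.toFinite _)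
        have h3 : Fr π i j := by
          refine ⟨h.lt, ?_⟩
          have h4 := h.adj
          show (π j : ℕ) < (π i : ℕ)
          omega
        have h2 : Fr (sw π i j) i j := hsub (show (i, j) ∈ {q : Fin n × Fin n | Fr π q.1 q.2} from h3)
        exact ((fr_sw h _ _).mp h2).2 ⟨rfl, rfl⟩
      · refine final_rev hs (π := π) (fun i j => ⟨fun hij => ?_, fun hij => ?_⟩) hW hG hf
        · rcases lt_trichotomy j i with h1 | h1 | h1
          · exact h1
          · exfalso
            rw [h1] at hij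
            exact lt_irrefl _ hij
          · exact absurd ⟨j, i, h1, hij⟩ hne
        · rcases lt_trichotomy (π i) (π j) with h1 | h1 | h1
          · exact h1
          · exfalso
            rw [π.injective h1] at hij
            exact lt_irrefl _ hij
          · exact absurd ⟨i, j, hij, h1⟩ hne
  exact key _ π rfl hg hG

theorem good_sorted {v : Fin n → ℝ} {π : Equiv.Perm (Fin n)} (hπ : IsSorted v π) : Good v π := by
  intro i j hij
  rcases (hπ j i).mp hij.2 with h | h
  · exact h
  · exact absurd (lt_trans h.2 hij.1) (lt_irrefl _)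

theorem main_inj {χ : Tor p n →* Cˣ} (hχ : Continuous χ) {v : Fin n → ℝ} (hs : Slope χ v)
    (hv : Function.Injective v) (hη : NoLin χ) {W : Set (SLp p n → C)}
    (hW : IsClosedSubrep χ W) (hne : ∃ f ∈ W, ∃ x, f x ≠ 0) {f : SLp p n → C}
    (hf : IsPS χ f) : f ∈ W := by
  obtain ⟨π, hπ⟩ := sorted_exists v
  exact swaps hχ hs hη hW (good_sorted hπ) (step1_inj hχ hs hv hπ hW hne) hf

end Pool.Agent.Lib.MP_f399a8_nt.S
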