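import Pool.Agent.Lib.MP_f399a8_ntS.SlDef

/-!
# `1 + p ^ m` is a topological generator of `1 + p ^ m ℤ_p` (`m ≥ 2`)

PROOF.  Step 1: for `s : ℕ`: `‖(1 + p^m) ^ (p^s) - (1 + p^(m+s))‖ ≤ p^(-(m+s+1))`.  Induction on `s`:
`(1 + p^m)^(p^s) = 1 + p^(m+s) * (1 + p θ)` with `‖θ‖ ≤ 1`; the `p`-th power of `1 + X`, `‖X‖ = p^(-(m+s))`, is
`1 + p X + ∑_{2 ≤ k ≤ p} choose p k * X^k`, and `‖X^k‖ ≤ p^(-2(m+s)) ≤ p^(-(m+s+2))` as `m + s ≥ 2`.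
Step 2: induction on `K`: there is `z : ℕ` with `‖(1 + p^m)^z - (1 + u)‖ ≤ p^(-K)`.  `K ≤ m`: `z = 0`.  From `K ≥ m` to
`K + 1`: `(1 + u) - (1+p^m)^z = p^K * θ`, `‖θ‖ ≤ 1`; choose `a : ℕ` with `‖θ - a‖ ≤ p^(-1)` (density of `ℕ` in `ℤ_p`,
`PadicInt.exists_mem_range` or `PadicInt.denseRange_natCast`), `z' = z + a * p^(K-m)`:
`(1+p^m)^(a p^(K-m)) = (1 + p^K (1 + p θ'))^a ≡ 1 + a p^K` modulo `p^(K+1)` and `(1+p^m)^z ≡ 1` modulo `p`, so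
`(1+p^m)^z' ≡ (1+p^m)^z + a p^K` modulo `p^(K+1)`.
(One can work in `ℤ_[p]` with divisibility, or with norms in `ℚ_[p]`.)
-/

namespace Pool.Agent.Lib.MP_f399a8_nt.S

variable {p : ℕ} [Fact p.Prime]

theorem N1_sq (X : ℤ) (n : ℕ) : ∃ c : ℤ, (1 + X) ^ n = 1 + n * X + X ^ 2 * c := by
  induction n with
  | zero => exact ⟨0, by simp⟩
  | succ n ih =>
    obtain ⟨c, hc⟩ := ih
    refine ⟨(n : ℤ) + c + X * c, ?_⟩
    rw [pow_succ, hc]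
    push_cast
    ring

omit [Fact p.Prime] in
theorem N1_pow {m : ℕ} (hm : 2 ≤ m) (s : ℕ) :
    ∃ θ : ℤ, (1 + (p : ℤ) ^ m) ^ (p ^ s) = 1 + (p : ℤ) ^ (m + s) * (1 + p * θ) := by
  induction s with
  | zero => exact ⟨0, by simp⟩
  | succ s ih =>
    obtain ⟨θ, hθ⟩ := ih
    obtain ⟨c, hc⟩ := N1_sq ((p : ℤ) ^ (m + s) * (1 + p * θ)) p
    obtain ⟨r, rfl⟩ := Nat.exists_eq_add_of_le hm
    refine ⟨θ + (p : ℤ) ^ (r + s) * (1 + p * θ) ^ 2 * c, ?_⟩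
    rw [pow_succ p s, pow_mul, hθ, hc]
    ring

theorem N1_nat_dense (x : ℤ_[p]) : ∃ (a : ℕ) (y : ℤ_[p]), x = a + p * y := by
  obtain ⟨a, -, ha⟩ := PadicInt.exists_mem_range x
  have h : x - (a : ℤ_[p]) ∈ Ideal.span {(p : ℤ_[p])} := by
    rw [← PadicInt.maximalIdeal_eq_span_p]
    exact ha
  obtain ⟨y, hy⟩ := Ideal.mem_span_singleton'.mp h
  exact ⟨a, y, by rw [mul_comm, hy]; ring⟩

theorem N1_dense {m : ℕ} (hm : 2 ≤ m) (u : ℤ_[p]) (hu : (p : ℤ_[p]) ^ m ∣ u) (K : ℕ) :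
    ∃ z : ℕ, (p : ℤ_[p]) ^ K ∣ (1 + (p : ℤ_[p]) ^ m) ^ z - (1 + u) := by
  rcases le_total K m with hK | hK
  · refine ⟨0, ?_⟩
    have h1 : (p : ℤ_[p]) ^ K ∣ u := (pow_dvd_pow _ hK).trans hu
    have h2 : (1 + (p : ℤ_[p]) ^ m) ^ 0 - (1 + u) = -u := by ring
    rw [h2]
    exact (dvd_neg).mpr h1
  · obtain ⟨k, rfl⟩ := Nat.exists_eq_add_of_le hK
    clear hK
    induction k with
    | zero =>
      refine ⟨0, ?_⟩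
      have h2 : (1 + (p : ℤ_[p]) ^ m) ^ 0 - (1 + u) = -u := by ring
      rw [h2]
      exact (dvd_neg).mpr hu
    | succ k ih =>
      obtain ⟨z, t, ht⟩ := ih
      obtain ⟨a, y, hy⟩ := N1_nat_dense (-t)
      obtain ⟨θ, hθ⟩ := N1_pow (p := p) hm k
      have hθ' : (1 + (p : ℤ_[p]) ^ m) ^ (p ^ k) = 1 + (p : ℤ_[p]) ^ (m + k) * (1 + p * (θ : ℤ_[p])) := by
        exact_mod_cast congrArg (fun z : ℤ => (z : ℤ_[p])) hθ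
      obtain ⟨c, hc⟩ := N1_sq ((p : ℤ) ^ (m + k) * (1 + p * θ)) a
      have hc' : (1 + (p : ℤ_[p]) ^ (m + k) * (1 + p * (θ : ℤ_[p]))) ^ a = 1 + a * ((p : ℤ_[p]) ^ (m + k) * (1 + p * (θ : ℤ_[p]))) +
          ((p : ℤ_[p]) ^ (m + k) * (1 + p * (θ : ℤ_[p]))) ^ 2 * c := by
        exact_mod_cast congrArg (fun z : ℤ => (z : ℤ_[p])) hc
      obtain ⟨r, rfl⟩ := Nat.exists_eq_add_of_le hm
      have h1 : (1 + (p : ℤ_[p]) ^ (2 + r)) ^ z = 1 + u + (p : ℤ_[p]) ^ (2 + r + k) * t := by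
        rw [← ht]; ring
      obtain ⟨w, hw⟩ := hu
      have ht' : t = - (a + p * y) := by rw [← hy]; ring
      have e : (2 + r + (k + 1)) = 2 + r + k + 1 := by ring
      refine ⟨z + p ^ k * a, ?_⟩
      rw [pow_add (1 + (p : ℤ_[p]) ^ (2 + r)), pow_mul (1 + (p : ℤ_[p]) ^ (2 + r)), hθ', hc', h1, hw]
      refine ⟨-y + a * θ + (p : ℤ_[p]) ^ (1 + r + k) * (1 + p * θ) ^ 2 * c +
        ((p : ℤ_[p]) ^ (1 + r) * w + (p : ℤ_[p]) ^ (1 + r + k) * t) *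
          (a * (1 + p * θ) + (p : ℤ_[p]) ^ (2 + r + k) * (1 + p * θ) ^ 2 * c), ?_⟩
      rw [ht']
      ring

theorem N1_norm (x : ℤ_[p]) (K : ℕ) : ‖(x : ℚ_[p])‖ ≤ (p : ℝ) ^ (-(K : ℤ)) ↔ (p : ℤ_[p]) ^ K ∣ x := by
  rw [← Ideal.mem_span_singleton, ← PadicInt.norm_le_pow_iff_mem_span_pow]
  rfl

theorem gen_dense {m : ℕ} (hm : 2 ≤ m) {u : ℚ_[p]} (hu : ‖u‖ ≤ (p : ℝ) ^ (-(m : ℤ))) (K : ℕ) :
    ∃ z : ℕ, ‖(1 + (p : ℚ_[p]) ^ m) ^ z - (1 + u)‖ ≤ (p : ℝ) ^ (-(K : ℤ)) := by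
  have hu1 : ‖u‖ ≤ 1 := by
    refine hu.trans (zpow_le_one_of_nonpos₀ ?_ (by simp))
    exact_mod_cast (Fact.out : p.Prime).one_lt.le
  obtain ⟨v, rfl⟩ : ∃ v : ℤ_[p], (v : ℚ_[p]) = u := ⟨⟨u, hu1⟩, rfl⟩
  obtain ⟨z, hz⟩ := N1_dense hm v ((N1_norm v m).mp hu) K
  refine ⟨z, ?_⟩
  have h := (N1_norm _ K).mpr hz
  push_cast at h
  exact h

/-- the cosets of `1 + p ^ (m + e) ℤ_p` in `1 + p ^ m ℤ_p` -/
theorem gen_coset {m : ℕ} (hm : 2 ≤ m) (e : ℕ) {u : ℚ_[p]} (hu : ‖u‖ ≤ (p : ℝ) ^ (-(m : ℤ))) :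
    ∃! k : ℕ, k < p ^ e ∧
      ‖(1 + (p : ℚ_[p]) ^ m) ^ k - (1 + u)‖ ≤ (p : ℝ) ^ (-((m + e : ℕ) : ℤ)) := by
  have hp : 0 < p := (Fact.out : p.Prime).pos
  have hu1 : ‖u‖ ≤ 1 := by
    refine hu.trans (zpow_le_one_of_nonpos₀ ?_ (by simp))
    exact_mod_cast (Fact.out : p.Prime).one_lt.le
  obtain ⟨v, rfl⟩ : ∃ v : ℤ_[p], (v : ℚ_[p]) = u := ⟨⟨u, hu1⟩, rfl⟩
  have key : ∀ k : ℕ, ‖(1 + (p : ℚ_[p]) ^ m) ^ k - (1 + (v : ℚ_[p]))‖ ≤ (p : ℝ) ^ (-((m + e : ℕ) : ℤ)) ↔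
      (p : ℤ_[p]) ^ (m + e) ∣ (1 + (p : ℤ_[p]) ^ m) ^ k - (1 + v) := by
    intro k
    rw [← N1_norm]
    push_cast
    rfl
  obtain ⟨z, hz⟩ := N1_dense hm v ((N1_norm v m).mp hu) (m + e)
  have hex : ‖(1 + (p : ℚ_[p]) ^ m) ^ (z % p ^ e) - (1 + (v : ℚ_[p]))‖ ≤ (p : ℝ) ^ (-((m + e : ℕ) : ℤ)) := by
    rw [key]
    obtain ⟨θ, hθ⟩ := N1_pow (p := p) hm e
    have hθ' : (1 + (p : ℤ_[p]) ^ m) ^ (p ^ e) = 1 + (p : ℤ_[p]) ^ (m + e) * (1 + p * (θ : ℤ_[p])) := by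
      exact_mod_cast congrArg (fun z : ℤ => (z : ℤ_[p])) hθ
    obtain ⟨b, hb⟩ : ∃ b, z / p ^ e = b := ⟨_, rfl⟩
    obtain ⟨c, hc⟩ := N1_sq ((p : ℤ) ^ (m + e) * (1 + p * θ)) b
    have hc' : (1 + (p : ℤ_[p]) ^ (m + e) * (1 + p * (θ : ℤ_[p]))) ^ b =
        1 + (b : ℤ_[p]) * ((p : ℤ_[p]) ^ (m + e) * (1 + p * (θ : ℤ_[p]))) +
        ((p : ℤ_[p]) ^ (m + e) * (1 + p * (θ : ℤ_[p]))) ^ 2 * c := by
      exact_mod_cast congrArg (fun z : ℤ => (z : ℤ_[p])) hc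
    have h1 : (1 + (p : ℤ_[p]) ^ m) ^ z = (1 + (p : ℤ_[p]) ^ m) ^ (z % p ^ e) *
        (1 + (b : ℤ_[p]) * ((p : ℤ_[p]) ^ (m + e) * (1 + p * (θ : ℤ_[p]))) +
        ((p : ℤ_[p]) ^ (m + e) * (1 + p * (θ : ℤ_[p]))) ^ 2 * c) := by
      rw [← hc', ← hθ', ← pow_mul, ← pow_add, ← hb, Nat.mod_add_div]
    have h2 : (1 + (p : ℤ_[p]) ^ m) ^ (z % p ^ e) - (1 + v) =
        ((1 + (p : ℤ_[p]) ^ m) ^ z - (1 + v)) - (p : ℤ_[p]) ^ (m + e) *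
        ((1 + (p : ℤ_[p]) ^ m) ^ (z % p ^ e) * ((b : ℤ_[p]) * (1 + p * (θ : ℤ_[p])) +
        (p : ℤ_[p]) ^ (m + e) * (1 + p * (θ : ℤ_[p])) ^ 2 * c)) := by
      rw [h1]; ring
    rw [h2]
    exact dvd_sub hz (dvd_mul_right _ _)
  refine ⟨z % p ^ e, ⟨Nat.mod_lt _ (by positivity), hex⟩, ?_⟩
  · have main : ∀ k l : ℕ, k < l → l < p ^ e →
        (p : ℤ_[p]) ^ (m + e) ∣ (1 + (p : ℤ_[p]) ^ m) ^ k - (1 + v) →
        (p : ℤ_[p]) ^ (m + e) ∣ (1 + (p : ℤ_[p]) ^ m) ^ l - (1 + v) → False := by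
      intro k l hkl hl h1 h2
      have h3 : (p : ℤ_[p]) ^ (m + e) ∣ (((1 + (p : ℤ) ^ m) ^ l - (1 + (p : ℤ) ^ m) ^ k : ℤ) : ℤ_[p]) := by
        have h := dvd_sub h2 h1
        push_cast
        have e1 : (1 + (p : ℤ_[p]) ^ m) ^ l - (1 + v) - ((1 + (p : ℤ_[p]) ^ m) ^ k - (1 + v)) =
          (1 + (p : ℤ_[p]) ^ m) ^ l - (1 + (p : ℤ_[p]) ^ m) ^ k := by ring
        rwa [e1] at h
      rw [PadicInt.pow_p_dvd_int_iff] at h3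
      obtain ⟨n, rfl⟩ := Nat.exists_eq_add_of_lt hkl
      have hpI : Prime (p : ℤ) := Nat.prime_iff_prime_int.mp Fact.out
      have h4 : (p : ℤ) ^ (m + e) ∣ (1 + (p : ℤ) ^ m) ^ (n + 1) - 1 := by
        have h5 : (1 + (p : ℤ) ^ m) ^ (k + n + 1) - (1 + (p : ℤ) ^ m) ^ k =
          (1 + (p : ℤ) ^ m) ^ k * ((1 + (p : ℤ) ^ m) ^ (n + 1) - 1) := by ring
        rw [h5] at h3
        have h6 : IsCoprime ((p : ℤ) ^ (m + e)) ((1 + (p : ℤ) ^ m) ^ k) := by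
          refine IsCoprime.pow ?_
          obtain ⟨r, rfl⟩ := Nat.exists_eq_add_of_le hm
          exact ⟨-(p : ℤ) ^ (1 + r), 1, by ring⟩
        refine h6.dvd_of_dvd_mul_left ?_
        exact_mod_cast h3
      obtain ⟨s, b, hb, hsb⟩ := Nat.exists_eq_pow_mul_and_not_dvd (Nat.succ_ne_zero n) p
        (Fact.out : p.Prime).ne_one
      rw [Nat.succ_eq_add_one] at hsb
      have hs : s < e := by
        by_contra hse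
        push Not at hse
        have hb0 : 0 < b := Nat.pos_of_ne_zero (by rintro rfl; simp at hsb)
        have h7 : p ^ e ≤ p ^ s := Nat.pow_le_pow_right hp hse
        have h8 : p ^ s ≤ p ^ s * b := Nat.le_mul_of_pos_right _ hb0
        omega
      obtain ⟨θ, hθ⟩ := N1_pow (p := p) hm s
      obtain ⟨c, hc⟩ := N1_sq ((p : ℤ) ^ (m + s) * (1 + p * θ)) b
      rw [hsb, pow_mul, hθ, hc] at h4
      have h9 : (p : ℤ) ^ (m + s) * p ∣ (p : ℤ) ^ (m + s) * (b * (1 + p * θ) + (p : ℤ) ^ (m + s) * (1 + p * θ) ^ 2 * c) := by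
        rw [← pow_succ]
        refine (pow_dvd_pow _ (by omega : m + s + 1 ≤ m + e)).trans ?_
        refine h4.trans (dvd_of_eq ?_)
        ring
      have h10 : (p : ℤ) ∣ b * (1 + p * θ) + (p : ℤ) ^ (m + s) * (1 + p * θ) ^ 2 * c :=
        (mul_dvd_mul_iff_left (pow_ne_zero _ (by exact_mod_cast hp.ne'))).mp h9
      obtain ⟨r, rfl⟩ := Nat.exists_eq_add_of_le hm
      have h11 : (p : ℤ) ∣ b := by
        have h12 : (b : ℤ) = (b * (1 + p * θ) + (p : ℤ) ^ (2 + r + s) * (1 + p * θ) ^ 2 * c) -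
            p * (b * θ + (p : ℤ) ^ (1 + r + s) * (1 + p * θ) ^ 2 * c) := by ring
        rw [h12]
        exact dvd_sub h10 (dvd_mul_right _ _)
      exact hb (by exact_mod_cast h11)
    have hz' : (p : ℤ_[p]) ^ (m + e) ∣ (1 + (p : ℤ_[p]) ^ m) ^ (z % p ^ e) - (1 + v) := by
      rw [← key]
      exact hex
    rintro k ⟨hk1, hk2⟩
    rw [key] at hk2
    have hlt : z % p ^ e < p ^ e := Nat.mod_lt _ (by positivity)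
    rcases lt_trichotomy k (z % p ^ e) with h | h | h
    · exact (main _ _ h hlt hk2 hz').elim
    · exact h
    · exact (main _ _ h hk1 hz' hk2).elim

end Pool.Agent.Lib.MP_f399a8_nt.S
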