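import Pool.Agent.Lib.MP_f399a8_ntS.N1

/-!
# Characters near `1` are approximated by polynomials

PROOF of `interp`.  Let `γ = 1 + p^m` (`m ≥ 2`), `ω = ν γ - 1`, `‖ω‖ ≤ r`, `T j = (γ^j - 1 : C)` (image of `ℚ_[p]`
under `algebraMap`), `‖T j‖ ≤ p^(-m) ≤ r`, distinct (`γ^j` are distinct: `1 < γ` as a rational number).  For
`z : ℕ` consider `F_z = (1 + X)^z : C[X]`.  Divide by the monic `Q = ∏_{j < N} (X - C (T j))`:
`F_z = q_z * Q + R_z`, `degree R_z < N` (`Polynomial.divByMonic`, `modByMonic`).  The coefficients of `q_z` have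
norm `≤ 1`: (division with remainder of polynomials with coefficients in the unit ball by a monic one; e.g. prove by
induction on the degree, or do it successively: `(F - F(T)) / (X - T)` has coefficients of norm `≤ 1` by
synthetic division if `F` has and `‖T‖ ≤ 1`).  So `‖F_z(ω) - R_z(ω)‖ = ‖q_z(ω)‖ ∏ ‖ω - T j‖ ≤ r^N`.  By Lagrange
interpolation (`Lagrange.eq_interpolate_of_eval_eq`, `Lagrange.interpolate_apply`)
`R_z = ∑_{j<N} C (F_z (T j)) * L_j`, `L_j = Lagrange.basis`, so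
`R_z(ω) = ∑_j (γ^j)^z * L_j(ω) = ∑_j L_j(ω) * (γ^z)^j = P(γ^z)`, `P = ∑_{j<N} C (L_j(ω)) * X^j`, which does not depend on
`z`.  And `F_z(ω) = (1+ω)^z = ν (γ^z)`.  So `‖ν (γ^z) - P(γ^z)‖ ≤ r^N` for all `z : ℕ`; by `gen_dense` and the
continuity of `ν` and `P` this holds for all `1 + u`, `‖u‖ ≤ p^(-m)`.
(Direct induction avoiding division: Newton interpolation.  For `F : C[X]` with coefficients of norm `≤ 1` and points
`T 0, …, T (N-1)`, `ω` in the ball of radius `r ≤ 1`, `‖F(ω) - I(ω)‖ ≤ r^N` where `I` interpolates `F`.)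
PROOF of `dif_small`: `ρ ≤ 1` WLOG (replace `ρ` by `min ρ 1`).  Choose `m ≥ 2` with `‖ν (1 + p^m) - 1‖ ≤ ρ` and
`p^(-m) ≤ ρ`.  For `‖x‖, ‖y‖ ≤ p^(-m)` all points `1 + y + k x` are in `1 + p^m ℤ_p`.  With `P` from `interp` (degree
`< N`) the `N`-th difference of `k ↦ P(1 + y + k x)` vanishes (a polynomial in `k` of degree `< N`: Mathlib
`fwdDiff_iter_eq_sum_shift` and vanishing for polynomials, or `Finset.sum_range_choose..`; e.g.
`∑ (-1)^(N-k) choose N k * k^l = 0` for `l < N`), and `‖choose N k‖ ≤ 1`, so the difference of `ν` has norm `≤ ρ^N`.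
-/

namespace Pool.Agent.Lib.MP_f399a8_nt.S

variable {p : ℕ} [Fact p.Prime] {C : Type*} [NormedField C] [NormedAlgebra ℚ_[p] C]
  [IsUltrametricDist C]

private theorem N2_norm_sub_le_max {E : Type*} [NormedField E] [IsUltrametricDist E] (x y : E) :
    ‖x - y‖ ≤ max ‖x‖ ‖y‖ := by
  have h := IsUltrametricDist.norm_add_le_max x (-y)
  rwa [norm_neg, ← sub_eq_add_neg] at h

/-- the unit ball as a subring -/
private def N2_O (C : Type*) [NormedField C] [IsUltrametricDist C] : Subring C where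
  carrier := {x | ‖x‖ ≤ 1}
  zero_mem' := by
    show ‖(0 : C)‖ ≤ 1
    simp
  one_mem' := by
    show ‖(1 : C)‖ ≤ 1
    simp
  add_mem' := by
    intro a b ha hb
    exact (IsUltrametricDist.norm_add_le_max a b).trans (max_le ha hb)
  mul_mem' := by
    intro a b ha hb
    show ‖a * b‖ ≤ 1
    rw [norm_mul]
    exact mul_le_one₀ ha (norm_nonneg _) hb
  neg_mem' := by
    intro a ha
    show ‖-a‖ ≤ 1
    rw [norm_neg]
    exact ha

/-- division with remainder over the unit ball -/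
private theorem N2_div (F : Polynomial (N2_O C)) (N : ℕ) (T : ℕ → N2_O C) (ω : N2_O C) {r : ℝ}
    (hT : ∀ j < N, ‖(ω : C) - (T j : C)‖ ≤ r) :
    ∃ R : Polynomial (N2_O C), R.degree < N ∧ (∀ j < N, R.eval (T j) = F.eval (T j)) ∧
      ‖((F.eval ω : N2_O C) : C) - ((R.eval ω : N2_O C) : C)‖ ≤ r ^ N := by
  classical
  set Q : Polynomial (N2_O C) := ∏ j ∈ Finset.range N, (Polynomial.X - Polynomial.C (T j)) with hQ
  have hQm : Q.Monic := Polynomial.monic_prod_of_monic _ _ fun j _ => Polynomial.monic_X_sub_C _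
  have hQd : Q.degree = N := by
    rw [hQ, Polynomial.degree_prod_of_monic]
    · simp
    · exact fun j _ => Polynomial.monic_X_sub_C _
  have hdiv := Polynomial.modByMonic_add_div F Q
  have hQT : ∀ j < N, Q.eval (T j) = 0 := by
    intro j hj
    rw [hQ, Polynomial.eval_prod]
    exact Finset.prod_eq_zero (Finset.mem_range.2 hj) (by simp)
  have hQω : ‖((Q.eval ω : N2_O C) : C)‖ ≤ r ^ N := by
    rw [hQ, Polynomial.eval_prod]
    have h1 : ((∏ j ∈ Finset.range N, (Polynomial.X - Polynomial.C (T j)).eval ω : N2_O C) : C) =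
        ∏ j ∈ Finset.range N, ((ω : C) - (T j : C)) := by
      rw [← Subring.coe_subtype, map_prod]
      refine Finset.prod_congr rfl fun j _ => ?_
      simp
    rw [h1, norm_prod]
    calc ∏ j ∈ Finset.range N, ‖(ω : C) - (T j : C)‖ ≤ ∏ _j ∈ Finset.range N, r :=
          Finset.prod_le_prod (fun _ _ => norm_nonneg _) fun j hj => hT j (Finset.mem_range.1 hj)
      _ = r ^ N := by simp
  refine ⟨F %ₘ Q, ?_, ?_, ?_⟩
  · rw [← hQd]
    exact Polynomial.degree_modByMonic_lt _ hQm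
  · intro j hj
    have h1 := congrArg (Polynomial.eval (T j)) hdiv
    rw [Polynomial.eval_add, Polynomial.eval_mul, hQT j hj, zero_mul, add_zero] at h1
    exact h1
  · have h1 := congrArg (Polynomial.eval ω) hdiv
    rw [Polynomial.eval_add, Polynomial.eval_mul] at h1
    have h2 : ((F.eval ω : N2_O C) : C) - (((F %ₘ Q).eval ω : N2_O C) : C) =
        ((Q.eval ω : N2_O C) : C) * (((F /ₘ Q).eval ω : N2_O C) : C) := by
      rw [← h1]
      push_cast
      ring
    rw [h2, norm_mul]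
    have h3 : ‖(((F /ₘ Q).eval ω : N2_O C) : C)‖ ≤ 1 := ((F /ₘ Q).eval ω).2
    calc ‖((Q.eval ω : N2_O C) : C)‖ * ‖(((F /ₘ Q).eval ω : N2_O C) : C)‖
        ≤ ‖((Q.eval ω : N2_O C) : C)‖ * 1 := mul_le_mul_of_nonneg_left h3 (norm_nonneg _)
      _ ≤ r ^ N := by rw [mul_one]; exact hQω

private theorem N2_norm_alg (x : ℚ_[p]) : ‖algebraMap ℚ_[p] C x‖ = ‖x‖ := norm_algebraMap' C x

private theorem N2_norm_pow (m : ℕ) : ‖(p : ℚ_[p]) ^ m‖ = (p : ℝ) ^ (-(m : ℤ)) := by
  rw [norm_pow, Padic.norm_p, inv_pow, zpow_neg, zpow_natCast]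

/-- points `γ ^ j` are close to `1` -/
private theorem N2_pow_sub_one {x : ℚ_[p]} {b : ℝ} (hb : b ≤ 1) (hx : ‖x - 1‖ ≤ b) (j : ℕ) :
    ‖x ^ j - 1‖ ≤ b := by
  have hx1 : ‖x‖ ≤ 1 := by
    have h1 : x = (x - 1) + 1 := by ring
    rw [h1]
    exact (IsUltrametricDist.norm_add_le_max _ _).trans (max_le (hx.trans hb) (by simp))
  induction j with
  | zero =>
    simp only [pow_zero, sub_self, norm_zero]
    exact (norm_nonneg _).trans hx
  | succ j ih =>
    have h1 : x ^ (j + 1) - 1 = x ^ j * (x - 1) + (x ^ j - 1) := by ring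
    rw [h1]
    refine (IsUltrametricDist.norm_add_le_max _ _).trans (max_le ?_ ih)
    rw [norm_mul, norm_pow]
    calc ‖x‖ ^ j * ‖x - 1‖ ≤ 1 * ‖x - 1‖ :=
          mul_le_mul_of_nonneg_right (pow_le_one₀ (norm_nonneg _) hx1) (norm_nonneg _)
      _ ≤ b := by rw [one_mul]; exact hx

private theorem N2_inj {m : ℕ} : Function.Injective fun j : ℕ => (1 + (p : ℚ_[p]) ^ m) ^ j := by
  intro i j hij
  have hp : 0 < (p : ℚ) := by exact_mod_cast (Fact.out : p.Prime).pos
  have h1 : (1 : ℚ) < 1 + (p : ℚ) ^ m := by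
    have : (0 : ℚ) < (p : ℚ) ^ m := by positivity
    linarith
  apply (pow_right_injective₀ (by linarith : (0 : ℚ) < 1 + (p : ℚ) ^ m) h1.ne')
  show (1 + (p : ℚ) ^ m) ^ i = (1 + (p : ℚ) ^ m) ^ j
  have h2 : (((1 + (p : ℚ) ^ m) ^ i : ℚ) : ℚ_[p]) = (((1 + (p : ℚ) ^ m) ^ j : ℚ) : ℚ_[p]) := by
    push_cast
    exact hij
  exact_mod_cast h2

theorem interp {ν : ℚ_[p] →*₀ C} (hν : Continuous ν) {m : ℕ} (hm : 2 ≤ m) {r : ℝ} (hr : r ≤ 1)
    (h1 : ‖ν (1 + (p : ℚ_[p]) ^ m) - 1‖ ≤ r) (h2 : (p : ℝ) ^ (-(m : ℤ)) ≤ r) (N : ℕ) :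
    ∃ P : Polynomial C, P.degree < N ∧ ∀ u : ℚ_[p], ‖u‖ ≤ (p : ℝ) ^ (-(m : ℤ)) →
      ‖ν (1 + u) - P.eval (algebraMap ℚ_[p] C (1 + u))‖ ≤ r ^ N := by
  classical
  set γ : ℚ_[p] := 1 + (p : ℚ_[p]) ^ m with hγ
  have hγ1 : ‖γ - 1‖ ≤ (p : ℝ) ^ (-(m : ℤ)) := by
    rw [hγ, add_sub_cancel_left, N2_norm_pow]
  have hp1 : (p : ℝ) ^ (-(m : ℤ)) ≤ 1 := h2.trans hr
  have hTn : ∀ j : ℕ, ‖algebraMap ℚ_[p] C (γ ^ j) - 1‖ ≤ (p : ℝ) ^ (-(m : ℤ)) := by
    intro j
    rw [← map_one (algebraMap ℚ_[p] C), ← map_sub, N2_norm_alg]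
    exact N2_pow_sub_one hp1 hγ1 j
  set ω : N2_O C := ⟨ν γ - 1, h1.trans hr⟩ with hω
  set T : ℕ → N2_O C := fun j => ⟨algebraMap ℚ_[p] C (γ ^ j) - 1, (hTn j).trans hp1⟩ with hT
  have hTinj : Set.InjOn (fun j => (T j : C)) (Finset.range N : Set ℕ) := by
    intro i _ j _ hij
    have h3 : algebraMap ℚ_[p] C (γ ^ i) - 1 = algebraMap ℚ_[p] C (γ ^ j) - 1 := hij
    have h4 := (algebraMap ℚ_[p] C).injective (sub_left_injective h3)
    exact N2_inj h4
  set L : ℕ → C := fun j => (Lagrange.basis (Finset.range N) (fun j => (T j : C)) j).eval (ω : C)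
    with hL
  set P : Polynomial C := ∑ j ∈ Finset.range N, Polynomial.C (L j) * Polynomial.X ^ j with hP
  have hPd : P.degree < N := by
    rw [hP, ← Polynomial.mem_degreeLT]
    refine Submodule.sum_mem _ fun j hj => ?_
    rw [Polynomial.mem_degreeLT]
    refine (Polynomial.degree_C_mul_X_pow_le _ _).trans_lt ?_
    exact_mod_cast Finset.mem_range.1 hj
  have key : ∀ z : ℕ, ‖ν (γ ^ z) - P.eval (algebraMap ℚ_[p] C (γ ^ z))‖ ≤ r ^ N := by
    intro z
    obtain ⟨R, hRd, hRT, hR⟩ := N2_div ((1 + Polynomial.X) ^ z : Polynomial (N2_O C)) N T ω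
      (r := r) (fun j _ => by
        have h3 : (ω : C) - (T j : C) = (ν γ - 1) - (algebraMap ℚ_[p] C (γ ^ j) - 1) := rfl
        rw [h3]
        exact (N2_norm_sub_le_max _ _).trans (max_le h1 ((hTn j).trans h2)))
    have h3 : (((((1 + Polynomial.X) ^ z : Polynomial (N2_O C)).eval ω : N2_O C)) : C) =
        ν (γ ^ z) := by
      simp [hω]
    have hRd' : (R.map (N2_O C).subtype).degree < (Finset.range N).card := by
      rw [Finset.card_range]
      exact (Polynomial.degree_map_le).trans_lt hRd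
    have h4 := Lagrange.eq_interpolate hTinj hRd'
    have h5 : ((R.eval ω : N2_O C) : C) = (R.map (N2_O C).subtype).eval (ω : C) := by
      have h8 : (ω : C) = (N2_O C).subtype ω := rfl
      rw [h8, Polynomial.eval_map_apply]
      rfl
    have h6 : ∀ j < N, (R.map (N2_O C).subtype).eval ((T j : C)) =
        (algebraMap ℚ_[p] C (γ ^ z)) ^ j := by
      intro j hj
      have h7 : (R.map (N2_O C).subtype).eval ((T j : C)) = ((R.eval (T j) : N2_O C) : C) := by
        have : (T j : C) = (N2_O C).subtype (T j) := rfl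
        rw [this, Polynomial.eval_map_apply]
        rfl
      rw [h7, hRT j hj]
      have h8 : ((((1 + Polynomial.X) ^ z : Polynomial (N2_O C)).eval (T j) : N2_O C) : C) =
          (1 + (algebraMap ℚ_[p] C (γ ^ j) - 1)) ^ z := by
        simp [hT]
      rw [h8, add_sub_cancel, ← map_pow, ← map_pow, ← pow_mul, ← pow_mul, mul_comm]
    have h7 : ((R.eval ω : N2_O C) : C) = P.eval (algebraMap ℚ_[p] C (γ ^ z)) := by
      rw [h5, h4, Lagrange.interpolate_apply, Polynomial.eval_finsetSum, hP,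
        Polynomial.eval_finsetSum]
      refine Finset.sum_congr rfl fun j hj => ?_
      rw [Polynomial.eval_mul, Polynomial.eval_C, h6 j (Finset.mem_range.1 hj),
        Polynomial.eval_mul, Polynomial.eval_C, Polynomial.eval_pow, Polynomial.eval_X, mul_comm]
    rw [h3, h7] at hR
    exact hR
  refine ⟨P, hPd, fun u hu => ?_⟩
  have hcont : Continuous fun x : ℚ_[p] => ‖ν x - P.eval (algebraMap ℚ_[p] C x)‖ := by
    refine (hν.sub ?_).norm
    exact P.continuous.comp (algebraMapCLM ℚ_[p] C).continuous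
  have hcl : IsClosed {x : ℚ_[p] | ‖ν x - P.eval (algebraMap ℚ_[p] C x)‖ ≤ r ^ N} :=
    isClosed_le hcont continuous_const
  have hmem : (1 + u) ∈ closure (Set.range fun z : ℕ => γ ^ z) := by
    rw [Metric.mem_closure_iff]
    intro ε hε
    obtain ⟨K, hK⟩ := exists_pow_lt_of_lt_one hε (y := (p : ℝ)⁻¹)
      (inv_lt_one_of_one_lt₀ (by exact_mod_cast (Fact.out : p.Prime).one_lt))
    obtain ⟨z, hz⟩ := gen_dense hm hu K
    refine ⟨γ ^ z, ⟨z, rfl⟩, ?_⟩
    rw [dist_comm, dist_eq_norm]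
    refine hz.trans_lt ?_
    rw [zpow_neg, zpow_natCast, ← inv_pow]
    exact hK
  exact closure_minimal (by rintro _ ⟨z, rfl⟩; exact key z) hcl hmem

theorem dif_poly (P : Polynomial C) {N : ℕ} (hP : P.degree < N) (y x : ℚ_[p]) :
    dif (fun u => P.eval (algebraMap ℚ_[p] C u)) N y x = 0 := by
  rcases Nat.eq_zero_or_pos N with h0 | h0
  · subst h0
    have hP0 : P = 0 := by
      rw [← Polynomial.degree_eq_bot]
      have h1 : P.degree < 0 := by exact_mod_cast hP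
      exact Nat.WithBot.lt_zero_iff.1 h1
    simp [dif, hP0]
  · have h1 : P.natDegree < N := by
      rcases eq_or_ne P 0 with h2 | h2
      · rw [h2, Polynomial.natDegree_zero]
        exact h0
      · exact (Polynomial.natDegree_lt_iff_degree_lt h2).2 hP
    set P' : Polynomial C := P.comp (Polynomial.C (algebraMap ℚ_[p] C y) +
      Polynomial.C (algebraMap ℚ_[p] C x) * Polynomial.X) with hP'
    have h2 : P'.natDegree < N := by
      refine lt_of_le_of_lt Polynomial.natDegree_comp_le ?_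
      have h3 : (Polynomial.C (algebraMap ℚ_[p] C y) +
          Polynomial.C (algebraMap ℚ_[p] C x) * Polynomial.X).natDegree ≤ 1 := by
        refine (Polynomial.natDegree_add_le _ _).trans (max_le ?_ ?_)
        · rw [Polynomial.natDegree_C]
          exact zero_le_one
        · exact (Polynomial.natDegree_C_mul_le _ _).trans Polynomial.natDegree_X_le
      calc P.natDegree * _ ≤ P.natDegree * 1 := Nat.mul_le_mul_left _ h3
        _ < N := by rw [mul_one]; exact h1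
    have h3 := congrFun (Polynomial.fwdDiff_iter_eq_zero_of_degree_lt h2) 0
    rw [fwdDiff_iter_eq_sum_shift, Pi.zero_apply] at h3
    unfold dif
    rw [← h3]
    refine Finset.sum_congr rfl fun k _ => ?_
    have h4 : algebraMap ℚ_[p] C (y + k * x) =
        algebraMap ℚ_[p] C y + algebraMap ℚ_[p] C x * (0 + k • 1) := by
      rw [map_add, map_mul, map_natCast, zero_add, nsmul_eq_mul, mul_one, mul_comm]
    rw [zsmul_eq_mul, hP', Polynomial.eval_comp, Polynomial.eval_add, Polynomial.eval_C,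
      Polynomial.eval_mul, Polynomial.eval_C, Polynomial.eval_X, ← h4]
    push_cast
    ring

theorem dif_small {ν : ℚ_[p] →*₀ C} (hν : Continuous ν) {ρ : ℝ} (hρ : 0 < ρ) :
    ∃ m : ℕ, 2 ≤ m ∧ ∀ (N : ℕ) (x y : ℚ_[p]), ‖x‖ ≤ (p : ℝ) ^ (-(m : ℤ)) →
      ‖y‖ ≤ (p : ℝ) ^ (-(m : ℤ)) → ‖dif ν N (1 + y) x‖ ≤ ρ ^ N := by
  have hr0 : 0 < min ρ 1 := lt_min hρ one_pos
  have hpinv : (p : ℝ)⁻¹ < 1 :=
    inv_lt_one_of_one_lt₀ (by exact_mod_cast (Fact.out : p.Prime).one_lt)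
  obtain ⟨δ, hδ, hδ'⟩ := Metric.continuous_iff.1 hν 1 (min ρ 1) hr0
  obtain ⟨m₀, hm₀⟩ := exists_pow_lt_of_lt_one (lt_min hδ hr0) hpinv
  have hpp : (p : ℝ) ^ (-((m₀ + 2 : ℕ) : ℤ)) < min δ (min ρ 1) := by
    rw [zpow_neg, zpow_natCast, ← inv_pow]
    refine lt_of_le_of_lt ?_ hm₀
    exact pow_le_pow_of_le_one (by positivity) hpinv.le (Nat.le_add_right _ _)
  refine ⟨m₀ + 2, Nat.le_add_left _ _, fun N x y hx hy => ?_⟩
  have h1 : ‖ν (1 + (p : ℚ_[p]) ^ (m₀ + 2)) - 1‖ ≤ min ρ 1 := by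
    have h2 := hδ' (1 + (p : ℚ_[p]) ^ (m₀ + 2)) (by
      rw [dist_eq_norm, add_sub_cancel_left, N2_norm_pow]
      exact hpp.trans_le (min_le_left _ _))
    rw [map_one, dist_eq_norm] at h2
    exact h2.le
  obtain ⟨P, hPd, hP⟩ := interp hν (m := m₀ + 2) (Nat.le_add_left _ _) (min_le_right ρ 1) h1
    (hpp.le.trans (min_le_right _ _)) N
  have h2 : dif ν N (1 + y) x =
      dif (fun u => ν u - P.eval (algebraMap ℚ_[p] C u)) N (1 + y) x := by
    have h3 := dif_poly P hPd (1 + y) x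
    unfold dif at h3 ⊢
    rw [← sub_zero (∑ k ∈ Finset.range (N + 1), (-1 : C) ^ (N - k) * (N.choose k : C) *
      ν (1 + y + k * x)), ← h3, ← Finset.sum_sub_distrib]
    refine Finset.sum_congr rfl fun k _ => ?_
    ring
  rw [h2]
  unfold dif
  refine IsUltrametricDist.norm_sum_le_of_forall_le_of_nonneg (by positivity) fun k _ => ?_
  have hkx : ‖y + k * x‖ ≤ (p : ℝ) ^ (-((m₀ + 2 : ℕ) : ℤ)) := by
    refine (IsUltrametricDist.norm_add_le_max _ _).trans (max_le hy ?_)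
    rw [norm_mul]
    have h4 : ‖(k : ℚ_[p])‖ ≤ 1 := by exact_mod_cast Padic.norm_int_le_one (k : ℤ)
    calc ‖(k : ℚ_[p])‖ * ‖x‖ ≤ 1 * ‖x‖ := mul_le_mul_of_nonneg_right h4 (norm_nonneg _)
      _ ≤ _ := by rw [one_mul]; exact hx
  have h5 := hP _ hkx
  rw [← add_assoc] at h5
  rw [norm_mul, norm_mul, norm_pow, norm_neg, norm_one, one_pow, one_mul]
  have h6 : ‖((N.choose k : ℕ) : C)‖ ≤ 1 := by
    have h7 : ((N.choose k : ℕ) : C) = algebraMap ℚ_[p] C ((N.choose k : ℕ) : ℚ_[p]) := by simp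
    rw [h7, N2_norm_alg]
    exact_mod_cast Padic.norm_int_le_one ((N.choose k : ℕ) : ℤ)
  calc ‖((N.choose k : ℕ) : C)‖ * ‖ν (1 + y + k * x) -
        P.eval (algebraMap ℚ_[p] C (1 + y + k * x))‖
      ≤ 1 * (min ρ 1) ^ N := mul_le_mul h6 h5 (norm_nonneg _) zero_le_one
    _ ≤ ρ ^ N := by
      rw [one_mul]
      exact pow_le_pow_left₀ hr0.le (min_le_left _ _) N

end Pool.Agent.Lib.MP_f399a8_nt.S
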