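import Pool.Agent.Lib.MP_f399a8_ntS.SlDef

/-!
# Rigidity: characters with small differences on `ℕ` are powers

PROOF of `coeff_bound`: Lagrange interpolation at `0, …, N - 1`: `Q = ∑_{k<N} C (Q.eval k) * L_k`,
`L_k = ∏_{j ≠ k} (X - j) / (k - j)`; the numerator has integer coefficients and the denominator is
`± k! (N-1-k)!`, which divides `(N-1)!`, of `p`-adic valuation `≤ N`, so every coefficient of `L_k` has norm
`≤ p ^ N` in `C` (`‖(a : C)‖ = ‖(a : ℚ_[p])‖` for integers).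
PROOF of `newton`: `ν k = ∑_{m ≤ k} choose k m * c_m` for `k : ℕ`, where `c_m = dif ν m 0 1` (Newton's formula,
`shift_eq_sum_fwdDiff_iter` in Mathlib, or the binomial inversion).
PROOF of `rigid`.  Let `c_m = dif ν m 0 1`, `‖c_m‖ ≤ A ρ^m`.  `P_N = ∑_{m<N} C (c_m / m!) * descPochhammer C m`
(degree `< N`), `P_N(k) = ∑_{m<N} choose k m * c_m` for `k : ℕ` (`descPochhammer_eval_eq_descFactorial`,
`Nat.descFactorial_eq_factorial_mul_choose`), so `‖ν k - P_N(k)‖ ≤ A ρ^N` (ultrametric, `ρ ≤ 1`, `‖choose‖ ≤ 1`).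
`Q_N(X) = P_N(p X) - ν(p) P_N(X)`: `‖Q_N(k)‖ ≤ A ρ^N` for `k : ℕ` since `ν(p k) = ν(p) ν(k)`, `‖ν p‖ ≤ 1`.  By
`coeff_bound`, with `a_l = P_N.coeff l`: `‖(p^l - ν p) a_l‖ ≤ A ρ^N p^N` for all `l`.
Case 1: `ν p = p^(l₀)` in `C` for some `l₀ : ℕ`.  For `l ≠ l₀`, `l < N`: `‖p^l - p^(l₀)‖ = p^(-min l l₀) ≥ p^(-N)` (the
norms differ), so `‖a_l‖ ≤ A ρ^N p^(2N)`.  For `k : ℕ`: `‖P_N(k) - a_{l₀} k^(l₀)‖ ≤ A ρ^N p^(2N) ≤ A p^(-N)` (`N > l₀`).
With `k = 1`: `‖1 - a_{l₀}‖ ≤ A p^(-N)` (up to a factor; use the max), so `‖ν k - k^(l₀)‖ ≤ A p^(-N)` for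
all `N > l₀`, so `ν k = k^(l₀)` for all `k : ℕ`.
Case 2: `ν p ≠ p^l` for all `l`.  There is `δ > 0` with `δ ≤ ‖p^l - ν p‖` for all `l`: for `l` large
`‖p^l‖ < ‖ν p‖` and the norm is `‖ν p‖` (`ν p ≠ 0`), finitely many others.  So `‖a_l‖ ≤ A ρ^N p^N / δ`,
`‖1‖ = ‖ν 1‖ ≤ max (‖P_N(1)‖) (A ρ^N) → 0`, contradiction.
Conclusion: `ν k = k^(l₀)` for `k : ℕ`, by continuity and density of `ℕ` in `ℤ_p` for `‖x‖ ≤ 1`, and for general `x`:
`x = p^(-a) y`, `‖y‖ ≤ 1`, `ν x = ν(p)^(-a) ν(y)`.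
-/

namespace Pool.Agent.Lib.MP_f399a8_nt.S

variable {p : ℕ} [Fact p.Prime] {C : Type*} [NormedField C] [NormedAlgebra ℚ_[p] C]
  [IsUltrametricDist C]

/-- the Newton polynomial -/
private noncomputable def N3_newt (c : ℕ → C) (N : ℕ) : Polynomial C :=
  ∑ m ∈ Finset.range N, Polynomial.C (c m / (m.factorial : C)) * descPochhammer C m

omit [IsUltrametricDist C] in
private theorem N3_newt_degree (c : ℕ → C) (N : ℕ) : (N3_newt c N).degree < N := by
  unfold N3_newt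
  rw [← Polynomial.mem_degreeLT]
  refine Submodule.sum_mem _ fun j hj => ?_
  rw [Polynomial.mem_degreeLT]
  have h1 : (descPochhammer C j).degree = (j : ℕ) := by
    rw [Polynomial.degree_eq_natDegree (monic_descPochhammer C j).ne_zero,
      descPochhammer_natDegree]
  have h2 : (Polynomial.C (c j / (j.factorial : C)) * descPochhammer C j).degree ≤
      (descPochhammer C j).degree := by
    rw [Polynomial.C_mul']
    exact Polynomial.degree_smul_le _ _
  refine h2.trans_lt ?_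
  rw [h1]
  exact_mod_cast Finset.mem_range.1 hj

omit [IsUltrametricDist C] in
private theorem N3_charZero (p : ℕ) [Fact p.Prime] [NormedAlgebra ℚ_[p] C] : CharZero C :=
  charZero_of_injective_algebraMap (algebraMap ℚ_[p] C).injective

omit [IsUltrametricDist C] in
private theorem N3_newt_eval [CharZero C] (c : ℕ → C) (N k : ℕ) :
    (N3_newt c N).eval (k : C) = ∑ m ∈ Finset.range N, (k.choose m : C) * c m := by
  unfold N3_newt
  rw [Polynomial.eval_finsetSum]
  refine Finset.sum_congr rfl fun m _ => ?_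
  rw [Polynomial.eval_mul, Polynomial.eval_C, descPochhammer_eval_eq_descFactorial,
    Nat.descFactorial_eq_factorial_mul_choose, Nat.cast_mul]
  have h1 : (m.factorial : C) ≠ 0 := by exact_mod_cast m.factorial_ne_zero
  field_simp

omit [IsUltrametricDist C] in
private theorem N3_norm_nat (p : ℕ) [Fact p.Prime] [NormedAlgebra ℚ_[p] C] (k : ℕ) :
    ‖(k : C)‖ ≤ 1 := by
  have h7 : (k : C) = algebraMap ℚ_[p] C (k : ℚ_[p]) := by simp
  rw [h7, norm_algebraMap']
  exact_mod_cast Padic.norm_int_le_one (k : ℤ)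

omit [IsUltrametricDist C] in
private theorem N3_norm_int (p : ℕ) [Fact p.Prime] [NormedAlgebra ℚ_[p] C] (k : ℤ) :
    ‖(k : C)‖ ≤ 1 := by
  have h7 : (k : C) = algebraMap ℚ_[p] C (k : ℚ_[p]) := by simp
  rw [h7, norm_algebraMap']
  exact Padic.norm_int_le_one k

omit [IsUltrametricDist C] in
private theorem N3_fact (p : ℕ) [Fact p.Prime] [NormedAlgebra ℚ_[p] C] (m : ℕ) :
    ‖(m.factorial : C)‖⁻¹ ≤ (p : ℝ) ^ m := by
  have hp : 1 < (p : ℝ) := by exact_mod_cast (Fact.out : p.Prime).one_lt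
  have h7 : (m.factorial : C) = algebraMap ℚ_[p] C ((m.factorial : ℕ) : ℚ_[p]) := by simp
  rw [h7, norm_algebraMap']
  have h1 : padicValNat p m.factorial ≤ m := by
    have h2 := sub_one_mul_padicValNat_factorial (p := p) m
    have h3 : 1 ≤ p - 1 := by
      have := (Fact.out : p.Prime).two_le
      omega
    calc padicValNat p m.factorial = 1 * padicValNat p m.factorial := (one_mul _).symm
      _ ≤ (p - 1) * padicValNat p m.factorial := Nat.mul_le_mul_right _ h3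
      _ ≤ m := by rw [h2]; exact Nat.sub_le _ _
  have h4 : ‖((m.factorial : ℕ) : ℚ_[p])‖ = (p : ℝ) ^ (-(padicValNat p m.factorial : ℤ)) := by
    rw [Padic.norm_eq_zpow_neg_valuation (by exact_mod_cast m.factorial_ne_zero),
      Padic.valuation_natCast]
  rw [h4, zpow_neg, inv_inv, zpow_natCast]
  exact pow_le_pow_right₀ hp.le h1

private theorem N3_newt_coeff (p : ℕ) [Fact p.Prime] [NormedAlgebra ℚ_[p] C] (c : ℕ → C) (N : ℕ)
    {ε : ℝ} (hε : 0 ≤ ε) (hc : ∀ m < N, ‖c m‖ ≤ ε) (l : ℕ) :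
    ‖(N3_newt c N).coeff l‖ ≤ ε * (p : ℝ) ^ N := by
  have hp : 1 < (p : ℝ) := by exact_mod_cast (Fact.out : p.Prime).one_lt
  unfold N3_newt
  rw [Polynomial.finsetSum_coeff]
  refine IsUltrametricDist.norm_sum_le_of_forall_le_of_nonneg (by positivity) fun m hm => ?_
  have hm' := Finset.mem_range.1 hm
  rw [Polynomial.coeff_C_mul, norm_mul, norm_div]
  have h1 : ‖(descPochhammer C m).coeff l‖ ≤ 1 := by
    rw [← descPochhammer_map (Int.castRingHom C) m, Polynomial.coeff_map]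
    exact N3_norm_int p _
  have h2 : ‖c m‖ / ‖(m.factorial : C)‖ ≤ ε * (p : ℝ) ^ N := by
    rw [div_eq_mul_inv]
    refine mul_le_mul (hc m hm') ((N3_fact p m).trans (pow_le_pow_right₀ hp.le hm'.le))
      (by positivity) hε
  calc ‖c m‖ / ‖(m.factorial : C)‖ * ‖(descPochhammer C m).coeff l‖
      ≤ (ε * (p : ℝ) ^ N) * 1 := mul_le_mul h2 h1 (norm_nonneg _) (by positivity)
    _ = ε * (p : ℝ) ^ N := mul_one _

/-- differences of a sequence at `0` -/
private noncomputable def N3_D (g : ℕ → C) (m : ℕ) : C :=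
  ∑ k ∈ Finset.range (m + 1), (-1 : C) ^ (m - k) * (m.choose k : C) * g k

omit [IsUltrametricDist C] in
private theorem N3_D_eq (g : ℕ → C) (m : ℕ) : N3_D g m = (fwdDiff 1)^[m] g 0 := by
  rw [fwdDiff_iter_eq_sum_shift]
  unfold N3_D
  refine Finset.sum_congr rfl fun k _ => ?_
  rw [zsmul_eq_mul, zero_add, smul_eq_mul, mul_one]
  push_cast
  ring

omit [IsUltrametricDist C] in
private theorem N3_newton (g : ℕ → C) (k M : ℕ) (h : k < M) :
    g k = ∑ m ∈ Finset.range M, (k.choose m : C) * N3_D g m := by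
  have h1 := shift_eq_sum_fwdDiff_iter 1 g k 0
  rw [zero_add, smul_eq_mul, mul_one] at h1
  rw [h1]
  have h2 : Finset.range (k + 1) ⊆ Finset.range M := by
    intro x hx
    rw [Finset.mem_range] at *
    omega
  rw [← Finset.sum_subset h2]
  · refine Finset.sum_congr rfl fun m _ => ?_
    rw [N3_D_eq, nsmul_eq_mul]
  · intro x _ hx
    rw [Finset.mem_range] at hx
    rw [Nat.choose_eq_zero_of_lt (by omega), Nat.cast_zero, zero_mul]

private theorem N3_D_le (p : ℕ) [Fact p.Prime] [NormedAlgebra ℚ_[p] C] (g : ℕ → C) {ε : ℝ}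
    (hε : 0 ≤ ε) (m : ℕ) (h : ∀ k ≤ m, ‖g k‖ ≤ ε) : ‖N3_D g m‖ ≤ ε := by
  unfold N3_D
  refine IsUltrametricDist.norm_sum_le_of_forall_le_of_nonneg hε fun k hk => ?_
  rw [norm_mul, norm_mul, norm_pow, norm_neg, norm_one, one_pow, one_mul]
  have hk' := Finset.mem_range.1 hk
  calc ‖((m.choose k : ℕ) : C)‖ * ‖g k‖ ≤ 1 * ε :=
        mul_le_mul (N3_norm_nat p _) (h k (by omega)) (norm_nonneg _) zero_le_one
    _ = ε := one_mul _

theorem coeff_bound (p : ℕ) [Fact p.Prime] [NormedAlgebra ℚ_[p] C] {Q : Polynomial C} {N : ℕ}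
    (hQ : Q.degree < N) {ε : ℝ} (hε : 0 ≤ ε) (h : ∀ k : ℕ, k < N → ‖Q.eval (k : C)‖ ≤ ε)
    (l : ℕ) : ‖Q.coeff l‖ ≤ ε * (p : ℝ) ^ N := by
  have hcz : CharZero C := N3_charZero p
  have h1 : Q = N3_newt (N3_D fun k => Q.eval (k : C)) N := by
    have hinj : Set.InjOn (fun k : ℕ => (k : C)) (Finset.range N : Set ℕ) :=
      fun i _ j _ hij => Nat.cast_injective hij
    refine Polynomial.eq_of_degrees_lt_of_eval_index_eq (Finset.range N) hinj ?_ ?_ ?_
    · rw [Finset.card_range]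
      exact hQ
    · rw [Finset.card_range]
      exact N3_newt_degree _ _
    · intro i hi
      rw [N3_newt_eval]
      exact N3_newton (fun k => Q.eval (k : C)) i N (Finset.mem_range.1 hi)
  rw [h1]
  exact N3_newt_coeff p _ N hε (fun m hm => N3_D_le p _ hε m fun k hk => h k (by omega)) l

private theorem N3_min {f : ℕ → ℝ} (hf : ∀ l, 0 < f l) (L : ℕ) :
    ∃ δ : ℝ, 0 < δ ∧ ∀ l < L, δ ≤ f l := by
  induction L with
  | zero => exact ⟨1, one_pos, fun l hl => absurd hl (Nat.not_lt_zero l)⟩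
  | succ L ih =>
    obtain ⟨δ, h1, h2⟩ := ih
    refine ⟨min δ (f L), lt_min h1 (hf L), fun l hl => ?_⟩
    rcases Nat.lt_succ_iff_lt_or_eq.1 hl with h3 | h3
    · exact (min_le_left _ _).trans (h2 l h3)
    · rw [h3]
      exact min_le_right _ _

private theorem N3_small {x A : ℝ} {b : ℝ} (hb0 : 0 ≤ b) (hb : b < 1) (n₀ : ℕ)
    (h : ∀ N, n₀ ≤ N → x ≤ A * b ^ N) : x ≤ 0 := by
  have h1 : Filter.Tendsto (fun N : ℕ => A * b ^ N) Filter.atTop (nhds (A * 0)) :=
    (tendsto_pow_atTop_nhds_zero_of_lt_one hb0 hb).const_mul A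
  rw [mul_zero] at h1
  refine ge_of_tendsto h1 ?_
  filter_upwards [Filter.eventually_ge_atTop n₀] with N hN
  exact h N hN

/-- extension from the natural numbers -/
private theorem N3_ext {ν : ℚ_[p] →*₀ C} (hν : Continuous ν) (l : ℕ)
    (h : ∀ k : ℕ, ν (k : ℚ_[p]) = (k : C) ^ l) (x : ℚ_[p]) : ν x = (algebraMap ℚ_[p] C x) ^ l := by
  have h1 : ∀ y : ℤ_[p], ν (y : ℚ_[p]) = (algebraMap ℚ_[p] C (y : ℚ_[p])) ^ l := by
    have hc1 : Continuous fun y : ℤ_[p] => ν (y : ℚ_[p]) := hν.comp continuous_subtype_val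
    have hc2 : Continuous fun y : ℤ_[p] => (algebraMap ℚ_[p] C (y : ℚ_[p])) ^ l :=
      ((algebraMapCLM ℚ_[p] C).continuous.comp continuous_subtype_val).pow l
    have h2 := PadicInt.denseRange_natCast (p := p) |>.equalizer hc1 hc2 (by
      funext k
      simp [h k])
    exact fun y => congrFun h2 y
  obtain ⟨n, hn⟩ : ∃ n : ℕ, ‖(p : ℚ_[p]) ^ n * x‖ ≤ 1 := by
    obtain ⟨n, hn⟩ := pow_unbounded_of_one_lt ‖x‖
      (show 1 < (p : ℝ) by exact_mod_cast (Fact.out : p.Prime).one_lt)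
    refine ⟨n, ?_⟩
    have hp0 : (0 : ℝ) < (p : ℝ) ^ n := by
      have : (0 : ℝ) < p := by exact_mod_cast (Fact.out : p.Prime).pos
      positivity
    rw [norm_mul, norm_pow, Padic.norm_p, inv_pow, inv_mul_le_iff₀ hp0, mul_one]
    exact hn.le
  have h3 := h1 ⟨(p : ℚ_[p]) ^ n * x, hn⟩
  have h4 : ν ((p : ℚ_[p]) ^ n * x) = (algebraMap ℚ_[p] C ((p : ℚ_[p]) ^ n * x)) ^ l := h3
  have hcz : CharZero C := N3_charZero p
  have hp0 : (p : C) ≠ 0 := by exact_mod_cast (Fact.out : p.Prime).ne_zero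
  rw [map_mul, map_pow, map_mul, map_pow, map_natCast (algebraMap ℚ_[p] C) p, mul_pow, h p] at h4
  have h5 : ((p : C) ^ l) ^ n = ((p : C) ^ n) ^ l := by rw [← pow_mul, ← pow_mul, mul_comm]
  rw [h5] at h4
  exact mul_left_cancel₀ (pow_ne_zero _ (pow_ne_zero _ hp0)) h4

theorem rigid {ν : ℚ_[p] →*₀ C} (hν : Continuous ν) (h1 : ‖ν (p : ℚ_[p])‖ < 1) {A ρ : ℝ}
    (hρ0 : 0 ≤ ρ) (hρ : ρ ≤ (p : ℝ) ^ (-(3 : ℤ)))
    (h : ∀ N : ℕ, ‖dif ν N 0 1‖ ≤ A * ρ ^ N) :
    ∃ l : ℕ, ∀ x : ℚ_[p], ν x = (algebraMap ℚ_[p] C x) ^ l := by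
  have hcz : CharZero C := N3_charZero p
  have hp1 : 1 < (p : ℝ) := by exact_mod_cast (Fact.out : p.Prime).one_lt
  have hp0 : 0 < (p : ℝ) := by linarith
  have hρ1 : ρ ≤ 1 := hρ.trans (by
    rw [zpow_neg]
    exact inv_le_one_of_one_le₀ (one_le_zpow₀ hp1.le (by norm_num)))
  have hA : 0 ≤ A := by
    have h2 := h 0
    rw [pow_zero, mul_one] at h2
    exact (norm_nonneg _).trans h2
  set c : ℕ → C := fun m => dif ν m 0 1 with hc
  set g : ℕ → C := fun k => ν (k : ℚ_[p]) with hg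
  have hcD : ∀ m, c m = N3_D g m := by
    intro m
    simp [hc, hg, dif, N3_D]
  have happ : ∀ N k : ℕ, ‖g k - (N3_newt c N).eval (k : C)‖ ≤ A * ρ ^ N := by
    intro N k
    have h2 := N3_newton g k (N + (k + 1)) (by omega)
    rw [Finset.sum_range_add] at h2
    have h3 : g k - (N3_newt c N).eval (k : C) =
        ∑ x ∈ Finset.range (k + 1), (k.choose (N + x) : C) * N3_D g (N + x) := by
      rw [N3_newt_eval, h2, hc]
      have h4 : ∀ m, dif ν m 0 1 = N3_D g m := hcD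
      simp only [h4]
      ring
    rw [h3]
    refine IsUltrametricDist.norm_sum_le_of_forall_le_of_nonneg (by positivity) fun x _ => ?_
    rw [norm_mul, ← hcD]
    calc ‖((k.choose (N + x) : ℕ) : C)‖ * ‖c (N + x)‖ ≤ 1 * (A * ρ ^ (N + x)) :=
          mul_le_mul (N3_norm_nat p _) (h _) (norm_nonneg _) zero_le_one
      _ ≤ A * ρ ^ N := by
        rw [one_mul]
        exact mul_le_mul_of_nonneg_left (pow_le_pow_of_le_one hρ0 hρ1 (Nat.le_add_right _ _)) hA
  have hcoef : ∀ N l : ℕ, ‖((p : C) ^ l - ν (p : ℚ_[p])) * (N3_newt c N).coeff l‖ ≤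
      A * ρ ^ N * (p : ℝ) ^ N := by
    intro N l
    set Q : Polynomial C := (N3_newt c N).comp (Polynomial.C (p : C) * Polynomial.X) -
      Polynomial.C (ν (p : ℚ_[p])) * N3_newt c N with hQ
    have hQd : Q.degree < N := by
      rw [hQ]
      refine (Polynomial.degree_sub_le _ _).trans_lt (max_lt ?_ ?_)
      · refine lt_of_le_of_lt ?_ (N3_newt_degree c N)
        rw [Polynomial.degree_le_iff_coeff_zero]
        intro m hm
        rw [Polynomial.comp_C_mul_X_coeff, Polynomial.coeff_eq_zero_of_degree_lt hm, zero_mul]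
      · refine lt_of_le_of_lt ?_ (N3_newt_degree c N)
        rw [Polynomial.C_mul']
        exact Polynomial.degree_smul_le _ _
    have hQe : ∀ k : ℕ, k < N → ‖Q.eval (k : C)‖ ≤ A * ρ ^ N := by
      intro k _
      have h2 : Q.eval (k : C) = ν (p : ℚ_[p]) * (g k - (N3_newt c N).eval (k : C)) -
          (g (p * k) - (N3_newt c N).eval ((p * k : ℕ) : C)) := by
        rw [hQ, Polynomial.eval_sub, Polynomial.eval_comp, Polynomial.eval_mul,
          Polynomial.eval_C, Polynomial.eval_X, Polynomial.eval_mul, Polynomial.eval_C]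
        have h3 : g (p * k) = ν (p : ℚ_[p]) * g k := by
          simp only [hg]
          push_cast
          rw [map_mul]
        rw [h3]
        push_cast
        ring
      rw [h2, sub_eq_add_neg]
      refine (IsUltrametricDist.norm_add_le_max _ _).trans (max_le ?_ ?_)
      · rw [norm_mul]
        calc ‖ν (p : ℚ_[p])‖ * ‖g k - (N3_newt c N).eval (k : C)‖ ≤ 1 * (A * ρ ^ N) :=
              mul_le_mul h1.le (happ N k) (norm_nonneg _) zero_le_one
          _ = A * ρ ^ N := one_mul _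
      · rw [norm_neg]
        exact happ N (p * k)
    have h2 := coeff_bound p hQd (by positivity) hQe l
    have h3 : Q.coeff l = ((p : C) ^ l - ν (p : ℚ_[p])) * (N3_newt c N).coeff l := by
      rw [hQ, Polynomial.coeff_sub, Polynomial.comp_C_mul_X_coeff, Polynomial.coeff_C_mul]
      ring
    rw [h3] at h2
    exact h2
  have hpn : ∀ l : ℕ, ‖(p : C) ^ l‖ = ((p : ℝ) ^ l)⁻¹ := by
    intro l
    have h2 : (p : C) = algebraMap ℚ_[p] C (p : ℚ_[p]) := by simp
    rw [norm_pow, h2, norm_algebraMap', Padic.norm_p, inv_pow]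
  have hνp0 : ν (p : ℚ_[p]) ≠ 0 := by
    rw [map_ne_zero]
    exact_mod_cast (Fact.out : p.Prime).ne_zero
  have hρp : ∀ N : ℕ, ρ ^ N * (p : ℝ) ^ (2 * N) ≤ ((p : ℝ)⁻¹) ^ N := by
    intro N
    have h2 : ρ * (p : ℝ) ^ 2 ≤ (p : ℝ)⁻¹ := by
      calc ρ * (p : ℝ) ^ 2 ≤ (p : ℝ) ^ (-(3 : ℤ)) * (p : ℝ) ^ 2 :=
            mul_le_mul_of_nonneg_right hρ (by positivity)
        _ = (p : ℝ)⁻¹ := by
          rw [zpow_neg]
          have h3 : (p : ℝ) ^ (3 : ℤ) = (p : ℝ) ^ 3 := by norm_cast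
          rw [h3]
          field_simp
    calc ρ ^ N * (p : ℝ) ^ (2 * N) = (ρ * (p : ℝ) ^ 2) ^ N := by rw [mul_pow, pow_mul]
      _ ≤ ((p : ℝ)⁻¹) ^ N := pow_le_pow_left₀ (by positivity) h2 N
  have hb1 : (p : ℝ)⁻¹ < 1 := inv_lt_one_of_one_lt₀ hp1
  have hb0 : 0 ≤ (p : ℝ)⁻¹ := by positivity
  by_cases hcase : ∃ l₀ : ℕ, ν (p : ℚ_[p]) = (p : C) ^ l₀
  · obtain ⟨l₀, hl₀⟩ := hcase
    refine ⟨l₀, N3_ext hν l₀ ?_⟩
    -- the main estimate
    have hmain : ∀ N, l₀ < N → ∀ k : ℕ,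
        ‖g k - (N3_newt c N).coeff l₀ * (k : C) ^ l₀‖ ≤ A * ((p : ℝ)⁻¹) ^ N := by
      intro N hN k
      have ha : ∀ l < N, l ≠ l₀ → ‖(N3_newt c N).coeff l‖ ≤ A * ((p : ℝ)⁻¹) ^ N := by
        intro l hl hne
        have h2 := hcoef N l
        rw [norm_mul, hl₀] at h2
        have h3 : ((p : ℝ) ^ N)⁻¹ ≤ ‖(p : C) ^ l - (p : C) ^ l₀‖ := by
          have h4 : ‖(p : C) ^ l‖ ≠ ‖-(p : C) ^ l₀‖ := by
            rw [norm_neg, hpn, hpn]
            intro h5
            exact hne (pow_right_injective₀ hp0 hp1.ne' (inv_injective h5))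
          rw [sub_eq_add_neg, IsUltrametricDist.norm_add_eq_max_of_norm_ne_norm h4]
          refine le_trans ?_ (le_max_left _ _)
          rw [hpn]
          exact inv_anti₀ (by positivity) (pow_le_pow_right₀ hp1.le hl.le)
        have h4 : ((p : ℝ) ^ N)⁻¹ * ‖(N3_newt c N).coeff l‖ ≤ A * ρ ^ N * (p : ℝ) ^ N :=
          (mul_le_mul_of_nonneg_right h3 (norm_nonneg _)).trans h2
        rw [inv_mul_le_iff₀ (by positivity)] at h4
        refine h4.trans ?_
        calc (p : ℝ) ^ N * (A * ρ ^ N * (p : ℝ) ^ N) = A * (ρ ^ N * (p : ℝ) ^ (2 * N)) := by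
              rw [two_mul, pow_add]
              ring
          _ ≤ A * ((p : ℝ)⁻¹) ^ N := mul_le_mul_of_nonneg_left (hρp N) hA
      have h2 : (N3_newt c N).eval (k : C) - (N3_newt c N).coeff l₀ * (k : C) ^ l₀ =
          ∑ l ∈ (Finset.range N).erase l₀, (N3_newt c N).coeff l * (k : C) ^ l := by
        rcases eq_or_ne (N3_newt c N) 0 with h0 | h0
        · simp [h0]
        · rw [Polynomial.eval_eq_sum_range' ((Polynomial.natDegree_lt_iff_degree_lt h0).2
            (N3_newt_degree c N)), ← Finset.add_sum_erase _ _ (Finset.mem_range.2 hN)]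
          ring
      have h3 : ‖(N3_newt c N).eval (k : C) - (N3_newt c N).coeff l₀ * (k : C) ^ l₀‖ ≤
          A * ((p : ℝ)⁻¹) ^ N := by
        rw [h2]
        refine IsUltrametricDist.norm_sum_le_of_forall_le_of_nonneg (by positivity)
          fun l hl => ?_
        rw [Finset.mem_erase, Finset.mem_range] at hl
        rw [norm_mul, norm_pow]
        calc ‖(N3_newt c N).coeff l‖ * ‖(k : C)‖ ^ l ≤ (A * ((p : ℝ)⁻¹) ^ N) * 1 :=
              mul_le_mul (ha l hl.2 hl.1) (pow_le_one₀ (norm_nonneg _) (N3_norm_nat p k))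
                (by positivity) (by positivity)
          _ = _ := mul_one _
      have h4 : ‖g k - (N3_newt c N).eval (k : C)‖ ≤ A * ((p : ℝ)⁻¹) ^ N := by
        refine (happ N k).trans (mul_le_mul_of_nonneg_left ?_ hA)
        calc ρ ^ N = ρ ^ N * 1 := (mul_one _).symm
          _ ≤ ρ ^ N * (p : ℝ) ^ (2 * N) :=
            mul_le_mul_of_nonneg_left (one_le_pow₀ hp1.le) (by positivity)
          _ ≤ _ := hρp N
      have h5 : g k - (N3_newt c N).coeff l₀ * (k : C) ^ l₀ =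
          (g k - (N3_newt c N).eval (k : C)) +
          ((N3_newt c N).eval (k : C) - (N3_newt c N).coeff l₀ * (k : C) ^ l₀) := by ring
      rw [h5]
      exact (IsUltrametricDist.norm_add_le_max _ _).trans (max_le h4 h3)
    intro k
    have hg1 : g 1 = 1 := by simp [hg]
    have h2 : ‖ν (k : ℚ_[p]) - (k : C) ^ l₀‖ ≤ 0 := by
      refine N3_small (A := A) hb0 hb1 (l₀ + 1) fun N hN => ?_
      have h3 := hmain N (by omega) k
      have h4 := hmain N (by omega) 1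
      rw [hg1, Nat.cast_one, one_pow, mul_one] at h4
      have h5 : ν (k : ℚ_[p]) - (k : C) ^ l₀ =
          (g k - (N3_newt c N).coeff l₀ * (k : C) ^ l₀) +
          -((1 - (N3_newt c N).coeff l₀) * (k : C) ^ l₀) := by
        simp only [hg]
        ring
      rw [h5]
      refine (IsUltrametricDist.norm_add_le_max _ _).trans (max_le h3 ?_)
      rw [norm_neg, norm_mul, norm_pow]
      calc ‖1 - (N3_newt c N).coeff l₀‖ * ‖(k : C)‖ ^ l₀ ≤ (A * ((p : ℝ)⁻¹) ^ N) * 1 :=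
            mul_le_mul h4 (pow_le_one₀ (norm_nonneg _) (N3_norm_nat p k))
              (by positivity) (by positivity)
        _ = _ := mul_one _
    exact sub_eq_zero.1 (norm_le_zero_iff.1 h2)
  · exfalso
    push Not at hcase
    have hpos : ∀ l : ℕ, 0 < ‖(p : C) ^ l - ν (p : ℚ_[p])‖ := by
      intro l
      rw [norm_pos_iff, sub_ne_zero]
      exact (hcase l).symm
    obtain ⟨L, hL⟩ := exists_pow_lt_of_lt_one (norm_pos_iff.2 hνp0) hb1
    obtain ⟨δ₀, hδ₀, hδ₀'⟩ := N3_min hpos L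
    have hδ : ∀ l, min δ₀ ‖ν (p : ℚ_[p])‖ ≤ ‖(p : C) ^ l - ν (p : ℚ_[p])‖ := by
      intro l
      rcases lt_or_ge l L with hl | hl
      · exact (min_le_left _ _).trans (hδ₀' l hl)
      · refine (min_le_right _ _).trans ?_
        have h2 : ‖(p : C) ^ l‖ < ‖ν (p : ℚ_[p])‖ := by
          rw [hpn, ← inv_pow]
          exact (pow_le_pow_of_le_one hb0 hb1.le hl).trans_lt hL
        have h3 : ‖(p : C) ^ l‖ ≠ ‖-ν (p : ℚ_[p])‖ := by
          rw [norm_neg]
          exact h2.ne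
        rw [sub_eq_add_neg, IsUltrametricDist.norm_add_eq_max_of_norm_ne_norm h3, norm_neg]
        exact le_max_right _ _
    set δ := min δ₀ ‖ν (p : ℚ_[p])‖ with hδdef
    have hδpos : 0 < δ := lt_min hδ₀ (norm_pos_iff.2 hνp0)
    have h2 : ‖(1 : C)‖ ≤ 0 := by
      refine N3_small (A := A * max δ⁻¹ 1) hb0 hb1 0 fun N _ => ?_
      have ha : ∀ l, ‖(N3_newt c N).coeff l‖ ≤ A * max δ⁻¹ 1 * ((p : ℝ)⁻¹) ^ N := by
        intro l
        have h3 := hcoef N l
        rw [norm_mul] at h3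
        have h4 : δ * ‖(N3_newt c N).coeff l‖ ≤ A * ρ ^ N * (p : ℝ) ^ N :=
          (mul_le_mul_of_nonneg_right (hδ l) (norm_nonneg _)).trans h3
        have h5 : ‖(N3_newt c N).coeff l‖ ≤ δ⁻¹ * (A * ρ ^ N * (p : ℝ) ^ N) := by
          rw [← div_eq_inv_mul, le_div_iff₀ hδpos, mul_comm]
          exact h4
        refine h5.trans ?_
        have h6 : A * ρ ^ N * (p : ℝ) ^ N ≤ A * ((p : ℝ)⁻¹) ^ N := by
          rw [mul_assoc]
          refine mul_le_mul_of_nonneg_left (le_trans ?_ (hρp N)) hA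
          exact mul_le_mul_of_nonneg_left (pow_le_pow_right₀ hp1.le (by omega)) (by positivity)
        calc δ⁻¹ * (A * ρ ^ N * (p : ℝ) ^ N) ≤ max δ⁻¹ 1 * (A * ((p : ℝ)⁻¹) ^ N) :=
              mul_le_mul (le_max_left _ _) h6 (by positivity) (by positivity)
          _ = _ := by ring
      have hg1 : g 1 = 1 := by simp [hg]
      have h3 := happ N 1
      rw [hg1, Nat.cast_one] at h3
      have h4 : ‖(N3_newt c N).eval (1 : C)‖ ≤ A * max δ⁻¹ 1 * ((p : ℝ)⁻¹) ^ N := by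
        rw [Polynomial.eval_eq_sum_range]
        refine IsUltrametricDist.norm_sum_le_of_forall_le_of_nonneg (by positivity)
          fun l _ => ?_
        rw [one_pow, mul_one]
        exact ha l
      have h5 : A * ρ ^ N ≤ A * max δ⁻¹ 1 * ((p : ℝ)⁻¹) ^ N := by
        have h6 : ρ ^ N ≤ ((p : ℝ)⁻¹) ^ N := by
          calc ρ ^ N = ρ ^ N * 1 := (mul_one _).symm
            _ ≤ ρ ^ N * (p : ℝ) ^ (2 * N) :=
              mul_le_mul_of_nonneg_left (one_le_pow₀ hp1.le) (by positivity)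
            _ ≤ _ := hρp N
        calc A * ρ ^ N ≤ A * ((p : ℝ)⁻¹) ^ N := mul_le_mul_of_nonneg_left h6 hA
          _ = A * 1 * ((p : ℝ)⁻¹) ^ N := by rw [mul_one]
          _ ≤ _ := mul_le_mul_of_nonneg_right
            (mul_le_mul_of_nonneg_left (le_max_right _ _) hA) (by positivity)
      have h6 : (1 : C) = (1 - (N3_newt c N).eval (1 : C)) + (N3_newt c N).eval (1 : C) := by
        ring
      rw [h6]
      exact (IsUltrametricDist.norm_add_le_max _ _).trans (max_le (h3.trans h5) h4)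
    rw [norm_one] at h2
    linarith

end Pool.Agent.Lib.MP_f399a8_nt.S
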