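import Pool.Agent.Lib.MP_f399a8_ntS.N2
import Pool.Agent.Lib.MP_f399a8_ntS.N3
import Pool.Agent.Lib.MP_f399a8_ntS.FxA
import Pool.Agent.Lib.MP_f399a8_ntS.KaA

/-!
# Functions concentrated near a line

PROOF of `ls_add, ls_smul`: concatenate the families (`Fin.append`).  `ls_subst`: substitute (the vector
`(a q, b q)` is multiplied by an invertible matrix).  `ls_hom`: `ν` is multiplicative; uniform continuity on
primitive vectors: each function `(c, d) ↦ ν (c a + d b)` is continuous on the compact set of integral vectors.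

PROOF of `near_box`.  Let `ρ = p^(-3)`, `m` from `dif_small`, `s = p^m`.  For `N : ℕ` let
`F_N (c, d) = ∑_{k ≤ N} (-1)^(N-k) choose N k * ν (d + k s c) ∈ LS ν`.  For `‖c‖ ≤ ‖d‖`, `d ≠ 0`:
`F_N (c, d) = ν d * dif ν N 1 (s c / d)`, so `‖F_N (c, d)‖ ≤ ‖ν d‖ ρ^N`.  At `(1, 0)`:
`F_N (1, 0) = ∑ (-1)^(N-k) choose N k * ν (k s) = ν s * dif ν N 0 1`.  Let `η = κ * ‖ν p‖^r > 0`.  There is `N` with
`ρ^N < η * ‖ν s * dif ν N 0 1‖`: otherwise `‖dif ν N 0 1‖ ≤ (η ‖ν s‖)⁻¹ ρ^N` for all `N` and `rigid` contradicts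
`hk`.  Let `g = max_{y ∈ ℤ_p} ‖F_N (1, y)‖` (attained, compactness), `g ≥ ‖F_N (1,0)‖ > 0`, attained at
`y₀`, and `F = (F_N (1, y₀))⁻¹ F_N ∈ LS ν`: `‖F (1, y)‖ ≤ 1` for `‖y‖ ≤ 1` with equality at `y₀`, and
`‖F (c, d)‖ ≤ η ‖ν d‖` for `‖c‖ ≤ ‖d‖`.
`p`-group argument: `G = Multiplicative ℤ_[p]` (or the subgroup `{‖u‖ ≤ 1}` of `ℚ_[p]`) acts on the functions
`f : ℚ_[p] → ℚ_[p] → C` by `(u • f) (c, d) = f (c, d + u c)`.  `M' = {f | ∀ ‖y‖ ≤ 1, ‖f (1, y)‖ < 1}`.  `N₀` = the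
subgroup `p^a ℤ_p` with `‖F (1, y + u) - F (1, y)‖ < 1` for `‖u‖ ≤ p^(-a)`, `‖y‖ ≤ 1` (uniform continuity).
`fixpt` gives `F₁` in the additive group generated by the translates of `F` (so in `LS ν`, with
`‖F₁ (c, d)‖ ≤ η ‖ν d‖` for `‖c‖ < ‖d‖`: `‖d + u c‖ = ‖d‖` and `‖ν (d + u c)‖ = ‖ν d‖`, because
`ν ((d + u c)/d)` has norm one: `‖ν x‖ = 1` for `‖x‖ = 1`, `nu_unit`), not in `M'`, with
`‖F₁ (1, y + u) - F₁ (1, y)‖ < 1` for `‖y‖, ‖u‖ ≤ 1`.  So with `c₀ = F₁ (1, 0)`, `‖c₀‖ = 1` and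
`F₂ = c₀⁻¹ F₁` satisfies `‖F₂ (1, y) - 1‖ < 1`, so `≤ κ`, for `‖y‖ ≤ 1`.  For `‖c‖ = 1`, `‖d‖ ≤ 1`:
`F₂ (c, d) = ν c F₂ (1, d/c)`.
-/

namespace Pool.Agent.Lib.MP_f399a8_nt.S

variable {p : ℕ} [Fact p.Prime] {C : Type*} [NormedField C] [NormedAlgebra ℚ_[p] C]
  [IsUltrametricDist C]

omit [NormedAlgebra ℚ_[p] C] [IsUltrametricDist C] in
private theorem N4_le_one {ν : ℚ_[p] →*₀ C} (hν : Continuous ν) {x : ℚ_[p]} (hx : ‖x‖ = 1) :
    ‖ν x‖ ≤ 1 := by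
  obtain ⟨M, hM⟩ := (isCompact_closedBall (0 : ℚ_[p]) 1).exists_bound_of_continuousOn
    hν.continuousOn
  by_contra hc
  push Not at hc
  obtain ⟨n, hn⟩ := pow_unbounded_of_one_lt M hc
  have h1 := hM (x ^ n) (by
    rw [mem_closedBall_zero_iff, norm_pow, hx, one_pow])
  rw [map_pow, norm_pow] at h1
  linarith

theorem nu_unit {ν : ℚ_[p] →*₀ C} (hν : Continuous ν) {x : ℚ_[p]} (hx : ‖x‖ = 1) : ‖ν x‖ = 1 := by
  refine le_antisymm (N4_le_one hν hx) ?_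
  have h1 := N4_le_one hν (x := x⁻¹) (by rw [norm_inv, hx, inv_one])
  rw [map_inv₀, norm_inv] at h1
  have h2 : ν x ≠ 0 := by
    rw [map_ne_zero]
    rintro rfl
    simp at hx
  have h3 : 0 < ‖ν x‖ := norm_pos_iff.2 h2
  rwa [inv_le_one₀ h3] at h1

omit [NormedAlgebra ℚ_[p] C] [IsUltrametricDist C] in
private theorem N4_zero {ν : ℚ_[p] →*₀ C} : (fun _ _ => 0 : ℚ_[p] → ℚ_[p] → C) ∈ LS ν :=
  ⟨0, fun _ => 0, fun _ => 0, fun _ => 0, fun q => q.elim0, fun c d => by simp⟩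

theorem ls_add {ν : ℚ_[p] →*₀ C} {f g : ℚ_[p] → ℚ_[p] → C} (hf : f ∈ LS ν) (hg : g ∈ LS ν) :
    (fun c d => f c d + g c d) ∈ LS ν := by
  obtain ⟨m, a, b, lam, h1, h2⟩ := hf
  obtain ⟨m', a', b', lam', h1', h2'⟩ := hg
  refine ⟨m + m', Fin.append a a', Fin.append b b', Fin.append lam lam', fun q => ?_,
    fun c d => ?_⟩
  · induction q using Fin.addCases with
    | left q =>
      rw [Fin.append_left, Fin.append_left]
      exact h1 q
    | right q =>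
      rw [Fin.append_right, Fin.append_right]
      exact h1' q
  · show f c d + g c d = _
    rw [Fin.sum_univ_add, h2, h2']
    simp only [Fin.append_left, Fin.append_right]

theorem ls_smul {ν : ℚ_[p] →*₀ C} (s : C) {f : ℚ_[p] → ℚ_[p] → C} (hf : f ∈ LS ν) :
    (fun c d => s * f c d) ∈ LS ν := by
  obtain ⟨m, a, b, lam, h1, h2⟩ := hf
  refine ⟨m, a, b, fun q => s * lam q, h1, fun c d => ?_⟩
  show s * f c d = _
  rw [h2, Finset.mul_sum]
  exact Finset.sum_congr rfl fun q _ => (mul_assoc _ _ _).symm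

theorem ls_subst {ν : ℚ_[p] →*₀ C} {f : ℚ_[p] → ℚ_[p] → C} (hf : f ∈ LS ν)
    {α β γ δ : ℚ_[p]} (hdet : α * δ - β * γ ≠ 0) :
    (fun c d => f (α * c + β * d) (γ * c + δ * d)) ∈ LS ν := by
  obtain ⟨m, a, b, lam, h1, h2⟩ := hf
  refine ⟨m, fun q => α * a q + γ * b q, fun q => β * a q + δ * b q, lam, fun q => ?_,
    fun c d => ?_⟩
  · by_contra hc
    push Not at hc
    obtain ⟨h3, h4⟩ := hc
    have h5 : (α * δ - β * γ) * a q = 0 := by linear_combination δ * h3 - γ * h4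
    have h6 : (α * δ - β * γ) * b q = 0 := by linear_combination α * h4 - β * h3
    rcases h1 q with h7 | h7
    · exact h7 ((mul_eq_zero.1 h5).resolve_left hdet)
    · exact h7 ((mul_eq_zero.1 h6).resolve_left hdet)
  · show f (α * c + β * d) (γ * c + δ * d) = _
    rw [h2]
    refine Finset.sum_congr rfl fun q _ => ?_
    congr 2
    ring

theorem ls_hom {ν : ℚ_[p] →*₀ C} (hν : Continuous ν) {f : ℚ_[p] → ℚ_[p] → C} (hf : f ∈ LS ν) :
    HomC ν f := by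
  obtain ⟨m, a, b, lam, h1, h2⟩ := hf
  refine ⟨fun s c d _ => ?_, fun ε hε => ?_⟩
  · rw [h2, h2, Finset.mul_sum]
    refine Finset.sum_congr rfl fun q _ => ?_
    have h3 : s * c * a q + s * d * b q = s * (c * a q + d * b q) := by ring
    rw [h3, map_mul]
    ring
  · have hcont : Continuous fun x : ℚ_[p] × ℚ_[p] => f x.1 x.2 := by
      have h3 : (fun x : ℚ_[p] × ℚ_[p] => f x.1 x.2) =
          fun x => ∑ q, lam q * ν (x.1 * a q + x.2 * b q) := by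
        funext x
        exact h2 x.1 x.2
      rw [h3]
      refine continuous_finsetSum _ fun q _ => ?_
      refine continuous_const.mul (hν.comp ?_)
      fun_prop
    have huc := ((isCompact_closedBall (0 : ℚ_[p]) 1).prod
      (isCompact_closedBall (0 : ℚ_[p]) 1)).uniformContinuousOn_of_continuous hcont.continuousOn
    obtain ⟨δ, hδ, hδ'⟩ := Metric.uniformContinuousOn_iff.1 huc ε hε
    have hpinv : (p : ℝ)⁻¹ < 1 :=
      inv_lt_one_of_one_lt₀ (by exact_mod_cast (Fact.out : p.Prime).one_lt)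
    obtain ⟨k, hk⟩ := exists_pow_lt_of_lt_one hδ hpinv
    refine ⟨k, fun c d c' d' hc hc' h3 h4 => ?_⟩
    have hkk : (p : ℝ) ^ (-(k : ℤ)) < δ := by
      rw [zpow_neg, zpow_natCast, ← inv_pow]
      exact hk
    have hmem : ∀ {c d : ℚ_[p]}, Prim c d → (c, d) ∈
        Metric.closedBall (0 : ℚ_[p]) 1 ×ˢ Metric.closedBall (0 : ℚ_[p]) 1 := by
      intro c d h
      unfold Prim at h
      refine Set.mk_mem_prod ?_ ?_
      · rw [mem_closedBall_zero_iff, ← h]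
        exact le_max_left _ _
      · rw [mem_closedBall_zero_iff, ← h]
        exact le_max_right _ _
    have h5 := hδ' (c, d) (hmem hc) (c', d') (hmem hc') (by
      rw [Prod.dist_eq, dist_eq_norm, dist_eq_norm]
      exact max_lt (h3.trans_lt hkk) (h4.trans_lt hkk))
    rw [dist_eq_norm] at h5
    exact h5.le

/-- the module of functions, with the action of `ℤ_p` -/
private def N4_M (p : ℕ) [Fact p.Prime] (C : Type*) [NormedField C] : Type _ :=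
  ℚ_[p] → ℚ_[p] → C

private def N4_mk (f : ℚ_[p] → ℚ_[p] → C) : N4_M p C := f

private noncomputable instance N4_inst1 : AddCommGroup (N4_M p C) :=
  inferInstanceAs (AddCommGroup (ℚ_[p] → ℚ_[p] → C))

private noncomputable instance N4_inst2 :
    DistribMulAction (Multiplicative ℤ_[p]) (N4_M p C) where
  smul u f := fun c d => f c (d + ((Multiplicative.toAdd u : ℤ_[p]) : ℚ_[p]) * c)
  one_smul f := by
    funext c d
    show f c (d + ((0 : ℤ_[p]) : ℚ_[p]) * c) = f c d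
    simp
  mul_smul u v f := by
    funext c d
    show f c (d + ((Multiplicative.toAdd u + Multiplicative.toAdd v : ℤ_[p]) : ℚ_[p]) * c) =
      f c (d + ((Multiplicative.toAdd u : ℤ_[p]) : ℚ_[p]) * c +
        ((Multiplicative.toAdd v : ℤ_[p]) : ℚ_[p]) * c)
    push_cast
    congr 1
    ring
  smul_zero u := rfl
  smul_add u f g := rfl

omit [NormedAlgebra ℚ_[p] C] [IsUltrametricDist C] in
private theorem N4_smul (u : Multiplicative ℤ_[p]) (f : N4_M p C) (c d : ℚ_[p]) :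
    (u • f : N4_M p C) c d = f c (d + ((Multiplicative.toAdd u : ℤ_[p]) : ℚ_[p]) * c) := rfl

/-- the functions which are small on the first half -/
private def N4_small (p : ℕ) [Fact p.Prime] (C : Type*) [NormedField C] [IsUltrametricDist C] :
    AddSubgroup (N4_M p C) where
  carrier := {f | ∀ y : ℚ_[p], ‖y‖ ≤ 1 → ‖f 1 y‖ < 1}
  zero_mem' := by
    intro y _
    show ‖(0 : C)‖ < 1
    simp
  add_mem' := by
    intro f g hf hg y hy
    exact (IsUltrametricDist.norm_add_le_max (f 1 y) (g 1 y)).trans_lt (max_lt (hf y hy) (hg y hy))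
  neg_mem' := by
    intro f hf y hy
    show ‖-(f 1 y)‖ < 1
    rw [norm_neg]
    exact hf y hy

/-- the congruence subgroups of `ℤ_p` -/
private def N4_cong (p : ℕ) [Fact p.Prime] (a : ℕ) : Subgroup (Multiplicative ℤ_[p]) where
  carrier := {u | ‖(Multiplicative.toAdd u : ℤ_[p])‖ ≤ (p : ℝ) ^ (-(a : ℤ))}
  one_mem' := by
    show ‖(0 : ℤ_[p])‖ ≤ _
    rw [norm_zero]
    positivity
  mul_mem' := by
    intro u v hu hv
    exact (IsUltrametricDist.norm_add_le_max (Multiplicative.toAdd u)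
      (Multiplicative.toAdd v)).trans (max_le hu hv)
  inv_mem' := by
    intro u hu
    show ‖-(Multiplicative.toAdd u : ℤ_[p])‖ ≤ _
    rw [norm_neg]
    exact hu

private theorem N4_unit_add {c d : ℚ_[p]} (h : ‖c‖ < ‖d‖) (u : ℤ_[p]) :
    ‖d + (u : ℚ_[p]) * c‖ = ‖d‖ := by
  have h1 : ‖(u : ℚ_[p]) * c‖ < ‖d‖ := by
    rw [norm_mul]
    have h2 : ‖(u : ℚ_[p])‖ ≤ 1 := u.2
    calc ‖(u : ℚ_[p])‖ * ‖c‖ ≤ 1 * ‖c‖ := mul_le_mul_of_nonneg_right h2 (norm_nonneg _)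
      _ < ‖d‖ := by rw [one_mul]; exact h
  rw [IsUltrametricDist.norm_add_eq_max_of_norm_ne_norm h1.ne', max_eq_left h1.le]

/-- the argument with the `p`-group -/
private theorem N4_avg {ν : ℚ_[p] →*₀ C} (hν : Continuous ν) {F : ℚ_[p] → ℚ_[p] → C}
    (hF : F ∈ LS ν) (hF1 : ∀ y : ℚ_[p], ‖y‖ ≤ 1 → ‖F 1 y‖ ≤ 1) {y₀ : ℚ_[p]} (hy₀ : ‖y₀‖ ≤ 1)
    (hFy₀ : ‖F 1 y₀‖ = 1) {η : ℝ} (hη : 0 ≤ η)
    (hF2 : ∀ c d : ℚ_[p], ‖c‖ < ‖d‖ → ‖F c d‖ ≤ η * ‖ν d‖) :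
    ∃ f ∈ LS ν, (∀ y : ℚ_[p], ‖y‖ ≤ 1 → ‖f 1 y - 1‖ < 1) ∧
      ∀ c d : ℚ_[p], ‖c‖ < ‖d‖ → ‖f c d‖ ≤ η * ‖ν d‖ := by
  classical
  have hpr : p.Prime := Fact.out
  -- uniform continuity
  obtain ⟨a, ha⟩ : ∃ a : ℕ, ∀ y u : ℚ_[p], ‖y‖ ≤ 1 → ‖u‖ ≤ (p : ℝ) ^ (-(a : ℤ)) → ‖u‖ ≤ 1 →
      ‖F 1 (y + u) - F 1 y‖ < 1 := by
    obtain ⟨a, ha⟩ := (ls_hom hν hF).2 (1 / 2) (by norm_num)
    refine ⟨a, fun y u hy hu hu1 => ?_⟩
    have hyu : ‖y + u‖ ≤ 1 := (IsUltrametricDist.norm_add_le_max _ _).trans (max_le hy hu1)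
    have h1 := ha 1 (y + u) 1 y (by unfold Prim; rw [norm_one, max_eq_left hyu])
      (by unfold Prim; rw [norm_one, max_eq_left hy])
      (by rw [sub_self, norm_zero]; positivity) (by rw [add_sub_cancel_left]; exact hu)
    exact h1.trans_lt (by norm_num)
  have hz1 : ∀ u : ℤ_[p], ‖(u : ℚ_[p])‖ ≤ 1 := fun u => u.2
  have hyz : ∀ (y : ℚ_[p]) (u : ℤ_[p]), ‖y‖ ≤ 1 → ‖y + (u : ℚ_[p]) * 1‖ ≤ 1 := by
    intro y u hy
    rw [mul_one]
    exact (IsUltrametricDist.norm_add_le_max _ _).trans (max_le hy (hz1 u))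
  obtain ⟨F₁, hF₁, hF₁n, hF₁g⟩ := fixpt hpr (N4_small p C)
    (fun g m hm y hy => by
      rw [N4_smul]
      exact hm _ (hyz y _ hy)) (N4_mk F)
    (fun h => absurd (h y₀ hy₀) (by
      show ¬ ‖F 1 y₀‖ < 1
      rw [hFy₀]
      exact lt_irrefl _))
    (fun y hy => by
      show ‖p • F 1 y‖ < 1
      rw [nsmul_eq_mul, norm_mul]
      have h2 : ‖(p : C)‖ < 1 := by
        rw [norm_p_eq p C]
        exact inv_lt_one_of_one_lt₀ (by exact_mod_cast hpr.one_lt)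
      calc ‖(p : C)‖ * ‖F 1 y‖ ≤ ‖(p : C)‖ * 1 :=
            mul_le_mul_of_nonneg_left (hF1 y hy) (norm_nonneg _)
        _ < 1 := by rw [mul_one]; exact h2)
    (N4_cong p a)
    (fun h hh g y hy => by
      have h1 : (h • (g • N4_mk F) - g • N4_mk F : N4_M p C) 1 y =
          F 1 (y + ((Multiplicative.toAdd h : ℤ_[p]) : ℚ_[p]) * 1 +
            ((Multiplicative.toAdd g : ℤ_[p]) : ℚ_[p]) * 1) -
          F 1 (y + ((Multiplicative.toAdd g : ℤ_[p]) : ℚ_[p]) * 1) := rfl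
      rw [h1]
      have h2 := ha (y + ((Multiplicative.toAdd g : ℤ_[p]) : ℚ_[p]) * 1)
        ((Multiplicative.toAdd h : ℤ_[p]) : ℚ_[p]) (hyz y _ hy) hh (hz1 _)
      have h3 : y + ((Multiplicative.toAdd h : ℤ_[p]) : ℚ_[p]) * 1 +
            ((Multiplicative.toAdd g : ℤ_[p]) : ℚ_[p]) * 1 =
          y + ((Multiplicative.toAdd g : ℤ_[p]) : ℚ_[p]) * 1 +
            ((Multiplicative.toAdd h : ℤ_[p]) : ℚ_[p]) := by ring
      rw [h3]
      exact h2)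
    ((Finset.range (p ^ a)).image fun k : ℕ => Multiplicative.ofAdd (k : ℤ_[p]))
    (fun g => by
      refine ⟨Multiplicative.ofAdd (((Multiplicative.toAdd g).appr a : ℕ) : ℤ_[p]), ?_, ?_⟩
      · exact Finset.mem_image.2 ⟨_, Finset.mem_range.2 (PadicInt.appr_lt _ _), rfl⟩
      · show ‖-(((Multiplicative.toAdd g).appr a : ℕ) : ℤ_[p]) + Multiplicative.toAdd g‖ ≤ _
        rw [PadicInt.norm_le_pow_iff_mem_span_pow, neg_add_eq_sub]
        exact PadicInt.appr_spec _ _)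
    (fun g => by
      refine ⟨a, ?_⟩
      show ‖(Multiplicative.toAdd (g ^ (p ^ a)) : ℤ_[p])‖ ≤ _
      rw [toAdd_pow, nsmul_eq_mul, norm_mul]
      push_cast
      rw [norm_pow, PadicInt.norm_p, zpow_neg, zpow_natCast, inv_pow]
      calc ((p : ℝ) ^ a)⁻¹ * ‖(Multiplicative.toAdd g : ℤ_[p])‖ ≤ ((p : ℝ) ^ a)⁻¹ * 1 :=
            mul_le_mul_of_nonneg_left (PadicInt.norm_le_one _) (by positivity)
        _ = _ := mul_one _)
  -- properties of `F₁`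
  have hprop : ((F₁ : ℚ_[p] → ℚ_[p] → C) ∈ LS ν) ∧ (∀ y : ℚ_[p], ‖y‖ ≤ 1 → ‖F₁ 1 y‖ ≤ 1) ∧
      ∀ c d : ℚ_[p], ‖c‖ < ‖d‖ → ‖F₁ c d‖ ≤ η * ‖ν d‖ := by
    refine AddSubgroup.closure_induction (p := fun (f : N4_M p C) _ =>
      ((f : ℚ_[p] → ℚ_[p] → C) ∈ LS ν) ∧ (∀ y : ℚ_[p], ‖y‖ ≤ 1 → ‖f 1 y‖ ≤ 1) ∧
      ∀ c d : ℚ_[p], ‖c‖ < ‖d‖ → ‖f c d‖ ≤ η * ‖ν d‖) ?_ ?_ ?_ ?_ hF₁
    · rintro _ ⟨g, rfl⟩
      refine ⟨?_, fun y hy => hF1 _ (hyz y _ hy), fun c d hcd => ?_⟩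
      · have h1 := ls_subst hF (α := 1) (β := 0)
          (γ := ((Multiplicative.toAdd g : ℤ_[p]) : ℚ_[p])) (δ := 1) (by simp)
        have h2 : (fun c d => F (1 * c + 0 * d)
            (((Multiplicative.toAdd g : ℤ_[p]) : ℚ_[p]) * c + 1 * d)) =
            (fun c d => F c (d + ((Multiplicative.toAdd g : ℤ_[p]) : ℚ_[p]) * c)) := by
          funext c d
          congr 1
          · ring
          · ring
        rw [h2] at h1
        exact h1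
      · have h1 : ‖d + ((Multiplicative.toAdd g : ℤ_[p]) : ℚ_[p]) * c‖ = ‖d‖ :=
          N4_unit_add hcd _
        have h2 := hF2 c (d + ((Multiplicative.toAdd g : ℤ_[p]) : ℚ_[p]) * c)
          (by rw [h1]; exact hcd)
        have hd : d ≠ 0 := by
          rintro rfl
          rw [norm_zero] at hcd
          exact absurd hcd (not_lt.2 (norm_nonneg _))
        have h3 : ‖ν (d + ((Multiplicative.toAdd g : ℤ_[p]) : ℚ_[p]) * c)‖ = ‖ν d‖ := by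
          have h4 : d + ((Multiplicative.toAdd g : ℤ_[p]) : ℚ_[p]) * c =
              d * ((d + ((Multiplicative.toAdd g : ℤ_[p]) : ℚ_[p]) * c) / d) := by
            field_simp
          rw [h4, map_mul, norm_mul, nu_unit hν (x := (d +
            ((Multiplicative.toAdd g : ℤ_[p]) : ℚ_[p]) * c) / d) (by
              rw [norm_div, h1, div_self (norm_ne_zero_iff.2 hd)]), mul_one]
        rw [h3] at h2
        exact h2
    · refine ⟨N4_zero, fun y _ => ?_, fun c d _ => ?_⟩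
      · show ‖(0 : C)‖ ≤ 1
        simp
      · show ‖(0 : C)‖ ≤ _
        rw [norm_zero]
        positivity
    · rintro f g _ _ ⟨h1, h2, h3⟩ ⟨h1', h2', h3'⟩
      exact ⟨ls_add h1 h1', fun y hy => (IsUltrametricDist.norm_add_le_max _ _).trans
        (max_le (h2 y hy) (h2' y hy)), fun c d hcd =>
        (IsUltrametricDist.norm_add_le_max _ _).trans (max_le (h3 c d hcd) (h3' c d hcd))⟩
    · rintro f _ ⟨h1, h2, h3⟩
      refine ⟨?_, fun y hy => ?_, fun c d hcd => ?_⟩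
      · have h4 := ls_smul (-1 : C) h1
        have h5 : (fun c d => (-1 : C) * (f : ℚ_[p] → ℚ_[p] → C) c d) = (-f : N4_M p C) := by
          funext c d
          show (-1 : C) * f c d = -(f c d)
          ring
        rw [h5] at h4
        exact h4
      · show ‖-(f 1 y)‖ ≤ 1
        rw [norm_neg]
        exact h2 y hy
      · show ‖-(f c d)‖ ≤ _
        rw [norm_neg]
        exact h3 c d hcd
  obtain ⟨hp1, hp2, hp3⟩ := hprop
  obtain ⟨y₁, hy₁, hy₁'⟩ : ∃ y : ℚ_[p], ‖y‖ ≤ 1 ∧ 1 ≤ ‖F₁ 1 y‖ := by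
    by_contra hc
    push Not at hc
    exact hF₁n hc
  have hdif : ∀ y : ℚ_[p], ‖y‖ ≤ 1 → ‖F₁ 1 y - F₁ 1 0‖ < 1 := by
    intro y hy
    let yy : ℤ_[p] := ⟨y, hy⟩
    have h1 := hF₁g (Multiplicative.ofAdd yy) 0 (by rw [norm_zero]; exact zero_le_one)
    have h2 : (Multiplicative.ofAdd yy • F₁ - F₁ : N4_M p C) 1 0 =
        F₁ 1 (0 + y * 1) - F₁ 1 0 := rfl
    rw [h2, zero_add, mul_one] at h1
    exact h1
  have hc0 : ‖F₁ 1 0‖ = 1 := by
    refine le_antisymm (hp2 0 (by rw [norm_zero]; exact zero_le_one)) ?_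
    by_contra hc
    push Not at hc
    have h1 : F₁ 1 y₁ = (F₁ 1 y₁ - F₁ 1 0) + F₁ 1 0 := by ring
    have h2 : ‖F₁ 1 y₁‖ < 1 := by
      rw [h1]
      exact (IsUltrametricDist.norm_add_le_max _ _).trans_lt (max_lt (hdif y₁ hy₁) hc)
    linarith
  have hc0' : F₁ 1 0 ≠ 0 := by
    intro h
    rw [h, norm_zero] at hc0
    exact zero_ne_one hc0
  refine ⟨fun c d => (F₁ 1 0)⁻¹ * F₁ c d, ls_smul _ hp1, fun y hy => ?_, fun c d hcd => ?_⟩
  · have h1 : (F₁ 1 0)⁻¹ * F₁ 1 y - 1 = (F₁ 1 0)⁻¹ * (F₁ 1 y - F₁ 1 0) := by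
      field_simp
    rw [h1, norm_mul, norm_inv, hc0, inv_one, one_mul]
    exact hdif y hy
  · rw [norm_mul, norm_inv, hc0, inv_one, one_mul]
    exact hp3 c d hcd

theorem near_box {ν : ℚ_[p] →*₀ C} (hν : Continuous ν) (h1 : ‖ν (p : ℚ_[p])‖ < 1)
    (hk : ¬ ∃ l : ℕ, ∀ x : ℚ_[p], ν x = (algebraMap ℚ_[p] C x) ^ l) {κ : ℝ} (hκ0 : 0 < κ)
    (hκ : ∀ c : C, ‖c‖ < 1 → ‖c‖ ≤ κ) (r : ℕ) :
    ∃ f ∈ LS ν, (∀ c d : ℚ_[p], ‖c‖ = 1 → ‖d‖ ≤ 1 → ‖f c d - ν c‖ ≤ κ) ∧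
      ∀ c d : ℚ_[p], ‖c‖ < 1 → ‖d‖ = 1 → ‖f c d‖ ≤ κ * ‖ν (p : ℚ_[p])‖ ^ r := by
  have hpr : p.Prime := Fact.out
  have hp1 : 1 < (p : ℝ) := by exact_mod_cast hpr.one_lt
  have hp0 : 0 < (p : ℝ) := by linarith
  have hρ : 0 < (p : ℝ) ^ (-(3 : ℤ)) := by positivity
  set ρ : ℝ := (p : ℝ) ^ (-(3 : ℤ)) with hρdef
  obtain ⟨m, _, hdif⟩ := dif_small hν hρ
  set s : ℚ_[p] := (p : ℚ_[p]) ^ m with hs
  have hsn : ‖s‖ = (p : ℝ) ^ (-(m : ℤ)) := by
    rw [hs, norm_pow, Padic.norm_p, inv_pow, zpow_neg, zpow_natCast]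
  have hs0 : s ≠ 0 := pow_ne_zero _ (by exact_mod_cast hpr.ne_zero)
  have hνs : 0 < ‖ν s‖ := norm_pos_iff.2 ((map_ne_zero ν).2 hs0)
  have hνp : 0 < ‖ν (p : ℚ_[p])‖ :=
    norm_pos_iff.2 ((map_ne_zero ν).2 (by exact_mod_cast hpr.ne_zero))
  set η : ℝ := κ * ‖ν (p : ℚ_[p])‖ ^ r with hη
  have hη0 : 0 < η := by positivity
  -- the functions `F_N`
  set FN : ℕ → ℚ_[p] → ℚ_[p] → C := fun N c d =>
    ∑ k ∈ Finset.range (N + 1), (-1 : C) ^ (N - k) * (N.choose k : C) * ν (d + k * (s * c)) with hFN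
  have hFLS : ∀ N, FN N ∈ LS ν := by
    intro N
    refine ⟨N + 1, fun q => (q : ℕ) * s, fun _ => 1, fun q => (-1 : C) ^ (N - (q : ℕ)) *
      (N.choose q : C), fun q => Or.inr one_ne_zero, fun c d => ?_⟩
    simp only [hFN]
    rw [Finset.sum_range]
    refine Finset.sum_congr rfl fun q _ => ?_
    congr 2
    ring
  have hF1 : ∀ N (c d : ℚ_[p]), ‖c‖ ≤ ‖d‖ → d ≠ 0 → ‖FN N c d‖ ≤ ‖ν d‖ * ρ ^ N := by
    intro N c d hcd hd
    have h2 : FN N c d = ν d * dif ν N (1 + 0) (s * (c / d)) := by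
      simp only [hFN, dif]
      rw [Finset.mul_sum]
      refine Finset.sum_congr rfl fun k _ => ?_
      have h3 : d + k * (s * c) = d * (1 + 0 + k * (s * (c / d))) := by
        field_simp
        ring
      rw [h3, map_mul]
      ring
    rw [h2, norm_mul]
    refine mul_le_mul_of_nonneg_left (hdif N _ _ ?_ ?_) (norm_nonneg _)
    · rw [norm_mul, hsn, norm_div]
      have h4 : ‖c‖ / ‖d‖ ≤ 1 := div_le_one_of_le₀ hcd (norm_nonneg _)
      calc (p : ℝ) ^ (-(m : ℤ)) * (‖c‖ / ‖d‖) ≤ (p : ℝ) ^ (-(m : ℤ)) * 1 :=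
            mul_le_mul_of_nonneg_left h4 (by positivity)
        _ = _ := mul_one _
    · rw [norm_zero]
      positivity
  have hF10 : ∀ N, FN N 1 0 = ν s * dif ν N 0 1 := by
    intro N
    simp only [hFN, dif]
    rw [Finset.mul_sum]
    refine Finset.sum_congr rfl fun k _ => ?_
    have h3 : (0 : ℚ_[p]) + k * (s * 1) = s * (0 + k * 1) := by ring
    rw [h3, map_mul]
    ring
  obtain ⟨N, hN⟩ : ∃ N : ℕ, ρ ^ N < η * ‖ν s * dif ν N 0 1‖ := by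
    by_contra hc
    push Not at hc
    refine hk (rigid hν h1 (A := (η * ‖ν s‖)⁻¹) (ρ := ρ) hρ.le le_rfl fun N => ?_)
    have h2 := hc N
    rw [norm_mul, ← mul_assoc] at h2
    rw [← div_eq_inv_mul, le_div_iff₀ (by positivity), mul_comm]
    exact h2
  rw [← hF10] at hN
  have hcontF : Continuous fun y : ℚ_[p] => ‖FN N 1 y‖ := by
    simp only [hFN]
    refine (continuous_finsetSum _ fun k _ => ?_).norm
    exact continuous_const.mul (hν.comp (by fun_prop))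
  obtain ⟨y₀, hy₀, hmax⟩ := (isCompact_closedBall (0 : ℚ_[p]) 1).exists_isMaxOn
    ⟨0, by rw [mem_closedBall_zero_iff, norm_zero]; exact zero_le_one⟩ hcontF.continuousOn
  have hy₀' : ‖y₀‖ ≤ 1 := mem_closedBall_zero_iff.1 hy₀
  have hmax' : ∀ y : ℚ_[p], ‖y‖ ≤ 1 → ‖FN N 1 y‖ ≤ ‖FN N 1 y₀‖ := fun y hy =>
    hmax (mem_closedBall_zero_iff.2 hy)
  have hg0 : ‖FN N 1 0‖ ≤ ‖FN N 1 y₀‖ := hmax' 0 (by rw [norm_zero]; exact zero_le_one)
  have hgpos : 0 < ‖FN N 1 0‖ := by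
    have h2 : 0 < η * ‖FN N 1 0‖ := lt_of_le_of_lt (by positivity) hN
    exact pos_of_mul_pos_right h2 hη0.le
  have hgpos' : 0 < ‖FN N 1 y₀‖ := hgpos.trans_le hg0
  have hgne : FN N 1 y₀ ≠ 0 := norm_pos_iff.1 hgpos'
  obtain ⟨f, hf, hf1, hf2⟩ := N4_avg hν (F := fun c d => (FN N 1 y₀)⁻¹ * FN N c d)
    (ls_smul _ (hFLS N)) (fun y hy => by
      rw [norm_mul, norm_inv, inv_mul_le_iff₀ hgpos', mul_one]
      exact hmax' y hy) hy₀' (by
      rw [norm_mul, norm_inv, inv_mul_cancel₀ hgpos'.ne']) hη0.le (fun c d hcd => by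
      have hd : d ≠ 0 := by
        rintro rfl
        rw [norm_zero] at hcd
        exact absurd hcd (not_lt.2 (norm_nonneg _))
      rw [norm_mul, norm_inv, inv_mul_le_iff₀ hgpos']
      refine (hF1 N c d hcd.le hd).trans ?_
      have h3 : ρ ^ N ≤ η * ‖FN N 1 y₀‖ :=
        hN.le.trans (mul_le_mul_of_nonneg_left hg0 hη0.le)
      calc ‖ν d‖ * ρ ^ N ≤ ‖ν d‖ * (η * ‖FN N 1 y₀‖) :=
            mul_le_mul_of_nonneg_left h3 (norm_nonneg _)
        _ = ‖FN N 1 y₀‖ * (η * ‖ν d‖) := by ring)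
  refine ⟨f, hf, fun c d hc hd => ?_, fun c d hc hd => ?_⟩
  · have hc0 : c ≠ 0 := by
      rintro rfl
      rw [norm_zero] at hc
      exact zero_ne_one hc
    have h2 := (ls_hom hν hf).1 c 1 (d / c) hc0
    have h3 : c * (d / c) = d := by field_simp
    rw [mul_one, h3] at h2
    have h4 : f c d - ν c = ν c * (f 1 (d / c) - 1) := by
      rw [h2]
      ring
    rw [h4, norm_mul, nu_unit hν hc, one_mul]
    refine hκ _ (hf1 _ ?_)
    rw [norm_div, hc, div_one]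
    exact hd
  · have h2 := hf2 c d (by rw [hd]; exact hc)
    rw [nu_unit hν hd, mul_one] at h2
    exact h2

end Pool.Agent.Lib.MP_f399a8_nt.S
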