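import Pool.Agent.Lib.MP_f399a8_ntS.D1B

/-!
# `Om` on unipotent groups of positive, negative pairs and ties

PROOF.  Let `c` be as in `D1`, `t` with `IsDg (e0 v) t`.
* `P1`: let `x ∈ U (Pos v)`.  For `M` large `k := (t^M)⁻¹ * x * t^M ∈ Kp`: its entries are
  `p ^ (M * (e j - e i)) * x i j` (`dg_pow_conj'`) with `e i < e j` for `Pos v i j` (`e0_lt`), and `1` on the diagonal.
  `x = t^M * k * (t^M)⁻¹`, so `RelC v c k x`, `Om v k = 1`, `dl k i = 1` (`om_kp`, `dl_kp`):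
  `dl x i ≤ (Om v x) ^ c` and `1 ≤ Om v x` (`RelC_le`).
* `P1m`: let `x ∈ U (Neg v)`.  Now `k := t^M * x * (t^M)⁻¹ ∈ Kp` for `M` large, `RelC v c x k`:
  `dl x i ≤ dl k i * (Om k / Om x) ^ c = (Om v x) ^ (-c)` and `Om v x ≤ 1`.
* `om_tie`: let `x ∈ U (Tie v)`.  For `s : ℝ`, `s > 0` let `v' i = v i + s * i` (`i : Fin n` as a real number).
  `x ∈ U (Pos v')` (`Tie v i j` means `j < i`, `v i = v j`, so `v' j < v' i`), so `1 ≤ Om v' x` by `P1`.
  Similarly with `v'' i = v i - s * i`: `x ∈ U (Neg v'')`, so `Om v'' x ≤ 1`.  For `s → 0` `Om v' x` and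
  `Om v'' x` tend to `Om v x` (`Real.continuous_const_rpow`, `dl x i > 0`, finite product).  So `Om v x = 1`.
-/

namespace Pool.Agent.Lib.MP_f399a8_nt.S

open Matrix Filter Topology

variable {p : ℕ} [Fact p.Prime] {n : ℕ}

theorem P1A_bound (x : SLp p n) : ∃ M : ℕ, ∀ i j, ‖x.1 i j‖ ≤ (p : ℝ) ^ M := by
  have hp1 : (1 : ℝ) < (p : ℝ) := by exact_mod_cast (Fact.out : p.Prime).one_lt
  obtain ⟨M, hM⟩ := pow_unbounded_of_one_lt (∑ i, ∑ j, ‖x.1 i j‖) hp1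
  refine ⟨M, fun i j => ?_⟩
  refine le_trans ?_ hM.le
  refine le_trans ?_ (Finset.single_le_sum (f := fun i => ∑ j, ‖x.1 i j‖)
    (fun i _ => Finset.sum_nonneg fun j _ => norm_nonneg _) (Finset.mem_univ i))
  exact Finset.single_le_sum (f := fun j => ‖x.1 i j‖) (fun j _ => norm_nonneg _)
    (Finset.mem_univ j)

theorem P1A_kp {e : Fin n → ℤ} {t : SLp p n} (ht : IsDg e t) {R : Fin n → Fin n → Prop}
    {x : SLp p n} (hx : x ∈ U p R) (h : ∀ i j, R i j → e i < e j) :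
    ∃ M : ℕ, (t ^ M)⁻¹ * x * t ^ M ∈ Kp p n := by
  have hp1 : (1 : ℝ) < (p : ℝ) := by exact_mod_cast (Fact.out : p.Prime).one_lt
  have hp0 : (0 : ℝ) < (p : ℝ) := by positivity
  obtain ⟨M, hM⟩ := P1A_bound x
  refine ⟨M, fun i j => ?_⟩
  rw [dg_pow_conj' ht M x i j]
  by_cases hR : R i j
  · have h1 : e i + 1 ≤ e j := h i j hR
    rw [norm_mul, norm_zpow, Padic.norm_p, _root_.inv_zpow']
    have h2 : (p : ℝ) ^ (-((M : ℤ) * (e j - e i))) ≤ (p : ℝ) ^ (-(M : ℤ)) := by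
      refine zpow_le_zpow_right₀ hp1.le ?_
      have : (0 : ℤ) ≤ M := Int.natCast_nonneg M
      nlinarith
    calc (p : ℝ) ^ (-((M : ℤ) * (e j - e i))) * ‖x.1 i j‖
        ≤ (p : ℝ) ^ (-(M : ℤ)) * (p : ℝ) ^ M :=
          mul_le_mul h2 (hM i j) (norm_nonneg _) (by positivity)
      _ = 1 := by
          rw [_root_.zpow_neg, zpow_natCast]
          exact inv_mul_cancel₀ (by positivity)
  · rw [hx i j hR]
    by_cases hij : i = j
    · subst hij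
      simp
    · rw [Matrix.one_apply_ne hij]
      simp

theorem P1A_kp' {e : Fin n → ℤ} {t : SLp p n} (ht : IsDg e t) {R : Fin n → Fin n → Prop}
    {x : SLp p n} (hx : x ∈ U p R) (h : ∀ i j, R i j → e j < e i) :
    ∃ M : ℕ, t ^ M * x * (t ^ M)⁻¹ ∈ Kp p n := by
  obtain ⟨M, hM⟩ := P1A_kp (dg_inv ht) hx (fun i j hij => neg_lt_neg (h i j hij))
  refine ⟨M, ?_⟩
  rwa [inv_pow, inv_inv] at hM

theorem P1 (p : ℕ) [Fact p.Prime] (v : Fin n → ℝ) : ∃ c : ℝ, 0 < c ∧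
    ∀ x ∈ U p (Pos v), 1 ≤ Om v x ∧ ∀ i, dl x i ≤ (Om v x) ^ c := by
  obtain ⟨c, hc, hD⟩ := D1 p v
  obtain ⟨t, ht⟩ := dg_exists (p := p) (e0 v) (e0_sum v)
  refine ⟨c, hc, fun x hx => ?_⟩
  obtain ⟨M, hM⟩ := P1A_kp ht hx (fun i j hij => e0_lt hij.2)
  have h := hD t ht M ((t ^ M)⁻¹ * x * t ^ M)
  have h1 : t ^ M * ((t ^ M)⁻¹ * x * t ^ M) * (t ^ M)⁻¹ = x := by group
  rw [h1] at h
  have h2 := RelC_le hc h
  rw [om_kp v hM] at h2
  refine ⟨h2, fun i => ?_⟩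
  have h3 := (h i).1
  rwa [dl_kp hM, om_kp v hM, one_mul, div_one] at h3

theorem P1m (p : ℕ) [Fact p.Prime] (v : Fin n → ℝ) : ∃ c : ℝ, 0 < c ∧
    ∀ x ∈ U p (Neg v), Om v x ≤ 1 ∧ ∀ i, dl x i ≤ (Om v x) ^ (-c) := by
  obtain ⟨c, hc, hD⟩ := D1 p v
  obtain ⟨t, ht⟩ := dg_exists (p := p) (e0 v) (e0_sum v)
  refine ⟨c, hc, fun x hx => ?_⟩
  obtain ⟨M, hM⟩ := P1A_kp' ht hx (fun i j hij => e0_lt hij.2)
  have h := hD t ht M x
  have h2 := RelC_le hc h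
  rw [om_kp v hM] at h2
  refine ⟨h2, fun i => ?_⟩
  have h3 := (h i).2
  rw [dl_kp hM, om_kp v hM, one_mul] at h3
  rwa [one_div, Real.inv_rpow (om_pos v x).le, ← Real.rpow_neg (om_pos v x).le] at h3

theorem P1A_cont (v : Fin n → ℝ) (w : Fin n → ℝ) (x : SLp p n) :
    Continuous fun s : ℝ => Om (fun i => v i + s * w i) x := by
  unfold Om
  refine continuous_finsetProd _ fun i _ => ?_
  have h1 : (0 : ℝ) < dl x i := dl_pos x i
  refine (Real.continuous_const_rpow h1.ne').comp ?_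
  exact continuous_const.add (continuous_id.mul continuous_const)

theorem P1A_tend (v : Fin n → ℝ) (w : Fin n → ℝ) (x : SLp p n) :
    Tendsto (fun s : ℝ => Om (fun i => v i + s * w i) x) (𝓝[>] 0) (𝓝 (Om v x)) := by
  have h := (P1A_cont v w x).tendsto 0
  simp only [zero_mul, add_zero] at h
  exact h.mono_left nhdsWithin_le_nhds

theorem om_tie {v : Fin n → ℝ} {x : SLp p n} (hx : x ∈ U p (Tie v)) : Om v x = 1 := by
  apply le_antisymm
  · refine le_of_tendsto (P1A_tend v (fun i => -((i : ℕ) : ℝ)) x) ?_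
    refine eventually_of_mem self_mem_nhdsWithin fun s hs => ?_
    have hs' : (0 : ℝ) < s := hs
    obtain ⟨c, hc, hD⟩ := P1m p (fun i : Fin n => v i + s * -((i : ℕ) : ℝ))
    refine (hD x ?_).1
    refine U_mono (fun i j hij => ?_) hx
    refine ⟨hij.1, ?_⟩
    have h1 : ((j : ℕ) : ℝ) < ((i : ℕ) : ℝ) := by exact_mod_cast hij.1
    have h2 : v i = v j := hij.2
    show v i + s * -((i : ℕ) : ℝ) < v j + s * -((j : ℕ) : ℝ)
    rw [h2]
    nlinarith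
  · refine ge_of_tendsto (P1A_tend v (fun i => ((i : ℕ) : ℝ)) x) ?_
    refine eventually_of_mem self_mem_nhdsWithin fun s hs => ?_
    have hs' : (0 : ℝ) < s := hs
    obtain ⟨c, hc, hD⟩ := P1 p (fun i : Fin n => v i + s * ((i : ℕ) : ℝ))
    refine (hD x ?_).1
    refine U_mono (fun i j hij => ?_) hx
    refine ⟨hij.1, ?_⟩
    have h1 : ((j : ℕ) : ℝ) < ((i : ℕ) : ℝ) := by exact_mod_cast hij.1
    have h2 : v i = v j := hij.2
    show v j + s * ((j : ℕ) : ℝ) < v i + s * ((i : ℕ) : ℝ)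
    rw [h2]
    nlinarith

end Pool.Agent.Lib.MP_f399a8_nt.S
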