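import Pool.Agent.Lib.MP_f399a8_ntS.IoC
import Pool.Agent.Lib.MP_f399a8_ntS.P1B

/-!
# Functions vanishing on the parabolic subgroup

`HH χ π i j f`: every `x` with `f x ≠ 0` is `b * u * c` with `b ∈ Bp`, `u ∈ U (Fr π)`, `c` in the parabolic
subgroup and integral, and `‖f x‖ ≤ ‖cb χ b‖`.

PROOF of `pi_lim`.  By `good_proper` (with the bound `1 / ε`) there is `B ≥ 1` such that `u ∈ U (Fr π)` with
`Om v u ≤ 1 / ε` has entries of norm `≤ B`.  Let `X = {x | ∀ a b, ‖x a b‖ ≤ B}` (compact).  `f` vanishes on the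
parabolic subgroup `P`.  Claim: there is `m` such that `‖f (x * y)‖ ≤ ε` for all `x ∈ X ∩ P` and `y ∈ Km m`: `unif` for the
compact set `X` gives `‖f (x * y) - f x‖ ≤ ε`.  By `conj_small` there is `m'` such that
`c⁻¹ * y * c ∈ Km m` for `c ∈ Kp`, `y ∈ Km m'` — here `m' = m` by `km_conj`.  Let `M0` be such that
`p ^ (-M0) * B ^ 2 ≤ p ^ (-m)`.
Let `M ≥ M0`, `k ∈ Kp`, `x = (t^M)⁻¹ * k * t^M`, and suppose `ε < ‖f x‖`.  `x = b * u * c` by `HH`, `‖f x‖ ≤ ‖cb χ b‖`.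
`k = t^M x (t^M)⁻¹ = (t^M b t^-M) * (t^M u t^-M) * (t^M c t^-M)`, the last factor is in `Kp` (`pb_conj`).  So with
`u_M = t^M * u * (t^M)⁻¹ ∈ U (Fr π)` (`U_conj`): `1 = Om v k = ‖cb χ b‖ * Om v u_M` (`om_kp`, `om_cb`, `om_right`, `cb_conj`).
Hence `Om v u_M < 1 / ε` (`ε < ‖cb χ b‖`), and `‖cb χ b‖ ≤ 1` (`good_ge`).  The entries of `u_M` have norm `≤ B`.
`u_M a b' = p ^ (M (e a - e b')) * u a b'`; for `Fr π a b'`, `(a, b') ≠ (i, j)`: `π b' < π a` and `e a < e b'`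
(`he`: the exceptional pair is `(j, i)`, i.e. `b' = j`, `a = i`), so `‖u a b'‖ ≤ p ^ (-M) * B`; and `‖u i j‖ ≤ B`.
Let `z = u i j`, `g = iota (lo2 z)`, `u = g * y'`, `y' := g⁻¹ * u`: row `i` of `y'` is row `i` of `u` minus `z` times
row `j` of `u` (`iota_mul_l`), so `y' i j = 0`, and the off-diagonal entries of `y'` have norm `≤ p ^ (-M) * B ^ 2 ≤ p ^ (-m)`
(`u i i = u j j = 1`, `u j i = 0`): `y' ∈ Km m`.  `x = b * g * y' * c = b * (g * c) * (c⁻¹ * y' * c)`, with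
`g * c ∈ P` (`iota_Pb`) with entries of norm `≤ B` (`c ∈ Kp`, entries of `g` at most `B`), `c⁻¹ * y' * c ∈ Km m`.  So
`‖f x‖ = ‖cb χ b‖ * ‖f ((g * c) * (c⁻¹ * y' * c))‖ ≤ 1 * ε`.  Contradiction.
PROOF of `ex_exists`: `e a = ∑ b, (qb π i j b : ℤ) - n * (qb π i j a : ℤ)`; for `π a < π b` with `(a, b) ≠ (j, i)`
one has `qb a < qb b`.
-/

namespace Pool.Agent.Lib.MP_f399a8_nt.S

open Matrix Filter Topology

variable {p : ℕ} [Fact p.Prime] {n : ℕ} {C : Type*} [NormedField C]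

/-- control of the support and the size by the parabolic subgroup of the pair `(i, j)` -/
def HH (χ : Tor p n →* Cˣ) (π : Equiv.Perm (Fin n)) (i j : Fin n) (f : SLp p n → C) : Prop :=
  ∀ x, f x ≠ 0 → ∃ b ∈ Bp p n, ∃ u ∈ U p (Fr π), ∃ c ∈ Bt p (qb π i j), c ∈ Kp p n ∧
    x = b * u * c ∧ ‖f x‖ ≤ ‖cb χ b‖

theorem PiA_norm_zpow (z : ℤ) : ‖(p : ℚ_[p]) ^ z‖ = (p : ℝ) ^ (-z) := by
  rw [norm_zpow, Padic.norm_p, _root_.inv_zpow, _root_.zpow_neg]

theorem pi_lim {χ : Tor p n →* Cˣ} {v : Fin n → ℝ} (hs : Slope χ v) {π : Equiv.Perm (Fin n)}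
    (hg : Good v π) {i j : Fin n} (h : Adj π i j) {e : Fin n → ℤ} {t : SLp p n} (ht : IsDg e t)
    (he : ∀ a b, π a < π b → (a = j ∧ b = i) ∨ e b < e a) (heij : e i = e j) {f : SLp p n → C}
    (hf : IsPS χ f) (hH : HH χ π i j f) (hZ : ∀ x ∈ Bt p (qb π i j), f x = 0) {ε : ℝ}
    (hε : 0 < ε) :
    ∃ M0 : ℕ, ∀ M ≥ M0, ∀ k ∈ Kp p n, ‖f ((t ^ M)⁻¹ * k * t ^ M)‖ ≤ ε := by
  classical
  have hp1 : (1 : ℝ) < p := by exact_mod_cast (Fact.out : p.Prime).one_lt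
  have hp0 : (0 : ℝ) < p := by linarith
  have hji : j ≠ i := h.lt.ne
  obtain ⟨B0, hB0⟩ := good_proper p hg (1 / ε)
  obtain ⟨B, hBdef⟩ : ∃ B, B = max B0 1 := ⟨_, rfl⟩
  have hB1 : 1 ≤ B := by rw [hBdef]; exact le_max_right _ _
  have hB : ∀ x ∈ U p (Fr π), Om v x ≤ 1 / ε → ∀ i j, ‖x.1 i j‖ ≤ B := fun x hx h1 i j => by
    rw [hBdef]
    exact (hB0 x hx h1 i j).trans (le_max_left _ _)
  have hPS := isPS_iff.1 hf
  obtain ⟨m, hm⟩ := unif hPS.1 (bdd_compact p n B) hε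
  obtain ⟨M0, hM0⟩ : ∃ M0 : ℕ, (p : ℝ) ^ (-(M0 : ℤ)) * B ^ 2 ≤ (p : ℝ) ^ (-(m : ℤ)) := by
    obtain ⟨l, hl⟩ := pow_unbounded_of_one_lt (B ^ 2) hp1
    refine ⟨m + l, ?_⟩
    have h1 : (p : ℝ) ^ (-((m + l : ℕ) : ℤ)) = (p : ℝ) ^ (-(m : ℤ)) * ((p : ℝ) ^ l)⁻¹ := by
      rw [Nat.cast_add, neg_add, zpow_add₀ hp0.ne', _root_.zpow_neg (p : ℝ) (l : ℤ), zpow_natCast]
    rw [h1, mul_assoc]
    refine mul_le_of_le_one_right (by positivity) ?_
    rw [inv_mul_le_one₀ (by positivity)]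
    exact hl.le
  refine ⟨M0, fun M hM k hk => ?_⟩
  by_contra hcon
  push Not at hcon
  obtain ⟨x, hx⟩ : ∃ x, x = (t ^ M)⁻¹ * k * t ^ M := ⟨_, rfl⟩
  rw [← hx] at hcon
  have hfx : f x ≠ 0 := by
    intro h0
    rw [h0, norm_zero] at hcon
    exact absurd hcon (not_lt.2 hε.le)
  obtain ⟨b, hb, u, hu, c, hc, hcK, hxe, hn⟩ := hH x hfx
  have htM := dg_pow ht M
  have hk2 : k = (t ^ M * b * (t ^ M)⁻¹) * ((t ^ M * u * (t ^ M)⁻¹) * (t ^ M * c * (t ^ M)⁻¹)) := by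
    have h1 : k = t ^ M * x * (t ^ M)⁻¹ := by rw [hx]; group
    rw [h1, hxe]; group
  have hbB : t ^ M * b * (t ^ M)⁻¹ ∈ Bp p n :=
    mul_mem (mul_mem (dg_Bt htM _) hb) (inv_mem (dg_Bt htM _))
  have hcM : t ^ M * c * (t ^ M)⁻¹ ∈ Kp p n := by
    refine pb_conj h ht (fun a b hab => ?_) heij hc hcK M
    rcases he a b hab with ⟨h1, h2⟩ | h1
    · rw [h1, h2, heij]
    · exact h1.le
  have huM := (U_conj htM hu).1
  obtain ⟨uM, huMd⟩ : ∃ y, y = t ^ M * u * (t ^ M)⁻¹ := ⟨_, rfl⟩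
  rw [← huMd] at huM hk2
  have hom : 1 = ‖cb χ b‖ * Om v uM := by
    rw [← om_kp v hk, hk2, om_cb hs hbB, om_right v hcM, (cb_conj χ htM b).1]
  have hcbpos : 0 < ‖cb χ b‖ := hε.trans (hcon.trans_le hn)
  have hOm1 : 1 ≤ Om v uM := good_ge hg huM
  have hcb1 : ‖cb χ b‖ ≤ 1 := by
    rw [hom]
    exact le_mul_of_one_le_right hcbpos.le hOm1
  have hOmle : Om v uM ≤ 1 / ε := by
    rw [le_div_iff₀ hε]
    calc Om v uM * ε ≤ Om v uM * ‖cb χ b‖ :=
          mul_le_mul_of_nonneg_left (hcon.trans_le hn).le (by linarith)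
      _ = 1 := by rw [mul_comm, ← hom]
  have hent := hB uM huM hOmle
  have hpM : (0 : ℝ) < (p : ℝ) ^ (-(M : ℤ)) := by positivity
  have huent : ∀ a b', ‖u.1 a b'‖ = (p : ℝ) ^ ((M : ℤ) * (e a - e b')) * ‖uM.1 a b'‖ := by
    intro a b'
    rw [huMd, dg_pow_conj ht, norm_mul, PiA_norm_zpow, ← mul_assoc, ← zpow_add₀ hp0.ne']
    simp
  have huij : ‖u.1 i j‖ ≤ B := by
    rw [huent, heij, sub_self, mul_zero, zpow_zero, one_mul]
    exact hent i j
  have hoff : ∀ a b', ¬ (a = i ∧ b' = j) →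
      ‖u.1 a b' - (1 : Matrix (Fin n) (Fin n) ℚ_[p]) a b'‖ ≤ (p : ℝ) ^ (-(M : ℤ)) * B := by
    intro a b' hab
    by_cases hF : Fr π a b'
    · have hne : a ≠ b' := hF.1.ne'
      rw [Matrix.one_apply_ne hne, sub_zero, huent]
      rcases he b' a hF.2 with ⟨h1, h2⟩ | h1
      · exact absurd ⟨h2, h1⟩ hab
      · refine mul_le_mul (zpow_le_zpow_right₀ hp1.le ?_) (hent a b') (norm_nonneg _) hpM.le
        have h2 : e a - e b' ≤ -1 := by omega
        have h3 := mul_le_mul_of_nonneg_left h2 (Int.natCast_nonneg M)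
        linarith
    · rw [hu a b' hF, sub_self, norm_zero]
      positivity
  obtain ⟨z, hz⟩ : ∃ z, z = u.1 i j := ⟨_, rfl⟩
  have hzB : ‖z‖ ≤ B := by rw [hz]; exact huij
  obtain ⟨y, hy⟩ : ∃ y, y = iota i j hji (lo2 (-z)) * u := ⟨_, rfl⟩
  have hgy : u = iota i j hji (lo2 z) * y := by
    rw [hy, ← mul_assoc, ← map_mul, lo2_mul, add_neg_cancel, lo2_zero, map_one, one_mul]
  have hb1 : (p : ℝ) ^ (-(M : ℤ)) * B ^ 2 ≤ (p : ℝ) ^ (-(m : ℤ)) := by
    refine le_trans (mul_le_mul_of_nonneg_right (zpow_le_zpow_right₀ hp1.le ?_) (by positivity)) hM0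
    have : (M0 : ℤ) ≤ M := by exact_mod_cast hM
    linarith
  have hb2 : (p : ℝ) ^ (-(M : ℤ)) * B ≤ (p : ℝ) ^ (-(m : ℤ)) := by
    refine le_trans (mul_le_mul_of_nonneg_left ?_ hpM.le) hb1
    nlinarith
  have hyK : y ∈ Km p n m := by
    intro a b'
    rw [hy, iota_mul_l]
    have e00 : (lo2 (-z)).1 0 0 = 1 := rfl
    have e01 : (lo2 (-z)).1 0 1 = 0 := rfl
    have e10 : (lo2 (-z)).1 1 0 = -z := rfl
    have e11 : (lo2 (-z)).1 1 1 = 1 := rfl
    rw [e00, e01, e10, e11]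
    by_cases haj : a = j
    · rw [if_pos haj, one_mul, zero_mul, add_zero, haj]
      exact (hoff j b' (fun hh => hji hh.1)).trans hb2
    rw [if_neg haj]
    by_cases hai : a = i
    · rw [if_pos hai, one_mul, hai]
      by_cases hbj : b' = j
      · have hjj : u.1 j j = 1 := U_diag (so_Fr π) hu j
        rw [hbj, hjj, ← hz, Matrix.one_apply_ne hji.symm]
        have : -z * 1 + z - 0 = 0 := by ring
        rw [this, norm_zero]
        positivity
      · have h3 : -z * u.1 j b' + u.1 i b' - (1 : Matrix (Fin n) (Fin n) ℚ_[p]) i b' =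
            (u.1 i b' - (1 : Matrix (Fin n) (Fin n) ℚ_[p]) i b') + (-z) *
              (u.1 j b' - (1 : Matrix (Fin n) (Fin n) ℚ_[p]) j b') := by
          rw [Matrix.one_apply_ne (Ne.symm hbj)]
          ring
        rw [h3]
        refine (IsUltrametricDist.norm_add_le_max _ _).trans (max_le ?_ ?_)
        · exact (hoff i b' (fun hh => hbj hh.2)).trans hb2
        · rw [norm_mul, norm_neg]
          refine le_trans (mul_le_mul hzB (hoff j b' (fun hh => hji hh.1)) (norm_nonneg _)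
            (by linarith)) ?_
          refine le_trans (le_of_eq ?_) hb1
          ring
    · rw [if_neg hai]
      exact (hoff a b' (fun hh => hai hh.1)).trans hb2
  have hgcP : iota i j hji (lo2 z) * c ∈ Bt p (qb π i j) := mul_mem (iota_Pb h _) hc
  have hgcB : ∀ a b', ‖(iota i j hji (lo2 z) * c).1 a b'‖ ≤ B := by
    intro a b'
    rw [iota_mul_l]
    have e00 : (lo2 z).1 0 0 = 1 := rfl
    have e01 : (lo2 z).1 0 1 = 0 := rfl
    have e10 : (lo2 z).1 1 0 = z := rfl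
    have e11 : (lo2 z).1 1 1 = 1 := rfl
    rw [e00, e01, e10, e11]
    split_ifs with h1 h2
    · rw [one_mul, zero_mul, add_zero]
      exact (hcK j b').trans hB1
    · rw [one_mul]
      refine (IsUltrametricDist.norm_add_le_max _ _).trans (max_le ?_ ((hcK i b').trans hB1))
      rw [norm_mul]
      calc ‖z‖ * ‖c.1 j b'‖ ≤ B * 1 := mul_le_mul hzB (hcK j b') (norm_nonneg _) (by linarith)
        _ = B := mul_one B
    · exact (hcK a b').trans hB1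
  have hcy : c⁻¹ * y * c ∈ Km p n m := (km_conj hcK hyK).2
  have hfin := hm (iota i j hji (lo2 z) * c) hgcB (c⁻¹ * y * c) hcy
  rw [hZ _ hgcP, sub_zero] at hfin
  have hxx : x = b * (iota i j hji (lo2 z) * c * (c⁻¹ * y * c)) := by
    rw [hxe, hgy]; group
  have : ‖f x‖ ≤ ε := by
    rw [hxx, hPS.2 b hb, norm_mul]
    calc ‖cb χ b‖ * ‖f (iota i j hji (lo2 z) * c * (c⁻¹ * y * c))‖ ≤ 1 * ε :=
          mul_le_mul hcb1 hfin (norm_nonneg _) zero_le_one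
      _ = ε := one_mul ε
  exact absurd hcon (not_lt.2 this)

/-- the exponents for `pi_lim` -/
theorem ex_exists (π : Equiv.Perm (Fin n)) {i j : Fin n} (h : Adj π i j) : ∃ e : Fin n → ℤ,
    ∑ a, e a = 0 ∧ (∀ a b, π a < π b → (a = j ∧ b = i) ∨ e b < e a) ∧ e i = e j := by
  have hn : (0 : ℤ) < n := by
    have := i.pos
    exact_mod_cast this
  refine ⟨fun a => ∑ b, ((qb π i j b : ℕ) : ℤ) - n * ((qb π i j a : ℕ) : ℤ), ?_, ?_, ?_⟩
  · rw [Finset.sum_sub_distrib, ← Finset.mul_sum, Finset.sum_const, Finset.card_univ,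
      Fintype.card_fin, nsmul_eq_mul, sub_self]
  · intro a b hab
    by_cases hc : a = j ∧ b = i
    · exact Or.inl hc
    right
    have hq : qb π i j a < qb π i j b := by
      have hadj := h.adj
      unfold qb
      by_cases ha : a = i
      · have hb : b ≠ i := by
          rintro rfl
          rw [ha] at hab
          exact lt_irrefl _ hab
        rw [if_pos ha, if_neg hb]
        rw [ha] at hab
        rw [Fin.lt_def] at hab ⊢
        omega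
      · rw [if_neg ha]
        by_cases hb : b = i
        · rw [if_pos hb]
          have haj : a ≠ j := fun h1 => hc ⟨h1, hb⟩
          have h1 : π a ≠ π j := fun h1 => haj (π.injective h1)
          rw [hb] at hab
          rw [Fin.lt_def] at hab ⊢
          have h2 : (π a : ℕ) ≠ (π j : ℕ) := fun h2 => h1 (Fin.ext h2)
          omega
        · rw [if_neg hb]
          exact hab
    have h3 : ((qb π i j a : ℕ) : ℤ) < ((qb π i j b : ℕ) : ℤ) := by
      exact_mod_cast (Fin.lt_def.1 hq)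
    have h4 := mul_lt_mul_of_pos_left h3 hn
    show ∑ b, ((qb π i j b : ℕ) : ℤ) - n * ((qb π i j b : ℕ) : ℤ) <
      ∑ b, ((qb π i j b : ℕ) : ℤ) - n * ((qb π i j a : ℕ) : ℤ)
    linarith
  · have h1 : qb π i j i = π j := by unfold qb; rw [if_pos rfl]
    have h2 : qb π i j j = π j := by unfold qb; rw [if_neg h.lt.ne]
    show ∑ b, ((qb π i j b : ℕ) : ℤ) - n * ((qb π i j i : ℕ) : ℤ) =
      ∑ b, ((qb π i j b : ℕ) : ℤ) - n * ((qb π i j j : ℕ) : ℤ)
    rw [h1, h2]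

end Pool.Agent.Lib.MP_f399a8_nt.S
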