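import Mathlib

/-!
# Characters of `ℚ_p^×`, finite differences: statements for `SL_2`
-/

namespace Pool.Agent.Lib.MP_f399a8_nt.S

noncomputable section

variable {p : ℕ} [Fact p.Prime] {C : Type*} [NormedField C]

/-- `N`-th difference of `ν` at `y` with step `x` -/
def dif (ν : ℚ_[p] → C) (N : ℕ) (y x : ℚ_[p]) : C :=
  ∑ k ∈ Finset.range (N + 1), (-1 : C) ^ (N - k) * (N.choose k : C) * ν (y + k * x)

/-- finite combinations of the functions `(c, d) ↦ ν (a c + b d)`, `(a, b) ≠ 0` -/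
def LS (ν : ℚ_[p] → C) : Set (ℚ_[p] → ℚ_[p] → C) :=
  {f | ∃ (m : ℕ) (a b : Fin m → ℚ_[p]) (lam : Fin m → C), (∀ q, a q ≠ 0 ∨ b q ≠ 0) ∧
    ∀ c d, f c d = ∑ q, lam q * ν (c * a q + d * b q)}

/-- primitive vectors -/
def Prim (c d : ℚ_[p]) : Prop := max ‖c‖ ‖d‖ = 1

/-- homogeneous and uniformly continuous on primitive vectors -/
def HomC (ν : ℚ_[p] → C) (φ : ℚ_[p] → ℚ_[p] → C) : Prop :=
  (∀ s c d : ℚ_[p], s ≠ 0 → φ (s * c) (s * d) = ν s * φ c d) ∧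
  ∀ ε : ℝ, 0 < ε → ∃ m : ℕ, ∀ c d c' d' : ℚ_[p], Prim c d → Prim c' d' →
    ‖c - c'‖ ≤ (p : ℝ) ^ (-(m : ℤ)) → ‖d - d'‖ ≤ (p : ℝ) ^ (-(m : ℤ)) → ‖φ c d - φ c' d'‖ ≤ ε

end

end Pool.Agent.Lib.MP_f399a8_nt.S
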