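import Pool.Agent.Lib.MP_f399a8_ntS.D2B

/-!
# The limit of the norms of the contracted functions

PROOF.  Suppose not: then for infinitely many `M` (i.e. for every `M0` there is `M ≥ M0`) there is `k ∈ Kp` with
`S + ε < ‖f ((t^M)⁻¹ * k * t^M)‖`.  Write `(t^M)⁻¹ * k * t^M = b * κ` with `b ∈ Bp`, `κ ∈ Kp` (`iwasawa`).  Then
`‖f (b κ)‖ = ‖cb χ b‖ * ‖f κ‖`, and `1 = Om v k = Om v (t^M * (b κ) * (t^M)⁻¹)
 = ‖cb χ b‖ * Om v (t^M * κ * (t^M)⁻¹)` (`cb_conj`, `om_cb`).  So with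
`h_M κ := ‖f κ‖ / Om v (t^M * κ * (t^M)⁻¹)`, `S + ε < h_M κ`.  Let `X_M = {κ ∈ Kp | S + ε ≤ h_M κ}`: closed
in the compact `Kp` (`om_cont`, `Om > 0`), antitone in `M` (`om_mono`), nonempty for arbitrarily large `M`, so for
all `M`.  `IsCompact.nonempty_iInter_of_sequence_nonempty_isCompact_isClosed`: there is `κ` in all `X_M`.  So
`Om v (t^M κ (t^M)⁻¹) ≤ ‖f κ‖ / (S + ε)` for all `M`, and by `D2` `κ = b * w * u`.  For `M` large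
`Om v (t^M κ (t^M)⁻¹) = ‖cb χ b‖ * Om v (t^M (w u) (t^M)⁻¹) = ‖cb χ b‖` (`om_lim`) and
`‖f κ‖ = ‖cb χ b‖ * ‖f (w * u)‖ ≤ ‖cb χ b‖ * S`.  So `h_M κ ≤ S < S + ε`, contradiction.
-/

namespace Pool.Agent.Lib.MP_f399a8_nt.S

open Matrix Filter Topology

variable {p : ℕ} [Fact p.Prime] {n : ℕ} {C : Type*} [NormedField C]

theorem StarA_conj {e : Fin n → ℤ} {t : SLp p n} (ht : IsDg e t) {χ : Tor p n →* Cˣ} {v : Fin n → ℝ}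
    (hs : Slope χ v) {b : SLp p n} (hb : b ∈ Bp p n) (x : SLp p n) (M : ℕ) :
    Om v (t ^ M * (b * x) * (t ^ M)⁻¹) = ‖cb χ b‖ * Om v (t ^ M * x * (t ^ M)⁻¹) := by
  have h1 : t ^ M * (b * x) * (t ^ M)⁻¹ =
      (t ^ M * b * (t ^ M)⁻¹) * (t ^ M * x * (t ^ M)⁻¹) := by group
  have htB : t ^ M ∈ Bp p n := dg_Bt (dg_pow ht M) id
  have h2 : t ^ M * b * (t ^ M)⁻¹ ∈ Bp p n := mul_mem (mul_mem htB hb) (inv_mem htB)
  rw [h1, om_cb hs h2, (cb_conj χ (dg_pow ht M) b).1]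

theorem star {χ : Tor p n →* Cˣ} {v : Fin n → ℝ} (hs : Slope χ v) {π : Equiv.Perm (Fin n)}
    (hπ : IsSorted v π) {t : SLp p n} (ht : IsDg (e0 v) t) {f : SLp p n → C} (hf : IsPS χ f)
    {S : ℝ} (hS0 : 0 ≤ S)
    (hS : ∀ (σ : Equiv.Perm (Fin n)) (w : SLp p n), IsMon σ w → (∀ i, v (σ i) = v i) →
      ∀ u ∈ U p (Ord π), ‖f (w * u)‖ ≤ S) {ε : ℝ} (hε : 0 < ε) :
    ∃ M0 : ℕ, ∀ M ≥ M0, ∀ k ∈ Kp p n, ‖f ((t ^ M)⁻¹ * k * t ^ M)‖ ≤ S + ε := by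
  obtain ⟨hfc, hfe⟩ := isPS_iff.1 hf
  by_contra hcon
  push Not at hcon
  have hSε : 0 < S + ε := by linarith
  let X : ℕ → Set (SLp p n) := fun M =>
    (Kp p n : Set (SLp p n)) ∩ {κ | (S + ε) * Om v (t ^ M * κ * (t ^ M)⁻¹) ≤ ‖f κ‖}
  have hanti : ∀ M M' : ℕ, M ≤ M' → X M' ⊆ X M := by
    intro M M' hM κ hκ
    refine ⟨hκ.1, ?_⟩
    have h1 : (S + ε) * Om v (t ^ M' * κ * (t ^ M')⁻¹) ≤ ‖f κ‖ := hκ.2
    exact (mul_le_mul_of_nonneg_left (om_mono ht hM κ) hSε.le).trans h1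
  have hne : ∀ M0 : ℕ, (X M0).Nonempty := by
    intro M0
    obtain ⟨M, hM, k, hk, hlt⟩ := hcon M0
    obtain ⟨b, hb, κ, hκ, hbk⟩ := iwasawa ((t ^ M)⁻¹ * k * t ^ M)
    refine ⟨κ, hanti M0 M hM ⟨hκ, ?_⟩⟩
    show (S + ε) * Om v (t ^ M * κ * (t ^ M)⁻¹) ≤ ‖f κ‖
    rw [hbk, hfe b hb κ, norm_mul] at hlt
    have h1 : k = t ^ M * (b * κ) * (t ^ M)⁻¹ := by
      rw [← hbk]
      group
    have h2 : (1 : ℝ) = ‖cb χ b‖ * Om v (t ^ M * κ * (t ^ M)⁻¹) := by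
      rw [← StarA_conj ht hs hb κ M, ← h1, om_kp v hk]
    have h3 : 0 < Om v (t ^ M * κ * (t ^ M)⁻¹) := om_pos v _
    have h4 := mul_le_mul_of_nonneg_right hlt.le h3.le
    calc (S + ε) * Om v (t ^ M * κ * (t ^ M)⁻¹)
        ≤ ‖cb χ b‖ * ‖f κ‖ * Om v (t ^ M * κ * (t ^ M)⁻¹) := h4
      _ = (‖cb χ b‖ * Om v (t ^ M * κ * (t ^ M)⁻¹)) * ‖f κ‖ := by ring
      _ = ‖f κ‖ := by rw [← h2, one_mul]
  have hcl : ∀ M : ℕ, IsClosed {κ : SLp p n | (S + ε) * Om v (t ^ M * κ * (t ^ M)⁻¹) ≤ ‖f κ‖} := by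
    intro M
    refine isClosed_le ?_ hfc.norm
    have h1 : Continuous fun κ : SLp p n => t ^ M * κ * (t ^ M)⁻¹ :=
      (continuous_const.mul continuous_id).mul continuous_const
    exact continuous_const.mul ((om_cont p v).comp h1)
  have hcK : IsCompact (Kp p n : Set (SLp p n)) := kp_compact p n
  have hXc : ∀ M, IsCompact (X M) := fun M => hcK.inter_right (hcl M)
  obtain ⟨κ, hκ⟩ := IsCompact.nonempty_iInter_of_sequence_nonempty_isCompact_isClosed X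
    (fun i => hanti i (i + 1) (Nat.le_succ i)) hne (hXc 0) (fun M => (hXc M).isClosed)
  have hκ' : ∀ M, κ ∈ X M := fun M => Set.mem_iInter.1 hκ M
  have hbd : ∀ M : ℕ, Om v (t ^ M * κ * (t ^ M)⁻¹) ≤ ‖f κ‖ / (S + ε) := by
    intro M
    rw [le_div_iff₀ hSε, mul_comm]
    exact (hκ' M).2
  obtain ⟨b, hb, σ, w, hw, hσ, u, hu, hbwu⟩ := D2 hπ ht κ _ hbd
  obtain ⟨M0, hM0⟩ := om_lim hπ ht hw hσ hu
  have h1 : (S + ε) * Om v (t ^ M0 * κ * (t ^ M0)⁻¹) ≤ ‖f κ‖ := (hκ' M0).2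
  have h2 : κ = b * (w * u) := by rw [hbwu, mul_assoc]
  have hcb : 0 < ‖cb χ b‖ := norm_pos_iff.2 (cb_ne_zero χ b)
  rw [h2, StarA_conj ht hs hb, hM0 M0 le_rfl, mul_one, hfe b hb, norm_mul] at h1
  have h3 := mul_le_mul_of_nonneg_left (hS σ w hw hσ u hu) hcb.le
  nlinarith

end Pool.Agent.Lib.MP_f399a8_nt.S
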