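import Pool.Agent.Lib.MP_f399a8_ntS.StarA
import Pool.Agent.Lib.MP_f399a8_ntS.ExA
import Pool.Agent.Lib.MP_f399a8_ntS.AcC

/-!
# Equal slopes: definitions and basic properties

`Wt v σ`: `σ` preserves the slopes.  `DD v π`: the set of the products `w * u`, `w` a signed permutation matrix
of such a `σ`, `u ∈ U (Ord π)`.  `VV`: functions on `Bp * DD` which are uniform limits on `DD` of elements of `W`.
`VK … σ`: those which vanish on the strata `τ` with larger key.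

PROOF.
* `dd_mul`: `U_mul` (`so_ord`).
* `wtw`: for diagonal `τ` (`∀ i j, i ≠ j → τ i j = 0`): `w * τ * w⁻¹` is diagonal with entries `τ (σ i) (σ i)`
  (`mon_conj`), so in `Bp`; `w * u * τ = (w * τ * w⁻¹) * (w * (τ⁻¹ * u * τ))`; conjugation by a diagonal matrix
  preserves `U R` (entries are multiplied by `τ_i⁻¹ τ_j`).
* `wtw_norm`: `‖cb χ (w τ w⁻¹)‖ = ∏ ‖τ (σ i) (σ i)‖ ^ v i = ∏ ‖τ i i‖ ^ v (σ⁻¹ i) = ‖cb χ τ‖` (`slope_cb`,
  `Equiv.prod_comp`).
-/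

namespace Pool.Agent.Lib.MP_f399a8_nt.S

open Matrix Filter Topology

noncomputable section

variable {p : ℕ} [Fact p.Prime] {n : ℕ} {C : Type*} [NormedField C]

/-- the permutation preserves the slopes -/
def Wt (v : Fin n → ℝ) (σ : Equiv.Perm (Fin n)) : Prop := ∀ i, v (σ i) = v i

/-- products of signed permutation matrices preserving the slopes and `U (Ord π)` -/
def DD (p : ℕ) [Fact p.Prime] (v : Fin n → ℝ) (π : Equiv.Perm (Fin n)) : Set (SLp p n) :=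
  {x | ∃ (σ : Equiv.Perm (Fin n)) (w u : SLp p n), IsMon σ w ∧ Wt v σ ∧ u ∈ U p (Ord π) ∧
    x = w * u}

/-- functions on `Bp * DD` which are uniform limits on `DD` of elements of `W` -/
structure VV (χ : Tor p n →* Cˣ) (v : Fin n → ℝ) (π : Equiv.Perm (Fin n))
    (W : Set (SLp p n → C)) (φ : SLp p n → C) : Prop where
  left : ∀ b ∈ Bp p n, ∀ x, φ (b * x) = cb χ b * φ x
  app : ∀ ε : ℝ, 0 < ε → ∃ w ∈ W, ∀ x ∈ DD p v π, ‖φ x - w x‖ ≤ ε

/-- height of a stratum -/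
def HS (π σ : Equiv.Perm (Fin n)) : ℕ := ∑ k : Fin n, ((k : ℕ) + 1) * (π (σ k) : ℕ)

/-- injective refinement of the height -/
def key (π σ : Equiv.Perm (Fin n)) : ℕ :=
  HS π σ * Fintype.card (Equiv.Perm (Fin n)) + (Fintype.equivFin (Equiv.Perm (Fin n)) σ : ℕ)

/-- elements of `VV` which vanish on the strata with larger key -/
structure VK (χ : Tor p n →* Cˣ) (v : Fin n → ℝ) (π : Equiv.Perm (Fin n))
    (W : Set (SLp p n → C)) (σ : Equiv.Perm (Fin n)) (φ : SLp p n → C) : Prop where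
  vv : VV χ v π W φ
  zero : ∀ (τ : Equiv.Perm (Fin n)) (w : SLp p n), IsMon τ w → Wt v τ → key π σ < key π τ →
    ∀ u ∈ U p (Ord π), φ (w * u) = 0

/-- diagonal matrices -/
def IsD (τ : SLp p n) : Prop := ∀ i j, i ≠ j → τ.1 i j = 0

variable {χ : Tor p n →* Cˣ} {v : Fin n → ℝ} {π : Equiv.Perm (Fin n)} {W : Set (SLp p n → C)}
  {σ : Equiv.Perm (Fin n)}

theorem dd_mul {x u : SLp p n} (hx : x ∈ DD p v π) (hu : u ∈ U p (Ord π)) : x * u ∈ DD p v π := by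
  obtain ⟨σ, w, u0, hw, hσ, hu0, rfl⟩ := hx
  exact ⟨σ, w, u0 * u, hw, hσ, U_mul (so_ord π) hu0 hu, mul_assoc _ _ _⟩

theorem dd_one : (1 : SLp p n) ∈ DD p v π := by
  refine ⟨1, 1, 1, fun i j => ⟨fun h => Or.inl ?_, fun h => ?_⟩, fun _ => rfl, U_one _,
    (mul_one 1).symm⟩
  · rw [Equiv.Perm.coe_one, id] at h
    rw [h, Matrix.SpecialLinearGroup.coe_one, Matrix.one_apply_eq]
  · rw [Equiv.Perm.coe_one, id] at h
    rw [Matrix.SpecialLinearGroup.coe_one, Matrix.one_apply_ne h.symm]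

theorem isD_Bt {τ : SLp p n} (hτ : IsD τ) {α : Type*} [LinearOrder α] (b : Fin n → α) :
    τ ∈ Bt p b := by
  intro i j hij
  apply hτ
  rintro rfl
  exact lt_irrefl _ hij

theorem isD_inv {τ : SLp p n} (hτ : IsD τ) : IsD τ⁻¹ := by
  intro i j hij
  rcases lt_or_gt_of_ne hij with h | h
  · exact ((Bt p (fun i : Fin n => OrderDual.toDual i)).inv_mem
      (isD_Bt hτ (fun i : Fin n => OrderDual.toDual i))) i j (OrderDual.toDual_lt_toDual.2 h)
  · exact ((Bt p (id : Fin n → Fin n)).inv_mem (isD_Bt hτ (id : Fin n → Fin n))) i j h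

theorem TiA_mulL {τ : SLp p n} (hτ : IsD τ) (x : SLp p n) (i j : Fin n) :
    (τ * x).1 i j = τ.1 i i * x.1 i j := by
  show (τ.1 * x.1) i j = _
  rw [Matrix.mul_apply, Finset.sum_eq_single i]
  · intro k _ hk
    rw [hτ i k hk.symm, zero_mul]
  · intro h
    exact absurd (Finset.mem_univ i) h

theorem TiA_mulR {τ : SLp p n} (hτ : IsD τ) (x : SLp p n) (i j : Fin n) :
    (x * τ).1 i j = x.1 i j * τ.1 j j := by
  show (x.1 * τ.1) i j = _
  rw [Matrix.mul_apply, Finset.sum_eq_single j]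
  · intro k _ hk
    rw [hτ k j hk, mul_zero]
  · intro h
    exact absurd (Finset.mem_univ j) h

theorem TiA_diag {τ : SLp p n} (hτ : IsD τ) (i : Fin n) : τ.1 i i * (τ⁻¹).1 i i = 1 := by
  have h := TiA_mulL hτ τ⁻¹ i i
  rw [mul_inv_cancel, Matrix.SpecialLinearGroup.coe_one, Matrix.one_apply_eq] at h
  exact h.symm

theorem TiA_conj {τ : SLp p n} (hτ : IsD τ) {R : Fin n → Fin n → Prop} {x : SLp p n}
    (hx : x ∈ U p R) : τ * x * τ⁻¹ ∈ U p R := by
  intro i j hij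
  rw [TiA_mulR (isD_inv hτ), TiA_mulL hτ, hx i j hij]
  by_cases h : i = j
  · subst h
    rw [Matrix.one_apply_eq, mul_one, TiA_diag hτ]
  · rw [Matrix.one_apply_ne h, mul_zero, zero_mul]

theorem isD_conj {τ : SLp p n} (hτ : IsD τ) {R : Fin n → Fin n → Prop} {x : SLp p n}
    (hx : x ∈ U p R) : τ * x * τ⁻¹ ∈ U p R ∧ τ⁻¹ * x * τ ∈ U p R := by
  refine ⟨TiA_conj hτ hx, ?_⟩
  have h := TiA_conj (isD_inv hτ) hx
  rwa [inv_inv] at h

theorem wtw {w τ : SLp p n} (hw : IsMon σ w) (hτ : IsD τ) :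
    IsD (w * τ * w⁻¹) ∧ ∀ u : SLp p n, w * u * τ = (w * τ * w⁻¹) * (w * (τ⁻¹ * u * τ)) := by
  refine ⟨fun i j hij => ?_, fun u => by group⟩
  rw [mon_conj hw, hτ (σ i) (σ j) (fun h => hij (σ.injective h)), mul_zero]

theorem wtw_norm (hs : Slope χ v) (hσ : Wt v σ) {w τ : SLp p n} (hw : IsMon σ w) (hτ : IsD τ) :
    ‖cb χ (w * τ * w⁻¹)‖ = ‖cb χ τ‖ := by
  have h1 : w * τ * w⁻¹ ∈ Bp p n := isD_Bt (wtw hw hτ).1 (id : Fin n → Fin n)
  have h2 : τ ∈ Bp p n := isD_Bt hτ (id : Fin n → Fin n)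
  rw [slope_cb hs h1, slope_cb hs h2, ← Equiv.prod_comp σ (fun i => ‖τ.1 i i‖ ^ v i)]
  refine Finset.prod_congr rfl fun i _ => ?_
  rw [hσ i, mon_conj hw, norm_mul, norm_mul]
  have h3 : ‖w.1 i (σ i)‖ = 1 := by
    rcases (hw i (σ i)).1 rfl with h | h <;> simp [h]
  rw [h3, one_mul, one_mul]

end

end Pool.Agent.Lib.MP_f399a8_nt.S
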