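import Pool.Agent.Lib.MP_f399a8_ntS.TiA

/-!
# Equal slopes: stability of `VV` and `VK`

PROOF.
* `vv_of_mem`: `isPS_iff`, take `w = φ`.
* `om_dd`: `Om v x ≤ Om v (t^M x t^-M) = 1` for `M` large (`om_mono` with `M = 0`, `om_lim`).
* `vv_bound`: for `w₀ ∈ W` and `x = w * u ∈ DD`: `‖w₀ x‖ ≤ A * Om v x ≤ A`, where `A` bounds `w₀` on `Kp`
  (`ps_bdd`, `ps_bound`) and `Om v x ≤ Om v (t^M x t^-M) = 1` for `M` large (`om_mono`, `om_lim`, with `t` from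
  `dg_exists (e0 v)`); then add `ε = 1`.
* `vk_add`, `vk_smul` (`c = 0` separately), `vk_trans`: `φ' x = φ (x * u)`, `w' x = w₀ (x * u)`, `dd_mul`.
* `vk_diag`: `φ' x = φ (x * τ)`; for `x = w * u ∈ DD`: `φ (x * τ) - w₀ (x * τ) = cb χ (w τ w⁻¹) * (φ - w₀) (w * (τ⁻¹ u τ))`,
  norm `≤ ‖cb χ τ‖ * ε`.
* `vk_*`: the vanishing conditions are stable because `U (Ord π)` is a group and by `wtw`.
-/

namespace Pool.Agent.Lib.MP_f399a8_nt.S

open Matrix Filter Topology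

noncomputable section

variable {p : ℕ} [Fact p.Prime] {n : ℕ} {C : Type*} [NormedField C]

variable {χ : Tor p n →* Cˣ} {v : Fin n → ℝ} {π : Equiv.Perm (Fin n)} {W : Set (SLp p n → C)}
  {σ : Equiv.Perm (Fin n)}

theorem vv_of_mem (hW : IsClosedSubrep χ W) {f : SLp p n → C} (hf : f ∈ W) : VV χ v π W f := by
  refine ⟨(isPS_iff.1 (hW.isPS f hf)).2, fun ε hε => ⟨f, hf, fun x _ => ?_⟩⟩
  rw [sub_self, norm_zero]
  exact hε.le

theorem om_dd (hπ : IsSorted v π) {x : SLp p n} (hx : x ∈ DD p v π) : Om v x ≤ 1 := by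
  obtain ⟨σ, w, u, hw, hσ, hu, rfl⟩ := hx
  obtain ⟨t, ht⟩ := dg_exists (p := p) (e0 v) (e0_sum v)
  obtain ⟨M0, hM⟩ := om_lim hπ ht hw hσ hu
  have h1 := om_mono ht (Nat.zero_le M0) (w * u)
  rw [hM M0 le_rfl, pow_zero, one_mul, inv_one, mul_one] at h1
  exact h1

theorem vv_bound (hs : Slope χ v) (hπ : IsSorted v π) (hW : IsClosedSubrep χ W)
    {φ : SLp p n → C} (hφ : VV χ v π W φ) : ∃ A : ℝ, 0 < A ∧ ∀ x ∈ DD p v π, ‖φ x‖ ≤ A := by
  obtain ⟨w, hw, hw1⟩ := hφ.app 1 one_pos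
  obtain ⟨A, hA0, hA⟩ := ps_bdd (hW.isPS w hw).1
  refine ⟨1 + A, by linarith, fun x hx => ?_⟩
  have h1 : ‖w x‖ ≤ A * Om v x := ps_bound hs (hW.isPS w hw) hA x
  have h2 : A * Om v x ≤ A * 1 := mul_le_mul_of_nonneg_left (om_dd hπ hx) hA0.le
  have h3 : ‖φ x‖ ≤ ‖φ x - w x‖ + ‖w x‖ := by
    have h := norm_add_le (φ x - w x) (w x)
    rwa [sub_add_cancel] at h
  have h4 := hw1 x hx
  linarith

theorem vk_add [IsUltrametricDist C] (hW : IsClosedSubrep χ W) {φ ψ : SLp p n → C}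
    (hφ : VK χ v π W σ φ) (hψ : VK χ v π W σ ψ) : VK χ v π W σ (fun x => φ x + ψ x) := by
  refine ⟨⟨fun b hb x => ?_, fun ε hε => ?_⟩, fun τ w hw hτ hk u hu => ?_⟩
  · show φ (b * x) + ψ (b * x) = cb χ b * (φ x + ψ x)
    rw [hφ.vv.left b hb x, hψ.vv.left b hb x, mul_add]
  · obtain ⟨w1, hw1, h1⟩ := hφ.vv.app ε hε
    obtain ⟨w2, hw2, h2⟩ := hψ.vv.app ε hε
    refine ⟨fun x => w1 x + w2 x, hW.add w1 hw1 w2 hw2, fun x hx => ?_⟩
    show ‖φ x + ψ x - (w1 x + w2 x)‖ ≤ ε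
    rw [add_sub_add_comm]
    exact (IsUltrametricDist.norm_add_le_max _ _).trans (max_le (h1 x hx) (h2 x hx))
  · show φ (w * u) + ψ (w * u) = 0
    rw [hφ.zero τ w hw hτ hk u hu, hψ.zero τ w hw hτ hk u hu, add_zero]

theorem vk_smul (hW : IsClosedSubrep χ W) (c : C) {φ : SLp p n → C} (hφ : VK χ v π W σ φ) :
    VK χ v π W σ (fun x => c * φ x) := by
  refine ⟨⟨fun b hb x => ?_, fun ε hε => ?_⟩, fun τ w hw hτ hk u hu => ?_⟩
  · show c * φ (b * x) = cb χ b * (c * φ x)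
    rw [hφ.vv.left b hb x]
    ring
  · rcases eq_or_ne c 0 with hc | hc
    · refine ⟨fun _ => 0, hW.zero, fun x _ => ?_⟩
      show ‖c * φ x - 0‖ ≤ ε
      rw [hc, zero_mul, sub_zero, norm_zero]
      exact hε.le
    · have hc' : 0 < ‖c‖ := norm_pos_iff.2 hc
      obtain ⟨w1, hw1, h1⟩ := hφ.vv.app (ε / ‖c‖) (div_pos hε hc')
      refine ⟨fun x => c * w1 x, hW.smul c w1 hw1, fun x hx => ?_⟩
      show ‖c * φ x - c * w1 x‖ ≤ ε
      rw [← mul_sub, norm_mul]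
      have h2 := mul_le_mul_of_nonneg_left (h1 x hx) hc'.le
      rwa [mul_div_cancel₀ _ hc'.ne'] at h2
  · show c * φ (w * u) = 0
    rw [hφ.zero τ w hw hτ hk u hu, mul_zero]

theorem TiA2_zero (hW : IsClosedSubrep χ W) : VK χ v π W σ (fun _ => (0 : C)) := by
  refine ⟨⟨fun b _ x => (mul_zero _).symm, fun ε hε => ⟨fun _ => 0, hW.zero, fun x _ => ?_⟩⟩,
    fun τ w _ _ _ u _ => rfl⟩
  show ‖(0 : C) - 0‖ ≤ ε
  rw [sub_zero, norm_zero]
  exact hε.le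

theorem vk_sum [IsUltrametricDist C] (hW : IsClosedSubrep χ W) {ι : Type*} (s : Finset ι)
    (φ : ι → SLp p n → C) (hφ : ∀ i ∈ s, VK χ v π W σ (φ i)) :
    VK χ v π W σ (fun x => ∑ i ∈ s, φ i x) := by
  classical
  induction s using Finset.induction_on with
  | empty =>
    have h : (fun x : SLp p n => ∑ i ∈ (∅ : Finset ι), φ i x) = fun _ => (0 : C) := by
      funext x
      exact Finset.sum_empty
    rw [h]
    exact TiA2_zero hW
  | insert a s ha ih =>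
    have h : (fun x : SLp p n => ∑ i ∈ insert a s, φ i x) =
        fun x => φ a x + (fun x => ∑ i ∈ s, φ i x) x := by
      funext x
      exact Finset.sum_insert ha
    rw [h]
    exact vk_add hW (hφ a (Finset.mem_insert_self _ _))
      (ih fun i hi => hφ i (Finset.mem_insert_of_mem hi))

theorem vk_trans (hW : IsClosedSubrep χ W) {u : SLp p n} (hu : u ∈ U p (Ord π))
    {φ : SLp p n → C} (hφ : VK χ v π W σ φ) : VK χ v π W σ (fun x => φ (x * u)) := by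
  refine ⟨⟨fun b hb x => ?_, fun ε hε => ?_⟩, fun τ w hw hτ hk u' hu' => ?_⟩
  · show φ (b * x * u) = cb χ b * φ (x * u)
    rw [mul_assoc]
    exact hφ.vv.left b hb (x * u)
  · obtain ⟨w1, hw1, h1⟩ := hφ.vv.app ε hε
    exact ⟨fun x => w1 (x * u), hW.trans u w1 hw1, fun x hx => h1 (x * u) (dd_mul hx hu)⟩
  · show φ (w * u' * u) = 0
    rw [mul_assoc]
    exact hφ.zero τ w hw hτ hk (u' * u) (U_mul (so_ord π) hu' hu)

theorem vk_diag (hs : Slope χ v) (hW : IsClosedSubrep χ W) {τ : SLp p n} (hτ : IsD τ)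
    {φ : SLp p n → C} (hφ : VK χ v π W σ φ) : VK χ v π W σ (fun x => φ (x * τ)) := by
  have hcb : 0 < ‖cb χ τ‖ := norm_pos_iff.2 (cb_ne_zero χ τ)
  refine ⟨⟨fun b hb x => ?_, fun ε hε => ?_⟩, fun ρ w hw hρ hk u hu => ?_⟩
  · show φ (b * x * τ) = cb χ b * φ (x * τ)
    rw [mul_assoc]
    exact hφ.vv.left b hb (x * τ)
  · obtain ⟨w1, hw1, h1⟩ := hφ.vv.app (ε / ‖cb χ τ‖) (div_pos hε hcb)
    refine ⟨fun x => w1 (x * τ), hW.trans τ w1 hw1, fun x hx => ?_⟩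
    obtain ⟨ρ, w, u, hw, hρ, hu, rfl⟩ := hx
    show ‖φ (w * u * τ) - w1 (w * u * τ)‖ ≤ ε
    obtain ⟨hD, he⟩ := wtw hw hτ
    have hB : w * τ * w⁻¹ ∈ Bp p n := isD_Bt hD (id : Fin n → Fin n)
    rw [he u, hφ.vv.left _ hB, (isPS_iff.1 (hW.isPS w1 hw1)).2 _ hB, ← mul_sub, norm_mul,
      wtw_norm hs hρ hw hτ]
    have h2 := mul_le_mul_of_nonneg_left
      (h1 (w * (τ⁻¹ * u * τ)) ⟨ρ, w, τ⁻¹ * u * τ, hw, hρ, (isD_conj hτ hu).2, rfl⟩) hcb.le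
    rwa [mul_div_cancel₀ _ hcb.ne'] at h2
  · show φ (w * u * τ) = 0
    obtain ⟨hD, he⟩ := wtw hw hτ
    have hB : w * τ * w⁻¹ ∈ Bp p n := isD_Bt hD (id : Fin n → Fin n)
    rw [he u, hφ.vv.left _ hB, hφ.zero ρ w hw hρ hk _ (isD_conj hτ hu).2, mul_zero]

end

end Pool.Agent.Lib.MP_f399a8_nt.S
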