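import Pool.Agent.Lib.MP_f399a8_ntS.TiA

/-!
# Closure relations of the strata

PROOF of `bruhat_ineq`.  Let `Y = w * u * w'⁻¹ = b⁻¹ * b' * n'` (`w = w_σ`, `w' = w_τ`), `Y = c * n'` with
`c ∈ Bp`, `n' ∈ U Lo`.  Entries: `Y k l = ± u (σ k) (τ l)` (like `mon_conj`; `w'⁻¹` is the transpose of `w'`).  Fix
`i` and restrict to the rows and columns `≥ i` (index type `{k // i ≤ k}`, `Matrix.submatrix`): the submatrix of `Y` is
the product of the submatrices of `c` and `n'` (`c k l = 0` for `l < i ≤ k`), which are upper and lower triangular with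
nonzero diagonals (`bp_diag`), so its determinant is not zero (`Matrix.det_of_upperTriangular`,
`Matrix.det_of_lowerTriangular`).  By the Leibniz formula there is a permutation `ρ` of `{k // i ≤ k}` with
`Y k (ρ k) ≠ 0` for all `k`, so `u (σ k) (τ (ρ k)) ≠ 0`, so `π (σ k) ≤ π (τ (ρ k))` (`U (Ord π)`).  Sum over `k`.
PROOF of `hs_eq`: `HS π σ = ∑_i ∑_{k ≥ i} π (σ k)` (`k` occurs for `k + 1` values of `i`), so `HS π σ ≤ HS π τ`; if
equality holds then all the partial sums agree, and by subtraction (`i` and `i + 1`) `π (σ i) = π (τ i)`, so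
`σ = τ`.  (Downward induction on `i`, or compare the sums for `{k ≥ i}` and `{k > i}`.)
`key_lt`, `key_inj`: `equivFin σ < card`.
-/

namespace Pool.Agent.Lib.MP_f399a8_nt.S

open Matrix Filter Topology

variable {p : ℕ} [Fact p.Prime] {n : ℕ}

theorem TiB_sum {M : Type*} [AddCommMonoid M] (i : Fin n) (f : Fin n → M) :
    ∑ k ∈ Finset.univ.filter (fun k => i ≤ k), f k = ∑ k : {k : Fin n // i ≤ k}, f k.1 := by
  rw [← Finset.sum_subtype_of_mem (p := fun k => i ≤ k)
    (f := f) (s := Finset.univ.filter (fun m => i ≤ m))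
    (fun x hx => (Finset.mem_filter.mp hx).2)]
  refine Finset.sum_congr ?_ fun _ _ => rfl
  ext x
  simp [x.2]

theorem TiB_entry {σ τ : Equiv.Perm (Fin n)} {w w' u : SLp p n} (hw : IsMon σ w)
    (hw' : IsMon τ w') (k l : Fin n) (h : (w * u * w'⁻¹).1 k l ≠ 0) : u.1 (σ k) (τ l) ≠ 0 := by
  intro h0
  apply h
  show ((w * u).1 * (w'⁻¹).1) k l = 0
  rw [Matrix.mul_apply]
  refine Finset.sum_eq_zero fun m _ => ?_
  by_cases hm : l = τ⁻¹ m
  · have hm' : m = τ l := by rw [hm]; simp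
    have h1 : (w * u).1 k m = 0 := by
      show (w.1 * u.1) k m = 0
      rw [Matrix.mul_apply]
      refine Finset.sum_eq_zero fun j _ => ?_
      by_cases hj : j = σ k
      · rw [hj, hm', h0, mul_zero]
      · rw [(hw k j).2 hj, zero_mul]
    rw [h1, zero_mul]
  · rw [(mon_inv hw' m l).2 hm, mul_zero]

theorem TiB_det {c n' : SLp p n} (hc : c ∈ Bp p n) (hn' : n' ∈ U p (Lo : Fin n → Fin n → Prop))
    (i : Fin n) :
    ((c * n').1.submatrix (fun k : {k : Fin n // i ≤ k} => k.1)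
      (fun k : {k : Fin n // i ≤ k} => k.1)).det ≠ 0 := by
  have h1 : (c * n').1.submatrix (fun k : {k : Fin n // i ≤ k} => k.1)
      (fun k : {k : Fin n // i ≤ k} => k.1) =
      c.1.submatrix (fun k : {k : Fin n // i ≤ k} => k.1) (fun k : {k : Fin n // i ≤ k} => k.1) *
      n'.1.submatrix (fun k : {k : Fin n // i ≤ k} => k.1)
        (fun k : {k : Fin n // i ≤ k} => k.1) := by
    ext k l
    show (c.1 * n'.1) k.1 l.1 = _
    rw [Matrix.mul_apply, Matrix.mul_apply]
    simp only [Matrix.submatrix_apply]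
    rw [← TiB_sum i (fun m => c.1 k.1 m * n'.1 m l.1), Finset.sum_filter]
    refine Finset.sum_congr rfl fun m _ => ?_
    split_ifs with hm
    · rfl
    · have h2 : c.1 k.1 m = 0 := hc k.1 m (lt_of_lt_of_le (not_le.mp hm) k.2)
      rw [h2, zero_mul]
  rw [h1, Matrix.det_mul]
  refine mul_ne_zero ?_ ?_
  · rw [Matrix.det_of_isUpperTriangular]
    · exact Finset.prod_ne_zero_iff.mpr fun k _ => (bp_diag hc).1 k.1
    · intro k l hkl
      exact hc k.1 l.1 hkl
  · rw [Matrix.det_of_isLowerTriangular]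
    · refine Finset.prod_ne_zero_iff.mpr fun k _ => ?_
      show n'.1 k.1 k.1 ≠ 0
      rw [U_diag so_Lo hn']
      exact one_ne_zero
    · intro k l hkl
      have hkl' : k.1 < l.1 := hkl
      exact U_zero hn' (ne_of_lt hkl') (fun h => lt_asymm hkl' h)

theorem bruhat_ineq {π σ τ : Equiv.Perm (Fin n)} {w w' b b' u n' : SLp p n} (hw : IsMon σ w)
    (hw' : IsMon τ w') (hb : b ∈ Bp p n) (hb' : b' ∈ Bp p n) (hu : u ∈ U p (Ord π))
    (hn' : n' ∈ U p (Lo : Fin n → Fin n → Prop)) (h : b * w * u = b' * n' * w') (i : Fin n) :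
    ∑ k ∈ Finset.univ.filter (fun k => i ≤ k), (π (σ k) : ℕ) ≤
      ∑ k ∈ Finset.univ.filter (fun k => i ≤ k), (π (τ k) : ℕ) := by
  have hc : b⁻¹ * b' ∈ Bp p n := (Bp p n).mul_mem ((Bp p n).inv_mem hb) hb'
  have hY : w * u * w'⁻¹ = (b⁻¹ * b') * n' := by
    have h2 : w * u = b⁻¹ * (b' * n' * w') := by rw [← h]; group
    rw [h2]; group
  have hdet := TiB_det hc hn' i
  rw [← hY, Matrix.det_apply] at hdet
  obtain ⟨ρ, _, hρ⟩ := Finset.exists_ne_zero_of_sum_ne_zero hdet
  have hρ2 : ∏ k : {k : Fin n // i ≤ k}, ((w * u * w'⁻¹).1.submatrix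
      (fun k : {k : Fin n // i ≤ k} => k.1) (fun k : {k : Fin n // i ≤ k} => k.1)) (ρ k) k ≠ 0 := by
    intro h0
    apply hρ
    rw [h0, smul_zero]
  rw [Finset.prod_ne_zero_iff] at hρ2
  have h3 : ∀ k : {k : Fin n // i ≤ k}, (π (σ (ρ k).1) : ℕ) ≤ (π (τ k.1) : ℕ) := by
    intro k
    have h4 : u.1 (σ (ρ k).1) (τ k.1) ≠ 0 := TiB_entry hw hw' _ _ (hρ2 k (Finset.mem_univ _))
    by_contra h5
    have h6 : π (τ k.1) < π (σ (ρ k).1) := Fin.lt_def.mpr (not_le.mp h5)
    apply h4
    refine U_zero hu ?_ ?_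
    · intro h7
      rw [h7] at h6
      exact lt_irrefl _ h6
    · intro h7
      exact lt_asymm h6 h7
  rw [TiB_sum i (fun k => (π (σ k) : ℕ)), TiB_sum i (fun k => (π (τ k) : ℕ)),
    ← Equiv.sum_comp ρ]
  exact Finset.sum_le_sum fun k _ => h3 k

theorem TiB_HS (π σ : Equiv.Perm (Fin n)) :
    HS π σ = ∑ i : Fin n, ∑ k ∈ Finset.univ.filter (fun k => i ≤ k), (π (σ k) : ℕ) := by
  have h1 : ∀ i : Fin n, ∑ k ∈ Finset.univ.filter (fun k => i ≤ k), (π (σ k) : ℕ) =
      ∑ k : Fin n, if i ≤ k then (π (σ k) : ℕ) else 0 := fun i => Finset.sum_filter _ _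
  rw [Finset.sum_congr rfl fun i _ => h1 i, Finset.sum_comm]
  unfold HS
  refine Finset.sum_congr rfl fun k _ => ?_
  rw [← Finset.sum_filter, Finset.sum_const, smul_eq_mul]
  congr 1
  have : Finset.univ.filter (fun i : Fin n => i ≤ k) = Finset.Iic k := by
    ext x; simp
  rw [this, Fin.card_Iic]

theorem hs_eq {π σ τ : Equiv.Perm (Fin n)}
    (h : ∀ i, ∑ k ∈ Finset.univ.filter (fun k => i ≤ k), (π (σ k) : ℕ) ≤
      ∑ k ∈ Finset.univ.filter (fun k => i ≤ k), (π (τ k) : ℕ)) :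
    HS π σ < HS π τ ∨ σ = τ := by
  by_cases h0 : HS π σ < HS π τ
  · exact Or.inl h0
  right
  have h1 : ∀ i : Fin n, ∑ k ∈ Finset.univ.filter (fun k => i ≤ k), (π (σ k) : ℕ) =
      ∑ k ∈ Finset.univ.filter (fun k => i ≤ k), (π (τ k) : ℕ) := by
    rw [TiB_HS, TiB_HS] at h0
    have h2 := (Finset.sum_eq_sum_iff_of_le (s := Finset.univ) (fun i _ => h i)).mp
      (le_antisymm (Finset.sum_le_sum fun i _ => h i) (not_lt.mp h0))
    exact fun i => h2 i (Finset.mem_univ _)
  have h3 : ∀ m : ℕ, ∀ i : Fin n, n ≤ (i : ℕ) + m → σ i = τ i := by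
    intro m
    induction m with
    | zero => intro i hi; exact absurd i.2 (by omega)
    | succ m ih =>
      intro i hi
      have h4 : ∀ f : Fin n → ℕ, ∑ k ∈ Finset.univ.filter (fun k => i ≤ k), f k =
          f i + ∑ k ∈ Finset.univ.filter (fun k => i < k), f k := by
        intro f
        have : Finset.univ.filter (fun k => i ≤ k) =
            insert i (Finset.univ.filter (fun k => i < k)) := by
          ext x
          simp only [Finset.mem_filter, Finset.mem_univ, true_and, Finset.mem_insert]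
          rw [le_iff_eq_or_lt, eq_comm]
        rw [this, Finset.sum_insert (by simp)]
      have h5 := h1 i
      rw [h4, h4] at h5
      have h6 : ∑ k ∈ Finset.univ.filter (fun k => i < k), (π (σ k) : ℕ) =
          ∑ k ∈ Finset.univ.filter (fun k => i < k), (π (τ k) : ℕ) := by
        refine Finset.sum_congr rfl fun k hk => ?_
        rw [ih k]
        have : i < k := (Finset.mem_filter.mp hk).2
        have : (i : ℕ) < (k : ℕ) := this
        omega
      have h7 : (π (σ i) : ℕ) = (π (τ i) : ℕ) := by omega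
      exact π.injective (Fin.ext h7)
  exact Equiv.ext fun i => h3 n i (by omega)

theorem key_lt {π σ τ : Equiv.Perm (Fin n)} (h : HS π σ < HS π τ) : key π σ < key π τ := by
  unfold key
  have h1 := (Fintype.equivFin (Equiv.Perm (Fin n)) σ).2
  have h2 : (HS π σ + 1) * Fintype.card (Equiv.Perm (Fin n)) ≤
      HS π τ * Fintype.card (Equiv.Perm (Fin n)) := Nat.mul_le_mul_right _ h
  rw [add_mul, one_mul] at h2
  omega

theorem key_inj {π σ τ : Equiv.Perm (Fin n)} (h : key π σ = key π τ) : σ = τ := by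
  have h1 : HS π σ = HS π τ := by
    rcases lt_trichotomy (HS π σ) (HS π τ) with h2 | h2 | h2
    · exact absurd h (ne_of_lt (key_lt h2))
    · exact h2
    · exact absurd h.symm (ne_of_lt (key_lt h2))
  unfold key at h
  rw [h1] at h
  have h2 : (Fintype.equivFin (Equiv.Perm (Fin n)) σ : ℕ) =
      (Fintype.equivFin (Equiv.Perm (Fin n)) τ : ℕ) := Nat.add_left_cancel h
  exact (Fintype.equivFin (Equiv.Perm (Fin n))).injective (Fin.ext h2)

end Pool.Agent.Lib.MP_f399a8_nt.S
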