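import Pool.Agent.Lib.MP_f399a8_ntS.TiB

/-!
# The identity has minimal height

PROOF of `hs_one`: `σ` preserves `v`, `π` sorts `v`.  Claim: `HS π 1 ≤ HS π σ`.  Rearrangement inequality inside the classes
of `v`: for `k < l` with `v k = v l`, `π l < π k`.  E.g. `∑_k (k+1) π (σ k) = ∑_k (σ⁻¹ k + 1) π k`, and Mathlib's
`AntivaryOn.sum_mul_le_sum_mul_comp_perm`-type theorems (`Antivary` of `k ↦ k + 1` and `π` restricted to a class).
Equality case: `hs_one_eq`: if `HS π σ = HS π 1` then `σ = 1`.  A direct proof of both: if `σ ≠ 1` and `σ` is `Wt`, there are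
`k < l` with `v (σ k) = v (σ l)` (same class) and `σ l < σ k`, so `π (σ k) < π (σ l)`; replacing `σ` by `σ * swap k l` changes
`HS` by `(k - l)(π (σ l) - π (σ k)) < 0`; so a minimizer of `HS π` on the finite set of `Wt` permutations must be `1`, and
it is the unique one.  [`σ ≠ 1` in `Wt`: if for all `k < l` in the same class `σ k < σ l`, then `σ` is increasing on each class,
which it maps to itself, so it is the identity: e.g. take the smallest `k` with `σ k ≠ k`, then `σ k > k`
and `σ⁻¹ k > k` is in the same class with `σ (σ⁻¹ k) = k < σ k`.]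
PROOF of `adj_exists`: suppose that for all `a b` with `π b = π a + 1`, `v a = v b` we have `σ⁻¹ b < σ⁻¹ a`.  If
`v i = v j` and `π i < π j` then all positions between have the same slope (`IsSorted`: `v` is monotone along `π`), so
by induction on `π j - π i`, `σ⁻¹ j < σ⁻¹ i`.  So for `k < l` with `v k = v l` (then `π l < π k`), `σ⁻¹ k < σ⁻¹ l`:
`σ⁻¹` is increasing on the classes and preserves them, so `σ⁻¹ = 1` as above.
-/

namespace Pool.Agent.Lib.MP_f399a8_nt.S

variable {p : ℕ} [Fact p.Prime] {n : ℕ}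

private theorem TiB2_inc {v : Fin n → ℝ} {σ : Equiv.Perm (Fin n)} (hσ : Wt v σ)
    (h : ∀ k l : Fin n, k < l → v k = v l → σ k < σ l) : σ = 1 := by
  by_contra h1
  have h2 : ∃ k : Fin n, σ k ≠ k := by
    by_contra h3
    push Not at h3
    exact h1 (Equiv.ext h3)
  have hwf : WellFounded ((· < ·) : Fin n → Fin n → Prop) := wellFounded_lt
  obtain ⟨k, hk, hmin⟩ := hwf.has_min {k : Fin n | σ k ≠ k} h2
  have hk' : σ k ≠ k := hk
  have hfix : ∀ j, j < k → σ j = j := by
    intro j hj
    by_contra h3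
    exact hmin j h3 hj
  have h4 : k < σ k := by
    rcases lt_trichotomy (σ k) k with h5 | h5 | h5
    · exact absurd (σ.injective (hfix _ h5)) hk'
    · exact absurd h5 hk'
    · exact h5
  have h6 : σ (σ⁻¹ k) = k := σ.apply_symm_apply k
  have h7 : k < σ⁻¹ k := by
    rcases lt_trichotomy (σ⁻¹ k) k with h5 | h5 | h5
    · exfalso
      have h8 := hfix _ h5
      rw [h6] at h8
      exact (ne_of_lt h5) h8.symm
    · exfalso
      rw [h5] at h6
      exact hk' h6
    · exact h5
  have h8 : v k = v (σ⁻¹ k) := by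
    rw [← hσ (σ⁻¹ k), h6]
  have h9 := h k (σ⁻¹ k) h7 h8
  rw [h6] at h9
  exact lt_asymm h4 h9

private theorem TiB2_ar {a b x y : ℕ} (h1 : a < b) (h2 : x < y) :
    a * y + b * x < a * x + b * y := by
  zify at *
  nlinarith [mul_pos (sub_pos.2 h1) (sub_pos.2 h2)]

private theorem TiB2_swap {v : Fin n → ℝ} {π σ : Equiv.Perm (Fin n)} (hπ : IsSorted v π)
    (hσ : Wt v σ) {k l : Fin n} (hkl : k < l) (hv : v k = v l) (h : σ l < σ k) :
    HS π (σ * Equiv.swap k l) < HS π σ ∧ Wt v (σ * Equiv.swap k l) := by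
  have hne : l ≠ k := hkl.ne'
  have hsum : ∀ f : Fin n → ℕ, ∑ x, f x =
      f k + (f l + ∑ x ∈ (Finset.univ.erase k).erase l, f x) := by
    intro f
    rw [Finset.add_sum_erase _ _ (Finset.mem_erase.mpr ⟨hne, Finset.mem_univ _⟩),
      Finset.add_sum_erase _ _ (Finset.mem_univ _)]
  have hval : ∀ x, (σ * Equiv.swap k l) x = σ (Equiv.swap k l x) := fun x => rfl
  constructor
  · unfold HS
    rw [hsum, hsum (fun x => ((x : ℕ) + 1) * (π (σ x) : ℕ))]
    have h1 : ∑ x ∈ (Finset.univ.erase k).erase l,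
        ((x : ℕ) + 1) * (π ((σ * Equiv.swap k l) x) : ℕ) =
        ∑ x ∈ (Finset.univ.erase k).erase l, ((x : ℕ) + 1) * (π (σ x) : ℕ) := by
      refine Finset.sum_congr rfl fun x hx => ?_
      rw [Finset.mem_erase, Finset.mem_erase] at hx
      rw [hval, Equiv.swap_apply_of_ne_of_ne hx.2.1 hx.1]
    rw [h1, hval, hval, Equiv.swap_apply_left, Equiv.swap_apply_right]
    have h2 : π (σ k) < π (σ l) := by
      rw [hπ]
      right
      exact ⟨by rw [hσ, hσ, hv], h⟩
    have h3 : ((k : ℕ) + 1) < ((l : ℕ) + 1) := by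
      have : (k : ℕ) < l := hkl
      omega
    have h4 : (π (σ k) : ℕ) < (π (σ l) : ℕ) := h2
    have h5 := TiB2_ar h3 h4
    omega
  · intro x
    rw [hval, hσ]
    by_cases h1 : x = k
    · rw [h1, Equiv.swap_apply_left, hv]
    · by_cases h2 : x = l
      · rw [h2, Equiv.swap_apply_right, hv]
      · rw [Equiv.swap_apply_of_ne_of_ne h1 h2]

theorem hs_one {v : Fin n → ℝ} {π σ : Equiv.Perm (Fin n)} (hπ : IsSorted v π) (hσ : Wt v σ) :
    HS π 1 < HS π σ ∨ σ = 1 := by
  obtain ⟨N, hN⟩ : ∃ N, N = HS π σ := ⟨_, rfl⟩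
  induction N using Nat.strong_induction_on generalizing σ with
  | _ N ih =>
    by_cases h1 : σ = 1
    · exact Or.inr h1
    · left
      have h2 : ∃ k l : Fin n, k < l ∧ v k = v l ∧ σ l < σ k := by
        by_contra h3
        push Not at h3
        refine h1 (TiB2_inc hσ fun k l hkl hv => ?_)
        refine lt_of_le_of_ne (h3 k l hkl hv) ?_
        intro h4
        exact hkl.ne (σ.injective h4)
      obtain ⟨k, l, hkl, hv, h3⟩ := h2
      obtain ⟨h4, h5⟩ := TiB2_swap hπ hσ hkl hv h3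
      rcases ih _ (by rw [hN]; exact h4) h5 rfl with h6 | h6
      · exact h6.trans h4
      · rw [h6] at h4
        exact h4

/-- a nontrivial permutation preserving the slopes has an adjacent inversion -/
theorem adj_exists {v : Fin n → ℝ} {π σ : Equiv.Perm (Fin n)} (hπ : IsSorted v π) (hσ : Wt v σ)
    (h1 : σ ≠ 1) : ∃ a b : Fin n, (π b : ℕ) = (π a : ℕ) + 1 ∧ v a = v b ∧ σ⁻¹ a < σ⁻¹ b := by
  by_contra h2
  push Not at h2
  have hadj : ∀ a b : Fin n, (π b : ℕ) = (π a : ℕ) + 1 → v a = v b → σ⁻¹ b < σ⁻¹ a := by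
    intro a b hab hv
    refine lt_of_le_of_ne (h2 a b hab hv) ?_
    intro h3
    have h4 : b = a := (σ⁻¹).injective h3
    rw [h4] at hab
    omega
  have hle : ∀ i j : Fin n, π i < π j → v i ≤ v j := by
    intro i j hij
    rcases (hπ i j).mp hij with h3 | h3
    · exact h3.le
    · exact h3.1.le
  have hind : ∀ d : ℕ, ∀ i j : Fin n, v i = v j → (π j : ℕ) = (π i : ℕ) + d + 1 →
      σ⁻¹ j < σ⁻¹ i := by
    intro d
    induction d with
    | zero =>
      intro i j hv hij
      exact hadj i j hij hv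
    | succ d ih =>
      intro i j hv hij
      have hlt : (π i : ℕ) + 1 < n := by
        have := (π j).isLt
        omega
      obtain ⟨m, hm⟩ : ∃ m, π m = ⟨(π i : ℕ) + 1, hlt⟩ := ⟨π⁻¹ _, π.apply_symm_apply _⟩
      have hm' : (π m : ℕ) = (π i : ℕ) + 1 := by rw [hm]
      have h3 : v i ≤ v m := hle i m (by
        show (π i : ℕ) < (π m : ℕ)
        omega)
      have h4 : v m ≤ v j := hle m j (by
        show (π m : ℕ) < (π j : ℕ)
        omega)
      have h5 : v i = v m := le_antisymm h3 (by rw [hv]; exact h4)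
      have h6 := hadj i m hm' h5
      have h7 := ih m j (by rw [← h5, hv]) (by omega)
      exact h7.trans h6
  have hinv : Wt v σ⁻¹ := by
    intro i
    rw [← hσ (σ⁻¹ i)]
    exact congrArg v (σ.apply_symm_apply i)
  have h3 : σ⁻¹ = 1 := by
    refine TiB2_inc hinv fun k l hkl hv => ?_
    have h4 : π l < π k := by
      rw [hπ]
      right
      exact ⟨hv.symm, hkl⟩
    have h5 : (π l : ℕ) < (π k : ℕ) := h4
    exact hind ((π k : ℕ) - (π l : ℕ) - 1) l k hv.symm (by omega)
  exact h1 (inv_eq_one.mp h3)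

end Pool.Agent.Lib.MP_f399a8_nt.S
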