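import Pool.Agent.Lib.MP_f399a8_ntS.TiA

/-!
# Decomposition of `U (Ord π)` at a stratum

`Ast π σ a b`: `π a < π b` and `σ⁻¹ a < σ⁻¹ b` (the part going to `Bp`), `Fst π σ a b`: `π a < π b` and
`σ⁻¹ b < σ⁻¹ a`.  `pR R` is the retraction to `U R` (keep the entries in `R`).

PROOF.
* `as_fs`: `lu` with `R = Ord π` and `ℓ` the permutation `i ↦ rev (σ⁻¹ i)` (`Fin.revPerm`), so that
  `ℓ j < ℓ i ↔ σ⁻¹ i < σ⁻¹ j`: first factor in `Ast`, second in `Fst`.
* `as_unique`: `a * f = a' * f'` gives `a'⁻¹ * a = f' * f⁻¹`, in `U Ast ∩ U Fst`, so `1` (`U_mul`, `U_inv`; the supports are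
  disjoint).
* `as_Bp`: `w * a * w⁻¹ ∈ U (fun i j => Ast (σ i) (σ j))` (`U_mon_conj`), which implies `i < j`; so it is in
  `Bp` and unipotent.  `fs_Lo`: similarly `w * f * w⁻¹ ∈ U Lo`.
* `as_left`: `w * (a * z) = (w * a * w⁻¹) * (w * z)` and `cb_unip`.
* `mon_two`: `w' * w⁻¹` is diagonal with entries `± 1`.
* `pR`: the matrix with entries `x i j` for `R i j` and `1 i j` otherwise has determinant `1` (a strict order has a linear
  extension; or: it is `1 + N` with `N` nilpotent; or the Leibniz formula: a permutation with nonzero product other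
  than `1` would have a cycle in `R`).  Continuity: entries are continuous.
-/

namespace Pool.Agent.Lib.MP_f399a8_nt.S

open Matrix Filter Topology

noncomputable section

variable {p : ℕ} [Fact p.Prime] {n : ℕ} {C : Type*} [NormedField C]

/-- the part of the order going to the Borel subgroup -/
def Ast (π σ : Equiv.Perm (Fin n)) : Fin n → Fin n → Prop :=
  fun a b => π a < π b ∧ σ⁻¹ a < σ⁻¹ b

/-- the part of the order going to lower triangular matrices -/
def Fst (π σ : Equiv.Perm (Fin n)) : Fin n → Fin n → Prop :=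
  fun a b => π a < π b ∧ σ⁻¹ b < σ⁻¹ a

theorem so_Ast (π σ : Equiv.Perm (Fin n)) : SO (Ast π σ) :=
  ⟨fun _ h => lt_irrefl _ h.1, fun _ _ _ h1 h2 => ⟨lt_trans h1.1 h2.1, lt_trans h1.2 h2.2⟩⟩

theorem so_Fst (π σ : Equiv.Perm (Fin n)) : SO (Fst π σ) :=
  ⟨fun _ h => lt_irrefl _ h.1, fun _ _ _ h1 h2 => ⟨lt_trans h1.1 h2.1, lt_trans h2.2 h1.2⟩⟩

private theorem TiC_inv (σ : Equiv.Perm (Fin n)) (i : Fin n) : σ⁻¹ (σ i) = i := by
  simp

theorem as_fs (π σ : Equiv.Perm (Fin n)) {z : SLp p n} (hz : z ∈ U p (Ord π)) :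
    ∃ a ∈ U p (Ast π σ), ∃ f ∈ U p (Fst π σ), z = a * f ∧
      (z ∈ Kp p n → a ∈ Kp p n ∧ f ∈ Kp p n) := by
  obtain ⟨y, hy, x, hx, h1, h2, _⟩ := lu (so_ord π) (Fin.revPerm * σ⁻¹) hz
  refine ⟨y, U_mono ?_ hy, x, U_mono ?_ hx, h1, h2⟩
  · rintro i j ⟨h3, h4⟩
    rw [Equiv.Perm.mul_apply, Equiv.Perm.mul_apply, Fin.revPerm_apply, Fin.revPerm_apply,
      Fin.rev_lt_rev] at h4
    exact ⟨h3, h4⟩
  · rintro i j ⟨h3, h4⟩
    rw [Equiv.Perm.mul_apply, Equiv.Perm.mul_apply, Fin.revPerm_apply, Fin.revPerm_apply,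
      Fin.rev_lt_rev] at h4
    exact ⟨h3, h4⟩

theorem as_unique {π σ : Equiv.Perm (Fin n)} {a a' f f' : SLp p n} (ha : a ∈ U p (Ast π σ))
    (ha' : a' ∈ U p (Ast π σ)) (hf : f ∈ U p (Fst π σ)) (hf' : f' ∈ U p (Fst π σ))
    (h : a * f = a' * f') : a = a' ∧ f = f' := by
  have h1 : a'⁻¹ * a = f' * f⁻¹ := by
    rw [inv_mul_eq_iff_eq_mul, ← mul_assoc, ← h, mul_assoc, mul_inv_cancel, mul_one]
  have h2 : a'⁻¹ * a ∈ U p (Ast π σ) := U_mul (so_Ast π σ) (U_inv (so_Ast π σ) ha') ha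
  have h3 : a'⁻¹ * a ∈ U p (Fst π σ) := by
    rw [h1]
    exact U_mul (so_Fst π σ) hf' (U_inv (so_Fst π σ) hf)
  have h4 : a'⁻¹ * a = 1 := by
    ext i j
    rw [Matrix.SpecialLinearGroup.coe_one]
    by_cases hij : Ast π σ i j
    · exact h3 i j fun h5 => lt_asymm hij.2 h5.2
    · exact h2 i j hij
  refine ⟨(inv_mul_eq_one.mp h4).symm, ?_⟩
  rw [h1] at h4
  exact (mul_inv_eq_one.mp h4).symm

theorem as_Bp {π σ : Equiv.Perm (Fin n)} {w a : SLp p n} (hw : IsMon σ w)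
    (ha : a ∈ U p (Ast π σ)) : w * a * w⁻¹ ∈ Bp p n ∧ ∀ i, (w * a * w⁻¹).1 i i = 1 := by
  have h1 := U_mon_conj hw ha
  refine ⟨U_Bp (fun i j hij => ?_) h1, fun i => ?_⟩
  · have h2 := hij.2
    rw [TiC_inv, TiC_inv] at h2
    exact h2
  · rw [h1 i i fun h2 => lt_irrefl _ h2.1, Matrix.one_apply_eq]

theorem fs_Lo {π σ : Equiv.Perm (Fin n)} {w f : SLp p n} (hw : IsMon σ w)
    (hf : f ∈ U p (Fst π σ)) : w * f * w⁻¹ ∈ U p (Lo : Fin n → Fin n → Prop) := by
  refine U_mono (fun i j hij => ?_) (U_mon_conj hw hf)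
  have h2 := hij.2
  rw [TiC_inv, TiC_inv] at h2
  exact h2

theorem as_left {χ : Tor p n →* Cˣ} {φ : SLp p n → C}
    (hφ : ∀ b ∈ Bp p n, ∀ x, φ (b * x) = cb χ b * φ x) {π σ : Equiv.Perm (Fin n)}
    {w a : SLp p n} (hw : IsMon σ w) (ha : a ∈ U p (Ast π σ)) (z : SLp p n) :
    φ (w * (a * z)) = φ (w * z) := by
  obtain ⟨h1, h2⟩ := as_Bp hw ha
  have h3 : w * (a * z) = w * a * w⁻¹ * (w * z) := by
    rw [mul_assoc (w * a), inv_mul_cancel_left, mul_assoc]
  rw [h3, hφ _ h1, cb_unip χ h2, one_mul]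

theorem mon_two {σ : Equiv.Perm (Fin n)} {w w' : SLp p n} (hw : IsMon σ w) (hw' : IsMon σ w') :
    ∃ δ : SLp p n, IsD δ ∧ δ ∈ Kp p n ∧ w' = δ * w := by
  have h1 := mon_mul hw' (mon_inv hw)
  rw [inv_mul_cancel] at h1
  refine ⟨w' * w⁻¹, fun i j hij => ?_, mon_Kp h1, ?_⟩
  · exact (h1 i j).2 fun h2 => hij h2.symm
  · rw [inv_mul_cancel_right]

open Classical in
theorem pR_det (R : Fin n → Fin n → Prop) (hR : SO R) (x : SLp p n) :
    (Matrix.of fun i j => if R i j then x.1 i j else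
      (1 : Matrix (Fin n) (Fin n) ℚ_[p]) i j).det = 1 := by
  set M : Matrix (Fin n) (Fin n) ℚ_[p] := Matrix.of fun i j => if R i j then x.1 i j else
      (1 : Matrix (Fin n) (Fin n) ℚ_[p]) i j with hM
  have hMap : ∀ i j, M i j = if R i j then x.1 i j else (1 : Matrix (Fin n) (Fin n) ℚ_[p]) i j :=
    fun i j => rfl
  set b : Fin n → ℕ := fun i => (Finset.univ.filter fun k => R k i).card with hb
  have hlt : ∀ i j, R i j → b i < b j := by
    intro i j hij
    refine Finset.card_lt_card ⟨fun k hk => ?_, fun h => ?_⟩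
    · rw [Finset.mem_filter] at hk ⊢
      exact ⟨Finset.mem_univ _, hR.tr _ _ _ hk.2 hij⟩
    · have h1 : i ∈ Finset.univ.filter fun k => R k i := h (by
        rw [Finset.mem_filter]
        exact ⟨Finset.mem_univ _, hij⟩)
      rw [Finset.mem_filter] at h1
      exact hR.irr i h1.2
  have hbt : M.BlockTriangular b := by
    intro i j hij
    have h1 : ¬ R i j := fun h => lt_asymm hij (hlt i j h)
    have h2 : i ≠ j := by
      rintro rfl
      exact lt_irrefl _ hij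
    rw [hMap, if_neg h1, Matrix.one_apply_ne h2]
  rw [hbt.det]
  refine Finset.prod_eq_one fun a _ => ?_
  have h3 : M.toSquareBlock b a = 1 := by
    ext i j
    show M i.1 j.1 = _
    have h1 : ¬ R i.1 j.1 := fun h => by
      have h4 := hlt _ _ h
      have h5 : b i.1 = a := i.2
      have h6 : b j.1 = a := j.2
      omega
    rw [hMap, if_neg h1, Matrix.one_apply, Matrix.one_apply]
    refine if_congr ?_ rfl rfl
    exact Subtype.ext_iff.symm
  rw [h3, Matrix.det_one]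

open Classical in
/-- the retraction to `U R` -/
def pR (R : Fin n → Fin n → Prop) (hR : SO R) (x : SLp p n) : SLp p n :=
  ⟨Matrix.of fun i j => if R i j then x.1 i j else (1 : Matrix (Fin n) (Fin n) ℚ_[p]) i j,
    pR_det R hR x⟩

theorem pR_mem (R : Fin n → Fin n → Prop) (hR : SO R) (x : SLp p n) : pR R hR x ∈ U p R := by
  classical
  intro i j hij
  show (if R i j then x.1 i j else (1 : Matrix (Fin n) (Fin n) ℚ_[p]) i j) = _
  rw [if_neg hij]

theorem pR_id {R : Fin n → Fin n → Prop} (hR : SO R) {x : SLp p n} (hx : x ∈ U p R) :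
    pR R hR x = x := by
  classical
  ext i j
  show (if R i j then x.1 i j else (1 : Matrix (Fin n) (Fin n) ℚ_[p]) i j) = _
  split_ifs with h
  · rfl
  · exact (hx i j h).symm

theorem pR_cont (R : Fin n → Fin n → Prop) (hR : SO R) :
    Continuous (pR R hR : SLp p n → SLp p n) := by
  classical
  refine Continuous.subtype_mk (continuous_matrix fun i j => ?_) _
  show Continuous fun x : SLp p n => if R i j then x.1 i j else
    (1 : Matrix (Fin n) (Fin n) ℚ_[p]) i j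
  by_cases h : R i j
  · simp only [if_pos h]
    exact continuous_entry i j
  · simp only [if_neg h]
    exact continuous_const

end

end Pool.Agent.Lib.MP_f399a8_nt.S
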