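import Pool.Agent.Lib.MP_f399a8_ntS.TiB
import Pool.Agent.Lib.MP_f399a8_ntS.TiC
import Pool.Agent.Lib.MP_f399a8_ntS.TiA2
import Pool.Agent.Lib.MP_f399a8_ntS.LUc

/-!
# Vanishing at infinity on a stratum

PROOF of `n_cont`: suppose `b_q * u_q → b * u` with `b_q, b ∈ Bp`, `u_q, u ∈ U Lo`; then `u_q → u`.  Let
`y_q = (b u)⁻¹ * (b_q u_q) → 1` and `y'_q = u * y_q * u⁻¹ → 1`: `b⁻¹ * b_q * (u_q * u⁻¹) = y'_q`.  For every `m ≥ 1`, `q` large,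
`y'_q ∈ Km m`, so `y'_q = b'' * n''` with `n'' ∈ U Lo ∩ Km m` (`cell_small`) and by `bu_unique`
`u_q * u⁻¹ = n''`.  So `u_q * u⁻¹ → 1`.
PROOF of `c0_strat`.  Let `A` bound `f` on `Kp`, and suppose the set is not bounded: there are `u_q ∈ U (Fst π σ)`
(`q : ℕ`) with `δ ≤ ‖f (w * u_q)‖` and some entry of norm `> q`.  Write `w * u_q = b_q * κ_q` (`iwasawa`); let
`r_q = ‖cb χ b_q‖ = Om v (w * u_q) ≤ 1` (`om_dd`), `‖f (w * u_q)‖ = r_q * ‖f κ_q‖`, so `r_q ≥ δ / A`.  By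
compactness pass to a subsequence: `κ_q → κ ∈ Kp`, `r_q → r ∈ [δ/A, 1]`.  Let `t` be diagonal with exponents
`e0 v`.  For each `M`: `Om v (t^M κ_q t^-M) = Om v (t^M (w u_q) t^-M) / r_q ≤ 1 / r_q`
(`w u_q ∈ DD`; `t^M (w u_q) t^-M = w * (t^M u_q t^-M) ∈ DD`: `t^M * w * t^-M = w` since `e0 v (σ i) = e0 v i`), so
`Om v (t^M κ t^-M) ≤ 1 / r` (`om_cont`).  `D2`: `κ = b * w' * u'`, `w'` of a `τ` preserving `v`, `u' ∈ U (Ord π)`.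
For `M` large `Om v (t^M κ t^-M) = ‖cb χ b‖` (`om_lim`, `om_cb`, `cb_conj`), so `‖cb χ b‖ ≤ 1 / r`.  `‖f κ‖ = lim ‖f κ_q‖
≥ lim δ / r_q = δ / r`, so `‖f (w' * u')‖ = ‖f κ‖ / ‖cb χ b‖ ≥ δ`.  By hypothesis not `key π σ < key π τ`.
Decompose `u' = a' * f'` (`as_fs` for `τ`): `w' * u' = (w' a' w'⁻¹) * (w' f' w'⁻¹) * w'`, so
`κ * w'⁻¹ ∈ Bp * U Lo`, and `κ_q = b_q⁻¹ * w * u_q → κ`.  `κ⁻¹ * κ_q → 1`, so for `q` large
`κ_q = κ * y`, `κ_q * w'⁻¹ = (κ * w'⁻¹) * (w' * y * w'⁻¹) ∈ Bp * U Lo` by `cell_small` (conjugate the small element by the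
`U Lo` part: `b₁ * u₁ * y'' = b₁ * (u₁ y'' u₁⁻¹) * u₁`, `u₁ y'' u₁⁻¹` small, so in `Bp * U Lo`).  So
`b_q⁻¹ * w * u_q = b' * n' * w'` and by `bruhat_ineq`, `hs_eq`, `key_lt`: `key π σ < key π τ` or `σ = τ`.  Hence `σ = τ`.
Then by `mon_two` `w' = δ' * w`, `κ = b₁ * w * f'` with `b₁ ∈ Bp`, `f' ∈ U (Fst π σ)` (absorb `δ'` and `a'`), and
`b_q⁻¹ * (w u_q w⁻¹) * w → b₁ * (w f' w⁻¹) * w`.  By `n_cont` (`fs_Lo`) `w u_q w⁻¹ → w f' w⁻¹`, so `u_q` converges,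
which contradicts the unboundedness.
-/

namespace Pool.Agent.Lib.MP_f399a8_nt.S

open Matrix Filter Topology

variable {p : ℕ} [Fact p.Prime] {n : ℕ} {C : Type*} [NormedField C]

theorem TiD_nc {ι : Type*} {F : Filter ι} {b u : SLp p n} {bs us : ι → SLp p n}
    (hb : b ∈ Bp p n) (hu : u ∈ U p (Lo : Fin n → Fin n → Prop)) (hbs : ∀ q, bs q ∈ Bp p n)
    (hus : ∀ q, us q ∈ U p (Lo : Fin n → Fin n → Prop))
    (h : Tendsto (fun q => bs q * us q) F (𝓝 (b * u))) : Tendsto us F (𝓝 u) := by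
  have h1 : Tendsto (fun q => b⁻¹ * (bs q * us q) * u⁻¹) F (𝓝 1) := by
    have h2 : Tendsto (fun q => b⁻¹ * (bs q * us q) * u⁻¹) F (𝓝 (b⁻¹ * (b * u) * u⁻¹)) :=
      (tendsto_const_nhds.mul h).mul tendsto_const_nhds
    have h3 : b⁻¹ * (b * u) * u⁻¹ = 1 := by group
    rwa [h3] at h2
  have h4 : Tendsto (fun q => us q * u⁻¹) F (𝓝 1) := by
    rw [tendsto_def]
    intro s hs
    obtain ⟨m, hm⟩ := km_nhds hs
    have h5 : (Km p n (m + 1) : Set (SLp p n)) ∈ 𝓝 (1 : SLp p n) :=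
      (km_open p n (m + 1)).mem_nhds (Km p n (m + 1)).one_mem
    filter_upwards [h1 h5] with q hq
    have hq' : b⁻¹ * (bs q * us q) * u⁻¹ ∈ Km p n (m + 1) := hq
    obtain ⟨b'', hb'', n'', hn'', he, _, hnm⟩ := cell_small (Nat.le_add_left 1 m) hq'
    have h6 : (b⁻¹ * bs q) * (us q * u⁻¹) = b'' * n'' := by
      rw [← he]; group
    have h7 := (bu_unique ((Bp p n).mul_mem ((Bp p n).inv_mem hb) (hbs q)) hb''
      (U_mul so_Lo (hus q) (U_inv so_Lo hu)) hn'' h6).2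
    show us q * u⁻¹ ∈ s
    rw [h7]
    exact hm _ (km_anti (Nat.le_succ m) hnm)
  have h8 : Tendsto (fun q => us q * u⁻¹ * u) F (𝓝 (1 * u)) := h4.mul tendsto_const_nhds
  simpa using h8

theorem n_cont {b u : SLp p n} {bs us : ℕ → SLp p n} (hb : b ∈ Bp p n)
    (hu : u ∈ U p (Lo : Fin n → Fin n → Prop)) (hbs : ∀ q, bs q ∈ Bp p n)
    (hus : ∀ q, us q ∈ U p (Lo : Fin n → Fin n → Prop))
    (h : Tendsto (fun q => bs q * us q) atTop (𝓝 (b * u))) : Tendsto us atTop (𝓝 u) :=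
  TiD_nc hb hu hbs hus h

theorem TiD_fst_ord {π σ : Equiv.Perm (Fin n)} {u : SLp p n} (hu : u ∈ U p (Fst π σ)) :
    u ∈ U p (Ord π) := U_mono (fun _ _ h => h.1) hu

/-- `t^M * w * t^-M = w` for monomial `w` preserving the slopes -/
theorem TiD_tw {v : Fin n → ℝ} {t : SLp p n} (ht : IsDg (e0 v) t) {σ : Equiv.Perm (Fin n)}
    {w : SLp p n} (hw : IsMon σ w) (hσ : Wt v σ) (M : ℕ) : t ^ M * w * (t ^ M)⁻¹ = w := by
  apply Subtype.ext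
  ext i j
  rw [dg_pow_conj ht]
  by_cases hj : j = σ i
  · have h1 : e0 v i = e0 v j := e0_eq (by rw [hj]; exact (hσ i).symm)
    rw [h1, sub_self, mul_zero, zpow_zero, one_mul]
  · rw [(hw i j).2 hj, mul_zero]

theorem TiD_dd {v : Fin n → ℝ} {π : Equiv.Perm (Fin n)} {t : SLp p n} (ht : IsDg (e0 v) t)
    {σ : Equiv.Perm (Fin n)} {w : SLp p n} (hw : IsMon σ w) (hσ : Wt v σ) (M : ℕ)
    {u : SLp p n} (hu : u ∈ U p (Ord π)) : t ^ M * (w * u) * (t ^ M)⁻¹ ∈ DD p v π := by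
  refine ⟨σ, w, t ^ M * u * (t ^ M)⁻¹, hw, hσ, (U_conj (dg_pow ht M) hu).1, ?_⟩
  have h1 := TiD_tw ht hw hσ M
  calc t ^ M * (w * u) * (t ^ M)⁻¹ = (t ^ M * w * (t ^ M)⁻¹) * (t ^ M * u * (t ^ M)⁻¹) := by group
    _ = w * (t ^ M * u * (t ^ M)⁻¹) := by rw [h1]

theorem TiD_om {χ : Tor p n →* Cˣ} {v : Fin n → ℝ} (hs : Slope χ v) {t : SLp p n}
    (ht : IsDg (e0 v) t) (M : ℕ) {b : SLp p n} (hb : b ∈ Bp p n) (x : SLp p n) :
    Om v (t ^ M * (b * x) * (t ^ M)⁻¹) = ‖cb χ b‖ * Om v (t ^ M * x * (t ^ M)⁻¹) := by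
  have hd : IsDg (fun i => (M : ℤ) * e0 v i) (t ^ M) := dg_pow ht M
  have htB : t ^ M ∈ Bp p n := dg_Bt hd _
  have h1 : t ^ M * (b * x) * (t ^ M)⁻¹ = (t ^ M * b * (t ^ M)⁻¹) * (t ^ M * x * (t ^ M)⁻¹) := by
    group
  rw [h1, om_cb hs ((Bp p n).mul_mem ((Bp p n).mul_mem htB hb) ((Bp p n).inv_mem htB)),
    (cb_conj χ hd b).1]

theorem c0_strat {χ : Tor p n →* Cˣ} {v : Fin n → ℝ} (hs : Slope χ v)
    {π : Equiv.Perm (Fin n)} (hπ : IsSorted v π) {f : SLp p n → C} (hf : IsPS χ f)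
    {σ : Equiv.Perm (Fin n)} {w : SLp p n} (hw : IsMon σ w) (hσ : Wt v σ) {δ : ℝ} (hδ : 0 < δ)
    (hz : ∀ (τ : Equiv.Perm (Fin n)) (w' : SLp p n), IsMon τ w' → Wt v τ →
      key π σ < key π τ → ∀ u ∈ U p (Ord π), ‖f (w' * u)‖ < δ) :
    ∃ A : ℝ, ∀ u ∈ U p (Fst π σ), δ ≤ ‖f (w * u)‖ → ∀ i j, ‖u.1 i j‖ ≤ A := by
  by_contra hcon
  push Not at hcon
  obtain ⟨hfc, hfe⟩ := isPS_iff.1 hf
  have hcon' : ∀ q : ℕ, ∃ u ∈ U p (Fst π σ), δ ≤ ‖f (w * u)‖ ∧ ∃ i j, (q : ℝ) < ‖u.1 i j‖ :=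
    fun q => hcon q
  choose us hus hfs hij using hcon'
  have hiw : ∀ q : ℕ, ∃ b ∈ Bp p n, ∃ k ∈ Kp p n, w * us q = b * k := fun q => iwasawa _
  choose bs hbs ks hks hbk using hiw
  obtain ⟨A0, hA0, hA⟩ := ps_bdd (p := p) (n := n) hfc
  obtain ⟨t, ht⟩ := dg_exists (p := p) (e0 v) (e0_sum v)
  have hfk : ∀ q, ‖f (w * us q)‖ = ‖cb χ (bs q)‖ * ‖f (ks q)‖ := by
    intro q
    rw [hbk q, hfe _ (hbs q), norm_mul]
  have hr1 : ∀ q, ‖cb χ (bs q)‖ ≤ 1 := by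
    intro q
    have h1 : Om v (w * us q) ≤ 1 :=
      om_dd hπ ⟨σ, w, us q, hw, hσ, TiD_fst_ord (hus q), rfl⟩
    rwa [hbk q, om_cb hs (hbs q), om_kp v (hks q), mul_one] at h1
  have hr2 : ∀ q, δ / A0 ≤ ‖cb χ (bs q)‖ := by
    intro q
    rw [div_le_iff₀ hA0]
    calc δ ≤ ‖f (w * us q)‖ := hfs q
      _ = ‖cb χ (bs q)‖ * ‖f (ks q)‖ := hfk q
      _ ≤ ‖cb χ (bs q)‖ * A0 := mul_le_mul_of_nonneg_left (hA _ (hks q)) (norm_nonneg _)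
  -- the ultrafilter limit
  obtain ⟨F, hF, hFn, κ, hκ, hκl, r, hr0, hrl⟩ : ∃ F : Filter ℕ, F ≤ atTop ∧ F.NeBot ∧
      ∃ κ ∈ Kp p n, Tendsto ks F (𝓝 κ) ∧ ∃ r : ℝ, 0 < r ∧
        Tendsto (fun q => ‖cb χ (bs q)‖) F (𝓝 r) := by
    refine ⟨(hyperfilter ℕ : Filter ℕ), Nat.hyperfilter_le_atTop, inferInstance, ?_⟩
    obtain ⟨κ, hκ, hκl⟩ := (kp_compact p n).ultrafilter_le_nhds ((hyperfilter ℕ).map ks)
      (by
        rw [Filter.le_principal_iff]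
        exact Filter.mem_map.2 (Filter.univ_mem' fun q => hks q))
    obtain ⟨r, hr, hrl⟩ := (isCompact_Icc (a := δ / A0) (b := (1 : ℝ))).ultrafilter_le_nhds
      ((hyperfilter ℕ).map fun q => ‖cb χ (bs q)‖)
      (by
        rw [Filter.le_principal_iff]
        exact Filter.mem_map.2 (Filter.univ_mem' fun q => ⟨hr2 q, hr1 q⟩))
    exact ⟨κ, hκ, hκl, r, lt_of_lt_of_le (div_pos hδ hA0) hr.1, hrl⟩
  have hOm : ∀ M : ℕ, Om v (t ^ M * κ * (t ^ M)⁻¹) ≤ r⁻¹ := by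
    intro M
    have h1 : ∀ q, ‖cb χ (bs q)‖ * Om v (t ^ M * ks q * (t ^ M)⁻¹) ≤ 1 := by
      intro q
      rw [← TiD_om hs ht M (hbs q), ← hbk q]
      exact om_dd hπ (TiD_dd ht hw hσ M (TiD_fst_ord (hus q)))
    have h2 : Tendsto (fun q => ‖cb χ (bs q)‖ * Om v (t ^ M * ks q * (t ^ M)⁻¹)) F
        (𝓝 (r * Om v (t ^ M * κ * (t ^ M)⁻¹))) := by
      refine hrl.mul ?_
      have h3 : Continuous fun x : SLp p n => Om v (t ^ M * x * (t ^ M)⁻¹) :=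
        (om_cont p v).comp ((continuous_const.mul continuous_id).mul continuous_const)
      exact (h3.tendsto κ).comp hκl
    have h4 := le_of_tendsto' h2 h1
    rw [← mul_one r⁻¹, ← div_eq_inv_mul, le_div_iff₀ hr0, mul_comm]
    exact h4
  obtain ⟨b, hb, τ, w', hw', hτ, u', hu', hκe⟩ := D2 hπ ht κ r⁻¹ hOm
  have hcb : ‖cb χ b‖ * r ≤ 1 := by
    obtain ⟨M0, hM0⟩ := om_lim hπ ht hw' hτ hu'
    have h1 := hOm M0
    rw [hκe, mul_assoc b, TiD_om hs ht M0 hb, hM0 M0 le_rfl, mul_one] at h1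
    calc ‖cb χ b‖ * r ≤ r⁻¹ * r := mul_le_mul_of_nonneg_right h1 hr0.le
      _ = 1 := inv_mul_cancel₀ hr0.ne'
  have hfδ : δ ≤ ‖f (w' * u')‖ := by
    have h1 : Tendsto (fun q => ‖cb χ (bs q)‖ * ‖f (ks q)‖) F (𝓝 (r * ‖f κ‖)) :=
      hrl.mul ((hfc.norm.tendsto κ).comp hκl)
    have h2 : δ ≤ r * ‖f κ‖ := ge_of_tendsto' h1 fun q => by rw [← hfk q]; exact hfs q
    have h3 : ‖f κ‖ = ‖cb χ b‖ * ‖f (w' * u')‖ := by
      rw [hκe, mul_assoc b, hfe _ hb, norm_mul]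
    calc δ ≤ r * ‖f κ‖ := h2
      _ = (‖cb χ b‖ * r) * ‖f (w' * u')‖ := by rw [h3]; ring
      _ ≤ 1 * ‖f (w' * u')‖ := mul_le_mul_of_nonneg_right hcb (norm_nonneg _)
      _ = ‖f (w' * u')‖ := one_mul _
  have hkey : ¬ key π σ < key π τ := fun h =>
    absurd (hz τ w' hw' hτ h u' hu') (not_lt.2 hfδ)
  obtain ⟨a', ha', f', hf', hu'e, _⟩ := as_fs π τ hu'
  have ha1 : w' * a' * w'⁻¹ ∈ Bp p n := (as_Bp hw' ha').1
  have hf1 : w' * f' * w'⁻¹ ∈ U p (Lo : Fin n → Fin n → Prop) := fs_Lo hw' hf'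
  have hστ : σ = τ := by
    have h1 : Tendsto (fun q => (w' * f' * w'⁻¹) * (κ * w'⁻¹)⁻¹ * (ks q * w'⁻¹) *
        (w' * f' * w'⁻¹)⁻¹) F (𝓝 1) := by
      have h2 : Tendsto (fun q => (w' * f' * w'⁻¹) * (κ * w'⁻¹)⁻¹ * (ks q * w'⁻¹) *
          (w' * f' * w'⁻¹)⁻¹) F (𝓝 ((w' * f' * w'⁻¹) * (κ * w'⁻¹)⁻¹ * (κ * w'⁻¹) *
          (w' * f' * w'⁻¹)⁻¹)) :=
        (tendsto_const_nhds.mul (hκl.mul tendsto_const_nhds)).mul tendsto_const_nhds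
      have h3 : (w' * f' * w'⁻¹) * (κ * w'⁻¹)⁻¹ * (κ * w'⁻¹) * (w' * f' * w'⁻¹)⁻¹ = 1 := by
        group
      rwa [h3] at h2
    have h5 : (Km p n 1 : Set (SLp p n)) ∈ 𝓝 (1 : SLp p n) :=
      (km_open p n 1).mem_nhds (Km p n 1).one_mem
    obtain ⟨q, hq⟩ := (h1.eventually h5).exists
    have hq' : (w' * f' * w'⁻¹) * (κ * w'⁻¹)⁻¹ * (ks q * w'⁻¹) * (w' * f' * w'⁻¹)⁻¹ ∈
      Km p n 1 := hq
    obtain ⟨b'', hb'', n'', hn'', he, _, _⟩ := cell_small le_rfl hq'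
    have h6 : (bs q)⁻¹ * w * us q =
        (b * (w' * a' * w'⁻¹) * b'') * (n'' * (w' * f' * w'⁻¹)) * w' := by
      have h7 : (bs q)⁻¹ * w * us q = ks q := by
        rw [mul_assoc, hbk q]; group
      have h8 : ks q = (κ * w'⁻¹) * (w' * f' * w'⁻¹)⁻¹ * (b'' * n'') * (w' * f' * w'⁻¹) * w' := by
        rw [← he]; group
      have h9 : κ * w'⁻¹ * (w' * f' * w'⁻¹)⁻¹ = b * (w' * a' * w'⁻¹) := by
        rw [hκe, hu'e]; group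
      rw [h7, h8, h9]
      group
    have h10 := bruhat_ineq hw hw' ((Bp p n).inv_mem (hbs q))
      ((Bp p n).mul_mem ((Bp p n).mul_mem hb ha1) hb'') (TiD_fst_ord (hus q))
      (U_mul so_Lo hn'' hf1) h6
    rcases hs_eq h10 with h | h
    · exact absurd (key_lt h) hkey
    · exact h
  subst hστ
  obtain ⟨δ', hδ', _, hwd⟩ := mon_two hw hw'
  have hlim : Tendsto (fun q => w * us q * w⁻¹) F (𝓝 (w * f' * w⁻¹)) := by
    refine TiD_nc (b := b * (w' * a' * w'⁻¹) * δ') (bs := fun q => (bs q)⁻¹)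
      ((Bp p n).mul_mem ((Bp p n).mul_mem hb ha1) (isD_Bt hδ' _)) (fs_Lo hw hf')
      (fun q => (Bp p n).inv_mem (hbs q)) (fun q => fs_Lo hw (hus q)) ?_
    have h1 : (fun q => (bs q)⁻¹ * (w * us q * w⁻¹)) = fun q => ks q * w⁻¹ := by
      funext q
      rw [hbk q]; group
    have h2 : b * (w' * a' * w'⁻¹) * δ' * (w * f' * w⁻¹) = κ * w⁻¹ := by
      have h3 : b * (w' * a' * w'⁻¹) * δ' * (w * f' * w⁻¹) =
          b * (w' * a' * w'⁻¹) * (δ' * w) * f' * w⁻¹ := by group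
      rw [h3, ← hwd, hκe, hu'e]
      group
    rw [h1, h2]
    exact hκl.mul tendsto_const_nhds
  have hlim2 : Tendsto us F (𝓝 f') := by
    have h1 : Tendsto (fun q => w⁻¹ * (w * us q * w⁻¹) * w) F (𝓝 (w⁻¹ * (w * f' * w⁻¹) * w)) :=
      (tendsto_const_nhds.mul hlim).mul tendsto_const_nhds
    have h2 : (fun q => w⁻¹ * (w * us q * w⁻¹) * w) = us := by
      funext q; group
    have h3 : w⁻¹ * (w * f' * w⁻¹) * w = f' := by group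
    rwa [h2, h3] at h1
  have hent : ∀ i j, ∀ᶠ q in F, ‖(us q).1 i j‖ < ‖f'.1 i j‖ + 1 := by
    intro i j
    have h1 : Tendsto (fun q => ‖(us q).1 i j‖) F (𝓝 ‖f'.1 i j‖) :=
      (((continuous_entry i j).norm).tendsto f').comp hlim2
    exact h1.eventually_lt_const (lt_add_one _)
  have hbig : ∀ i j, ∀ᶠ q : ℕ in F, ‖f'.1 i j‖ + 1 < (q : ℝ) := by
    intro i j
    exact (tendsto_natCast_atTop_atTop.eventually_gt_atTop _).filter_mono hF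
  have hall : ∀ᶠ q in F, ∀ i j, ‖(us q).1 i j‖ < ‖f'.1 i j‖ + 1 ∧ ‖f'.1 i j‖ + 1 < (q : ℝ) :=
    Filter.eventually_all.2 fun i => Filter.eventually_all.2 fun j => (hent i j).and (hbig i j)
  obtain ⟨q, hq⟩ := hall.exists
  obtain ⟨i, j, h⟩ := hij q
  exact absurd ((hq i j).1.trans (hq i j).2) (not_lt.2 h.le)

end Pool.Agent.Lib.MP_f399a8_nt.S
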