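import Pool.Agent.Lib.MP_f399a8_ntS.TiD

/-!
# Elements of `VK` on their top stratum

PROOF of `vk_c0`: let `ε > 0`, `w₀ ∈ W` with `‖φ x - w₀ x‖ ≤ ε / 2` on `DD`.  On the strata with larger key
`‖w₀ x‖ ≤ ε / 2 < ε`, so `c0_strat` (with `δ = ε`) bounds `{u ∈ U (Fst π σ) | ε ≤ ‖w₀ (w * u)‖}`, and
`ε ≤ ‖φ (w * u)‖` implies `ε ≤ ‖w₀ (w * u)‖` by the ultrametric inequality (`‖φ - w₀‖ < ε`).
PROOF of `vk_cont`: `φ (w * ·)` is a uniform limit on `U (Ord π)` of the continuous functions `w₀ (w * ·)`; compose with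
the continuous `pR` (values in `U (Fst π σ) ⊆ U (Ord π)`): `x ↦ φ (w * pR x)` is a uniform limit of continuous functions.
PROOF of `vv_complete`: `φ x := lim φ_k x` for `x ∈ Bp * DD` (Cauchy: for `x = b * y`, `φ_k x = cb χ b * φ_k y`; `C` is
complete) and `0` otherwise.  `left`: `Bp * DD` is stable under `Bp`.  `app`: combine an element `w₀` for
`φ_k` with `‖φ - φ_k‖ ≤ ε` on `DD`.
-/

namespace Pool.Agent.Lib.MP_f399a8_nt.S

open Matrix Filter Topology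

variable {p : ℕ} [Fact p.Prime] {n : ℕ} {C : Type*} [NormedField C] [NormedAlgebra ℚ_[p] C]
  [IsUltrametricDist C]
  {χ : Tor p n →* Cˣ} {v : Fin n → ℝ} {π : Equiv.Perm (Fin n)} {W : Set (SLp p n → C)}
  {σ : Equiv.Perm (Fin n)}

omit [Fact p.Prime] in
theorem TiE_sub {i j : Fin n} (h : Fst π σ i j) : Ord π i j := h.1

theorem TiE_dd {τ : Equiv.Perm (Fin n)} {w u : SLp p n} (hw : IsMon τ w) (hτ : Wt v τ)
    (hu : u ∈ U p (Ord π)) : w * u ∈ DD p v π :=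
  ⟨τ, w, u, hw, hτ, hu, rfl⟩

theorem vk_c0 (hs : Slope χ v) (hπ : IsSorted v π) (hW : IsClosedSubrep χ W)
    {w : SLp p n} (hw : IsMon σ w) (hσ : Wt v σ) {φ : SLp p n → C} (hφ : VK χ v π W σ φ) :
    C0 (Fst π σ) (fun x => φ (w * x)) := by
  intro ε hε
  obtain ⟨w₀, hw₀, happ⟩ := hφ.vv.app (ε / 2) (half_pos hε)
  obtain ⟨A, hA⟩ := c0_strat hs hπ (hW.isPS w₀ hw₀) hw hσ hε (by
    intro τ w' hw' hτ hk u hu
    have h1 := happ (w' * u) (TiE_dd hw' hτ hu)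
    rw [hφ.zero τ w' hw' hτ hk u hu, zero_sub, norm_neg] at h1
    exact lt_of_le_of_lt h1 (half_lt_self hε))
  refine ⟨A, fun x hx hεx => hA x hx ?_⟩
  by_contra hlt
  rw [not_le] at hlt
  have hxo : x ∈ U p (Ord π) := U_mono (fun i j h => TiE_sub h) hx
  have h1 := happ (w * x) (TiE_dd hw hσ hxo)
  have h2 : ‖φ (w * x)‖ ≤ max ‖φ (w * x) - w₀ (w * x)‖ ‖w₀ (w * x)‖ := by
    have h3 := IsUltrametricDist.norm_add_le_max (φ (w * x) - w₀ (w * x)) (w₀ (w * x))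
    rwa [sub_add_cancel] at h3
  have h4 : max ‖φ (w * x) - w₀ (w * x)‖ ‖w₀ (w * x)‖ < ε :=
    max_lt (lt_of_le_of_lt h1 (half_lt_self hε)) hlt
  exact absurd (lt_of_le_of_lt (le_trans hεx h2) h4) (lt_irrefl _)

theorem vk_cont (hW : IsClosedSubrep χ W) {w : SLp p n} (hw : IsMon σ w) (hσ : Wt v σ)
    {φ : SLp p n → C} (hφ : VK χ v π W σ φ) :
    Continuous (fun x => φ (w * pR (Fst π σ) (so_Fst π σ) x)) := by
  refine continuous_of_uniform_approx_of_continuous fun u hu => ?_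
  obtain ⟨ε, hε, hεu⟩ := Metric.mem_uniformity_dist.1 hu
  obtain ⟨w₀, hw₀, happ⟩ := hφ.vv.app (ε / 2) (half_pos hε)
  refine ⟨fun x => w₀ (w * pR (Fst π σ) (so_Fst π σ) x), ?_, fun y => ?_⟩
  · exact (hW.isPS w₀ hw₀).1.comp (continuous_const.mul (pR_cont (Fst π σ) (so_Fst π σ)))
  · apply hεu
    rw [dist_eq_norm]
    have hy : pR (Fst π σ) (so_Fst π σ) y ∈ U p (Ord π) :=
      U_mono (fun i j h => TiE_sub h) (pR_mem (Fst π σ) (so_Fst π σ) y)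
    exact lt_of_le_of_lt (happ _ (TiE_dd hw hσ hy)) (half_lt_self hε)

theorem vk_complete [CompleteSpace C] (hW : IsClosedSubrep χ W) {φ : ℕ → SLp p n → C}
    (hφ : ∀ k, VK χ v π W σ (φ k)) {ρ : ℕ → ℝ} (hρ : Tendsto ρ atTop (𝓝 0))
    (h : ∀ k l, k ≤ l → ∀ x ∈ DD p v π, ‖φ l x - φ k x‖ ≤ ρ k) :
    ∃ Φ, VK χ v π W σ Φ ∧ ∀ k, ∀ x ∈ DD p v π, ‖Φ x - φ k x‖ ≤ ρ k := by
  classical
  have hcau : ∀ y ∈ DD p v π, ∃ L : C, Tendsto (fun k => φ k y) atTop (𝓝 L) := by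
    intro y hy
    refine cauchySeq_tendsto_of_complete (cauchySeq_of_le_tendsto_0' ρ ?_ hρ)
    intro k l hkl
    rw [dist_comm, dist_eq_norm]
    exact h k l hkl y hy
  have hex : ∀ x : SLp p n, ∃ L : C,
      ((∃ b ∈ Bp p n, ∃ y ∈ DD p v π, x = b * y) → Tendsto (fun k => φ k x) atTop (𝓝 L)) ∧
      ((¬ ∃ b ∈ Bp p n, ∃ y ∈ DD p v π, x = b * y) → L = 0) := by
    intro x
    by_cases hx : ∃ b ∈ Bp p n, ∃ y ∈ DD p v π, x = b * y
    · obtain ⟨b, hb, y, hy, rfl⟩ := hx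
      obtain ⟨L, hL⟩ := hcau y hy
      refine ⟨cb χ b * L, fun _ => ?_, fun h' => absurd ⟨b, hb, y, hy, rfl⟩ h'⟩
      have h1 : (fun k => φ k (b * y)) = fun k => cb χ b * φ k y := by
        funext k
        exact (hφ k).vv.left b hb y
      rw [h1]
      exact hL.const_mul _
    · exact ⟨0, fun h' => absurd h' hx, fun _ => rfl⟩
  choose Φ hΦ1 hΦ2 using hex
  have hDD : ∀ x ∈ DD p v π, Tendsto (fun k => φ k x) atTop (𝓝 (Φ x)) := fun x hx =>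
    hΦ1 x ⟨1, one_mem _, x, hx, (one_mul x).symm⟩
  have hbd : ∀ k, ∀ x ∈ DD p v π, ‖Φ x - φ k x‖ ≤ ρ k := by
    intro k x hx
    have h1 : Tendsto (fun l => ‖φ l x - φ k x‖) atTop (𝓝 ‖Φ x - φ k x‖) :=
      ((hDD x hx).sub_const _).norm
    refine le_of_tendsto h1 ?_
    filter_upwards [eventually_ge_atTop k] with l hl
    exact h k l hl x hx
  refine ⟨Φ, ⟨⟨?_, ?_⟩, ?_⟩, hbd⟩
  · intro b hb x
    by_cases hx : ∃ b ∈ Bp p n, ∃ y ∈ DD p v π, x = b * y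
    · have h1 := hΦ1 x hx
      have h2 : ∃ b' ∈ Bp p n, ∃ y ∈ DD p v π, b * x = b' * y := by
        obtain ⟨b', hb', y, hy, rfl⟩ := hx
        exact ⟨b * b', mul_mem hb hb', y, hy, (mul_assoc b b' y).symm⟩
      have h3 := hΦ1 (b * x) h2
      have h4 : (fun k => φ k (b * x)) = fun k => cb χ b * φ k x := by
        funext k
        exact (hφ k).vv.left b hb x
      rw [h4] at h3
      exact tendsto_nhds_unique h3 (h1.const_mul _)
    · have h2 : ¬ ∃ b' ∈ Bp p n, ∃ y ∈ DD p v π, b * x = b' * y := by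
        rintro ⟨b', hb', y, hy, hxy⟩
        refine hx ⟨b⁻¹ * b', mul_mem (inv_mem hb) hb', y, hy, ?_⟩
        rw [mul_assoc, ← hxy, inv_mul_cancel_left]
      rw [hΦ2 x hx, hΦ2 (b * x) h2, mul_zero]
  · intro ε hε
    obtain ⟨k, hk⟩ := ((hρ.eventually (gt_mem_nhds hε))).exists
    obtain ⟨w₀, hw₀, happ⟩ := (hφ k).vv.app ε hε
    refine ⟨w₀, hw₀, fun x hx => ?_⟩
    have h1 : Φ x - w₀ x = (Φ x - φ k x) + (φ k x - w₀ x) := by ring
    rw [h1]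
    exact (IsUltrametricDist.norm_add_le_max _ _).trans
      (max_le ((hbd k x hx).trans hk.le) (happ x hx))
  · intro τ w hw hτ hk u hu
    have h1 := hDD (w * u) (TiE_dd hw hτ hu)
    have h2 : (fun k => φ k (w * u)) = fun _ => (0 : C) := by
      funext k
      exact (hφ k).zero τ w hw hτ hk u hu
    rw [h2] at h1
    exact tendsto_nhds_unique h1 tendsto_const_nhds

end Pool.Agent.Lib.MP_f399a8_nt.S
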