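import Pool.Agent.Lib.MP_f399a8_ntS.AcC

/-!
# Explicit form of the approximation

PROOF of `ac_expl`: this is the second half of the proof of `ac_core` (file AcA): with
`F_b x = F ((t1^b)⁻¹ * x * t1^b)`, `ψ x = ∑ s ∈ S, φ s * F_b (x * s⁻¹)`, `S` coset representatives of
`H_b = {x ∈ U R | (t1^b)⁻¹ * x * t1^b ∈ Kp}` in `U R ∩ Kp`, `b` large.
PROOF of `gam_norm`: this is the normalization in the proof of `ac_full` (file AcC): divide by the maximum of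
`‖Γ‖` on `U R` (attained since `Γ` is `C0` and not `0`) and apply the contraction `f ↦ f (t1⁻¹ * x * t1)` until
`{x ∈ U R | ‖Γ x‖ ≥ 1}` is contained in `Kp`.
PROOF of `scale_in`: for `f` with `C0 R f`, `δ > 0`, there is `a` with `‖f ((t1^a)⁻¹ * x * t1^a)‖ < δ` for
`x ∈ U R`, `x ∉ Kp` (as in AcC).
-/

namespace Pool.Agent.Lib.MP_f399a8_nt.S

open Matrix Filter Topology

variable {p : ℕ} [Fact p.Prime] {n : ℕ} {C : Type*} [NormedField C] [NormedAlgebra ℚ_[p] C]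
  [IsUltrametricDist C]

private theorem TiF_sum {ι : Type*} (s : Finset ι) (f : ι → C) {c : ℝ} (hc : 0 ≤ c)
    (h : ∀ i ∈ s, ‖f i‖ ≤ c) : ‖∑ i ∈ s, f i‖ ≤ c := by
  classical
  induction s using Finset.induction_on with
  | empty => simpa using hc
  | insert a s ha ih =>
    rw [Finset.sum_insert ha]
    refine (IsUltrametricDist.norm_add_le_max _ _).trans (max_le (h _ (Finset.mem_insert_self _ _))
      (ih fun i hi => h i (Finset.mem_insert_of_mem hi)))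

private theorem TiF_zpow_norm (a : ℤ) : ‖(p : ℚ_[p]) ^ a‖ = (p : ℝ) ^ (-a) := by
  rw [norm_zpow, Padic.norm_p, _root_.inv_zpow, _root_.zpow_neg]

/-- small conjugates -/
private theorem TiF_small {R : Fin n → Fin n → Prop} {π : Equiv.Perm (Fin n)}
    (hRπ : ∀ i j, R i j → π i < π j) {t1 : SLp p n} (ht1 : IsDg (ed π) t1) (b : ℕ) {x : SLp p n}
    (hx : x ∈ U p R) (hxK : (t1 ^ b)⁻¹ * x * t1 ^ b ∈ Kp p n) : x ∈ Km p n b := by
  have hp1 : (1 : ℝ) ≤ (p : ℝ) := by exact_mod_cast (Fact.out : p.Prime).one_lt.le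
  have hp0 : (0 : ℝ) < (p : ℝ) := by linarith
  intro i j
  by_cases hij : R i j
  · have h1 := hRπ i j hij
    have hne : i ≠ j := by
      rintro rfl
      exact lt_irrefl _ h1
    rw [Matrix.one_apply_ne hne, sub_zero]
    have h2 := hxK i j
    rw [dg_pow_conj' ht1, norm_mul, TiF_zpow_norm] at h2
    have h3 : (p : ℝ) ^ (b : ℤ) ≤ (p : ℝ) ^ (-((b : ℤ) * (ed π j - ed π i))) := by
      refine zpow_le_zpow_right₀ hp1 ?_
      have h4 := ed_lt h1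
      have h5 : (0 : ℤ) ≤ (b : ℤ) := by positivity
      nlinarith
    have h4 : (p : ℝ) ^ (b : ℤ) * ‖x.1 i j‖ ≤ 1 :=
      (mul_le_mul_of_nonneg_right h3 (norm_nonneg _)).trans h2
    rw [_root_.zpow_neg, ← one_div, le_div_iff₀ (by positivity), mul_comm]
    exact h4
  · rw [hx i j hij, sub_self, norm_zero]
    positivity

private theorem TiF_mem {R : Fin n → Fin n → Prop} {π : Equiv.Perm (Fin n)}
    (hRπ : ∀ i j, R i j → π i < π j) {t1 : SLp p n} (ht1 : IsDg (ed π) t1) (b : ℕ) {x : SLp p n}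
    (hx : x ∈ U p R) (hxK : x ∈ Km p n (b * (2 * n))) : (t1 ^ b)⁻¹ * x * t1 ^ b ∈ Kp p n := by
  have hp1 : (1 : ℝ) ≤ (p : ℝ) := by exact_mod_cast (Fact.out : p.Prime).one_lt.le
  have hp0 : (0 : ℝ) < (p : ℝ) := by linarith
  intro i j
  by_cases hij : R i j
  · have h1 := hRπ i j hij
    have hne : i ≠ j := by
      rintro rfl
      exact lt_irrefl _ h1
    have h2 := hxK i j
    rw [Matrix.one_apply_ne hne, sub_zero] at h2
    rw [dg_pow_conj' ht1, norm_mul, TiF_zpow_norm]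
    have h3 : (p : ℝ) ^ (-((b : ℤ) * (ed π j - ed π i))) * (p : ℝ) ^ (-((b * (2 * n) : ℕ) : ℤ)) ≤ 1 := by
      rw [← zpow_add₀ hp0.ne']
      refine zpow_le_one_of_nonpos₀ hp1 ?_
      have h4 : ed π i - ed π j ≤ 2 * n := by
        unfold ed
        have := (π j).2
        omega
      have h5 : (0 : ℤ) ≤ (b : ℤ) := by positivity
      push_cast
      nlinarith
    exact (mul_le_mul_of_nonneg_left h2 (by positivity)).trans h3
  · rw [(U_conj (dg_pow ht1 b) hx).2 i j hij]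
    exact one_norm_le i j

omit [NormedField C] [NormedAlgebra ℚ_[p] C] [IsUltrametricDist C] in
private theorem TiF_contr {t1 : SLp p n} {Y : Set (SLp p n → C)}
    (hcontr : ∀ f ∈ Y, (fun x => f (t1⁻¹ * x * t1)) ∈ Y) {F : SLp p n → C} (hF : F ∈ Y) (b : ℕ) :
    (fun x => F ((t1 ^ b)⁻¹ * x * t1 ^ b)) ∈ Y := by
  induction b with
  | zero =>
    have h : (fun x => F ((t1 ^ 0)⁻¹ * x * t1 ^ 0)) = F := by
      funext x
      rw [pow_zero, inv_one, one_mul, mul_one]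
    rw [h]
    exact hF
  | succ b ih =>
    have h := hcontr _ ih
    have h2 : (fun x => F ((t1 ^ (b + 1))⁻¹ * x * t1 ^ (b + 1))) =
        fun x => F ((t1 ^ b)⁻¹ * (t1⁻¹ * x * t1) * t1 ^ b) := by
      funext x
      congr 1
      rw [pow_succ' t1 b]
      group
    rw [h2]
    exact h

/-- the maximum of the norm is attained -/
private theorem TiF_max {R : Fin n → Fin n → Prop} {f : SLp p n → C} (hf : Continuous f) (hf0 : C0 R f) {u : SLp p n}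
    (hu : u ∈ U p R) (hfu : f u ≠ 0) : ∃ x₀ ∈ U p R, ∀ x ∈ U p R, ‖f x‖ ≤ ‖f x₀‖ := by
  obtain ⟨A, hA⟩ := hf0 ‖f u‖ (norm_pos_iff.2 hfu)
  have hcomp : IsCompact (U p R ∩ {x : SLp p n | ∀ i j, ‖x.1 i j‖ ≤ A}) := (bdd_compact p n A).inter_left (u_closed R)
  obtain ⟨x₀, ⟨hx₀U, _⟩, hmax⟩ := hcomp.exists_isMaxOn ⟨u, hu, hA u hu le_rfl⟩ hf.norm.continuousOn
  refine ⟨x₀, hx₀U, fun x hx => ?_⟩
  by_cases h : ‖f u‖ ≤ ‖f x‖
  · exact hmax ⟨hx, hA x hx h⟩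
  · push Not at h
    exact h.le.trans (hmax ⟨hu, hA u hu le_rfl⟩)

theorem scale_in {R : Fin n → Fin n → Prop} (hR : SO R) {π : Equiv.Perm (Fin n)}
    (hRπ : ∀ i j, R i j → π i < π j) {t1 : SLp p n} (ht1 : IsDg (ed π) t1)
    {f : SLp p n → C} (hf : C0 R f) {δ : ℝ} (hδ : 0 < δ) :
    ∃ a : ℕ, ∀ x ∈ U p R, x ∉ Kp p n → ‖f ((t1 ^ a)⁻¹ * x * t1 ^ a)‖ < δ := by
  obtain ⟨A, hA⟩ := hf δ hδ
  have hp1 : (1 : ℝ) < (p : ℝ) := by exact_mod_cast (Fact.out : p.Prime).one_lt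
  have hp0 : (0 : ℝ) < (p : ℝ) := by linarith
  obtain ⟨a, ha⟩ := pow_unbounded_of_one_lt A hp1
  refine ⟨a, fun x hx hxK => ?_⟩
  by_contra hcon
  push Not at hcon
  apply hxK
  have hy : (t1 ^ a)⁻¹ * x * t1 ^ a ∈ U p R := (U_conj (dg_pow ht1 a) hx).2
  rw [mem_Kp]
  intro i j
  by_cases hij : R i j
  · have h1 := hA _ hy hcon i j
    rw [dg_pow_conj' ht1 a x i j, norm_mul, norm_zpow, Padic.norm_p] at h1
    have h2 : ed π j < ed π i := ed_lt (hRπ i j hij)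
    have h3 : (p : ℝ) ^ a ≤ ((p : ℝ)⁻¹) ^ ((a : ℤ) * (ed π j - ed π i)) := by
      rw [_root_.inv_zpow, ← _root_.zpow_neg, ← _root_.zpow_natCast]
      refine zpow_le_zpow_right₀ hp1.le ?_
      have h4 : (a : ℤ) * 1 ≤ (a : ℤ) * (ed π i - ed π j) :=
        mul_le_mul_of_nonneg_left (by omega) (Int.natCast_nonneg _)
      have h5 : -((a : ℤ) * (ed π j - ed π i)) = (a : ℤ) * (ed π i - ed π j) := by ring
      rw [h5]
      linarith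
    have h4 : (p : ℝ) ^ a * ‖x.1 i j‖ ≤ (p : ℝ) ^ a * 1 := by
      calc (p : ℝ) ^ a * ‖x.1 i j‖ ≤ ((p : ℝ)⁻¹) ^ ((a : ℤ) * (ed π j - ed π i)) * ‖x.1 i j‖ :=
            mul_le_mul_of_nonneg_right h3 (norm_nonneg _)
        _ ≤ A := h1
        _ ≤ (p : ℝ) ^ a * 1 := by rw [mul_one]; exact ha.le
    exact le_of_mul_le_mul_left h4 (pow_pos hp0 a)
  · rw [mem_U.1 hx i j hij]
    exact one_norm_le i j

theorem gam_norm {R : Fin n → Fin n → Prop} (hR : SO R) {π : Equiv.Perm (Fin n)}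
    (hRπ : ∀ i j, R i j → π i < π j) {t1 : SLp p n} (ht1 : IsDg (ed π) t1)
    {Y : Set (SLp p n → C)} (hY : YC R Y)
    (hcontr : ∀ f ∈ Y, (fun x => f (t1⁻¹ * x * t1)) ∈ Y)
    (hcont : ∀ f ∈ Y, Continuous f) (hC0 : ∀ f ∈ Y, C0 R f)
    {Γ : SLp p n → C} (hΓY : Γ ∈ Y) (hne : ∃ x ∈ U p R, Γ x ≠ 0) :
    ∃ Γ' ∈ Y, (∀ x ∈ U p R, ‖Γ' x‖ ≤ 1) ∧ (∃ x ∈ U p R, x ∈ Kp p n ∧ ‖Γ' x‖ = 1) ∧
      ∀ x ∈ U p R, x ∉ Kp p n → ‖Γ' x‖ < 1 := by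
  have hUS : ∀ (a : ℕ) (x : SLp p n), x ∈ U p R → (t1 ^ a)⁻¹ * x * t1 ^ a ∈ U p R := fun a x hx =>
    (U_conj (dg_pow ht1 a) hx).2
  have hUT : ∀ (a : ℕ) (x : SLp p n), x ∈ U p R → t1 ^ a * x * (t1 ^ a)⁻¹ ∈ U p R := fun a x hx =>
    (U_conj (dg_pow ht1 a) hx).1
  obtain ⟨u, hu, hΓu⟩ := hne
  obtain ⟨x₀, hx₀, hmax⟩ := TiF_max (hcont Γ hΓY) (hC0 Γ hΓY) hu hΓu
  have hpos : 0 < ‖Γ x₀‖ := lt_of_lt_of_le (norm_pos_iff.2 hΓu) (hmax u hu)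
  have hΓ1Y : (fun x => (Γ x₀)⁻¹ * Γ x) ∈ Y := hY.smul _ _ hΓY
  have hΓ1 : ∀ x ∈ U p R, ‖(Γ x₀)⁻¹ * Γ x‖ ≤ 1 := by
    intro x hx
    rw [norm_mul, norm_inv, inv_mul_le_iff₀ hpos, mul_one]
    exact hmax x hx
  have hΓ1x₀ : ‖(Γ x₀)⁻¹ * Γ x₀‖ = 1 := by
    rw [norm_mul, norm_inv]
    exact inv_mul_cancel₀ hpos.ne'
  obtain ⟨a₀, ha₀⟩ := scale_in hR hRπ ht1 (hC0 _ hΓ1Y) one_pos
  have hΓ'Y := TiF_contr hcontr hΓ1Y a₀
  have h3 : ∀ x ∈ U p R, x ∉ Kp p n →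
      ‖(fun x => (Γ x₀)⁻¹ * Γ ((t1 ^ a₀)⁻¹ * x * t1 ^ a₀)) x‖ < 1 := fun x hx hxK => ha₀ x hx hxK
  refine ⟨_, hΓ'Y, fun x hx => hΓ1 _ (hUS a₀ x hx), ?_, h3⟩
  have e : ‖(fun x => (Γ x₀)⁻¹ * Γ ((t1 ^ a₀)⁻¹ * x * t1 ^ a₀)) (t1 ^ a₀ * x₀ * (t1 ^ a₀)⁻¹)‖ = 1 := by
    have e0 : (t1 ^ a₀)⁻¹ * (t1 ^ a₀ * x₀ * (t1 ^ a₀)⁻¹) * t1 ^ a₀ = x₀ := by group
    simp only
    rw [e0]
    exact hΓ1x₀
  refine ⟨t1 ^ a₀ * x₀ * (t1 ^ a₀)⁻¹, hUT a₀ x₀ hx₀, ?_, e⟩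
  by_contra hcon
  have h4 := h3 _ (hUT a₀ x₀ hx₀) hcon
  rw [e] at h4
  exact lt_irrefl _ h4

theorem ac_expl {R : Fin n → Fin n → Prop} (hR : SO R) {π : Equiv.Perm (Fin n)}
    (hRπ : ∀ i j, R i j → π i < π j) {t1 : SLp p n} (ht1 : IsDg (ed π) t1) {κ : ℝ}
    (hκ0 : 0 < κ) {F : SLp p n → C} (hF : ∀ x ∈ U p R, ‖F x - indK p n C x‖ ≤ κ)
    {φ : SLp p n → C} (hφ : Continuous φ) {B : ℝ} (hB0 : 0 ≤ B) (hB : ∀ x ∈ U p R, ‖φ x‖ ≤ B)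
    (hB' : ∀ x ∈ U p R, x ∉ Kp p n → ‖φ x‖ ≤ κ * B) :
    ∃ (b : ℕ) (S : Finset (SLp p n)), (∀ s ∈ S, s ∈ U p R ∧ s ∈ Kp p n) ∧
      ∀ x ∈ U p R, ‖φ x - ∑ s ∈ S, φ s * F ((t1 ^ b)⁻¹ * (x * s⁻¹) * t1 ^ b)‖ ≤ κ * B := by
  classical
  rcases hB0.eq_or_lt with hB00 | hBpos
  · refine ⟨0, ∅, fun s hs => absurd hs (Finset.notMem_empty s), fun x hx => ?_⟩
    rw [Finset.sum_empty, sub_zero]
    have h := hB x hx
    rw [← hB00] at h ⊢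
    rw [mul_zero]
    exact h
  · obtain ⟨b, hb⟩ := unif hφ (kp_compact p n) (mul_pos hκ0 hBpos)
    have hκB : 0 ≤ κ * B := by positivity
    let H : Subgroup (SLp p n) := US p R hR ⊓ (Kp p n).comap (MulAut.conj (t1 ^ b)⁻¹).toMonoidHom
    have hH : ∀ x, x ∈ H ↔ x ∈ U p R ∧ (t1 ^ b)⁻¹ * x * t1 ^ b ∈ Kp p n := by
      intro x
      show x ∈ US p R hR ∧ (MulAut.conj (t1 ^ b)⁻¹) x ∈ Kp p n ↔ _
      rw [MulAut.conj_apply, inv_inv]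
      exact Iff.rfl
    have hHm : ∀ x ∈ H, x ∈ Km p n b := fun x hx => TiF_small hRπ ht1 b ((hH x).1 hx).1 ((hH x).1 hx).2
    let L : Subgroup (SLp p n) := US p R hR ⊓ Kp p n
    have hL : ∀ x, x ∈ L ↔ x ∈ U p R ∧ x ∈ Kp p n := fun x => Iff.rfl
    obtain ⟨S, hS, hS1⟩ := coset_reps (L := L) (H := H) (fun x hx => ((hL x).1 hx).2)
      (fun x hx => (hL x).2 ⟨((hH x).1 hx).1, km_le_kp (hHm x hx)⟩) (m := b * (2 * n))
      (fun x hx hxK => (hH x).2 ⟨((hL x).1 hx).1, TiF_mem hRπ ht1 b ((hL x).1 hx).1 hxK⟩)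
    have hSU : ∀ s ∈ S, s ∈ U p R := fun s hs => ((hL s).1 (hS s hs)).1
    have hSK : ∀ s ∈ S, s ∈ Kp p n := fun s hs => ((hL s).1 (hS s hs)).2
    refine ⟨b, S, fun s hs => ⟨hSU s hs, hSK s hs⟩, ?_⟩
    · intro x hx
      have hxs : ∀ s ∈ S, x * s⁻¹ ∈ U p R := fun s hs => U_mul hR hx (U_inv hR (hSU s hs))
      have e1 : ‖∑ s ∈ S, φ s * F ((t1 ^ b)⁻¹ * (x * s⁻¹) * t1 ^ b) -
          ∑ s ∈ S, φ s * indK p n C ((t1 ^ b)⁻¹ * (x * s⁻¹) * t1 ^ b)‖ ≤ κ * B := by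
        rw [← Finset.sum_sub_distrib]
        refine TiF_sum _ _ hκB fun s hs => ?_
        rw [← mul_sub, norm_mul, mul_comm κ B]
        exact mul_le_mul (hB s (hSU s hs)) (hF _ (U_conj (dg_pow ht1 b) (hxs s hs)).2) (norm_nonneg _) hB0
      have e2 : ‖φ x - ∑ s ∈ S, φ s * indK p n C ((t1 ^ b)⁻¹ * (x * s⁻¹) * t1 ^ b)‖ ≤ κ * B := by
        by_cases hxK : x ∈ Kp p n
        · obtain ⟨s, ⟨hs, hsH⟩, huniq⟩ := hS1 x ((hL x).2 ⟨hx, hxK⟩)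
          have e3 : ∑ s ∈ S, φ s * indK p n C ((t1 ^ b)⁻¹ * (x * s⁻¹) * t1 ^ b) = φ s := by
            rw [Finset.sum_eq_single s]
            · unfold indK
              rw [if_pos ((hH _).1 hsH).2, mul_one]
            · intro s' hs' hne
              unfold indK
              rw [if_neg, mul_zero]
              intro hK
              exact hne (huniq s' ⟨hs', (hH _).2 ⟨hxs s' hs', hK⟩⟩)
            · intro h
              exact absurd hs h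
          rw [e3]
          have e4 : x = s * (s⁻¹ * (x * s⁻¹) * s) := by group
          have e5 := hb s (hSK s hs) (s⁻¹ * (x * s⁻¹) * s) (km_conj (hSK s hs) (hHm _ hsH)).2
          rw [← e4] at e5
          exact e5
        · have e3 : ∑ s ∈ S, φ s * indK p n C ((t1 ^ b)⁻¹ * (x * s⁻¹) * t1 ^ b) = 0 := by
            refine Finset.sum_eq_zero fun s hs => ?_
            unfold indK
            rw [if_neg, mul_zero]
            intro hK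
            have h4 := (Kp p n).mul_mem (km_le_kp (hHm _ ((hH _).2 ⟨hxs s hs, hK⟩))) (hSK s hs)
            rw [inv_mul_cancel_right] at h4
            exact hxK h4
          rw [e3, sub_zero]
          exact hB' x hx hxK
      have e6 : φ x - ∑ s ∈ S, φ s * F ((t1 ^ b)⁻¹ * (x * s⁻¹) * t1 ^ b) =
          (φ x - ∑ s ∈ S, φ s * indK p n C ((t1 ^ b)⁻¹ * (x * s⁻¹) * t1 ^ b)) +
          -(∑ s ∈ S, φ s * F ((t1 ^ b)⁻¹ * (x * s⁻¹) * t1 ^ b) -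
          ∑ s ∈ S, φ s * indK p n C ((t1 ^ b)⁻¹ * (x * s⁻¹) * t1 ^ b)) := by ring
      show ‖φ x - ∑ s ∈ S, φ s * F ((t1 ^ b)⁻¹ * (x * s⁻¹) * t1 ^ b)‖ ≤ κ * B
      rw [e6]
      refine (IsUltrametricDist.norm_add_le_max _ _).trans (max_le e2 ?_)
      rw [norm_neg]
      exact e1

end Pool.Agent.Lib.MP_f399a8_nt.S
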