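import Pool.Agent.Lib.MP_f399a8_ntS.TiE
import Pool.Agent.Lib.MP_f399a8_ntS.TiF

/-!
# Lifting functions from the top stratum with bounds

`InjS`: an element of `VK … σ` which vanishes on the stratum of `σ` vanishes on `DD`.

PROOF of `vk_surj`.  `R = Fst π σ ≤ Ord π`.  `t1` diagonal with exponents `ed π` (`dg_exists`, `ed_sum`), it is `IsD`.
Let `Y = {ψ | Continuous ψ ∧ ∃ φ, VK φ ∧ ∀ u ∈ U R, ψ u = φ (w * u)}`.  `YC R Y`: `vk_add`, `vk_smul`, `vk_trans`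
(`U R ⊆ U (Ord π)`; `ψ (· * u)` is continuous and on `U R` it is `φ (w * (x * u))`).  `hcontr`: for `ψ ∈ Y` with lift `φ`:
`φ' x = (cb χ (w * t1 * w⁻¹))⁻¹ * φ (x * t1)` is in `VK` (`vk_diag`, `vk_smul`) and on `U R`
`φ' (w * u) = φ (w * (t1⁻¹ * u * t1)) = ψ (t1⁻¹ u t1)` (`wtw`, `VV.left`).  `C0`: `vk_c0` (the values on `U R` agree).
The given nonzero `φ₀` gives `Γ x = φ₀ (w * pR x) ∈ Y` (`vk_cont`, `pR_id`), not zero on `U R` by `hne`.  `gam_norm`, then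
`pg_box` give `F ∈ Y` with `‖F x - indK x‖ ≤ κ` on `U R` (`κ` from `kappa_exists`); let `φ_F` be its lift and `C1 > 0` a bound
of `‖φ_F‖` on `DD` (`vv_bound`).
One step: for `ψ` continuous, `C0 R ψ`, `‖ψ‖ ≤ B` on `U R`: there is `φ` in `VK` with `‖φ x‖ ≤ C1 * B` on `DD` and
`‖ψ u - φ (w * u)‖ ≤ κ * B` on `U R`.  (`B = 0`: `φ = 0`.)  `scale_in` with `δ = κ * B`: `a`;
`ψ' x = ψ ((t1^a)⁻¹ x t1^a)` satisfies the hypotheses of `ac_expl`, which gives `b, S` with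
`‖ψ' x - ∑ s, ψ' s * F ((t1^b)⁻¹ (x s⁻¹) t1^b)‖ ≤ κ B`.  Substitute `x = t1^a u (t1^a)⁻¹`:
`‖ψ u - ∑ s, ψ' s * F ((t1^b)⁻¹ (t1^a u (t1^a)⁻¹ s⁻¹) t1^b)‖ ≤ κ B`.  The function
`φ_s z = c * φ_F (z * (t1^a)⁻¹ * s⁻¹ * t1^b)` with `c = cb χ (w * ((t1^a)⁻¹ * t1^b) * w⁻¹)⁻¹` is in `VK` and satisfies
`φ_s (w * u) = F ((t1^b)⁻¹ (t1^a u (t1^a)⁻¹ s⁻¹) t1^b)` on `U R`: `u (t1^a)⁻¹ s⁻¹ t1^b
= ((t1^a)⁻¹ t1^b) * ((t1^b)⁻¹ (t1^a u (t1^a)⁻¹ s⁻¹) t1^b)`, `wtw`.  Its norm on `DD` is `≤ C1`: for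
`x = w' * u' ∈ DD`, `x * (t1^a)⁻¹ * s⁻¹ * t1^b = (w' (t1^-a t1^b) w'⁻¹) * (w' * (..))` with `(..) ∈ U (Ord π)`, and
`‖cb χ (w' τ w'⁻¹)‖ = ‖cb χ τ‖ = ‖cb χ (w τ w⁻¹)‖` (`wtw_norm`).  So `φ = ∑ s, ψ' s * φ_s` has norm `≤ C1 * B`.
Iterate: `ψ_0 = ψ`, `ψ_{k+1} x = ψ_k x - φ_k (w * pR x)` (continuous, `C0`, `≤ κ^{k+1} B` on `U R`), with
`‖φ_k‖ ≤ C1 κ^k B` on `DD`.  The partial sums `∑_{k<m} φ_k` satisfy the hypothesis of `vk_complete` with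
`ρ m = C1 κ^m B` (ultrametric); the limit `Φ` satisfies `Φ (w * u) = ψ u` on `U R`
(`‖ψ u - ∑_{k<m} φ_k (w * u)‖ ≤ κ^m B`) and `‖Φ‖ ≤ C1 B` (`m = 0`: the empty sum).
-/

namespace Pool.Agent.Lib.MP_f399a8_nt.S

open Matrix Filter Topology

variable {p : ℕ} [Fact p.Prime] {n : ℕ} {C : Type*} [NormedField C] [NormedAlgebra ℚ_[p] C]
  [IsUltrametricDist C] [FiniteDimensional ℚ_[p] C]

/-- data of the top stratum: lifts exist, are unique and bounded -/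
structure SD (χ : Tor p n →* Cˣ) (v : Fin n → ℝ) (π : Equiv.Perm (Fin n))
    (W : Set (SLp p n → C)) (σ : Equiv.Perm (Fin n)) (w : SLp p n) (C1 : ℝ) : Prop where
  mon : IsMon σ w
  wt : Wt v σ
  inj : ∀ φ : SLp p n → C, VK χ v π W σ φ → (∀ u ∈ U p (Fst π σ), φ (w * u) = 0) →
    ∀ x ∈ DD p v π, φ x = 0
  surj : ∀ ψ : SLp p n → C, Continuous ψ → C0 (Fst π σ) ψ → ∀ B : ℝ, 0 ≤ B →
    (∀ u ∈ U p (Fst π σ), ‖ψ u‖ ≤ B) → ∃ φ : SLp p n → C, VK χ v π W σ φ ∧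
      (∀ u ∈ U p (Fst π σ), φ (w * u) = ψ u) ∧ ∀ x ∈ DD p v π, ‖φ x‖ ≤ C1 * B

theorem TiG_c0_congr {R : Fin n → Fin n → Prop} {f g : SLp p n → C} (hf : C0 R f)
    (h : ∀ u ∈ U p R, g u = f u) : C0 R g := by
  intro ε hε
  obtain ⟨A, hA⟩ := hf ε hε
  exact ⟨A, fun x hx hx' => hA x hx (by rwa [← h x hx])⟩

theorem TiG_c0_sub {R : Fin n → Fin n → Prop} {f g : SLp p n → C} (hf : C0 R f)
    (hg : C0 R g) : C0 R (fun x => f x - g x) := by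
  intro ε hε
  obtain ⟨A, hA⟩ := hf ε hε
  obtain ⟨A', hA'⟩ := hg ε hε
  refine ⟨max A A', fun x hx hx' i j => ?_⟩
  have h1 : ‖f x - g x‖ ≤ max ‖f x‖ ‖g x‖ := by
    rw [sub_eq_add_neg]
    refine (IsUltrametricDist.norm_add_le_max _ _).trans ?_
    rw [norm_neg]
  rcases le_max_iff.1 (hx'.trans h1) with h | h
  · exact (hA x hx h i j).trans (le_max_left _ _)
  · exact (hA' x hx h i j).trans (le_max_right _ _)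

theorem TiG_isD {e : Fin n → ℤ} {t : SLp p n} (ht : IsDg e t) : IsD t := by
  intro i j hij
  rw [ht i j, if_neg hij]

theorem TiG_isD_mul {τ τ' : SLp p n} (h : IsD τ) (h' : IsD τ') : IsD (τ * τ') := by
  intro i j hij
  show (τ.1 * τ'.1) i j = 0
  rw [Matrix.mul_apply]
  refine Finset.sum_eq_zero fun k _ => ?_
  rcases eq_or_ne i k with rfl | hk
  · rw [h' _ _ hij, mul_zero]
  · rw [h _ _ hk, zero_mul]

theorem TiG_ident {G : Type*} [Group G] (w u A s B : G) :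
    w * u * A⁻¹ * s⁻¹ * B =
      (w * (A⁻¹ * B) * w⁻¹) * (w * (B⁻¹ * (A * u * A⁻¹ * s⁻¹) * B)) := by
  group

theorem TiG_one_step {χ : Tor p n →* Cˣ} {v : Fin n → ℝ} (hs : Slope χ v)
    {π : Equiv.Perm (Fin n)} {W : Set (SLp p n → C)}
    (hW : IsClosedSubrep χ W) {σ : Equiv.Perm (Fin n)} {w : SLp p n} (hw : IsMon σ w)
    (hσ : Wt v σ) {t1 : SLp p n} (ht1 : IsDg (ed π) t1) {κ : ℝ} (hκ0 : 0 < κ)
    {F φF : SLp p n → C} (hF : ∀ x ∈ U p (Fst π σ), ‖F x - indK p n C x‖ ≤ κ)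
    (hφF : VK χ v π W σ φF) (hFφ : ∀ u ∈ U p (Fst π σ), F u = φF (w * u)) {C1 : ℝ}
    (hC1 : 0 < C1) (hbd : ∀ x ∈ DD p v π, ‖φF x‖ ≤ C1) {ψ : SLp p n → C}
    (hψ : Continuous ψ) (hψ0 : C0 (Fst π σ) ψ) {B : ℝ} (hB : 0 < B)
    (hψB : ∀ u ∈ U p (Fst π σ), ‖ψ u‖ ≤ B) :
    ∃ φ : SLp p n → C, VK χ v π W σ φ ∧ (∀ x ∈ DD p v π, ‖φ x‖ ≤ C1 * B) ∧
      ∀ u ∈ U p (Fst π σ), ‖ψ u - φ (w * u)‖ ≤ κ * B := by
  classical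
  have hR := so_Fst π σ
  have hRπ : ∀ i j, Fst π σ i j → π i < π j := fun i j h => h.1
  have hRO : ∀ {x : SLp p n}, x ∈ U p (Fst π σ) → x ∈ U p (Ord π) :=
    fun hx => U_mono hRπ hx
  obtain ⟨a, ha⟩ := scale_in hR hRπ ht1 hψ0 (mul_pos hκ0 hB)
  have hta : IsDg (fun i => (a : ℤ) * ed π i) (t1 ^ a) := dg_pow ht1 a
  have hψ'c : Continuous (fun x : SLp p n => ψ ((t1 ^ a)⁻¹ * x * t1 ^ a)) := by
    fun_prop
  obtain ⟨b, S, hS, hSx⟩ := ac_expl hR hRπ ht1 hκ0 hF hψ'c hB.le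
    (fun x hx => hψB _ (U_conj hta hx).2) (fun x hx hxK => (ha x hx hxK).le)
  have htb : IsDg (fun i => (b : ℤ) * ed π i) (t1 ^ b) := dg_pow ht1 b
  have hDa : IsD (t1 ^ a)⁻¹ := isD_inv (TiG_isD hta)
  have hDb : IsD (t1 ^ b) := TiG_isD htb
  have hDτ : IsD ((t1 ^ a)⁻¹ * t1 ^ b) := TiG_isD_mul hDa hDb
  set c : C := (cb χ (w * ((t1 ^ a)⁻¹ * t1 ^ b) * w⁻¹))⁻¹ with hc
  have hcne : cb χ (w * ((t1 ^ a)⁻¹ * t1 ^ b) * w⁻¹) ≠ 0 := cb_ne_zero _ _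
  have hVs : ∀ s ∈ S, VK χ v π W σ
      (fun z => ψ ((t1 ^ a)⁻¹ * s * t1 ^ a) * (c * φF (z * (t1 ^ a)⁻¹ * s⁻¹ * t1 ^ b))) := by
    intro s hsS
    refine vk_smul hW _ (vk_smul hW c ?_)
    have h1 := vk_diag hs hW hDb hφF
    have h2 := vk_trans hW (hRO (U_inv hR (hS s hsS).1)) h1
    exact vk_diag hs hW hDa h2
  have hmem : ∀ s ∈ S, ∀ u ∈ U p (Ord π),
      (t1 ^ b)⁻¹ * (t1 ^ a * u * (t1 ^ a)⁻¹ * s⁻¹) * t1 ^ b ∈ U p (Ord π) := by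
    intro s hsS u hu
    exact (U_conj htb (U_mul (so_ord π) (U_conj hta hu).1
      (hRO (U_inv hR (hS s hsS).1)))).2
  have hmem' : ∀ s ∈ S, ∀ u ∈ U p (Fst π σ),
      (t1 ^ b)⁻¹ * (t1 ^ a * u * (t1 ^ a)⁻¹ * s⁻¹) * t1 ^ b ∈ U p (Fst π σ) := by
    intro s hsS u hu
    exact (U_conj htb (U_mul hR (U_conj hta hu).1 (U_inv hR (hS s hsS).1))).2
  refine ⟨fun z => ∑ s ∈ S, ψ ((t1 ^ a)⁻¹ * s * t1 ^ a) *
    (c * φF (z * (t1 ^ a)⁻¹ * s⁻¹ * t1 ^ b)), vk_sum hW S _ hVs, ?_, ?_⟩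
  · intro x hx
    refine IsUltrametricDist.norm_sum_le_of_forall_le_of_nonneg (mul_pos hC1 hB).le ?_
    intro s hsS
    obtain ⟨σ', w', u', hw', hσ', hu', rfl⟩ := hx
    rw [TiG_ident w' u' (t1 ^ a) s (t1 ^ b),
      hφF.vv.left _ (isD_Bt (wtw hw' hDτ).1 _), norm_mul, norm_mul, norm_mul, hc, norm_inv,
      wtw_norm hs hσ hw hDτ, wtw_norm hs hσ' hw' hDτ]
    have h1 : ‖cb χ ((t1 ^ a)⁻¹ * t1 ^ b)‖ ≠ 0 := norm_ne_zero_iff.2 (cb_ne_zero _ _)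
    rw [← mul_assoc (‖cb χ ((t1 ^ a)⁻¹ * t1 ^ b)‖⁻¹), inv_mul_cancel₀ h1, one_mul,
      mul_comm C1 B]
    refine mul_le_mul (hψB _ (U_conj hta (hS s hsS).1).2) (hbd _ ?_) (norm_nonneg _) hB.le
    exact ⟨σ', w', _, hw', hσ', hmem s hsS u' hu', rfl⟩
  · intro u hu
    have h1 := hSx (t1 ^ a * u * (t1 ^ a)⁻¹) (U_conj hta hu).1
    have h2 : (t1 ^ a)⁻¹ * (t1 ^ a * u * (t1 ^ a)⁻¹) * t1 ^ a = u := by group
    have h3 : ∀ s ∈ S, ψ ((t1 ^ a)⁻¹ * s * t1 ^ a) *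
        F ((t1 ^ b)⁻¹ * (t1 ^ a * u * (t1 ^ a)⁻¹ * s⁻¹) * t1 ^ b) =
        ψ ((t1 ^ a)⁻¹ * s * t1 ^ a) * (c * φF (w * u * (t1 ^ a)⁻¹ * s⁻¹ * t1 ^ b)) := by
      intro s hsS
      rw [TiG_ident w u (t1 ^ a) s (t1 ^ b), hφF.vv.left _ (isD_Bt (wtw hw hDτ).1 _),
        ← mul_assoc c, hc, inv_mul_cancel₀ hcne, one_mul, hFφ _ (hmem' s hsS u hu)]
    rw [h2, Finset.sum_congr rfl h3] at h1
    exact h1

theorem TiG_iter {v : Fin n → ℝ} {π : Equiv.Perm (Fin n)} {κ : ℝ} {C1 : ℝ} {B : ℝ}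
    (P : ℕ → (SLp p n → C) → Prop) (hP0 : P 0 (fun _ => 0))
    (hP : ∀ k φ, P k φ → ∃ φ' : SLp p n → C, P (k + 1) φ' ∧
      ∀ x ∈ DD p v π, ‖φ' x - φ x‖ ≤ C1 * (κ ^ k * B))
    (hmono : ∀ k, C1 * (κ ^ (k + 1) * B) ≤ C1 * (κ ^ k * B))
    (hpos : ∀ k, 0 ≤ C1 * (κ ^ k * B)) :
    ∃ φ : ℕ → SLp p n → C, φ 0 = (fun _ => 0) ∧ (∀ k, P k (φ k)) ∧
      ∀ k l, k ≤ l → ∀ x ∈ DD p v π, ‖φ l x - φ k x‖ ≤ C1 * (κ ^ k * B) := by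
  choose! nxt hnxt using hP
  let sq : ℕ → (SLp p n → C) := fun k => Nat.rec (fun _ => 0) (fun k φ => nxt k φ) k
  have hsq : ∀ k, P k (sq k) := by
    intro k
    induction k with
    | zero => exact hP0
    | succ k ih => exact (hnxt k _ ih).1
  have hd : ∀ k, ∀ x ∈ DD p v π, ‖sq (k + 1) x - sq k x‖ ≤ C1 * (κ ^ k * B) :=
    fun k => (hnxt k _ (hsq k)).2
  have hanti : Antitone fun k : ℕ => C1 * (κ ^ k * B) := antitone_nat_of_succ_le hmono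
  refine ⟨sq, rfl, hsq, ?_⟩
  intro k l hkl x hx
  induction l, hkl using Nat.le_induction with
  | base =>
    rw [sub_self, norm_zero]
    exact hpos k
  | succ l hl ih =>
    have h1 : sq (l + 1) x - sq k x = (sq (l + 1) x - sq l x) + (sq l x - sq k x) := by ring
    rw [h1]
    refine (IsUltrametricDist.norm_add_le_max _ _).trans (max_le ((hd l x hx).trans ?_) ih)
    exact hanti hl

theorem vk_surj {χ : Tor p n →* Cˣ} {v : Fin n → ℝ} (hs : Slope χ v)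
    {π : Equiv.Perm (Fin n)} (hπ : IsSorted v π) {W : Set (SLp p n → C)}
    (hW : IsClosedSubrep χ W) {σ : Equiv.Perm (Fin n)} {w : SLp p n} (hw : IsMon σ w)
    (hσ : Wt v σ) {φ₀ : SLp p n → C} (hφ₀ : VK χ v π W σ φ₀)
    (hne : ∃ u ∈ U p (Fst π σ), φ₀ (w * u) ≠ 0) :
    ∃ C1 : ℝ, ∀ ψ : SLp p n → C, Continuous ψ → C0 (Fst π σ) ψ → ∀ B : ℝ, 0 ≤ B →
      (∀ u ∈ U p (Fst π σ), ‖ψ u‖ ≤ B) → ∃ φ : SLp p n → C, VK χ v π W σ φ ∧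
        (∀ u ∈ U p (Fst π σ), φ (w * u) = ψ u) ∧ ∀ x ∈ DD p v π, ‖φ x‖ ≤ C1 * B := by
  classical
  have hR := so_Fst π σ
  have hRπ : ∀ i j, Fst π σ i j → π i < π j := fun i j h => h.1
  have hRO : ∀ {x : SLp p n}, x ∈ U p (Fst π σ) → x ∈ U p (Ord π) :=
    fun hx => U_mono hRπ hx
  obtain ⟨t1, ht1⟩ := dg_exists (p := p) (ed π) (ed_sum π)
  have hD1 : IsD t1 := TiG_isD ht1
  obtain ⟨κ, hκ0, hκ1, hκ⟩ := kappa_exists p C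
  have : CompleteSpace C := FiniteDimensional.complete ℚ_[p] C
  let Y : Set (SLp p n → C) := {ψ | Continuous ψ ∧ ∃ φ : SLp p n → C, VK χ v π W σ φ ∧
    ∀ u ∈ U p (Fst π σ), ψ u = φ (w * u)}
  have hY : YC (Fst π σ) Y := by
    refine ⟨?_, ?_, ?_⟩
    · rintro f ⟨hf, φ, hφ, hfφ⟩ g ⟨hg, φ', hφ', hgφ⟩
      exact ⟨hf.add hg, _, vk_add hW hφ hφ', fun u hu => by
        show f u + g u = _
        rw [hfφ u hu, hgφ u hu]⟩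
    · rintro c f ⟨hf, φ, hφ, hfφ⟩
      exact ⟨continuous_const.mul hf, _, vk_smul hW c hφ, fun u hu => by
        show c * f u = _
        rw [hfφ u hu]⟩
    · rintro u hu - f ⟨hf, φ, hφ, hfφ⟩
      refine ⟨by fun_prop, _, vk_trans hW (hRO hu) hφ, fun x hx => ?_⟩
      show f (x * u) = φ (w * x * u)
      rw [hfφ _ (U_mul hR hx hu), mul_assoc]
  have hcontr : ∀ f ∈ Y, (fun x => f (t1⁻¹ * x * t1)) ∈ Y := by
    rintro f ⟨hf, φ, hφ, hfφ⟩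
    refine ⟨by fun_prop, _, vk_smul hW (cb χ (w * t1 * w⁻¹))⁻¹ (vk_diag hs hW hD1 hφ),
      fun u hu => ?_⟩
    show f (t1⁻¹ * u * t1) = (cb χ (w * t1 * w⁻¹))⁻¹ * φ (w * u * t1)
    rw [hfφ _ (U_conj ht1 hu).2, (wtw hw hD1).2 u, hφ.vv.left _ (isD_Bt (wtw hw hD1).1 _),
      inv_mul_cancel_left₀ (cb_ne_zero χ (w * t1 * w⁻¹))]
  have hcont : ∀ f ∈ Y, Continuous f := fun f hf => hf.1
  have hC0 : ∀ f ∈ Y, C0 (Fst π σ) f := by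
    rintro f ⟨hf, φ, hφ, hfφ⟩
    exact TiG_c0_congr (vk_c0 hs hπ hW hw hσ hφ) hfφ
  have hlift : ∀ φ : SLp p n → C, VK χ v π W σ φ → ∀ u ∈ U p (Fst π σ),
      φ (w * pR (Fst π σ) hR u) = φ (w * u) := by
    intro φ _ u hu
    rw [pR_id hR hu]
  have hΓY : (fun x => φ₀ (w * pR (Fst π σ) hR x)) ∈ Y :=
    ⟨vk_cont hW hw hσ hφ₀, φ₀, hφ₀, hlift φ₀ hφ₀⟩
  have hΓne : ∃ x ∈ U p (Fst π σ), (fun x => φ₀ (w * pR (Fst π σ) hR x)) x ≠ 0 := by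
    obtain ⟨u, hu, hu0⟩ := hne
    refine ⟨u, hu, ?_⟩
    show φ₀ (w * pR (Fst π σ) hR u) ≠ 0
    rwa [hlift φ₀ hφ₀ u hu]
  obtain ⟨Γ', hΓ'Y, hΓ1, hΓ2, hΓ3⟩ := gam_norm hR hRπ ht1 hY hcontr hcont hC0 hΓY hΓne
  obtain ⟨F, ⟨hFc, φF, hφF, hFφ⟩, hF⟩ :=
    pg_box hR hκ hY hΓ'Y (hcont _ hΓ'Y) hΓ1 hΓ2 hΓ3
  obtain ⟨C1, hC1, hbd⟩ := vv_bound hs hπ hW hφF.vv
  refine ⟨C1, fun ψ hψ hψ0 B hB hψB => ?_⟩
  have hzero : VK χ v π W σ (fun _ => (0 : C)) := by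
    have h := vk_smul hW 0 hφ₀
    simpa using h
  rcases hB.eq_or_lt with hB0 | hBpos
  · refine ⟨fun _ => 0, hzero, fun u hu => ?_, fun x _ => ?_⟩
    · have h1 := hψB u hu
      rw [← hB0] at h1
      exact (norm_le_zero_iff.1 h1).symm
    · rw [norm_zero]
      positivity
  let P : ℕ → (SLp p n → C) → Prop := fun k φ => VK χ v π W σ φ ∧
    ∀ u ∈ U p (Fst π σ), ‖ψ u - φ (w * u)‖ ≤ κ ^ k * B
  have hP0 : P 0 (fun _ => 0) := by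
    refine ⟨hzero, fun u hu => ?_⟩
    rw [sub_zero, pow_zero, one_mul]
    exact hψB u hu
  have hP : ∀ k φ, P k φ → ∃ φ' : SLp p n → C, P (k + 1) φ' ∧
      ∀ x ∈ DD p v π, ‖φ' x - φ x‖ ≤ C1 * (κ ^ k * B) := by
    rintro k φ ⟨hφ, hφψ⟩
    have hc : Continuous (fun x => ψ x - φ (w * pR (Fst π σ) hR x)) :=
      hψ.sub (vk_cont hW hw hσ hφ)
    have h0 : C0 (Fst π σ) (fun x => ψ x - φ (w * pR (Fst π σ) hR x)) :=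
      TiG_c0_sub hψ0 (TiG_c0_congr (vk_c0 hs hπ hW hw hσ hφ) (hlift φ hφ))
    have hb : ∀ u ∈ U p (Fst π σ), ‖ψ u - φ (w * pR (Fst π σ) hR u)‖ ≤ κ ^ k * B := by
      intro u hu
      rw [hlift φ hφ u hu]
      exact hφψ u hu
    obtain ⟨φ₁, hφ₁, hφ₁b, hφ₁u⟩ := TiG_one_step hs hW hw hσ ht1 hκ0 hF hφF hFφ hC1 hbd hc h0
      (mul_pos (pow_pos hκ0 k) hBpos) hb
    refine ⟨fun x => φ x + φ₁ x, ⟨vk_add hW hφ hφ₁, fun u hu => ?_⟩, fun x hx => ?_⟩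
    · have h1 := hφ₁u u hu
      rw [hlift φ hφ u hu] at h1
      show ‖ψ u - (φ (w * u) + φ₁ (w * u))‖ ≤ κ ^ (k + 1) * B
      rw [← sub_sub, pow_succ']
      rwa [mul_assoc]
    · rw [add_sub_cancel_left]
      exact hφ₁b x hx
  have hpos : ∀ k : ℕ, 0 ≤ C1 * (κ ^ k * B) := fun k => by positivity
  have hmono : ∀ k : ℕ, C1 * (κ ^ (k + 1) * B) ≤ C1 * (κ ^ k * B) := by
    intro k
    have h1 : κ ^ (k + 1) ≤ κ ^ k := pow_le_pow_of_le_one hκ0.le hκ1.le (Nat.le_succ k)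
    exact mul_le_mul_of_nonneg_left (mul_le_mul_of_nonneg_right h1 hB) hC1.le
  obtain ⟨φ, hφ0, hφP, hφD⟩ := TiG_iter P hP0 hP hmono hpos
  have hκlim : Tendsto (fun k : ℕ => κ ^ k) atTop (𝓝 0) :=
    tendsto_pow_atTop_nhds_zero_of_lt_one hκ0.le hκ1
  have hρ : Tendsto (fun k : ℕ => C1 * (κ ^ k * B)) atTop (𝓝 0) := by
    have h := (hκlim.mul_const B).const_mul C1
    simpa using h
  obtain ⟨Φ, hΦ, hΦD⟩ := vk_complete hW (fun k => (hφP k).1) hρ hφD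
  refine ⟨Φ, hΦ, fun u hu => ?_, fun x hx => ?_⟩
  · have hwu : w * u ∈ DD p v π := ⟨σ, w, u, hw, hσ, hRO hu, rfl⟩
    have hlim : Tendsto (fun k : ℕ => C1 * (κ ^ k * B) + κ ^ k * B) atTop (𝓝 0) := by
      have h := hρ.add (hκlim.mul_const B)
      simpa using h
    have hle : ∀ k : ℕ, ‖Φ (w * u) - ψ u‖ ≤ C1 * (κ ^ k * B) + κ ^ k * B := by
      intro k
      have h1 : Φ (w * u) - ψ u = (Φ (w * u) - φ k (w * u)) + (φ k (w * u) - ψ u) := by ring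
      rw [h1]
      refine (norm_add_le _ _).trans (add_le_add (hΦD k _ hwu) ?_)
      rw [norm_sub_rev]
      exact (hφP k).2 u hu
    have h2 : ‖Φ (w * u) - ψ u‖ ≤ 0 := ge_of_tendsto' hlim hle
    exact sub_eq_zero.1 (norm_le_zero_iff.1 h2)
  · have h1 := hΦD 0 x hx
    rw [hφ0, sub_zero, pow_zero, one_mul] at h1
    exact h1

end Pool.Agent.Lib.MP_f399a8_nt.S
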