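import Pool.Agent.Lib.MP_f399a8_ntS.TiG

/-!
# Existence of the top stratum

PROOF.  Let `T` be the finite set of permutations `σ` with `Wt v σ` for which there is `φ` with `VK … σ φ` and
`φ x ≠ 0` for some `x ∈ DD`.  It is not empty: take the `σ` with `Wt v σ` and maximal key (`1` is `Wt`) and
`φ = f (· * x) ∈ W` with `f x ≠ 0` (value at `1 ∈ DD`; the vanishing condition is empty).  Choose `σ ∈ T` with minimal key,
`w` with `IsMon σ w` (`mon_exists`).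
`inj`: let `φ` be `VK … σ` with `φ (w * u) = 0` for `u ∈ U (Fst π σ)`.  Then `φ (w' * u) = 0` for all `w'` with
`IsMon σ w'` and `u ∈ U (Ord π)` (`as_fs`, `as_left`, `mon_two`, `VV.left`).  Suppose `φ x ≠ 0` for some `x ∈ DD`.  Let `τ` be the
`Wt` permutation with maximal key such that `φ (w' * u) ≠ 0` for some `w'` with `IsMon τ w'`, `u ∈ U (Ord π)`.  Then
`key π τ < key π σ` (not larger by `VK`, not equal by `key_inj` and the above), and `VK … τ φ`, so `τ ∈ T`, a contradiction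
to the minimality.
`surj`: `vk_surj`; `hne`: `φ₀` with `VK … σ φ₀` not zero on `DD`, so by `inj` it is not zero on `w * U (Fst π σ)`.
-/

namespace Pool.Agent.Lib.MP_f399a8_nt.S

open Matrix Filter Topology

variable {p : ℕ} [Fact p.Prime] {n : ℕ} {C : Type*} [NormedField C] [NormedAlgebra ℚ_[p] C]
  [IsUltrametricDist C] [FiniteDimensional ℚ_[p] C]

omit [NormedAlgebra ℚ_[p] C] [IsUltrametricDist C] [FiniteDimensional ℚ_[p] C] in
theorem TiG2_zero {χ : Tor p n →* Cˣ} {φ : SLp p n → C}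
    (hφ : ∀ b ∈ Bp p n, ∀ x, φ (b * x) = cb χ b * φ x) {π σ : Equiv.Perm (Fin n)}
    {w w' : SLp p n} (hw : IsMon σ w) (hw' : IsMon σ w')
    (h : ∀ u ∈ U p (Fst π σ), φ (w * u) = 0) {u : SLp p n} (hu : u ∈ U p (Ord π)) :
    φ (w' * u) = 0 := by
  obtain ⟨a, ha, f, hf, rfl, -⟩ := as_fs π σ hu
  obtain ⟨δ, hδ, -, rfl⟩ := mon_two hw hw'
  rw [mul_assoc, hφ δ (isD_Bt hδ (id : Fin n → Fin n)), as_left hφ hw ha, h f hf, mul_zero]

omit [NormedAlgebra ℚ_[p] C] [IsUltrametricDist C] [FiniteDimensional ℚ_[p] C] in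
theorem TiG2_inj {χ : Tor p n →* Cˣ} {v : Fin n → ℝ} {π : Equiv.Perm (Fin n)}
    {W : Set (SLp p n → C)} {σ : Equiv.Perm (Fin n)} {w : SLp p n} (hw : IsMon σ w)
    (hmin : ∀ τ : Equiv.Perm (Fin n), Wt v τ → (∃ φ : SLp p n → C, VK χ v π W τ φ ∧
      ∃ x ∈ DD p v π, φ x ≠ 0) → key π σ ≤ key π τ)
    {φ : SLp p n → C} (hφ : VK χ v π W σ φ) (h0 : ∀ u ∈ U p (Fst π σ), φ (w * u) = 0)
    {x : SLp p n} (hx : x ∈ DD p v π) : φ x = 0 := by
  classical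
  by_contra hne
  let P : Equiv.Perm (Fin n) → Prop := fun τ => Wt v τ ∧ ∃ w' u : SLp p n, IsMon τ w' ∧
    u ∈ U p (Ord π) ∧ φ (w' * u) ≠ 0
  have hPne : (Finset.univ.filter P).Nonempty := by
    obtain ⟨τ, w1, u1, hw1, hτ, hu1, rfl⟩ := hx
    exact ⟨τ, Finset.mem_filter.2 ⟨Finset.mem_univ _, hτ, w1, u1, hw1, hu1, hne⟩⟩
  obtain ⟨τ, hτP, hmax⟩ := Finset.exists_max_image (Finset.univ.filter P) (key π) hPne
  obtain ⟨-, hτ, w', u, hw', hu, hwu⟩ := Finset.mem_filter.1 hτP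
  have h1 : ¬ key π σ < key π τ := fun h => hwu (hφ.zero τ w' hw' hτ h u hu)
  have h2 : key π σ ≠ key π τ := by
    intro h
    have h3 := key_inj h
    subst h3
    exact hwu (TiG2_zero hφ.vv.left hw hw' h0 hu)
  have h3 : VK χ v π W τ φ := by
    refine ⟨hφ.vv, fun τ' w'' hw'' hτ' hkey u' hu' => ?_⟩
    by_contra hne'
    have h4 := hmax τ' (Finset.mem_filter.2 ⟨Finset.mem_univ _, hτ', w'', u', hw'', hu', hne'⟩)
    omega
  have h4 := hmin τ hτ ⟨φ, h3, w' * u, ⟨τ, w', u, hw', hτ, hu, rfl⟩, hwu⟩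
  omega

theorem sd_exists {χ : Tor p n →* Cˣ} {v : Fin n → ℝ} (hs : Slope χ v)
    {π : Equiv.Perm (Fin n)} (hπ : IsSorted v π) {W : Set (SLp p n → C)}
    (hW : IsClosedSubrep χ W) (hne : ∃ f ∈ W, ∃ x, f x ≠ 0) :
    ∃ (σ : Equiv.Perm (Fin n)) (w : SLp p n) (C1 : ℝ), SD χ v π W σ w C1 := by
  classical
  obtain ⟨f, hf, x, hfx⟩ := hne
  let Q : Equiv.Perm (Fin n) → Prop := fun σ => Wt v σ ∧ ∃ φ : SLp p n → C, VK χ v π W σ φ ∧
    ∃ x ∈ DD p v π, φ x ≠ 0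
  have hQne : (Finset.univ.filter Q).Nonempty := by
    obtain ⟨σ0, hσ0, hmax⟩ := Finset.exists_max_image
      (Finset.univ.filter fun σ : Equiv.Perm (Fin n) => Wt v σ) (key π)
      ⟨1, Finset.mem_filter.2 ⟨Finset.mem_univ _, fun _ => rfl⟩⟩
    refine ⟨σ0, Finset.mem_filter.2 ⟨Finset.mem_univ _, (Finset.mem_filter.1 hσ0).2,
      fun y => f (y * x), ⟨vv_of_mem hW (hW.trans x f hf), ?_⟩, 1, dd_one, ?_⟩⟩
    · intro τ w hw hτ hkey
      have h1 := hmax τ (Finset.mem_filter.2 ⟨Finset.mem_univ _, hτ⟩)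
      omega
    · show f (1 * x) ≠ 0
      rwa [one_mul]
  obtain ⟨σ, hσQ, hmin⟩ := Finset.exists_min_image (Finset.univ.filter Q) (key π) hQne
  obtain ⟨-, hσ, φ₀, hφ₀, x₀, hx₀, hne₀⟩ := Finset.mem_filter.1 hσQ
  obtain ⟨w, hw⟩ := mon_exists p σ
  have hmin' : ∀ τ : Equiv.Perm (Fin n), Wt v τ → (∃ φ : SLp p n → C, VK χ v π W τ φ ∧
      ∃ x ∈ DD p v π, φ x ≠ 0) → key π σ ≤ key π τ := fun τ hτ h =>
    hmin τ (Finset.mem_filter.2 ⟨Finset.mem_univ _, hτ, h⟩)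
  have hnew : ∃ u ∈ U p (Fst π σ), φ₀ (w * u) ≠ 0 := by
    by_contra hcon
    push Not at hcon
    exact hne₀ (TiG2_inj hw hmin' hφ₀ hcon hx₀)
  obtain ⟨C1, hC1⟩ := vk_surj hs hπ hW hw hσ hφ₀ hnew
  exact ⟨σ, w, C1, hw, hσ, fun φ hφ h0 x hx => TiG2_inj hw hmin' hφ h0 hx, hC1⟩

end Pool.Agent.Lib.MP_f399a8_nt.S
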