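import Pool.Agent.Lib.MP_f399a8_ntS.TiG
import Pool.Agent.Lib.MP_f399a8_ntS.TiH
import Pool.Agent.Lib.MP_f399a8_ntS.IoA

/-!
# No bounded `p`-adic Haar measure

PROOF of `nh1`.  Let `Φ` be `VK … σ` with `Φ (w * u) = 0` for `u ∈ U (Fst π σ)`, `‖u c d‖ ≤ δ`, invariant under conjugation by
diagonal matrices in `Km m0`; `B` a bound of `‖Φ‖` on `DD` (`vv_bound`).
Let `m₁ ≥ max m0 3` be such that `‖cb χ b - 1‖ ≤ p^(-1)` for `b ∈ Bp ∩ Km m₁` (`cb_near`), `g = 1 + p^(m₁)`, and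
`τ = iota d c _ (up2 g⁻¹ _ 0)`: diagonal (`IsD`) with entries `g` at `c`, `g⁻¹` at `d`, `1` elsewhere; `τ ∈ Km m₁`.  Let
`γ = g^2`, `‖γ - 1‖ = ‖g - 1‖ ‖g + 1‖ = p^(-m₁) ‖2‖ = p^(-m₂)` with `m₂ ∈ {m₁, m₁ + 1}` (`‖2 : ℚ_[2]‖ = 1/2`), `m₂ ≥ 2`.
`(τ * u * τ⁻¹) c d = γ * u c d`.
Let `A₀ = cb χ (w τ w⁻¹)`, `A₁ = cb χ (w' τ w'⁻¹)`, `ω = A₁ / A₀`: `w τ w⁻¹, w' τ w'⁻¹ ∈ Bp ∩ Km m₁`
(`km_conj`, `mon_Kp`, `wtw`, `isD_Bt`), so `‖A₀ - 1‖, ‖A₁ - 1‖ ≤ p^(-1)`, `‖A₀‖ = 1` and `‖ω - 1‖ ≤ p^(-1)`.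
Fix `e : ℕ`, `P = p^e`, `θ` from `theta_exists`.  For `k : ZMod P` let
`ψ_k x = if δ < ‖x c d‖ ∧ θ (x c d) = k then Φ (w * pR x) else 0`.  It is continuous (`vk_cont`; the condition is locally
constant: `{δ < ‖y‖}` is open and closed and `θ` is locally constant there; `δ > 0`), `C0` and bounded by `B` on
`U (Fst π σ)` (`vk_c0`).  On `U (Fst π σ)`: `∑_k ψ_k u = Φ (w * u)`, and `ψ_{k+1} u = ψ_k (τ⁻¹ u τ)`
(`(τ⁻¹ u τ) c d = γ⁻¹ * u c d`, same norm, and `Φ (w * (τ⁻¹ u τ)) = Φ (w * u)` by invariance).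
Let `Φ₀` be the lift of `ψ_0` (`SD.surj`), `‖Φ₀‖ ≤ C1 * B`.  For `k : ℕ` let `Φ_k x = A₀^(-k) * Φ₀ (x * τ^k)`, in
`VK` (`vk_diag`), and `Φ_k (w * u) = ψ_k u` by induction (`wtw`: `Φ₀ (w * u * τ^k) = cb χ (w τ^k w⁻¹) * Φ₀ (w * (τ^-k u τ^k))`,
`cb_mul`).  So `Φ - ∑_{k<P} Φ_k` is in `VK` and vanishes on `w * U (Fst π σ)`, hence on `DD` (`SD.inj`).  At `w' ∈ DD`:
`Φ w' = ∑_{k<P} A₀^(-k) * Φ₀ (w' * τ^k) = ∑_{k<P} ω^k * Φ₀ w'` (`w' * τ^k = (w' τ^k w'⁻¹) * w'`).  So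
`‖Φ w'‖ ≤ p^(-e) * C1 * B` (`geom_small`) for all `e`, `Φ w' = 0`.

-/

namespace Pool.Agent.Lib.MP_f399a8_nt.S

open Matrix Filter Topology

variable {p : ℕ} [Fact p.Prime] {n : ℕ} {C : Type*} [NormedField C] [NormedAlgebra ℚ_[p] C]
  [IsUltrametricDist C] [FiniteDimensional ℚ_[p] C]

theorem TiI_norm_p : (0 : ℝ) < (p : ℝ)⁻¹ ∧ (p : ℝ)⁻¹ < 1 := by
  have h1 : (1 : ℝ) < p := by exact_mod_cast (Fact.out : p.Prime).one_lt
  exact ⟨inv_pos.2 (zero_lt_one.trans h1), inv_lt_one_of_one_lt₀ h1⟩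

/-- elements close to `1` have norm `1` -/
theorem TiI_norm_one {K : Type*} [NormedField K] [IsUltrametricDist K] {x : K}
    (h : ‖x - 1‖ < 1) : ‖x‖ = 1 := by
  have h1 : ‖x - 1‖ < ‖(1 : K)‖ := by rwa [norm_one]
  have h2 := IsUltrametricDist.norm_add_eq_max_of_norm_ne_norm h1.ne
  rw [sub_add_cancel, max_eq_right h1.le, norm_one] at h2
  exact h2

theorem TiI_norm_near {K : Type*} [NormedField K] [IsUltrametricDist K] {x y : K}
    (h : ‖x - y‖ < ‖y‖) : ‖x‖ = ‖y‖ := by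
  have h2 := IsUltrametricDist.norm_add_eq_max_of_norm_ne_norm h.ne
  rw [sub_add_cancel, max_eq_right h.le] at h2
  exact h2

/-- the norm of `g ^ 2 - 1` -/
theorem TiI_gamma {m : ℕ} (hm : 3 ≤ m) :
    ∃ m₂ : ℕ, 2 ≤ m₂ ∧ ‖(1 + (p : ℚ_[p]) ^ m) ^ 2 - 1‖ = (p : ℝ) ^ (-(m₂ : ℤ)) := by
  have hp1 : (1 : ℝ) < p := by exact_mod_cast (Fact.out : p.Prime).one_lt
  have hp0 : (0 : ℝ) < p := zero_lt_one.trans hp1
  have hpm : ‖(p : ℚ_[p]) ^ m‖ = (p : ℝ) ^ (-(m : ℤ)) := by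
    rw [norm_pow, Padic.norm_p, _root_.zpow_neg, zpow_natCast, inv_pow]
  have e : (1 + (p : ℚ_[p]) ^ m) ^ 2 - 1 = (p : ℚ_[p]) ^ m * ((p : ℚ_[p]) ^ m + 2) := by ring
  rw [e, norm_mul, hpm]
  by_cases h2 : p = 2
  · refine ⟨m + 1, by omega, ?_⟩
    have h3 : ‖(2 : ℚ_[p])‖ = (p : ℝ)⁻¹ := by
      have h4 : (2 : ℚ_[p]) = ((p : ℕ) : ℚ_[p]) := by
        have h7 : ((2 : ℕ) : ℚ_[p]) = ((p : ℕ) : ℚ_[p]) := congrArg (fun z : ℕ => (z : ℚ_[p])) h2.symm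
        rw [← h7]
        norm_num
      rw [h4, Padic.norm_p]
    have h5 : ‖(p : ℚ_[p]) ^ m‖ < ‖(2 : ℚ_[p])‖ := by
      rw [hpm, h3, ← _root_.zpow_neg_one]
      exact zpow_lt_zpow_right₀ hp1 (by omega)
    have h6 := IsUltrametricDist.norm_add_eq_max_of_norm_ne_norm h5.ne
    rw [h6, max_eq_right h5.le, h3, ← _root_.zpow_neg_one, ← zpow_add₀ hp0.ne']
    congr 1
    push_cast
    ring
  · refine ⟨m, by omega, ?_⟩
    have h3 : ‖(2 : ℚ_[p])‖ = 1 := by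
      have h4 : ‖((2 : ℤ) : ℚ_[p])‖ = 1 := by
        refine le_antisymm (Padic.norm_int_le_one 2) ?_
        rw [← not_lt, Padic.norm_intCast_lt_one_iff]
        intro h5
        have h6 : p ∣ 2 := by exact_mod_cast h5
        exact h2 ((Nat.prime_dvd_prime_iff_eq Fact.out Nat.prime_two).1 h6)
      have h5 : (2 : ℚ_[p]) = ((2 : ℤ) : ℚ_[p]) := by norm_num
      rw [h5]
      exact h4
    have h5 : ‖(p : ℚ_[p]) ^ m‖ < ‖(2 : ℚ_[p])‖ := by
      rw [hpm, h3]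
      exact zpow_lt_one_of_neg₀ hp1 (by omega)
    have h6 := IsUltrametricDist.norm_add_eq_max_of_norm_ne_norm h5.ne
    rw [h6, max_eq_right h5.le, h3, mul_one]

/-- the sets defined by `θ` are open and closed -/
theorem TiI_clopen {M : ℕ} {Z : Type*} {θ : ℚ_[p] → Z} (hθ : ∀ y y' : ℚ_[p], y ≠ 0 →
    ‖y' - y‖ ≤ (p : ℝ) ^ (-(M : ℤ)) * ‖y‖ → θ y' = θ y) {δ : ℝ} (hδ : 0 < δ) (k : Z) :
    IsClopen {y : ℚ_[p] | δ < ‖y‖ ∧ θ y = k} := by
  have hp1 : (1 : ℝ) < p := by exact_mod_cast (Fact.out : p.Prime).one_lt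
  have hp0 : (0 : ℝ) < p := zero_lt_one.trans hp1
  have hM1 : (p : ℝ) ^ (-(M : ℤ)) ≤ 1 := zpow_le_one_of_nonpos₀ hp1.le (by simp)
  have hM0 : (0 : ℝ) < (p : ℝ) ^ (-(M : ℤ)) := zpow_pos hp0 _
  have key : ∀ y : ℚ_[p], δ < ‖y‖ → ∀ y' ∈ Metric.ball y ((p : ℝ) ^ (-(M : ℤ)) * ‖y‖),
      ‖y'‖ = ‖y‖ ∧ θ y' = θ y := by
    intro y hy y' hy'
    rw [Metric.mem_ball, dist_eq_norm] at hy'
    have hy0 : y ≠ 0 := by
      rintro rfl
      rw [norm_zero] at hy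
      exact lt_irrefl _ (hδ.trans hy)
    exact ⟨TiI_norm_near (hy'.trans_le (mul_le_of_le_one_left (norm_nonneg _) hM1)),
      hθ y y' hy0 hy'.le⟩
  have hpos : ∀ y : ℚ_[p], δ < ‖y‖ → 0 < (p : ℝ) ^ (-(M : ℤ)) * ‖y‖ := fun y hy =>
    mul_pos hM0 (hδ.trans hy)
  constructor
  · rw [← isOpen_compl_iff, Metric.isOpen_iff]
    intro y hy
    by_cases h1 : δ < ‖y‖
    · refine ⟨_, hpos y h1, fun y' hy' h2 => hy ⟨h1, ?_⟩⟩
      obtain ⟨-, h3⟩ := key y h1 y' hy'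
      rw [← h3]
      exact h2.2
    · refine ⟨δ, hδ, fun y' hy' h2 => ?_⟩
      rw [Metric.mem_ball, dist_eq_norm] at hy'
      have h3 := IsUltrametricDist.norm_add_le_max (y' - y) y
      rw [sub_add_cancel] at h3
      have h4 : ‖y'‖ ≤ δ := h3.trans (max_le hy'.le (not_lt.1 h1))
      exact absurd h2.1 (not_lt.2 h4)
  · rw [Metric.isOpen_iff]
    intro y hy
    refine ⟨_, hpos y hy.1, fun y' hy' => ?_⟩
    obtain ⟨h2, h3⟩ := key y hy.1 y' hy'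
    refine ⟨?_, ?_⟩
    · rw [h2]
      exact hy.1
    · rw [h3]
      exact hy.2

theorem TiI_isD_pow {τ : SLp p n} (hτ : IsD τ) (k : ℕ) : IsD (τ ^ k) := by
  induction k with
  | zero =>
    intro i j hij
    rw [pow_zero]
    exact Matrix.one_apply_ne hij
  | succ k ih =>
    intro i j hij
    rw [pow_succ]
    show ((τ ^ k).1 * τ.1) i j = 0
    rw [Matrix.mul_apply]
    refine Finset.sum_eq_zero fun l _ => ?_
    rcases eq_or_ne i l with rfl | h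
    · rw [hτ i j hij, mul_zero]
    · rw [ih i l h, zero_mul]

/-- the diagonal element -/
theorem TiI_tau {c d : Fin n} (h : c ≠ d) {g : ℚ_[p]} (hg : g ≠ 0) {m : ℕ}
    (hg1 : ‖g - 1‖ ≤ (p : ℝ) ^ (-(m : ℤ))) (hgn : ‖g‖ = 1) :
    ∃ τ : SLp p n, IsD τ ∧ τ ∈ Km p n m ∧
      ∀ u : SLp p n, (τ⁻¹ * u * τ).1 c d = (g ^ 2)⁻¹ * u.1 c d := by
  have hgi : g⁻¹ ≠ 0 := inv_ne_zero hg
  have e00 : (up2 g⁻¹ hgi 0).1 0 0 = g := by
    show (g⁻¹)⁻¹ = g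
    exact inv_inv g
  have e01 : (up2 g⁻¹ hgi 0).1 0 1 = 0 := rfl
  have e10 : (up2 g⁻¹ hgi 0).1 1 0 = 0 := rfl
  have e11 : (up2 g⁻¹ hgi 0).1 1 1 = g⁻¹ := rfl
  have hpm : (0 : ℝ) ≤ (p : ℝ) ^ (-(m : ℤ)) := by positivity
  refine ⟨iota d c h (up2 g⁻¹ hgi 0), ?_, ?_, ?_⟩
  · intro i j hij
    by_cases h1 : (i ≠ d ∧ i ≠ c) ∨ (j ≠ d ∧ j ≠ c)
    · rw [iota_off h _ h1, Matrix.one_apply_ne hij]
    · push Not at h1
      obtain ⟨h2, h3⟩ := h1
      by_cases hi : i = d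
      · subst hi
        have hj : j = c := by
          by_contra hj
          exact hj (h3 (Ne.symm hij))
        subst hj
        rw [iota_ij, e10]
      · have hi' : i = c := h2 hi
        subst hi'
        have hj : j = d := by
          by_contra hj
          exact hij (h3 hj).symm
        subst hj
        rw [iota_ji, e01]
  · intro i j
    by_cases h1 : (i ≠ d ∧ i ≠ c) ∨ (j ≠ d ∧ j ≠ c)
    · rw [iota_off h _ h1, sub_self, norm_zero]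
      exact hpm
    · push Not at h1
      obtain ⟨h2, h3⟩ := h1
      by_cases hi : i = d
      · subst hi
        by_cases hj : j = i
        · subst hj
          rw [iota_ii, e11, Matrix.one_apply_eq]
          have e : g⁻¹ - 1 = -(g⁻¹ * (g - 1)) := by
            field_simp
            ring
          rw [e, norm_neg, norm_mul, norm_inv, hgn, inv_one, one_mul]
          exact hg1
        · have hj' : j = c := h3 hj
          subst hj'
          rw [iota_ij, e10, Matrix.one_apply_ne (Ne.symm hj), sub_zero, norm_zero]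
          exact hpm
      · have hi' : i = c := h2 hi
        subst hi'
        by_cases hj : j = d
        · subst hj
          rw [iota_ji, e01, Matrix.one_apply_ne h, sub_zero, norm_zero]
          exact hpm
        · have hj' : j = i := h3 hj
          subst hj'
          rw [iota_jj, e00, Matrix.one_apply_eq]
          exact hg1
  · intro u
    obtain ⟨y, hy⟩ : ∃ y : SLp p n, y = (iota d c h (up2 g⁻¹ hgi 0))⁻¹ * u *
      iota d c h (up2 g⁻¹ hgi 0) := ⟨_, rfl⟩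
    have h1 : iota d c h (up2 g⁻¹ hgi 0) * y = u * iota d c h (up2 g⁻¹ hgi 0) := by
      rw [hy]; group
    have h2 : (iota d c h (up2 g⁻¹ hgi 0) * y).1 c d =
      (u * iota d c h (up2 g⁻¹ hgi 0)).1 c d := by rw [h1]
    have h4 : (iota d c h (up2 g⁻¹ hgi 0) * y).1 c d = g * y.1 c d := by
      rw [iota_mul_l, if_pos rfl, e00, e01, zero_mul, add_zero]
    have h5 : (u * iota d c h (up2 g⁻¹ hgi 0)).1 c d = u.1 c d * g⁻¹ := by
      rw [iota_mul_r, if_neg (Ne.symm h), if_pos rfl, e01, e11, mul_zero, zero_add]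
    rw [h4, h5] at h2
    have h3 : y.1 c d = g⁻¹ * (u.1 c d * g⁻¹) := by
      rw [← h2, ← mul_assoc, inv_mul_cancel₀ hg, one_mul]
    rw [← hy, h3]
    field_simp

theorem TiI_dd {v : Fin n → ℝ} {π σ : Equiv.Perm (Fin n)} {w : SLp p n} (hw : IsMon σ w)
    (hσ : Wt v σ) {u : SLp p n} (hu : u ∈ U p (Ord π)) : w * u ∈ DD p v π :=
  ⟨σ, w, u, hw, hσ, hu, rfl⟩

theorem TiI_fst_ord {π σ : Equiv.Perm (Fin n)} {u : SLp p n} (hu : u ∈ U p (Fst π σ)) :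
    u ∈ U p (Ord π) := U_mono (fun _ _ h => h.1) hu

theorem nh1 {χ : Tor p n →* Cˣ} (hχ : Continuous χ) {v : Fin n → ℝ} (hs : Slope χ v)
    {π : Equiv.Perm (Fin n)} (hπ : IsSorted v π) {W : Set (SLp p n → C)}
    (hW : IsClosedSubrep χ W) {σ : Equiv.Perm (Fin n)} {w : SLp p n} {C1 : ℝ}
    (hS : SD χ v π W σ w C1) {c d : Fin n} (hcd : Fst π σ c d) {δ : ℝ} (hδ : 0 < δ) {m0 : ℕ}
    {Φ : SLp p n → C} (hΦ : VK χ v π W σ Φ)
    (hz : ∀ u ∈ U p (Fst π σ), ‖u.1 c d‖ ≤ δ → Φ (w * u) = 0)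
    (hinv : ∀ τ : SLp p n, IsD τ → τ ∈ Km p n m0 → ∀ u ∈ U p (Fst π σ),
      Φ (w * (τ⁻¹ * u * τ)) = Φ (w * u))
    {σ' : Equiv.Perm (Fin n)} {w' : SLp p n} (hw' : IsMon σ' w') (hσ' : Wt v σ') : Φ w' = 0 := by
  classical
  have hp1 : (1 : ℝ) < p := by exact_mod_cast (Fact.out : p.Prime).one_lt
  have hp0 : (0 : ℝ) < p := zero_lt_one.trans hp1
  have hcd' : c ≠ d := by
    rintro rfl
    exact (so_Fst π σ).irr _ hcd
  obtain ⟨B, hB0, hB⟩ := vv_bound hs hπ hW hΦ.vv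
  obtain ⟨m', hm'1, hm'⟩ := cb_near (n := n) hχ (TiI_norm_p (p := p)).1
  set m₁ := max (max m0 3) m' with hm₁
  have hm₁3 : 3 ≤ m₁ := (le_max_right _ _).trans (le_max_left _ _)
  have hm₁0 : m0 ≤ m₁ := (le_max_left _ _).trans (le_max_left _ _)
  have hm₁' : m' ≤ m₁ := le_max_right _ _
  have hpm : ‖(p : ℚ_[p]) ^ m₁‖ = (p : ℝ) ^ (-(m₁ : ℤ)) := by
    rw [norm_pow, Padic.norm_p, _root_.zpow_neg, zpow_natCast, inv_pow]
  have hpm1 : (p : ℝ) ^ (-(m₁ : ℤ)) < 1 := zpow_lt_one_of_neg₀ hp1 (by omega)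
  set g : ℚ_[p] := 1 + (p : ℚ_[p]) ^ m₁ with hg
  have hg1 : ‖g - 1‖ = (p : ℝ) ^ (-(m₁ : ℤ)) := by rw [hg, add_sub_cancel_left, hpm]
  have hgn : ‖g‖ = 1 := TiI_norm_one (by rw [hg1]; exact hpm1)
  have hg0 : g ≠ 0 := by
    rintro h0
    rw [h0, norm_zero] at hgn
    exact zero_ne_one hgn
  obtain ⟨m₂, hm₂, hγ⟩ := TiI_gamma (p := p) hm₁3
  rw [← hg] at hγ
  obtain ⟨τ, hτD, hτK, hτc⟩ := TiI_tau (n := n) hcd' hg0 hg1.le hgn
  have hw := hS.mon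
  have hwt := hS.wt
  -- the two values
  set A₀ : C := cb χ (w * τ * w⁻¹) with hA₀
  set A₁ : C := cb χ (w' * τ * w'⁻¹) with hA₁
  have hnear : ∀ {ρ : Equiv.Perm (Fin n)} {x : SLp p n}, IsMon ρ x →
      ‖cb χ (x * τ * x⁻¹) - 1‖ ≤ (p : ℝ)⁻¹ := by
    intro ρ x hx
    refine hm' _ (isD_Bt (wtw hx hτD).1 _) (km_anti hm₁' ?_)
    exact (km_conj (mon_Kp hx) hτK).1
  have hA₀1 := hnear hw
  have hA₁1 := hnear hw'
  rw [← hA₀] at hA₀1
  rw [← hA₁] at hA₁1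
  have hA₀n : ‖A₀‖ = 1 := TiI_norm_one (hA₀1.trans_lt TiI_norm_p.2)
  have hA₀0 : A₀ ≠ 0 := cb_ne_zero χ _
  have hω : ‖A₁ * A₀⁻¹ - 1‖ ≤ (p : ℝ)⁻¹ := by
    have e : A₁ * A₀⁻¹ - 1 = ((A₁ - 1) - (A₀ - 1)) * A₀⁻¹ := by
      field_simp
      ring
    rw [e, norm_mul, norm_inv, hA₀n, inv_one, mul_one, sub_eq_add_neg]
    refine (IsUltrametricDist.norm_add_le_max _ _).trans (max_le hA₁1 ?_)
    rw [norm_neg]
    exact hA₀1
  -- invariance
  have hτinv : ∀ u ∈ U p (Fst π σ), τ⁻¹ * u * τ ∈ U p (Fst π σ) := fun u hu =>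
    (isD_conj hτD hu).2
  have hΦinv : ∀ u ∈ U p (Fst π σ), Φ (w * (τ⁻¹ * u * τ)) = Φ (w * u) :=
    hinv τ hτD (km_anti hm₁0 hτK)
  have hγ0 : g ^ 2 ≠ 0 := pow_ne_zero _ hg0
  -- the estimate
  have main : ∀ e : ℕ, ‖Φ w'‖ ≤ (p : ℝ) ^ (-(e : ℤ)) * (C1 * B) := by
    intro e
    obtain ⟨θ, hθ1, hθ2⟩ := theta_exists hm₂ hγ e
    have hP : NeZero (p ^ e) := ⟨pow_ne_zero _ (Fact.out : p.Prime).ne_zero⟩
    set ψ : ZMod (p ^ e) → SLp p n → C := fun k x =>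
      if δ < ‖x.1 c d‖ ∧ θ (x.1 c d) = k then Φ (w * pR (Fst π σ) (so_Fst π σ) x) else 0 with hψ
    have hψU : ∀ k, ∀ u ∈ U p (Fst π σ), ψ k u =
        if δ < ‖u.1 c d‖ ∧ θ (u.1 c d) = k then Φ (w * u) else 0 := by
      intro k u hu
      rw [hψ]
      simp only
      rw [pR_id _ hu]
    have hcont : ∀ k, Continuous (ψ k) := by
      intro k
      have hcl : IsClopen {x : SLp p n | δ < ‖x.1 c d‖ ∧ θ (x.1 c d) = k} :=
        (TiI_clopen hθ2 hδ k).preimage (continuous_entry c d)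
      refine Continuous.if ?_ (vk_cont hW hw hwt hΦ) continuous_const
      intro a ha
      rw [hcl.frontier_eq] at ha
      exact absurd ha (Set.notMem_empty _)
    have hC0 : ∀ k, C0 (Fst π σ) (ψ k) := by
      intro k ε hε
      obtain ⟨A, hA⟩ := vk_c0 hs hπ hW hw hwt hΦ ε hε
      refine ⟨A, fun x hx hεx => hA x hx ?_⟩
      rw [hψU k x hx] at hεx
      by_cases h : δ < ‖x.1 c d‖ ∧ θ (x.1 c d) = k
      · rwa [if_pos h] at hεx
      · rw [if_neg h, norm_zero] at hεx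
        exact absurd hεx (not_le.2 hε)
    have hbd : ∀ k, ∀ u ∈ U p (Fst π σ), ‖ψ k u‖ ≤ B := by
      intro k u hu
      rw [hψU k u hu]
      split_ifs
      · exact hB _ (TiI_dd hw hwt (TiI_fst_ord hu))
      · rw [norm_zero]
        exact hB0.le
    obtain ⟨Φ₀, hΦ₀, hΦ₀U, hΦ₀B⟩ := hS.surj (ψ 0) (hcont 0) (hC0 0) B hB0.le (hbd 0)
    set Φk : ℕ → SLp p n → C := fun k x => (A₀⁻¹) ^ k * Φ₀ (x * τ ^ k) with hΦk
    have hΦkV : ∀ k, VK χ v π W σ (Φk k) := fun k =>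
      vk_smul hW _ (vk_diag hs hW (TiI_isD_pow hτD k) hΦ₀)
    have hΦkU : ∀ k : ℕ, ∀ u ∈ U p (Fst π σ), Φk k (w * u) = ψ (k : ZMod (p ^ e)) u := by
      intro k
      induction k with
      | zero =>
        intro u hu
        rw [hΦk]
        simp only
        rw [pow_zero, pow_zero, mul_one, one_mul, Nat.cast_zero]
        exact hΦ₀U u hu
      | succ k ih =>
        intro u hu
        have e1 : Φk (k + 1) (w * u) = Φk k (w * (τ⁻¹ * u * τ)) := by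
          rw [hΦk]
          simp only
          have e2 : w * u * τ ^ (k + 1) = (w * τ * w⁻¹) * (w * (τ⁻¹ * u * τ) * τ ^ k) := by
            rw [pow_succ' τ k, ← mul_assoc (w * u), (wtw hw hτD).2 u, mul_assoc]
          rw [e2, hΦ₀.vv.left _ (isD_Bt (wtw hw hτD).1 _), ← hA₀, pow_succ, mul_assoc,
            ← mul_assoc A₀⁻¹ A₀, inv_mul_cancel₀ hA₀0, one_mul]
        rw [e1, ih _ (hτinv u hu), hψU _ _ (hτinv u hu), hψU _ _ hu, hτc u]
        have hn : ‖(g ^ 2)⁻¹ * u.1 c d‖ = ‖u.1 c d‖ := by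
          rw [norm_mul, norm_inv, norm_pow, hgn, one_pow, inv_one, one_mul]
        rw [hn, hΦinv u hu]
        by_cases hδu : δ < ‖u.1 c d‖
        · have hy0 : (g ^ 2)⁻¹ * u.1 c d ≠ 0 := by
            intro h0
            rw [h0, norm_zero] at hn
            rw [← hn] at hδu
            exact lt_irrefl _ (hδ.trans hδu)
          have h3 := hθ1 _ hy0
          rw [← mul_assoc, mul_inv_cancel₀ hγ0, one_mul] at h3
          have hiff : (δ < ‖u.1 c d‖ ∧ θ ((g ^ 2)⁻¹ * u.1 c d) = (k : ZMod (p ^ e))) ↔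
              (δ < ‖u.1 c d‖ ∧ θ (u.1 c d) = ((k + 1 : ℕ) : ZMod (p ^ e))) := by
            rw [h3, Nat.cast_succ, add_left_inj]
          exact if_congr hiff rfl rfl
        · rw [if_neg (fun h => hδu h.1), if_neg (fun h => hδu h.1)]
    have hsumV : VK χ v π W σ (fun x => Φ x + (-1) * ∑ k ∈ Finset.range (p ^ e), Φk k x) :=
      vk_add hW hΦ (vk_smul hW _ (vk_sum hW _ _ fun k _ => hΦkV k))
    have hsum0 : ∀ u ∈ U p (Fst π σ),
        Φ (w * u) + (-1) * ∑ k ∈ Finset.range (p ^ e), Φk k (w * u) = 0 := by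
      intro u hu
      have e1 : ∑ k ∈ Finset.range (p ^ e), Φk k (w * u) = Φ (w * u) := by
        rw [Finset.sum_congr rfl fun k _ => (hΦkU k u hu).trans (hψU _ u hu)]
        by_cases hδu : δ < ‖u.1 c d‖
        · rw [Finset.sum_eq_single (θ (u.1 c d)).val]
          · rw [if_pos ⟨hδu, (ZMod.natCast_zmod_val _).symm⟩]
          · intro k hk hne
            rw [if_neg]
            rintro ⟨-, h5⟩
            apply hne
            rw [h5, ZMod.val_natCast, Nat.mod_eq_of_lt (Finset.mem_range.1 hk)]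
          · intro h5
            exact absurd (Finset.mem_range.2 (ZMod.val_lt _)) h5
        · rw [Finset.sum_eq_zero fun k _ => if_neg fun h => hδu h.1]
          exact (hz u hu (not_lt.1 hδu)).symm
      rw [e1]
      ring
    have hw'D : w' ∈ DD p v π := by
      have := TiI_dd (π := π) hw' hσ' (U_one (Ord π))
      rwa [mul_one] at this
    have hfin := hS.inj _ hsumV hsum0 w' hw'D
    have hτk : ∀ k : ℕ, Φ₀ (w' * τ ^ k) = A₁ ^ k * Φ₀ w' := by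
      intro k
      induction k with
      | zero => rw [pow_zero, pow_zero, mul_one, one_mul]
      | succ k ih =>
        have e2 : w' * τ ^ (k + 1) = (w' * τ * w'⁻¹) * (w' * τ ^ k) := by
          rw [pow_succ' τ k]
          group
        rw [e2, hΦ₀.vv.left _ (isD_Bt (wtw hw' hτD).1 _), ← hA₁, ih, pow_succ']
        ring
    have e3 : Φ w' = (∑ k ∈ Finset.range (p ^ e), (A₁ * A₀⁻¹) ^ k) * Φ₀ w' := by
      have e4 : Φ w' = ∑ k ∈ Finset.range (p ^ e), Φk k w' := by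
        have := hfin
        linear_combination this
      rw [e4, Finset.sum_mul]
      refine Finset.sum_congr rfl fun k _ => ?_
      rw [hΦk]
      simp only
      rw [hτk k, mul_pow]
      ring
    rw [e3, norm_mul]
    exact mul_le_mul (geom_small hω e) (hΦ₀B w' hw'D) (norm_nonneg _) (by positivity)
  -- the limit
  have hlim : Tendsto (fun e : ℕ => (p : ℝ) ^ (-(e : ℤ)) * (C1 * B)) atTop (𝓝 0) := by
    have h1 : Tendsto (fun e : ℕ => ((p : ℝ)⁻¹) ^ e) atTop (𝓝 0) :=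
      tendsto_pow_atTop_nhds_zero_of_lt_one TiI_norm_p.1.le TiI_norm_p.2
    have h2 := h1.mul_const (C1 * B)
    rw [zero_mul] at h2
    refine h2.congr fun e => ?_
    rw [inv_pow, _root_.zpow_neg, zpow_natCast]
  have h0 : ‖Φ w'‖ ≤ 0 := ge_of_tendsto' hlim main
  exact norm_le_zero_iff.1 h0

end Pool.Agent.Lib.MP_f399a8_nt.S
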