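import Pool.Agent.Lib.MP_f399a8_ntS.TiI

/-!
# Values at other strata of functions vanishing near the base point

PROOF of `nh2`.  Let `Φ` be `VK … σ`, `Φ (w * u) = 0` for `u ∈ U (Fst π σ) ∩ Km m1`, invariant as before.  Let
`δ = p^(-m1)`.  For a finite set `Q` of pairs let `ψ_Q x = if ∀ q ∈ Q, ‖x q.1 q.2‖ ≤ δ then Φ (w * pR x) else 0`
(continuous, `C0`, bounded), `Φ_Q` its lift.  Claim: `Φ w' = Φ_Q w'` for all sets `Q` of pairs in `Fst π σ`.  Induction on `Q`: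
`Q = ∅`: `Φ - Φ_∅` vanishes on the stratum, `SD.inj`.  `Q ∪ {q}`: `Φ_Q - Φ_{Q ∪ {q}}` has the values
`if (∀ q' ∈ Q, ‖u q'‖ ≤ δ) ∧ δ < ‖u q‖ then Φ (w u) else 0` on the stratum; `nh1` applies with `(c, d) = q` (conjugation by
diagonal matrices in `Km m0` does not change the norms of the entries: the diagonal entries are units).  For
`Q` = all pairs in `Fst π σ`, `ψ_Q = 0` on `U (Fst π σ)` (then `u ∈ Km m1`), so `Φ_Q` vanishes on `DD`.
-/

namespace Pool.Agent.Lib.MP_f399a8_nt.S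

open Matrix Filter Topology

variable {p : ℕ} [Fact p.Prime] {n : ℕ} {C : Type*} [NormedField C] [NormedAlgebra ℚ_[p] C]
  [IsUltrametricDist C] [FiniteDimensional ℚ_[p] C]

private theorem TiI2_mem {v : Fin n → ℝ} {π σ : Equiv.Perm (Fin n)} {w u : SLp p n}
    (hw : IsMon σ w) (hσ : Wt v σ) (hu : u ∈ U p (Fst π σ)) : w * u ∈ DD p v π :=
  ⟨σ, w, u, hw, hσ, U_mono (fun _ _ h => h.1) hu, rfl⟩

private theorem TiI2_mem1 {v : Fin n → ℝ} {π σ : Equiv.Perm (Fin n)} {w : SLp p n}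
    (hw : IsMon σ w) (hσ : Wt v σ) : w ∈ DD p v π :=
  ⟨σ, w, 1, hw, hσ, U_one _, (mul_one w).symm⟩

private theorem TiI2_unit {τ : SLp p n} {m0 : ℕ} (hτ : τ ∈ Km p n (m0 + 1)) (i : Fin n) :
    ‖τ.1 i i‖ = 1 := by
  have h1 := (mem_Km.1 hτ) i i
  rw [Matrix.one_apply_eq] at h1
  have hp : (1 : ℝ) < p := by exact_mod_cast (Fact.out : p.Prime).one_lt
  have h2 : (p : ℝ) ^ (-((m0 + 1 : ℕ) : ℤ)) < 1 :=
    zpow_lt_one_of_neg₀ hp (by push_cast; omega)
  have h3 : ‖τ.1 i i - 1‖ < ‖(1 : ℚ_[p])‖ := by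
    rw [norm_one]
    exact h1.trans_lt h2
  have h4 := IsUltrametricDist.norm_add_eq_max_of_norm_ne_norm h3.ne
  rw [sub_add_cancel, max_eq_right h3.le, norm_one] at h4
  exact h4

private theorem TiI2_conj {τ u : SLp p n} (hD : IsD τ) (h1 : ∀ i, ‖τ.1 i i‖ = 1) (i j : Fin n) :
    ‖(τ⁻¹ * u * τ).1 i j‖ = ‖u.1 i j‖ := by
  have h2 : τ * (τ⁻¹ * u * τ) = u * τ := by group
  have h3 : (τ * (τ⁻¹ * u * τ)).1 i j = (u * τ).1 i j := by rw [h2]
  have h4 : (τ * (τ⁻¹ * u * τ)).1 i j = τ.1 i i * (τ⁻¹ * u * τ).1 i j := by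
    rw [Matrix.SpecialLinearGroup.coe_mul τ, Matrix.mul_apply]
    rw [Finset.sum_eq_single i]
    · intro k _ hk
      rw [hD i k (Ne.symm hk), zero_mul]
    · intro h
      exact absurd (Finset.mem_univ _) h
  have h5 : (u * τ).1 i j = u.1 i j * τ.1 j j := by
    rw [Matrix.SpecialLinearGroup.coe_mul u, Matrix.mul_apply]
    rw [Finset.sum_eq_single j]
    · intro k _ hk
      rw [hD k j hk, mul_zero]
    · intro h
      exact absurd (Finset.mem_univ _) h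
  rw [h4, h5] at h3
  have h6 := congrArg norm h3
  rw [norm_mul, norm_mul, h1, h1, one_mul, mul_one] at h6
  exact h6

open Classical in
private noncomputable def TiI2_psi (δ : ℝ) (g : SLp p n → C) (Q : Finset (Fin n × Fin n))
    (x : SLp p n) : C :=
  if ∀ q ∈ Q, ‖x.1 q.1 q.2‖ ≤ δ then g x else 0

private theorem TiI2_cont {δ : ℝ} (hδ : 0 < δ) {g : SLp p n → C} (hg : Continuous g)
    (Q : Finset (Fin n × Fin n)) : Continuous (TiI2_psi δ g Q) := by
  classical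
  have h1 : IsClopen {x : SLp p n | ∀ q ∈ Q, ‖x.1 q.1 q.2‖ ≤ δ} := by
    have h2 : {x : SLp p n | ∀ q ∈ Q, ‖x.1 q.1 q.2‖ ≤ δ} =
        ⋂ q ∈ Q, (fun x : SLp p n => x.1 q.1 q.2) ⁻¹' (Metric.closedBall 0 δ) := by
      ext x
      simp only [Set.mem_ofPred_eq, Set.mem_iInter, Set.mem_preimage, mem_closedBall_zero_iff]
    rw [h2]
    refine isClopen_biInter_finset fun q _ => ?_
    exact (IsUltrametricDist.isClopen_closedBall _ hδ.ne').preimage (continuous_entry q.1 q.2)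
  have h3 : TiI2_psi δ g Q = fun x => if ∀ q ∈ Q, ‖x.1 q.1 q.2‖ ≤ δ then g x else 0 := by
    funext x
    unfold TiI2_psi
    split_ifs <;> rfl
  rw [h3]
  refine Continuous.if ?_ hg continuous_const
  intro a ha
  rw [h1.frontier_eq] at ha
  exact absurd ha (Set.notMem_empty _)

theorem nh2 {χ : Tor p n →* Cˣ} (hχ : Continuous χ) {v : Fin n → ℝ} (hs : Slope χ v)
    {π : Equiv.Perm (Fin n)} (hπ : IsSorted v π) {W : Set (SLp p n → C)}
    (hW : IsClosedSubrep χ W) {σ : Equiv.Perm (Fin n)} {w : SLp p n} {C1 : ℝ}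
    (hS : SD χ v π W σ w C1) {m0 m1 : ℕ} {Φ : SLp p n → C} (hΦ : VK χ v π W σ Φ)
    (hz : ∀ u ∈ U p (Fst π σ), u ∈ Km p n m1 → Φ (w * u) = 0)
    (hinv : ∀ τ : SLp p n, IsD τ → τ ∈ Km p n m0 → ∀ u ∈ U p (Fst π σ),
      Φ (w * (τ⁻¹ * u * τ)) = Φ (w * u))
    {σ' : Equiv.Perm (Fin n)} {w' : SLp p n} (hw' : IsMon σ' w') (hσ' : Wt v σ') : Φ w' = 0 := by
  classical
  obtain ⟨A, hA0, hA⟩ := vv_bound hs hπ hW hΦ.vv
  have hp0 : (0 : ℝ) < p := by exact_mod_cast (Fact.out : p.Prime).pos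
  obtain ⟨δ, hδdef⟩ : ∃ δ : ℝ, δ = (p : ℝ) ^ (-(m1 : ℤ)) := ⟨_, rfl⟩
  have hδ : 0 < δ := by
    rw [hδdef]
    exact zpow_pos hp0 _
  obtain ⟨g, hgdef⟩ : ∃ g : SLp p n → C, g = fun x => Φ (w * pR (Fst π σ) (so_Fst π σ) x) :=
    ⟨_, rfl⟩
  have hgc : Continuous g := by
    rw [hgdef]
    exact vk_cont hW hS.mon hS.wt hΦ
  have hgu : ∀ u ∈ U p (Fst π σ), g u = Φ (w * u) := by
    intro u hu
    rw [hgdef]
    show Φ (w * pR (Fst π σ) (so_Fst π σ) u) = _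
    rw [pR_id (so_Fst π σ) hu]
  have hpsi1 : ∀ (Q : Finset (Fin n × Fin n)) (u : SLp p n), u ∈ U p (Fst π σ) →
      (∀ q ∈ Q, ‖u.1 q.1 q.2‖ ≤ δ) → TiI2_psi δ g Q u = Φ (w * u) := by
    intro Q u hu h
    unfold TiI2_psi
    rw [if_pos h, hgu u hu]
  have hpsi0 : ∀ (Q : Finset (Fin n × Fin n)) (u : SLp p n),
      (¬ ∀ q ∈ Q, ‖u.1 q.1 q.2‖ ≤ δ) → TiI2_psi δ g Q u = 0 := by
    intro Q u h
    unfold TiI2_psi
    rw [if_neg h]
  have hlift : ∀ Q : Finset (Fin n × Fin n), ∃ φ : SLp p n → C, VK χ v π W σ φ ∧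
      ∀ u ∈ U p (Fst π σ), φ (w * u) = TiI2_psi δ g Q u := by
    intro Q
    have hc0 : C0 (Fst π σ) (TiI2_psi δ g Q) := by
      intro ε hε
      obtain ⟨A', hA'⟩ := vk_c0 hs hπ hW hS.mon hS.wt hΦ ε hε
      refine ⟨A', fun x hx hxε => hA' x hx ?_⟩
      by_cases h : ∀ q ∈ Q, ‖x.1 q.1 q.2‖ ≤ δ
      · rw [hpsi1 Q x hx h] at hxε
        exact hxε
      · rw [hpsi0 Q x h, norm_zero] at hxε
        exact absurd hxε (not_le.2 hε)
    have hB : ∀ u ∈ U p (Fst π σ), ‖TiI2_psi δ g Q u‖ ≤ A := by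
      intro u hu
      by_cases h : ∀ q ∈ Q, ‖u.1 q.1 q.2‖ ≤ δ
      · rw [hpsi1 Q u hu h]
        exact hA _ (TiI2_mem hS.mon hS.wt hu)
      · rw [hpsi0 Q u h, norm_zero]
        exact hA0.le
    obtain ⟨φ, h1, h2, -⟩ := hS.surj _ (TiI2_cont hδ hgc Q) hc0 A hA0.le hB
    exact ⟨φ, h1, h2⟩
  choose F hF1 hF2 using hlift
  have hw'D : w' ∈ DD p v π := TiI2_mem1 hw' hσ'
  have hdiff : ∀ φ ψ : SLp p n → C, VK χ v π W σ φ → VK χ v π W σ ψ →
      VK χ v π W σ (fun x => φ x + (-1) * ψ x) := by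
    intro φ ψ h1 h2
    exact vk_add hW h1 (vk_smul hW (-1) h2)
  have hclaim : ∀ Q : Finset (Fin n × Fin n), (∀ q ∈ Q, Fst π σ q.1 q.2) →
      Φ w' = F Q w' := by
    intro Q
    induction Q using Finset.induction_on with
    | empty =>
      intro _
      have h1 := hS.inj _ (hdiff _ _ hΦ (hF1 ∅)) (by
        intro u hu
        show Φ (w * u) + (-1) * F ∅ (w * u) = 0
        rw [hF2 ∅ u hu, hpsi1 ∅ u hu (by intro q hq; exact absurd hq (Finset.notMem_empty _))]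
        ring) w' hw'D
      have h2 : Φ w' + (-1) * F ∅ w' = 0 := h1
      linear_combination h2
    | insert q Q hq ih =>
      intro hQ
      have h1 := ih (fun q' hq' => hQ q' (Finset.mem_insert_of_mem hq'))
      rw [h1]
      have hcd : Fst π σ q.1 q.2 := hQ q (Finset.mem_insert_self _ _)
      have hinvQ : ∀ (Q' : Finset (Fin n × Fin n)) (τ : SLp p n), IsD τ →
          τ ∈ Km p n (m0 + 1) → ∀ u ∈ U p (Fst π σ),
            F Q' (w * (τ⁻¹ * u * τ)) = F Q' (w * u) := by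
        intro Q' τ hτ hτK u hu
        have hu' : τ⁻¹ * u * τ ∈ U p (Fst π σ) := (isD_conj hτ hu).2
        rw [hF2 Q' u hu, hF2 Q' _ hu']
        have hn := TiI2_conj (u := u) hτ (TiI2_unit hτK)
        by_cases h : ∀ q ∈ Q', ‖u.1 q.1 q.2‖ ≤ δ
        · have h' : ∀ q ∈ Q', ‖(τ⁻¹ * u * τ).1 q.1 q.2‖ ≤ δ := by
            intro q hq
            rw [hn]
            exact h q hq
          rw [hpsi1 Q' u hu h, hpsi1 Q' _ hu' h']
          exact hinv τ hτ (km_anti (Nat.le_succ m0) hτK) u hu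
        · have h' : ¬ ∀ q ∈ Q', ‖(τ⁻¹ * u * τ).1 q.1 q.2‖ ≤ δ := by
            intro h2
            apply h
            intro q hq
            rw [← hn]
            exact h2 q hq
          rw [hpsi0 Q' u h, hpsi0 Q' _ h']
      have h2 := nh1 (m0 := m0 + 1) hχ hs hπ hW hS hcd hδ (hdiff _ _ (hF1 Q) (hF1 (insert q Q)))
        (by
          intro u hu huδ
          show F Q (w * u) + (-1) * F (insert q Q) (w * u) = 0
          rw [hF2 Q u hu, hF2 (insert q Q) u hu]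
          by_cases h : ∀ q ∈ Q, ‖u.1 q.1 q.2‖ ≤ δ
          · have h' : ∀ q' ∈ insert q Q, ‖u.1 q'.1 q'.2‖ ≤ δ := by
              intro q' hq'
              rcases Finset.mem_insert.1 hq' with rfl | hq''
              · exact huδ
              · exact h q' hq''
            rw [hpsi1 Q u hu h, hpsi1 _ u hu h']
            ring
          · have h' : ¬ ∀ q' ∈ insert q Q, ‖u.1 q'.1 q'.2‖ ≤ δ := by
              intro h2
              exact h fun q' hq' => h2 q' (Finset.mem_insert_of_mem hq')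
            rw [hpsi0 Q u h, hpsi0 _ u h']
            ring)
        (by
          intro τ hτ hτK u hu
          show F Q (w * (τ⁻¹ * u * τ)) + (-1) * F (insert q Q) (w * (τ⁻¹ * u * τ)) =
            F Q (w * u) + (-1) * F (insert q Q) (w * u)
          rw [hinvQ Q τ hτ hτK u hu, hinvQ (insert q Q) τ hτ hτK u hu])
        hw' hσ'
      have h3 : F Q w' + (-1) * F (insert q Q) w' = 0 := h2
      linear_combination h3
  have hfin := hclaim (Finset.univ.filter fun q => Fst π σ q.1 q.2)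
    (fun q hq => (Finset.mem_filter.1 hq).2)
  rw [hfin]
  refine hS.inj _ (hF1 _) ?_ w' hw'D
  intro u hu
  rw [hF2 _ u hu]
  by_cases h : ∀ q ∈ Finset.univ.filter (fun q : Fin n × Fin n => Fst π σ q.1 q.2),
      ‖u.1 q.1 q.2‖ ≤ δ
  · rw [hpsi1 _ u hu h]
    refine hz u hu ?_
    rw [mem_Km]
    intro i j
    rw [← hδdef]
    by_cases hij : Fst π σ i j
    · have hne : i ≠ j := by
        rintro rfl
        exact (so_Fst π σ).irr _ hij
      rw [Matrix.one_apply_ne hne, sub_zero]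
      exact h (i, j) (Finset.mem_filter.2 ⟨Finset.mem_univ _, hij⟩)
    · rw [mem_U.1 hu i j hij, sub_self, norm_zero]
      exact hδ.le
  · rw [hpsi0 _ u h]

end Pool.Agent.Lib.MP_f399a8_nt.S
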