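import Pool.Agent.Lib.MP_f399a8_ntS.TiC
import Pool.Agent.Lib.MP_f399a8_ntS.IoA

/-!
# Behaviour near a stratum of smaller dimension

`a, b` with `v a = v b`, `π a < π b`, `i0 = σ⁻¹ a < j0 = σ⁻¹ b`.  `ι = iota b a h` has `a` as first and `b` as second
index.  `w' = w * (ι w2)⁻¹`.

PROOF of `mon_w2`: `ι w2` is a signed permutation matrix for `Equiv.swap a b` (`iota_jj` etc., `iota_off`), `mon_inv`,
`mon_mul`: `w * (ι w2)⁻¹` belongs to `(swap a b)⁻¹ * σ = swap a b * σ`; it preserves `v`.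
PROOF of `p1_rel`: for `y ≠ 0`: `lo2 y = up2 y 1 * (w2)⁻¹ * up2 1 y⁻¹` (2 × 2 computation), so
`w * ι (lo2 y) = (w * ι (up2 y 1) * w⁻¹) * (w' * ι (up2 1 y⁻¹))`.  `Bq := w * ι (up2 y 1) * w⁻¹` is upper
triangular: its entry `(k, l)` is `± ι (up2 y 1) (σ k) (σ l)`, nonzero off the diagonal only for `σ k = a`, `σ l = b`, i.e.
`k = i0 < l = j0`; its diagonal is `y⁻¹` at `i0`, `y` at `j0`, `1` elsewhere (`mon_conj`), so
`cb χ Bq = χ (cort i0 j0 y⁻¹)` (compare entries of `toTor`).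
PROOF of `p1_lim`: let `ε > 0`, `w₀ ∈ W` with `‖φ x - w₀ x‖ ≤ ε` on `DD`.  `w₀` is continuous and
`w * ι (lo2 y) → w` for `y → 0`, so `‖w₀ (w * ι (lo2 y)) - w₀ w‖ ≤ ε` for `‖y‖ ≤ δ`.  For `‖x‖ ≥ 1/δ`, `y = x⁻¹`:
`w₀ (w * ι (lo2 y)) = χ (cort i0 j0 x) * w₀ (w' * ι (up2 1 x))`.  `‖χ (cort i0 j0 x)‖ = ‖x‖ ^ (v i0 - v j0) = 1`
(`slope_cort`, `v i0 = v a = v b = v j0`).  `w' * ι (up2 1 x) ∈ DD` (`ι (up2 1 x) ∈ U (Ord π)` since `π a < π b`) and
`w ∈ DD`.  Ultrametric inequality.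
-/

namespace Pool.Agent.Lib.MP_f399a8_nt.S

open Matrix Filter Topology

variable {p : ℕ} [Fact p.Prime] {n : ℕ} {C : Type*} [NormedField C] [IsUltrametricDist C]
  {v : Fin n → ℝ} {π σ : Equiv.Perm (Fin n)} {a b : Fin n}

private theorem TiJ_inv_app (σ : Equiv.Perm (Fin n)) (i : Fin n) : σ⁻¹ (σ i) = i :=
  σ.symm_apply_apply i

private theorem TiJ_app_inv (σ : Equiv.Perm (Fin n)) (i : Fin n) : σ (σ⁻¹ i) = i :=
  σ.apply_symm_apply i

private theorem TiJ_two {σ : Equiv.Perm (Fin n)} {w : SLp p n} (hw : IsMon σ w) (i : Fin n) :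
    w.1 i (σ i) * w.1 i (σ i) = 1 := by
  rcases (hw i (σ i)).1 rfl with h | h <;> rw [h] <;> ring

private theorem TiJ_lo2 (x : ℚ_[p]ˣ) : lo2 ((x⁻¹ : ℚ_[p]ˣ) : ℚ_[p]) =
    up2 ((x⁻¹ : ℚ_[p]ˣ) : ℚ_[p]) (Units.ne_zero _) 1 * (w2 p)⁻¹ *
      up2 1 one_ne_zero (x : ℚ_[p]) := by
  have h1 : up2 ((x⁻¹ : ℚ_[p]ˣ) : ℚ_[p]) (Units.ne_zero _) 1 =
      lo2 ((x⁻¹ : ℚ_[p]ˣ) : ℚ_[p]) * (up2 1 one_ne_zero (x : ℚ_[p]))⁻¹ * w2 p := by
    have hx : (x : ℚ_[p]) ≠ 0 := Units.ne_zero x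
    apply Subtype.ext
    rw [Matrix.SpecialLinearGroup.coe_mul, Matrix.SpecialLinearGroup.coe_mul,
      Matrix.SpecialLinearGroup.coe_inv]
    simp only [up2, lo2, w2, Matrix.adjugate_fin_two_of]
    ext i j
    fin_cases i <;> fin_cases j <;> simp [Matrix.mul_apply, Fin.sum_univ_two, hx]
  rw [h1]
  group

theorem up_ord (h : a ≠ b) (hab : π a < π b) (x : ℚ_[p]) :
    iota b a h (up2 1 one_ne_zero x) ∈ U p (Ord π) := by
  rw [mem_U]
  intro k l hkl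
  by_cases hk : k ≠ b ∧ k ≠ a
  · exact iota_off h _ (Or.inl hk)
  by_cases hl : l ≠ b ∧ l ≠ a
  · exact iota_off h _ (Or.inr hl)
  have hk' : k = b ∨ k = a := by
    by_contra hc
    exact hk ⟨fun h1 => hc (Or.inl h1), fun h1 => hc (Or.inr h1)⟩
  have hl' : l = b ∨ l = a := by
    by_contra hc
    exact hl ⟨fun h1 => hc (Or.inl h1), fun h1 => hc (Or.inr h1)⟩
  rcases hk' with rfl | rfl
  · rcases hl' with rfl | rfl
    · rw [iota_ii, Matrix.one_apply_eq]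
      simp [up2]
    · rw [iota_ij, Matrix.one_apply_ne h.symm]
      simp [up2]
  · rcases hl' with rfl | rfl
    · exact absurd hab hkl
    · rw [iota_jj, Matrix.one_apply_eq]
      simp [up2]

theorem up_add (x y : ℚ_[p]) : up2 1 one_ne_zero x * up2 1 one_ne_zero y =
    up2 1 one_ne_zero (x + y) := by
  apply Subtype.ext
  rw [Matrix.SpecialLinearGroup.coe_mul]
  simp only [up2]
  ext i j
  fin_cases i <;> fin_cases j <;> simp [Matrix.mul_apply, Fin.sum_univ_two, add_comm]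

theorem mon_w2 (h : a ≠ b) (hv : v a = v b) (hσ : Wt v σ) {w : SLp p n} (hw : IsMon σ w) :
    IsMon (Equiv.swap a b * σ) (w * (iota b a h (w2 p))⁻¹) ∧ Wt v (Equiv.swap a b * σ) := by
  have h1 : IsMon (Equiv.swap a b) (iota b a h (w2 p)) := by
    intro i j
    rcases eq_or_ne i a with rfl | hia
    · rw [Equiv.swap_apply_left]
      refine ⟨?_, ?_⟩
      · rintro rfl
        rw [iota_ji]
        left
        simp [w2]
      · intro hj
        rcases eq_or_ne j i with rfl | hji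
        · rw [iota_jj]
          simp [w2]
        · rw [iota_off h _ (Or.inr ⟨hj, hji⟩), Matrix.one_apply_ne hji.symm]
    rcases eq_or_ne i b with rfl | hib
    · rw [Equiv.swap_apply_right]
      refine ⟨?_, ?_⟩
      · rintro rfl
        rw [iota_ij]
        right
        simp [w2]
      · intro hj
        rcases eq_or_ne j i with rfl | hji
        · rw [iota_ii]
          simp [w2]
        · rw [iota_off h _ (Or.inr ⟨hji, hj⟩), Matrix.one_apply_ne hji.symm]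
    · rw [Equiv.swap_apply_of_ne_of_ne hia hib, iota_off h _ (Or.inl ⟨hib, hia⟩)]
      refine ⟨?_, ?_⟩
      · rintro rfl
        left
        exact Matrix.one_apply_eq _
      · intro hj
        exact Matrix.one_apply_ne hj.symm
  have h2 := mon_inv h1
  rw [Equiv.swap_inv] at h2
  refine ⟨mon_mul hw h2, ?_⟩
  intro i
  rw [Equiv.Perm.mul_apply]
  rcases eq_or_ne (σ i) a with h3 | h3
  · rw [h3, Equiv.swap_apply_left, ← hv, ← h3]
    exact hσ i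
  rcases eq_or_ne (σ i) b with h4 | h4
  · rw [h4, Equiv.swap_apply_right, hv, ← h4]
    exact hσ i
  · rw [Equiv.swap_apply_of_ne_of_ne h3 h4]
    exact hσ i

theorem p1_rel (χ : Tor p n →* Cˣ) (h : a ≠ b) (hi : σ⁻¹ a < σ⁻¹ b) {w : SLp p n}
    (hw : IsMon σ w) {φ : SLp p n → C} (hφ : ∀ b ∈ Bp p n, ∀ x, φ (b * x) = cb χ b * φ x)
    (x : ℚ_[p]ˣ) : φ (w * iota b a h (lo2 ((x⁻¹ : ℚ_[p]ˣ) : ℚ_[p]))) =
      (χ (cort (σ⁻¹ a) (σ⁻¹ b) x) : C) *
        φ (w * (iota b a h (w2 p))⁻¹ * iota b a h (up2 1 one_ne_zero (x : ℚ_[p]))) := by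
  obtain ⟨B, hBdef⟩ : ∃ B : SLp p n,
      B = w * iota b a h (up2 ((x⁻¹ : ℚ_[p]ˣ) : ℚ_[p]) (Units.ne_zero _) 1) * w⁻¹ := ⟨_, rfl⟩
  have hup : IsUpper B (cort (σ⁻¹ a) (σ⁻¹ b) x) := by
    intro i j hji
    have hent : (cort (σ⁻¹ a) (σ⁻¹ b) x : Tor p n).entry i =
        (Pi.mulSingle (σ⁻¹ a) x * Pi.mulSingle (σ⁻¹ b) x⁻¹ : Fin n → ℚ_[p]ˣ) i := rfl
    rw [hBdef, mon_conj hw]
    rcases eq_or_ne j i with rfl | hne
    · rw [if_pos rfl, TiJ_two hw, one_mul, hent, Pi.mul_apply]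
      rcases eq_or_ne (σ j) a with h1 | h1
      · have h2 : j = σ⁻¹ a := by rw [← h1, TiJ_inv_app]
        rw [h1, iota_jj, h2, Pi.mulSingle_eq_same, Pi.mulSingle_eq_of_ne hi.ne, mul_one]
        simp [up2]
      rcases eq_or_ne (σ j) b with h3 | h3
      · have h2 : j = σ⁻¹ b := by rw [← h3, TiJ_inv_app]
        rw [h3, iota_ii, h2, Pi.mulSingle_eq_same, Pi.mulSingle_eq_of_ne hi.ne', one_mul]
        simp [up2]
      · have h4 : j ≠ σ⁻¹ a := by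
          rintro rfl
          exact h1 (TiJ_app_inv _ _)
        have h5 : j ≠ σ⁻¹ b := by
          rintro rfl
          exact h3 (TiJ_app_inv _ _)
        rw [iota_off h _ (Or.inl ⟨h3, h1⟩), Pi.mulSingle_eq_of_ne h4, Pi.mulSingle_eq_of_ne h5,
          Matrix.one_apply_eq]
        simp
    · rw [if_neg hne]
      have hlt : j < i := lt_of_le_of_ne hji hne
      have hσne : σ i ≠ σ j := fun h1 => hne (σ.injective h1).symm
      have hz : (iota b a h (up2 ((x⁻¹ : ℚ_[p]ˣ) : ℚ_[p]) (Units.ne_zero _) 1)).1 (σ i) (σ j)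
          = 0 := by
        by_cases hk : σ i ≠ b ∧ σ i ≠ a
        · rw [iota_off h _ (Or.inl hk), Matrix.one_apply_ne hσne]
        by_cases hl : σ j ≠ b ∧ σ j ≠ a
        · rw [iota_off h _ (Or.inr hl), Matrix.one_apply_ne hσne]
        have hk' : σ i = b ∨ σ i = a := by
          by_contra hc
          exact hk ⟨fun h1 => hc (Or.inl h1), fun h1 => hc (Or.inr h1)⟩
        have hl' : σ j = b ∨ σ j = a := by
          by_contra hc
          exact hl ⟨fun h1 => hc (Or.inl h1), fun h1 => hc (Or.inr h1)⟩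
        rcases hk' with h1 | h1
        · rcases hl' with h2 | h2
          · exact absurd (h1.trans h2.symm) hσne
          · rw [h1, h2, iota_ij]
            simp [up2]
        · rcases hl' with h2 | h2
          · have h3 : i = σ⁻¹ a := by rw [← h1, TiJ_inv_app]
            have h4 : j = σ⁻¹ b := by rw [← h2, TiJ_inv_app]
            rw [h3, h4] at hlt
            exact absurd hlt (not_lt.2 hi.le)
          · exact absurd (h1.trans h2.symm) hσne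
      rw [hz, mul_zero]
  obtain ⟨hB, hT⟩ := isUpper_iff hup
  have hcb : cb χ B = (χ (cort (σ⁻¹ a) (σ⁻¹ b) x) : C) := by
    unfold cb
    rw [hT]
  have heq : w * iota b a h (lo2 ((x⁻¹ : ℚ_[p]ˣ) : ℚ_[p])) =
      B * (w * (iota b a h (w2 p))⁻¹ * iota b a h (up2 1 one_ne_zero (x : ℚ_[p]))) := by
    rw [TiJ_lo2, map_mul, map_mul, map_inv, hBdef]
    group
  rw [heq, hφ B hB, hcb]

theorem p1_lim {χ : Tor p n →* Cˣ} (hs : Slope χ v) {W : Set (SLp p n → C)}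
    (hW : IsClosedSubrep χ W) (h : a ≠ b) (hab : π a < π b) (hv : v a = v b) (hσ : Wt v σ)
    (hi : σ⁻¹ a < σ⁻¹ b) {w : SLp p n} (hw : IsMon σ w) {φ : SLp p n → C}
    (hφ : VV χ v π W φ) {ε : ℝ} (hε : 0 < ε) : ∃ A : ℝ, ∀ x : ℚ_[p]ˣ, A ≤ ‖(x : ℚ_[p])‖ →
      ‖(χ (cort (σ⁻¹ a) (σ⁻¹ b) x) : C) *
        φ (w * (iota b a h (w2 p))⁻¹ * iota b a h (up2 1 one_ne_zero (x : ℚ_[p]))) - φ w‖ ≤ ε := by
  obtain ⟨w₀, hw₀W, hw₀⟩ := hφ.app ε hε
  have hps := hW.isPS w₀ hw₀W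
  have hcont : Continuous w₀ := (isPS_iff.1 hps).1
  have hleft := (isPS_iff.1 hps).2
  have hc1 : Continuous fun y : ℚ_[p] => iota b a h (lo2 y) := by
    refine continuous_induced_rng.2 ?_
    show Continuous fun y : ℚ_[p] =>
      1 + iE p b a * ((lo2 y).1 - 1) * (iE p b a)ᵀ
    have hlo : Continuous fun y : ℚ_[p] => (lo2 y).1 := by
      refine continuous_matrix fun i j => ?_
      fin_cases i <;> fin_cases j <;> simp [lo2] <;> fun_prop
    fun_prop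
  have hc2 : Continuous fun y : ℚ_[p] => w₀ (w * iota b a h (lo2 y)) :=
    hcont.comp (continuous_const.mul hc1)
  have hc3 := (Metric.continuous_iff.1 hc2) 0 ε hε
  obtain ⟨δ, hδ, hδ2⟩ := hc3
  have hmon := mon_w2 h hv hσ hw
  have hwD : w ∈ DD p v π := ⟨σ, w, 1, hw, hσ, U_one _, (mul_one w).symm⟩
  refine ⟨2 / δ, fun x hx => ?_⟩
  have hx0 : 0 < ‖(x : ℚ_[p])‖ := norm_pos_iff.2 (Units.ne_zero x)
  have hy : dist ((x⁻¹ : ℚ_[p]ˣ) : ℚ_[p]) 0 < δ := by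
    rw [dist_zero_right, Units.val_inv_eq_inv_val, norm_inv]
    have h1 : 2 ≤ δ * ‖(x : ℚ_[p])‖ := by
      rw [div_le_iff₀ hδ] at hx
      linarith
    rw [inv_lt_iff_one_lt_mul₀ hx0]
    linarith
  have h1 := hδ2 _ hy
  rw [dist_eq_norm] at h1
  have h2 : w₀ (w * iota b a h (lo2 0)) = w₀ w := by
    rw [lo2_zero, map_one, mul_one]
  rw [h2, p1_rel χ h hi hw hleft x] at h1
  have hzD : w * (iota b a h (w2 p))⁻¹ * iota b a h (up2 1 one_ne_zero (x : ℚ_[p])) ∈ DD p v π :=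
    ⟨_, _, _, hmon.1, hmon.2, up_ord h hab _, rfl⟩
  obtain ⟨z, hz⟩ : ∃ z : SLp p n,
      z = w * (iota b a h (w2 p))⁻¹ * iota b a h (up2 1 one_ne_zero (x : ℚ_[p])) := ⟨_, rfl⟩
  rw [← hz] at h1 hzD ⊢
  have hnorm : ‖(χ (cort (σ⁻¹ a) (σ⁻¹ b) x) : C)‖ = 1 := by
    rw [slope_cort hs hi.ne x]
    have h3 : v (σ⁻¹ a) = v a := by
      have := hσ (σ⁻¹ a)
      rw [TiJ_app_inv] at this
      exact this.symm
    have h4 : v (σ⁻¹ b) = v b := by
      have := hσ (σ⁻¹ b)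
      rw [TiJ_app_inv] at this
      exact this.symm
    rw [h3, h4, hv, sub_self, Real.rpow_zero]
  have h5 : (χ (cort (σ⁻¹ a) (σ⁻¹ b) x) : C) * φ z - φ w =
      (χ (cort (σ⁻¹ a) (σ⁻¹ b) x) : C) * (φ z - w₀ z) +
        (((χ (cort (σ⁻¹ a) (σ⁻¹ b) x) : C) * w₀ z - w₀ w) + -(φ w - w₀ w)) := by ring
  rw [h5]
  refine (IsUltrametricDist.norm_add_le_max _ _).trans (max_le ?_
    ((IsUltrametricDist.norm_add_le_max _ _).trans (max_le h1.le ?_)))
  · rw [norm_mul, hnorm, one_mul]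
    exact hw₀ z hzD
  · rw [norm_neg]
    exact hw₀ w hwD

end Pool.Agent.Lib.MP_f399a8_nt.S
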