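import Pool.Agent.Lib.MP_f399a8_ntS.TiI2
import Pool.Agent.Lib.MP_f399a8_ntS.TiB2
import Pool.Agent.Lib.MP_f399a8_ntS.TiJ

/-!
# The top stratum is the open one

Let `φ` be `VK … σ` with `φ (w * u) = indK u` for `u ∈ U (Fst π σ)`.

PROOF of `ki`: `φ (w * (z * k)) = φ (w * z)` for `z ∈ U (Ord π)`, `k ∈ U (Ord π) ∩ Kp`: `z = a * f` (`as_fs`),
`f * k = a' * f'`, `φ (w * z) = indK f`, `φ (w * (z * k)) = φ (w * (a * a' * f')) = indK f'` (`as_left`, `U_mul`).  If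
`f ∈ Kp` then `f * k ∈ Kp`, so `f' ∈ Kp` (`as_fs`).  If `f' ∈ Kp`: `a'⁻¹ * f = f' * k⁻¹ ∈ U (Ord π) ∩ Kp` and by `as_fs` and
`as_unique` `f ∈ Kp`.
PROOF of `ti`: `φ (w * (τ⁻¹ * z * τ)) = φ (w * z)` for `IsD τ`, `τ ∈ Kp`: with `z = a * f`,
`τ⁻¹ z τ = (τ⁻¹ a τ) (τ⁻¹ f τ)` (`isD_conj`), and `τ⁻¹ f τ ∈ Kp ↔ f ∈ Kp`.
PROOF of `shift_zero`: let `g = iota b a h (up2 1 x)`, `Φ z = φ (z * g) - φ z`, `VK` (`vk_trans` with `up_ord`, `vk_smul`,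
`vk_add`).  `Φ w' = 0` by `nh2`:
(hz) there is `m1` with `g⁻¹ * u * g ∈ Kp` for `u ∈ Km m1` (`conj_small`); for `u ∈ U (Fst π σ) ∩ Km m1`:
`u * g = g * (g⁻¹ * u * g)`, `g ∈ U (Ast π σ)` (support `(a, b)`: `π a < π b`, `σ⁻¹ a < σ⁻¹ b`), so
`φ (w * (u * g)) = φ (w * (1 * (g⁻¹ * u * g)))` (`as_left`) `= φ (w * 1) = 1` (`ki`), and `φ (w * u) = indK u = 1`.
(hinv) let `m0` be such that `‖x‖ ≤ p^(m0)`, `τ` diagonal in `Km m0`, `u ∈ U (Fst π σ)`.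
`τ⁻¹ * u * τ * g = τ⁻¹ * (u * (τ * g * τ⁻¹)) * τ` and `τ * g * τ⁻¹ = iota b a h (up2 1 (α x))`, `α = τ_a / τ_b`,
`‖α - 1‖ ≤ p^(-m0)`, `= g * iota (up2 1 ((α - 1) x))` with `‖(α - 1) x‖ ≤ 1`, so by `ti` and `ki`
`φ (w * (τ⁻¹ u τ * g)) = φ (w * (u * g * k)) = φ (w * (u * g))`, and `φ (w * (τ⁻¹ u τ)) = φ (w * u)` by `ti`.
PROOF of `sd_one`: suppose `σ ≠ 1`.  `adj_exists` gives `a, b` with `π a < π b`, `v a = v b`, `i0 = σ⁻¹ a < j0 = σ⁻¹ b`.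
`SD.surj` for `indK` (continuous, `C0`, bound `1`) gives `φ`.  Let `w' = w * (ι w2)⁻¹` (`mon_w2`), `c = φ w'`.  By
`shift_zero` `φ (w' * ι (up2 1 x)) = c` for all `x`.  `φ w = indK 1 = 1`.  `p1_lim`: `χ (cort i0 j0 x) * c → 1` for
`‖x‖ → ∞`.  So `c ≠ 0`.  For fixed `x₀ : ℚ_[p]ˣ`: `χ (cort i0 j0 (x₀ x)) * c → 1` as well, and it is
`χ (cort i0 j0 x₀) * (χ (cort i0 j0 x) * c) → χ (cort i0 j0 x₀)`.  So `χ (cort i0 j0 x₀) = 1` for all `x₀`, which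
contradicts `hNT` for `i0 < j0`, `v i0 = v a = v b = v j0`.
-/

namespace Pool.Agent.Lib.MP_f399a8_nt.S

open Matrix Filter Topology

variable {p : ℕ} [Fact p.Prime] {n : ℕ} {C : Type*} [NormedField C] [NormedAlgebra ℚ_[p] C]
  [IsUltrametricDist C] [FiniteDimensional ℚ_[p] C]
  {χ : Tor p n →* Cˣ} {v : Fin n → ℝ} {π σ : Equiv.Perm (Fin n)} {W : Set (SLp p n → C)}

theorem TiK_U_fst {u : SLp p n} (hu : u ∈ U p (Fst π σ)) : u ∈ U p (Ord π) :=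
  U_mono (fun _ _ h => h.1) hu

theorem TiK_U_ast {u : SLp p n} (hu : u ∈ U p (Ast π σ)) : u ∈ U p (Ord π) :=
  U_mono (fun _ _ h => h.1) hu

omit [NormedAlgebra ℚ_[p] C] [IsUltrametricDist C] [FiniteDimensional ℚ_[p] C] in
theorem TiK_indK_eq {x y : SLp p n} (h : x ∈ Kp p n ↔ y ∈ Kp p n) :
    indK p n C x = indK p n C y := by
  classical
  unfold indK
  by_cases hx : x ∈ Kp p n
  · rw [if_pos hx, if_pos (h.1 hx)]
  · rw [if_neg hx, if_neg (fun hy => hx (h.2 hy))]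

omit [NormedAlgebra ℚ_[p] C] [IsUltrametricDist C] [FiniteDimensional ℚ_[p] C] in
theorem TiK_indK_pos {x : SLp p n} (h : x ∈ Kp p n) : indK p n C x = 1 := by
  classical
  unfold indK
  rw [if_pos h]

omit [NormedAlgebra ℚ_[p] C] [IsUltrametricDist C] [FiniteDimensional ℚ_[p] C] in
theorem TiK_indK_neg {x : SLp p n} (h : x ∉ Kp p n) : indK p n C x = 0 := by
  classical
  unfold indK
  rw [if_neg h]

theorem ki {w : SLp p n} (hw : IsMon σ w) {φ : SLp p n → C}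
    (hφ : ∀ b ∈ Bp p n, ∀ x, φ (b * x) = cb χ b * φ x)
    (h1 : ∀ u ∈ U p (Fst π σ), φ (w * u) = indK p n C u) {z k : SLp p n}
    (hz : z ∈ U p (Ord π)) (hk : k ∈ U p (Ord π)) (hkK : k ∈ Kp p n) :
    φ (w * (z * k)) = φ (w * z) := by
  obtain ⟨a, ha, f, hf, hzaf, -⟩ := as_fs π σ hz
  have hfO : f ∈ U p (Ord π) := TiK_U_fst hf
  have hfk : f * k ∈ U p (Ord π) := U_mul (so_ord π) hfO hk
  obtain ⟨a', ha', f', hf', hfk', hK'⟩ := as_fs π σ hfk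
  have h2 : φ (w * z) = indK p n C f := by
    rw [hzaf, as_left hφ hw ha f, h1 f hf]
  have h3 : φ (w * (z * k)) = indK p n C f' := by
    rw [hzaf, mul_assoc a f k, as_left hφ hw ha (f * k), hfk', as_left hφ hw ha' f', h1 f' hf']
  rw [h2, h3]
  refine TiK_indK_eq ⟨fun hf'K => ?_, fun hfK => ?_⟩
  · have hy : a'⁻¹ * f = f' * k⁻¹ := by
      have h4 : f = a' * f' * k⁻¹ := by rw [← hfk']; group
      rw [h4]; group
    have hyK : f' * k⁻¹ ∈ Kp p n := mul_mem hf'K (inv_mem hkK)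
    have hyO : f' * k⁻¹ ∈ U p (Ord π) :=
      U_mul (so_ord π) (TiK_U_fst hf') (U_inv (so_ord π) hk)
    obtain ⟨a₁, ha₁, f₁, hf₁, hy₁, hK₁⟩ := as_fs π σ hyO
    have h5 := as_unique (U_inv (so_Ast π σ) ha') ha₁ hf hf₁ (hy.trans hy₁)
    rw [h5.2]
    exact (hK₁ hyK).2
  · exact (hK' (mul_mem hfK hkK)).2

theorem ti {w : SLp p n} (hw : IsMon σ w) {φ : SLp p n → C}
    (hφ : ∀ b ∈ Bp p n, ∀ x, φ (b * x) = cb χ b * φ x)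
    (h1 : ∀ u ∈ U p (Fst π σ), φ (w * u) = indK p n C u) {z τ : SLp p n}
    (hz : z ∈ U p (Ord π)) (hτ : IsD τ) (hτK : τ ∈ Kp p n) :
    φ (w * (τ⁻¹ * z * τ)) = φ (w * z) := by
  obtain ⟨a, ha, f, hf, hzaf, -⟩ := as_fs π σ hz
  have h2 : φ (w * z) = indK p n C f := by
    rw [hzaf, as_left hφ hw ha f, h1 f hf]
  have h4 : τ⁻¹ * z * τ = (τ⁻¹ * a * τ) * (τ⁻¹ * f * τ) := by rw [hzaf]; group
  have h3 : φ (w * (τ⁻¹ * z * τ)) = indK p n C (τ⁻¹ * f * τ) := by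
    rw [h4, as_left hφ hw (isD_conj hτ ha).2, h1 _ (isD_conj hτ hf).2]
  rw [h2, h3]
  refine TiK_indK_eq ⟨fun hK => ?_, fun hK => ?_⟩
  · have h5 : f = τ * (τ⁻¹ * f * τ) * τ⁻¹ := by group
    rw [h5]
    exact mul_mem (mul_mem hτK hK) (inv_mem hτK)
  · exact mul_mem (mul_mem (inv_mem hτK) hK) hτK

theorem TiK_iota_U {R : Fin n → Fin n → Prop} {a b : Fin n} (h : a ≠ b) (hR : R a b) (x : ℚ_[p]) :
    iota b a h (up2 1 one_ne_zero x) ∈ U p R := by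
  intro i j hij
  by_cases hi : i ≠ b ∧ i ≠ a
  · exact iota_off h _ (Or.inl hi)
  by_cases hj : j ≠ b ∧ j ≠ a
  · exact iota_off h _ (Or.inr hj)
  have hi' : i = b ∨ i = a := by tauto
  have hj' : j = b ∨ j = a := by tauto
  rcases hi' with rfl | rfl
  · rcases hj' with rfl | rfl
    · rw [iota_ii, Matrix.one_apply_eq]
      rfl
    · rw [iota_ij, Matrix.one_apply_ne (Ne.symm h)]
      rfl
  · rcases hj' with rfl | rfl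
    · exact absurd hR hij
    · rw [iota_jj, Matrix.one_apply_eq]
      show (1 : ℚ_[p])⁻¹ = 1
      exact inv_one

theorem TiK_bdd (g : SLp p n) : ∃ A : ℝ, ∀ i j, ‖g.1 i j‖ ≤ A := by
  refine ⟨∑ i, ∑ j, ‖g.1 i j‖, fun i j => ?_⟩
  have h1 : ‖g.1 i j‖ ≤ ∑ j, ‖g.1 i j‖ :=
    Finset.single_le_sum (f := fun j => ‖g.1 i j‖) (fun _ _ => norm_nonneg _) (Finset.mem_univ j)
  have h2 : ∑ j, ‖g.1 i j‖ ≤ ∑ i, ∑ j, ‖g.1 i j‖ :=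
    Finset.single_le_sum (f := fun i => ∑ j, ‖g.1 i j‖)
      (fun _ _ => Finset.sum_nonneg fun _ _ => norm_nonneg _) (Finset.mem_univ i)
  exact h1.trans h2

theorem shift_zero (hχ : Continuous χ) (hs : Slope χ v) (hπ : IsSorted v π)
    (hW : IsClosedSubrep χ W) {w : SLp p n} {C1 : ℝ} (hS : SD χ v π W σ w C1) {a b : Fin n}
    (h : a ≠ b) (hab : π a < π b) (hi : σ⁻¹ a < σ⁻¹ b) {φ : SLp p n → C}
    (hφ : VK χ v π W σ φ) (h1 : ∀ u ∈ U p (Fst π σ), φ (w * u) = indK p n C u)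
    {σ' : Equiv.Perm (Fin n)} {w' : SLp p n} (hw' : IsMon σ' w') (hσ' : Wt v σ') (x : ℚ_[p]) :
    φ (w' * iota b a h (up2 1 one_ne_zero x)) = φ w' := by
  obtain ⟨g, hgdef⟩ : ∃ g : SLp p n, g = iota b a h (up2 1 one_ne_zero x) := ⟨_, rfl⟩
  rw [← hgdef]
  have hgO : g ∈ U p (Ord π) := by rw [hgdef]; exact TiK_iota_U h hab x
  have hgA : g ∈ U p (Ast π σ) := by
    rw [hgdef]
    exact TiK_iota_U (R := Ast π σ) h ⟨hab, hi⟩ x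
  have hΦ : VK χ v π W σ (fun z => φ (z * g) + (-1) * φ z) :=
    vk_add hW (vk_trans hW hgO hφ) (vk_smul hW (-1) hφ)
  obtain ⟨A, hA⟩ := TiK_bdd g
  obtain ⟨m', hm'⟩ := conj_small p n A 0
  have hleft := hφ.vv.left
  have hone : φ (w * 1) = 1 := by
    rw [h1 1 (U_one _)]
    exact TiK_indK_pos (one_mem _)
  have key := nh2 hχ hs hπ hW hS (m0 := m') (m1 := m') hΦ ?_ ?_ hw' hσ'
  · have h2 : φ (w' * g) + (-1) * φ w' = 0 := key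
    have h3 : φ (w' * g) - φ w' = 0 := by rw [← h2]; ring
    exact sub_eq_zero.1 h3
  · intro u hu hum
    show φ (w * u * g) + (-1) * φ (w * u) = 0
    have hk : g⁻¹ * u * g ∈ U p (Ord π) :=
      U_mul (so_ord π) (U_mul (so_ord π) (U_inv (so_ord π) hgO) (TiK_U_fst hu)) hgO
    have hkK : g⁻¹ * u * g ∈ Kp p n := km_le_kp (hm' g hA u hum).2
    have h3 : w * u * g = w * (g * (g⁻¹ * u * g)) := by group
    have h4 : g⁻¹ * u * g = 1 * (g⁻¹ * u * g) := (one_mul _).symm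
    rw [h3, as_left hleft hS.mon hgA, h4, ki hS.mon hleft h1 (U_one _) hk hkK, hone, h1 u hu,
      TiK_indK_pos (km_le_kp hum)]
    ring
  · intro τ hτ hτm u hu
    show φ (w * (τ⁻¹ * u * τ) * g) + (-1) * φ (w * (τ⁻¹ * u * τ)) = φ (w * u * g) + (-1) * φ (w * u)
    have hτK : τ ∈ Kp p n := km_le_kp hτm
    have hgτ : τ * g * τ⁻¹ ∈ U p (Ord π) := (isD_conj hτ hgO).1
    have hz : u * (τ * g * τ⁻¹) ∈ U p (Ord π) := U_mul (so_ord π) (TiK_U_fst hu) hgτ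
    have hk : g⁻¹ * (τ * g * τ⁻¹) ∈ U p (Ord π) :=
      U_mul (so_ord π) (U_inv (so_ord π) hgO) hgτ
    have hkK : g⁻¹ * (τ * g * τ⁻¹) ∈ Kp p n := by
      have h5 : g⁻¹ * (τ * g * τ⁻¹) = (g⁻¹ * τ * g) * τ⁻¹ := by group
      rw [h5]
      exact mul_mem (km_le_kp (hm' g hA τ hτm).2) (inv_mem hτK)
    have h3 : w * (τ⁻¹ * u * τ) * g = w * (τ⁻¹ * (u * (τ * g * τ⁻¹)) * τ) := by group
    have h4 : u * (τ * g * τ⁻¹) = (u * g) * (g⁻¹ * (τ * g * τ⁻¹)) := by group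
    rw [h3, ti hS.mon hleft h1 hz hτ hτK, h4,
      ki hS.mon hleft h1 (U_mul (so_ord π) (TiK_U_fst hu) hgO) hk hkK,
      ti hS.mon hleft h1 (TiK_U_fst hu) hτ hτK, mul_assoc w u g]

theorem sd_one (hχ : Continuous χ) (hs : Slope χ v) (hπ : IsSorted v π)
    (hW : IsClosedSubrep χ W)
    (hNT : ∀ i j : Fin n, i < j → v i = v j → ∃ x : ℚ_[p]ˣ, (χ (cort i j x) : C) ≠ 1)
    {w : SLp p n} {C1 : ℝ} (hS : SD χ v π W σ w C1) : σ = 1 := by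
  by_contra hσ1
  obtain ⟨a, b, hab1, hvab, hi⟩ := adj_exists hπ hS.wt hσ1
  have hab : π a < π b := by
    rw [Fin.lt_def]
    omega
  have h : a ≠ b := by
    rintro rfl
    exact lt_irrefl _ hab
  have hC0 : C0 (Fst π σ) (indK p n C) := by
    intro ε hε
    refine ⟨1, fun x _ hx i j => ?_⟩
    by_contra hcon
    have h2 : x ∉ Kp p n := fun hK => hcon (mem_Kp.1 hK i j)
    rw [TiK_indK_neg h2, norm_zero] at hx
    exact absurd hx (not_le.2 hε)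
  have hbd : ∀ u ∈ U p (Fst π σ), ‖indK p n C u‖ ≤ 1 := by
    intro u _
    by_cases hu : u ∈ Kp p n
    · rw [TiK_indK_pos hu, norm_one]
    · rw [TiK_indK_neg hu, norm_zero]
      exact zero_le_one
  obtain ⟨φ, hφ, h1, -⟩ := hS.surj (indK p n C) (indK_cont p n C) hC0 1 zero_le_one hbd
  obtain ⟨hw', hσ'⟩ := mon_w2 (p := p) h hvab hS.wt hS.mon
  obtain ⟨w', hw'def⟩ : ∃ w' : SLp p n, w' = w * (iota b a h (w2 p))⁻¹ := ⟨_, rfl⟩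
  rw [← hw'def] at hw'
  obtain ⟨c, hc⟩ : ∃ c : C, c = φ w' := ⟨_, rfl⟩
  have hsh : ∀ x : ℚ_[p], φ (w' * iota b a h (up2 1 one_ne_zero x)) = c := by
    intro x
    rw [hc]
    exact shift_zero hχ hs hπ hW hS h hab hi hφ h1 hw' hσ' x
  have hφw : φ w = 1 := by
    have h2 := h1 1 (U_one _)
    rw [mul_one, TiK_indK_pos (one_mem _)] at h2
    exact h2
  have hvi : v (σ⁻¹ a) = v (σ⁻¹ b) := by
    have h2 := hS.wt (σ⁻¹ a)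
    have h3 := hS.wt (σ⁻¹ b)
    have h2' : σ (σ⁻¹ a) = a := Equiv.apply_symm_apply σ a
    have h3' : σ (σ⁻¹ b) = b := Equiv.apply_symm_apply σ b
    rw [h2'] at h2
    rw [h3'] at h3
    rw [← h2, ← h3, hvab]
  obtain ⟨x₀, hx₀⟩ := hNT _ _ hi hvi
  have hδ : 0 < ‖(χ (cort (σ⁻¹ a) (σ⁻¹ b) x₀) : C) - 1‖ := norm_pos_iff.2 (sub_ne_zero.2 hx₀)
  obtain ⟨δ, hδdef⟩ : ∃ δ : ℝ, δ = ‖(χ (cort (σ⁻¹ a) (σ⁻¹ b) x₀) : C) - 1‖ := ⟨_, rfl⟩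
  rw [← hδdef] at hδ
  obtain ⟨A, hA⟩ := p1_lim hs hW h hab hvab hS.wt hi hS.mon hφ.vv (ε := δ / 3) (by positivity)
  rw [← hw'def, hφw] at hA
  have hn₀ : ‖(χ (cort (σ⁻¹ a) (σ⁻¹ b) x₀) : C)‖ = 1 := by
    rw [slope_cort hs hi.ne x₀, hvi, sub_self, Real.rpow_zero]
  have hx₀n : 0 < ‖(x₀ : ℚ_[p])‖ := norm_pos_iff.2 x₀.ne_zero
  obtain ⟨y, hy⟩ := NormedField.exists_lt_norm ℚ_[p] (max (max 0 A) (A / ‖(x₀ : ℚ_[p])‖))
  have hy0 : y ≠ 0 := by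
    intro h0
    rw [h0, norm_zero] at hy
    exact absurd ((le_max_left 0 A).trans (le_max_left _ _)) (not_le.2 hy)
  have hyA : A ≤ ‖((Units.mk0 y hy0 : ℚ_[p]ˣ) : ℚ_[p])‖ :=
    ((le_max_right 0 A).trans (le_max_left _ _)).trans hy.le
  have hyA' : A ≤ ‖((x₀ * Units.mk0 y hy0 : ℚ_[p]ˣ) : ℚ_[p])‖ := by
    rw [Units.val_mul, norm_mul]
    have h2 : A / ‖(x₀ : ℚ_[p])‖ ≤ ‖y‖ := (le_max_right _ _).trans hy.le
    rw [div_le_iff₀ hx₀n] at h2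
    rw [mul_comm]
    exact h2
  have h2 := hA _ hyA
  have h3 := hA _ hyA'
  rw [hsh] at h2 h3
  have h4 : cort (σ⁻¹ a) (σ⁻¹ b) (x₀ * Units.mk0 y hy0) =
      cort (σ⁻¹ a) (σ⁻¹ b) x₀ * cort (σ⁻¹ a) (σ⁻¹ b) (Units.mk0 y hy0) := coroot_mul _ _ _ _
  rw [h4, map_mul, Units.val_mul] at h3
  obtain ⟨X, hX⟩ : ∃ X : C, X = (χ (cort (σ⁻¹ a) (σ⁻¹ b) x₀) : C) := ⟨_, rfl⟩
  obtain ⟨Y, hY⟩ : ∃ Y : C, Y = (χ (cort (σ⁻¹ a) (σ⁻¹ b) (Units.mk0 y hy0)) : C) := ⟨_, rfl⟩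
  rw [← hX] at h3 hn₀ hδdef
  rw [← hY] at h2 h3
  have h5 : X - 1 = (X * Y * c - 1) - X * (Y * c - 1) := by ring
  have h6 : δ ≤ δ / 3 + δ / 3 := by
    calc δ = ‖(X * Y * c - 1) - X * (Y * c - 1)‖ := by rw [hδdef, h5]
      _ ≤ ‖X * Y * c - 1‖ + ‖X * (Y * c - 1)‖ := norm_sub_le _ _
      _ = ‖X * Y * c - 1‖ + ‖Y * c - 1‖ := by rw [norm_mul, hn₀, one_mul]
      _ ≤ δ / 3 + δ / 3 := add_le_add h3 h2
  linarith

end Pool.Agent.Lib.MP_f399a8_nt.S
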