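import Pool.Agent.Lib.MP_f399a8_ntS.TiK
import Pool.Agent.Lib.MP_f399a8_ntS.TiG2
import Pool.Agent.Lib.MP_f399a8_ntS.MnA
import Pool.Agent.Lib.MP_f399a8_ntS.MnB

/-!
# Step 1 in general and the main theorem

PROOF of `step1_gen`.  `sd_exists`, `sd_one`: `SD χ v π W 1 w C1`; `w` is a signed permutation matrix for `1`, i.e. diagonal
with entries `± 1`.  `G = Gf χ π indK`, `Good v π` (`good_sorted`).  `Fst π 1 = Dr π`.  By `SD.surj` there is `φ` in `VK … 1` with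
`φ (w * u) = cb χ w * indK u`-type values: take `ψ = fun x => cb χ w * indK x` (continuous, `C0`, bounded by
`‖cb χ w‖ = 1`), so that `φ (w * u) = cb χ w * indK u = G (w * u)` for `u ∈ U (Dr π)` (`gf_left`, `gf_eq`).
Claim: `φ x = G x` for all `x ∈ DD`.  `x = w₁ * u`, `w₁` for `τ`, `u ∈ U (Ord π)`.  If `τ ≠ 1` then `HS π 1 < HS π τ`
(`hs_one`), so `key π 1 < key π τ` and `φ x = 0`; and `G x = 0`: otherwise `w₁ * u = b * f * d` (`gf_ne`), i.e.
`1 * w₁ * u = b * (f * d) * 1`, and `bruhat_ineq` with `w' = 1` (`IsMon 1 1`) and `hs_eq` give `HS π τ < HS π 1` or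
`τ = 1`, a contradiction.  If `τ = 1`: `w₁ = δ * w` (`mon_two`), `u = e * d` (`lu_er`), both functions are left
`Bp`-equivariant: `φ (δ * w * e * d) = cb χ δ * cb (w e w⁻¹) * φ (w * d)` and the same for `G`.
So for `ε > 0` there is `w₀ ∈ W` with `‖G x - w₀ x‖ ≤ ε` on `DD` (`VV.app`).  As in `step1_inj` (b): `F = G - w₀` is in the
principal series, `star` gives `‖F ((t^M)⁻¹ * k * t^M)‖ ≤ ε + ε`, and `exact_box` (`e = e0 v`: for `Dr π i j`,
`π i < π j`, so `v i ≤ v j` and `e0 v j ≤ e0 v i`).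
PROOF of `main_gen`: as `main_inj` with `step1_gen`.
PROOF of `schneider_gen`: suppose `χ` is reducible: `W` with `f ∉ W`.  `slope_exists` gives `v`.  If `NoLin χ` fails use `schneider_of_noLin` (file MnB).  If `hNT` fails there are `i < j` with `χ (cort i j x) = 1` for all `x`: `SchneiderCond` for `(i, j)` with
`a = 1 - (j - i)`: `halfSum (cort i j x) = x ^ (j - i)`.  Otherwise `main_gen` says `f ∈ W`.  (See the end of the
proof of `rep_main` in `RepFin.lean` for the computation.)  `IsUltrametricDist C` is `SLFin_ultra p C`.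
-/

namespace Pool.Agent.Lib.MP_f399a8_nt.S

open Matrix Filter Topology

variable {p : ℕ} [Fact p.Prime] {n : ℕ} {C : Type*} [NormedField C] [NormedAlgebra ℚ_[p] C]
  [FiniteDimensional ℚ_[p] C] {χ : Tor p n →* Cˣ} {v : Fin n → ℝ} {π : Equiv.Perm (Fin n)}
  {W : Set (SLp p n → C)}

omit [NormedAlgebra ℚ_[p] C] [FiniteDimensional ℚ_[p] C] in
theorem TiM_left (hW : IsClosedSubrep χ W) {b : SLp p n} (hb : b ∈ Bp p n) (g : SLp p n)
    {f : SLp p n → C} (hf : f ∈ W) : (fun x => f (b * x * g)) ∈ W := by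
  have h1 := (isPS_iff.1 (hW.isPS f hf)).2
  have h2 : (fun x => f (b * x * g)) = fun x => cb χ b * f (x * g) := by
    funext x
    rw [mul_assoc, h1 b hb]
  rw [h2]
  exact hW.smul _ _ (hW.trans g f hf)

theorem TiM_mon_one {w : SLp p n} (hw : IsMon 1 w) : w ∈ Bp p n := by
  rw [mem_Bp]
  intro i j hij
  exact (hw i j).2 (by rw [Equiv.Perm.one_apply]; exact hij.ne)

omit [NormedAlgebra ℚ_[p] C] [FiniteDimensional ℚ_[p] C] in
theorem TiM_gf {d : SLp p n} (hd : d ∈ U p (Dr π)) :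
    Gf χ π (indK p n C) d = indK p n C d := by
  have h2 := gf_eq (χ := χ) (indK p n C) (Bp p n).one_mem (U_one (Fr π)) hd
  rw [one_mul, one_mul, cb_unip χ (fun i => Matrix.one_apply_eq i), one_mul] at h2
  exact h2

omit [NormedAlgebra ℚ_[p] C] [FiniteDimensional ℚ_[p] C] in
theorem TiM_one {φ : SLp p n → C} (hφ : ∀ b ∈ Bp p n, ∀ x, φ (b * x) = cb χ b * φ x)
    (h1 : ∀ d ∈ U p (Dr π), φ d = indK p n C d) {w u : SLp p n} (hw : IsMon 1 w)
    (hu : u ∈ U p (Ord π)) : φ (w * u) = Gf χ π (indK p n C) (w * u) := by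
  obtain ⟨e, he, d, hd, rfl, -⟩ := lu_er π hu
  have heB : e ∈ Bp p n := U_Bp (fun i j h => h.1) he
  have hwB := TiM_mon_one hw
  rw [hφ w hwB, hφ e heB, h1 d hd, gf_left _ hwB, gf_left _ heB, TiM_gf hd]

omit [NormedAlgebra ℚ_[p] C] [FiniteDimensional ℚ_[p] C] in
theorem TiM_zero (hπ : IsSorted v π) {τ : Equiv.Perm (Fin n)} (hτ : Wt v τ) (hτ1 : τ ≠ 1)
    {w u : SLp p n} (hw : IsMon τ w) (hu : u ∈ U p (Ord π)) :
    Gf χ π (indK p n C) (w * u) = 0 := by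
  by_contra hne
  obtain ⟨b, hb, f, hf, d, hd, hx, -, -⟩ := gf_ne hne
  have hn' : f * d ∈ U p (Lo : Fin n → Fin n → Prop) :=
    U_mul so_Lo (U_mono (fun i j h => h.1) hf) (U_mono (fun i j h => h.1) hd)
  have hone : IsMon (1 : Equiv.Perm (Fin n)) (1 : SLp p n) := by
    intro i j
    refine ⟨fun h => Or.inl ?_, fun h => ?_⟩
    · rw [h, Equiv.Perm.one_apply]
      exact Matrix.one_apply_eq i
    · exact Matrix.one_apply_ne (fun h' => h (by rw [Equiv.Perm.one_apply]; exact h'.symm))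
  have h1 : 1 * w * u = b * (f * d) * 1 := by
    rw [one_mul, mul_one, hx, mul_assoc]
  have h2 := hs_eq (bruhat_ineq hw hone (Bp p n).one_mem hb hu hn' h1)
  rcases h2 with h2 | h2
  · rcases hs_one hπ hτ with h3 | h3
    · exact absurd h2 (not_lt.2 h3.le)
    · exact hτ1 h3
  · exact hτ1 h2

theorem step1_gen [IsUltrametricDist C] (hχ : Continuous χ) (hs : Slope χ v)
    (hπ : IsSorted v π) (hW : IsClosedSubrep χ W) (hne : ∃ f ∈ W, ∃ x, f x ≠ 0)
    (hNT : ∀ i j : Fin n, i < j → v i = v j → ∃ x : ℚ_[p]ˣ, (χ (cort i j x) : C) ≠ 1) :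
    Gf χ π (indK p n C) ∈ W := by
  obtain ⟨σ, w, C1, hS⟩ := sd_exists hs hπ hW hne
  have hσ : σ = 1 := sd_one hχ hs hπ hW hNT hS
  subst hσ
  have hwB : w ∈ Bp p n := TiM_mon_one hS.mon
  have hDF : ∀ i j, Dr π i j → Fst π 1 i j := fun i j h => ⟨h.2, h.1⟩
  have hFD : ∀ i j, Fst π 1 i j → Dr π i j := fun i j h => ⟨h.2, h.1⟩
  have hC0 : C0 (Fst π 1) (fun x => cb χ w * indK p n C x) := by
    intro ε hε
    refine ⟨1, fun x _ hx i j => ?_⟩
    by_contra hcon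
    have h2 : x ∉ Kp p n := fun hK => hcon (mem_Kp.1 hK i j)
    have hx' : ε ≤ ‖cb χ w * indK p n C x‖ := hx
    rw [TiK_indK_neg h2, mul_zero, norm_zero] at hx'
    exact absurd hx' (not_le.2 hε)
  have hbd : ∀ u ∈ U p (Fst π 1), ‖cb χ w * indK p n C u‖ ≤ ‖cb χ w‖ := by
    intro u _
    by_cases hu : u ∈ Kp p n
    · rw [TiK_indK_pos hu, mul_one]
    · rw [TiK_indK_neg hu, mul_zero, norm_zero]
      exact norm_nonneg _
  obtain ⟨φ, hφ, h1, -⟩ := hS.surj (fun x => cb χ w * indK p n C x)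
    (continuous_const.mul (indK_cont p n C)) hC0 ‖cb χ w‖ (norm_nonneg _) hbd
  have h2 : ∀ d ∈ U p (Dr π), φ d = indK p n C d := by
    intro d hd
    have h3 := h1 d (U_mono hDF hd)
    rw [hφ.vv.left w hwB d] at h3
    exact mul_left_cancel₀ (cb_ne_zero χ w) h3
  have h3 : ∀ x ∈ DD p v π, φ x = Gf χ π (indK p n C) x := by
    rintro x ⟨τ, w₁, u, hw₁, hτ, hu, rfl⟩
    by_cases hτ1 : τ = 1
    · subst hτ1
      exact TiM_one hφ.vv.left h2 hw₁ hu
    · rw [TiM_zero hπ hτ hτ1 hw₁ hu]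
      refine hφ.zero τ w₁ hw₁ hτ (key_lt ?_) u hu
      rcases hs_one hπ hτ with h4 | h4
      · exact h4
      · exact absurd h4 hτ1
  have hg : Good v π := good_sorted hπ
  obtain ⟨t, ht⟩ := dg_exists (p := p) (e0 v) (e0_sum v)
  refine exact_box hχ hs hg hW ht (fun i j h => ?_) fun ε hε => ?_
  · rcases (hπ i j).1 h.2 with h4 | h4
    · exact (e0_lt h4).le
    · exact (e0_eq h4.1).ge
  obtain ⟨w₀, hw₀, hwε⟩ := hφ.vv.app (ε / 2) (half_pos hε)
  have hGps : IsPS χ (Gf χ π (indK p n C)) :=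
    gf_ps hχ hs hg (indK_cont p n C) (fun d _ hd => TiK_indK_neg hd)
  have hwps := hW.isPS w₀ hw₀
  have hFps : IsPS χ (fun x => Gf χ π (indK p n C) x - w₀ x) := by
    rw [isPS_iff]
    refine ⟨hGps.1.sub hwps.1, fun b hb g => ?_⟩
    rw [(isPS_iff.1 hGps).2 b hb, (isPS_iff.1 hwps).2 b hb, mul_sub]
  obtain ⟨M, hM⟩ := star hs hπ ht hFps (half_pos hε).le
    (fun σ w₁ hw₁ hσ u hu => by
      have hx : w₁ * u ∈ DD p v π := ⟨σ, w₁, u, hw₁, hσ, hu, rfl⟩
      have h5 := hwε _ hx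
      rwa [h3 _ hx] at h5) (half_pos hε)
  refine ⟨M, fun k => w₀ ((t ^ M)⁻¹ * k * t ^ M),
    TiM_left hW (dg_Bt (dg_inv (dg_pow ht M)) id) _ hw₀, ?_⟩
  intro k hk
  have h6 := hM M le_rfl k hk
  rwa [add_halves] at h6

theorem main_gen [IsUltrametricDist C] (hχ : Continuous χ) (hs : Slope χ v) (hη : NoLin χ)
    (hNT : ∀ i j : Fin n, i < j → v i = v j → ∃ x : ℚ_[p]ˣ, (χ (cort i j x) : C) ≠ 1)
    (hW : IsClosedSubrep χ W) (hne : ∃ f ∈ W, ∃ x, f x ≠ 0) {f : SLp p n → C}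
    (hf : IsPS χ f) : f ∈ W := by
  obtain ⟨π, hπ⟩ := sorted_exists v
  exact swaps hχ hs hη hW (good_sorted hπ) (step1_gen hχ hs hπ hW hne hNT) hf

theorem schneider_gen (hχ : Continuous χ) (hred : IsReducible χ) : SchneiderCond χ := by
  by_cases hη : NoLin χ
  · have := SLFin_ultra p C
    obtain ⟨W, hW, hne, f, hf, hfW⟩ := hred
    obtain ⟨v, hs⟩ := slope_exists hχ
    by_cases hNT : ∀ i j : Fin n, i < j → v i = v j →
        ∃ x : ℚ_[p]ˣ, (χ (cort i j x) : C) ≠ 1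
    · exact absurd (main_gen hχ hs hη hNT hW hne hf) hfW
    · push Not at hNT
      obtain ⟨i, j, hij, -, h⟩ := hNT
      have hij' : (i : ℕ) < (j : ℕ) := hij
      refine ⟨i, j, hij, 1 - ((j : ℤ) - (i : ℤ)), by omega, fun x => ?_⟩
      have hx : algebraMap ℚ_[p] C (x : ℚ_[p]) ≠ 0 :=
        (map_ne_zero (algebraMap ℚ_[p] C)).2 x.ne_zero
      rw [h x, one_mul, RepFin_halfSum hij x, Units.val_zpow_eq_zpow_val, map_zpow₀,
        ← _root_.zpow_neg, ← _root_.zpow_neg_one, ← zpow_add₀ hx]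
      congr 1
      ring
  · exact schneider_of_noLin hη

end Pool.Agent.Lib.MP_f399a8_nt.S
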