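import Pool.Agent.Lib.MP_f399a8_ntS.LUb
import Pool.Agent.Lib.MP_f399a8_nt.RepFin

/-!
# Topology of `SL_n(ℚ_p)`

PROOF.
* `kp_compact`: `RepFin_compact` (file `Pool.Agent.Lib.MP_f399a8_nt.RepFin`) says that
  `{x | IsIntegral x}` is compact; `bdd_compact` is proved in the same way (copy that proof with the
  radius `A` instead of `1`).
* `km_open`, `kp_open`: preimages of open sets: `{a : ℚ_[p] | ‖a - c‖ ≤ r}` is open for `r > 0`
  (`IsUltrametricDist.isOpen_closedBall`), the entries are continuous functions, finite intersection.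
* `km_nhds`: the topology of `SLp p n` is induced from matrices, i.e. a product topology; the balls
  `{‖a - c‖ ≤ p ^ (-m)}` form a basis of neighbourhoods in each coordinate; take the maximum of
  finitely many `m`.
* `km_conj`: `k * x * k⁻¹ - 1 = k * (x - 1) * k⁻¹` as matrices and `mulmat_norm_le` twice.
* `Bp`, `Bt`, `U` are defined by closed conditions on the entries.
-/

namespace Pool.Agent.Lib.MP_f399a8_nt.S

open Matrix Filter Topology

variable {p : ℕ} [Fact p.Prime] {n : ℕ}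

theorem continuous_entry (i j : Fin n) : Continuous fun x : SLp p n => x.1 i j :=
  (continuous_subtype_val : Continuous fun x : SLp p n => x.1).matrix_elem i j

theorem kp_compact (p n : ℕ) [Fact p.Prime] : IsCompact (Kp p n : Set (SLp p n)) :=
  RepFin_compact p n

theorem bdd_compact (p n : ℕ) [Fact p.Prime] (A : ℝ) :
    IsCompact {x : SLp p n | ∀ i j, ‖x.1 i j‖ ≤ A} := by
  have h1 : IsClosed {A : Matrix (Fin n) (Fin n) ℚ_[p] | A.det = 1} :=
    isClosed_eq (Continuous.matrix_det continuous_id) continuous_const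
  have h2 : Topology.IsClosedEmbedding (Subtype.val : SLp p n → Matrix (Fin n) (Fin n) ℚ_[p]) :=
    h1.isClosedEmbedding_subtypeVal
  have h3 : IsCompact {B : Matrix (Fin n) (Fin n) ℚ_[p] | ∀ i j, ‖B i j‖ ≤ A} := by
    have h4 : {B : Matrix (Fin n) (Fin n) ℚ_[p] | ∀ i j, ‖B i j‖ ≤ A} =
        Set.pi Set.univ (fun _ : Fin n => Set.pi Set.univ
          (fun _ : Fin n => Metric.closedBall (0 : ℚ_[p]) A)) := by
      ext B
      show (∀ i j, ‖B i j‖ ≤ A) ↔ _
      constructor
      · intro h i _ j _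
        exact mem_closedBall_zero_iff.2 (h i j)
      · intro h i j
        exact mem_closedBall_zero_iff.1 (h i (Set.mem_univ _) j (Set.mem_univ _))
    rw [h4]
    exact isCompact_univ_pi fun _ => isCompact_univ_pi fun _ => isCompact_closedBall _ _
  exact h2.isCompact_preimage h3

theorem TopA_open (c : Fin n → Fin n → ℚ_[p]) {r : ℝ} (hr : r ≠ 0) :
    IsOpen {x : SLp p n | ∀ i j, ‖x.1 i j - c i j‖ ≤ r} := by
  have h : {x : SLp p n | ∀ i j, ‖x.1 i j - c i j‖ ≤ r} =
      ⋂ i, ⋂ j, (fun x : SLp p n => x.1 i j) ⁻¹' (Metric.closedBall (c i j) r) := by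
    ext x
    simp only [Set.mem_iInter, Set.mem_preimage, Metric.mem_closedBall, dist_eq_norm]
    exact Iff.rfl
  rw [h]
  refine isOpen_iInter_of_finite fun i => isOpen_iInter_of_finite fun j => ?_
  exact (IsUltrametricDist.isOpen_closedBall _ hr).preimage (continuous_entry i j)

theorem kp_open (p n : ℕ) [Fact p.Prime] : IsOpen (Kp p n : Set (SLp p n)) := by
  have h := TopA_open (p := p) (n := n) (fun _ _ => 0) (r := 1) one_ne_zero
  simp only [sub_zero] at h
  exact h

theorem TopA_pos (p : ℕ) [Fact p.Prime] (m : ℕ) : (0 : ℝ) < (p : ℝ) ^ (-(m : ℤ)) := by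
  have hp : (0 : ℝ) < p := by exact_mod_cast (Fact.out : p.Prime).pos
  exact zpow_pos hp _

theorem TopA_le_one (p : ℕ) [Fact p.Prime] (m : ℕ) : (p : ℝ) ^ (-(m : ℤ)) ≤ 1 := by
  refine zpow_le_one_of_nonpos₀ ?_ (by simp)
  exact_mod_cast (Fact.out : p.Prime).one_lt.le

theorem km_open (p n m : ℕ) [Fact p.Prime] : IsOpen (Km p n m : Set (SLp p n)) :=
  TopA_open (p := p) (n := n) (fun i j => (1 : Matrix (Fin n) (Fin n) ℚ_[p]) i j)
    (TopA_pos p m).ne'

theorem km_le_kp {m : ℕ} {x : SLp p n} (hx : x ∈ Km p n m) : x ∈ Kp p n := by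
  intro i j
  have h := IsUltrametricDist.norm_add_le_max (x.1 i j - (1 : Matrix (Fin n) (Fin n) ℚ_[p]) i j)
    ((1 : Matrix (Fin n) (Fin n) ℚ_[p]) i j)
  rw [sub_add_cancel] at h
  exact h.trans (max_le ((hx i j).trans (TopA_le_one p m)) (one_norm_le i j))

theorem km_anti {m m' : ℕ} (h : m ≤ m') {x : SLp p n} (hx : x ∈ Km p n m') : x ∈ Km p n m := by
  intro i j
  refine (hx i j).trans ?_
  have hp : (1 : ℝ) ≤ p := by exact_mod_cast (Fact.out : p.Prime).one_lt.le
  exact zpow_le_zpow_right₀ hp (by omega)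

theorem TopA_conj {m : ℕ} {k k' x : SLp p n} (hk : k ∈ Kp p n) (hk' : k' ∈ Kp p n)
    (h1 : k * k' = 1) (hx : x ∈ Km p n m) : k * x * k' ∈ Km p n m := by
  intro i j
  have e : (k * x * k').1 - (1 : Matrix (Fin n) (Fin n) ℚ_[p]) =
      k.1 * (x.1 - 1) * k'.1 := by
    have h2 : k.1 * k'.1 = 1 := by
      rw [← Matrix.SpecialLinearGroup.coe_mul, h1, Matrix.SpecialLinearGroup.coe_one]
    rw [Matrix.SpecialLinearGroup.coe_mul, Matrix.SpecialLinearGroup.coe_mul, mul_sub, sub_mul,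
      mul_one, h2]
  have h3 := mulmat_norm_le (k.1 * (x.1 - 1)) k'.1 (a := 1 * (p : ℝ) ^ (-(m : ℤ))) (b := 1)
    (mul_nonneg zero_le_one (TopA_pos p m).le) zero_le_one
    (mulmat_norm_le k.1 (x.1 - 1) zero_le_one (TopA_pos p m).le hk (fun i j => hx i j)) hk' i j
  rw [← e, mul_one, one_mul] at h3
  exact h3

theorem km_conj {m : ℕ} {k x : SLp p n} (hk : k ∈ Kp p n) (hx : x ∈ Km p n m) :
    k * x * k⁻¹ ∈ Km p n m ∧ k⁻¹ * x * k ∈ Km p n m :=
  ⟨TopA_conj hk ((Kp p n).inv_mem hk) (mul_inv_cancel k) hx,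
    TopA_conj ((Kp p n).inv_mem hk) hk (inv_mul_cancel k) hx⟩

theorem km_nhds {s : Set (SLp p n)} (hs : s ∈ 𝓝 (1 : SLp p n)) :
    ∃ m : ℕ, ∀ x ∈ Km p n m, x ∈ s := by
  by_contra h
  push Not at h
  choose x hx hxs using h
  have ht : Tendsto x atTop (𝓝 (1 : SLp p n)) := by
    refine tendsto_subtype_rng.2 ?_
    refine tendsto_pi_nhds.2 fun i => tendsto_pi_nhds.2 fun j => ?_
    rw [tendsto_iff_norm_sub_tendsto_zero]
    have hp : (1 : ℝ) < p := by exact_mod_cast (Fact.out : p.Prime).one_lt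
    have h0 : Tendsto (fun m : ℕ => (p : ℝ) ^ (-(m : ℤ))) atTop (𝓝 0) := by
      have h1 := tendsto_pow_atTop_nhds_zero_of_lt_one (inv_nonneg.2 (zero_le_one.trans hp.le))
        (inv_lt_one_of_one_lt₀ hp)
      refine h1.congr fun m => ?_
      rw [_root_.zpow_neg, zpow_natCast, inv_pow]
    exact squeeze_zero (fun _ => norm_nonneg _) (fun m => hx m i j) h0
  obtain ⟨m, hm⟩ := (ht.eventually hs).exists
  exact hxs m hm

/-- the translates `g * Km m` are neighbourhoods of `g` -/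
theorem km_nhds_mul (g : SLp p n) (m : ℕ) : ∀ᶠ x in 𝓝 g, g⁻¹ * x ∈ Km p n m := by
  have h1 : Tendsto (fun x : SLp p n => g⁻¹ * x) (𝓝 g) (𝓝 (g⁻¹ * g)) :=
    (continuous_const.mul continuous_id).tendsto g
  rw [inv_mul_cancel] at h1
  exact h1.eventually ((km_open p n m).mem_nhds (Km p n m).one_mem)

theorem bt_closed {α : Type*} [LinearOrder α] (b : Fin n → α) :
    IsClosed (Bt p b : Set (SLp p n)) := by
  have h : (Bt p b : Set (SLp p n)) =
      ⋂ i, ⋂ j, ⋂ _ : b j < b i, {x : SLp p n | x.1 i j = 0} := by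
    ext x
    simp only [Set.mem_iInter]
    exact Iff.rfl
  rw [h]
  exact isClosed_iInter fun i => isClosed_iInter fun j => isClosed_iInter fun _ =>
    isClosed_eq (continuous_entry i j) continuous_const

theorem u_closed (R : Fin n → Fin n → Prop) : IsClosed (U p R : Set (SLp p n)) := by
  have h : (U p R : Set (SLp p n)) =
      ⋂ i, ⋂ j, ⋂ _ : ¬ R i j, {x : SLp p n | x.1 i j = (1 : Matrix (Fin n) (Fin n) ℚ_[p]) i j} := by
    ext x
    simp only [Set.mem_iInter]
    exact Iff.rfl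
  rw [h]
  exact isClosed_iInter fun i => isClosed_iInter fun j => isClosed_iInter fun _ =>
    isClosed_eq (continuous_entry i j) continuous_const

end Pool.Agent.Lib.MP_f399a8_nt.S
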