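import Pool.Agent.Lib.MP_f399a8_ntS.TopA

/-!
# Uniformity and finiteness

PROOF.
* `unif`: suppose not; for every `m` there are `x_m ∈ X`, `h_m ∈ Km m` with
  `ε < ‖f (x_m * h_m) - f x_m‖`.  By compactness of `X` (`IsCompact.tendsto_subseq`, the space is
  metrizable/first countable, `SLp` is a subtype of matrices over `ℚ_[p]`) a subsequence `x_m → x`, `h_m → 1`
  (`km_nhds`, `km_anti`), so both values tend to `f x`.  Contradiction.  (Or use
  compactness with open covers, or the continuity of `(x, h) ↦ f (x * h) - f x` on `X × SLp` and the tube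
  lemma `generalized_tube_lemma`: the open set `{(x, h) | ‖f (x * h) - f x‖ < ε}` contains `X ×ˢ {1}`.)
* `conj_small`: the same tube argument for `X = {g | ∀ i j, ‖g i j‖ ≤ A}` (compact, `bdd_compact`), and the
  open set `{(g, x) | g * x * g⁻¹ ∈ Km m}` (preimage of the open set `Km m` under a continuous map),
  which contains `X ×ˢ {1}`; then `km_nhds`.  The second part: replace `g` by `g⁻¹`.
* `fin_reps`: `Km m` is open and `Kp` is compact: the open sets `{x | x * s⁻¹ ∈ Km m}`, `s ∈ Kp`, cover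
  `Kp`.
* `coset_reps`: `x ~ y :↔ x * y⁻¹ ∈ H` is an equivalence relation on `L`, with finitely many classes:
  if `x, y ∈ L` have the same `s` in `fin_reps` then `x * y⁻¹ = (x * s⁻¹) * (y * s⁻¹)⁻¹ ∈ Km m ∩ L ⊆ H`.
  Take one representative of each class.
-/

namespace Pool.Agent.Lib.MP_f399a8_nt.S

open Matrix Filter Topology

variable {p : ℕ} [Fact p.Prime] {n : ℕ} {C : Type*} [NormedField C]

/-- tube lemma for the neighbourhoods `Km m` of `1` -/
theorem TopB_tube {X : Set (SLp p n)} (hX : IsCompact X) {O : Set (SLp p n × SLp p n)} (hO : IsOpen O)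
    (h : ∀ x ∈ X, (x, (1 : SLp p n)) ∈ O) : ∃ m : ℕ, ∀ x ∈ X, ∀ y ∈ Km p n m, (x, y) ∈ O := by
  have hsub : X ×ˢ ({1} : Set (SLp p n)) ⊆ O := by
    rintro ⟨x, y⟩ ⟨hx, hy⟩
    have hy' : y = 1 := hy
    subst hy'
    exact h x hx
  obtain ⟨u, v, _, hv, hXu, h1v, huv⟩ := generalized_tube_lemma hX isCompact_singleton hO hsub
  obtain ⟨m, hm⟩ := km_nhds (hv.mem_nhds (h1v rfl))
  exact ⟨m, fun x hx y hy => huv ⟨hXu hx, hm y hy⟩⟩

theorem unif {f : SLp p n → C} (hf : Continuous f) {X : Set (SLp p n)} (hX : IsCompact X) {ε : ℝ}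
    (hε : 0 < ε) : ∃ m : ℕ, ∀ x ∈ X, ∀ h ∈ Km p n m, ‖f (x * h) - f x‖ ≤ ε := by
  have hc : Continuous fun z : SLp p n × SLp p n => ‖f (z.1 * z.2) - f z.1‖ :=
    ((hf.comp (continuous_fst.mul continuous_snd)).sub (hf.comp continuous_fst)).norm
  have hO : IsOpen {z : SLp p n × SLp p n | ‖f (z.1 * z.2) - f z.1‖ < ε} :=
    isOpen_lt hc continuous_const
  obtain ⟨m, hm⟩ := TopB_tube hX hO (fun x _ => by
    show ‖f (x * 1) - f x‖ < ε
    rw [mul_one, sub_self, norm_zero]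
    exact hε)
  exact ⟨m, fun x hx h hh => (show ‖f (x * h) - f x‖ < ε from hm x hx h hh).le⟩

theorem TopB_conj (p n : ℕ) [Fact p.Prime] {X : Set (SLp p n)} (hX : IsCompact X) (m : ℕ) :
    ∃ m' : ℕ, ∀ g ∈ X, ∀ x ∈ Km p n m', g * x * g⁻¹ ∈ Km p n m := by
  have hc : Continuous fun z : SLp p n × SLp p n => z.1 * z.2 * z.1⁻¹ :=
    (continuous_fst.mul continuous_snd).mul continuous_fst.inv
  have hO : IsOpen ((fun z : SLp p n × SLp p n => z.1 * z.2 * z.1⁻¹) ⁻¹' (Km p n m : Set (SLp p n))) :=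
    (km_open p n m).preimage hc
  obtain ⟨m', hm'⟩ := TopB_tube hX hO (fun x _ => by
    show x * 1 * x⁻¹ ∈ Km p n m
    rw [mul_one, mul_inv_cancel]
    exact (Km p n m).one_mem)
  exact ⟨m', fun g hg x hx => hm' g hg x hx⟩

theorem conj_small (p n : ℕ) [Fact p.Prime] (A : ℝ) (m : ℕ) :
    ∃ m' : ℕ, ∀ g : SLp p n, (∀ i j, ‖g.1 i j‖ ≤ A) → ∀ x ∈ Km p n m',
      g * x * g⁻¹ ∈ Km p n m ∧ g⁻¹ * x * g ∈ Km p n m := by
  obtain ⟨m₁, h₁⟩ := TopB_conj p n (bdd_compact p n A) m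
  obtain ⟨m₂, h₂⟩ := TopB_conj p n ((bdd_compact p n A).image continuous_inv) m
  refine ⟨max m₁ m₂, fun g hg x hx => ⟨?_, ?_⟩⟩
  · exact h₁ g hg x (km_anti (le_max_left _ _) hx)
  · have h := h₂ g⁻¹ (Set.mem_image_of_mem _ hg) x (km_anti (le_max_right _ _) hx)
    rwa [inv_inv] at h

theorem fin_reps (p n : ℕ) [Fact p.Prime] (m : ℕ) :
    ∃ S : Finset (SLp p n), (∀ s ∈ S, s ∈ Kp p n) ∧ ∀ k ∈ Kp p n, ∃ s ∈ S, k * s⁻¹ ∈ Km p n m := by
  obtain ⟨t, ht, hcov⟩ := (kp_compact p n).elim_nhds_subcover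
    (fun s : SLp p n => (fun x : SLp p n => x * s⁻¹) ⁻¹' (Km p n m : Set (SLp p n))) (by
      intro s _
      have hc : Continuous fun x : SLp p n => x * s⁻¹ := continuous_id.mul continuous_const
      refine ((km_open p n m).preimage hc).mem_nhds ?_
      show s * s⁻¹ ∈ Km p n m
      rw [mul_inv_cancel]
      exact (Km p n m).one_mem)
  refine ⟨t, ht, fun k hk => ?_⟩
  have h := hcov hk
  rw [Set.mem_iUnion₂] at h
  obtain ⟨s, hs, hks⟩ := h
  exact ⟨s, hs, hks⟩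

/-- coset representatives of a subgroup `H` of `L` containing `L ∩ Km m`, with `L ≤ Kp` -/
theorem coset_reps {L H : Subgroup (SLp p n)} (hL : L ≤ Kp p n) (hHL : H ≤ L) {m : ℕ}
    (hH : ∀ x ∈ L, x ∈ Km p n m → x ∈ H) :
    ∃ S : Finset (SLp p n), (∀ s ∈ S, s ∈ L) ∧ ∀ x ∈ L, ∃! s, s ∈ S ∧ x * s⁻¹ ∈ H := by
  classical
  obtain ⟨S₀, _, hS₀⟩ := fin_reps p n m
  -- one element of `L` for each class met by `L`
  have hch : ∀ s : SLp p n, ∃ y : SLp p n, y ∈ L ∧ ((∃ x ∈ L, x * s⁻¹ ∈ Km p n m) → y * s⁻¹ ∈ Km p n m) := by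
    intro s
    by_cases h : ∃ x ∈ L, x * s⁻¹ ∈ Km p n m
    · obtain ⟨x, hx, hxs⟩ := h
      exact ⟨x, hx, fun _ => hxs⟩
    · exact ⟨1, L.one_mem, fun h' => absurd h' h⟩
  choose y hyL hy using hch
  -- canonical representatives
  let rep : SLp p n → SLp p n := fun x => (Quotient.mk (QuotientGroup.rightRel H) x).out
  have hrep : ∀ x, x * (rep x)⁻¹ ∈ H := by
    intro x
    have h : (QuotientGroup.rightRel H) (rep x) x := Quotient.mk_out (s := QuotientGroup.rightRel H) x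
    rwa [QuotientGroup.rightRel_apply] at h
  have hrep_eq : ∀ x z, x * z⁻¹ ∈ H → rep x = rep z := by
    intro x z h
    have h' : (Quotient.mk (QuotientGroup.rightRel H) z) = Quotient.mk (QuotientGroup.rightRel H) x := by
      apply Quotient.sound
      show (QuotientGroup.rightRel H) z x
      rw [QuotientGroup.rightRel_apply]
      exact h
    show (Quotient.mk (QuotientGroup.rightRel H) x).out = (Quotient.mk (QuotientGroup.rightRel H) z).out
    rw [h']
  have hrepL : ∀ x ∈ L, rep x ∈ L := by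
    intro x hx
    have h1 : x * (rep x)⁻¹ ∈ L := hHL (hrep x)
    have h2 : (rep x) = (x * (rep x)⁻¹)⁻¹ * x := by group
    rw [h2]
    exact L.mul_mem (L.inv_mem h1) hx
  refine ⟨S₀.image (fun s => rep (y s)), ?_, ?_⟩
  · intro s hs
    rw [Finset.mem_image] at hs
    obtain ⟨s', _, rfl⟩ := hs
    exact hrepL _ (hyL s')
  · intro x hx
    refine ⟨rep x, ⟨?_, hrep x⟩, ?_⟩
    · obtain ⟨s, hs, hxs⟩ := hS₀ x (hL hx)
      rw [Finset.mem_image]
      refine ⟨s, hs, ?_⟩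
      have h1 : y s * s⁻¹ ∈ Km p n m := hy s ⟨x, hx, hxs⟩
      have h2 : x * (y s)⁻¹ ∈ H := by
        apply hH _ (L.mul_mem hx (L.inv_mem (hyL s)))
        have h3 : x * (y s)⁻¹ = (x * s⁻¹) * (y s * s⁻¹)⁻¹ := by group
        rw [h3]
        exact (Km p n m).mul_mem hxs ((Km p n m).inv_mem h1)
      exact (hrep_eq x (y s) h2).symm
    · rintro z ⟨hz, hxz⟩
      rw [Finset.mem_image] at hz
      obtain ⟨s, hs, rfl⟩ := hz
      -- `x ~ rep (y s) ~ y s`
      have h1 : x * (y s)⁻¹ ∈ H := by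
        have h2 : x * (y s)⁻¹ = (x * (rep (y s))⁻¹) * (y s * (rep (y s))⁻¹)⁻¹ := by group
        rw [h2]
        exact H.mul_mem hxz (H.inv_mem (hrep (y s)))
      exact (hrep_eq x (y s) h1).symm

end Pool.Agent.Lib.MP_f399a8_nt.S
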