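import Pool.Agent.Lib.MP_f399a8_ntS.ZfC
import Pool.Agent.Lib.MP_f399a8_ntS.AcB
import Pool.Agent.Lib.MP_f399a8_ntS.ExA

/-!
# The set `YY` of functions whose contractions approach `W`

PROOF.  `π` is any order with `Good v π` (it will be the swapped order), `t` diagonal with exponents `e`,
`e b ≤ e a` for `Dr π a b`.  Write `x_M = (t^M)⁻¹ * x * t^M`.
* `yy_yc`.  `add`, `smul`: `gf_add`, `gf_smul`; for the sum take the larger `M0` and the sum of the `w`s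
  (ultrametric); for `c = 0` the scalar case is trivial, otherwise use `ε / ‖c‖`.  `trans`: `u ∈ U (Dr π) ∩ Kp`,
  `ψ' = ψ (· * u)`: continuous; for `x ∈ U (Dr π)`, `x ∉ Kp`: `x * u ∉ Kp`.
  `Gf ψ' (k_M) = Gf ψ (k_M * u)` (`gf_right`), `k_M * u = (k * (t^M u t^-M))_M` and
  `u' := t^M * u * (t^M)⁻¹ ∈ Kp` (entries multiplied by `p ^ (M (e a - e b))`), so for `k' = k * u' ∈ Kp`
  `‖Gf ψ (k'_M) - w k'‖ ≤ ε`, and `k ↦ w (k * u')` is in `W`.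
* `yy_contr`: `ψ' x = ψ (t1⁻¹ * x * t1)`, `t1` diagonal with exponents `ed π`.  Continuous.  Support: for
  `x ∈ U (Dr π)`, `y = t1⁻¹ * x * t1 ∈ U (Dr π)` (`U_conj`); if `y ∈ Kp` then
  `x a b = p ^ (ed a - ed b) * y a b` is integral for `Dr π a b`, so `x ∈ Kp`; contrapositive gives `ψ' x = 0` for
  `x ∉ Kp`.  `Gf ψ' x = Gf ψ (t1⁻¹ * x * t1) = cb χ t1⁻¹ * Gf ψ (x * t1)` (`gf_conj`, `gf_left`).  For `x = k_M`:
  `k_M * t1 = (k * t1)_M` (diagonal matrices commute: `dg_unique`, `dg_mul`), `k * t1 = b₁ * k₁` (`iwasawa`),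
  `(k * t1)_M = (b₁)_M * (k₁)_M`, `Gf ψ ((k*t1)_M) = cb χ b₁ * Gf ψ ((k₁)_M)` (`cb_conj`) and
  `w (k * t1) = cb χ b₁ * w k₁`.  So the error is at most `‖cb χ t1⁻¹‖ * ‖cb χ b₁‖ * ε`, and
  `‖cb χ b₁‖ = Om v (k * t1) ≤ B` (`om_cb`, `om_kp`, `om_mul_bdd`).  The element `k ↦ cb χ t1⁻¹ * w (k * t1)` is in `W`.
* `yy_final`: let `ε > 0`.  `ac_K` with `R = Dr π`, `Y = YY` gives `ψ ∈ YY` with `‖indK x - ψ x‖ ≤ ε` on
  `U (Dr π)`.  For `M ≥ M0` there is `w ∈ W` with `‖Gf ψ (k_M) - w k‖ ≤ ε` for `k ∈ Kp`.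
  `Gf indK (k_M) - Gf ψ (k_M) = Gf φ (k_M) = Gf φ_M k` with `φ = indK - ψ`, `φ_M x = φ (x_M)` (`gf_sub`, `gf_conj`).
  `φ_M` vanishes on `U (Dr π)` outside `Kp`: `x_M ∈ Kp` implies `x ∈ Kp` (entries `x a b = p ^ (M (e a - e b)) * (x_M) a b`);
  it is bounded by `ε` on `U (Dr π)`.  `gf_norm`: `‖Gf φ_M k‖ ≤ ε`.  So the hypothesis of `exact_box` holds.
-/

namespace Pool.Agent.Lib.MP_f399a8_nt.S

open Matrix Filter Topology

variable {p : ℕ} [Fact p.Prime] {n : ℕ} {C : Type*} [NormedField C] [NormedAlgebra ℚ_[p] C]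
  [IsUltrametricDist C]

/-- continuous functions supported in `SL_n(ℤ_p)` on `U (Dr π)` whose contractions approach `W` -/
def YY (χ : Tor p n →* Cˣ) (π : Equiv.Perm (Fin n)) (t : SLp p n) (W : Set (SLp p n → C)) :
    Set (SLp p n → C) :=
  {ψ | Continuous ψ ∧ (∀ x ∈ U p (Dr π), x ∉ Kp p n → ψ x = 0) ∧
    ∀ ε : ℝ, 0 < ε → ∃ M0 : ℕ, ∀ M ≥ M0, ∃ w ∈ W, ∀ k ∈ Kp p n,
      ‖Gf χ π ψ ((t ^ M)⁻¹ * k * t ^ M) - w k‖ ≤ ε}

private theorem YlA_up {R : Fin n → Fin n → Prop} {e : Fin n → ℤ} {t : SLp p n} (ht : IsDg e t)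
    (he : ∀ a b, R a b → e b ≤ e a) {x : SLp p n} (hx : x ∈ U p R) (hxK : x ∈ Kp p n) :
    t * x * t⁻¹ ∈ Kp p n := by
  intro a b
  rw [dg_conj ht]
  by_cases hR : R a b
  · rw [norm_mul, norm_zpow, Padic.norm_p]
    have h1 : ((p : ℝ)⁻¹) ^ (e a - e b) ≤ 1 := by
      obtain ⟨k, hk⟩ := Int.eq_ofNat_of_zero_le (sub_nonneg.2 (he a b hR))
      rw [hk, zpow_natCast]
      exact pow_le_one₀ (by positivity) (inv_le_one_of_one_le₀ (by exact_mod_cast (Fact.out : p.Prime).one_lt.le))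
    exact mul_le_one₀ h1 (norm_nonneg _) (hxK a b)
  · rw [hx a b hR]
    by_cases hab : a = b
    · subst hab
      simp
    · rw [Matrix.one_apply_ne hab, mul_zero, norm_zero]
      exact zero_le_one

private theorem YlA_pow {R : Fin n → Fin n → Prop} {e : Fin n → ℤ}
    (he : ∀ a b, R a b → e b ≤ e a) (M : ℕ) : ∀ a b, R a b → (M : ℤ) * e b ≤ (M : ℤ) * e a :=
  fun a b h => mul_le_mul_of_nonneg_left (he a b h) (Int.natCast_nonneg M)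

private theorem YlA_comm {e e' : Fin n → ℤ} {t t' : SLp p n} (ht : IsDg e t) (ht' : IsDg e' t') :
    t * t' = t' * t := by
  have h1 := dg_mul ht ht'
  have h2 := dg_mul ht' ht
  have h3 : (fun i => e i + e' i) = fun i => e' i + e i := by
    funext i
    exact add_comm _ _
  rw [h3] at h1
  exact dg_unique h1 h2

theorem yy_yc {χ : Tor p n →* Cˣ} {π : Equiv.Perm (Fin n)} {e : Fin n → ℤ} {t : SLp p n}
    (ht : IsDg e t) (he : ∀ a b, Dr π a b → e b ≤ e a) {W : Set (SLp p n → C)}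
    (hW : IsClosedSubrep χ W) : YC (Dr π) (YY χ π t W) := by
  refine ⟨?_, ?_, ?_⟩
  · rintro f ⟨hf1, hf2, hf3⟩ g ⟨hg1, hg2, hg3⟩
    refine ⟨hf1.add hg1, fun x hx hxK => ?_, fun ε hε => ?_⟩
    · show f x + g x = 0
      rw [hf2 x hx hxK, hg2 x hx hxK, add_zero]
    · obtain ⟨M1, h1⟩ := hf3 ε hε
      obtain ⟨M2, h2⟩ := hg3 ε hε
      refine ⟨max M1 M2, fun M hM => ?_⟩
      obtain ⟨w1, hw1, h1⟩ := h1 M ((le_max_left _ _).trans hM)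
      obtain ⟨w2, hw2, h2⟩ := h2 M ((le_max_right _ _).trans hM)
      refine ⟨_, hW.add w1 hw1 w2 hw2, fun k hk => ?_⟩
      rw [gf_add]
      have h3 : Gf χ π f ((t ^ M)⁻¹ * k * t ^ M) + Gf χ π g ((t ^ M)⁻¹ * k * t ^ M) - (w1 k + w2 k) =
          (Gf χ π f ((t ^ M)⁻¹ * k * t ^ M) - w1 k) + (Gf χ π g ((t ^ M)⁻¹ * k * t ^ M) - w2 k) := by
        ring
      rw [h3]
      exact (IsUltrametricDist.norm_add_le_max _ _).trans (max_le (h1 k hk) (h2 k hk))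
  · rintro c f ⟨hf1, hf2, hf3⟩
    refine ⟨continuous_const.mul hf1, fun x hx hxK => ?_, fun ε hε => ?_⟩
    · show c * f x = 0
      rw [hf2 x hx hxK, mul_zero]
    · obtain ⟨M1, h1⟩ := hf3 (ε / (‖c‖ + 1)) (by positivity)
      refine ⟨M1, fun M hM => ?_⟩
      obtain ⟨w1, hw1, h1⟩ := h1 M hM
      refine ⟨_, hW.smul c w1 hw1, fun k hk => ?_⟩
      rw [gf_smul, ← mul_sub, norm_mul]
      have h2 := h1 k hk
      calc ‖c‖ * ‖Gf χ π f ((t ^ M)⁻¹ * k * t ^ M) - w1 k‖ ≤ (‖c‖ + 1) * (ε / (‖c‖ + 1)) := by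
            gcongr
            linarith
        _ = ε := by
            field_simp
  · rintro u hu huK ψ ⟨hψ1, hψ2, hψ3⟩
    refine ⟨hψ1.comp (continuous_mul_const u), fun x hx hxK => ?_, fun ε hε => ?_⟩
    · refine hψ2 (x * u) (U_mul (so_Dr π) hx hu) fun h => hxK ?_
      have h1 := (Kp p n).mul_mem h ((Kp p n).inv_mem huK)
      rwa [mul_inv_cancel_right] at h1
    · obtain ⟨M1, h1⟩ := hψ3 ε hε
      refine ⟨M1, fun M hM => ?_⟩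
      obtain ⟨w1, hw1, h1⟩ := h1 M hM
      have hu' : t ^ M * u * (t ^ M)⁻¹ ∈ Kp p n := YlA_up (dg_pow ht M) (YlA_pow he M) hu huK
      refine ⟨_, hW.trans (t ^ M * u * (t ^ M)⁻¹) w1 hw1, fun k hk => ?_⟩
      rw [← gf_right ψ hu]
      have h2 : (t ^ M)⁻¹ * k * t ^ M * u = (t ^ M)⁻¹ * (k * (t ^ M * u * (t ^ M)⁻¹)) * t ^ M := by
        group
      rw [h2]
      exact h1 _ ((Kp p n).mul_mem hk hu')

theorem yy_contr {χ : Tor p n →* Cˣ} {v : Fin n → ℝ} (hs : Slope χ v) {π : Equiv.Perm (Fin n)}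
    {e : Fin n → ℤ} {t : SLp p n} (ht : IsDg e t) {W : Set (SLp p n → C)}
    (hW : IsClosedSubrep χ W) {t1 : SLp p n} (ht1 : IsDg (ed π) t1) {ψ : SLp p n → C}
    (hψ : ψ ∈ YY χ π t W) : (fun x => ψ (t1⁻¹ * x * t1)) ∈ YY χ π t W := by
  obtain ⟨hψ1, hψ2, hψ3⟩ := hψ
  have ht1B : t1⁻¹ ∈ Bp p n := dg_Bt (dg_inv ht1) id
  refine ⟨hψ1.comp ((continuous_mul_const t1).comp (continuous_const_mul t1⁻¹)), fun x hx hxK => ?_,
    fun ε hε => ?_⟩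
  · have h1 := (U_conj ht1 hx).2
    refine hψ2 _ h1 fun h => hxK ?_
    have h2 := YlA_up ht1 (fun a b hab => (ed_lt (π := π) (hab : Dr π a b).2).le) h1 h
    have h3 : t1 * (t1⁻¹ * x * t1) * t1⁻¹ = x := by group
    rwa [h3] at h2
  · obtain ⟨B, hB0, hB⟩ := om_mul_bdd v t1
    obtain ⟨M1, h1⟩ := hψ3 (ε / (‖cb χ t1⁻¹‖ * B + 1)) (by positivity)
    refine ⟨M1, fun M hM => ?_⟩
    obtain ⟨w, hw, h1⟩ := h1 M hM
    refine ⟨_, hW.smul (cb χ t1⁻¹) _ (hW.trans t1 w hw), fun k hk => ?_⟩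
    rw [← gf_conj ψ ht1, mul_assoc t1⁻¹, gf_left ψ ht1B, ← mul_sub, norm_mul]
    have hc : t ^ M * t1 = t1 * t ^ M := YlA_comm (dg_pow ht M) ht1
    obtain ⟨b, hb, k1, hk1, hbk⟩ := iwasawa (k * t1)
    have h2 : (t ^ M)⁻¹ * k * t ^ M * t1 = ((t ^ M)⁻¹ * b * t ^ M) * ((t ^ M)⁻¹ * k1 * t ^ M) := by
      rw [mul_assoc _ (t ^ M) t1, hc]
      calc (t ^ M)⁻¹ * k * (t1 * t ^ M) = (t ^ M)⁻¹ * (k * t1) * t ^ M := by group
        _ = _ := by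
          rw [hbk]
          group
    have htM : t ^ M ∈ Bp p n := dg_Bt (dg_pow ht M) id
    have hbM : (t ^ M)⁻¹ * b * t ^ M ∈ Bp p n :=
      (Bp p n).mul_mem ((Bp p n).mul_mem ((Bp p n).inv_mem htM) hb) htM
    rw [h2, gf_left ψ hbM, (cb_conj χ (dg_pow ht M) b).2, hbk, (isPS_iff.1 (hW.isPS w hw)).2 b hb,
      ← mul_sub, norm_mul]
    have h3 : ‖cb χ b‖ ≤ B := by
      have h4 := om_cb hs hb k1
      rw [om_kp v hk1, mul_one, ← hbk] at h4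
      have h5 := hB k
      rw [om_kp v hk, mul_one] at h5
      rwa [h4] at h5
    have h6 := h1 k1 hk1
    have h7 : (0 : ℝ) < ‖cb χ t1⁻¹‖ * B + 1 := by positivity
    calc ‖cb χ t1⁻¹‖ * (‖cb χ b‖ * ‖Gf χ π ψ ((t ^ M)⁻¹ * k1 * t ^ M) - w k1‖)
        ≤ ‖cb χ t1⁻¹‖ * (B * (ε / (‖cb χ t1⁻¹‖ * B + 1))) := by gcongr
      _ = (‖cb χ t1⁻¹‖ * B) * (ε / (‖cb χ t1⁻¹‖ * B + 1)) := by ring
      _ ≤ (‖cb χ t1⁻¹‖ * B + 1) * (ε / (‖cb χ t1⁻¹‖ * B + 1)) := by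
          gcongr
          linarith
      _ = ε := by field_simp

theorem yy_final [FiniteDimensional ℚ_[p] C] {χ : Tor p n →* Cˣ} (hχ : Continuous χ)
    {v : Fin n → ℝ} (hs : Slope χ v) {π : Equiv.Perm (Fin n)} (hg : Good v π) {e : Fin n → ℤ}
    {t : SLp p n} (ht : IsDg e t) (he : ∀ a b, Dr π a b → e b ≤ e a) {W : Set (SLp p n → C)}
    (hW : IsClosedSubrep χ W) {Γ : SLp p n → C} (hΓ : Γ ∈ YY χ π t W)
    (hne : ∃ x ∈ U p (Dr π), Γ x ≠ 0) : Gf χ π (indK p n C) ∈ W := by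
  obtain ⟨t1, ht1⟩ := dg_exists (p := p) (ed π) (ed_sum π)
  refine exact_box hχ hs hg hW ht he fun ε hε => ?_
  obtain ⟨ψ, hψ, hψε⟩ := ac_K (R := Dr π) (so_Dr π) (π := π) (fun i j h => h.2) ht1
    (Y := YY χ π t W) (yy_yc ht he hW) (fun f hf => yy_contr hs ht hW ht1 hf) (fun f hf => hf.1)
    (fun f hf => hf.2.1) hΓ hne hε
  obtain ⟨M, hM⟩ := hψ.2.2 ε hε
  obtain ⟨w, hw, h1⟩ := hM M le_rfl
  refine ⟨M, w, hw, fun k hk => ?_⟩
  have h2 : Gf χ π (indK p n C) ((t ^ M)⁻¹ * k * t ^ M) - w k =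
      (Gf χ π (indK p n C) ((t ^ M)⁻¹ * k * t ^ M) - Gf χ π ψ ((t ^ M)⁻¹ * k * t ^ M)) +
        (Gf χ π ψ ((t ^ M)⁻¹ * k * t ^ M) - w k) := by
    ring
  rw [h2]
  refine (IsUltrametricDist.norm_add_le_max _ _).trans (max_le ?_ (h1 k hk))
  rw [← gf_sub, gf_conj _ (dg_pow ht M)]
  refine gf_norm hs hg ?_ hε.le ?_ hk
  · intro d hd hdK
    have hd1 := (U_conj (dg_pow ht M) hd).2
    have hd2 : (t ^ M)⁻¹ * d * t ^ M ∉ Kp p n := by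
      intro h
      have h3 := YlA_up (dg_pow ht M) (YlA_pow he M) hd1 h
      have h4 : t ^ M * ((t ^ M)⁻¹ * d * t ^ M) * (t ^ M)⁻¹ = d := by group
      rw [h4] at h3
      exact hdK h3
    rw [hψ.2.1 _ hd1 hd2, sub_zero]
    simp [indK, hd2]
  · intro d hd
    exact hψε _ (U_conj (dg_pow ht M) hd).2

end Pool.Agent.Lib.MP_f399a8_nt.S
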