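import Pool.Agent.Lib.MP_f399a8_ntS.YlA

/-!
# Swapping an adjacent pair with an index in between

PROOF.  `ze_exists` gives `e'` (for `q`), `f1 := f1 χ π h e'`.  Exponents `e` from `ex_exists`, `t` with `IsDg e t`
(`dg_exists`).  `π' = sw π i j`, `Good v π'` (`good_sw`).  `Γ := Gf χ π' f1` is in the principal series (`gf_ps`
with `f1_ps` (continuous), `f1_supp`).  `D := f1 - Γ` is in the principal series, vanishes on `Bt (qb π i j)` (`f1_eq`),
and `HH χ π i j D`: if `D x ≠ 0` then one of `f1 x`, `Γ x` has norm `≥ ‖D x‖ > 0`; for `f1` use `f1_HH`; for `Γ`: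
`x = b * f' * d'`, `f' ∈ U (Fr π') ⊆ U (Fr π)` (`fr_sw`), `d' ∈ U (Dr π')` with `f1 d' ≠ 0`, so `d' ∈ Kp` (`f1_supp`),
`d' ∈ Bt (qb)` (`dr_sw_Pb`), `‖Γ x‖ = ‖cb χ b‖ * ‖f1 d'‖ ≤ ‖cb χ b‖` (`f1_norm`).
`pi_lim`: for `ε > 0` and `M` large `‖D (k_M)‖ ≤ ε` for `k ∈ Kp` (`k_M = (t^M)⁻¹ * k * t^M`).  And
`k ↦ f1 (k_M) = cb χ (t^M)⁻¹ * f1 (k * t^M)` is in `W` (`f1_mem`).  So `f1 ∈ YY χ π' t W`.  It is nonzero on
`U (Dr π')` (`f1_ne`).  The condition on `e` for `π'`: `Dr π' a b` is `Dr π a b` or `(a, b) = (i, j)` (`dr_sw`), in the first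
case `π a < π b` and `(a, b) ≠ (j, i)` (as `b < a`), so `e b < e a`; in the second `e i = e j`.
`yy_final` for `π'` gives the claim.
-/

namespace Pool.Agent.Lib.MP_f399a8_nt.S

open Matrix Filter Topology

variable {p : ℕ} [Fact p.Prime] {n : ℕ} {C : Type*} [NormedField C] [NormedAlgebra ℚ_[p] C]
  [IsUltrametricDist C] [FiniteDimensional ℚ_[p] C]

theorem YlB_sub {C : Type*} [NormedField C] [IsUltrametricDist C] (a b : C) :
    ‖a - b‖ ≤ max ‖a‖ ‖b‖ := by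
  rw [sub_eq_add_neg]
  refine (IsUltrametricDist.norm_add_le_max _ _).trans ?_
  rw [norm_neg]

theorem y_lemma {χ : Tor p n →* Cˣ} (hχ : Continuous χ) {v : Fin n → ℝ} (hs : Slope χ v)
    {π : Equiv.Perm (Fin n)} (hg : Good v π) {i j : Fin n} (h : Adj π i j) {q : Fin n}
    (hq1 : j < q) (hq2 : q < i) {W : Set (SLp p n → C)} (hW : IsClosedSubrep χ W)
    (hG : Gf χ π (indK p n C) ∈ W) : Gf χ (sw π i j) (indK p n C) ∈ W := by
  obtain ⟨e', he', heK', hz⟩ := ze_exists (C := C) χ h hq1 hq2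
  obtain ⟨e, hesum, he, heij⟩ := ex_exists π h
  obtain ⟨t, ht⟩ := dg_exists (p := p) e hesum
  have hg' : Good v (sw π i j) := good_sw h hg
  have hf1ps : IsPS χ (f1 χ π h e') := f1_ps hχ hs hg h e'
  have hf1c : Continuous (f1 χ π h e') := (isPS_iff.mp hf1ps).1
  have hsupp : ∀ d ∈ U p (Dr (sw π i j)), d ∉ Kp p n → f1 χ π h e' d = 0 :=
    fun d hd hdK => f1_supp h he' heK' hd hdK
  have hΓ : IsPS χ (Gf χ (sw π i j) (f1 χ π h e')) := gf_ps hχ hs hg' hf1c hsupp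
  have hD : IsPS χ (fun x => f1 χ π h e' x - Gf χ (sw π i j) (f1 χ π h e') x) := by
    rw [isPS_iff]
    refine ⟨hf1c.sub (isPS_iff.mp hΓ).1, fun b hb g => ?_⟩
    show f1 χ π h e' (b * g) - Gf χ (sw π i j) (f1 χ π h e') (b * g) = _ * (_ - _)
    rw [f1_left h e' hb, gf_left _ hb, mul_sub]
  have hZ : ∀ x ∈ Bt p (qb π i j),
      (fun x => f1 χ π h e' x - Gf χ (sw π i j) (f1 χ π h e') x) x = 0 := by
    intro x hx
    show f1 χ π h e' x - Gf χ (sw π i j) (f1 χ π h e') x = 0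
    rw [← f1_eq h he' heK' hx, sub_self]
  have hHD : HH χ π i j (fun x => f1 χ π h e' x - Gf χ (sw π i j) (f1 χ π h e') x) := by
    intro x hx
    have hmax := YlB_sub (f1 χ π h e' x) (Gf χ (sw π i j) (f1 χ π h e') x)
    have hpos : 0 < ‖f1 χ π h e' x - Gf χ (sw π i j) (f1 χ π h e') x‖ := norm_pos_iff.mpr hx
    rcases le_max_iff.mp hmax with h1 | h1
    · obtain ⟨b, hb, u, hu, c, hc, hcK, hxe, hle⟩ :=
        f1_HH h he' heK' x (norm_pos_iff.mp (lt_of_lt_of_le hpos h1))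
      exact ⟨b, hb, u, hu, c, hc, hcK, hxe, h1.trans hle⟩
    · obtain ⟨b, hb, f, hf, d, hd, hxe, hne, hv⟩ :=
        gf_ne (norm_pos_iff.mp (lt_of_lt_of_le hpos h1))
      have hdK : d ∈ Kp p n := by
        by_contra hdK
        exact hne (hsupp d hd hdK)
      refine ⟨b, hb, f, U_mono (fun a b' hab => ((fr_sw h a b').mp hab).1) hf, d,
        dr_sw_Pb h hd, hdK, hxe, h1.trans ?_⟩
      rw [hv, norm_mul]
      exact mul_le_of_le_one_right (norm_nonneg _) (f1_norm hs hg h heK' hdK)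
  have hYY : f1 χ π h e' ∈ YY χ (sw π i j) t W := by
    refine ⟨hf1c, hsupp, fun ε hε => ?_⟩
    obtain ⟨M0, hM0⟩ := pi_lim hs hg h ht he heij hD hHD hZ hε
    refine ⟨M0, fun M hM => ⟨fun k => cb χ (t ^ M)⁻¹ * f1 χ π h e' (k * t ^ M), ?_, ?_⟩⟩
    · exact hW.smul _ _ (hW.trans (t ^ M) _ (f1_mem h e' hW hG))
    · intro k hk
      have h1 := hM0 M hM k hk
      have h2 : f1 χ π h e' ((t ^ M)⁻¹ * k * t ^ M) =
          cb χ (t ^ M)⁻¹ * f1 χ π h e' (k * t ^ M) := by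
        rw [mul_assoc]
        exact f1_left h e' (inv_mem (dg_Bt (dg_pow ht M) id)) _
      show ‖Gf χ (sw π i j) (f1 χ π h e') ((t ^ M)⁻¹ * k * t ^ M) -
        cb χ (t ^ M)⁻¹ * f1 χ π h e' (k * t ^ M)‖ ≤ ε
      rw [← h2, norm_sub_rev]
      exact h1
  refine yy_final hχ hs hg' ht ?_ hW hYY (f1_ne h hz)
  intro a b hab
  rcases (dr_sw h a b).mp hab with h1 | ⟨rfl, rfl⟩
  · rcases he a b h1.2 with ⟨rfl, rfl⟩ | h2
    · exact absurd h1.1 (not_lt_of_gt h.lt)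
    · exact h2.le
  · exact heij.ge

end Pool.Agent.Lib.MP_f399a8_nt.S
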