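import Pool.Agent.Lib.MP_f399a8_ntS.GiA
import Pool.Agent.Lib.MP_f399a8_ntS.ExA
import Pool.Agent.Lib.MP_f399a8_ntS.AcA

/-!
# Translates of the box function by `SL_2` of a simple root

`ι = iota i j _`, `G = Gf χ π indK ∈ W`, `π' = sw π i j`.

PROOF of `z2_one`.  Let `t1` be diagonal with exponents `ed π` (`dg_exists`, `ed_sum`), `M` large,
`ψ x = indK ((t1^M)⁻¹ * x * t1^M)`.  `Gf χ π ψ x = G ((t1^M)⁻¹ * x * t1^M) = cb χ (t1^M)⁻¹ * G (x * t1^M)`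
(`gf_conj`, `gf_left`), so `Gf χ π ψ ∈ W`.  Let `R = Dr π`, `L = U R ∩ Kp`,
`H = {d ∈ U R | (t1^M)⁻¹ * ((ι l)⁻¹ * d * ι l) * t1^M ∈ Kp}` (subgroups).  For `M` large `H ⊆ Kp`: if
`d' = (ι l)⁻¹ * d * ι l ∈ U R` (`dr_norm2`) has integral conjugate then its off-diagonal entries have norm
`≤ p ^ (-M)`, so `d' ∈ Km M`, and `d = ι l * d' * (ι l)⁻¹ ∈ Km 0 ⊆ Kp` for `M` large (`conj_small`).  `H` contains
`L ∩ Km m` for `m` large (`conj_small` again).  `coset_reps`: `S`.  Let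
`F x = ∑ s ∈ S, Gf χ π ψ (x * s⁻¹ * ι l) ∈ W`.  For `x = b * f * ι l' * d` with `d ∈ U R`:
`x * s⁻¹ * ι l = b * f * ι (l' * l) * ((ι l)⁻¹ * (d * s⁻¹) * ι l)`, so by `gi1` the term is
`cb χ b * chr χ i j ((l' * l) 1 1) * ψ ((ι l)⁻¹ * (d * s⁻¹) * ι l)`, and
`∑ s, ψ (..) = #{s | d * s⁻¹ ∈ H} = indK d` (as in `exact_box`).  If `F x ≠ 0` some term is `≠ 0`, so by `gi_cover1`
`x * s⁻¹ * ι l = b * f * ι l' * d'`, so
`x = b * f * ι l' * d' * (ι l)⁻¹ * s = b * f * ι (l' * l⁻¹) * ((ι l * d' * (ι l)⁻¹) * s)`, of the required form.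
-/

namespace Pool.Agent.Lib.MP_f399a8_nt.S

open Matrix Filter Topology

variable {p : ℕ} [Fact p.Prime] {n : ℕ} {C : Type*} [NormedField C] [IsUltrametricDist C]

omit [IsUltrametricDist C] in
private theorem Z2A_left {χ : Tor p n →* Cˣ} {W : Set (SLp p n → C)} (hW : IsClosedSubrep χ W)
    {b : SLp p n} (hb : b ∈ Bp p n) (g : SLp p n) {f : SLp p n → C} (hf : f ∈ W) :
    (fun x => f (b * x * g)) ∈ W := by
  have h1 := (isPS_iff.1 (hW.isPS f hf)).2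
  have h2 : (fun x => f (b * x * g)) = fun x => cb χ b * f (x * g) := by
    funext x
    rw [mul_assoc, h1 b hb]
  rw [h2]
  exact hW.smul _ _ (hW.trans g f hf)

private theorem Z2A_bdd (g : SLp p n) : ∃ A : ℝ, ∀ i j, ‖g.1 i j‖ ≤ A := by
  refine ⟨∑ i, ∑ j, ‖g.1 i j‖, fun i j => ?_⟩
  calc ‖g.1 i j‖ ≤ ∑ j, ‖g.1 i j‖ :=
        Finset.single_le_sum (f := fun j => ‖g.1 i j‖) (fun _ _ => norm_nonneg _) (Finset.mem_univ j)
    _ ≤ ∑ i, ∑ j, ‖g.1 i j‖ :=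
        Finset.single_le_sum (f := fun i => ∑ j, ‖g.1 i j‖)
          (fun _ _ => Finset.sum_nonneg fun _ _ => norm_nonneg _) (Finset.mem_univ i)

private theorem Z2A_km {π : Equiv.Perm (Fin n)} {t1 : SLp p n} (ht1 : IsDg (ed π) t1) (M : ℕ)
    {d : SLp p n} (hd : d ∈ U p (Dr π)) (hK : (t1 ^ M)⁻¹ * d * t1 ^ M ∈ Kp p n) :
    d ∈ Km p n M := by
  intro a b
  by_cases hR : Dr π a b
  · have hne : a ≠ b := fun h => (so_Dr π).irr a (by rw [← h] at hR; exact hR)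
    rw [Matrix.one_apply_ne hne, sub_zero]
    have h1 := hK a b
    rw [dg_pow_conj' ht1, norm_mul, norm_zpow, Padic.norm_p] at h1
    have hp : (1 : ℝ) < p := by exact_mod_cast (Fact.out : p.Prime).one_lt
    have hp0 : (0 : ℝ) < p := by linarith
    have h2 : ed π b < ed π a := ed_lt hR.2
    have h3 : (p : ℝ) ^ (M : ℤ) ≤ ((p : ℝ)⁻¹) ^ ((M : ℤ) * (ed π b - ed π a)) := by
      rw [_root_.inv_zpow, ← _root_.zpow_neg]
      refine zpow_le_zpow_right₀ hp.le ?_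
      have h4 : (0 : ℤ) ≤ (M : ℤ) := Int.natCast_nonneg M
      nlinarith
    have h5 : (p : ℝ) ^ (M : ℤ) * ‖d.1 a b‖ ≤ 1 :=
      (mul_le_mul_of_nonneg_right h3 (norm_nonneg _)).trans h1
    rw [_root_.zpow_neg]
    have h6 : (0 : ℝ) < (p : ℝ) ^ (M : ℤ) := zpow_pos hp0 _
    rwa [← one_div, le_div_iff₀' h6]
  · rw [hd a b hR, sub_self, norm_zero]
    positivity

theorem z2_one {χ : Tor p n →* Cˣ} {π : Equiv.Perm (Fin n)} {i j : Fin n} (h : Adj π i j)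
    (h1 : (i : ℕ) = (j : ℕ) + 1) {W : Set (SLp p n → C)} (hW : IsClosedSubrep χ W)
    (hG : Gf χ π (indK p n C) ∈ W) (l : SLp p 2) :
    ∃ F ∈ W, (∀ b ∈ Bp p n, ∀ f ∈ U p (Fr (sw π i j)), ∀ l' : SLp p 2, ∀ d ∈ U p (Dr π),
      F (b * f * iota i j h.lt.ne l' * d) =
        cb χ b * chr χ i j ((l' * l).1 1 1) * indK p n C d) ∧
      ∀ x, F x ≠ 0 → ∃ b ∈ Bp p n, ∃ f ∈ U p (Fr (sw π i j)), ∃ l' : SLp p 2, ∃ d ∈ U p (Dr π),
        x = b * f * iota i j h.lt.ne l' * d := by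
  classical
  have hR : SO (Dr π) := so_Dr π
  obtain ⟨t1, ht1⟩ := dg_exists (p := p) (ed π) (ed_sum π)
  have hB : ∀ {e : Fin n → ℤ} {t : SLp p n}, IsDg e t → t ∈ Bp p n := fun h => dg_Bt h id
  set ι := iota (p := p) i j h.lt.ne with hι
  obtain ⟨A, hA⟩ := Z2A_bdd (ι l)
  obtain ⟨M, hM⟩ := conj_small p n A 0
  obtain ⟨A', hA'⟩ := Z2A_bdd (ι l * t1 ^ M)
  obtain ⟨m, hm⟩ := conj_small p n A' 0
  have hg : ∀ x : SLp p n, (t1 ^ M)⁻¹ * ((ι l)⁻¹ * x * ι l) * t1 ^ M =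
      (ι l * t1 ^ M)⁻¹ * x * (ι l * t1 ^ M) := by
    intro x
    group
  let L : Subgroup (SLp p n) := US p (Dr π) hR ⊓ Kp p n
  let H : Subgroup (SLp p n) := {
    carrier := {x | x ∈ U p (Dr π) ∧ (ι l * t1 ^ M)⁻¹ * x * (ι l * t1 ^ M) ∈ Kp p n}
    mul_mem' := by
      rintro x y ⟨hx, hx'⟩ ⟨hy, hy'⟩
      refine ⟨U_mul hR hx hy, ?_⟩
      have h2 := (Kp p n).mul_mem hx' hy'
      have h3 : (ι l * t1 ^ M)⁻¹ * x * (ι l * t1 ^ M) * ((ι l * t1 ^ M)⁻¹ * y * (ι l * t1 ^ M)) =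
          (ι l * t1 ^ M)⁻¹ * (x * y) * (ι l * t1 ^ M) := by
        group
      rwa [h3] at h2
    one_mem' := by
      refine ⟨U_one _, ?_⟩
      rw [mul_one, inv_mul_cancel]
      exact (Kp p n).one_mem
    inv_mem' := by
      rintro x ⟨hx, hx'⟩
      refine ⟨U_inv hR hx, ?_⟩
      have h2 := (Kp p n).inv_mem hx'
      have h3 : ((ι l * t1 ^ M)⁻¹ * x * (ι l * t1 ^ M))⁻¹ =
          (ι l * t1 ^ M)⁻¹ * x⁻¹ * (ι l * t1 ^ M) := by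
        group
      rwa [h3] at h2 }
  have hmemH : ∀ x, x ∈ H ↔ (x ∈ U p (Dr π) ∧ (ι l * t1 ^ M)⁻¹ * x * (ι l * t1 ^ M) ∈ Kp p n) :=
    fun x => Iff.rfl
  have hmemL : ∀ x, x ∈ L ↔ (x ∈ U p (Dr π) ∧ x ∈ Kp p n) := fun x => Iff.rfl
  have hLK : L ≤ Kp p n := fun x hx => hx.2
  have hHL : H ≤ L := by
    intro x hx
    obtain ⟨hx1, hx2⟩ := (hmemH x).1 hx
    refine (hmemL x).2 ⟨hx1, ?_⟩
    rw [← hg] at hx2
    have h2 := (dr_norm2 h h1 l hx1).2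
    have h3 := Z2A_km ht1 M h2 hx2
    have h4 := (hM (ι l) hA _ h3).1
    have h5 : ι l * ((ι l)⁻¹ * x * ι l) * (ι l)⁻¹ = x := by group
    have h6 := km_le_kp h4
    rw [← hι, h5] at h6
    exact h6
  have hLH : ∀ x ∈ L, x ∈ Km p n m → x ∈ H := by
    intro x hx hxm
    exact (hmemH x).2 ⟨((hmemL x).1 hx).1, km_le_kp (hm _ hA' x hxm).2⟩
  obtain ⟨S, hS1, hS2⟩ := coset_reps hLK hHL hLH
  -- the function
  let ψ : SLp p n → C := fun x => indK p n C ((t1 ^ M)⁻¹ * x * t1 ^ M)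
  have hψ : Gf χ π ψ ∈ W := by
    have h2 : Gf χ π ψ = fun x => Gf χ π (indK p n C) ((t1 ^ M)⁻¹ * x * t1 ^ M) := by
      funext x
      rw [gf_conj (indK p n C) (dg_pow ht1 M)]
    rw [h2]
    exact Z2A_left hW (hB (dg_inv (dg_pow ht1 M))) _ hG
  have hψH : ∀ x ∈ U p (Dr π), ψ ((ι l)⁻¹ * x * ι l) = if x ∈ H then 1 else 0 := by
    intro x hx
    show indK p n C ((t1 ^ M)⁻¹ * ((ι l)⁻¹ * x * ι l) * t1 ^ M) = _
    rw [hg, indK]
    by_cases h2 : (ι l * t1 ^ M)⁻¹ * x * (ι l * t1 ^ M) ∈ Kp p n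
    · rw [if_pos h2, if_pos ((hmemH x).2 ⟨hx, h2⟩)]
    · rw [if_neg h2, if_neg fun h3 => h2 ((hmemH x).1 h3).2]
  refine ⟨fun x => ∑ s ∈ S, Gf χ π ψ (x * (s⁻¹ * ι l)),
    sub_sum_mem hW S (fun s x => Gf χ π ψ (x * (s⁻¹ * ι l))) (fun s _ => hW.trans _ _ hψ), ?_, ?_⟩
  · intro b hb f hf l' d hd
    have h2 : ∀ s ∈ S, Gf χ π ψ (b * f * ι l' * d * (s⁻¹ * ι l)) =
        cb χ b * chr χ i j ((l' * l).1 1 1) * (if d * s⁻¹ ∈ H then 1 else 0) := by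
      intro s hs
      have hsU := ((hmemL s).1 (hS1 s hs)).1
      have hds : d * s⁻¹ ∈ U p (Dr π) := U_mul hR hd (U_inv hR hsU)
      have h3 : b * f * ι l' * d * (s⁻¹ * ι l) =
          b * f * ι (l' * l) * ((ι l)⁻¹ * (d * s⁻¹) * ι l) := by
        rw [map_mul]
        group
      rw [h3, hι, gi1 h h1 ψ hb hf (l' * l) (dr_norm2 h h1 l hds).2, ← hι, hψH _ hds]
    show ∑ s ∈ S, Gf χ π ψ (b * f * ι l' * d * (s⁻¹ * ι l)) = _
    rw [Finset.sum_congr rfl h2, ← Finset.mul_sum]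
    congr 1
    by_cases hdK : d ∈ Kp p n
    · obtain ⟨s, ⟨hs, hsH⟩, huniq⟩ := hS2 d ((hmemL d).2 ⟨hd, hdK⟩)
      rw [Finset.sum_eq_single s, if_pos hsH, indK, if_pos hdK]
      · intro s' hs' hne
        rw [if_neg fun h4 => hne (huniq s' ⟨hs', h4⟩)]
      · exact fun h4 => absurd hs h4
    · rw [indK, if_neg hdK]
      refine Finset.sum_eq_zero fun s hs => ?_
      rw [if_neg]
      intro h4
      have h5 := (Kp p n).mul_mem (hLK (hHL h4)) (hLK (hS1 s hs))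
      rw [inv_mul_cancel_right] at h5
      exact hdK h5
  · intro x hx
    obtain ⟨s, hs, hne⟩ := Finset.exists_ne_zero_of_sum_ne_zero hx
    obtain ⟨b, hb, f, hf, l', d', hd', he⟩ := gi_cover1 h hne
    rw [← hι] at he
    have hsU := ((hmemL s).1 (hS1 s hs)).1
    refine ⟨b, hb, f, hf, l' * l⁻¹, (ι l * d' * (ι l)⁻¹) * s,
      U_mul hR (dr_norm2 h h1 l hd').1 hsU, ?_⟩
    have h2 : x = x * (s⁻¹ * ι l) * ((ι l)⁻¹ * s) := by group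
    rw [h2, he, map_mul, map_inv]
    group

end Pool.Agent.Lib.MP_f399a8_nt.S
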