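import Pool.Agent.Lib.MP_f399a8_ntS.IoC
import Pool.Agent.Lib.MP_f399a8_ntS.GfB

/-!
# The element `e` (there is an index between `j` and `i`)

PROOF of `ze_exists`.  `q ≠ i, j`, so `π q < π j` or `π i < π q` (`Adj`).  Use transvections
`Matrix.transvection a b c = 1 + c E_ab` (determinant one: `Matrix.det_transvection_of_ne`).
Case `π q < π j`: `e = 1 + E_{q i}`.  `Er π q i` (`q < i`, `π q < π i`), `(q, i) ≠ (j, i)`.  With
`g = iota (lo2 z) = 1 + z E_{i j}`: `g * e = e * g * (1 - z E_{q j})` (check all products of matrix units: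
`E_ij E_qi = 0`, `E_qi E_ij = E_qj`, `E_ij E_qj = 0`, `E_qi E_qj = 0`).  `e ∈ Bp` unipotent, `g ∈ U (Fr π)`
(`lo_fr`), `1 - z E_{q j} ∈ U (Dr π)` (`j < q`, `π q < π j`), so `Gf χ π indK (g * e) = cb χ e * indK (1 - z E_{q j}) = 0`
as `‖z‖ > 1` (`gf_eq`, `cb_unip`).
Case `π i < π q`: `e = 1 + E_{j q}`, `Er π j q` (`j < q`, `π j < π q`), and
`g * e = e * g * (1 + z E_{i q})` (`E_ij E_jq = E_iq`, `E_jq E_ij = 0`, ...), `1 + z E_{i q} ∈ U (Dr π)` (`q < i`,
`π i < π q`), not integral.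
-/

namespace Pool.Agent.Lib.MP_f399a8_nt.S

open Matrix Filter Topology

variable {p : ℕ} [Fact p.Prime] {n : ℕ} {C : Type*} [NormedField C]

/-- `Er π` without the pair `(j, i)` -/
def Ez (π : Equiv.Perm (Fin n)) (i j : Fin n) : Fin n → Fin n → Prop :=
  fun a b => Er π a b ∧ ¬ (a = j ∧ b = i)

/-- the transvection as an element of `SL_n` -/
noncomputable def ZeA_t (a b : Fin n) (h : a ≠ b) (c : ℚ_[p]) : SLp p n :=
  ⟨Matrix.transvection a b c, Matrix.det_transvection_of_ne a b h c⟩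

theorem ZeA_t_apply {a b : Fin n} (h : a ≠ b) (c : ℚ_[p]) (k l : Fin n) :
    (ZeA_t (p := p) a b h c).1 k l =
      (1 : Matrix (Fin n) (Fin n) ℚ_[p]) k l + if a = k ∧ b = l then c else 0 := by
  show (Matrix.transvection a b c) k l = _
  unfold Matrix.transvection
  rw [Matrix.add_apply, Matrix.single_apply]

theorem ZeA_t_mem {R : Fin n → Fin n → Prop} {a b : Fin n} (h : a ≠ b) (c : ℚ_[p])
    (hR : R a b) : ZeA_t (p := p) a b h c ∈ U p R := by
  intro k l hkl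
  rw [ZeA_t_apply, if_neg, add_zero]
  rintro ⟨rfl, rfl⟩
  exact hkl hR

theorem ZeA_t_Kp {a b : Fin n} (h : a ≠ b) {c : ℚ_[p]} (hc : ‖c‖ ≤ 1) :
    ZeA_t (p := p) a b h c ∈ Kp p n := by
  intro k l
  rw [ZeA_t_apply]
  refine (IsUltrametricDist.norm_add_le_max _ _).trans (max_le (one_norm_le k l) ?_)
  split_ifs
  · exact hc
  · rw [norm_zero]
    exact zero_le_one

theorem ZeA_t_not_Kp {a b : Fin n} (h : a ≠ b) {c : ℚ_[p]} (hc : 1 < ‖c‖) :
    ZeA_t (p := p) a b h c ∉ Kp p n := by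
  intro hK
  have h1 := hK a b
  rw [ZeA_t_apply, if_pos ⟨rfl, rfl⟩, Matrix.one_apply_ne h, zero_add] at h1
  exact absurd h1 (not_le.mpr hc)

theorem ZeA_t_Bp {a b : Fin n} (h : a < b) (c : ℚ_[p]) :
    ZeA_t (p := p) a b h.ne c ∈ Bp p n := by
  intro k l hkl
  have hkl' : l < k := hkl
  rw [ZeA_t_apply, if_neg, add_zero, Matrix.one_apply_ne hkl'.ne']
  rintro ⟨rfl, rfl⟩
  exact lt_asymm h hkl'

theorem ZeA_t_diag {a b : Fin n} (h : a ≠ b) (c : ℚ_[p]) (k : Fin n) :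
    (ZeA_t (p := p) a b h c).1 k k = 1 := by
  rw [ZeA_t_apply, if_neg, add_zero, Matrix.one_apply_eq]
  rintro ⟨rfl, rfl⟩
  exact h rfl

theorem ZeA_iota {i j : Fin n} (h : j ≠ i) (z : ℚ_[p]) :
    iota i j h (lo2 z) = ZeA_t i j h.symm z := by
  apply Subtype.ext
  ext a b
  rw [ZeA_t_apply]
  have l00 : (lo2 z).1 0 0 = 1 := rfl
  have l01 : (lo2 z).1 0 1 = 0 := rfl
  have l10 : (lo2 z).1 1 0 = z := rfl
  have l11 : (lo2 z).1 1 1 = 1 := rfl
  by_cases ha : (a ≠ i ∧ a ≠ j) ∨ (b ≠ i ∧ b ≠ j)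
  · rw [iota_off h _ ha, if_neg, add_zero]
    rintro ⟨rfl, rfl⟩
    rcases ha with ha | ha
    · exact ha.1 rfl
    · exact ha.2 rfl
  · have ha' : (a = i ∨ a = j) ∧ (b = i ∨ b = j) := by
      by_contra hc
      apply ha
      tauto
    obtain ⟨ha1, hb1⟩ := ha'
    rcases ha1 with rfl | rfl <;> rcases hb1 with rfl | rfl
    · rw [iota_ii h, l11, if_neg (fun hh => h hh.2), add_zero, Matrix.one_apply_eq]
    · rw [iota_ij h, l10, if_pos ⟨rfl, rfl⟩, Matrix.one_apply_ne h.symm, zero_add]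
    · rw [iota_ji h, l01, if_neg (fun hh => h hh.1.symm), add_zero, Matrix.one_apply_ne h]
    · rw [iota_jj h, l00, if_neg (fun hh => h hh.1.symm), add_zero, Matrix.one_apply_eq]

theorem ZeA_rel1 {i j q : Fin n} (hij : i ≠ j) (hjq : q ≠ j) (hiq : q ≠ i) (z : ℚ_[p]) :
    ZeA_t (p := p) i j hij z * ZeA_t q i hiq 1 =
      ZeA_t q i hiq 1 * ZeA_t i j hij z * ZeA_t q j hjq (-z) := by
  apply Subtype.ext
  show Matrix.transvection i j z * Matrix.transvection q i 1 =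
    Matrix.transvection q i 1 * Matrix.transvection i j z * Matrix.transvection q j (-z)
  unfold Matrix.transvection
  have h1 : Matrix.single i j z * Matrix.single q i (1 : ℚ_[p]) = 0 :=
    Matrix.single_mul_single_of_ne _ _ _ _ hjq.symm _
  have h2 : Matrix.single q i (1 : ℚ_[p]) * Matrix.single i j z = Matrix.single q j z := by
    rw [Matrix.single_mul_single_same, one_mul]
  have h3 : Matrix.single i j z * Matrix.single q j (-z) = 0 :=
    Matrix.single_mul_single_of_ne _ _ _ _ hjq.symm _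
  have h4 : Matrix.single q i (1 : ℚ_[p]) * Matrix.single q j (-z) = 0 :=
    Matrix.single_mul_single_of_ne _ _ _ _ hiq.symm _
  have h5 : Matrix.single q j z * Matrix.single q j (-z) = 0 :=
    Matrix.single_mul_single_of_ne _ _ _ _ hjq.symm _
  have h6 : Matrix.single q j (-z) = - Matrix.single q j z := by
    ext a b
    rw [Matrix.neg_apply, Matrix.single_apply, Matrix.single_apply]
    split_ifs
    · rfl
    · rw [neg_zero]
  have h7 : (1 + Matrix.single q i (1 : ℚ_[p])) * (1 + Matrix.single i j z) =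
      1 + Matrix.single i j z + Matrix.single q i 1 + Matrix.single q j z := by
    rw [mul_add, add_mul, add_mul, h2, mul_one, mul_one, one_mul]
    abel
  rw [h7]
  simp only [mul_add, add_mul, mul_one, one_mul, h1, h3, h4, h5, zero_mul, add_zero, zero_add]
  rw [h6]
  abel

theorem ZeA_rel2 {i j q : Fin n} (hij : i ≠ j) (hjq : j ≠ q) (hiq : i ≠ q) (z : ℚ_[p]) :
    ZeA_t (p := p) i j hij z * ZeA_t j q hjq 1 =
      ZeA_t j q hjq 1 * ZeA_t i j hij z * ZeA_t i q hiq z := by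
  apply Subtype.ext
  show Matrix.transvection i j z * Matrix.transvection j q 1 =
    Matrix.transvection j q 1 * Matrix.transvection i j z * Matrix.transvection i q z
  unfold Matrix.transvection
  have h1 : Matrix.single i j z * Matrix.single j q (1 : ℚ_[p]) = Matrix.single i q z := by
    rw [Matrix.single_mul_single_same, mul_one]
  have h2 : Matrix.single j q (1 : ℚ_[p]) * Matrix.single i j z = 0 :=
    Matrix.single_mul_single_of_ne _ _ _ _ hiq.symm _
  have h3 : Matrix.single i j z * Matrix.single i q z = 0 :=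
    Matrix.single_mul_single_of_ne _ _ _ _ hij.symm _
  have h4 : Matrix.single j q (1 : ℚ_[p]) * Matrix.single i q z = 0 :=
    Matrix.single_mul_single_of_ne _ _ _ _ hiq.symm _
  simp only [mul_add, add_mul, mul_one, one_mul, h1, h2, h3, h4, zero_mul, add_zero, zero_add]
  abel

theorem ZeA_ind_zero {d : SLp p n} (h : d ∉ Kp p n) : indK p n C d = 0 := by
  unfold indK
  rw [if_neg h]

theorem ze_exists (χ : Tor p n →* Cˣ) {π : Equiv.Perm (Fin n)} {i j : Fin n} (h : Adj π i j)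
    {q : Fin n} (hq1 : j < q) (hq2 : q < i) : ∃ e ∈ U p (Ez π i j), e ∈ Kp p n ∧
      ∀ z : ℚ_[p], 1 < ‖z‖ → Gf χ π (indK p n C) (iota i j h.lt.ne (lo2 z) * e) = 0 := by
  have hij : i ≠ j := h.lt.ne'
  by_cases hc : π q < π j
  · have hπ : π j < π i := by
      rw [Fin.lt_def, h.adj]
      omega
    have hEr : Er π q i := ⟨hq2, hc.trans hπ⟩
    refine ⟨ZeA_t q i hq2.ne 1, ZeA_t_mem _ _ ⟨hEr, fun hh => hq1.ne' hh.1⟩,
      ZeA_t_Kp _ (by rw [norm_one]), fun z hz => ?_⟩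
    rw [ZeA_iota, ZeA_rel1 hij hq1.ne' hq2.ne z]
    have hg : ZeA_t (p := p) i j hij z ∈ U p (Fr π) := ZeA_t_mem _ _ ⟨h.lt, hπ⟩
    have hd : ZeA_t (p := p) q j hq1.ne' (-z) ∈ U p (Dr π) := ZeA_t_mem _ _ ⟨hq1, hc⟩
    rw [gf_eq _ (ZeA_t_Bp hq2 1) hg hd, ZeA_ind_zero (ZeA_t_not_Kp _ (by rwa [norm_neg])),
      mul_zero]
  · have hqj : π q ≠ π j := fun hh => hq1.ne' (π.injective hh)
    have hqi : π q ≠ π i := fun hh => hq2.ne (π.injective hh)
    have h1 : π j < π q := lt_of_le_of_ne (not_lt.mp hc) hqj.symm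
    have h2 : π i < π q := by
      have h3 : (π j : ℕ) < (π q : ℕ) := h1
      have h4 : (π q : ℕ) ≠ (π i : ℕ) := fun hh => hqi (Fin.ext hh)
      have h5 := h.adj
      rw [Fin.lt_def]
      omega
    have hπ : π j < π i := by
      rw [Fin.lt_def, h.adj]
      omega
    have hEr : Er π j q := ⟨hq1, h1⟩
    refine ⟨ZeA_t j q hq1.ne 1, ZeA_t_mem _ _ ⟨hEr, fun hh => hq2.ne hh.2⟩,
      ZeA_t_Kp _ (by rw [norm_one]), fun z hz => ?_⟩
    rw [ZeA_iota, ZeA_rel2 hij hq1.ne hq2.ne' z]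
    have hg : ZeA_t (p := p) i j hij z ∈ U p (Fr π) := ZeA_t_mem _ _ ⟨h.lt, hπ⟩
    have hd : ZeA_t (p := p) i q hq2.ne' z ∈ U p (Dr π) := ZeA_t_mem _ _ ⟨hq2, h2⟩
    rw [gf_eq _ (ZeA_t_Bp hq1 1) hg hd, ZeA_ind_zero (ZeA_t_not_Kp _ hz), mul_zero]

end Pool.Agent.Lib.MP_f399a8_nt.S
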