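import Pool.Agent.Lib.MP_f399a8_ntS.ZeA

/-!
# The function `f0`

`f0 x = G (x * e) - G x` with `G = Gf χ π indK` and `e ∈ U (Ez π i j) ∩ Kp`.  Write `g_z = iota (lo2 z)`.

PROOF of `f0_left`: `gf_left`.
PROOF of `f0_zero`.  Let `d ∈ U (Dr π)`, `‖z‖ ≤ 1`, `y = d * g_z`.
`G y`: `y = g_z * (g_z⁻¹ * d * g_z)`, `g_z ∈ U (Fr π)` (`lo_fr`), `d' := g_z⁻¹ * d * g_z ∈ U (Dr π)` (`lo_norm`), so
`G y = indK d' = indK d` (`g_z ∈ Kp`).
`G (y * e)`: `y * e = d * e' * g_z` with `e' := g_z * e * g_z⁻¹`.  `e ∈ U (Ob π i j)` (`Ez ≤ Ob`), so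
`e' ∈ U (Ob π i j) ∩ Kp` (`ob_norm`), `d * e' ∈ U (Ord π)` and by `lu_er` `d * e' = e₁ * d₁`, `e₁ ∈ U (Er π)`,
`d₁ ∈ U (Dr π)`, integral if `d * e'` is.  `y * e = e₁ * g_z * (g_z⁻¹ * d₁ * g_z)`, so
`G (y * e) = indK (g_z⁻¹ * d₁ * g_z) = indK d₁` (`cb_unip`, `U_Bp`).  `d ∈ Kp → d₁ ∈ Kp` by `lu_er`.  Conversely if
`d₁ ∈ Kp`: `x := e₁⁻¹ * d = d₁ * e'⁻¹ ∈ U (Ord π) ∩ Kp`; `kp_er` with `b = e₁⁻¹` (in `Bp` and `Bt π`) gives `d ∈ Kp`.
So `indK d₁ = indK d` and `f0 y = 0`.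
PROOF of `f0_ne`: `G (g_z) = indK 1 = 1` (`g_z ∈ U (Fr π)`), `G (g_z * e) = 0` by hypothesis.
-/

namespace Pool.Agent.Lib.MP_f399a8_nt.S

open Matrix Filter Topology

noncomputable section

variable {p : ℕ} [Fact p.Prime] {n : ℕ} {C : Type*} [NormedField C]

/-- the difference of the box function and its translate -/
def f0 (χ : Tor p n →* Cˣ) (π : Equiv.Perm (Fin n)) (e : SLp p n) (x : SLp p n) : C :=
  Gf χ π (indK p n C) (x * e) - Gf χ π (indK p n C) x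

variable {χ : Tor p n →* Cˣ} {π : Equiv.Perm (Fin n)} {i j : Fin n}

theorem f0_left (e : SLp p n) {b : SLp p n} (hb : b ∈ Bp p n) (x : SLp p n) :
    f0 χ π e (b * x) = cb χ b * f0 χ π e x := by
  unfold f0
  rw [mul_assoc, gf_left _ hb, gf_left _ hb]
  ring

theorem ZfA_lo {z : ℚ_[p]} (hz : ‖z‖ ≤ 1) : (lo2 z : SLp p 2) ∈ Kp p 2 := by
  intro a b
  fin_cases a <;> fin_cases b
  · show ‖(1 : ℚ_[p])‖ ≤ 1
    rw [norm_one]
  · show ‖(0 : ℚ_[p])‖ ≤ 1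
    rw [norm_zero]
    exact zero_le_one
  · exact hz
  · show ‖(1 : ℚ_[p])‖ ≤ 1
    rw [norm_one]

theorem f0_zero (h : Adj π i j) {e : SLp p n} (he : e ∈ U p (Ez π i j)) (heK : e ∈ Kp p n)
    {d : SLp p n} (hd : d ∈ U p (Dr π)) {z : ℚ_[p]} (hz : ‖z‖ ≤ 1) :
    f0 χ π e (d * iota i j h.lt.ne (lo2 z)) = 0 := by
  obtain ⟨g, hg⟩ : ∃ g, g = iota i j h.lt.ne (lo2 z) := ⟨_, rfl⟩
  have hgK : g ∈ Kp p n := hg ▸ iota_Kp h.lt.ne (ZfA_lo hz)
  have hgF : g ∈ U p (Fr π) := hg ▸ lo_fr h z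
  have hindc : ∀ x : SLp p n, indK p n C (g⁻¹ * x * g) = indK p n C x := by
    intro x
    unfold indK
    have h1 : g⁻¹ * x * g ∈ Kp p n ↔ x ∈ Kp p n := by
      rw [Subgroup.mul_mem_cancel_right _ hgK, Subgroup.mul_mem_cancel_left _ (inv_mem hgK)]
    by_cases hx : x ∈ Kp p n
    · rw [if_pos hx, if_pos (h1.mpr hx)]
    · rw [if_neg hx, if_neg fun h2 => hx (h1.mp h2)]
  have hG1 : Gf χ π (indK p n C) (d * g) = indK p n C d := by
    have h1 : d * g = 1 * g * (g⁻¹ * d * g) := by group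
    have h2 : g⁻¹ * d * g ∈ U p (Dr π) := by
      rw [hg]
      exact (lo_norm h z hd).2
    rw [h1, gf_eq _ (one_mem _) hgF h2, hindc, cb_unip χ (fun i => ?_), one_mul]
    exact Matrix.one_apply_eq i
  obtain ⟨e', he'⟩ : ∃ e', e' = g * e * g⁻¹ := ⟨_, rfl⟩
  have he'O : e' ∈ U p (Ob π i j) := by
    rw [he', hg]
    exact (ob_norm h (lo2 z) (U_mono (fun a b hab => ⟨hab.1.2, hab.2⟩) he)).1
  have he'K : e' ∈ Kp p n := by
    rw [he']
    exact mul_mem (mul_mem hgK heK) (inv_mem hgK)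
  have hde : d * e' ∈ U p (Ord π) :=
    U_mul (so_ord π) (U_mono (fun a b hab => hab.2) hd) (U_mono (fun a b hab => hab.1) he'O)
  obtain ⟨e₁, he₁, d₁, hd₁, hed, hK⟩ := lu_er π hde
  have hG2 : Gf χ π (indK p n C) (d * g * e) = indK p n C d₁ := by
    have h1 : d * g * e = e₁ * g * (g⁻¹ * d₁ * g) := by
      calc d * g * e = (d * (g * e * g⁻¹)) * g := by group
        _ = (e₁ * d₁) * g := by rw [← he', hed]
        _ = _ := by group
    have h2 : g⁻¹ * d₁ * g ∈ U p (Dr π) := by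
      rw [hg]
      exact (lo_norm h z hd₁).2
    rw [h1, gf_eq _ (U_Bp (fun a b hab => hab.1) he₁) hgF h2, hindc,
      cb_unip χ (fun i => U_diag (so_Er π) he₁ i), one_mul]
  have hiff : d ∈ Kp p n ↔ d₁ ∈ Kp p n := by
    constructor
    · intro h1
      exact (hK (mul_mem h1 he'K)).2
    · intro h1
      have h2 : e₁⁻¹ * d = d₁ * e'⁻¹ := by
        have h3 : d = e₁ * d₁ * e'⁻¹ := by
          rw [← hed]
          group
        rw [h3]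
        group
      have h4 : e₁⁻¹ * d ∈ Kp p n := by
        rw [h2]
        exact mul_mem h1 (inv_mem he'K)
      exact (kp_er π (inv_mem (U_Bp (fun a b hab => hab.1) he₁))
        (inv_mem (U_Bt (fun a b hab => hab.2) he₁)) hd h4).2
  unfold f0
  rw [← hg, hG2, hG1]
  unfold indK
  by_cases h1 : d ∈ Kp p n
  · rw [if_pos h1, if_pos (hiff.mp h1), sub_self]
  · rw [if_neg h1, if_neg fun h2 => h1 (hiff.mpr h2), sub_self]

theorem f0_ne (h : Adj π i j) {e : SLp p n}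
    (hz : ∀ z : ℚ_[p], 1 < ‖z‖ → Gf χ π (indK p n C) (iota i j h.lt.ne (lo2 z) * e) = 0)
    {z : ℚ_[p]} (hz1 : 1 < ‖z‖) : f0 χ π e (iota i j h.lt.ne (lo2 z)) = -1 := by
  unfold f0
  have h1 : Gf χ π (indK p n C) (iota i j h.lt.ne (lo2 z)) = 1 := by
    have h2 : iota i j h.lt.ne (lo2 z) = (1 : SLp p n) * iota i j h.lt.ne (lo2 z) * 1 := by
      rw [one_mul, mul_one]
    rw [h2, gf_eq _ (one_mem _) (lo_fr h z) (U_one _), cb_unip χ (fun i => ?_), one_mul]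
    · unfold indK
      rw [if_pos (one_mem _)]
    · exact Matrix.one_apply_eq i
  rw [hz z hz1, h1, zero_sub]

end

end Pool.Agent.Lib.MP_f399a8_nt.S
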