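import Pool.Agent.Lib.MP_f399a8_ntS.ZfA
import Pool.Agent.Lib.MP_f399a8_ntS.PiA

/-!
# The function `f1`

`f1 x = f0 (x * iota w2)`.  Write `g_z = iota (lo2 z)`, `w = iota w2`, `G = Gf χ π indK`.

PROOF.
* `f1_big`: let `‖z‖ ≥ 1`, `x = d * g_z`.  `x * w = d * iota (up2 z 1) * g_{-1/z}` (`lo_w`).
  `s := d * iota (up2 z 1) ∈ Bt π` (`dr_Bt`, `up2_Bt`), `s = b' * d'` (`bt_split`), so
  `f1 x = f0 (b' * (d' * g_{-1/z})) = cb χ b' * f0 (d' * g_{-1/z}) = 0` (`f0_left`, `f0_zero`, `‖-1/z‖ ≤ 1`).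
* `f1_ne`: take `u = g_{-p}` (`lo_dr`): `u * w = iota (up2 (-p) 1) * g_{1/p}` and
  `f1 u = cb χ (iota (up2 ..)) * f0 (g_{1/p}) = - cb χ (..) ≠ 0` (`f0_ne`, `cb_ne_zero`, `iota_Bp`).
* `f1_supp`: let `u ∈ U (Dr (sw π i j))`, `u ∉ Kp`, `u = d * g_z` (`dr_split`).  If `‖z‖ ≥ 1` use `f1_big`.  If
  `‖z‖ < 1`: `d ∉ Kp` (`dr_mul_Kp`).  Claim: `G (u * g) = 0` for `g = w * e` and `g = w` (both are in `Kp` and in the
  parabolic subgroup `P = Bt (qb π i j)`).  Suppose `y = u * g`, `G y ≠ 0`: `y = b * f * d₂` (`gf_ne`) with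
  `indK d₂ ≠ 0`, so `d₂ ∈ Kp`.  `y ∈ P` (`dr_sw_Pb`).  `pb_split`: if `y = b₃ * d₃ * w` then
  `d₃ * w = (b₃⁻¹ * b) * (f * d₂)` contradicts `dw_notin`.  If `y = b₃ * d₃ * g_{z₃}` then
  `y = b₃ * g_{z₃} * d₄` with `d₄ = g_{z₃}⁻¹ * d₃ * g_{z₃} ∈ U (Dr π)` (`lo_norm`), and `cell_unique` gives
  `b = b₃`, `f = g_{z₃}`, `d₂ = d₄`.  By `lo2_iwa` `g_{z₃} = iota (up2 ..) * iota k₅`, so
  `u = y * g⁻¹ = b₆ * k₆` with `b₆ = b₃ * iota (up2 ..) ∈ Bp`, `k₆ = iota k₅ * d₂ * g⁻¹ ∈ Kp ∩ P`.  So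
  `d = b₆ * k₇`, `k₇ = k₆ * g_z⁻¹ ∈ Kp ∩ P` (`‖z‖ ≤ 1`).  `b₆⁻¹ = k₇ * d⁻¹ ∈ Bp ∩ P`, so it is in `Bt π`
  (`pb_Bp`), and `b₆⁻¹ * d = k₇ ∈ Kp`, so `d ∈ Kp` by `kp_er`.  Contradiction.
* `f1_norm`: `gf_norm` with `A = 1` (`‖indK‖ ≤ 1`) for `k * (w * e)` and `k * w` in `Kp`, ultrametric inequality.
* `f1_HH`: if `f1 x ≠ 0`, one of the two terms `G (x * g)`, `g ∈ {w * e, w}`, has norm `≥ ‖f1 x‖ > 0` (ultrametric);
  `x * g = b * f * d` with `d ∈ U (Dr π) ∩ Kp`, `‖G (x * g)‖ = ‖cb χ b‖`; `c = d * g⁻¹`.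
-/

namespace Pool.Agent.Lib.MP_f399a8_nt.S

open Matrix Filter Topology

noncomputable section

variable {p : ℕ} [Fact p.Prime] {n : ℕ} {C : Type*} [NormedField C]

/-- the translate of `f0` by the Weyl element -/
def f1 (χ : Tor p n →* Cˣ) (π : Equiv.Perm (Fin n)) {i j : Fin n} (h : Adj π i j) (e : SLp p n)
    (x : SLp p n) : C := f0 χ π e (x * iota i j h.lt.ne (w2 p))

variable {χ : Tor p n →* Cˣ} {π : Equiv.Perm (Fin n)} {i j : Fin n}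

theorem ZfB_sub [IsUltrametricDist C] (a b : C) : ‖a - b‖ ≤ max ‖a‖ ‖b‖ := by
  rw [sub_eq_add_neg]
  refine (IsUltrametricDist.norm_add_le_max _ _).trans ?_
  rw [norm_neg]

theorem ZfB_wK : w2 p ∈ Kp p 2 := by
  intro a b
  fin_cases a <;> fin_cases b <;> simp [w2]

theorem ZfB_loK {z : ℚ_[p]} (hz : ‖z‖ ≤ 1) : lo2 z ∈ Kp p 2 := by
  intro a b
  fin_cases a <;> fin_cases b <;> simp [lo2, hz]

theorem ZfB_ePb (h : Adj π i j) {e : SLp p n} (he : e ∈ U p (Ez π i j)) :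
    e ∈ Bt p (qb π i j) := by
  refine u_Pb h (U_Bt (π := π) (R := Ez π i j) ?_ he)
  rintro a b ⟨hab, -⟩
  exact hab.2

theorem ZfB_indK_ne {d : SLp p n} (h : indK p n C d ≠ 0) : d ∈ Kp p n := by
  by_contra hd
  exact h (by unfold indK; rw [if_neg hd])

theorem ZfB_indK_one {d : SLp p n} (h : d ∈ Kp p n) : indK p n C d = 1 := by
  unfold indK; rw [if_pos h]

theorem ZfB_indK_norm (d : SLp p n) : ‖indK p n C d‖ ≤ 1 := by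
  unfold indK
  split_ifs
  · rw [norm_one]
  · rw [norm_zero]; exact zero_le_one

theorem ZfB_zero (h : Adj π i j) {d : SLp p n} (hd : d ∈ U p (Dr π)) (hdK : d ∉ Kp p n)
    {z : ℚ_[p]} (hz : ‖z‖ ≤ 1) {g : SLp p n} (hgK : g ∈ Kp p n) (hgP : g ∈ Bt p (qb π i j)) :
    Gf χ π (indK p n C) (d * iota i j h.lt.ne (lo2 z) * g) = 0 := by
  by_contra hne
  obtain ⟨b, hb, f, hf, d₂, hd₂, hy, hψ, -⟩ := gf_ne hne
  have hd₂K : d₂ ∈ Kp p n := ZfB_indK_ne hψ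
  have hdP : d ∈ Bt p (qb π i j) := u_Pb h (dr_Bt hd)
  have hd₂P : d₂ ∈ Bt p (qb π i j) := u_Pb h (dr_Bt hd₂)
  have hzP : iota i j h.lt.ne (lo2 z) ∈ Bt p (qb π i j) := iota_Pb h _
  have hzK : iota i j h.lt.ne (lo2 z) ∈ Kp p n := iota_Kp _ (ZfB_loK hz)
  have hyP : d * iota i j h.lt.ne (lo2 z) * g ∈ Bt p (qb π i j) :=
    mul_mem (mul_mem hdP hzP) hgP
  have hlo : ∀ {R : Fin n → Fin n → Prop} {x : SLp p n}, (∀ a b, R a b → Lo a b) →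
      x ∈ U p R → x ∈ U p (Lo : Fin n → Fin n → Prop) := fun hR hx => U_mono hR hx
  obtain ⟨b₃, hb₃, -, d₃, hd₃, hy₃⟩ := pb_split h hyP
  rcases hy₃ with ⟨z₃, hy₃⟩ | hy₃
  · have hd₄ := (lo_norm h z₃ hd₃).2
    have hcell : b * f * d₂ = b₃ * iota i j h.lt.ne (lo2 z₃) *
        ((iota i j h.lt.ne (lo2 z₃))⁻¹ * d₃ * iota i j h.lt.ne (lo2 z₃)) := by
      rw [← hy, hy₃]; group
    obtain ⟨hbb, hff, -⟩ := cell_unique π hb hb₃ hf (lo_fr h z₃) hd₂ hd₄ hcell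
    obtain ⟨a, ha, c, k₅, hk₅, hlo2⟩ := lo2_iwa z₃
    have hf2 : f = iota i j h.lt.ne (up2 a ha c) * iota i j h.lt.ne k₅ := by
      rw [hff, hlo2, map_mul]
    have hb₆ : b * iota i j h.lt.ne (up2 a ha c) ∈ Bp p n := mul_mem hb (iota_Bp h.lt ha c)
    have hk₇K : iota i j h.lt.ne k₅ * d₂ * g⁻¹ * (iota i j h.lt.ne (lo2 z))⁻¹ ∈ Kp p n :=
      mul_mem (mul_mem (mul_mem (iota_Kp _ hk₅) hd₂K) (inv_mem hgK)) (inv_mem hzK)
    have hk₇P : iota i j h.lt.ne k₅ * d₂ * g⁻¹ * (iota i j h.lt.ne (lo2 z))⁻¹ ∈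
        Bt p (qb π i j) :=
      mul_mem (mul_mem (mul_mem (iota_Pb h _) hd₂P) (inv_mem hgP)) (inv_mem hzP)
    have hdk : (b * iota i j h.lt.ne (up2 a ha c))⁻¹ * d =
        iota i j h.lt.ne k₅ * d₂ * g⁻¹ * (iota i j h.lt.ne (lo2 z))⁻¹ := by
      have h1 : d = b * f * d₂ * g⁻¹ * (iota i j h.lt.ne (lo2 z))⁻¹ := by
        rw [← hy]; group
      conv_lhs => rw [h1, hf2]
      group
    have hb₇ : (b * iota i j h.lt.ne (up2 a ha c))⁻¹ ∈ Bt p (qb π i j) := by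
      have h1 : (b * iota i j h.lt.ne (up2 a ha c))⁻¹ =
          iota i j h.lt.ne k₅ * d₂ * g⁻¹ * (iota i j h.lt.ne (lo2 z))⁻¹ * d⁻¹ := by
        rw [← hdk]; group
      rw [h1]
      exact mul_mem hk₇P (inv_mem hdP)
    refine hdK (kp_er π (inv_mem hb₆) (pb_Bp h (inv_mem hb₆) hb₇) hd ?_).2
    rw [hdk]
    exact hk₇K
  · refine dw_notin h hd₃ (b := b₃⁻¹ * b) (u := f * d₂) (mul_mem (inv_mem hb₃) hb)
      (U_mul so_Lo (hlo (fun _ _ h => h.1) hf) (hlo (fun _ _ h => h.1) hd₂)) ?_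
    have h1 : b * f * d₂ = b₃ * d₃ * iota i j h.lt.ne (w2 p) := by rw [← hy, hy₃]
    calc d₃ * iota i j h.lt.ne (w2 p) = b₃⁻¹ * (b₃ * d₃ * iota i j h.lt.ne (w2 p)) := by group
      _ = b₃⁻¹ * b * (f * d₂) := by rw [← h1]; group


theorem f1_left (h : Adj π i j) (e : SLp p n) {b : SLp p n} (hb : b ∈ Bp p n) (x : SLp p n) :
    f1 χ π h e (b * x) = cb χ b * f1 χ π h e x := by
  unfold f1
  rw [mul_assoc]
  exact f0_left e hb _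

theorem f1_big (h : Adj π i j) {e : SLp p n} (he : e ∈ U p (Ez π i j)) (heK : e ∈ Kp p n)
    {d : SLp p n} (hd : d ∈ U p (Dr π)) {z : ℚ_[p]} (hz : 1 ≤ ‖z‖) :
    f1 χ π h e (d * iota i j h.lt.ne (lo2 z)) = 0 := by
  have hz0 : z ≠ 0 := by
    rintro rfl
    rw [norm_zero] at hz
    linarith
  unfold f1
  have h1 : d * iota i j h.lt.ne (lo2 z) * iota i j h.lt.ne (w2 p) =
      d * iota i j h.lt.ne (up2 z hz0 1) * iota i j h.lt.ne (lo2 (-z⁻¹)) := by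
    rw [mul_assoc, ← map_mul, lo_w hz0, map_mul, ← mul_assoc]
  obtain ⟨b', hb', -, d', hd', hs⟩ := bt_split (mul_mem (dr_Bt hd) (up2_Bt h hz0 1))
  rw [h1, hs, mul_assoc, f0_left e hb', f0_zero h he heK hd', mul_zero]
  rw [norm_neg, norm_inv]
  exact inv_le_one_of_one_le₀ hz

theorem f1_ne (h : Adj π i j) {e : SLp p n}
    (hz : ∀ z : ℚ_[p], 1 < ‖z‖ → Gf χ π (indK p n C) (iota i j h.lt.ne (lo2 z) * e) = 0) :
    ∃ u ∈ U p (Dr (sw π i j)), f1 χ π h e u ≠ 0 := by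
  have hp0 : (p : ℚ_[p]) ≠ 0 := by
    exact_mod_cast (Fact.out : p.Prime).ne_zero
  have hp1 : (-(p : ℚ_[p])) ≠ 0 := neg_ne_zero.mpr hp0
  refine ⟨iota i j h.lt.ne (lo2 (-(p : ℚ_[p]))), lo_dr h _, ?_⟩
  unfold f1
  rw [← map_mul, lo_w hp1, map_mul, f0_left e (iota_Bp h.lt hp1 1), f0_ne h hz]
  · exact mul_ne_zero (cb_ne_zero _ _) (neg_ne_zero.mpr one_ne_zero)
  · rw [norm_neg, norm_inv, norm_neg, Padic.norm_p, inv_inv]
    exact_mod_cast (Fact.out : p.Prime).one_lt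

theorem f1_supp (h : Adj π i j) {e : SLp p n} (he : e ∈ U p (Ez π i j)) (heK : e ∈ Kp p n)
    {u : SLp p n} (hu : u ∈ U p (Dr (sw π i j))) (huK : u ∉ Kp p n) : f1 χ π h e u = 0 := by
  obtain ⟨d, hd, z, rfl⟩ := dr_split h hu
  rcases le_or_gt 1 ‖z‖ with hz | hz
  · exact f1_big h he heK hd hz
  · have hdK : d ∉ Kp p n := fun hdK => huK ((dr_mul_Kp h hd z).1.mpr ⟨hdK, hz.le⟩)
    have hwK : iota i j h.lt.ne (w2 p) ∈ Kp p n := iota_Kp _ ZfB_wK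
    have hwP : iota i j h.lt.ne (w2 p) ∈ Bt p (qb π i j) := iota_Pb h _
    unfold f1 f0
    rw [ZfB_zero h hd hdK hz.le hwK hwP, mul_assoc _ _ e,
      ZfB_zero h hd hdK hz.le (mul_mem hwK heK) (mul_mem hwP (ZfB_ePb h he)), sub_zero]

theorem f1_norm [IsUltrametricDist C] {v : Fin n → ℝ} (hs : Slope χ v) (hg : Good v π)
    (h : Adj π i j) {e : SLp p n} (heK : e ∈ Kp p n) {k : SLp p n} (hk : k ∈ Kp p n) :
    ‖f1 χ π h e k‖ ≤ 1 := by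
  have hwK : iota i j h.lt.ne (w2 p) ∈ Kp p n := iota_Kp _ ZfB_wK
  have h1 : ∀ k ∈ Kp p n, ‖Gf χ π (indK p n C) k‖ ≤ 1 := fun k hk =>
    gf_norm hs hg (fun d _ hd => by unfold indK; rw [if_neg hd]) zero_le_one
      (fun d _ => ZfB_indK_norm d) hk
  unfold f1 f0
  exact (ZfB_sub _ _).trans
    (max_le (h1 _ (mul_mem (mul_mem hk hwK) heK)) (h1 _ (mul_mem hk hwK)))

theorem f1_HH [IsUltrametricDist C] (h : Adj π i j) {e : SLp p n} (he : e ∈ U p (Ez π i j))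
    (heK : e ∈ Kp p n) : HH χ π i j (f1 χ π h e) := by
  intro x hx
  have hwK : iota i j h.lt.ne (w2 p) ∈ Kp p n := iota_Kp _ ZfB_wK
  have hwP : iota i j h.lt.ne (w2 p) ∈ Bt p (qb π i j) := iota_Pb h _
  have key : ∀ g : SLp p n, g ∈ Kp p n → g ∈ Bt p (qb π i j) →
      ‖f1 χ π h e x‖ ≤ ‖Gf χ π (indK p n C) (x * g)‖ →
      ∃ b ∈ Bp p n, ∃ u ∈ U p (Fr π), ∃ c ∈ Bt p (qb π i j), c ∈ Kp p n ∧
        x = b * u * c ∧ ‖f1 χ π h e x‖ ≤ ‖cb χ b‖ := by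
    intro g hgK hgP hle
    have hne : Gf χ π (indK p n C) (x * g) ≠ 0 := by
      intro h0
      rw [h0, norm_zero] at hle
      exact hx (norm_le_zero_iff.mp hle)
    obtain ⟨b, hb, f, hf, d, hd, hy, hψ, hv⟩ := gf_ne hne
    have hdK := ZfB_indK_ne hψ
    refine ⟨b, hb, f, hf, d * g⁻¹, mul_mem (u_Pb h (dr_Bt hd)) (inv_mem hgP),
      mul_mem hdK (inv_mem hgK), ?_, ?_⟩
    · rw [← mul_assoc, ← hy]; group
    · rw [hv, ZfB_indK_one hdK, mul_one] at hle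
      exact hle
  have hmax : ‖f1 χ π h e x‖ ≤ max ‖Gf χ π (indK p n C) (x * (iota i j h.lt.ne (w2 p) * e))‖
      ‖Gf χ π (indK p n C) (x * iota i j h.lt.ne (w2 p))‖ := by
    unfold f1 f0
    rw [← mul_assoc]
    exact ZfB_sub _ _
  rcases le_max_iff.mp hmax with h1 | h1
  · exact key _ (mul_mem hwK heK) (mul_mem hwP (ZfB_ePb h he)) h1
  · exact key _ hwK hwP h1

end

end Pool.Agent.Lib.MP_f399a8_nt.S
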