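import Pool.Agent.Lib.MP_f399a8_ntS.ZfB

/-!
# `f1` on the parabolic subgroup

Write `g_z = iota (lo2 z)`, `w = iota w2`, `π' = sw π i j`.

PROOF of `f1_ps`: `gf_ps` for `G`; translates and differences of functions in the principal series are in it
(continuity of `x ↦ x * g`).
PROOF of `f1_mem`: `G ∈ W`, `hW.trans`, `hW.add`, `hW.smul` with `-1`.
PROOF of `f1_eq`: let `y ∈ Bt (qb π i j)`; `pb_split`.
If `y = b * d * g_z`: `u := d * g_z ∈ U (Dr π')` (`dr_mul`), `Gf χ π' f1 y = cb χ b * f1 u` (`gf_eq` with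
`f = 1`), `f1 y = cb χ b * f1 u` (`f1_left`).
If `y = b * d * w`: `Gf χ π' f1 y = 0`: otherwise `y = b' * f' * d'` (`gf_ne`), `d * w = (b⁻¹ * b') * (f' * d')`
contradicts `dw_notin`.  `f1 y = cb χ b * f0 (d * (w * w))`, and `w * w = iota (w2 * w2)`,
`w2 * w2 = up2 (-1) 0 = -1`, so `s = d * (w * w) ∈ Bt π` (`up2_Bt`), `s = b' * d'` (`bt_split`), and
`f0 (b' * d') = cb χ b' * f0 (d' * g_0) = 0` (`lo2_zero`, `f0_zero` with `z = 0`).
-/

namespace Pool.Agent.Lib.MP_f399a8_nt.S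

open Matrix Filter Topology

variable {p : ℕ} [Fact p.Prime] {n : ℕ} {C : Type*} [NormedField C]
  {χ : Tor p n →* Cˣ} {π : Equiv.Perm (Fin n)} {i j : Fin n}

private theorem ZfC_eq (h : Adj π i j) (e : SLp p n) :
    f1 χ π h e = fun x : SLp p n => Gf χ π (indK p n C) (x * (iota i j h.lt.ne (w2 p) * e)) +
      (-1) * Gf χ π (indK p n C) (x * iota i j h.lt.ne (w2 p)) := by
  funext x
  show Gf χ π (indK p n C) (x * iota i j h.lt.ne (w2 p) * e) -
    Gf χ π (indK p n C) (x * iota i j h.lt.ne (w2 p)) = _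
  rw [mul_assoc]
  ring

private theorem ZfC_cont (g : SLp p n) : Continuous fun x : SLp p n => x * g :=
  continuous_mul_const g

theorem f1_ps (hχ : Continuous χ) {v : Fin n → ℝ} (hs : Slope χ v) (hg : Good v π)
    (h : Adj π i j) (e : SLp p n) : IsPS χ (f1 χ π h e) := by
  have hG := gf_ps hχ hs hg (indK_cont p n C) (fun d _ hd2 => by
    unfold indK
    rw [if_neg hd2])
  refine isPS_iff.mpr ⟨?_, fun b hb g => f1_left h e hb g⟩
  rw [ZfC_eq h e]
  exact (hG.1.comp (ZfC_cont _)).add (continuous_const.mul (hG.1.comp (ZfC_cont _)))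

theorem f1_mem (h : Adj π i j) (e : SLp p n) {W : Set (SLp p n → C)} (hW : IsClosedSubrep χ W)
    (hG : Gf χ π (indK p n C) ∈ W) : f1 χ π h e ∈ W := by
  rw [ZfC_eq h e]
  exact hW.add _ (hW.trans _ _ hG) _ (hW.smul (-1) _ (hW.trans _ _ hG))

theorem f1_eq (h : Adj π i j) {e : SLp p n} (he : e ∈ U p (Ez π i j)) (heK : e ∈ Kp p n)
    {y : SLp p n} (hy : y ∈ Bt p (qb π i j)) :
    f1 χ π h e y = Gf χ (sw π i j) (f1 χ π h e) y := by
  obtain ⟨b, hb, hb', d, hd, hcase⟩ := pb_split h hy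
  rcases hcase with ⟨z, hz⟩ | hw
  · have hu : d * iota i j h.lt.ne (lo2 z) ∈ U p (Dr (sw π i j)) := dr_mul h hd z
    have h1 := gf_eq (χ := χ) (π := sw π i j) (f1 χ π h e) hb (U_one (Fr (sw π i j))) hu
    rw [mul_one] at h1
    rw [hz, mul_assoc, h1, f1_left h e hb]
  · have h1 : Gf χ (sw π i j) (f1 χ π h e) y = 0 := by
      by_contra hne
      obtain ⟨b1, hb1, f, hf, d1, hd1, h2, -, -⟩ := gf_ne hne
      have h3 : f * d1 ∈ U p (Lo : Fin n → Fin n → Prop) :=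
        U_mul so_Lo (U_mono (fun _ _ h => h.1) hf) (U_mono (fun _ _ h => h.1) hd1)
      refine dw_notin h hd (mul_mem (inv_mem hb) hb1) h3 ?_
      have h4 : b * (d * iota i j h.lt.ne (w2 p)) = b1 * (f * d1) := by
        rw [← mul_assoc, ← mul_assoc, ← hw, h2]
      rw [mul_assoc, ← h4, inv_mul_cancel_left]
    have h2 : w2 p * w2 p = up2 (-1) (neg_ne_zero.mpr one_ne_zero) 0 := by
      apply Subtype.ext
      show !![(0 : ℚ_[p]), 1; -1, 0] * !![(0 : ℚ_[p]), 1; -1, 0] =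
        !![(-1 : ℚ_[p])⁻¹, 0; 0, -1]
      rw [Matrix.mul_fin_two]
      norm_num
    have h3 : d * iota i j h.lt.ne (up2 (-1) (neg_ne_zero.mpr one_ne_zero) 0) ∈ Bt p π :=
      mul_mem (dr_Bt hd) (up2_Bt h _ _)
    obtain ⟨b2, hb2, -, d2, hd2, h4⟩ := bt_split h3
    have h5 : f0 χ π e d2 = (0 : C) := by
      have h6 := f0_zero (C := C) (χ := χ) h he heK hd2 (z := 0) (by simp)
      rw [lo2_zero, map_one, mul_one] at h6
      exact h6
    rw [h1, hw, mul_assoc, f1_left h e hb]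
    have h7 : f1 χ π h e (d * iota i j h.lt.ne (w2 p)) = (0 : C) := by
      show f0 χ π e (d * iota i j h.lt.ne (w2 p) * iota i j h.lt.ne (w2 p)) = 0
      rw [mul_assoc, ← map_mul, h2, h4, f0_left e hb2, h5, mul_zero]
    rw [h7, mul_zero]

end Pool.Agent.Lib.MP_f399a8_nt.S
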